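import Mathlib

/-!
First-order formulas in the language of set theory (with constants), satisfaction in classes of
sets, definable predicates and functions, and their closure properties.
-/

set_option autoImplicit false

universe u v

namespace Pool.Agent.CTM

/-- The sets of the universe in which all the models live. -/
abbrev V : Type 1 := ZFSet.{0}

/-- First-order formulas in the language `{∈}` with constants from `C` and free variables among
the first `n`. A term is a constant or a variable. -/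
inductive Fm (C : Type u) : ℕ → Type u
  | mem {n : ℕ} (s t : C ⊕ Fin n) : Fm C n
  | eq {n : ℕ} (s t : C ⊕ Fin n) : Fm C n
  | neg {n : ℕ} (φ : Fm C n) : Fm C n
  | and {n : ℕ} (φ ψ : Fm C n) : Fm C n
  | all {n : ℕ} (φ : Fm C (n + 1)) : Fm C n

/-- Satisfaction in the structure with domain `D` and membership relation `E`, where `c` gives the
values of the constants. -/
def Fm.Sat {C : Type u} {α : Type v} (D : Set α) (E : α → α → Prop) (c : C → α) :
    ∀ {n : ℕ}, Fm C n → (Fin n → α) → Prop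
  | _, .mem s t, v => E (Sum.elim c v s) (Sum.elim c v t)
  | _, .eq s t, v => Sum.elim c v s = Sum.elim c v t
  | _, .neg φ, v => ¬ φ.Sat D E c v
  | _, .and φ ψ, v => φ.Sat D E c v ∧ ψ.Sat D E c v
  | _, .all φ, v => ∀ x ∈ D, φ.Sat D E c (Fin.snoc v x)

/-- Renaming of variables. -/
def Fm.ren {C : Type u} : ∀ {n m : ℕ}, (Fin n → Fin m) → Fm C n → Fm C m
  | _, _, ρ, .mem s t => .mem (Sum.map id ρ s) (Sum.map id ρ t)
  | _, _, ρ, .eq s t => .eq (Sum.map id ρ s) (Sum.map id ρ t)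
  | _, _, ρ, .neg φ => .neg (φ.ren ρ)
  | _, _, ρ, .and φ ψ => .and (φ.ren ρ) (ψ.ren ρ)
  | _, m, ρ, .all φ => .all (φ.ren (Fin.snoc (fun i => (ρ i).castSucc) (Fin.last m)))

/-- Replacing constants. -/
def Fm.mapC {C : Type u} {C' : Type v} (g : C → C') : ∀ {n : ℕ}, Fm C n → Fm C' n
  | _, .mem s t => .mem (Sum.map g id s) (Sum.map g id t)
  | _, .eq s t => .eq (Sum.map g id s) (Sum.map g id t)
  | _, .neg φ => .neg (φ.mapC g)
  | _, .and φ ψ => .and (φ.mapC g) (ψ.mapC g)
  | _, .all φ => .all (φ.mapC g)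

theorem snoc_comp_snoc {α : Type v} {n m : ℕ} (ρ : Fin n → Fin m) (v : Fin m → α) (x : α) :
    (Fin.snoc v x : Fin (m + 1) → α) ∘
      (Fin.snoc (fun i => (ρ i).castSucc) (Fin.last m) : Fin (n + 1) → Fin (m + 1)) =
      Fin.snoc (v ∘ ρ) x := by
  funext i
  refine Fin.lastCases ?_ (fun i => ?_) i
  · simp
  · simp

section

variable {C : Type u} {α : Type v} (D : Set α) (E : α → α → Prop) (c : C → α)

theorem Fm.sat_ren {n : ℕ} (φ : Fm C n) : ∀ {m : ℕ} (ρ : Fin n → Fin m) (v : Fin m → α),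
      (φ.ren ρ).Sat D E c v ↔ φ.Sat D E c (v ∘ ρ) := by
  induction φ with
  | mem s t =>
    intro m ρ v
    show E (Sum.elim c v (Sum.map id ρ s)) (Sum.elim c v (Sum.map id ρ t)) ↔ _
    rw [Sum.elim_map, Sum.elim_map]; rfl
  | eq s t =>
    intro m ρ v
    show (Sum.elim c v (Sum.map id ρ s)) = (Sum.elim c v (Sum.map id ρ t)) ↔ _
    rw [Sum.elim_map, Sum.elim_map]; rfl
  | neg φ ih => intro m ρ v; exact not_congr (ih ρ v)
  | and φ ψ ih ih' => intro m ρ v; exact and_congr (ih ρ v) (ih' ρ v)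
  | all φ ih =>
    intro m ρ v
    refine forall_congr' fun x => imp_congr Iff.rfl ?_
    rw [ih, snoc_comp_snoc]

theorem Fm.sat_mapC {C' : Type*} (g : C' → C) {n : ℕ} (φ : Fm C' n) : ∀ (v : Fin n → α),
      (φ.mapC g).Sat D E c v ↔ φ.Sat D E (c ∘ g) v := by
  induction φ with
  | mem s t =>
    intro v
    show E (Sum.elim c v (Sum.map g id s)) (Sum.elim c v (Sum.map g id t)) ↔ _
    rw [Sum.elim_map, Sum.elim_map]; rfl
  | eq s t =>
    intro v
    show (Sum.elim c v (Sum.map g id s)) = (Sum.elim c v (Sum.map g id t)) ↔ _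
    rw [Sum.elim_map, Sum.elim_map]; rfl
  | neg φ ih => intro v; exact not_congr (ih v)
  | and φ ψ ih ih' => intro v; exact and_congr (ih v) (ih' v)
  | all φ ih =>
    intro v
    exact forall_congr' fun x => imp_congr Iff.rfl (ih _)

end

/-! ### Definable relations on tuples -/

section Fin

variable {A M : Set V}

/-- `P` is definable in `M` with parameters from `A` (tuples indexed by `Fin n`). -/
def DP (A M : Set V) (n : ℕ) (P : (Fin n → V) → Prop) : Prop :=
  ∃ φ : Fm (A ∩ M : Set V) n, ∀ v, (∀ i, v i ∈ M) →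
    (φ.Sat M (fun x y => x ∈ y) (fun a => a.1) v ↔ P v)

/-- `f` maps tuples from `M` to `M`, and has definable graph. -/
def DF (A M : Set V) (n : ℕ) (f : (Fin n → V) → V) : Prop :=
  (∀ v, (∀ i, v i ∈ M) → f v ∈ M) ∧ DP A M (n + 1) (fun v => v (Fin.last n) = f (Fin.init v))

theorem DP.congr {n : ℕ} {P Q : (Fin n → V) → Prop} (h : DP A M n P)
    (e : ∀ v, (∀ i, v i ∈ M) → (P v ↔ Q v)) : DP A M n Q := by
  obtain ⟨φ, hφ⟩ := h
  exact ⟨φ, fun v hv => (hφ v hv).trans (e v hv)⟩

theorem DP.not {n : ℕ} {P : (Fin n → V) → Prop} (h : DP A M n P) : DP A M n (fun v => ¬ P v) := by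
  obtain ⟨φ, hφ⟩ := h
  exact ⟨φ.neg, fun v hv => not_congr (hφ v hv)⟩

theorem DP.and {n : ℕ} {P Q : (Fin n → V) → Prop} (h : DP A M n P) (h' : DP A M n Q) :
    DP A M n (fun v => P v ∧ Q v) := by
  obtain ⟨φ, hφ⟩ := h
  obtain ⟨ψ, hψ⟩ := h'
  exact ⟨φ.and ψ, fun v hv => and_congr (hφ v hv) (hψ v hv)⟩

theorem DP.ren {n m : ℕ} {P : (Fin n → V) → Prop} (h : DP A M n P) (ρ : Fin n → Fin m) :
    DP A M m (fun v => P (v ∘ ρ)) := by
  obtain ⟨φ, hφ⟩ := h
  exact ⟨φ.ren ρ, fun v hv => (φ.sat_ren _ _ _ ρ v).trans (hφ _ fun i => hv _)⟩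

theorem DP.all {n : ℕ} {P : (Fin n → V) → V → Prop}
    (h : DP A M (n + 1) (fun v => P (Fin.init v) (v (Fin.last n)))) :
    DP A M n (fun v => ∀ x ∈ M, P v x) := by
  obtain ⟨φ, hφ⟩ := h
  refine ⟨φ.all, fun v hv => forall_congr' fun x => ?_⟩
  refine ⟨fun H hx => ?_, fun H hx => ?_⟩
  · have := (hφ (Fin.snoc v x) (fun i => ?_)).1 (H hx)
    · simpa using this
    · refine Fin.lastCases ?_ (fun i => ?_) i
      · simpa using hx
      · simpa using hv i
  · refine (hφ (Fin.snoc v x) (fun i => ?_)).2 ?_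
    · refine Fin.lastCases ?_ (fun i => ?_) i
      · simpa using hx
      · simpa using hv i
    · simpa using H hx

theorem DP.ex {n : ℕ} {P : (Fin n → V) → V → Prop}
    (h : DP A M (n + 1) (fun v => P (Fin.init v) (v (Fin.last n)))) :
    DP A M n (fun v => ∃ x ∈ M, P v x) := by
  refine (DP.all (P := fun v x => ¬ P v x) h.not).not.congr fun v _ => ?_
  push Not
  rfl

theorem DP.mem {n : ℕ} (i j : Fin n) : DP A M n (fun v => v i ∈ v j) :=
  ⟨.mem (.inr i) (.inr j), fun _ _ => Iff.rfl⟩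

theorem DP.eq {n : ℕ} (i j : Fin n) : DP A M n (fun v => v i = v j) :=
  ⟨.eq (.inr i) (.inr j), fun _ _ => Iff.rfl⟩

theorem DP.true {n : ℕ} : DP A M n (fun _ => True) := by
  refine (DP.all (P := fun _ x => x = x) ?_).congr fun v _ => ?_
  · exact DP.eq _ _
  · simp

theorem DP.const_eq {a : V} (ha : a ∈ A) (ha' : a ∈ M) {n : ℕ} (i : Fin n) :
    DP A M n (fun v => v i = a) :=
  ⟨.eq (.inr i) (.inl ⟨a, ha, ha'⟩), fun _ _ => Iff.rfl⟩

theorem DP.mono {A' : Set V} (hA : A ⊆ A') {n : ℕ} {P : (Fin n → V) → Prop} (h : DP A M n P) :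
    DP A' M n P := by
  obtain ⟨φ, hφ⟩ := h
  refine ⟨φ.mapC (fun a => ⟨a.1, hA a.2.1, a.2.2⟩), fun v hv => ?_⟩
  rw [Fm.sat_mapC]
  exact hφ v hv

theorem DP.subst {n : ℕ} : ∀ {k : ℕ} {R : (Fin n → V) → (Fin k → V) → Prop}
    (_ : DP A M (n + k) (fun x => R (fun i => x (Fin.castAdd k i)) (fun i => x (Fin.natAdd n i))))
    {g : Fin k → (Fin n → V) → V} (_ : ∀ i, DF A M n (g i)),
    DP A M n (fun v => R v (fun i => g i v)) := by
  intro k
  induction k with
  | zero =>
    intro R h g hg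
    refine h.congr fun v _ => ?_
    have h1 : (fun i : Fin 0 => v (Fin.natAdd n i)) = fun i => g i v := by
      funext i; exact i.elim0
    have h2 : (fun i => v (Fin.castAdd 0 i)) = v := by funext i; rfl
    simp only [h1, h2]
  | succ k ih =>
    intro R h g hg
    have h1 : DP A M (n + k) (fun x => ∃ y ∈ M, y = g (Fin.last k) (fun i => x (Fin.castAdd k i)) ∧
        R (fun i => x (Fin.castAdd k i))
          (Fin.snoc (fun i => x (Fin.natAdd n i)) y : Fin (k + 1) → V)) := by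
      refine DP.ex (P := fun x y => y = g (Fin.last k) (fun i => x (Fin.castAdd k i)) ∧
        R (fun i => x (Fin.castAdd k i))
          (Fin.snoc (fun i => x (Fin.natAdd n i)) y : Fin (k + 1) → V)) (DP.and ?_ ?_)
      · have h2 := (hg (Fin.last k)).2.ren
          (Fin.snoc (fun i => (Fin.castAdd k i).castSucc) (Fin.last (n + k)) :
            Fin (n + 1) → Fin (n + k + 1))
        refine h2.congr fun v _ => ?_
        have e : Fin.init (v ∘ (Fin.snoc (fun i => (Fin.castAdd k i).castSucc) (Fin.last (n + k)) :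
            Fin (n + 1) → Fin (n + k + 1))) = fun i => Fin.init v (Fin.castAdd k i) := by
          funext i
          simp [Fin.init]
        rw [e]
        simp
      · refine h.congr fun v _ => ?_
        have e : (fun i : Fin (k + 1) => v (Fin.natAdd n i)) =
            (Fin.snoc (fun i => Fin.init v (Fin.natAdd n i)) (v (Fin.last (n + k))) :
              Fin (k + 1) → V) := by
          funext i
          refine Fin.lastCases ?_ (fun i => ?_) i
          · simp
          · simp [Fin.init]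
        rw [e]
        rfl
    have h3 := ih (R := fun v u => ∃ y ∈ M, y = g (Fin.last k) v ∧ R v (Fin.snoc u y)) h1
      (g := fun i => g i.castSucc) (fun i => hg _)
    refine h3.congr fun v hv => ?_
    have e : (Fin.snoc (fun i : Fin k => g i.castSucc v) (g (Fin.last k) v) : Fin (k + 1) → V) =
        fun i => g i v := by
      funext i
      refine Fin.lastCases ?_ (fun i => ?_) i
      · simp
      · simp
    constructor
    · rintro ⟨y, _, rfl, hR⟩
      rw [e] at hR
      exact hR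
    · intro hR
      refine ⟨_, (hg (Fin.last k)).1 v hv, rfl, ?_⟩
      rw [e]
      exact hR

end Fin

/-! ### Contexts -/

/-- Contexts: iterated products of `V`. -/
class Ctx (Γ : Type 1) where
  /-- the number of variables -/
  n : ℕ
  /-- the values of the variables -/
  get : Γ → Fin n → V
  /-- the context with given values of the variables -/
  of : (Fin n → V) → Γ
  get_of : ∀ v, get (of v) = v
  of_get : ∀ γ, of (get γ) = γ

instance : Ctx PUnit.{2} where
  n := 0
  get _ := Fin.elim0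
  of _ := PUnit.unit
  get_of v := by funext i; exact i.elim0
  of_get _ := rfl

instance : Ctx V where
  n := 1
  get x := fun _ => x
  of v := v 0
  get_of v := by funext i; fin_cases i; rfl
  of_get _ := rfl

instance {Γ : Type 1} [Ctx Γ] : Ctx (Γ × V) where
  n := Ctx.n Γ + 1
  get p := Fin.snoc (Ctx.get p.1) p.2
  of v := (Ctx.of (Fin.init v), v (Fin.last _))
  get_of v := by
    simp [Ctx.get_of]
  of_get p := by
    simp [Ctx.of_get]

section

variable {Γ Δ Θ : Type 1} [Ctx Γ] [Ctx Δ] [Ctx Θ] {A M : Set V}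

/-- All the values of the variables are in `M`. -/
def InM (M : Set V) (γ : Γ) : Prop := ∀ i, Ctx.get γ i ∈ M

@[simp] theorem inM_V {x : V} : InM M x ↔ x ∈ M := by
  constructor
  · intro h; exact h 0
  · intro h i; exact h

@[simp] theorem inM_prod {p : Γ × V} : InM M p ↔ InM M p.1 ∧ p.2 ∈ M := by
  constructor
  · intro h
    refine ⟨fun i => ?_, ?_⟩
    · have := h i.castSucc
      simpa [Ctx.get] using this
    · have := h (Fin.last _)
      simpa [Ctx.get] using this
  · rintro ⟨h, h'⟩ i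
    refine Fin.lastCases ?_ (fun i => ?_) i
    · simpa [Ctx.get] using h'
    · simpa [Ctx.get] using h i

@[simp] theorem inM_unit {x : PUnit.{2}} : InM M x := fun i => i.elim0

theorem inM_of {v : Fin (Ctx.n Γ) → V} : InM M (Ctx.of v : Γ) ↔ ∀ i, v i ∈ M := by
  unfold InM
  rw [Ctx.get_of]

/-- `P` is definable in `M` with parameters in `A`. -/
def Dfn (A M : Set V) (P : Γ → Prop) : Prop := DP A M (Ctx.n Γ) (fun v => P (Ctx.of v))

/-- All components of `f` are definable functions from `M` to `M`. -/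
def DMap (A M : Set V) (f : Γ → Δ) : Prop :=
  ∀ i, DF A M (Ctx.n Γ) (fun v => Ctx.get (f (Ctx.of v)) i)

theorem Dfn.congr {P Q : Γ → Prop} (h : Dfn A M P) (e : ∀ γ, InM M γ → (P γ ↔ Q γ)) :
    Dfn A M Q :=
  DP.congr h fun _ hv => e _ (inM_of.2 hv)

theorem Dfn.congr' {P Q : Γ → Prop} (e : ∀ γ, InM M γ → (Q γ ↔ P γ)) (h : Dfn A M P) :
    Dfn A M Q :=
  h.congr fun γ hγ => (e γ hγ).symm

theorem Dfn.not {P : Γ → Prop} (h : Dfn A M P) : Dfn A M (fun γ => ¬ P γ) := DP.not h

theorem Dfn.and {P Q : Γ → Prop} (h : Dfn A M P) (h' : Dfn A M Q) :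
    Dfn A M (fun γ => P γ ∧ Q γ) := DP.and h h'

theorem Dfn.or {P Q : Γ → Prop} (h : Dfn A M P) (h' : Dfn A M Q) :
    Dfn A M (fun γ => P γ ∨ Q γ) :=
  (h.not.and h'.not).not.congr fun γ _ => by tauto

theorem Dfn.imp {P Q : Γ → Prop} (h : Dfn A M P) (h' : Dfn A M Q) :
    Dfn A M (fun γ => P γ → Q γ) :=
  (h.and h'.not).not.congr fun γ _ => by tauto

theorem Dfn.iff {P Q : Γ → Prop} (h : Dfn A M P) (h' : Dfn A M Q) :
    Dfn A M (fun γ => P γ ↔ Q γ) :=
  ((h.imp h').and (h'.imp h)).congr fun γ _ => by tauto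

theorem Dfn.true : Dfn A M (fun _ : Γ => True) := DP.true

theorem Dfn.false : Dfn A M (fun _ : Γ => False) := Dfn.true.not.congr fun γ _ => by simp

theorem Dfn.all {P : Γ → V → Prop} (h : Dfn A M (fun p : Γ × V => P p.1 p.2)) :
    Dfn A M (fun γ => ∀ x ∈ M, P γ x) :=
  DP.all (P := fun v x => P (Ctx.of v) x) h

theorem Dfn.ex {P : Γ → V → Prop} (h : Dfn A M (fun p : Γ × V => P p.1 p.2)) :
    Dfn A M (fun γ => ∃ x ∈ M, P γ x) :=
  DP.ex (P := fun v x => P (Ctx.of v) x) h

theorem Dfn.mono {A' : Set V} (hA : A ⊆ A') {P : Γ → Prop} (h : Dfn A M P) : Dfn A' M P :=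
  DP.mono hA h

theorem DMap.mono {A' : Set V} (hA : A ⊆ A') {f : Γ → Δ} (h : DMap A M f) : DMap A' M f :=
  fun i => ⟨(h i).1, (h i).2.mono hA⟩

theorem DMap.inM {f : Γ → Δ} (h : DMap A M f) {γ : Γ} (hγ : InM M γ) : InM M (f γ) := by
  intro i
  have := (h i).1 (Ctx.get γ) hγ
  simpa only [Ctx.of_get] using this

theorem DMap.mem {f : Γ → V} (h : DMap A M f) {γ : Γ} (hγ : InM M γ) : f γ ∈ M :=
  inM_V.1 (h.inM hγ)

theorem DF.congr {n : ℕ} {f g : (Fin n → V) → V} (h : DF A M n f)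
    (e : ∀ v, (∀ i, v i ∈ M) → f v = g v) : DF A M n g := by
  refine ⟨fun v hv => e v hv ▸ h.1 v hv, h.2.congr fun v hv => ?_⟩
  rw [e (Fin.init v) fun i => hv _]

theorem DMap.congr {f g : Γ → Δ} (h : DMap A M f) (e : ∀ γ, InM M γ → f γ = g γ) :
    DMap A M g :=
  fun i => (h i).congr fun v hv => by rw [e _ (inM_of.2 hv)]

theorem DMap.congr' {f g : Γ → Δ} (e : ∀ γ, InM M γ → g γ = f γ) (h : DMap A M f) :
    DMap A M g :=
  h.congr fun γ hγ => (e γ hγ).symm

/-- Composition. -/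
theorem Dfn.comp {P : Δ → Prop} (h : Dfn A M P) {g : Γ → Δ} (hg : DMap A M g) :
    Dfn A M (fun γ => P (g γ)) := by
  have h1 : DP A M (Ctx.n Γ + Ctx.n Δ)
      (fun x => P (Ctx.of fun i => x (Fin.natAdd (Ctx.n Γ) i))) := by
    exact DP.ren h (Fin.natAdd (Ctx.n Γ))
  have h2 := DP.subst (R := fun _ u => P (Ctx.of u)) h1 hg
  refine DP.congr h2 fun v _ => ?_
  have : (fun i => Ctx.get (g (Ctx.of v)) i) = Ctx.get (g (Ctx.of v)) := rfl
  rw [this, Ctx.of_get]

theorem DF.proj {n : ℕ} (i : Fin n) : DF A M n (fun v => v i) :=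
  ⟨fun _ hv => hv i, (DP.eq (Fin.last n) i.castSucc).congr fun _ _ => Iff.rfl⟩

theorem DMap.id : DMap A M (fun γ : Γ => γ) := by
  intro i
  refine (DF.proj i).congr fun v _ => ?_
  rw [Ctx.get_of]

theorem DMap.fst {f : Γ → Δ × V} (h : DMap A M f) : DMap A M (fun γ => (f γ).1) := by
  intro i
  refine (h i.castSucc).congr fun v _ => ?_
  simp [Ctx.get]

theorem DMap.snd {f : Γ → Δ × V} (h : DMap A M f) : DMap A M (fun γ => (f γ).2) := by
  intro i
  refine (h (Fin.last _)).congr fun v _ => ?_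
  simp [Ctx.get]

theorem DMap.prodMk {f : Γ → Δ} {g : Γ → V} (h : DMap A M f) (h' : DMap A M g) :
    DMap A M (fun γ => (f γ, g γ)) := by
  intro i
  refine Fin.lastCases ?_ (fun i => ?_) i
  · refine (h' 0).congr fun v _ => ?_
    simp [Ctx.get]
  · refine (h i).congr fun v _ => ?_
    simp [Ctx.get]

theorem DMap.comp {f : Δ → Θ} (h : DMap A M f) {g : Γ → Δ} (hg : DMap A M g) :
    DMap A M (fun γ => f (g γ)) := by
  intro i
  refine ⟨fun v hv => h.inM (hg.inM (inM_of.2 hv)) i, ?_⟩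
  have h1 : Dfn A M (fun p : Δ × V => p.2 = Ctx.get (f p.1) i) := (h i).2.congr fun v _ => Iff.rfl
  have h2 : DMap A M (fun p : Γ × V => (g p.1, p.2)) := by
    refine DMap.prodMk ?_ (DMap.snd DMap.id)
    intro j
    have h3 := hg j
    refine ⟨fun v hv => h3.1 _ fun i => hv _, ?_⟩
    have h4 := h3.2.ren (Fin.snoc (fun i => i.castSucc.castSucc) (Fin.last (Ctx.n Γ + 1)) :
      Fin (Ctx.n Γ + 1) → Fin (Ctx.n Γ + 1 + 1))
    refine h4.congr fun v _ => ?_
    have e : Fin.init (v ∘ (Fin.snoc (fun i => i.castSucc.castSucc) (Fin.last (Ctx.n Γ + 1)) :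
        Fin (Ctx.n Γ + 1) → Fin (Ctx.n Γ + 1 + 1))) = Fin.init (Fin.init v) := by
      funext i
      simp [Fin.init]
    rw [e]
    simp
    rfl
  exact (h1.comp h2).congr fun γ _ => Iff.rfl

/-- The graph of a definable function is definable. -/
theorem DMap.graph {f : Γ → V} (h : DMap A M f) : Dfn A M (fun p : Γ × V => p.2 = f p.1) :=
  (h 0).2

/-- A function with definable graph. -/
theorem DMap.of_graph {f : Γ → V} (h : ∀ γ, InM M γ → f γ ∈ M)
    (h' : Dfn A M (fun p : Γ × V => p.2 = f p.1)) : DMap A M f :=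
  fun _ => ⟨fun _ hv => h _ (inM_of.2 hv), h'⟩

theorem DMap.const {a : V} (ha : a ∈ A) (ha' : a ∈ M) : DMap A M (fun _ : Γ => a) :=
  DMap.of_graph (fun _ _ => ha') (DP.const_eq ha ha' _)

theorem Dfn.const {p : Prop} : Dfn A M (fun _ : Γ => p) := by
  by_cases h : p
  · exact Dfn.true.congr fun _ _ => by simp [h]
  · exact Dfn.false.congr fun _ _ => by simp [h]

theorem Dfn.mem {f g : Γ → V} (h : DMap A M f) (h' : DMap A M g) :
    Dfn A M (fun γ => f γ ∈ g γ) := by
  have : Dfn A M (fun p : V × V => p.1 ∈ p.2) :=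
    (DP.mem (0 : Fin 2) 1).congr fun v _ => Iff.rfl
  exact (this.comp (h.prodMk h')).congr fun _ _ => Iff.rfl

theorem Dfn.eq {f g : Γ → V} (h : DMap A M f) (h' : DMap A M g) :
    Dfn A M (fun γ => f γ = g γ) := by
  have : Dfn A M (fun p : V × V => p.1 = p.2) :=
    (DP.eq (0 : Fin 2) 1).congr fun v _ => Iff.rfl
  exact (this.comp (h.prodMk h')).congr fun _ _ => Iff.rfl

end

end Pool.Agent.CTM
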