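import Pool.Agent.CTM.Defs

/-!
The usual first-order form of ZFC for transitive classes, derived from the class `ZFCm`.
-/

set_option autoImplicit false

namespace Pool.Agent.CTM

/-- The formula `φ` of the language `{∈}` holds in the class `N` at the tuple `v`. -/
abbrev Holds (N : Set V) {n : ℕ} (φ : Fm Empty n) (v : Fin n → V) : Prop :=
  φ.Sat N (fun x y => x ∈ y) Empty.elim v

/-- `N` is a transitive class that satisfies ZFC; all principles are stated in first-order form,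
with all quantifiers bounded by `N`, separation and replacement for all formulas with parameters. -/
structure ModelZFC (N : Set V) : Prop where
  transitive : ∀ x ∈ N, ∀ y ∈ x, y ∈ N
  extensionality : ∀ x ∈ N, ∀ y ∈ N, (∀ z ∈ N, z ∈ x ↔ z ∈ y) → x = y
  foundation : ∀ x ∈ N, (∃ y ∈ N, y ∈ x) → ∃ y ∈ N, y ∈ x ∧ ∀ z ∈ N, z ∈ x → z ∉ y
  pairing : ∀ x ∈ N, ∀ y ∈ N, ∃ z ∈ N, ∀ t ∈ N, t ∈ z ↔ t = x ∨ t = y
  union : ∀ x ∈ N, ∃ u ∈ N, ∀ t ∈ N, t ∈ u ↔ ∃ z ∈ N, z ∈ x ∧ t ∈ z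
  power : ∀ x ∈ N, ∃ p ∈ N, ∀ t ∈ N, t ∈ p ↔ ∀ z ∈ N, z ∈ t → z ∈ x
  infinity : ∃ x ∈ N, (∃ e ∈ N, (∀ z ∈ N, z ∉ e) ∧ e ∈ x) ∧
    ∀ y ∈ N, y ∈ x → ∃ s ∈ N, s ∈ x ∧ ∀ t ∈ N, t ∈ s ↔ t ∈ y ∨ t = y
  separation : ∀ (n : ℕ) (φ : Fm Empty (n + 1)) (v : Fin n → V), (∀ i, v i ∈ N) → ∀ x ∈ N,
    ∃ y ∈ N, ∀ t ∈ N, t ∈ y ↔ t ∈ x ∧ Holds N φ (Fin.snoc v t)
  replacement : ∀ (n : ℕ) (φ : Fm Empty (n + 2)) (v : Fin n → V), (∀ i, v i ∈ N) → ∀ a ∈ N,
    (∀ x ∈ N, x ∈ a → ∃! y, y ∈ N ∧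
      Holds N φ (Fin.snoc (Fin.snoc v x : Fin (n + 1) → V) y)) →
    ∃ b ∈ N, ∀ y ∈ N, y ∈ b ↔ ∃ x ∈ N, x ∈ a ∧
      Holds N φ (Fin.snoc (Fin.snoc v x : Fin (n + 1) → V) y)
  choice : ∀ x ∈ N, (∀ y ∈ N, y ∈ x → ∃ z ∈ N, z ∈ y) →
    (∀ y ∈ N, ∀ y' ∈ N, y ∈ x → y' ∈ x → (∃ z ∈ N, z ∈ y ∧ z ∈ y') → y = y') →
    ∃ c ∈ N, ∀ y ∈ N, y ∈ x → ∃! z, z ∈ N ∧ z ∈ y ∧ z ∈ c

/-- A formula without constants gives a definable relation. -/
theorem dp_holds (A N : Set V) {n : ℕ} (φ : Fm Empty n) : DP A N n (fun v => Holds N φ v) := by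
  refine ⟨φ.mapC Empty.elim, fun v _ => ?_⟩
  rw [Fm.sat_mapC]
  have e : ((fun a : (A ∩ N : Set V) => a.1) ∘ Empty.elim : Empty → V) = Empty.elim := by
    funext x; exact x.elim
  rw [e]

/-- Instantiation of the first variables. -/
theorem dp_inst {N : Set V} {n k : ℕ} {Q : (Fin (n + k) → V) → Prop} (h : DP N N (n + k) Q)
    {τ : Fin n → V} (hτ : ∀ i, τ i ∈ N) :
    DP N N k (fun u => Q (Fin.append τ u)) := by
  have h1 : DP N N (k + (n + k)) (fun x => Q (fun i => x (Fin.natAdd k i))) :=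
    DP.ren h (Fin.natAdd k)
  have h2 := DP.subst (n := k) (k := n + k) (R := fun _ u => Q u) h1
    (g := Fin.append (fun i _ => τ i) (fun j v => v j)) (by
      intro i
      refine Fin.addCases (fun i => ?_) (fun j => ?_) i
      · rw [Fin.append_left]
        refine ⟨fun _ _ => hτ i, ?_⟩
        exact DP.const_eq (hτ i) (hτ i) _
      · rw [Fin.append_right]
        exact DF.proj j)
  refine DP.congr h2 fun v _ => ?_
  have e : (fun i => (Fin.append (fun (i : Fin n) (_ : Fin k → V) => τ i) (fun j v => v j) :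
      Fin (n + k) → (Fin k → V) → V) i v) = Fin.append τ v := by
    funext i
    refine Fin.addCases (fun i => ?_) (fun j => ?_) i
    · rw [Fin.append_left, Fin.append_left]
    · rw [Fin.append_right, Fin.append_right]
  rw [e]

theorem append_one {n : ℕ} (v : Fin n → V) (u : Fin 1 → V) :
    (Fin.append v u : Fin (n + 1) → V) = Fin.snoc v (u 0) := by
  have : u = fun _ => u 0 := by
    funext i
    rw [Subsingleton.elim i 0]
  rw [this]
  exact Fin.append_right_eq_snoc v (fun _ => u 0)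

theorem append_two {n : ℕ} (v : Fin n → V) (u : Fin 2 → V) :
    (Fin.append v u : Fin (n + 2) → V) =
      Fin.snoc (Fin.snoc v (u 0) : Fin (n + 1) → V) (u 1) := by
  funext i
  refine Fin.addCases (fun i => ?_) (fun j => ?_) i
  · rw [Fin.append_left]
    have : (Fin.castAdd 2 i : Fin (n + 2)) = (i.castSucc).castSucc := rfl
    rw [this, Fin.snoc_castSucc, Fin.snoc_castSucc]
  · rw [Fin.append_right]
    fin_cases j
    · have : (Fin.natAdd n (0 : Fin 2) : Fin (n + 2)) = (Fin.last n).castSucc := rfl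
      show u 0 = (Fin.snoc (Fin.snoc v (u 0) : Fin (n + 1) → V) (u 1) : Fin (n + 2) → V)
        (Fin.natAdd n (0 : Fin 2))
      rw [this, Fin.snoc_castSucc, Fin.snoc_last]
    · have : (Fin.natAdd n (1 : Fin 2) : Fin (n + 2)) = Fin.last (n + 1) := rfl
      show u 1 = (Fin.snoc (Fin.snoc v (u 0) : Fin (n + 1) → V) (u 1) : Fin (n + 2) → V)
        (Fin.natAdd n (1 : Fin 2))
      rw [this, Fin.snoc_last]

/-- The class `ZFCm` gives all of ZFC in first-order form. -/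
theorem modelZFC (N : Set V) [ZFCm N] : ModelZFC N where
  transitive x hx y hy := TrC.trans hx hy
  extensionality x hx y hy h := by
    ext z
    exact ⟨fun hz => (h z (TrC.trans hx hz)).1 hz, fun hz => (h z (TrC.trans hy hz)).2 hz⟩
  foundation x hx h := by
    obtain ⟨y, hyN, hy⟩ := h
    obtain ⟨z, hz, hz'⟩ := ZFSet.regularity x (fun e => ZFSet.notMem_empty y (e ▸ hy))
    refine ⟨z, TrC.trans hx hz, hz, fun t _ ht htz => ?_⟩
    have : t ∈ x ∩ z := ZFSet.mem_inter.2 ⟨ht, htz⟩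
    rw [hz'] at this
    exact ZFSet.notMem_empty t this
  pairing x hx y hy := ⟨{x, y}, ZFm.upair_mem hx hy, fun t _ => ZFSet.mem_pair⟩
  union x hx := ⟨ZFSet.sUnion x, ZFm.sUnion_mem hx, fun t _ => by
    rw [ZFSet.mem_sUnion]
    constructor
    · rintro ⟨z, hz, ht⟩
      exact ⟨z, TrC.trans hx hz, hz, ht⟩
    · rintro ⟨z, _, hz, ht⟩
      exact ⟨z, hz, ht⟩⟩
  power x hx := ⟨_, ZFCm.power_mem hx, fun t ht => by
    rw [ZFSet.mem_sep, ZFSet.mem_powerset]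
    constructor
    · rintro ⟨h, _⟩ z _ hz
      exact h hz
    · intro h
      exact ⟨fun z hz => h z (TrC.trans ht hz) hz, ht⟩⟩
  infinity := by
    refine ⟨ZFSet.omega, ZFm.omega_mem, ⟨∅, ZFm.empty_mem, fun z _ => ZFSet.notMem_empty z,
      ZFSet.omega_zero⟩, fun y hy hy' => ⟨insert y y, ?_, ZFSet.omega_succ hy', fun t _ => ?_⟩⟩
    · exact TrC.trans ZFm.omega_mem (ZFSet.omega_succ hy')
    · rw [ZFSet.mem_insert_iff]
      exact or_comm
  separation n φ v hv x hx := by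
    have h : Dfn N N (fun t : V => Holds N φ (Fin.snoc v t)) := by
      have h1 := dp_inst (k := 1) (dp_holds N N φ) hv
      refine DP.congr h1 fun u _ => ?_
      rw [append_one]
      rfl
    refine ⟨_, ZFm.sep_mem h hx, fun t _ => ?_⟩
    rw [ZFSet.mem_sep]
  replacement n φ v hv a ha h := by
    have h1 : Dfn N N (fun p : V × V =>
        Holds N φ (Fin.snoc (Fin.snoc v p.1 : Fin (n + 1) → V) p.2)) := by
      have h1 := dp_inst (k := 2) (dp_holds N N φ) hv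
      refine DP.congr h1 fun u _ => ?_
      rw [append_two]
      rfl
    obtain ⟨b, hb, hb'⟩ := ZFm.coll h1 ha (fun x hx => by
      obtain ⟨y, ⟨hy, hy'⟩, _⟩ := h x (TrC.trans ha hx) hx
      exact ⟨y, hy, hy'⟩)
    have h2 : Dfn N N (fun y : V => ∃ x ∈ a,
        Holds N φ (Fin.snoc (Fin.snoc v x : Fin (n + 1) → V) y)) := by
      refine Dfn.ex_mem (DMap.const ha ha) ?_
      exact h1.comp (g := fun p : V × V => (p.2, p.1))
        (DMap.prodMk (DMap.snd DMap.id) (DMap.fst DMap.id))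
    refine ⟨_, ZFm.sep_mem h2 hb, fun y hy => ?_⟩
    rw [ZFSet.mem_sep]
    constructor
    · rintro ⟨_, x, hx, h3⟩
      exact ⟨x, TrC.trans ha hx, hx, h3⟩
    · rintro ⟨x, hxN, hx, h3⟩
      refine ⟨?_, x, hx, h3⟩
      obtain ⟨y', hy', h4⟩ := hb' x hx
      have h5 := (h x hxN hx).unique ⟨hy, h3⟩ ⟨TrC.trans hb hy', h4⟩
      rw [h5]
      exact hy'
  choice x hx hne hdis := by
    obtain ⟨f, hf, hf1, hf2, hf3, hf4⟩ := ZFCm.choice (ZFm.sUnion_mem hx)
    have hP : Dfn N N (fun z : V => ∃ y ∈ x, z ∈ y ∧ ∀ t ∈ y, app f z ⊆ app f t) := by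
      apply_rules (transparency := .reducible) (maxDepth := 999) only
        [DMap.const hf hf, DMap.const hx hx] using is_poly
    refine ⟨_, ZFm.sep_mem hP (ZFm.sUnion_mem hx), fun y hyN hy => ?_⟩
    have hmem : ∀ t ∈ y, t ∈ (ZFSet.sUnion x : V) := fun t ht => ZFSet.mem_sUnion.2 ⟨y, hy, ht⟩
    -- a least element of `y`
    obtain ⟨z, hz, hz'⟩ : ∃ z ∈ y, ∀ t ∈ y, app f z ⊆ app f t := by
      obtain ⟨z0, _, hz0⟩ := hne y hyN hy
      have hwf : WellFounded (fun a b : V => app f a ∈ app f b) :=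
        InvImage.wf (fun a => app f a) ZFSet.mem_wf
      obtain ⟨z, hz, hmin⟩ := hwf.has_min {t | t ∈ y} ⟨z0, hz0⟩
      refine ⟨z, hz, fun t ht => ?_⟩
      exact ((hf4 t (hmem t ht)).notMem_iff_subset (hf4 z (hmem z hz))).1 (hmin t ht)
    refine ⟨z, ⟨TrC.trans hyN hz, hz, ?_⟩, ?_⟩
    · rw [ZFSet.mem_sep]
      exact ⟨hmem z hz, y, hy, hz, hz'⟩
    · rintro t ⟨htN, ht, ht'⟩
      rw [ZFSet.mem_sep] at ht'
      obtain ⟨_, y', hy', hty', hmin⟩ := ht'
      have e : y = y' := hdis y hyN y' (TrC.trans hx hy') hy hy' ⟨t, htN, ht, hty'⟩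
      subst e
      refine hf3 t (hf2 ▸ hmem t ht) z (hf2 ▸ hmem z hz) ?_
      have h1 := hmin z hz
      have h2 := hz' t ht
      ext u
      exact ⟨fun hu => h1 hu, fun hu => h2 hu⟩

end Pool.Agent.CTM
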