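import Pool.Agent.CTM.MainD
import Pool.Agent.CTM.ZFCAx

/-!
Typicality of reals in a model, in the form used by the hand-in for MP_ea2134_lc.
-/

set_option autoImplicit false

namespace Pool.Agent.CTM

/-- In the model `N` the real `a` is typical over the reals `b 0, …, b (k - 1)`: it is in no set of
reals that is smaller than the continuum in `N` and definable over the reals of `N` by a formula of
second-order arithmetic with parameters `b`. -/
def Typical (N : Set V) (k : ℕ) (b : Fin k → Set ℕ) (a : Set ℕ) : Prop :=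
  ¬ ∃ φ : L2 0 (k + 1), φ.Sat (RN N) Fin.elim0 (Fin.snoc b a) ∧
    SmallIn N {x | x ∈ RN N ∧ φ.Sat (RN N) Fin.elim0 (Fin.snoc b x)}

/-- The final theorem, from the statements of the modules. -/
theorem final_of (hL : Stmt_L) (hHC : Stmt_HC) (hgen : Stmt_generic) (hext : Stmt_ext)
    (hcov : Stmt_cover) (hom : Stmt_omega1) (hnice : Stmt_nice) (hpos : Stmt_pos)
    (hgre : Stmt_greals) (hccc : Stmt_ccc) (hrig : Stmt_rigid) (hkap : Stmt_kap)
    (hso1 : Stmt_so1) (hso2 : Stmt_so2) (hfam : Stmt_family) (htyp : Stmt_typical)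
    (hsml : Stmt_small) (hcan : Stmt_cantor) :
    ∃ N : Set V, N.Countable ∧ ModelZFC N ∧ ∃ a ∈ RN N, ∃ b ∈ RN N,
      ¬ Typical N 0 Fin.elim0 a ∧ ¬ Typical N 1 (fun _ => a) b ∧ Typical N 0 Fin.elim0 b := by
  obtain ⟨N, h1, h2, a, ha, b, hb, h3, h4, h5⟩ := main_of hL hHC hgen hext hcov hom hnice hpos
    hgre hccc hrig hkap hso1 hso2 hfam htyp hsml hcan
  exact ⟨N, h1, modelZFC N, a, ha, b, hb, not_not_intro h3, not_not_intro h4, h5⟩

end Pool.Agent.CTM
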