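import Pool.Agent.CTM.Pub
import Pool.Agent.CTM.Typical

/-!
The definitions of `Pub` agree with those of the library (MP_ea2134_lc).
-/

set_option autoImplicit false

namespace Pool.Agent.CTM.Bridge

open Pool.Agent.CTM

/-- Translation of formulas. -/
def fm : ∀ {n : ℕ}, Pub.SetFormula n → Fm Empty n
  | _, .mem i j => .mem (.inr i) (.inr j)
  | _, .eq i j => .eq (.inr i) (.inr j)
  | _, .not φ => .neg (fm φ)
  | _, .and φ ψ => .and (fm φ) (fm ψ)
  | _, .all φ => .all (fm φ)

theorem holds_iff (N : Set V) {n : ℕ} (φ : Pub.SetFormula n) :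
    ∀ v : Fin n → V, φ.Holds N v ↔ Holds N (fm φ) v := by
  induction φ with
  | mem i j => intro v; exact Iff.rfl
  | eq i j => intro v; exact Iff.rfl
  | not φ ih => intro v; exact not_congr (ih v)
  | and φ ψ ih ih' => intro v; exact and_congr (ih v) (ih' v)
  | all φ ih => intro v; exact forall_congr' fun x => imp_congr Iff.rfl (ih _)

theorem model {N : Set V} (h : ModelZFC N) : Pub.ModelZFC N where
  transitive := h.transitive
  extensionality := h.extensionality
  foundation := h.foundation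
  pairing := h.pairing
  union := h.union
  power := h.power
  infinity := h.infinity
  separation n φ v hv x hx := by
    simp only [holds_iff]
    exact h.separation n (fm φ) v hv x hx
  replacement n φ v hv a ha := by
    simp only [holds_iff]
    exact h.replacement n (fm φ) v hv a ha
  choice := h.choice

/-- Translation of number terms. -/
def nt {n : ℕ} : NT n → Pub.NumTerm n
  | .var i => .var i
  | .zero => .zero
  | .one => .one
  | .add s t => .add (nt s) (nt t)
  | .mul s t => .mul (nt s) (nt t)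

/-- Translation of number terms, inverse. -/
def nt' {n : ℕ} : Pub.NumTerm n → NT n
  | .var i => .var i
  | .zero => .zero
  | .one => .one
  | .add s t => .add (nt' s) (nt' t)
  | .mul s t => .mul (nt' s) (nt' t)

theorem nt_val {n : ℕ} (a : Fin n → ℕ) (t : NT n) : (nt t).val a = t.val a := by
  induction t with
  | var i => rfl
  | zero => rfl
  | one => rfl
  | add s t ih ih' => show (nt s).val a + (nt t).val a = _; rw [ih, ih']; rfl
  | mul s t ih ih' => show (nt s).val a * (nt t).val a = _; rw [ih, ih']; rfl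

theorem nt'_val {n : ℕ} (a : Fin n → ℕ) (t : Pub.NumTerm n) : (nt' t).val a = t.val a := by
  induction t with
  | var i => rfl
  | zero => rfl
  | one => rfl
  | add s t ih ih' => show (nt' s).val a + (nt' t).val a = _; rw [ih, ih']; rfl
  | mul s t ih ih' => show (nt' s).val a * (nt' t).val a = _; rw [ih, ih']; rfl

/-- Translation of `L₂`-formulas. -/
def l2 : ∀ {n k : ℕ}, L2 n k → Pub.L2Formula n k
  | _, _, .eq s t => .eq (nt s) (nt t)
  | _, _, .lt s t => .lt (nt s) (nt t)
  | _, _, .mem s j => .mem (nt s) j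
  | _, _, .neg φ => .not (l2 φ)
  | _, _, .and φ ψ => .and (l2 φ) (l2 ψ)
  | _, _, .allN φ => .allNum (l2 φ)
  | _, _, .allS φ => .allSet (l2 φ)

/-- Translation of `L₂`-formulas, inverse. -/
def l2' : ∀ {n k : ℕ}, Pub.L2Formula n k → L2 n k
  | _, _, .eq s t => .eq (nt' s) (nt' t)
  | _, _, .lt s t => .lt (nt' s) (nt' t)
  | _, _, .mem s j => .mem (nt' s) j
  | _, _, .not φ => .neg (l2' φ)
  | _, _, .and φ ψ => .and (l2' φ) (l2' ψ)
  | _, _, .allNum φ => .allN (l2' φ)
  | _, _, .allSet φ => .allS (l2' φ)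

theorem l2_iff (R : Set (Set ℕ)) {n k : ℕ} (φ : L2 n k) :
    ∀ (a : Fin n → ℕ) (X : Fin k → Set ℕ), (l2 φ).Holds R a X ↔ φ.Sat R a X := by
  induction φ with
  | eq s t => intro a X; show (nt s).val a = (nt t).val a ↔ _; rw [nt_val, nt_val]; rfl
  | lt s t => intro a X; show (nt s).val a < (nt t).val a ↔ _; rw [nt_val, nt_val]; rfl
  | mem s j => intro a X; show (nt s).val a ∈ X j ↔ _; rw [nt_val]; rfl
  | neg φ ih => intro a X; exact not_congr (ih a X)
  | and φ ψ ih ih' => intro a X; exact and_congr (ih a X) (ih' a X)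
  | allN φ ih => intro a X; exact forall_congr' fun m => ih _ X
  | allS φ ih => intro a X; exact forall_congr' fun Y => imp_congr Iff.rfl (ih a _)

theorem l2'_iff (R : Set (Set ℕ)) {n k : ℕ} (φ : Pub.L2Formula n k) :
    ∀ (a : Fin n → ℕ) (X : Fin k → Set ℕ), (l2' φ).Sat R a X ↔ φ.Holds R a X := by
  induction φ with
  | eq s t => intro a X; show (nt' s).val a = (nt' t).val a ↔ _; rw [nt'_val, nt'_val]; rfl
  | lt s t => intro a X; show (nt' s).val a < (nt' t).val a ↔ _; rw [nt'_val, nt'_val]; rfl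
  | mem s j => intro a X; show (nt' s).val a ∈ X j ↔ _; rw [nt'_val]; rfl
  | not φ ih => intro a X; exact not_congr (ih a X)
  | and φ ψ ih ih' => intro a X; exact and_congr (ih a X) (ih' a X)
  | allNum φ ih => intro a X; exact forall_congr' fun m => ih _ X
  | allSet φ ih => intro a X; exact forall_congr' fun Y => imp_congr Iff.rfl (ih a _)

theorem numeral_eq (n : ℕ) : Pub.numeral n = nn n := by
  induction n with
  | zero => rfl
  | succ n ih => show (insert (Pub.numeral n) (Pub.numeral n) : V) = insert (nn n) (nn n); rw [ih]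

theorem code_eq (x : Set ℕ) : Pub.code x = toZ x := by
  unfold Pub.code toZ
  simp only [numeral_eq]

theorem reals_eq (N : Set V) : Pub.Reals N = RN N := by
  ext x
  show Pub.code x ∈ N ↔ toZ x ∈ N
  rw [code_eq]

theorem small_iff (N : Set V) (D : Set (Set ℕ)) : Pub.Small N D ↔ SmallIn N D := by
  unfold Pub.Small SmallIn
  rw [reals_eq]
  simp only [code_eq]
  refine not_congr ⟨?_, ?_⟩
  · rintro ⟨g, hg, hgD, f, hf, h⟩
    have hpair : ∀ u v, ZFSet.pair u v ∈ f ↔ ∃ x ∈ RN N, u = toZ x ∧ v = toZ (g x) := by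
      intro u v
      rw [h]
      constructor
      · rintro ⟨x, hx, e⟩
        exact ⟨x, hx, ZFSet.pair_injective e⟩
      · rintro ⟨x, hx, rfl, rfl⟩
        exact ⟨x, hx, rfl⟩
    have hfn : IsFn f := by
      refine ⟨fun p hp => ?_, fun u v v' h1 h2 => ?_⟩
      · obtain ⟨x, _, e⟩ := (h p).1 hp
        exact ⟨_, _, e⟩
      · obtain ⟨x, hx, rfl, rfl⟩ := (hpair _ _).1 h1
        obtain ⟨y, hy, e, rfl⟩ := (hpair _ _).1 h2
        rw [toZ_inj e]
    have happ : ∀ x ∈ RN N, app f (toZ x) = toZ (g x) := fun x hx =>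
      hfn.app_eq ((hpair _ _).2 ⟨x, hx, rfl, rfl⟩)
    have hdom : ∀ u, u ∈ dom f ↔ ∃ x ∈ RN N, u = toZ x := by
      intro u
      rw [mem_dom]
      constructor
      · rintro ⟨v, hv⟩
        obtain ⟨x, hx, e, _⟩ := (hpair _ _).1 hv
        exact ⟨x, hx, e⟩
      · rintro ⟨x, hx, rfl⟩
        exact ⟨_, (hpair _ _).2 ⟨x, hx, rfl, rfl⟩⟩
    refine ⟨f, hf, hfn, ?_, ?_, fun x hx => ⟨g x, hgD hx, happ x hx⟩⟩
    · ext u
      rw [hdom, mem_RZ]
      constructor
      · rintro ⟨x, hx, rfl⟩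
        exact ⟨hx, toZ_sub x⟩
      · rintro ⟨h1, h2⟩
        exact ex_toZ h2 h1
    · intro u hu v hv e
      obtain ⟨x, hx, rfl⟩ := (hdom _).1 hu
      obtain ⟨y, hy, rfl⟩ := (hdom _).1 hv
      rw [happ x hx, happ y hy] at e
      rw [hg hx hy (toZ_inj e)]
  · rintro ⟨f, hf, hfn, hdom, hinj, hD⟩
    classical
    choose! g hg hg' using hD
    refine ⟨g, ?_, fun x hx => hg x hx, f, hf, fun p => ?_⟩
    · intro x hx y hy e
      have hx' : toZ x ∈ dom f := by
        rw [hdom, mem_RZ]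
        exact ⟨hx, toZ_sub x⟩
      have hy' : toZ y ∈ dom f := by
        rw [hdom, mem_RZ]
        exact ⟨hy, toZ_sub y⟩
      exact toZ_inj (hinj _ hx' _ hy' (by rw [hg' x hx, hg' y hy, e]))
    · constructor
      · intro hp
        obtain ⟨u, v, rfl⟩ := hfn.1 p hp
        have hu : u ∈ dom f := mem_dom.2 ⟨v, hp⟩
        rw [hdom, mem_RZ] at hu
        obtain ⟨x, hx, rfl⟩ := ex_toZ hu.2 hu.1
        exact ⟨x, hx, by rw [← hg' x hx, hfn.app_eq hp]⟩
      · rintro ⟨x, hx, rfl⟩
        rw [← hg' x hx]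
        refine hfn.pair_app ?_
        rw [hdom, mem_RZ]
        exact ⟨hx, toZ_sub x⟩

theorem typical_iff (N : Set V) (k : ℕ) (b : Fin k → Set ℕ) (a : Set ℕ) :
    Pub.Typical N k b a ↔ Typical N k b a := by
  unfold Pub.Typical Typical
  rw [reals_eq]
  refine not_congr ⟨?_, ?_⟩
  · rintro ⟨φ, h1, h2⟩
    refine ⟨l2' φ, (l2'_iff _ _ _ _).2 h1, ?_⟩
    rw [small_iff] at h2
    simpa only [l2'_iff] using h2
  · rintro ⟨φ, h1, h2⟩
    refine ⟨l2 φ, (l2_iff _ _ _ _).2 h1, ?_⟩
    rw [small_iff]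
    simpa only [l2_iff] using h2

/-- Transfer of the final theorem. -/
theorem final {N : Set V} (hc : N.Countable) (hN : ModelZFC N) {a b : Set ℕ} (ha : a ∈ RN N)
    (hb : b ∈ RN N) (h1 : ¬ Typical N 0 Fin.elim0 a) (h2 : ¬ Typical N 1 (fun _ => a) b)
    (h3 : Typical N 0 Fin.elim0 b) :
    ∃ N : Set ZFSet.{0}, N.Countable ∧ Pub.ModelZFC N ∧ ∃ a ∈ Pub.Reals N, ∃ b ∈ Pub.Reals N,
      ¬ Pub.Typical N 0 Fin.elim0 a ∧ ¬ Pub.Typical N 1 (fun _ => a) b ∧
      Pub.Typical N 0 Fin.elim0 b := by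
  refine ⟨N, hc, model hN, a, ?_, b, ?_, ?_, ?_, ?_⟩
  · rwa [reals_eq]
  · rwa [reals_eq]
  · rwa [typical_iff]
  · rwa [typical_iff]
  · rwa [typical_iff]

end Pool.Agent.CTM.Bridge
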