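import Pool.Agent.CTM.Thin

/-!
Module CCC of MP_ea2134_lc: the forcing notion has the countable antichain condition.
-/

set_option autoImplicit false

namespace Pool.Agent.CTM

open Cmp Thn

theorem finite_idx {I e : V} {Kap : V → V → Prop} {r : V} (h : Cond I e Kap r) :
    {i | ∃ t ∈ r, At t i}.Finite := by
  refine (h.fin.image tidx).subset ?_
  rintro i ⟨t, ht, hat⟩
  exact ⟨t, ht, (at_tidx (h.tok t ht)).1 hat⟩

/-- A finite union of countable sets. -/
theorem cbl_biUnion {M : Set V} [ZFCm M] {s : Set V} (hs : s.Finite) {P : V → V → Prop} {W : V}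
    (h : ∀ i ∈ s, Cbl M (ZFSet.sep (P i) W)) :
    Cbl M (ZFSet.sep (fun x => ∃ i ∈ s, P i x) W) := by
  induction s, hs using Set.Finite.induction_on with
  | empty =>
    have : (ZFSet.sep (fun x => ∃ i ∈ (∅ : Set V), P i x) W) = ∅ := by
      ext x
      simp
    rw [this]
    refine cbl_fin (fun y hy => absurd hy (ZFSet.notMem_empty y)) ?_
    simp
  | insert _ _ ih =>
    rename_i a s _ _
    have h1 := h a (Set.mem_insert _ _)
    have h2 := ih fun i hi => h i (Set.mem_insert_of_mem _ hi)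
    refine (h1.union h2).mono fun x hx => ?_
    obtain ⟨hxW, i, hi, hP⟩ := ZFSet.mem_sep.1 hx
    rw [ZFSet.mem_union]
    rcases hi with rfl | hi
    · exact Or.inl (ZFSet.mem_sep.2 ⟨hxW, hP⟩)
    · exact Or.inr (ZFSet.mem_sep.2 ⟨hxW, i, hi, hP⟩)

theorem ccc : Stmt_ccc := by
  intro M _ w I e Kap hs P hP hPos A hA hAP hanti
  by_contra hcon
  have hqc : ∀ x ∈ A, Cond I e Kap x := fun x hx => (hPos x).1 (hAP hx)
  obtain ⟨W', hW'M, hW'A, hW'u, ρ, hρM, hρf, b, n, z, T, L, U0, a0, _, hz, _, hidx, htok, hTρ,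
    hK, _, hcd⟩ := thin hs hA hcon (q := fun x => x) DMap.id hqc
  obtain ⟨r, hr⟩ : ∃ x, x ∈ W' := by
    by_contra hcon
    push Not at hcon
    refine hW'u (cbl_fin (fun y hy => absurd hy (hcon y)) ?_)
    have : {y | y ∈ W'} = ∅ := by
      ext y
      simp [hcon y]
    rw [this]
    exact Set.finite_empty
  have hrc := hqc r (hW'A hr)
  obtain ⟨N, hN⟩ := exists_bd hrc
  -- the bad elements
  have h1 : Cbl M (ZFSet.sep (fun x => ∃ i ∈ {i | (∃ t ∈ r, At t i) ∧ i ∉ ρ}, ∃ t ∈ x, At t i)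
      W') := by
    refine cbl_biUnion ((finite_idx hrc).subset fun i hi => hi.1) ?_
    rintro i ⟨⟨t, ht, hat⟩, hi⟩
    have hrM : r ∈ M := TrC.trans hW'M hr
    have hiI : i ∈ I := by
      rcases hrc.tok t ht with ⟨i', hi', n, _, ε, _, rfl⟩ | ⟨i', hi', m, _, u, _, ε, _, rfl⟩ |
        ⟨i', hi', x, m, _, _, rfl⟩
      · rwa [hat.eq At.C]
      · rwa [hat.eq At.D]
      · rwa [hat.eq At.R]
    exact hidx i (TrC.trans hs.I_mem hiI) hi
  have h2 : Cbl M ({r} : V) := by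
    refine cbl_fin (fun y hy => ?_) ?_
    · rw [ZFSet.mem_singleton.1 hy]
      exact TrC.trans hW'M hr
    · have : {y | y ∈ ({r} : V)} = {r} := by
        ext y
        simp
      rw [this]
      exact Set.finite_singleton r
  obtain ⟨q, hq, hqn⟩ : ∃ q, q ∈ ZFSet.sep (fun x' => ∀ j, z j x' ∩ nn N = z j r ∩ nn N) W' ∧
      q ∉ ZFSet.sep (fun x => ∃ i ∈ {i | (∃ t ∈ r, At t i) ∧ i ∉ ρ}, ∃ t ∈ x, At t i) W' ∪
        ({r} : V) := by
    by_contra hcon
    push Not at hcon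
    exact hcd r hr (nn N) (nn_mem_omega N) ((h1.union h2).mono hcon)
  obtain ⟨hqW, hqz⟩ := ZFSet.mem_sep.1 hq
  rw [ZFSet.mem_union, not_or, ZFSet.mem_singleton, ZFSet.mem_sep, not_and] at hqn
  have hq1 := hqn.1 hqW
  have hqr : q ≠ r := hqn.2
  have hqcd := hqc q (hW'A hqW)
  have hcomp : Cond I e Kap (r ∪ q) := by
    refine compat hrc hqcd (z := fun j => z j q) (z' := fun j => z j r) (T := T) (ρ := ρ)
      ?_ ?_ ?_ hN hqz
    · intro i t t' ht ht' hat hat'
      by_contra hi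
      exact hq1 ⟨i, ⟨⟨t', ht', hat'⟩, hi⟩, t, ht, hat⟩
    · intro t ht i hi hat
      rcases (htok q hqW t).1 ⟨ht, i, hi, hat⟩ with hb | ⟨i', j, m, hT, rfl⟩
      · exact Or.inl ((htok r hr t).2 (Or.inl hb)).1
      · right
        have : i = i' := hat.eq At.R
        subst this
        exact ⟨j, m, hT, rfl⟩
    · intro i j m hT
      refine ⟨((htok r hr _).2 (Or.inr ⟨i, j, m, hT, rfl⟩)).1, ?_⟩
      intro l U u l' U' u' hk hk' htr htr'
      obtain ⟨V1, hV1, hV1'⟩ := hK q hqW j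
      obtain ⟨V2, hV2, hV2'⟩ := hK r hr j
      obtain ⟨rfl, rfl, _⟩ := kv_inj (hs.kap_fun _ _ _ hk hV1)
      obtain ⟨rfl, rfl, _⟩ := kv_inj (hs.kap_fun _ _ _ hk' hV2)
      -- the C tokens of `q` at `i` are in `r`
      have htr2 : Tr r i (L j) u := by
        refine ⟨htr.1, fun n hn => ⟨fun hu => ?_, fun hu => ?_⟩⟩
        · rcases (htok q hqW _).1 ⟨(htr.2 n hn).1 hu, i, (hTρ i j m hT).1, At.C⟩ with
            hb | ⟨_, _, _, _, h⟩
          · exact ((htok r hr _).2 (Or.inl hb)).1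
          · exact absurd h tC_ne_tR
        · rcases (htok q hqW _).1 ⟨(htr.2 n hn).2 hu, i, (hTρ i j m hT).1, At.C⟩ with
            hb | ⟨_, _, _, _, h⟩
          · exact ((htok r hr _).2 (Or.inl hb)).1
          · exact absurd h tC_ne_tR
      have huu : u = u' := tr_unique hrc.funC htr2 htr'
      rw [hV1' u htr.1, huu, hV2' u' htr'.1]
  refine hanti r (hW'A hr) q (hW'A hqW) (Ne.symm hqr) ⟨r ∪ q, (hPos _).2 hcomp, ?_, ?_⟩
  · exact fun x hx => ZFSet.mem_union.2 (Or.inl hx)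
  · exact fun x hx => ZFSet.mem_union.2 (Or.inr hx)

end Pool.Agent.CTM
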