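import Pool.Agent.CTM.CovA

/-!
The first uncountable ordinal of a model of ZFC (MP_ea2134_lc, module CBL, last part).
Mathematics: helper73; formalisation: helper65.
-/

set_option autoImplicit false

namespace Pool.Agent.CTM

namespace Cbl3

section

variable {Γ : Type 1} [Ctx Γ] {A M : Set V}

theorem dfn_isFn [ZFm M] {f : Γ → V} (hf : DMap A M f) : Dfn A M (fun γ => IsFn (f γ)) := by
  have h1 : Dfn A M (fun f : V => IsFn f) := by
    refine Dfn.congr' (P := fun f : V => (∀ p ∈ f, ∃ x ∈ M, ∃ y ∈ M, p = ZFSet.pair x y) ∧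
      ∀ x ∈ M, ∀ y ∈ M, ∀ z ∈ M, ZFSet.pair x y ∈ f → ZFSet.pair x z ∈ f → y = z)
      (fun f hf => ?_)
      (by apply_rules (transparency := .reducible) (maxDepth := 999) only using is_poly)
    have hf := inM_V.1 hf
    unfold IsFn
    refine and_congr (forall₂_congr fun p hp => ?_) ?_
    · constructor
      · rintro ⟨x, y, rfl⟩
        obtain ⟨h1, h2⟩ := pair_mem_iff.1 (TrC.trans hf hp)
        exact ⟨x, h1, y, h2, rfl⟩
      · rintro ⟨x, _, y, _, rfl⟩
        exact ⟨x, y, rfl⟩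
    · constructor
      · intro h x _ y _ z _
        exact h x y z
      · intro h x y z hxy hxz
        have h1 := pair_mem_iff.1 (TrC.trans hf hxy)
        have h2 := pair_mem_iff.1 (TrC.trans hf hxz)
        exact h x h1.1 y h1.2 z h2.2 hxy hxz
  exact h1.comp hf

theorem dfn_isOrdinal [ZFm M] {f : Γ → V} (hf : DMap A M f) :
    Dfn A M (fun γ => (f γ).IsOrdinal) := by
  have h1 : D0 (fun x : V => x.IsOrdinal) := by
    refine D0.congr' (P := fun x : V => (∀ y ∈ x, y ⊆ x) ∧ ∀ w ∈ x, ∀ z ∈ w, ∀ y ∈ z, y ∈ w)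
      (fun x => ?_)
      (by apply_rules (transparency := .reducible) (maxDepth := 999) only using is_poly)
    constructor
    · intro h
      exact ⟨fun y hy => h.isTransitive y hy, fun w hw z hz y hy => h.mem_trans' hy hz hw⟩
    · rintro ⟨h1, h2⟩
      exact ⟨fun y hy => h1 y hy, fun hy hz hw => h2 _ hw _ hz _ hy⟩
  exact (h1.dfn (A := A) (M := M)).comp hf

/-- countability is definable -/
theorem dfn_cbl [ZFm M] {f : Γ → V} (hf : DMap M M f) : Dfn M M (fun γ => Cbl M (f γ)) := by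
  have h : Dfn M M (fun x : V => ∃ f ∈ M, IsFn f ∧ dom f = ZFSet.omega ∧ x ⊆ ran f) := by
    refine Dfn.ex (P := fun x f => IsFn f ∧ dom f = ZFSet.omega ∧ x ⊆ ran f) ?_
    refine Dfn.and (dfn_isFn (DMap.snd DMap.id)) (Dfn.and
      (Dfn.eq ?_ (DMap.const ZFm.omega_mem ZFm.omega_mem)) (Dfn.subset ?_ ?_))
    · exact DMap.dom (DMap.snd DMap.id)
    · exact DMap.fst DMap.id
    · exact DMap.ran (DMap.snd DMap.id)
  exact h.comp hf

theorem sUnion_ordinal {x : V} (h : ∀ y ∈ x, y.IsOrdinal) : (ZFSet.sUnion x : V).IsOrdinal := by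
  rw [ZFSet.isOrdinal_iff_forall_mem_isOrdinal]
  refine ⟨ZFSet.IsTransitive.sUnion' fun y hy => (h y hy).isTransitive, fun z hz => ?_⟩
  obtain ⟨y, hy, hz⟩ := ZFSet.mem_sUnion.1 hz
  exact (h y hy).mem hz

/-- the real numbers of `M` -/
noncomputable def RR (M : Set V) : V := ZFSet.sep (fun x => x ∈ M) (ZFSet.powerset ZFSet.omega)

theorem mem_RR {x : V} : x ∈ RR M ↔ x ⊆ ZFSet.omega ∧ x ∈ M := by
  unfold RR
  rw [ZFSet.mem_sep, ZFSet.mem_powerset]

/-- countable ordinals belong to uncountable ones -/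
theorem mem_of_cbl {a κ : V} (ha : a.IsOrdinal) (hκ : κ.IsOrdinal) (hc : Cbl M a)
    (hn : ¬ Cbl M κ) : a ∈ κ := by
  rcases ha.mem_or_subset hκ with h | h
  · exact h
  · exact absurd (Cov.cbl_mono h hc) hn

variable [ZFCm M]

theorem RR_mem : RR M ∈ M := ZFCm.power_mem ZFm.omega_mem

omit [ZFCm M] in
/-- adding one element to a countable set -/
theorem cbl_insert [ZFm M] {a x : V} (ha : a ∈ M) (hx : Cbl M x) : Cbl M (insert a x) := by
  classical
  obtain ⟨g, hg, h1, h2, h3⟩ := hx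
  have hd : DMap M M (fun k : V => if k = ∅ then a else app g (ZFSet.sUnion k)) :=
    Cov.dmap_ite (Dfn.eq DMap.id DMap.empty) (DMap.const ha ha)
      (DMap.app (DMap.const hg hg) (DMap.sUnion DMap.id))
  refine ⟨gr (fun k => if k = ∅ then a else app g (ZFSet.sUnion k)) ZFSet.omega,
    Cov.gr_mem hd ZFm.omega_mem, Cov.isFn_gr _ _, Cov.dom_gr _ _, fun z hz => ?_⟩
  rw [Cov.mem_ran_gr]
  rcases ZFSet.mem_insert_iff.1 hz with rfl | hz
  · exact ⟨∅, Cov.nn_mem 0, if_pos rfl⟩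
  · obtain ⟨k, hk⟩ := mem_ran.1 (h3 hz)
    have hk' : k ∈ (ZFSet.omega : V) := by
      rw [← h2]
      exact mem_dom.2 ⟨_, hk⟩
    obtain ⟨m, rfl⟩ := Cov.mem_omega.1 hk'
    refine ⟨nn (m + 1), Cov.nn_mem _, ?_⟩
    rw [if_neg (Cov.nn_succ_ne m), Cov.sUnion_succ]
    exact h1.app_eq hk

/-- Cantor -/
theorem not_cbl_RR : ¬ Cbl M (RR M) := by
  rintro ⟨f, hf, hfn, hdom, hran⟩
  have hd : Dfn M M (fun n : V => n ∉ app f n) :=
    Dfn.not (Dfn.mem DMap.id (DMap.app (DMap.const hf hf) DMap.id))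
  have hx : ZFSet.sep (fun n => n ∉ app f n) ZFSet.omega ∈ M := ZFm.sep_mem hd ZFm.omega_mem
  obtain ⟨n, hn⟩ := mem_ran.1 (hran (mem_RR.2 ⟨fun z hz => (ZFSet.mem_sep.1 hz).1, hx⟩))
  have h1 := hfn.app_eq hn
  have h2 : n ∈ (ZFSet.omega : V) := by
    rw [← hdom]
    exact mem_dom.2 ⟨_, hn⟩
  by_cases h : n ∈ app f n
  · have h3 := h
    rw [h1, ZFSet.mem_sep] at h3
    exact h3.2 h
  · have h3 : n ∈ ZFSet.sep (fun n => n ∉ app f n) ZFSet.omega := ZFSet.mem_sep.2 ⟨h2, h⟩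
    rw [← h1] at h3
    exact h h3

/-- A set with an injective definable map into a countable set is countable. -/
theorem cbl_of_inj {x k : V} (hx : x ∈ M) {F : V → V} (hF : DMap M M F)
    (hinj : ∀ y ∈ x, ∀ z ∈ x, F y = F z → y = z) (hk : Cbl M k) (hmap : ∀ y ∈ x, F y ∈ k) :
    Cbl M x := by
  have hF' : ∀ {Δ : Type 1} [Ctx Δ] {f : Δ → V}, DMap M M f → DMap M M (fun γ => F (f γ)) :=
    fun h => hF.comp h
  refine Cov.cbl_image (A := M) (H := fun u => ZFSet.sUnion (ZFSet.sep (fun y => F y = u) x)) hk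
    ?_ fun y hy => ?_
  · refine DMap.sUnion (DMap.sep (DMap.const hx hx) (Dfn.eq (hF' (DMap.snd DMap.id))
      (DMap.fst DMap.id)))
  · refine mem_rep.2 ⟨F y, hmap y hy, ?_⟩
    have : ZFSet.sep (fun z => F z = F y) x = {y} := by
      ext z
      rw [ZFSet.mem_sep, ZFSet.mem_singleton]
      constructor
      · rintro ⟨hz, e⟩
        exact hinj z hz y hy e
      · rintro rfl
        exact ⟨hy, rfl⟩
    rw [this]
    simp

/-- A well-ordering of the real numbers of `M` of uncountable length. -/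
theorem exists_enum : ∃ κ ∈ M, κ.IsOrdinal ∧ ¬ Cbl M κ ∧ ∃ F : V → V, DMap M M F ∧
    (∀ y ∈ RR M, ∀ z ∈ RR M, F y = F z → y = z) ∧ rep (RR M) F = κ := by
  obtain ⟨f, hf, hfn, hdom, hinj, hord⟩ := ZFCm.choice (M := M) RR_mem
  have happ : DMap M M (fun y : V => app f y) := DMap.app (DMap.const hf hf) DMap.id
  set S : V := rep (RR M) (fun y => app f y) with hS
  have hSM : S ∈ M := ZFm.rep_mem happ RR_mem
  have hSord : ∀ s ∈ S, s.IsOrdinal := by
    intro s hs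
    obtain ⟨y, hy, rfl⟩ := mem_rep.1 hs
    exact hord y hy
  -- the collapse of `S`
  obtain ⟨col, hcol⟩ := Cov.exists_rec (fun x => x)
    (fun x g => rep (ZFSet.sep (fun y => y ∈ S) x) (fun y => app g y)) (· ∈ ·) ZFSet.mem_wf
    (fun _ _ h => h)
  have hcol' : ∀ x, col x = rep (ZFSet.sep (fun y => y ∈ S) x) col := by
    intro x
    rw [hcol]
    ext z
    rw [mem_rep, mem_rep]
    constructor
    · rintro ⟨y, hy, rfl⟩
      exact ⟨y, hy, (Cov.app_gr col (ZFSet.mem_sep.1 hy).1).symm⟩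
    · rintro ⟨y, hy, rfl⟩
      exact ⟨y, hy, Cov.app_gr col (ZFSet.mem_sep.1 hy).1⟩
  have hmem : ∀ x z, z ∈ col x ↔ ∃ y ∈ S, y ∈ x ∧ col y = z := by
    intro x z
    rw [hcol', mem_rep]
    constructor
    · rintro ⟨y, hy, rfl⟩
      exact ⟨y, (ZFSet.mem_sep.1 hy).2, (ZFSet.mem_sep.1 hy).1, rfl⟩
    · rintro ⟨y, hy, hyx, rfl⟩
      exact ⟨y, ZFSet.mem_sep.2 ⟨hyx, hy⟩, rfl⟩
  have hcold : DMap M M col := by
    refine DMap.recMem (H := fun x g => rep (ZFSet.sep (fun y => y ∈ S) x) (fun y => app g y))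
      ?_ (fun x _ => hcol x)
    refine DMap.rep (DMap.sep (DMap.fst DMap.id) (Dfn.mem (DMap.snd DMap.id)
      (DMap.const hSM hSM))) (DMap.app (DMap.snd (DMap.fst DMap.id)) (DMap.snd DMap.id))
  have hlt : ∀ s ∈ S, ∀ t, s ∈ t → col s ∈ col t := fun s hs t hst => (hmem t _).2 ⟨s, hs, hst, rfl⟩
  have hcolinj : ∀ s ∈ S, ∀ t ∈ S, col s = col t → s = t := by
    intro s hs t ht e
    rcases (hSord s hs).mem_trichotomous (hSord t ht) with h | h | h
    · have := hlt s hs t h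
      rw [e] at this
      exact absurd this (ZFSet.mem_irrefl _)
    · exact h
    · have := hlt t ht s h
      rw [e] at this
      exact absurd this (ZFSet.mem_irrefl _)
  have hcolord : ∀ s, s.IsOrdinal → (col s).IsOrdinal := by
    intro s
    induction s using ZFSet.inductionOn with
    | _ s ih =>
      intro hs
      rw [ZFSet.isOrdinal_iff_forall_mem_isOrdinal]
      constructor
      · intro z hz u hu
        obtain ⟨y, hy, hys, rfl⟩ := (hmem s z).1 hz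
        obtain ⟨v, hv, hvy, rfl⟩ := (hmem y u).1 hu
        exact (hmem s _).2 ⟨v, hv, hs.mem_trans hvy hys, rfl⟩
      · intro z hz
        obtain ⟨y, hy, hys, rfl⟩ := (hmem s z).1 hz
        exact ih y hys (hs.mem hys)
  have hF : DMap M M (fun y : V => col (app f y)) := hcold.comp happ
  have hFinj : ∀ y ∈ RR M, ∀ z ∈ RR M, col (app f y) = col (app f z) → y = z := by
    intro y hy z hz e
    have h1 := hcolinj _ (mem_rep.2 ⟨y, hy, rfl⟩) _ (mem_rep.2 ⟨z, hz, rfl⟩) e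
    exact hinj y (hdom ▸ hy) z (hdom ▸ hz) h1
  refine ⟨rep (RR M) (fun y => col (app f y)), ZFm.rep_mem hF RR_mem, ?_, ?_, _, hF, hFinj, rfl⟩
  · rw [ZFSet.isOrdinal_iff_forall_mem_isOrdinal]
    constructor
    · intro z hz u hu
      obtain ⟨y, hy, rfl⟩ := mem_rep.1 hz
      obtain ⟨v, hv, hvy, rfl⟩ := (hmem _ u).1 hu
      obtain ⟨y', hy', rfl⟩ := mem_rep.1 hv
      exact mem_rep.2 ⟨y', hy', rfl⟩
    · intro z hz
      obtain ⟨y, hy, rfl⟩ := mem_rep.1 hz
      exact hcolord _ (hord y hy)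
  · intro hc
    exact not_cbl_RR (cbl_of_inj RR_mem hF hFinj hc fun y hy => mem_rep.2 ⟨y, hy, rfl⟩)

end

end Cbl3

open Cbl3 in
/-- **The first uncountable ordinal of `M`.** -/
theorem exists_omega1 (M : Set V) [ZFCm M] :
    ∃ w ∈ M, w.IsOrdinal ∧ (∀ a, a ∈ w ↔ a ∈ M ∧ a.IsOrdinal ∧ Cbl M a) ∧ ¬ Cbl M w := by
  obtain ⟨κ, hκ, hκo, hκc, -⟩ := exists_enum (M := M)
  have hw : ZFSet.sep (fun a => Cbl M a) κ ∈ M := ZFm.sep_mem (dfn_cbl DMap.id) hκ
  have hmem : ∀ a, a ∈ ZFSet.sep (fun a => Cbl M a) κ ↔ a ∈ M ∧ a.IsOrdinal ∧ Cbl M a := by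
    intro a
    rw [ZFSet.mem_sep]
    constructor
    · rintro ⟨h1, h2⟩
      exact ⟨TrC.trans hκ h1, hκo.mem h1, h2⟩
    · rintro ⟨h1, h2, h3⟩
      exact ⟨mem_of_cbl h2 hκo h3 hκc, h3⟩
  have hord : (ZFSet.sep (fun a => Cbl M a) κ).IsOrdinal := by
    rw [ZFSet.isOrdinal_iff_forall_mem_isOrdinal]
    constructor
    · intro a ha b hb
      obtain ⟨h1, h2, h3⟩ := (hmem a).1 ha
      exact (hmem b).2 ⟨TrC.trans h1 hb, h2.mem hb, Cov.cbl_mono (h2.subset_of_mem hb) h3⟩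
    · intro a ha
      exact ((hmem a).1 ha).2.1
  refine ⟨_, hw, hord, hmem, fun hc => ?_⟩
  exact ZFSet.mem_irrefl _ ((hmem _).2 ⟨hw, hord, hc⟩)

section

variable {M : Set V} [ZFCm M]

open Cbl3 in
/-- A countable set of countable ordinals is bounded. -/
theorem cbl_bounded {w x : V} (hw : ∀ a, a ∈ w ↔ a ∈ M ∧ a.IsOrdinal ∧ Cbl M a)
    (hx : Cbl M x) (h : x ⊆ w) : ∃ b ∈ w, ∀ a ∈ x, a ∈ b := by
  classical
  obtain ⟨f, hf, hfn, hdom, hran⟩ := hx
  have happ : ∀ {Δ : Type 1} [Ctx Δ] {g : Δ → V}, DMap M M g → DMap M M (fun γ => app f (g γ)) :=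
    fun h => DMap.app (DMap.const hf hf) h
  -- the values that are countable ordinals
  let B : V → V := fun n => if (app f n).IsOrdinal ∧ Cbl M (app f n) then
    insert (app f n) (app f n) else ∅
  have hB : DMap M M B := by
    refine Cov.dmap_ite ?_ ?_ DMap.empty
    · exact Dfn.and (dfn_isOrdinal (happ DMap.id)) (dfn_cbl (happ DMap.id))
    · exact DMap.insert (happ DMap.id) (happ DMap.id)
  have hBc : ∀ n ∈ (ZFSet.omega : V), Cbl M (B n) := by
    intro n hn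
    show Cbl M (if (app f n).IsOrdinal ∧ Cbl M (app f n) then
      insert (app f n) (app f n) else ∅)
    split_ifs with h
    · refine cbl_insert ?_ h.2
      have hnM : n ∈ M := TrC.trans (ZFm.omega_mem (M := M)) hn
      exact (happ DMap.id : DMap M M (fun n : V => app f n)).mem (γ := n) (inM_V.2 hnM)
    · exact Cov.cbl_empty
  have hU : ZFSet.sUnion (rep ZFSet.omega B) ∈ M :=
    ZFm.sUnion_mem (ZFm.rep_mem hB ZFm.omega_mem)
  refine ⟨ZFSet.sUnion (rep ZFSet.omega B), (hw _).2 ⟨hU, ?_, Cov.cbl_iUnion hB hBc⟩, ?_⟩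
  · refine sUnion_ordinal fun y hy => ?_
    obtain ⟨n, _, rfl⟩ := mem_rep.1 hy
    show (if (app f n).IsOrdinal ∧ Cbl M (app f n) then
      insert (app f n) (app f n) else (∅ : V)).IsOrdinal
    split_ifs with h
    · exact ZFSet.isOrdinal_succ h.1
    · exact ZFSet.isOrdinal_empty
  · intro a ha
    obtain ⟨n, hn⟩ := mem_ran.1 (hran ha)
    have h1 : app f n = a := hfn.app_eq hn
    have h2 : n ∈ (ZFSet.omega : V) := by
      rw [← hdom]
      exact mem_dom.2 ⟨_, hn⟩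
    obtain ⟨_, h3, h4⟩ := (hw a).1 (h ha)
    refine ZFSet.mem_sUnion.2 ⟨B n, mem_rep.2 ⟨n, h2, rfl⟩, ?_⟩
    show a ∈ (if (app f n).IsOrdinal ∧ Cbl M (app f n) then
      insert (app f n) (app f n) else (∅ : V))
    rw [h1, if_pos ⟨h3, h4⟩]
    exact ZFSet.mem_insert _ _

open Cbl3 in
/-- `ω₁ ≤ 2^ω` in `M`. -/
theorem exists_inj_omega1 {w : V} (hw : ∀ a, a ∈ w ↔ a ∈ M ∧ a.IsOrdinal ∧ Cbl M a)
    (hwM : w ∈ M) : ∃ e ∈ M, IsFn e ∧ dom e = w ∧ IsInjF e ∧ ∀ a ∈ w, app e a ⊆ ZFSet.omega := by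
  obtain ⟨κ, hκ, hκo, hκc, F, hF, hinj, hrep⟩ := exists_enum (M := M)
  have hF' : ∀ {Δ : Type 1} [Ctx Δ] {f : Δ → V}, DMap M M f → DMap M M (fun γ => F (f γ)) :=
    fun h => hF.comp h
  let E : V → V := fun a => ZFSet.sUnion (ZFSet.sep (fun y => F y = a) (RR M))
  have hE : DMap M M E := DMap.sUnion (DMap.sep (DMap.const RR_mem RR_mem)
    (Dfn.eq (hF' (DMap.snd DMap.id)) (DMap.fst DMap.id)))
  have hval : ∀ a ∈ w, E a ∈ RR M ∧ F (E a) = a := by
    intro a ha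
    obtain ⟨h1, h2, h3⟩ := (hw a).1 ha
    have h4 : a ∈ rep (RR M) F := by
      rw [hrep]
      exact mem_of_cbl h2 hκo h3 hκc
    obtain ⟨y, hy, e⟩ := mem_rep.1 h4
    have h5 : ZFSet.sep (fun z => F z = a) (RR M) = {y} := by
      ext z
      rw [ZFSet.mem_sep, ZFSet.mem_singleton]
      constructor
      · rintro ⟨hz, e'⟩
        exact hinj z hz y hy (e'.trans e.symm)
      · rintro rfl
        exact ⟨hy, e⟩
    have h6 : E a = y := by
      show ZFSet.sUnion (ZFSet.sep (fun z => F z = a) (RR M)) = y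
      rw [h5]
      simp
    rw [h6]
    exact ⟨hy, e⟩
  refine ⟨gr E w, Cov.gr_mem hE hwM, Cov.isFn_gr _ _, Cov.dom_gr _ _, ?_, fun a ha => ?_⟩
  · intro a ha b hb e
    rw [Cov.dom_gr] at ha hb
    rw [Cov.app_gr E ha, Cov.app_gr E hb] at e
    rw [← (hval a ha).2, ← (hval b hb).2, e]
  · rw [Cov.app_gr E ha]
    exact (mem_RR.1 (hval a ha).1).1

end

end Pool.Agent.CTM
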