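import Pool.Agent.CTM.Nat
import Pool.Agent.CTM.Cbl3

/-!
Countability in models of ZFC: the ideal of the countable sets (MP_ea2134_lc, module CBL).
The first uncountable ordinal is in `Cbl3`; fibres, root lemma and condensation points are in
`Root`.

Mathematics: helper73; formalisation: helper48.
-/

set_option autoImplicit false

namespace Pool.Agent.CTM

namespace CblAux

section

variable {Γ : Type 1} [Ctx Γ] {A M : Set V}

theorem toM {f : Γ → V} (h : DMap A M f) : DMap M M f :=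
  fun i => ⟨(h i).1, Dfn.toM (Γ := Γ × V) (P := fun p => p.2 = f p.1) h.graph⟩

theorem cst {a : V} (h : a ∈ M) : DMap M M (fun _ : Γ => a) := DMap.const h h

theorem ran_mem [ZFm M] {f : V} (h : f ∈ M) : ran f ∈ M :=
  (DMap.ran (DMap.id (Γ := V) (A := M))).mem (γ := f) (inM_V.2 h)

end

end CblAux

section

variable {Γ : Type 1} [Ctx Γ] {A M : Set V} [ZFCm M]

omit [ZFCm M] in
theorem Cbl.mono {x y : V} (h : Cbl M y) (hxy : x ⊆ y) : Cbl M x := Cov.cbl_mono hxy h

theorem Cbl.mem {x y : V} (h : Cbl M x) (hy : y ∈ x) : y ∈ M := by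
  obtain ⟨f, hf, _, _, h3⟩ := h
  obtain ⟨n, hn⟩ := mem_ran.1 (h3 hy)
  exact (pair_mem_iff.1 (TrC.trans hf hn)).2

theorem Dfn.cbl {f : Γ → V} (hf : DMap A M f) : Dfn A M (fun γ => Cbl M (f γ)) := by
  have h : Dfn A M (fun x : V => ∃ f ∈ M, IsFn f ∧ dom f = ZFSet.omega ∧ x ⊆ ran f) := by
    refine Dfn.ex (P := fun x f => IsFn f ∧ dom f = ZFSet.omega ∧ x ⊆ ran f) ?_
    refine Dfn.and (Cbl3.dfn_isFn (DMap.snd DMap.id)) (Dfn.and
      (Dfn.eq ?_ DMap.omega) (Dfn.subset ?_ ?_))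
    · exact DMap.dom (DMap.snd DMap.id)
    · exact DMap.fst DMap.id
    · exact DMap.ran (DMap.snd DMap.id)
  exact h.comp hf

theorem cbl_omega : Cbl M ZFSet.omega :=
  ⟨gr (fun n => n) ZFSet.omega, Cov.gr_mem (A := M) DMap.id ZFm.omega_mem, Cov.isFn_gr _ _,
    Cov.dom_gr _ _, fun z hz => Cov.mem_ran_gr.2 ⟨z, hz, rfl⟩⟩

theorem cbl_fin {x : V} (h : ∀ y ∈ x, y ∈ M) (h' : {y | y ∈ x}.Finite) : Cbl M x := by
  classical
  have key : ∀ s : Finset V, (∀ y ∈ s, y ∈ M) → ∀ x : V, (∀ y ∈ x, y ∈ s) → Cbl M x := by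
    intro s
    induction s using Finset.induction_on with
    | empty =>
      intro _ x hx
      exact (Cov.cbl_empty (M := M)).mono fun y hy => absurd (hx y hy) (Finset.notMem_empty y)
    | insert a s ha ih =>
      intro hs x hx
      have h1 : Cbl M (ZFSet.sep (fun y => y ∈ s) x) :=
        ih (fun y hy => hs y (Finset.mem_insert_of_mem hy)) _ fun y hy => (ZFSet.mem_sep.1 hy).2
      refine (Cbl3.cbl_insert (hs a (Finset.mem_insert_self _ _)) h1).mono fun y hy => ?_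
      rcases Finset.mem_insert.1 (hx y hy) with rfl | h2
      · exact ZFSet.mem_insert _ _
      · exact ZFSet.mem_insert_iff.2 (Or.inr (ZFSet.mem_sep.2 ⟨hy, h2⟩))
  refine key h'.toFinset (fun y hy => ?_) x fun y hy => ?_
  · exact h y ((Set.Finite.mem_toFinset h').1 hy)
  · exact (Set.Finite.mem_toFinset h').2 hy

theorem Cbl.rep {x : V} {F : V → V} (h : Cbl M x) (hF : DMap A M F) : Cbl M (CTM.rep x F) :=
  Cov.cbl_image h hF fun _ hz => hz

theorem Cbl.union {x y : V} (h : Cbl M x) (h' : Cbl M y) : Cbl M (x ∪ y) := by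
  classical
  obtain ⟨f, hf, h1, h2, h3⟩ := h
  obtain ⟨g, hg, h4, h5, h6⟩ := h'
  have hd : DMap M M (fun p : V => if Cov.fs p = ∅ then app f (Cov.sn p) else
      app g (Cov.sn p)) := by
    refine Cov.dmap_ite (Dfn.eq (Cov.dmap_fs DMap.id) DMap.empty) ?_ ?_
    · exact DMap.app (DMap.const hf hf) (Cov.dmap_sn DMap.id)
    · exact DMap.app (DMap.const hg hg) (Cov.dmap_sn DMap.id)
  refine Cov.cbl_image (Cov.cbl_prod (M := M)) hd fun z hz => ?_
  rcases ZFSet.mem_union.1 hz with hz | hz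
  · obtain ⟨n, hn⟩ := mem_ran.1 (h3 hz)
    refine mem_rep.2 ⟨ZFSet.pair ∅ n, ZFSet.pair_mem_prod.2 ⟨Cov.nn_mem 0, ?_⟩, ?_⟩
    · rw [← h2]
      exact mem_dom.2 ⟨_, hn⟩
    · rw [Cov.fs_pair, Cov.sn_pair, if_pos rfl]
      exact h1.app_eq hn
  · obtain ⟨n, hn⟩ := mem_ran.1 (h6 hz)
    refine mem_rep.2 ⟨ZFSet.pair (CTM.nn 1) n, ZFSet.pair_mem_prod.2 ⟨Cov.nn_mem 1, ?_⟩, ?_⟩
    · rw [← h5]
      exact mem_dom.2 ⟨_, hn⟩
    · rw [Cov.fs_pair, Cov.sn_pair, if_neg (Cov.nn_succ_ne 0)]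
      exact h4.app_eq hn

theorem Cbl.prod {x y : V} (h : Cbl M x) (h' : Cbl M y) : Cbl M (ZFSet.prod x y) := by
  obtain ⟨f, hf, h1, h2, h3⟩ := h
  obtain ⟨g, hg, h4, h5, h6⟩ := h'
  have hd : DMap M M (fun p : V => ZFSet.pair (app f (Cov.fs p)) (app g (Cov.sn p))) := by
    refine DMap.pair ?_ ?_
    · exact DMap.app (DMap.const hf hf) (Cov.dmap_fs DMap.id)
    · exact DMap.app (DMap.const hg hg) (Cov.dmap_sn DMap.id)
  refine Cov.cbl_image (Cov.cbl_prod (M := M)) hd fun z hz => ?_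
  obtain ⟨a, ha, b, hb, rfl⟩ := ZFSet.mem_prod.1 hz
  obtain ⟨n, hn⟩ := mem_ran.1 (h3 ha)
  obtain ⟨m, hm⟩ := mem_ran.1 (h6 hb)
  refine mem_rep.2 ⟨ZFSet.pair n m, ZFSet.pair_mem_prod.2 ⟨?_, ?_⟩, ?_⟩
  · rw [← h2]
    exact mem_dom.2 ⟨_, hn⟩
  · rw [← h5]
    exact mem_dom.2 ⟨_, hm⟩
  · rw [Cov.fs_pair, Cov.sn_pair, h1.app_eq hn, h4.app_eq hm]

/-- A countable union of countable sets is countable (choice in `M`). -/
theorem Cbl.iUnion {I : V} {F : V → V} (h : Cbl M I) (hF : DMap A M F)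
    (h' : ∀ i ∈ I, Cbl M (F i)) : Cbl M (ZFSet.sUnion (CTM.rep I F)) := by
  classical
  obtain ⟨f, hf, h1, h2, h3⟩ := h
  have hFM : DMap M M F := CblAux.toM hF
  have hFf : DMap M M (fun n : V => F (app f n)) :=
    hFM.comp (DMap.app (DMap.const hf hf) DMap.id)
  let B : V → V := fun n => if Cbl M (F (app f n)) then F (app f n) else ∅
  have hB : DMap M M B := Cov.dmap_ite (Dfn.cbl hFf) hFf DMap.empty
  have hBc : ∀ n ∈ (ZFSet.omega : V), Cbl M (B n) := by
    intro n _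
    show Cbl M (if Cbl M (F (app f n)) then F (app f n) else ∅)
    split_ifs with hc
    · exact hc
    · exact Cov.cbl_empty
  refine (Cov.cbl_iUnion hB hBc).mono fun z hz => ?_
  obtain ⟨y, hy, hz⟩ := ZFSet.mem_sUnion.1 hz
  obtain ⟨i, hi, rfl⟩ := mem_rep.1 hy
  obtain ⟨n, hn⟩ := mem_ran.1 (h3 hi)
  have hn' : n ∈ (ZFSet.omega : V) := by
    rw [← h2]
    exact mem_dom.2 ⟨_, hn⟩
  refine ZFSet.mem_sUnion.2 ⟨B n, mem_rep.2 ⟨n, hn', rfl⟩, ?_⟩
  show z ∈ (if Cbl M (F (app f n)) then F (app f n) else (∅ : V))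
  rw [h1.app_eq hn, if_pos (h' i hi)]
  exact hz

/-- The same for definable families that are indexed by a countable set, in another form. -/
theorem Cbl.sep_ex {I W : V} {P : V → V → Prop} (h : Cbl M I) (hI : I ∈ M) (hW : W ∈ M)
    (hP : Dfn A M (fun p : V × V => P p.1 p.2)) (h' : ∀ i ∈ I, Cbl M (ZFSet.sep (P i) W)) :
    Cbl M (ZFSet.sep (fun x => ∃ i ∈ I, P i x) W) := by
  have _ := hI
  have hF : DMap M M (fun i : V => ZFSet.sep (P i) W) :=
    DMap.sep (DMap.const hW hW) hP.toM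
  refine (Cbl.iUnion h hF h').mono fun x hx => ?_
  obtain ⟨hx1, i, hi, hx2⟩ := ZFSet.mem_sep.1 hx
  exact ZFSet.mem_sUnion.2 ⟨ZFSet.sep (P i) W, mem_rep.2 ⟨i, hi, rfl⟩,
    ZFSet.mem_sep.2 ⟨hx1, hx2⟩⟩

/-- The finite subsets of a countable set. -/
theorem Cbl.finP {x : V} (h : Cbl M x) : Cbl M (FinP x) := by
  classical
  obtain ⟨f, hf, h1, h2, h3⟩ := h
  have hR : ran f ∈ M := CblAux.ran_mem hf
  have hRc : Cbl M (ran f) := ⟨f, hf, h1, h2, fun _ hz => hz⟩
  let G : V → V := fun y => y ∪ CTM.rep (ZFSet.prod y (ran f))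
    (fun p => insert (Cov.sn p) (Cov.fs p))
  have hi : ∀ {Δ : Type 1} [Ctx Δ] {g : Δ → V}, DMap M M g →
      DMap M M (fun γ => (insert (Cov.sn (g γ)) (Cov.fs (g γ)) : V)) := fun hg =>
    DMap.insert (Cov.dmap_sn hg) (Cov.dmap_fs hg)
  have hG : DMap M M G :=
    DMap.union DMap.id (DMap.rep (DMap.prod DMap.id (DMap.const hR hR)) (hi (DMap.snd DMap.id)))
  have hB : DMap M M (fun k : V => G^[num k] {∅}) :=
    DMap.iter (G := fun _ => G) (hG.comp (DMap.snd DMap.id)) (DMap.sing DMap.empty) DMap.id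
  have hc : ∀ n : ℕ, Cbl M (G^[n] {∅}) := by
    intro n
    induction n with
    | zero =>
      refine cbl_fin (fun y hy => ?_) ?_
      · rw [Function.iterate_zero, id] at hy
        rw [ZFSet.mem_singleton.1 hy]
        exact ZFm.empty_mem
      · refine (Set.finite_singleton (∅ : V)).subset fun y hy => ?_
        exact ZFSet.mem_singleton.1 hy
    | succ n ih =>
      rw [Function.iterate_succ_apply']
      exact ih.union ((ih.prod hRc).rep (hi DMap.id))
  have hmem : ∀ s : Finset V, ∀ z : V, (∀ y, y ∈ z ↔ y ∈ s) → z ⊆ ran f →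
      ∃ n : ℕ, z ∈ G^[n] {∅} := by
    intro s
    induction s using Finset.induction_on with
    | empty =>
      intro z hz _
      refine ⟨0, ?_⟩
      have : z = ∅ := (ZFSet.eq_empty z).2 fun y hy => absurd ((hz y).1 hy)
        (Finset.notMem_empty y)
      rw [this, Function.iterate_zero, id]
      exact ZFSet.mem_singleton.2 rfl
    | insert a s ha ih =>
      intro z hz hzR
      obtain ⟨n, hn⟩ := ih (ZFSet.sep (fun y => y ≠ a) z) (fun y => by
        rw [ZFSet.mem_sep, hz y, Finset.mem_insert]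
        constructor
        · rintro ⟨h4 | h4, h5⟩
          · exact absurd h4 h5
          · exact h4
        · intro h4
          exact ⟨Or.inr h4, fun e => ha (e ▸ h4)⟩) (fun y hy => hzR (ZFSet.mem_sep.1 hy).1)
      refine ⟨n + 1, ?_⟩
      rw [Function.iterate_succ_apply']
      have haz : a ∈ z := (hz a).2 (Finset.mem_insert_self _ _)
      refine ZFSet.mem_union.2 (Or.inr (mem_rep.2
        ⟨ZFSet.pair (ZFSet.sep (fun y => y ≠ a) z) a, ZFSet.pair_mem_prod.2 ⟨hn, hzR haz⟩, ?_⟩))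
      show (insert (Cov.sn _) (Cov.fs _) : V) = z
      rw [Cov.fs_pair, Cov.sn_pair]
      ext y
      rw [ZFSet.mem_insert_iff, ZFSet.mem_sep]
      constructor
      · rintro (rfl | h4)
        · exact haz
        · exact h4.1
      · intro hy
        by_cases e : y = a
        · exact Or.inl e
        · exact Or.inr ⟨hy, e⟩
  refine (Cov.cbl_iUnion hB fun k _ => hc _).mono fun y hy => ?_
  obtain ⟨hyx, hyf⟩ := mem_FinP.1 hy
  obtain ⟨n, hn⟩ := hmem hyf.toFinset y (fun z => (Set.Finite.mem_toFinset hyf).symm)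
    fun z hz => h3 (hyx hz)
  refine ZFSet.mem_sUnion.2 ⟨_, mem_rep.2 ⟨CTM.nn n, Cov.nn_mem n, rfl⟩, ?_⟩
  rw [num_nn]
  exact hn

/-- Finite sequences: tuples of elements of a countable set. -/
theorem Cbl.tuples {x : V} (hx : x ∈ M) (h : Cbl M x) :
    Cbl M (ZFSet.sep (fun z => ∃ (n : ℕ) (v : Fin n → V), (∀ i, v i ∈ x) ∧ z = tup v)
      (FinP (ZFSet.prod ZFSet.omega x))) := by
  have _ := hx
  exact ((cbl_omega (M := M)).prod h).finP.mono fun z hz => (ZFSet.mem_sep.1 hz).1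

theorem cbl_iff_inj {x : V} (hx : x ∈ M) :
    Cbl M x ↔ ∃ f ∈ M, IsFn f ∧ dom f = x ∧ IsInjF f ∧ ran f ⊆ ZFSet.omega := by
  constructor
  · rintro ⟨g, hg, h1, h2, h3⟩
    let F : V → V := fun y => ZFSet.sUnion (ZFSet.sep (fun n => app g n = y ∧
      ∀ m ∈ n, app g m ≠ y) ZFSet.omega)
    have hF : DMap M M F := by
      have hgc : ∀ {Δ : Type 1} [Ctx Δ] {f : Δ → V}, DMap M M f →
        DMap M M (fun γ => app g (f γ)) := fun h => DMap.app (DMap.const hg hg) h
      refine DMap.sUnion (DMap.sep (DMap.const ZFm.omega_mem ZFm.omega_mem) ?_)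
      apply_rules (transparency := .reducible) (maxDepth := 999) only [hgc] using is_poly
    have hval : ∀ y ∈ x, F y ∈ (ZFSet.omega : V) ∧ app g (F y) = y := by
      intro y hy
      obtain ⟨n, hn⟩ := mem_ran.1 (h3 hy)
      have hn' : n ∈ (ZFSet.omega : V) := by
        rw [← h2]
        exact mem_dom.2 ⟨_, hn⟩
      obtain ⟨m, hm, hmin⟩ := ZFSet.mem_wf.has_min {n | n ∈ (ZFSet.omega : V) ∧ app g n = y}
        ⟨n, hn', h1.app_eq hn⟩
      have e : (ZFSet.sep (fun n => app g n = y ∧ ∀ m ∈ n, app g m ≠ y) ZFSet.omega : V) =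
          {m} := by
        ext k
        rw [ZFSet.mem_sep, ZFSet.mem_singleton]
        constructor
        · rintro ⟨hk, hk1, hk2⟩
          rcases (omega_isOrdinal.mem hk).mem_trichotomous (omega_isOrdinal.mem hm.1) with
            h | h | h
          · exact absurd h (hmin k ⟨hk, hk1⟩)
          · exact h
          · exact absurd hm.2 (hk2 m h)
        · rintro rfl
          refine ⟨hm.1, hm.2, fun l hl hl' => hmin l ⟨?_, hl'⟩ hl⟩
          exact omega_isOrdinal.isTransitive k hm.1 hl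
      have e' : F y = m := by
        show ZFSet.sUnion (ZFSet.sep (fun n => app g n = y ∧ ∀ m ∈ n, app g m ≠ y)
          ZFSet.omega) = m
        rw [e, ZFSet.sUnion_singleton]
      rw [e']
      exact hm
    refine ⟨gr F x, Cov.gr_mem hF hx, Cov.isFn_gr _ _, Cov.dom_gr _ _, ?_, ?_⟩
    · intro a ha b hb e
      rw [Cov.dom_gr] at ha hb
      rw [Cov.app_gr F ha, Cov.app_gr F hb] at e
      rw [← (hval a ha).2, ← (hval b hb).2, e]
    · intro k hk
      obtain ⟨y, hy, rfl⟩ := Cov.mem_ran_gr.1 hk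
      exact (hval y hy).1
  · rintro ⟨f, hf, h1, h2, h3, h4⟩
    have hF : DMap M M (fun y : V => app f y) := DMap.app (DMap.const hf hf) DMap.id
    refine Cbl3.cbl_of_inj hx hF (fun y hy z hz e => h3 y (h2 ▸ hy) z (h2 ▸ hz) e) cbl_omega
      fun y hy => h4 (mem_ran.2 ⟨y, h1.pair_app (h2 ▸ hy)⟩)

/-- The real numbers of `M` are uncountable in `M`. -/
theorem not_cbl_power : ¬ Cbl M (ZFSet.sep (fun x => x ∈ M) (ZFSet.powerset ZFSet.omega)) :=
  Cbl3.not_cbl_RR

end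

attribute [is_poly] Dfn.cbl

end Pool.Agent.CTM
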