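import Pool.Agent.CTM.StmtsF

/-!
Values of names and check names (MP_ea2134_lc, module CHK).
-/

set_option autoImplicit false

namespace Pool.Agent.CTM

/-- Replacement over a set depends only on the values on this set. -/
theorem Chk.rep_congr {a : V} {F F' : V → V} (h : ∀ x ∈ a, F x = F' x) : rep a F = rep a F' := by
  ext z
  rw [mem_rep, mem_rep]
  constructor
  · rintro ⟨x, hx, rfl⟩
    exact ⟨x, hx, (h x hx).symm⟩
  · rintro ⟨x, hx, rfl⟩
    exact ⟨x, hx, h x hx⟩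

/-- The elements of the value of a name. -/
theorem mem_val {G τ x : V} : x ∈ val G τ ↔ ∃ σ, ∃ p ∈ G, ZFSet.pair σ p ∈ τ ∧ x = val G σ := by
  rw [val, mem_rep]
  constructor
  · rintro ⟨σ, hσ, rfl⟩
    obtain ⟨hd, p, hp, h⟩ := ZFSet.mem_sep.1 hσ
    exact ⟨σ, p, hp, h, by rw [dif_pos hd]⟩
  · rintro ⟨σ, p, hp, h, rfl⟩
    have hd : σ ∈ dom τ := mem_dom.2 ⟨p, h⟩
    exact ⟨σ, ZFSet.mem_sep.2 ⟨hd, p, hp, h⟩, by rw [dif_pos hd]⟩

/-- The recursion equation for check names. -/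
theorem chk_eq (x : V) : chk x = rep x (fun y => ZFSet.pair (chk y) ∅) := by
  rw [chk]
  exact Chk.rep_congr fun y hy => by rw [dif_pos hy]

theorem mem_chk {x z : V} : z ∈ chk x ↔ ∃ y ∈ x, z = ZFSet.pair (chk y) ∅ := by
  rw [chk_eq, mem_rep]
  constructor
  · rintro ⟨y, hy, rfl⟩
    exact ⟨y, hy, rfl⟩
  · rintro ⟨y, hy, rfl⟩
    exact ⟨y, hy, rfl⟩

/-- The value of a check name. -/
theorem val_chk {G : V} (hG : ∅ ∈ G) (x : V) : val G (chk x) = x := by
  induction x using ZFSet.inductionOn with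
  | _ x ih =>
    ext z
    rw [mem_val]
    constructor
    · rintro ⟨σ, p, _, h, rfl⟩
      obtain ⟨y, hy, e⟩ := mem_chk.1 h
      obtain ⟨rfl, _⟩ := ZFSet.pair_injective e
      rw [ih y hy]
      exact hy
    · intro hz
      exact ⟨chk z, ∅, hG, mem_chk.2 ⟨z, hz, rfl⟩, (ih z hz).symm⟩

theorem Chk.isFn_gr (F : V → V) (a : V) : IsFn (gr F a) := by
  constructor
  · intro p hp
    obtain ⟨x, _, rfl⟩ := mem_gr.1 hp
    exact ⟨x, F x, rfl⟩
  · intro x y z h h'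
    obtain ⟨x1, _, e1⟩ := mem_gr.1 h
    obtain ⟨x2, _, e2⟩ := mem_gr.1 h'
    obtain ⟨rfl, rfl⟩ := ZFSet.pair_injective e1
    obtain ⟨rfl, rfl⟩ := ZFSet.pair_injective e2
    rfl

theorem Chk.pair_mem_gr {F : V → V} {a x y : V} : ZFSet.pair x y ∈ gr F a ↔ x ∈ a ∧ y = F x := by
  rw [mem_gr]
  constructor
  · rintro ⟨z, hz, e⟩
    obtain ⟨rfl, rfl⟩ := ZFSet.pair_injective e
    exact ⟨hz, rfl⟩
  · rintro ⟨h, rfl⟩
    exact ⟨x, h, rfl⟩

theorem Chk.app_gr {F : V → V} {a x : V} (h : x ∈ a) : app (gr F a) x = F x :=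
  (Chk.isFn_gr F a).app_eq (Chk.pair_mem_gr.2 ⟨h, rfl⟩)

theorem Chk.dom_gr (F : V → V) (a : V) : dom (gr F a) = a := by
  ext x
  rw [mem_dom]
  constructor
  · rintro ⟨y, h⟩
    exact (Chk.pair_mem_gr.1 h).1
  · intro h
    exact ⟨F x, Chk.pair_mem_gr.2 ⟨h, rfl⟩⟩

/-- Check names are definable. -/
theorem DMap_chk (A M : Set V) [ZFm M] : DMap A M chk := by
  refine DMap.recMem (H := fun x g => rep x (fun y => ZFSet.pair (app g y) ∅)) (by
    apply_rules (transparency := .reducible) (maxDepth := 999) only using is_poly) ?_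
  intro x _
  rw [chk_eq]
  exact Chk.rep_congr fun y hy => by rw [Chk.app_gr hy]

/-- **Module CHK.** -/
theorem stmt_chk : Stmt_chk :=
  ⟨fun _ x hG => val_chk hG x, fun A M _ => DMap_chk A M⟩

end Pool.Agent.CTM
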