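import Pool.Agent.CTM.PosDefs

/-!
The compatibility lemma for the forcing notion of MP_ea2134_lc: finite combinatorics of tokens.
-/

set_option autoImplicit false

namespace Pool.Agent.CTM

namespace Cmp

/-! ### Tokens -/

theorem nn01 : nn 0 ≠ nn 1 := by
  intro h
  have h1 : nn 0 ∈ nn 1 := by
    show nn 0 ∈ (insert (nn 0) (nn 0) : V)
    simp
  rw [← h] at h1
  exact ZFSet.notMem_empty _ h1

theorem nn02 : nn 0 ≠ nn 2 := by
  intro h
  have h1 : nn 1 ∈ nn 2 := by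
    show nn 1 ∈ (insert (nn 1) (nn 1) : V)
    simp
  rw [← h] at h1
  exact ZFSet.notMem_empty _ h1

theorem nn12 : nn 1 ≠ nn 2 := by
  intro h
  have h1 : nn 1 ∈ nn 2 := by
    show nn 1 ∈ (insert (nn 1) (nn 1) : V)
    simp
  rw [← h] at h1
  exact ZFSet.mem_irrefl _ h1

theorem tC_inj {i n ε i' n' ε' : V} (h : tC i n ε = tC i' n' ε') : i = i' ∧ n = n' ∧ ε = ε' := by
  obtain ⟨_, h⟩ := ZFSet.pair_injective h
  obtain ⟨h1, h⟩ := ZFSet.pair_injective h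
  obtain ⟨h2, h3⟩ := ZFSet.pair_injective h
  exact ⟨h1, h2, h3⟩

theorem tD_inj {i n ε i' n' ε' : V} (h : tD i n ε = tD i' n' ε') : i = i' ∧ n = n' ∧ ε = ε' := by
  obtain ⟨_, h⟩ := ZFSet.pair_injective h
  obtain ⟨h1, h⟩ := ZFSet.pair_injective h
  obtain ⟨h2, h3⟩ := ZFSet.pair_injective h
  exact ⟨h1, h2, h3⟩

theorem tR_inj {i n ε i' n' ε' : V} (h : tR i n ε = tR i' n' ε') : i = i' ∧ n = n' ∧ ε = ε' := by
  obtain ⟨_, h⟩ := ZFSet.pair_injective h
  obtain ⟨h1, h⟩ := ZFSet.pair_injective h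
  obtain ⟨h2, h3⟩ := ZFSet.pair_injective h
  exact ⟨h1, h2, h3⟩

theorem tC_ne_tD {i n ε i' n' ε' : V} : tC i n ε ≠ tD i' n' ε' := fun h =>
  nn01 (ZFSet.pair_injective h).1

theorem tC_ne_tR {i n ε i' n' ε' : V} : tC i n ε ≠ tR i' n' ε' := fun h =>
  nn02 (ZFSet.pair_injective h).1

theorem tD_ne_tR {i n ε i' n' ε' : V} : tD i n ε ≠ tR i' n' ε' := fun h =>
  nn12 (ZFSet.pair_injective h).1

/-- The index of the token `t` is `i`. -/
def At (t i : V) : Prop :=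
  (∃ n ε, t = tC i n ε) ∨ (∃ s ε, t = tD i s ε) ∨ ∃ x m, t = tR i x m

theorem at_iff {t i : V} : At t i ↔ ∃ k ∈ nn 3, ∃ y z, t = ZFSet.pair k (ZFSet.pair i (ZFSet.pair y z)) := by
  have h3 : ∀ k : V, k ∈ nn 3 ↔ k = nn 0 ∨ k = nn 1 ∨ k = nn 2 := by
    intro k
    show k ∈ (insert (nn 2) (insert (nn 1) (insert (nn 0) (nn 0))) : V) ↔ _
    simp only [ZFSet.mem_insert_iff]
    show k = nn 2 ∨ k = nn 1 ∨ k = nn 0 ∨ k ∈ (∅ : V) ↔ _
    simp only [ZFSet.notMem_empty, or_false]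
    tauto
  constructor
  · rintro (⟨n, ε, rfl⟩ | ⟨n, ε, rfl⟩ | ⟨n, ε, rfl⟩)
    · exact ⟨nn 0, (h3 _).2 (Or.inl rfl), n, ε, rfl⟩
    · exact ⟨nn 1, (h3 _).2 (Or.inr (Or.inl rfl)), n, ε, rfl⟩
    · exact ⟨nn 2, (h3 _).2 (Or.inr (Or.inr rfl)), n, ε, rfl⟩
  · rintro ⟨k, hk, y, z, rfl⟩
    rcases (h3 k).1 hk with rfl | rfl | rfl
    · exact Or.inl ⟨y, z, rfl⟩
    · exact Or.inr (Or.inl ⟨y, z, rfl⟩)
    · exact Or.inr (Or.inr ⟨y, z, rfl⟩)

theorem At.C {i n ε : V} : At (tC i n ε) i := Or.inl ⟨n, ε, rfl⟩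
theorem At.D {i n ε : V} : At (tD i n ε) i := Or.inr (Or.inl ⟨n, ε, rfl⟩)
theorem At.R {i n ε : V} : At (tR i n ε) i := Or.inr (Or.inr ⟨n, ε, rfl⟩)

theorem At.eq {t i j : V} (h : At t i) (h' : At t j) : i = j := by
  obtain ⟨k, _, y, z, rfl⟩ := at_iff.1 h
  obtain ⟨k', _, y', z', e⟩ := at_iff.1 h'
  exact (ZFSet.pair_injective (ZFSet.pair_injective e).2).1

/-! ### Decided values -/

variable {I e : V} {Kap : V → V → Prop} {p q r : V}

theorem tr_mono {i l u : V} (h : Tr p i l u) (hpq : p ⊆ q) : Tr q i l u :=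
  ⟨h.1, fun n hn => ⟨fun hu => hpq ((h.2 n hn).1 hu), fun hu => hpq ((h.2 n hn).2 hu)⟩⟩

/-- The decided value is unique if the C tokens are functional. -/
theorem tr_unique {i l u u' : V} (hf : ∀ i n, ¬ (tC i n (nn 0) ∈ p ∧ tC i n (nn 1) ∈ p))
    (h : Tr p i l u) (h' : Tr p i l u') : u = u' := by
  ext n
  constructor
  · intro hn
    by_contra hn'
    exact hf i n ⟨(h'.2 n (h.1 hn)).2 hn', (h.2 n (h.1 hn)).1 hn⟩
  · intro hn
    by_contra hn'
    exact hf i n ⟨(h.2 n (h'.1 hn)).2 hn', (h'.2 n (h'.1 hn)).1 hn⟩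

/-! ### The compatibility lemma -/

/-- `H` bounds the lengths of all segments in the D tokens of `r`, and all the numbers in the
promises of `r`. -/
def Bd (r H : V) : Prop :=
  (∀ i m u ε, tD i (ZFSet.pair m u) ε ∈ r → m ⊆ H) ∧ ∀ i x m, tR i x m ∈ r → m ⊆ H

theorem cond_promise (h : Cond I e Kap p) {i x m : V} (hx : tR i x m ∈ p) :
    i ∈ I ∧ m ∈ ZFSet.omega ∧ ∃ l ∈ ZFSet.omega, ∃ U, Kap x (kv l U (lab e i)) := by
  rcases h.tok _ hx with ⟨_, _, _, _, _, _, h1⟩ | ⟨_, _, _, _, _, _, _, _, h1⟩ |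
    ⟨i', hi', x', m', hm', h2, h1⟩
  · exact absurd h1.symm tC_ne_tR
  · exact absurd h1.symm tD_ne_tR
  · obtain ⟨rfl, rfl, rfl⟩ := tR_inj h1
    exact ⟨hi', hm', h2⟩

theorem kv_inj {l U l' U' a a' : V} (h : kv l U a = kv l' U' a') : l = l' ∧ U = U' ∧ a = a' := by
  obtain ⟨h1, h2⟩ := ZFSet.pair_injective h
  obtain ⟨h3, h4⟩ := ZFSet.pair_injective h1
  exact ⟨h3, h4, h2⟩

theorem mem_omega' {x : V} : x ∈ (ZFSet.omega : V) ↔ ∃ n : ℕ, x = nn n := by
  have mk_ofNat : ∀ n : ℕ, ZFSet.mk (PSet.ofNat n) = nn n := by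
    intro n
    induction n with
    | zero => rfl
    | succ n ih =>
      show ZFSet.mk (PSet.insert (PSet.ofNat n) (PSet.ofNat n)) = insert (nn n) (nn n)
      rw [← ih]
      rfl
  induction x using Quotient.inductionOn with
  | h x =>
    constructor
    · rintro ⟨⟨n⟩, hn⟩
      exact ⟨n, by rw [← mk_ofNat]; exact Quotient.sound hn⟩
    · rintro ⟨n, hn⟩
      rw [← mk_ofNat] at hn
      exact ⟨⟨n⟩, Quotient.exact hn⟩

theorem nn_sub {m n : ℕ} (h : m ≤ n) : nn m ⊆ nn n := by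
  induction h with
  | refl => exact fun x hx => hx
  | step _ ih => exact fun x hx => ZFSet.mem_insert_of_mem _ (ih hx)

/-- A finite set of natural numbers is bounded. -/
theorem bd_fin {s : Set V} (h : s.Finite) : ∃ N : ℕ, ∀ m ∈ s, m ∈ (ZFSet.omega : V) → m ⊆ nn N := by
  induction s, h using Set.Finite.induction_on with
  | empty => exact ⟨0, fun m hm => absurd hm (Set.notMem_empty m)⟩
  | insert _ _ ih =>
    rename_i a s _ _
    obtain ⟨N, hN⟩ := ih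
    by_cases ha : a ∈ (ZFSet.omega : V)
    · obtain ⟨k, rfl⟩ := mem_omega'.1 ha
      refine ⟨max N k, fun m hm hm' => ?_⟩
      rcases hm with rfl | hm
      · exact nn_sub (le_max_right _ _)
      · exact fun x hx => nn_sub (le_max_left _ _) (hN m hm hm' hx)
    · refine ⟨N, fun m hm hm' => ?_⟩
      rcases hm with rfl | hm
      · exact absurd hm' ha
      · exact hN m hm hm'

/-- Conditions have bounds. -/
theorem exists_bd (h : Cond I e Kap r) : ∃ N : ℕ, Bd r (nn N) := by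
  classical
  -- the numbers that occur in a token
  let g : V → Set V := fun t => {m | ∃ i x u ε, (t = tD i (ZFSet.pair m u) ε ∨ t = tR i x m)}
  have hg : ∀ t, (g t).Finite := by
    intro t
    have : (g t) ⊆ {m | ∃ i u ε, t = tD i (ZFSet.pair m u) ε} ∪ {m | ∃ i x, t = tR i x m} := by
      rintro m ⟨i, x, u, ε, h | h⟩
      · exact Or.inl ⟨i, u, ε, h⟩
      · exact Or.inr ⟨i, x, h⟩
    refine Set.Finite.subset (Set.Finite.union ?_ ?_) this
    · refine Set.Subsingleton.finite ?_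
      rintro m ⟨i, u, ε, h⟩ m' ⟨i', u', ε', h'⟩
      obtain ⟨_, h1, _⟩ := tD_inj (h.symm.trans h')
      exact (ZFSet.pair_injective h1).1
    · refine Set.Subsingleton.finite ?_
      rintro m ⟨i, x, h⟩ m' ⟨i', x', h'⟩
      exact (tR_inj (h.symm.trans h')).2.2
  obtain ⟨N, hN⟩ := bd_fin (h.fin.biUnion fun t _ => hg t)
  refine ⟨N, fun i m u ε ht => ?_, fun i x m ht => ?_⟩
  · refine hN m (Set.mem_biUnion (by exact ht) ⟨i, ∅, u, ε, Or.inl rfl⟩) ?_
    rcases h.tok _ ht with ⟨_, _, _, _, _, _, h1⟩ | ⟨i', hi', m', hm', u', hu', ε', hε', h1⟩ |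
      ⟨_, _, _, _, _, _, h1⟩
    · exact absurd h1.symm tC_ne_tD
    · obtain ⟨_, h2, _⟩ := tD_inj h1
      rw [(ZFSet.pair_injective h2).1]
      exact hm'
    · exact absurd h1 tD_ne_tR
  · refine hN m (Set.mem_biUnion (by exact ht) ⟨i, x, ∅, ∅, Or.inr rfl⟩) ?_
    exact (cond_promise h ht).2.1

theorem inter_eq_of {x x' m H : V} (h : x ∩ H = x' ∩ H) (hm : m ⊆ H) : x ∩ m = x' ∩ m := by
  ext z
  have := congrArg (fun s : V => z ∈ s) h
  simp only [ZFSet.mem_inter, eq_iff_iff] at this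
  rw [ZFSet.mem_inter, ZFSet.mem_inter]
  constructor
  · rintro ⟨h1, h2⟩
    exact ⟨(this.1 ⟨h1, hm h2⟩).1, h2⟩
  · rintro ⟨h1, h2⟩
    exact ⟨(this.2 ⟨h1, hm h2⟩).1, h2⟩

/-- **Compatibility lemma.** -/
theorem compat (hr : Cond I e Kap r) (hq : Cond I e Kap q) {n : ℕ} {z z' : Fin n → V}
    {T : V → Fin n → V → Prop} {ρ H : V}
    (ha : ∀ i t t', t ∈ q → t' ∈ r → At t i → At t' i → i ∈ ρ)
    (hb : ∀ t ∈ q, ∀ i ∈ ρ, At t i → t ∈ r ∨ ∃ j m, T i j m ∧ t = tR i (z j) m)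
    (hc : ∀ i j m, T i j m → tR i (z' j) m ∈ r ∧ ∀ l U u l' U' u',
      Kap (z j) (kv l U (lab e i)) → Kap (z' j) (kv l' U' (lab e i)) →
      Tr q i l u → Tr r i l' u' → (u ∈ U ↔ u' ∈ U'))
    (hB : Bd r H) (hz : ∀ j, z j ∩ H = z' j ∩ H) : Cond I e Kap (r ∪ q) := by
  -- the tokens of `q` at indices that occur in `r`
  have hb' : ∀ t ∈ q, ∀ i t', t' ∈ r → At t i → At t' i →
      t ∈ r ∨ ∃ j m, T i j m ∧ t = tR i (z j) m := fun t ht i t' ht' h1 h2 =>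
    hb t ht i (ha i t t' ht ht' h1 h2) h1
  have hC : ∀ i m ε, tC i m ε ∈ q → ∀ t' ∈ r, At t' i → tC i m ε ∈ r := by
    intro i m ε h t' ht' h'
    rcases hb' _ h i t' ht' At.C h' with h1 | ⟨j, m', _, h1⟩
    · exact h1
    · exact absurd h1 tC_ne_tR
  have hD : ∀ i m ε, tD i m ε ∈ q → ∀ t' ∈ r, At t' i → tD i m ε ∈ r := by
    intro i m ε h t' ht' h'
    rcases hb' _ h i t' ht' At.D h' with h1 | ⟨j, m', _, h1⟩
    · exact h1
    · exact absurd h1 tD_ne_tR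
  have funC : ∀ i n, ¬ (tC i n (nn 0) ∈ r ∪ q ∧ tC i n (nn 1) ∈ r ∪ q) := by
    rintro i m ⟨h0, h1⟩
    rw [ZFSet.mem_union] at h0 h1
    rcases h0 with h0 | h0 <;> rcases h1 with h1 | h1
    · exact hr.funC i m ⟨h0, h1⟩
    · exact hr.funC i m ⟨h0, hC _ _ _ h1 _ h0 At.C⟩
    · exact hr.funC i m ⟨hC _ _ _ h0 _ h1 At.C, h1⟩
    · exact hq.funC i m ⟨h0, h1⟩
  have subr : r ⊆ r ∪ q := fun x hx => ZFSet.mem_union.2 (Or.inl hx)
  have subq : q ⊆ r ∪ q := fun x hx => ZFSet.mem_union.2 (Or.inr hx)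
  -- values decided in the union are decided in the parts
  have trr : ∀ {i x m l U u}, tR i x m ∈ r → Kap x (kv l U (lab e i)) → Tr (r ∪ q) i l u →
      Tr r i l u := by
    intro i x m l U u h hk ht
    obtain ⟨u', hu'⟩ := hr.dec i x m l U h hk
    rwa [tr_unique funC ht (tr_mono hu' subr)]
  have trq : ∀ {i x m l U u}, tR i x m ∈ q → Kap x (kv l U (lab e i)) → Tr (r ∪ q) i l u →
      Tr q i l u := by
    intro i x m l U u h hk ht
    obtain ⟨u', hu'⟩ := hq.dec i x m l U h hk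
    rwa [tr_unique funC ht (tr_mono hu' subq)]
  -- a promise of `q` at an index of `r`: it has a twin in `r`
  have twin : ∀ {i x m l U u t'}, tR i x m ∈ q → Kap x (kv l U (lab e i)) → Tr (r ∪ q) i l u →
      t' ∈ r → At t' i → ∃ x' l' U' u', tR i x' m ∈ r ∧ Kap x' (kv l' U' (lab e i)) ∧
        Tr r i l' u' ∧ (u ∈ U ↔ u' ∈ U') ∧ x ∩ H = x' ∩ H := by
    intro i x m l U u t' h hk ht ht' hat
    rcases hb' _ h i t' ht' At.R hat with h1 | ⟨j, m', hT, h1⟩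
    · exact ⟨x, l, U, u, h1, hk, trr h1 hk ht, Iff.rfl, rfl⟩
    · obtain ⟨_, rfl, rfl⟩ := tR_inj h1
      obtain ⟨h2, h3⟩ := hc i j m hT
      obtain ⟨_, _, l', _, U', hk'⟩ := cond_promise hr h2
      obtain ⟨u', hu'⟩ := hr.dec _ _ _ _ _ h2 hk'
      exact ⟨z' j, l', U', u', h2, hk', hu', h3 _ _ _ _ _ _ hk hk' (trq h hk ht) hu', hz j⟩
  constructor
  · intro t ht
    rw [ZFSet.mem_union] at ht
    rcases ht with ht | ht
    · exact hr.tok t ht
    · exact hq.tok t ht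
  · refine (hr.fin.union hq.fin).subset ?_
    intro t ht
    rw [Set.mem_ofPred_eq, ZFSet.mem_union] at ht
    exact ht
  · exact funC
  · rintro i m ⟨h0, h1⟩
    rw [ZFSet.mem_union] at h0 h1
    rcases h0 with h0 | h0 <;> rcases h1 with h1 | h1
    · exact hr.funD i m ⟨h0, h1⟩
    · exact hr.funD i m ⟨h0, hD _ _ _ h1 _ h0 At.D⟩
    · exact hr.funD i m ⟨hD _ _ _ h0 _ h1 At.D, h1⟩
    · exact hq.funD i m ⟨h0, h1⟩
  · intro i x m l U h hk
    rw [ZFSet.mem_union] at h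
    rcases h with h | h
    · obtain ⟨u, hu⟩ := hr.dec i x m l U h hk
      exact ⟨u, tr_mono hu subr⟩
    · obtain ⟨u, hu⟩ := hq.dec i x m l U h hk
      exact ⟨u, tr_mono hu subq⟩
  · intro i x m l U u m' ε h hk ht hm h'
    rw [ZFSet.mem_union] at h h'
    rcases h with h | h
    · have h'' : tD i (seg x m') ε ∈ r := by
        rcases h' with h' | h'
        · exact h'
        · exact hD _ _ _ h' _ h At.R
      exact hr.obey i x m l U u m' ε h hk (trr h hk ht) hm h''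
    · rcases h' with h' | h'
      · obtain ⟨x', l', U', u', h1, h2, h3, h4, h5⟩ := twin h hk ht h' At.D
        have h6 : m' ⊆ H := hB.1 _ _ _ _ h'
        have h7 : seg x m' = seg x' m' := by
          unfold seg
          rw [inter_eq_of h5 h6]
        rw [h7] at h'
        rw [hr.obey i x' m l' U' u' m' ε h1 h2 h3 hm h', h4]
      · exact hq.obey i x m l U u m' ε h hk (trq h hk ht) hm h'
  · intro i x m l U u x' m' l' U' u' h h' hk hk' ht ht' hne
    rw [ZFSet.mem_union] at h h'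
    have hun : ∀ {m m' : V}, m ⊆ H → m' ⊆ H → m ∪ m' ⊆ H := by
      intro m m' h1 h2 y hy
      rw [ZFSet.mem_union] at hy
      rcases hy with hy | hy
      · exact h1 hy
      · exact h2 hy
    rcases h with h | h <;> rcases h' with h' | h'
    · exact hr.sep i x m l U u x' m' l' U' u' h h' hk hk' (trr h hk ht) (trr h' hk' ht') hne
    · obtain ⟨y, l₁, U₁, u₁, h1, h2, h3, h4, h5⟩ := twin h' hk' ht' h At.R
      rw [h4] at hne
      have := hr.sep i x m l U u y m' l₁ U₁ u₁ h h1 hk h2 (trr h hk ht) h3 hne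
      rwa [inter_eq_of h5 (hun (hB.2 _ _ _ h) (hB.2 _ _ _ h1))]
    · obtain ⟨y, l₁, U₁, u₁, h1, h2, h3, h4, h5⟩ := twin h hk ht h' At.R
      rw [h4] at hne
      have := hr.sep i y m l₁ U₁ u₁ x' m' l' U' u' h1 h' h2 hk' h3 (trr h' hk' ht') hne
      rwa [inter_eq_of h5 (hun (hB.2 _ _ _ h1) (hB.2 _ _ _ h'))]
    · exact hq.sep i x m l U u x' m' l' U' u' h h' hk hk' (trq h hk ht) (trq h' hk' ht') hne

end Cmp

end Pool.Agent.CTM
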