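import Pool.Agent.CTM.StmtsF

/-!
Preparations for the covering lemma (MP_ea2134_lc): natural numbers, graphs of definable functions,
choice functions, sets that are countable in `M`, greedy antichains.

Formalisation: helper16.
-/

set_option autoImplicit false

namespace Pool.Agent.CTM

namespace Cov

/-! ### Natural numbers -/

theorem mk_ofNat (n : ℕ) : ZFSet.mk (PSet.ofNat n) = nn n := by
  induction n with
  | zero => rfl
  | succ n ih =>
    show insert (ZFSet.mk (PSet.ofNat n)) (ZFSet.mk (PSet.ofNat n)) = _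
    rw [ih]
    rfl

theorem mem_omega {x : V} : x ∈ (ZFSet.omega : V) ↔ ∃ n : ℕ, x = nn n := by
  induction x using Quotient.inductionOn with
  | _ x =>
    constructor
    · rintro ⟨⟨n⟩, h⟩
      exact ⟨n, by rw [← mk_ofNat]; exact ZFSet.sound h⟩
    · rintro ⟨n, h⟩
      rw [← mk_ofNat] at h
      exact ⟨⟨n⟩, ZFSet.exact h⟩

theorem nn_mem (n : ℕ) : nn n ∈ (ZFSet.omega : V) := mem_omega.2 ⟨n, rfl⟩

theorem sUnion_nn (n : ℕ) : (ZFSet.sUnion (nn n) : V) ⊆ nn n := by
  induction n with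
  | zero =>
    intro x hx
    rw [ZFSet.mem_sUnion] at hx
    obtain ⟨y, hy, _⟩ := hx
    exact (ZFSet.notMem_empty y hy).elim
  | succ n ih =>
    intro x hx
    rw [ZFSet.mem_sUnion] at hx
    obtain ⟨y, hy, hx⟩ := hx
    have hy : y ∈ (insert (nn n) (nn n) : V) := hy
    show x ∈ (insert (nn n) (nn n) : V)
    rw [ZFSet.mem_insert_iff] at hy ⊢
    rcases hy with rfl | hy
    · exact Or.inr hx
    · exact Or.inr (ih (ZFSet.mem_sUnion.2 ⟨y, hy, hx⟩))

theorem sUnion_succ (n : ℕ) : (ZFSet.sUnion (nn (n + 1)) : V) = nn n := by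
  ext x
  rw [ZFSet.mem_sUnion]
  constructor
  · rintro ⟨y, hy, hx⟩
    have hy : y ∈ (insert (nn n) (nn n) : V) := hy
    rw [ZFSet.mem_insert_iff] at hy
    rcases hy with rfl | hy
    · exact hx
    · exact sUnion_nn n (ZFSet.mem_sUnion.2 ⟨y, hy, hx⟩)
  · intro hx
    exact ⟨nn n, ZFSet.mem_insert _ _, hx⟩

theorem nn_mem_succ (n : ℕ) : nn n ∈ nn (n + 1) := ZFSet.mem_insert _ _

theorem nn_succ_ne (n : ℕ) : nn (n + 1) ≠ ∅ := by
  intro h
  have := nn_mem_succ n
  rw [h] at this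
  exact ZFSet.notMem_empty _ this

/-! ### Graphs -/

section

variable {Γ : Type 1} [Ctx Γ] {A M : Set V}

theorem isFn_gr (F : V → V) (a : V) : IsFn (gr F a) := by
  constructor
  · intro p hp
    obtain ⟨x, _, rfl⟩ := mem_gr.1 hp
    exact ⟨x, F x, rfl⟩
  · intro x y z h h'
    obtain ⟨x', _, e⟩ := mem_gr.1 h
    obtain ⟨x'', _, e'⟩ := mem_gr.1 h'
    obtain ⟨rfl, rfl⟩ := ZFSet.pair_injective e
    obtain ⟨rfl, rfl⟩ := ZFSet.pair_injective e'
    rfl

theorem dom_gr (F : V → V) (a : V) : dom (gr F a) = a := by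
  ext x
  rw [mem_dom]
  constructor
  · rintro ⟨y, h⟩
    obtain ⟨x', hx, e⟩ := mem_gr.1 h
    obtain ⟨rfl, rfl⟩ := ZFSet.pair_injective e
    exact hx
  · intro hx
    exact ⟨F x, mem_gr.2 ⟨x, hx, rfl⟩⟩

theorem app_gr (F : V → V) {a x : V} (hx : x ∈ a) : app (gr F a) x = F x :=
  (isFn_gr F a).app_eq (mem_gr.2 ⟨x, hx, rfl⟩)

theorem mem_ran_gr {F : V → V} {a y : V} : y ∈ ran (gr F a) ↔ ∃ x ∈ a, F x = y := by
  rw [mem_ran]
  constructor
  · rintro ⟨x, h⟩
    obtain ⟨x', hx, e⟩ := mem_gr.1 h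
    obtain ⟨rfl, rfl⟩ := ZFSet.pair_injective e
    exact ⟨x', hx, rfl⟩
  · rintro ⟨x, hx, rfl⟩
    exact ⟨x, mem_gr.2 ⟨x, hx, rfl⟩⟩

theorem gr_congr {F F' : V → V} {a : V} (h : ∀ x ∈ a, F x = F' x) : gr F a = gr F' a := by
  ext p
  rw [mem_gr, mem_gr]
  constructor
  · rintro ⟨x, hx, rfl⟩
    exact ⟨x, hx, by rw [h x hx]⟩
  · rintro ⟨x, hx, rfl⟩
    exact ⟨x, hx, by rw [h x hx]⟩

theorem dmap_gr [ZFm M] {a : Γ → V} {F : Γ → V → V} (ha : DMap A M a)
    (h : DMap A M (fun p : Γ × V => F p.1 p.2)) : DMap A M (fun γ => gr (F γ) (a γ)) := by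
  unfold gr
  exact DMap.rep ha (DMap.pair (DMap.snd DMap.id) h)

theorem gr_mem [ZFm M] {F : V → V} (h : DMap A M F) {a : V} (ha : a ∈ M) : gr F a ∈ M := by
  unfold gr
  exact ZFm.rep_mem (DMap.pair DMap.id h) ha

/-- Existence of functions defined by recursion. -/
theorem exists_rec (D : V → V) (H : V → V → V) (R : V → V → Prop) (wf : WellFounded R)
    (hR : ∀ x, ∀ y ∈ D x, R y x) : ∃ F : V → V, ∀ x, F x = H x (gr F (D x)) := by
  classical
  refine ⟨wf.fix (fun x rec => H x (gr (fun y => if h : R y x then rec y h else ∅) (D x))),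
    fun x => ?_⟩
  rw [wf.fix_eq]
  congr 1
  refine gr_congr fun y hy => ?_
  rw [dif_pos (hR x y hy)]

theorem dmap_ite [ZFm M] {P : Γ → Prop} [∀ γ, Decidable (P γ)] {f g : Γ → V} (hP : Dfn A M P)
    (hf : DMap A M f) (hg : DMap A M g) : DMap A M (fun γ => if P γ then f γ else g γ) := by
  have h1 : DMap A M (fun γ => (ZFSet.sep (fun _ => P γ) (f γ) : V) ∪
      ZFSet.sep (fun _ => ¬ P γ) (g γ)) := by
    refine DMap.union (DMap.sep (P := fun γ _ => P γ) hf ?_)
      (DMap.sep (P := fun γ _ => ¬ P γ) hg ?_)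
    · exact hP.comp (DMap.fst DMap.id)
    · exact (hP.comp (DMap.fst DMap.id)).not
  refine h1.congr fun γ _ => ?_
  ext z
  by_cases h : P γ
  · simp [h]
  · simp [h]

/-! ### Choice -/

/-- Definable choice from a set in `M`. -/
theorem choose_from [ZFCm M] {Q : Γ → V → Prop} (hQ : Dfn M M (fun p : Γ × V => Q p.1 p.2))
    {b : V} (hb : b ∈ M) : ∃ E : Γ → V, DMap M M E ∧
      ∀ γ, InM M γ → (∃ y ∈ b, Q γ y) → E γ ∈ b ∧ Q γ (E γ) := by
  obtain ⟨w, hw, hw1, hw2, hw3, hw4⟩ := ZFCm.choice hb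
  refine ⟨fun γ => ZFSet.sUnion (ZFSet.sep (fun y => Q γ y ∧
    ∀ y' ∈ b, Q γ y' → app w y' ∉ app w y) b), ?_, ?_⟩
  · have hQ' : ∀ {Δ : Type 1} [Ctx Δ] {c : Δ → Γ} {f : Δ → V}, DMap M M c → DMap M M f →
      Dfn M M (fun γ => Q (c γ) (f γ)) := fun hc h => hQ.comp (hc.prodMk h)
    apply_rules (transparency := .reducible) (maxDepth := 999) only
        [DMap.const hb hb, DMap.const hw hw, hQ'] using is_poly
  · intro γ _ hγ
    obtain ⟨y, hy, hmin⟩ := (InvImage.wf (fun y => app w y) ZFSet.mem_wf).has_min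
      {y | y ∈ b ∧ Q γ y} hγ
    have e : (ZFSet.sep (fun y => Q γ y ∧ ∀ y' ∈ b, Q γ y' → app w y' ∉ app w y) b : V) = {y} := by
      ext z
      rw [ZFSet.mem_sep, ZFSet.mem_singleton]
      constructor
      · rintro ⟨hz, hz1, hz2⟩
        have h1 : app w y ∉ app w z := hz2 y hy.1 hy.2
        have h2 : app w z ∉ app w y := hmin z ⟨hz, hz1⟩
        have h3 : app w z = app w y := by
          rcases ZFSet.IsOrdinal.mem_trichotomous (hw4 z hz) (hw4 y hy.1) with h | h | h
          · exact (h2 h).elim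
          · exact h
          · exact (h1 h).elim
        exact hw3 z (hw2 ▸ hz) y (hw2 ▸ hy.1) h3
      · rintro rfl
        exact ⟨hy.1, hy.2, fun y' hy' hq => hmin y' ⟨hy', hq⟩⟩
    show ZFSet.sUnion (ZFSet.sep (fun y => Q γ y ∧ ∀ y' ∈ b, Q γ y' → app w y' ∉ app w y) b) ∈ b ∧
      Q γ (ZFSet.sUnion (ZFSet.sep (fun y => Q γ y ∧ ∀ y' ∈ b, Q γ y' → app w y' ∉ app w y) b))
    rw [e, ZFSet.sUnion_singleton]
    exact hy

/-- Definable choice. -/
theorem choose_fn [ZFCm M] {Q : V → V → Prop} (hQ : Dfn M M (fun p : V × V => Q p.1 p.2))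
    {a : V} (ha : a ∈ M) (h : ∀ x ∈ a, ∃ y ∈ M, Q x y) :
    ∃ E : V → V, DMap M M E ∧ ∀ x ∈ a, E x ∈ M ∧ Q x (E x) := by
  obtain ⟨b, hb, hb1⟩ := ZFm.coll hQ ha h
  obtain ⟨E, hE, hE1⟩ := choose_from hQ hb
  refine ⟨E, hE, fun x hx => ?_⟩
  obtain ⟨h1, h2⟩ := hE1 x (inM_V.2 (TrC.trans ha hx)) (hb1 x hx)
  exact ⟨TrC.trans hb h1, h2⟩

/-! ### Countable sets -/

theorem cbl_mono {x y : V} (h : x ⊆ y) (hy : Cbl M y) : Cbl M x := by
  obtain ⟨f, hf, h1, h2, h3⟩ := hy
  exact ⟨f, hf, h1, h2, fun z hz => h3 (h hz)⟩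

theorem cbl_image [ZFm M] {a y : V} (ha : Cbl M a) {H : V → V} (hH : DMap A M H)
    (hy : y ⊆ rep a H) : Cbl M y := by
  obtain ⟨f, hf, h1, h2, h3⟩ := ha
  have hH' : DMap (A ∪ M) M H := hH.mono Set.subset_union_left
  have hd : DMap (A ∪ M) M (fun n : V => H (app f n)) :=
    hH'.comp (DMap.app (DMap.const (Or.inr hf) hf) DMap.id)
  refine ⟨gr (fun n => H (app f n)) ZFSet.omega, gr_mem hd ZFm.omega_mem, isFn_gr _ _,
    dom_gr _ _, fun z hz => ?_⟩
  obtain ⟨x, hx, rfl⟩ := mem_rep.1 (hy hz)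
  obtain ⟨n, hn⟩ := mem_ran.1 (h3 hx)
  refine mem_ran_gr.2 ⟨n, ?_, ?_⟩
  · rw [← h2]
    exact mem_dom.2 ⟨_, hn⟩
  · rw [h1.app_eq hn]

theorem cbl_empty [ZFm M] : Cbl M ∅ :=
  ⟨gr (fun _ => ∅) ZFSet.omega, gr_mem (A := M) DMap.empty ZFm.omega_mem, isFn_gr _ _, dom_gr _ _,
    fun z hz => (ZFSet.notMem_empty z hz).elim⟩

/-! ### Pairs of natural numbers -/

/-- first component of a pair -/
noncomputable def fs (p : V) : V :=
  ZFSet.sUnion (ZFSet.sep (fun a => ∃ b ∈ (ZFSet.sUnion p : V), p = ZFSet.pair a b)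
    (ZFSet.sUnion p))

/-- second component of a pair -/
noncomputable def sn (p : V) : V :=
  ZFSet.sUnion (ZFSet.sep (fun b => ∃ a ∈ (ZFSet.sUnion p : V), p = ZFSet.pair a b)
    (ZFSet.sUnion p))

theorem mem_U_pair (a b : V) : a ∈ (ZFSet.sUnion (ZFSet.pair a b) : V) ∧
    b ∈ (ZFSet.sUnion (ZFSet.pair a b) : V) := by
  rw [ZFSet.mem_sUnion, ZFSet.mem_sUnion]
  exact ⟨⟨{a}, by simp [ZFSet.pair], by simp⟩, ⟨{a, b}, by simp [ZFSet.pair], by simp⟩⟩

theorem fs_pair (a b : V) : fs (ZFSet.pair a b) = a := by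
  unfold fs
  have : (ZFSet.sep (fun a' => ∃ b' ∈ (ZFSet.sUnion (ZFSet.pair a b) : V),
      ZFSet.pair a b = ZFSet.pair a' b') (ZFSet.sUnion (ZFSet.pair a b)) : V) = {a} := by
    ext z
    rw [ZFSet.mem_sep, ZFSet.mem_singleton]
    constructor
    · rintro ⟨_, b', _, e⟩
      exact (ZFSet.pair_injective e).1.symm
    · rintro rfl
      exact ⟨(mem_U_pair _ _).1, b, (mem_U_pair _ _).2, rfl⟩
  rw [this, ZFSet.sUnion_singleton]

theorem sn_pair (a b : V) : sn (ZFSet.pair a b) = b := by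
  unfold sn
  have : (ZFSet.sep (fun b' => ∃ a' ∈ (ZFSet.sUnion (ZFSet.pair a b) : V),
      ZFSet.pair a b = ZFSet.pair a' b') (ZFSet.sUnion (ZFSet.pair a b)) : V) = {b} := by
    ext z
    rw [ZFSet.mem_sep, ZFSet.mem_singleton]
    constructor
    · rintro ⟨_, b', _, e⟩
      exact (ZFSet.pair_injective e).2.symm
    · rintro rfl
      exact ⟨(mem_U_pair _ _).2, a, (mem_U_pair _ _).1, rfl⟩
  rw [this, ZFSet.sUnion_singleton]

theorem dmap_fs [ZFm M] {f : Γ → V} (hf : DMap A M f) : DMap A M (fun γ => fs (f γ)) := by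
  have h : DMap A M (fun p : V => fs p) := by
    unfold fs
    apply_rules (transparency := .reducible) (maxDepth := 999) only using is_poly
  exact h.comp hf

theorem dmap_sn [ZFm M] {f : Γ → V} (hf : DMap A M f) : DMap A M (fun γ => sn (f γ)) := by
  have h : DMap A M (fun p : V => sn p) := by
    unfold sn
    apply_rules (transparency := .reducible) (maxDepth := 999) only using is_poly
  exact h.comp hf

open Classical in
/-- the next pair -/
noncomputable def nx (p : V) : V :=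
  ZFSet.pair (if fs p = ∅ then insert (sn p) (sn p) else ZFSet.sUnion (fs p))
    (if fs p = ∅ then ∅ else insert (sn p) (sn p))

/-- the next pair of natural numbers -/
def nx' (p : ℕ × ℕ) : ℕ × ℕ := if p.1 = 0 then (p.2 + 1, 0) else (p.1 - 1, p.2 + 1)

theorem nx_eq (p : ℕ × ℕ) : nx (ZFSet.pair (nn p.1) (nn p.2)) =
    ZFSet.pair (nn (nx' p).1) (nn (nx' p).2) := by
  obtain ⟨a, b⟩ := p
  unfold nx nx'
  rw [fs_pair, sn_pair]
  cases a with
  | zero =>
    have h : nn 0 = ∅ := rfl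
    simp only [h, if_true]
    rfl
  | succ a =>
    rw [if_neg (nn_succ_ne a), if_neg (nn_succ_ne a), if_neg (Nat.succ_ne_zero a), sUnion_succ]
    rfl

theorem dmap_nx [ZFm M] : DMap A M nx := by
  classical
  unfold nx
  refine DMap.pair (dmap_ite ?_ ?_ ?_) (dmap_ite ?_ ?_ ?_)
  · apply_rules (transparency := .reducible) (maxDepth := 999) only [dmap_fs] using is_poly
  · apply_rules (transparency := .reducible) (maxDepth := 999) only [dmap_sn] using is_poly
  · apply_rules (transparency := .reducible) (maxDepth := 999) only [dmap_fs] using is_poly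
  · apply_rules (transparency := .reducible) (maxDepth := 999) only [dmap_fs] using is_poly
  · apply_rules (transparency := .reducible) (maxDepth := 999) only using is_poly
  · apply_rules (transparency := .reducible) (maxDepth := 999) only [dmap_sn] using is_poly

theorem reach (a b : ℕ) : ∃ k, nx'^[k] (0, 0) = (a, b) := by
  have h1 : ∀ j, ∀ a b, nx'^[j] (a + j, b) = (a, b + j) := by
    intro j
    induction j with
    | zero => intro a b; rfl
    | succ j ih =>
      intro a b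
      rw [Function.iterate_succ_apply]
      have : nx' (a + (j + 1), b) = (a + j, b + 1) := by
        unfold nx'
        rw [if_neg (by simp)]
        rfl
      rw [this, ih]
      congr 1
      omega
  have h2 : ∀ s, ∃ k, nx'^[k] (0, 0) = (s, 0) := by
    intro s
    induction s with
    | zero => exact ⟨0, rfl⟩
    | succ s ih =>
      obtain ⟨k, hk⟩ := ih
      refine ⟨(s + 1) + k, ?_⟩
      rw [Function.iterate_add_apply, hk, Function.iterate_succ_apply']
      have := h1 s 0 0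
      rw [zero_add] at this
      rw [this]
      simp [nx']
  obtain ⟨k, hk⟩ := h2 (a + b)
  refine ⟨b + k, ?_⟩
  rw [Function.iterate_add_apply, hk, h1 b, zero_add]

/-- The set of pairs of natural numbers is countable in `M`. -/
theorem cbl_prod [ZFm M] : Cbl M (ZFSet.prod ZFSet.omega ZFSet.omega) := by
  classical
  set H : V → V → V := fun x g => if x = ∅ then ZFSet.pair ∅ ∅ else nx (app g (ZFSet.sUnion x))
    with hH
  obtain ⟨F, hF⟩ := exists_rec (fun x => x) H (· ∈ ·) ZFSet.mem_wf (fun _ _ h => h)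
  have hHd : DMap M M (fun p : V × V => H p.1 p.2) := by
    refine dmap_ite ?_ ?_ ?_
    · apply_rules (transparency := .reducible) (maxDepth := 999) only using is_poly
    · apply_rules (transparency := .reducible) (maxDepth := 999) only using is_poly
    · have hn : ∀ {Δ : Type 1} [Ctx Δ] {f : Δ → V}, DMap M M f →
        DMap M M (fun γ => nx (f γ)) := fun h => dmap_nx.comp h
      apply_rules (transparency := .reducible) (maxDepth := 999) only [hn] using is_poly
  have hFd : DMap M M F := DMap.recMem hHd (fun x _ => hF x)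
  have key : ∀ k : ℕ, F (nn k) = ZFSet.pair (nn (nx'^[k] (0, 0)).1) (nn (nx'^[k] (0, 0)).2) := by
    intro k
    induction k with
    | zero =>
      rw [hF, hH]
      have h : nn 0 = ∅ := rfl
      simp only [h, if_true]
      rfl
    | succ k ih =>
      rw [hF, hH]
      simp only [if_neg (nn_succ_ne k)]
      rw [sUnion_succ, app_gr _ (nn_mem_succ k), ih, nx_eq, Function.iterate_succ_apply']
  refine ⟨gr F ZFSet.omega, gr_mem hFd ZFm.omega_mem, isFn_gr _ _, dom_gr _ _, fun z hz => ?_⟩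
  obtain ⟨a, ha, b, hb, rfl⟩ := ZFSet.mem_prod.1 hz
  obtain ⟨m, rfl⟩ := mem_omega.1 ha
  obtain ⟨n, rfl⟩ := mem_omega.1 hb
  obtain ⟨k, hk⟩ := reach m n
  refine mem_ran_gr.2 ⟨nn k, nn_mem k, ?_⟩
  rw [key, hk]

/-- Countable unions of countable sets. -/
theorem cbl_iUnion [ZFCm M] {B : V → V} (hB : DMap M M B)
    (h : ∀ n ∈ (ZFSet.omega : V), Cbl M (B n)) : Cbl M (ZFSet.sUnion (rep ZFSet.omega B)) := by
  have hB' : ∀ {Δ : Type 1} [Ctx Δ] {f : Δ → V}, DMap M M f →
      DMap M M (fun γ => B (f γ)) := fun h => hB.comp h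
  have hFn : ∀ {Δ : Type 1} [Ctx Δ] {f : Δ → V}, DMap M M f → Dfn M M (fun γ => IsFn (f γ)) := by
    intro Δ _ f hf
    have h1 : Dfn M M (fun f : V => IsFn f) := by
      refine Dfn.congr' (P := fun f : V => (∀ p ∈ f, ∃ x ∈ M, ∃ y ∈ M, p = ZFSet.pair x y) ∧
        ∀ x ∈ M, ∀ y ∈ M, ∀ z ∈ M, ZFSet.pair x y ∈ f → ZFSet.pair x z ∈ f → y = z)
        (fun f hf => ?_) (by
              apply_rules (transparency := .reducible) (maxDepth := 999) only using is_poly)
      have hf := inM_V.1 hf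
      unfold IsFn
      refine and_congr (forall₂_congr fun p hp => ?_) ?_
      · constructor
        · rintro ⟨x, y, rfl⟩
          obtain ⟨h1, h2⟩ := pair_mem_iff.1 (TrC.trans hf hp)
          exact ⟨x, h1, y, h2, rfl⟩
        · rintro ⟨x, _, y, _, rfl⟩
          exact ⟨x, y, rfl⟩
      · constructor
        · intro h x _ y _ z _
          exact h x y z
        · intro h x y z hxy hxz
          have h1 := pair_mem_iff.1 (TrC.trans hf hxy)
          have h2 := pair_mem_iff.1 (TrC.trans hf hxz)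
          exact h x h1.1 y h1.2 z h2.2 hxy hxz
    exact h1.comp hf
  obtain ⟨E, hE, hE1⟩ := choose_fn (M := M)
    (Q := fun n f => IsFn f ∧ dom f = ZFSet.omega ∧ B n ⊆ ran f)
    (by
          apply_rules (transparency := .reducible) (maxDepth := 999) only
              [DMap.const ZFm.omega_mem ZFm.omega_mem, hB',
              hFn] using is_poly) (a := ZFSet.omega) ZFm.omega_mem
    (fun n hn => by
      obtain ⟨f, hf, h1⟩ := h n hn
      exact ⟨f, hf, h1⟩)
  have hE' : ∀ {Δ : Type 1} [Ctx Δ] {f : Δ → V}, DMap M M f →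
      DMap M M (fun γ => E (f γ)) := fun h => hE.comp h
  refine cbl_image (A := M) (H := fun p => app (E (fs p)) (sn p)) cbl_prod (by
    apply_rules (transparency := .reducible) (maxDepth := 999) only
        [hE', dmap_fs, dmap_sn] using is_poly) fun z hz => ?_
  obtain ⟨y, hy, hz⟩ := ZFSet.mem_sUnion.1 hz
  obtain ⟨n, hn, rfl⟩ := mem_rep.1 hy
  obtain ⟨_, h1, h2, h3⟩ := hE1 n hn
  obtain ⟨m, hm⟩ := mem_ran.1 (h3 hz)
  refine mem_rep.2 ⟨ZFSet.pair n m, ZFSet.pair_mem_prod.2 ⟨hn, ?_⟩, ?_⟩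
  · rw [← h2]
    exact mem_dom.2 ⟨_, hm⟩
  · rw [fs_pair, sn_pair]
    exact h1.app_eq hm

/-! ### Greedy antichains -/

/-- `p` and `q` are compatible in `P`. -/
def Comp (P p q : V) : Prop := ∃ r ∈ P, p ⊆ r ∧ q ⊆ r

theorem Comp.symm {P p q : V} (h : Comp P p q) : Comp P q p := by
  obtain ⟨r, hr, h1, h2⟩ := h
  exact ⟨r, hr, h2, h1⟩

/-- Every subset of `P` in `M` contains a maximal antichain, which is a definable function of the
subset. -/
theorem greedy [ZFCm M] {P : V} (hP : P ∈ M) : ∃ N : V → V, DMap M M N ∧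
    ∀ W ∈ M, W ⊆ P → N W ⊆ W ∧ (∀ p ∈ N W, ∀ q ∈ N W, p ≠ q → ¬ Comp P p q) ∧
      ∀ p ∈ W, ∃ q ∈ N W, Comp P p q := by
  classical
  obtain ⟨w, hw, hw1, hw2, hw3, hw4⟩ := ZFCm.choice hP
  set D : V → V := fun x => ZFSet.sep (fun q => app w q ∈ app w x) P with hD
  set H : V → V → V → V := fun W x g => if x ∈ W ∧ ∀ q ∈ D x, app g q = {∅} → ¬ Comp P q x
    then {∅} else ∅ with hH
  have wf := InvImage.wf (fun y => app w y) ZFSet.mem_wf
  have hRD : ∀ x, ∀ y ∈ D x, app w y ∈ app w x := fun x y hy => (ZFSet.mem_sep.1 hy).2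
  choose F hF using fun W => exists_rec D (H W) _ wf hRD
  have hDd : ∀ {Δ : Type 1} [Ctx Δ] {f : Δ → V}, DMap M M f → DMap M M (fun γ => D (f γ)) := by
    intro Δ _ f hf
    have h : DMap M M (fun x : V => D x) := by
      rw [hD]
      apply_rules (transparency := .reducible) (maxDepth := 999) only
          [DMap.const hP hP, DMap.const hw hw] using is_poly
    exact h.comp hf
  have hC : ∀ {Δ : Type 1} [Ctx Δ] {f g : Δ → V}, DMap M M f → DMap M M g →
      Dfn M M (fun γ => Comp P (f γ) (g γ)) := by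
    intro Δ _ f g hf hg
    have h : Dfn M M (fun p : V × V => Comp P p.1 p.2) := by
      unfold Comp
      apply_rules (transparency := .reducible) (maxDepth := 999) only
          [DMap.const hP hP] using is_poly
    exact h.comp (hf.prodMk hg)
  have hHd : DMap M M (fun p : (V × V) × V => H p.1.1 p.1.2 p.2) := by
    show DMap M M (fun p : (V × V) × V => if p.1.2 ∈ p.1.1 ∧ ∀ q ∈ D p.1.2, app p.2 q = {∅} →
      ¬ Comp P q p.1.2 then {∅} else ∅)
    refine dmap_ite ?_ ?_ ?_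
    · apply_rules (transparency := .reducible) (maxDepth := 999) only
        [DMap.const hP hP, DMap.const hw hw, hDd, hC] using is_poly
    · apply_rules (transparency := .reducible) (maxDepth := 999) only using is_poly
    · apply_rules (transparency := .reducible) (maxDepth := 999) only using is_poly
  have hFd : DMap M M (fun p : V × V => F p.1 p.2) :=
    DMap.recΓ (Γ := V) (D := fun _ => D) (H := H) (hDd (DMap.snd DMap.id)) hHd
      (fun W _ x _ => hF W x) _ wf (fun _ _ x _ => hRD x)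
  have hF' : ∀ {Δ : Type 1} [Ctx Δ] {f g : Δ → V}, DMap M M f → DMap M M g →
      DMap M M (fun γ => F (f γ) (g γ)) := fun hf hg => hFd.comp (hf.prodMk hg)
  have hne : ({∅} : V) ≠ ∅ := by
    intro h
    have h1 : (∅ : V) ∈ ({∅} : V) := by simp
    rw [h] at h1
    exact ZFSet.notMem_empty _ h1
  have key : ∀ W x, F W x = {∅} ↔ x ∈ W ∧ ∀ q ∈ D x, F W q = {∅} → ¬ Comp P q x := by
    intro W x
    have h1 : (∀ q ∈ D x, app (gr (F W) (D x)) q = {∅} → ¬ Comp P q x) ↔
        ∀ q ∈ D x, F W q = {∅} → ¬ Comp P q x := by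
      refine forall₂_congr fun q hq => ?_
      rw [app_gr _ hq]
    rw [hF W x, hH]
    simp only [h1]
    constructor
    · intro h
      by_contra h2
      rw [if_neg h2] at h
      exact hne h.symm
    · intro h
      rw [if_pos h]
  refine ⟨fun W => ZFSet.sep (fun x => F W x = {∅}) P, ?_, fun W hW hWP => ⟨?_, ?_, ?_⟩⟩
  · apply_rules (transparency := .reducible) (maxDepth := 999) only
      [DMap.const hP hP, hF'] using is_poly
  · intro x hx
    exact ((key W x).1 (ZFSet.mem_sep.1 hx).2).1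
  · intro p hp q hq hpq hc
    rw [ZFSet.mem_sep] at hp hq
    rcases ZFSet.IsOrdinal.mem_trichotomous (hw4 p hp.1) (hw4 q hq.1) with h | h | h
    · exact ((key W q).1 hq.2).2 p (ZFSet.mem_sep.2 ⟨hp.1, h⟩) hp.2 hc
    · exact hpq (hw3 p (hw2 ▸ hp.1) q (hw2 ▸ hq.1) h)
    · exact ((key W p).1 hp.2).2 q (ZFSet.mem_sep.2 ⟨hq.1, h⟩) hq.2 hc.symm
  · intro p hp
    by_cases h : F W p = {∅}
    · exact ⟨p, ZFSet.mem_sep.2 ⟨hWP hp, h⟩, p, hWP hp, fun _ h => h, fun _ h => h⟩
    · have h1 : ¬ ∀ q ∈ D p, F W q = {∅} → ¬ Comp P q p := fun h1 => h ((key W p).2 ⟨hp, h1⟩)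
      push Not at h1
      obtain ⟨q, hq, h2, h3⟩ := h1
      exact ⟨q, ZFSet.mem_sep.2 ⟨(ZFSet.mem_sep.1 hq).1, h2⟩, h3.symm⟩

end

end Cov

end Pool.Agent.CTM
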