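import Pool.Agent.CTM.CovA

/-!
Covering lemma for ccc forcing, preservation of uncountability of ordinals, nice names for reals
(MP_ea2134_lc).

Formalisation: helper16.
-/

set_option autoImplicit false

namespace Pool.Agent.CTM

namespace Cov

section

variable {Γ : Type 1} [Ctx Γ]

theorem valΓ_V (G x : V) : valΓ G x = val G x := rfl

theorem valΓ_prod (G : V) (γ : Γ) (x : V) :
    valΓ G ((γ, x) : Γ × V) = (valΓ G γ, val G x) := by
  unfold valΓ
  show (Ctx.of (Fin.init (fun i => val G ((Fin.snoc (Ctx.get γ) x : Fin (Ctx.n Γ + 1) → V) i))),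
    val G ((Fin.snoc (Ctx.get γ) x : Fin (Ctx.n Γ + 1) → V) (Fin.last _))) = _
  rw [Fin.snoc_last]
  congr 2
  funext i
  simp [Fin.init]

/-- `w` is a functional relation -/
def Fnl (w : V) : Prop := ∀ a ∈ w, ∀ b ∈ w, ∀ a₁ ∈ a, ∀ x ∈ a₁, ∀ y ∈ a₁, ∀ b₁ ∈ b, ∀ z ∈ b₁,
  a = ZFSet.pair x y → b = ZFSet.pair x z → y = z

theorem fnl_d0 : D0 (fun w : V => Fnl w) := by
  unfold Fnl
  apply_rules (transparency := .reducible) (maxDepth := 999) only using is_poly

theorem fnl_eq {w x y z : V} (h : Fnl w) (h1 : ZFSet.pair x y ∈ w) (h2 : ZFSet.pair x z ∈ w) :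
    y = z :=
  h _ h1 _ h2 {x, y} (by simp [ZFSet.pair]) x (by simp) y (by simp) {x, z}
    (by simp [ZFSet.pair]) z (by simp) rfl rfl

theorem IsFn.fnl {w : V} (h : IsFn w) : Fnl w := by
  intro a ha b hb a₁ _ x _ y _ b₁ _ z _ e e'
  subst e e'
  exact h.2 x y z ha hb

theorem gen_mem {M : Set V} {P G p q : V} (hG : Generic M P G) (hq : q ∈ G) (hp : p ∈ P)
    (h : p ⊆ q) : p ∈ G := hG.down q hq p hp h

/-- the forcing relation for `n ∈ ρ` -/
def Fr1 (M : Set V) (P ρ n p : V) : Prop := p ∈ P ∧ ∀ G, Generic M P G → p ∈ G → n ∈ val G ρ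

/-- the forcing relation for `(z, z') ∈ τ` -/
def Fr2 (M : Set V) (P τ z z' p : V) : Prop :=
  p ∈ P ∧ ∀ G, Generic M P G → p ∈ G → ZFSet.pair z z' ∈ val G τ

theorem fr1_dfn (hF : Stmt_forceD0) (hC : Stmt_chk) {M : Set V} [ZFCm M] (hM : M.Countable)
    {P : V} (hP : P ∈ M) (h0 : ∅ ∈ P) {ρ : V} (hρ : ρ ∈ M) :
    (∀ {Δ : Type 1} [Ctx Δ] {f g : Δ → V}, DMap M M f → DMap M M g →
      Dfn M M (fun γ => Fr1 M P ρ (f γ) (g γ))) ∧
    ∀ G, Generic M P G → ∀ n ∈ M, n ∈ val G ρ → ∃ p ∈ G, Fr1 M P ρ n p := by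
  have hd0 : D0 (fun γ : V × V => γ.1 ∈ γ.2) := by
    apply_rules (transparency := .reducible) (maxDepth := 999) only using is_poly
  obtain ⟨h1, h2⟩ := hF M hM P hP h0 (V × V) _ hd0
  have hchk : ∀ {Δ : Type 1} [Ctx Δ] {f : Δ → V}, DMap M M f →
      DMap M M (fun γ => chk (f γ)) := fun h => (hC.2 M M).comp h
  constructor
  · intro Δ _ f g hf hg
    have h3 : Dfn M M (fun p : V × V => Fr1 M P ρ p.1 p.2) := by
      have h4 := h1.comp (g := fun p : V × V => ((chk p.1, ρ), p.2)) (by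
        apply_rules (transparency := .reducible) (maxDepth := 999) only
            [DMap.const hρ hρ, hchk] using is_poly)
      refine h4.congr fun q _ => ?_
      unfold Fr1
      refine and_congr Iff.rfl (forall₃_congr fun G hG _ => ?_)
      rw [valΓ_prod, valΓ_V]
      show val G (chk q.1) ∈ val G ρ ↔ _
      rw [hC.1 G q.1 hG.empty_mem]
    exact h3.comp (hf.prodMk hg)
  · intro G hG n hn h
    obtain ⟨p, hp, h3⟩ := h2 G hG (chk n, ρ)
      (inM_prod.2 ⟨inM_V.2 ((hC.2 M M).mem (inM_V.2 hn)), hρ⟩) (by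
        rw [valΓ_prod, valΓ_V]
        show val G (chk n) ∈ val G ρ
        rw [hC.1 G n hG.empty_mem]
        exact h)
    refine ⟨p, hp, hG.sub hp, fun G' hG' hp' => ?_⟩
    have h4 := h3 G' hG' hp'
    rw [valΓ_prod, valΓ_V] at h4
    have h5 : val G' (chk n) ∈ val G' ρ := h4
    rwa [hC.1 G' n hG'.empty_mem] at h5

theorem fr2_dfn (hF : Stmt_forceD0) (hC : Stmt_chk) {M : Set V} [ZFCm M] (hM : M.Countable)
    {P : V} (hP : P ∈ M) (h0 : ∅ ∈ P) {τ : V} (hτ : τ ∈ M) :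
    (∀ {Δ : Type 1} [Ctx Δ] {f g h : Δ → V}, DMap M M f → DMap M M g → DMap M M h →
      Dfn M M (fun γ => Fr2 M P τ (f γ) (g γ) (h γ))) ∧
    ∀ G, Generic M P G → ∀ z ∈ M, ∀ z' ∈ M, ZFSet.pair z z' ∈ val G τ →
      ∃ p ∈ G, Fr2 M P τ z z' p := by
  have hd0 : D0 (fun γ : (V × V) × V => ZFSet.pair γ.1.1 γ.1.2 ∈ γ.2) := by
    refine D0.congr' (P := fun γ : (V × V) × V => ∃ a ∈ γ.2, a = ZFSet.pair γ.1.1 γ.1.2)
      (fun γ => ?_) (by
        apply_rules (transparency := .reducible) (maxDepth := 999) only using is_poly)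
    constructor
    · intro h
      exact ⟨_, h, rfl⟩
    · rintro ⟨a, h, rfl⟩
      exact h
  obtain ⟨h1, h2⟩ := hF M hM P hP h0 ((V × V) × V) _ hd0
  have hchk : ∀ {Δ : Type 1} [Ctx Δ] {f : Δ → V}, DMap M M f →
      DMap M M (fun γ => chk (f γ)) := fun h => (hC.2 M M).comp h
  constructor
  · intro Δ _ f g h hf hg hh
    have h3 : Dfn M M (fun p : (V × V) × V => Fr2 M P τ p.1.1 p.1.2 p.2) := by
      have h4 := h1.comp (g := fun p : (V × V) × V => (((chk p.1.1, chk p.1.2), τ), p.2)) (by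
        apply_rules (transparency := .reducible) (maxDepth := 999) only
            [DMap.const hτ hτ, hchk] using is_poly)
      refine h4.congr fun q _ => ?_
      unfold Fr2
      refine and_congr Iff.rfl (forall₃_congr fun G hG _ => ?_)
      rw [valΓ_prod, valΓ_prod, valΓ_V]
      show ZFSet.pair (val G (chk q.1.1)) (val G (chk q.1.2)) ∈ val G τ ↔ _
      rw [hC.1 G q.1.1 hG.empty_mem, hC.1 G q.1.2 hG.empty_mem]
    exact h3.comp ((hf.prodMk hg).prodMk hh)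
  · intro G hG z hz z' hz' h
    obtain ⟨p, hp, h3⟩ := h2 G hG ((chk z, chk z'), τ)
      (inM_prod.2 ⟨inM_prod.2 ⟨inM_V.2 ((hC.2 M M).mem (inM_V.2 hz)),
        (hC.2 M M).mem (inM_V.2 hz')⟩, hτ⟩) (by
        rw [valΓ_prod, valΓ_prod, valΓ_V]
        show ZFSet.pair (val G (chk z)) (val G (chk z')) ∈ val G τ
        rw [hC.1 G z hG.empty_mem, hC.1 G z' hG.empty_mem]
        exact h)
    refine ⟨p, hp, hG.sub hp, fun G' hG' hp' => ?_⟩
    have h4 := h3 G' hG' hp'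
    rw [valΓ_prod, valΓ_prod, valΓ_V] at h4
    have h5 : ZFSet.pair (val G' (chk z)) (val G' (chk z')) ∈ val G' τ := h4
    rwa [hC.1 G' z hG'.empty_mem, hC.1 G' z' hG'.empty_mem] at h5

end

end Cov

open Cov

/-- **Module COV.** Covering lemma for ccc forcing. -/
theorem stmt_cover (hF : Stmt_forceD0) (hE : Stmt_generic) (hC : Stmt_chk) : Stmt_cover := by
  intro M _ hM P hP h0 hccc G hG f hf Z hZ Z' hZ' hmap
  obtain ⟨τ, hτ, rfl⟩ := hf
  obtain ⟨hfn, hdom, hval⟩ := hmap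
  obtain ⟨hd, ht⟩ := fr2_dfn hF hC hM hP h0 hτ
  -- a condition that forces `τ` to be functional
  obtain ⟨p0, hp0, hp0'⟩ := (hF M hM P hP h0 V _ fnl_d0).2 G hG τ (inM_V.2 hτ) (IsFn.fnl hfn)
  have hp0P : p0 ∈ P := hG.sub hp0
  have hp0M : p0 ∈ M := TrC.trans hP hp0P
  have mono : ∀ {z z' p q : V}, Fr2 M P τ z z' p → p ⊆ q → q ∈ P → Fr2 M P τ z z' q :=
    fun h hpq hq => ⟨hq, fun G' hG' hq' => h.2 G' hG' (gen_mem hG' hq' h.1 hpq)⟩
  have uniq : ∀ {z z1 z2 p : V}, p0 ⊆ p → Fr2 M P τ z z1 p → Fr2 M P τ z z2 p → z1 = z2 := by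
    intro z z1 z2 p hpp h1 h2
    obtain ⟨G', hG', hp'⟩ := hE M hM P hP p h1.1 h0
    have h3 : Fnl (val G' τ) := hp0' G' hG' (gen_mem hG' hp' hp0P hpp)
    exact fnl_eq h3 (h1.2 G' hG' hp') (h2.2 G' hG' hp')
  set W : V → V := fun z => ZFSet.sep (fun p => p0 ⊆ p ∧ ∃ z' ∈ Z', Fr2 M P τ z z' p) P with hW
  set Fz : V → V := fun z => ZFSet.sep (fun z' => ∃ p ∈ P, p0 ⊆ p ∧ Fr2 M P τ z z' p) Z' with hFz
  have hWd : DMap M M W := by
    rw [hW]
    apply_rules (transparency := .reducible) (maxDepth := 999) only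
        [DMap.const hP hP, DMap.const hZ' hZ', DMap.const hp0M hp0M, hd] using is_poly
  have hFd : DMap M M Fz := by
    rw [hFz]
    apply_rules (transparency := .reducible) (maxDepth := 999) only
        [DMap.const hP hP, DMap.const hZ' hZ', DMap.const hp0M hp0M, hd] using is_poly
  obtain ⟨N, hN, hN1⟩ := greedy hP
  refine ⟨gr Fz Z, gr_mem hFd hZ, isFn_gr _ _, dom_gr _ _, fun z hz => ?_⟩
  have hzM : z ∈ M := TrC.trans hZ hz
  rw [app_gr _ hz]
  refine ⟨fun z' hz' => (ZFSet.mem_sep.1 hz').1, ?_, ?_⟩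
  · have hWM : W z ∈ M := hWd.mem (inM_V.2 hzM)
    have hNM : N (W z) ∈ M := hN.mem (inM_V.2 hWM)
    have hWP : W z ⊆ P := fun p hp => (ZFSet.mem_sep.1 hp).1
    obtain ⟨h1, h2, h3⟩ := hN1 (W z) hWM hWP
    have hc : Cbl M (N (W z)) := hccc _ hNM (fun p hp => hWP (h1 hp)) h2
    refine cbl_image (A := M) (H := fun p => ZFSet.sUnion (ZFSet.sep (fun z' =>
      Fr2 M P τ z z' p) Z')) hc (by
            apply_rules (transparency := .reducible) (maxDepth := 999) only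
                [DMap.const hZ' hZ', DMap.const hzM hzM, hd] using is_poly)
      fun z' hz' => ?_
    obtain ⟨hz'1, p, hp, hpp, hf1⟩ := ZFSet.mem_sep.1 hz'
    obtain ⟨q, hq, r, hr, hpr, hqr⟩ := h3 p (ZFSet.mem_sep.2 ⟨hp, hpp, z', hz'1, hf1⟩)
    obtain ⟨hqP, hpq, z'', hz''1, hf2⟩ := ZFSet.mem_sep.1 (h1 hq)
    have e : z' = z'' := uniq (fun x hx => hpr (hpp hx)) (mono hf1 hpr hr) (mono hf2 hqr hr)
    subst e
    refine mem_rep.2 ⟨q, hq, ?_⟩
    have e2 : (ZFSet.sep (fun z' => Fr2 M P τ z z' q) Z' : V) = {z'} := by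
      ext y
      rw [ZFSet.mem_sep, ZFSet.mem_singleton]
      constructor
      · rintro ⟨_, hy⟩
        exact uniq hpq hy hf2
      · rintro rfl
        exact ⟨hz'1, hf2⟩
    rw [e2, ZFSet.sUnion_singleton]
  · have hzd : z ∈ dom (val G τ) := hdom ▸ hz
    have h1 := hfn.pair_app hzd
    have h2 := hval z hz
    obtain ⟨p, hp, hf1⟩ := ht G hG z hzM _ (TrC.trans hZ' h2) h1
    obtain ⟨r, hr, hpr, hr0⟩ := hG.dir p hp p0 hp0
    exact ZFSet.mem_sep.2 ⟨h2, r, hG.sub hr, hr0, mono hf1 hpr (hG.sub hr)⟩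

/-- **Module OM1.** ccc forcing preserves uncountability of ordinals. -/
theorem stmt_omega1 (hX : Stmt_ext) (hcov : Stmt_cover) : Stmt_omega1 := by
  classical
  intro M _ hM P hP h0 hccc G hG a ha _ hca
  obtain ⟨hN, hMN, _, _, _⟩ := hX M hM P hP h0 G hG
  obtain ⟨f, hf, hf1, hf2, hf3⟩ := hca
  by_cases hae : a = ∅
  · rw [hae]
    exact cbl_empty
  obtain ⟨c, hc⟩ : ∃ c, c ∈ a := by
    by_contra h
    push Not at h
    exact hae ((ZFSet.eq_empty a).2 h)
  have hcM : c ∈ M := TrC.trans ha hc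
  have haN : a ∈ Ext M G := hMN ha
  have hcN : c ∈ Ext M G := hMN hcM
  have hfd : DMap (Ext M G) (Ext M G) (fun n : V => if app f n ∈ a then app f n else c) := by
    refine dmap_ite ?_ ?_ ?_
    · apply_rules (transparency := .reducible) (maxDepth := 999) only
        [DMap.const hf hf, DMap.const haN haN] using is_poly
    · apply_rules (transparency := .reducible) (maxDepth := 999) only
        [DMap.const hf hf] using is_poly
    · exact DMap.const hcN hcN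
  set f' : V := gr (fun n : V => if app f n ∈ a then app f n else c) ZFSet.omega with hf'
  have hf'm : f' ∈ Ext M G := gr_mem hfd ZFm.omega_mem
  obtain ⟨F, hFM, hF1, hF2, hF3⟩ := hcov M hM P hP h0 hccc G hG f' hf'm ZFSet.omega ZFm.omega_mem
    a ha ⟨isFn_gr _ _, dom_gr _ _, fun n hn => by
      rw [hf', app_gr _ hn]
      split_ifs with h
      · exact h
      · exact hc⟩
  have hB : DMap M M (fun n : V => app F n) := by
    apply_rules (transparency := .reducible) (maxDepth := 999) only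
        [DMap.const hFM hFM] using is_poly
  refine cbl_mono (fun x hx => ?_) (cbl_iUnion hB fun n hn => (hF3 n hn).2.1)
  obtain ⟨n, hn⟩ := mem_ran.1 (hf3 hx)
  have hnω : n ∈ (ZFSet.omega : V) := by
    rw [← hf2]
    exact mem_dom.2 ⟨_, hn⟩
  refine ZFSet.mem_sUnion.2 ⟨app F n, mem_rep.2 ⟨n, hnω, rfl⟩, ?_⟩
  have h1 := (hF3 n hnω).2.2
  rw [hf', app_gr _ hnω, hf1.app_eq hn, if_pos hx] at h1
  exact h1

/-- **Module NICE.** Nice names for subsets of `ω`. -/
theorem stmt_nice (hF : Stmt_forceD0) (hC : Stmt_chk) : Stmt_nice := by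
  intro M _ hM P hP h0 hccc G hG r hr hrω
  obtain ⟨ρ, hρ, rfl⟩ := hr
  obtain ⟨hd, ht⟩ := fr1_dfn hF hC hM hP h0 hρ
  obtain ⟨N, hN, hN1⟩ := greedy hP
  set W : V → V := fun n => ZFSet.sep (fun p => Fr1 M P ρ n p) P with hW
  have hWd : DMap M M W := by
    rw [hW]
    apply_rules (transparency := .reducible) (maxDepth := 999) only
        [DMap.const hP hP, hd] using is_poly
  have hWP : ∀ n, W n ⊆ P := fun n p hp => (ZFSet.mem_sep.1 hp).1
  have hNd : ∀ {Δ : Type 1} [Ctx Δ] {f : Δ → V}, DMap M M f → DMap M M (fun γ => N (W (f γ))) :=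
    fun h => hN.comp (hWd.comp h)
  set B : V → V := fun n => rep (N (W n)) (fun p => ZFSet.pair n p) with hB
  have hBd : DMap M M B := by
    rw [hB]
    apply_rules (transparency := .reducible) (maxDepth := 999) only [hNd] using is_poly
  have hBc : ∀ n ∈ M, Cbl M (B n) := by
    intro n hn
    have hWM : W n ∈ M := hWd.mem (inM_V.2 hn)
    have hNM : N (W n) ∈ M := hN.mem (inM_V.2 hWM)
    obtain ⟨h1, h2, h3⟩ := hN1 (W n) hWM (hWP n)
    have hc : Cbl M (N (W n)) := hccc _ hNM (fun p hp => hWP n (h1 hp)) h2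
    exact cbl_image (A := M) (H := fun p => ZFSet.pair n p) hc (by
          apply_rules (transparency := .reducible) (maxDepth := 999) only
              [DMap.const hn hn] using is_poly)
      (fun x hx => hx)
  have hω : ∀ n ∈ (ZFSet.omega : V), n ∈ M := fun n hn => TrC.trans ZFm.omega_mem hn
  have hmem : ∀ n p, ZFSet.pair n p ∈ (ZFSet.sUnion (rep ZFSet.omega B) : V) ↔
      n ∈ (ZFSet.omega : V) ∧ p ∈ N (W n) := by
    intro n p
    rw [ZFSet.mem_sUnion]
    constructor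
    · rintro ⟨y, hy, hy2⟩
      obtain ⟨m, hm, rfl⟩ := mem_rep.1 hy
      obtain ⟨q, hq, e⟩ := mem_rep.1 hy2
      obtain ⟨rfl, rfl⟩ := ZFSet.pair_injective e
      exact ⟨hm, hq⟩
    · rintro ⟨hn, hp⟩
      exact ⟨B n, mem_rep.2 ⟨n, hn, rfl⟩, mem_rep.2 ⟨p, hp, rfl⟩⟩
  refine ⟨ZFSet.sUnion (rep ZFSet.omega B), ZFm.sUnion_mem (ZFm.rep_mem hBd ZFm.omega_mem),
    fun x hx => ?_, cbl_iUnion hBd fun n hn => hBc n (hω n hn), fun n hn => ?_⟩
  · obtain ⟨y, hy, hy2⟩ := ZFSet.mem_sUnion.1 hx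
    obtain ⟨n, hn, rfl⟩ := mem_rep.1 hy
    obtain ⟨p, hp, rfl⟩ := mem_rep.1 hy2
    have hWM : W n ∈ M := hWd.mem (inM_V.2 (hω n hn))
    exact ZFSet.pair_mem_prod.2 ⟨hn, hWP n ((hN1 (W n) hWM (hWP n)).1 hp)⟩
  · have hnM := hω n hn
    have hWM : W n ∈ M := hWd.mem (inM_V.2 hnM)
    obtain ⟨h1, h2, h3⟩ := hN1 (W n) hWM (hWP n)
    constructor
    · intro hnr
      obtain ⟨q, hq, hfr⟩ := ht G hG n hnM hnr
      set E : V := ZFSet.sep (fun s => (∃ q ∈ N (W n), q ⊆ s) ∨ ∀ q ∈ N (W n), ¬ Comp P q s) P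
        with hE
      have hNM : N (W n) ∈ M := hN.mem (inM_V.2 hWM)
      have hEM : E ∈ M := by
        refine ZFm.sep_mem ?_ hP
        have hCd : ∀ {Δ : Type 1} [Ctx Δ] {f g : Δ → V}, DMap M M f → DMap M M g →
            Dfn M M (fun γ => Comp P (f γ) (g γ)) := by
          intro Δ _ f g hf hg
          have h : Dfn M M (fun p : V × V => Comp P p.1 p.2) := by
            unfold Comp
            apply_rules (transparency := .reducible) (maxDepth := 999) only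
                [DMap.const hP hP] using is_poly
          exact h.comp (hf.prodMk hg)
        apply_rules (transparency := .reducible) (maxDepth := 999) only
            [DMap.const hNM hNM, hCd] using is_poly
      obtain ⟨s, hsE, hsG⟩ := hG.meets E hEM ⟨fun x hx => (ZFSet.mem_sep.1 hx).1, fun p hp => by
        by_cases hc : ∀ q ∈ N (W n), ¬ Comp P q p
        · exact ⟨p, ZFSet.mem_sep.2 ⟨hp, Or.inr hc⟩, fun _ h => h⟩
        · push Not at hc
          obtain ⟨q, hq, t, htP, hqt, hpt⟩ := hc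
          exact ⟨t, ZFSet.mem_sep.2 ⟨htP, Or.inl ⟨q, hq, hqt⟩⟩, hpt⟩⟩
      obtain ⟨hsP, hs⟩ := ZFSet.mem_sep.1 hsE
      rcases hs with ⟨p, hp, hps⟩ | hs
      · exact ⟨p, hG.down s hsG p (hWP n (h1 hp)) hps, (hmem n p).2 ⟨hn, hp⟩⟩
      · exfalso
        obtain ⟨t, htG, hqt, hst⟩ := hG.dir q hq s hsG
        have htP := hG.sub htG
        have htW : t ∈ W n := ZFSet.mem_sep.2 ⟨htP, htP, fun G' hG' ht' =>
          hfr.2 G' hG' (gen_mem hG' ht' hfr.1 hqt)⟩
        obtain ⟨p, hp, u, hu, htu, hpu⟩ := h3 t htW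
        exact hs p hp ⟨u, hu, hpu, fun x hx => htu (hst hx)⟩
    · rintro ⟨p, hp, hpτ⟩
      have h4 := ((hmem n p).1 hpτ).2
      exact (ZFSet.mem_sep.1 (h1 h4)).2.2 G hG hp

end Pool.Agent.CTM
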