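import Pool.Agent.CTM.Rec

/-!
Common definitions for the construction of a model of ZFC in which (S) fails (MP_ea2134_lc).
-/

set_option autoImplicit false

namespace Pool.Agent.CTM

/-! ### Natural numbers, finite sets, tuples, ranks -/

/-- The von Neumann natural number `n`. -/
noncomputable def nn : ℕ → V
  | 0 => ∅
  | n + 1 => insert (nn n) (nn n)

/-- The set of all finite subsets of `a`. -/
noncomputable def FinP (a : V) : V := ZFSet.sep (fun x => {y | y ∈ x}.Finite) (ZFSet.powerset a)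

/-- The tuple `v` as a set: the function that takes `nn i` to `v i`. -/
noncomputable def tup {n : ℕ} (v : Fin n → V) : V :=
  ZFSet.range (fun i : Fin n => ZFSet.pair (nn i) (v i))

/-- A set of natural numbers, as a subset of `ω`. -/
noncomputable def toZ (x : Set ℕ) : V := ZFSet.sep (fun y => ∃ n ∈ x, y = nn n) ZFSet.omega

/-- The rank of `x`, as an ordinal in the sense of `V`. -/
noncomputable def rk (x : V) : V := (ZFSet.rank x).toZFSet

/-! ### Models of ZFC -/

/-- `f` is a function with domain `a` and all its values in `b`. -/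
def IsMap (f a b : V) : Prop := IsFn f ∧ dom f = a ∧ ∀ x ∈ a, app f x ∈ b

/-- `f` is injective on its domain. -/
def IsInjF (f : V) : Prop := ∀ x ∈ dom f, ∀ y ∈ dom f, app f x = app f y → x = y

/-- Transitive classes that satisfy ZFC. -/
class ZFCm (M : Set V) : Prop extends ZFm M where
  power_mem : ∀ {x : V}, x ∈ M → ZFSet.sep (fun y => y ∈ M) (ZFSet.powerset x) ∈ M
  choice : ∀ {x : V}, x ∈ M → ∃ f ∈ M, IsFn f ∧ dom f = x ∧ IsInjF f ∧
    ∀ y ∈ x, (app f y).IsOrdinal

/-- `x` is countable in `M` (`x` need not be an element of `M`). -/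
def Cbl (M : Set V) (x : V) : Prop :=
  ∃ f ∈ M, IsFn f ∧ dom f = ZFSet.omega ∧ x ⊆ ran f

/-- The sets that are hereditarily countable in `M`. -/
def HC (M : Set V) : Set V := {x | ∃ t ∈ M, t.IsTransitive ∧ x ∈ t ∧ Cbl M t}

/-! ### Forcing

A forcing notion is a set `P` that contains `∅`; `q` is stronger than `p` if `p ⊆ q`. -/

/-- `D` is a dense subset of `P`. -/
def DenseIn (P D : V) : Prop := D ⊆ P ∧ ∀ p ∈ P, ∃ q ∈ D, p ⊆ q

/-- `G` is a filter on `P` that meets all dense sets that belong to `M`. -/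
structure Generic (M : Set V) (P G : V) : Prop where
  sub : G ⊆ P
  empty_mem : ∅ ∈ G
  down : ∀ p ∈ G, ∀ q ∈ P, q ⊆ p → q ∈ G
  dir : ∀ p ∈ G, ∀ q ∈ G, ∃ r ∈ G, p ⊆ r ∧ q ⊆ r
  meets : ∀ D ∈ M, DenseIn P D → ∃ p ∈ D, p ∈ G

theorem dom_wf {σ τ : V} (h : σ ∈ dom τ) : ZFSet.rank σ < ZFSet.rank τ := by
  obtain ⟨p, hp⟩ := mem_dom.1 h
  have h1 : σ ∈ ({σ} : V) := by simp
  have h2 : ({σ} : V) ∈ ZFSet.pair σ p := by simp [ZFSet.pair]
  exact (ZFSet.rank_lt_of_mem h1).trans ((ZFSet.rank_lt_of_mem h2).trans (ZFSet.rank_lt_of_mem hp))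

/-- The value of the name `τ`: the set of the values of all `σ` with `(σ, p) ∈ τ` for some
`p ∈ G`. -/
noncomputable def val (G : V) (τ : V) : V :=
  rep (ZFSet.sep (fun σ => ∃ p ∈ G, ZFSet.pair σ p ∈ τ) (dom τ)) (fun σ =>
    open Classical in if _h : σ ∈ dom τ then val G σ else ∅)
termination_by ZFSet.rank τ
decreasing_by exact dom_wf _h

/-- The generic extension `M[G]`. -/
def Ext (M : Set V) (G : V) : Set V := {x | ∃ τ ∈ M, x = val G τ}

/-- The values of a tuple of names. -/
noncomputable def valΓ {Γ : Type 1} [Ctx Γ] (G : V) (γ : Γ) : Γ :=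
  Ctx.of (fun i => val G (Ctx.get γ i))

/-- `p` forces `Φ` at the names `γ`: `Φ` holds at the values of the names for all generic
filters that contain `p`. -/
def Forces (M : Set V) (P : V) {Γ : Type 1} [Ctx Γ] (p : V) (Φ : V → Γ → Prop) (γ : Γ) : Prop :=
  ∀ G, Generic M P G → p ∈ G → Φ G (valΓ G γ)

end Pool.Agent.CTM
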