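import Pool.Agent.CTM.ExtSC

/-!
The generic extension is a model of ZFC with the same ordinals (MP_ea2134_lc, module EXT).
-/

set_option autoImplicit false

namespace Pool.Agent.CTM

namespace ExtPf

section

variable {M : Set V} {P G : V}

/-- Power sets in the extension. -/
theorem ext_power [ZFCm M] (hM : M.Countable) (hP : P ∈ M) (h0 : ∅ ∈ P) (hG : Generic M P G)
    {a : V} (ha : a ∈ Ext M G) :
    ZFSet.sep (fun y => y ∈ Ext M G) (ZFSet.powerset a) ∈ Ext M G := by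
  have ha' := ha
  obtain ⟨α, hα, rfl⟩ := ha
  have hZ : ZFm (Ext M G) := ext_ZFm hM hP h0 hG
  have hX : pr (dom α) P ∈ M := pr_mem (dom_mem hα) hP
  have hS : ZFSet.sep (fun y => y ∈ M) (ZFSet.powerset (pr (dom α) P)) ∈ M := ZFCm.power_mem hX
  have hc : ∀ {Γ : Type 1} [Ctx Γ], DMap (Ext M G) (Ext M G) (fun _ : Γ => val G α) :=
    DMap.const ha' ha'
  have h1 := ext_sep hM hP h0 hG (Q := fun z => z ⊆ val G α) (by
    apply_rules (transparency := .reducible) (maxDepth := 999) only [hc] using is_poly)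
    (a := val G (nm (ZFSet.sep (fun y => y ∈ M) (ZFSet.powerset (pr (dom α) P)))))
    ⟨_, nm_mem hS, rfl⟩
  have e : ZFSet.sep (fun y => y ∈ Ext M G) (ZFSet.powerset (val G α)) =
      ZFSet.sep (fun z => z ⊆ val G α)
        (val G (nm (ZFSet.sep (fun y => y ∈ M) (ZFSet.powerset (pr (dom α) P))))) := by
    ext y
    rw [ZFSet.mem_sep, ZFSet.mem_sep, ZFSet.mem_powerset, mem_val_nm hG.empty_mem]
    constructor
    · rintro ⟨h2, h3⟩
      refine ⟨?_, h2⟩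
      have hcy : ∀ {Γ : Type 1} [Ctx Γ], DMap (Ext M G) (Ext M G) (fun _ : Γ => y) :=
        DMap.const h3 h3
      obtain ⟨F, hF, hFP, hFm, hFt⟩ := exists_force hM hP h0 hG (Γ := V) (Q := fun x => x ∈ y) (by
        apply_rules (transparency := .reducible) (maxDepth := 999) only [hcy] using is_poly)
      have hF' : ∀ {Γ : Type 1} [Ctx Γ] {f g : Γ → V}, DMap M M f → DMap M M g →
        Dfn M M (fun γ => F (f γ) (g γ)) := fun h h' => hF.comp (h.prodMk h')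
      have hcP : ∀ {Γ : Type 1} [Ctx Γ], DMap M M (fun _ : Γ => P) := DMap.const hP hP
      have hcα : ∀ {Γ : Type 1} [Ctx Γ], DMap M M (fun _ : Γ => α) := DMap.const hα hα
      have hσ : ZFSet.sep (fun z => ∃ π ∈ dom α, ∃ p ∈ P, z = ZFSet.pair π p ∧ F π p)
          (pr (dom α) P) ∈ M := by
        refine ZFm.sep_mem ?_ hX
        apply_rules (transparency := .reducible) (maxDepth := 999) only [hcP, hcα, hF'] using is_poly
      refine ⟨_, ZFSet.mem_sep.2 ⟨ZFSet.mem_powerset.2 fun z hz => (ZFSet.mem_sep.1 hz).1, hσ⟩, ?_⟩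
      ext x
      rw [mem_val]
      constructor
      · intro hx
        obtain ⟨π, s, _, h4, rfl⟩ := mem_val.1 (h2 hx)
        have hπ : π ∈ dom α := mem_dom.2 ⟨s, h4⟩
        obtain ⟨p, hp, h5⟩ := (hFt π (inM_V.2 (mem_of_dom hα hπ))).1 hx
        exact ⟨π, p, hp, ZFSet.mem_sep.2 ⟨pair_mem_pr.2 ⟨hπ, hG.sub hp⟩, π, hπ, p, hG.sub hp, rfl,
          h5⟩, rfl⟩
      · rintro ⟨π, p, hp, h4, rfl⟩
        obtain ⟨_, π', hπ, p', _, e, h5⟩ := ZFSet.mem_sep.1 h4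
        obtain ⟨rfl, rfl⟩ := ZFSet.pair_injective e
        exact (hFt π (inM_V.2 (mem_of_dom hα hπ))).2 ⟨p, hp, h5⟩
    · rintro ⟨⟨ρ, hρ, rfl⟩, h3⟩
      exact ⟨h3, ρ, (ZFSet.mem_sep.1 hρ).2, rfl⟩
  rw [e]
  exact h1

/-- The name for an ordered pair. -/
noncomputable def opn (a b : V) : V := nm {nm {a}, nm {a, b}}

theorem val_nm_pair (hG : ∅ ∈ G) (a b : V) : val G (nm {a, b}) = {val G a, val G b} := by
  ext x
  rw [mem_val_nm hG, ZFSet.mem_pair]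
  constructor
  · rintro ⟨ρ, hρ, rfl⟩
    rcases ZFSet.mem_pair.1 hρ with rfl | rfl
    · exact Or.inl rfl
    · exact Or.inr rfl
  · rintro (rfl | rfl)
    · exact ⟨a, by simp, rfl⟩
    · exact ⟨b, by simp, rfl⟩

theorem val_opn (hG : ∅ ∈ G) (a b : V) : val G (opn a b) = ZFSet.pair (val G a) (val G b) := by
  unfold opn ZFSet.pair
  rw [val_nm_pair hG, val_nm_pair hG, ← ZFSet.pair_eq_singleton a, val_nm_pair hG,
    ZFSet.pair_eq_singleton]

/-- The values of the names in a set form a function in the extension. -/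
theorem ext_valFn [ZFm M] (hG : Generic M P G) {D : V} (hD : D ∈ M) :
    gr (val G) D ∈ Ext M G := by
  have hnm : ∀ {Γ : Type 1} [Ctx Γ] {f : Γ → V}, DMap M M f → DMap M M (fun γ => nm (f γ)) := by
    intro Γ _ f h
    have h1 : DMap M M (fun x : V => nm x) := by
      unfold nm
      apply_rules (transparency := .reducible) (maxDepth := 999) only using is_poly
    exact h1.comp h
  have hc : ∀ {Γ : Type 1} [Ctx Γ] {f : Γ → V}, DMap M M f → DMap M M (fun γ => chk (f γ)) :=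
    fun h => (DMap_chk M M).comp h
  refine ⟨nm (rep D (fun σ => opn (chk σ) σ)), nm_mem (ZFm.rep_mem (A := M) ?_ hD), ?_⟩
  · unfold opn
    apply_rules (transparency := .reducible) (maxDepth := 999) only [hnm, hc] using is_poly
  · ext z
    rw [mem_val_nm hG.empty_mem, mem_gr]
    constructor
    · rintro ⟨σ, hσ, rfl⟩
      exact ⟨_, mem_rep.2 ⟨σ, hσ, rfl⟩, by rw [val_opn hG.empty_mem, val_chk hG.empty_mem]⟩
    · rintro ⟨_, h, rfl⟩
      obtain ⟨σ, hσ, rfl⟩ := mem_rep.1 h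
      exact ⟨σ, hσ, by rw [val_opn hG.empty_mem, val_chk hG.empty_mem]⟩

/-- Choice in the extension. -/
theorem ext_choice [ZFCm M] (hM : M.Countable) (hP : P ∈ M) (h0 : ∅ ∈ P) (hG : Generic M P G)
    {x : V} (hx : x ∈ Ext M G) : ∃ f ∈ Ext M G, IsFn f ∧ dom f = x ∧ IsInjF f ∧
      ∀ y ∈ x, (app f y).IsOrdinal := by
  have hx' := hx
  obtain ⟨α, hα, rfl⟩ := hx
  have hZ : ZFm (Ext M G) := ext_ZFm hM hP h0 hG
  have hDM : dom α ∈ M := dom_mem hα
  obtain ⟨g, hg, h1, h2, h3, h4⟩ := ZFCm.choice (M := M) hDM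
  have hgN : g ∈ Ext M G := sub_ext hG.empty_mem hg
  have hDN : dom α ∈ Ext M G := sub_ext hG.empty_mem hDM
  have hH : gr (val G) (dom α) ∈ Ext M G := ext_valFn hG hDM
  have hcg : ∀ {Γ : Type 1} [Ctx Γ], DMap (Ext M G) (Ext M G) (fun _ : Γ => g) :=
    DMap.const hgN hgN
  have hcD : ∀ {Γ : Type 1} [Ctx Γ], DMap (Ext M G) (Ext M G) (fun _ : Γ => dom α) :=
    DMap.const hDN hDN
  have hcH : ∀ {Γ : Type 1} [Ctx Γ], DMap (Ext M G) (Ext M G)
    (fun _ : Γ => gr (val G) (dom α)) := DMap.const hH hH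
  have hcx : ∀ {Γ : Type 1} [Ctx Γ], DMap (Ext M G) (Ext M G) (fun _ : Γ => val G α) :=
    DMap.const hx' hx'
  -- `K y β`: some name for `y` has the code `β`
  let K : V → V → Prop := fun y β => ∃ σ ∈ dom α, ZFSet.pair σ β ∈ g ∧
    ZFSet.pair σ y ∈ gr (val G) (dom α)
  have hK : ∀ {y β : V}, K y β ↔ ∃ σ ∈ dom α, ZFSet.pair σ β ∈ g ∧ y = val G σ := by
    intro y β
    refine exists_congr fun σ => and_congr_right fun hσ => and_congr_right fun _ => ?_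
    rw [Chk.pair_mem_gr]
    exact ⟨fun h => h.2, fun h => ⟨hσ, h⟩⟩
  have hKo : ∀ {y β : V}, K y β → β.IsOrdinal := by
    intro y β h
    obtain ⟨σ, hσ, h5, _⟩ := hK.1 h
    rw [← h1.app_eq h5]
    exact h4 σ hσ
  have hKi : ∀ {y z β : V}, K y β → K z β → y = z := by
    intro y z β h h'
    obtain ⟨σ, hσ, h5, rfl⟩ := hK.1 h
    obtain ⟨τ, hτ, h6, rfl⟩ := hK.1 h'
    have : σ = τ := h3 σ (h2 ▸ hσ) τ (h2 ▸ hτ) (by rw [h1.app_eq h5, h1.app_eq h6])
    rw [this]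
  have hf : ZFSet.sep (fun z => ∃ y ∈ val G α, ∃ β ∈ ran g, z = ZFSet.pair y β ∧ K y β ∧
      ∀ γ ∈ β, ¬ K y γ) (pr (val G α) (ran g)) ∈ Ext M G := by
    refine ZFm.sep_mem ?_ (pr_mem hx' ?_)
    · show Dfn (Ext M G) (Ext M G) (fun z : V => ∃ y ∈ val G α, ∃ β ∈ ran g, z = ZFSet.pair y β ∧
        (∃ σ ∈ dom α, ZFSet.pair σ β ∈ g ∧ ZFSet.pair σ y ∈ gr (val G) (dom α)) ∧
        ∀ γ ∈ β, ¬ (∃ σ ∈ dom α, ZFSet.pair σ γ ∈ g ∧ ZFSet.pair σ y ∈ gr (val G) (dom α)))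
      apply_rules (transparency := .reducible) (maxDepth := 999) only [hcg, hcD, hcH, hcx] using is_poly
    · exact (DMap.ran (A := Ext M G) (M := Ext M G) (DMap.id (Γ := V))).mem (γ := g)
        (inM_V.2 hgN)
  have hmem : ∀ {y β : V}, ZFSet.pair y β ∈ ZFSet.sep (fun z => ∃ y ∈ val G α, ∃ β ∈ ran g,
      z = ZFSet.pair y β ∧ K y β ∧ ∀ γ ∈ β, ¬ K y γ) (pr (val G α) (ran g)) ↔
      y ∈ val G α ∧ K y β ∧ ∀ γ ∈ β, ¬ K y γ := by
    intro y β
    rw [ZFSet.mem_sep, pair_mem_pr]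
    constructor
    · rintro ⟨_, y', hy, β', _, e, h5⟩
      obtain ⟨rfl, rfl⟩ := ZFSet.pair_injective e
      exact ⟨hy, h5⟩
    · rintro ⟨hy, h5, h6⟩
      obtain ⟨σ, _, h7, _⟩ := hK.1 h5
      have hβ : β ∈ ran g := mem_ran.2 ⟨σ, h7⟩
      exact ⟨⟨hy, hβ⟩, y, hy, β, hβ, rfl, h5, h6⟩
  have hfn : IsFn (ZFSet.sep (fun z => ∃ y ∈ val G α, ∃ β ∈ ran g,
      z = ZFSet.pair y β ∧ K y β ∧ ∀ γ ∈ β, ¬ K y γ) (pr (val G α) (ran g))) := by
    constructor
    · intro p hp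
      obtain ⟨_, y, _, β, _, e, _⟩ := ZFSet.mem_sep.1 hp
      exact ⟨y, β, e⟩
    · intro y β γ h5 h6
      obtain ⟨_, h7, h8⟩ := hmem.1 h5
      obtain ⟨_, h9, h10⟩ := hmem.1 h6
      rcases (hKo h7).mem_trichotomous (hKo h9) with h | h | h
      · exact absurd h7 (h10 β h)
      · exact h
      · exact absurd h9 (h8 γ h)
  have hdom : dom (ZFSet.sep (fun z => ∃ y ∈ val G α, ∃ β ∈ ran g,
      z = ZFSet.pair y β ∧ K y β ∧ ∀ γ ∈ β, ¬ K y γ) (pr (val G α) (ran g))) = val G α := by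
    ext y
    rw [mem_dom]
    constructor
    · rintro ⟨β, h⟩
      exact (hmem.1 h).1
    · intro hy
      obtain ⟨σ, s, _, h5, e⟩ := mem_val.1 hy
      have hσ : σ ∈ dom α := mem_dom.2 ⟨s, h5⟩
      obtain ⟨β, h6⟩ := mem_dom.1 (h2 ▸ hσ : σ ∈ dom g)
      have hne : ∃ β, K y β := ⟨β, hK.2 ⟨σ, hσ, h6, e⟩⟩
      obtain ⟨γ, h7, h8⟩ := ZFSet.mem_wf.has_min {β | K y β} hne
      exact ⟨γ, hmem.2 ⟨hy, h7, fun δ hδ h9 => h8 δ h9 hδ⟩⟩
  refine ⟨_, hf, hfn, hdom, ?_, ?_⟩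
  · intro y hy z hz e
    have h5 := hmem.1 (hfn.pair_app hy)
    have h6 := hmem.1 (hfn.pair_app hz)
    rw [← e] at h6
    exact hKi h5.2.1 h6.2.1
  · intro y hy
    exact hKo (hmem.1 (hfn.pair_app (hdom.symm ▸ hy))).2.1

/-- The extension is a model of ZFC. -/
theorem ext_ZFCm [ZFCm M] (hM : M.Countable) (hP : P ∈ M) (h0 : ∅ ∈ P) (hG : Generic M P G) :
    ZFCm (Ext M G) where
  toZFm := ext_ZFm hM hP h0 hG
  power_mem := ext_power hM hP h0 hG
  choice := ext_choice hM hP h0 hG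

end

end ExtPf

/-- **Module EXT.** The generic extension is a model of ZFC with the same ordinals. -/
theorem stmt_ext : Stmt_ext := fun _ _ hM _ hP h0 _ hG =>
  ⟨ExtPf.ext_ZFCm hM hP h0 hG, ExtPf.sub_ext hG.empty_mem, ExtPf.gen_mem hP hG,
    ExtPf.ext_countable hM, ExtPf.ext_ord⟩

end Pool.Agent.CTM
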