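import Pool.Agent.CTM.StmtsF

/-!
Module FD0 (MP_ea2134_lc): the forcing theorem for absolute predicates in contexts, from the
forcing theorem.
-/

set_option autoImplicit false

namespace Pool.Agent.CTM

namespace FD0

theorem val_mem {G τ x : V} : x ∈ val G τ ↔ ∃ σ, (∃ p ∈ G, ZFSet.pair σ p ∈ τ) ∧ val G σ = x := by
  rw [val, mem_rep]
  constructor
  · rintro ⟨σ, h1, h2⟩
    rw [ZFSet.mem_sep] at h1
    rw [dif_pos h1.1] at h2
    exact ⟨σ, h1.2, h2⟩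
  · rintro ⟨σ, ⟨p, hp, hσ⟩, h2⟩
    have hd : σ ∈ dom τ := mem_dom.2 ⟨p, hσ⟩
    refine ⟨σ, ZFSet.mem_sep.2 ⟨hd, p, hp, hσ⟩, ?_⟩
    rw [dif_pos hd]
    exact h2

theorem trC_ext {M : Set V} [ZFm M] {G : V} : TrC (Ext M G) := by
  constructor
  rintro x y ⟨τ, hτ, rfl⟩ hy
  obtain ⟨σ, ⟨p, _, hσ⟩, rfl⟩ := val_mem.1 hy
  have h1 : ZFSet.pair σ p ∈ M := TrC.trans hτ hσ
  exact ⟨σ, (pair_mem_iff.1 h1).1, rfl⟩

theorem get_valΓ {Γ : Type 1} [Ctx Γ] (G : V) (γ : Γ) :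
    Ctx.get (valΓ G γ) = fun i => val G (Ctx.get γ i) := by
  rw [valΓ, Ctx.get_of]

theorem inM_valΓ {M : Set V} {Γ : Type 1} [Ctx Γ] (G : V) {γ : Γ} (h : InM M γ) :
    InM (Ext M G) (valΓ G γ) := by
  intro i
  rw [get_valΓ]
  exact ⟨_, h i, rfl⟩

end FD0

open FD0 in
theorem stmt_forceD0 (h : Stmt_forcing) : Stmt_forceD0 := by
  intro M _ hc P hP h0 Γ _ Φ hΦ
  obtain ⟨φ, hφ⟩ := hΦ
  obtain ⟨h1, h2⟩ := h M hc P hP h0 (Ctx.n Γ) φ
  have key : ∀ (G : V) (γ : Γ), InM M γ →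
      (φ.Sat (Ext M G) (fun x y => x ∈ y) Empty.elim (fun i => val G (Ctx.get γ i)) ↔
        Φ (valΓ G γ)) := by
    intro G γ hγ
    have : TrC (Ext M G) := trC_ext
    have := hφ (Ext M G) (valΓ G γ) (inM_valΓ G hγ)
    rwa [get_valΓ] at this
  refine ⟨?_, ?_⟩
  · refine h1.congr fun v hv => ?_
    have hγ : InM M (Ctx.of (Fin.init v) : Γ) := inM_of.2 fun i => hv _
    refine and_congr Iff.rfl ?_
    refine forall_congr' fun G => imp_congr Iff.rfl (imp_congr Iff.rfl ?_)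
    have := key G (Ctx.of (Fin.init v) : Γ) hγ
    rw [Ctx.get_of] at this
    exact this
  · intro G hG γ hγ hv
    obtain ⟨p, hp, hf⟩ := h2 G hG (Ctx.get γ) hγ ((key G γ hγ).2 hv)
    exact ⟨p, hp, fun G' hG' hp' => (key G' γ hγ).1 (hf G' hG' hp')⟩

end Pool.Agent.CTM
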