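import Pool.Agent.CTM.Forcing
import Pool.Agent.CTM.FD0

/-!
The generic extension is a model of ZF without power sets with the same ordinals (MP_ea2134_lc,
module EXT, first part): elimination of constants from formulas, the forcing theorem for definable
predicates with parameters, pairing, union, infinity, separation and collection.
-/

set_option autoImplicit false

universe u

namespace Pool.Agent.CTM

namespace ExtPf

/-! ### Elimination of constants -/

theorem append_ren1 {k l n : ℕ} (a : Fin k → V) (b : Fin l → V) (v : Fin n → V) :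
    (Fin.append (Fin.append a b) v) ∘ (Fin.addCases (fun i => Fin.castAdd n (Fin.castAdd l i))
      (fun j => Fin.natAdd (k + l) j) : Fin (k + n) → Fin (k + l + n)) = Fin.append a v := by
  funext i
  refine Fin.addCases (fun i => ?_) (fun j => ?_) i <;> simp

theorem append_ren2 {k l n : ℕ} (a : Fin k → V) (b : Fin l → V) (v : Fin n → V) :
    (Fin.append (Fin.append a b) v) ∘ (Fin.addCases (fun i => Fin.castAdd n (Fin.natAdd k i))
      (fun j => Fin.natAdd (k + l) j) : Fin (l + n) → Fin (k + l + n)) = Fin.append b v := by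
  funext i
  refine Fin.addCases (fun i => ?_) (fun j => ?_) i <;> simp

theorem append_snoc {k n : ℕ} (a : Fin k → V) (v : Fin n → V) (x : V) :
    (Fin.append a (Fin.snoc v x : Fin (n + 1) → V) : Fin (k + (n + 1)) → V) =
      (Fin.snoc (Fin.append a v) x : Fin (k + n + 1) → V) := by
  funext i
  refine Fin.addCases (fun i => ?_) (fun j => ?_) i
  · have e : (Fin.castAdd (n + 1) i : Fin (k + (n + 1))) = (Fin.castAdd n i).castSucc := rfl
    rw [Fin.append_left, e, Fin.snoc_castSucc, Fin.append_left]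
  · rw [Fin.append_right]
    refine Fin.lastCases ?_ (fun j => ?_) j
    · have e : (Fin.natAdd k (Fin.last n) : Fin (k + (n + 1))) = Fin.last (k + n) := rfl
      rw [e, Fin.snoc_last, Fin.snoc_last]
    · have e : (Fin.natAdd k j.castSucc : Fin (k + (n + 1))) = (Fin.natAdd k j).castSucc := rfl
      rw [e, Fin.snoc_castSucc, Fin.snoc_castSucc, Fin.append_right]

theorem append_comp {C : Type u} {k l : ℕ} (c : C → V) (d : Fin k → C) (d' : Fin l → C) :
    c ∘ Fin.append d d' = Fin.append (c ∘ d) (c ∘ d') := by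
  funext i
  refine Fin.addCases (fun i => ?_) (fun j => ?_) i <;> simp

theorem elimT {C : Type u} {n : ℕ} (s : C ⊕ Fin n) : ∃ (k : ℕ) (d : Fin k → C) (i : Fin (k + n)),
    ∀ (c : C → V) (v : Fin n → V), Sum.elim c v s = Fin.append (c ∘ d) v i := by
  rcases s with s | j
  · exact ⟨1, fun _ => s, Fin.castAdd n 0, fun c v => by rw [Fin.append_left]; rfl⟩
  · exact ⟨0, Fin.elim0, Fin.natAdd 0 j, fun c v => by rw [Fin.append_right]; rfl⟩

/-- The constants of a formula can be replaced by variables. -/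
theorem elimC {C : Type u} {n : ℕ} (φ : Fm C n) : ∃ (k : ℕ) (d : Fin k → C)
    (ψ : Fm Empty (k + n)), ∀ (D : Set V) (E : V → V → Prop) (c : C → V) (v : Fin n → V),
      φ.Sat D E c v ↔ ψ.Sat D E Empty.elim (Fin.append (c ∘ d) v) := by
  induction φ with
  | @mem n s t =>
    obtain ⟨k, d, i, h⟩ := elimT s
    obtain ⟨l, d', j, h'⟩ := elimT t
    refine ⟨k + l, Fin.append d d', .mem
      (.inr ((Fin.addCases (fun i => Fin.castAdd n (Fin.castAdd l i))
        (fun j => Fin.natAdd (k + l) j) : Fin (k + n) → Fin (k + l + n)) i))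
      (.inr ((Fin.addCases (fun i => Fin.castAdd n (Fin.natAdd k i))
        (fun j => Fin.natAdd (k + l) j) : Fin (l + n) → Fin (k + l + n)) j)), fun D E c v => ?_⟩
    show E (Sum.elim c v s) (Sum.elim c v t) ↔ E (Fin.append (c ∘ Fin.append d d') v _)
      (Fin.append (c ∘ Fin.append d d') v _)
    rw [append_comp, h, h', ← append_ren1 (c ∘ d) (c ∘ d') v, ← append_ren2 (c ∘ d) (c ∘ d') v]
    rfl
  | @eq n s t =>
    obtain ⟨k, d, i, h⟩ := elimT s
    obtain ⟨l, d', j, h'⟩ := elimT t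
    refine ⟨k + l, Fin.append d d', .eq
      (.inr ((Fin.addCases (fun i => Fin.castAdd n (Fin.castAdd l i))
        (fun j => Fin.natAdd (k + l) j) : Fin (k + n) → Fin (k + l + n)) i))
      (.inr ((Fin.addCases (fun i => Fin.castAdd n (Fin.natAdd k i))
        (fun j => Fin.natAdd (k + l) j) : Fin (l + n) → Fin (k + l + n)) j)), fun D E c v => ?_⟩
    show (Sum.elim c v s) = (Sum.elim c v t) ↔ (Fin.append (c ∘ Fin.append d d') v _) =
      (Fin.append (c ∘ Fin.append d d') v _)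
    rw [append_comp, h, h', ← append_ren1 (c ∘ d) (c ∘ d') v, ← append_ren2 (c ∘ d) (c ∘ d') v]
    rfl
  | neg φ ih =>
    obtain ⟨k, d, ψ, h⟩ := ih
    exact ⟨k, d, ψ.neg, fun D E c v => not_congr (h D E c v)⟩
  | @and n φ φ' ih ih' =>
    obtain ⟨k, d, ψ, h⟩ := ih
    obtain ⟨l, d', ψ', h'⟩ := ih'
    refine ⟨k + l, Fin.append d d', (ψ.ren (Fin.addCases (fun i => Fin.castAdd n (Fin.castAdd l i))
        (fun j => Fin.natAdd (k + l) j) : Fin (k + n) → Fin (k + l + n))).and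
      (ψ'.ren (Fin.addCases (fun i => Fin.castAdd n (Fin.natAdd k i))
        (fun j => Fin.natAdd (k + l) j) : Fin (l + n) → Fin (k + l + n))), fun D E c v => ?_⟩
    refine and_congr ?_ ?_
    · rw [Fm.sat_ren, append_comp, append_ren1]
      exact h D E c v
    · rw [Fm.sat_ren, append_comp, append_ren2]
      exact h' D E c v
  | @all n φ ih =>
    obtain ⟨k, d, ψ, h⟩ := ih
    refine ⟨k, d, Fm.all (n := k + n) ψ, fun D E c v => ?_⟩
    refine forall_congr' fun x => imp_congr Iff.rfl ?_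
    rw [← append_snoc]
    exact h D E c (Fin.snoc v x)

theorem DP_inst {M : Set V} {k n : ℕ} {Q : (Fin (k + n) → V) → Prop} (h : DP M M (k + n) Q)
    {ν : Fin k → V} (hν : ∀ i, ν i ∈ M) : DP M M n (fun v => Q (Fin.append ν v)) := by
  have h1 : DP M M (n + (k + n)) (fun x => Q (fun i => x (Fin.natAdd n i))) :=
    DP.ren h (Fin.natAdd n)
  have h2 := DP.subst (n := n) (k := k + n) (R := fun _ u => Q u) h1
    (g := fun i v => Fin.append ν v i) (by
      intro i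
      refine Fin.addCases (fun i => ?_) (fun j => ?_) i
      · simp only [Fin.append_left]
        exact ⟨fun _ _ => hν i, DP.const_eq (hν i) (hν i) (Fin.last n)⟩
      · simp only [Fin.append_right]
        exact DF.proj j)
  exact h2

theorem valΓ_prod {Γ : Type 1} [Ctx Γ] (G : V) (γ : Γ) (x : V) :
    valΓ G (γ, x) = (valΓ G γ, val G x) := by
  unfold valΓ
  have e : (fun i => val G (Ctx.get (γ, x) i)) =
      (Fin.snoc (fun i => val G (Ctx.get γ i)) (val G x) : Fin (Ctx.n Γ + 1) → V) := by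
    funext i
    refine Fin.lastCases ?_ (fun i => ?_) i
    · simp [Ctx.get]
    · simp [Ctx.get]
  rw [e]
  show (Ctx.of (Fin.init (Fin.snoc (fun i => val G (Ctx.get γ i)) (val G x) :
      Fin (Ctx.n Γ + 1) → V)), (Fin.snoc (fun i => val G (Ctx.get γ i)) (val G x) :
      Fin (Ctx.n Γ + 1) → V) (Fin.last _)) = _
  rw [Fin.init_snoc, Fin.snoc_last]

theorem valΓ_V (G x : V) : valΓ G x = val G x := rfl

section

variable {M : Set V} [ZFm M] {P G : V}

/-- The forcing theorem for predicates that are definable in the extension with parameters. -/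
theorem exists_force (hM : M.Countable) (hP : P ∈ M) (h0 : ∅ ∈ P) (hG : Generic M P G)
    {Γ : Type 1} [Ctx Γ] {Q : Γ → Prop} (h : Dfn (Ext M G) (Ext M G) Q) :
    ∃ F : Γ → V → Prop, Dfn M M (fun q : Γ × V => F q.1 q.2) ∧ (∀ γ p, F γ p → p ∈ P) ∧
      (∀ γ p q, F γ p → q ∈ P → p ⊆ q → F γ q) ∧
      ∀ γ, InM M γ → (Q (valΓ G γ) ↔ ∃ p ∈ G, F γ p) := by
  obtain ⟨φ, hφ⟩ := h
  obtain ⟨k, d, ψ, hψ⟩ := elimC φ
  have hn : ∀ c : (Ext M G ∩ Ext M G : Set V), ∃ ν ∈ M, c.1 = val G ν := fun c => c.2.1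
  choose ν hν hν' using hn
  obtain ⟨h1, h2⟩ := FrcPf.ft hM hP h0 ψ
  refine ⟨fun γ p => p ∈ P ∧ Frc M P p ψ (Fin.append (fun i => ν (d i)) (Ctx.get γ)), ?_,
    fun _ _ h => h.1, ?_, ?_⟩
  · have h3 := DP_inst (k := k) (n := Ctx.n Γ + 1) h1 (ν := fun i => ν (d i)) (fun i => hν _)
    refine DP.congr h3 fun v _ => ?_
    have e1 : (Fin.append (fun i => ν (d i)) v : Fin (k + (Ctx.n Γ + 1)) → V)
        (Fin.last (k + Ctx.n Γ)) = v (Fin.last _) := by
      have e : (Fin.last (k + Ctx.n Γ) : Fin (k + (Ctx.n Γ + 1))) = Fin.natAdd k (Fin.last _) := rfl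
      rw [e, Fin.append_right]
    have e2 : Fin.init (n := k + Ctx.n Γ) (Fin.append (fun i => ν (d i)) v :
        Fin (k + (Ctx.n Γ + 1)) → V) = Fin.append (fun i => ν (d i)) (Fin.init v) := by
      have e : v = (Fin.snoc (Fin.init v) (v (Fin.last _)) : Fin (Ctx.n Γ + 1) → V) := by
        rw [Fin.snoc_init_self]
      conv_lhs => rw [e]
      rw [append_snoc, Fin.init_snoc]
    rw [e1, e2]
    show _ ↔ v (Fin.last _) ∈ P ∧ Frc M P (v (Fin.last _)) ψ (Fin.append (fun i => ν (d i))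
      (Ctx.get (Ctx.of (Fin.init v) : Γ)))
    rw [Ctx.get_of]
  · rintro γ p q ⟨h3, h4⟩ hq hpq
    exact ⟨hq, FrcPf.Frc_mono h3 hpq h4⟩
  · intro γ hγ
    have h3 : φ.Sat (Ext M G) (fun x y => x ∈ y) (fun a => a.1) (Ctx.get (valΓ G γ)) ↔
        Q (Ctx.of (Ctx.get (valΓ G γ))) := hφ (Ctx.get (valΓ G γ)) (FD0.inM_valΓ G hγ)
    rw [Ctx.of_get] at h3
    rw [← h3, hψ, FD0.get_valΓ]
    have e : (Fin.append ((fun a : (Ext M G ∩ Ext M G : Set V) => a.1) ∘ d)
        (fun i => val G (Ctx.get γ i))) =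
        fun i => val G (Fin.append (fun i => ν (d i)) (Ctx.get γ) i) := by
      funext i
      refine Fin.addCases (fun i => ?_) (fun j => ?_) i
      · simp only [Fin.append_left, Function.comp]
        exact hν' _
      · simp only [Fin.append_right]
    rw [e]
    constructor
    · intro h4
      obtain ⟨p, hp, h5⟩ := h2 G hG _ (by
        intro i
        refine Fin.addCases (fun i => ?_) (fun j => ?_) i
        · simp only [Fin.append_left]
          exact hν _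
        · simp only [Fin.append_right]
          exact hγ j) h4
      exact ⟨p, hp, hG.sub hp, h5⟩
    · rintro ⟨p, hp, _, h5⟩
      exact h5 G hG hp

/-! ### Names -/

/-- The set of all pairs. -/
noncomputable def pr (a b : V) : V :=
  ZFSet.sUnion (rep a (fun x => rep b (fun y => ZFSet.pair x y)))

theorem mem_pr {a b z : V} : z ∈ pr a b ↔ ∃ x ∈ a, ∃ y ∈ b, z = ZFSet.pair x y := by
  unfold pr
  rw [ZFSet.mem_sUnion]
  constructor
  · rintro ⟨y, hy, hz⟩
    obtain ⟨a, ha, rfl⟩ := mem_rep.1 hy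
    obtain ⟨b, hb, rfl⟩ := mem_rep.1 hz
    exact ⟨a, ha, b, hb, rfl⟩
  · rintro ⟨a, ha, b, hb, rfl⟩
    exact ⟨_, mem_rep.2 ⟨a, ha, rfl⟩, mem_rep.2 ⟨b, hb, rfl⟩⟩

theorem pair_mem_pr {a b x y : V} : ZFSet.pair x y ∈ pr a b ↔ x ∈ a ∧ y ∈ b := by
  rw [mem_pr]
  constructor
  · rintro ⟨x', hx, y', hy, e⟩
    obtain ⟨rfl, rfl⟩ := ZFSet.pair_injective e
    exact ⟨hx, hy⟩
  · rintro ⟨hx, hy⟩
    exact ⟨x, hx, y, hy, rfl⟩

/-- The name for the set of the values of the names in `B`. -/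
noncomputable def nm (B : V) : V := rep B (fun ρ => ZFSet.pair ρ ∅)

theorem mem_nm {B z : V} : z ∈ nm B ↔ ∃ ρ ∈ B, z = ZFSet.pair ρ ∅ := by
  unfold nm
  rw [mem_rep]
  exact exists_congr fun ρ => and_congr_right fun _ => eq_comm

theorem mem_val_nm (hG : ∅ ∈ G) {B x : V} : x ∈ val G (nm B) ↔ ∃ ρ ∈ B, x = val G ρ := by
  rw [mem_val]
  constructor
  · rintro ⟨σ, p, _, h, rfl⟩
    obtain ⟨ρ, hρ, e⟩ := mem_nm.1 h
    obtain ⟨rfl, _⟩ := ZFSet.pair_injective e
    exact ⟨σ, hρ, rfl⟩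
  · rintro ⟨ρ, hρ, rfl⟩
    exact ⟨ρ, ∅, hG, mem_nm.2 ⟨ρ, hρ, rfl⟩, rfl⟩

theorem nm_mem {B : V} (hB : B ∈ M) : nm B ∈ M := by
  unfold nm
  refine ZFm.rep_mem (A := M) ?_ hB
  apply_rules (transparency := .reducible) (maxDepth := 999) only using is_poly

theorem dom_mem {x : V} (hx : x ∈ M) : dom x ∈ M :=
  (DMap.dom (A := M) (M := M) (DMap.id (Γ := V))).mem (γ := x) (inM_V.2 hx)

theorem mem_of_dom {x y : V} (hx : x ∈ M) (hy : y ∈ dom x) : y ∈ M := by
  obtain ⟨z, hz⟩ := mem_dom.1 hy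
  exact (pair_mem_iff.1 (TrC.trans hx hz)).1

theorem pr_mem {a b : V} (ha : a ∈ M) (hb : b ∈ M) : pr a b ∈ M := by
  have h : DMap M M (fun p : V × V => pr p.1 p.2) := by
    unfold pr
    apply_rules (transparency := .reducible) (maxDepth := 999) only using is_poly
  exact h.mem (γ := (a, b)) (inM_prod.2 ⟨inM_V.2 ha, hb⟩)

/-- The ground model is contained in the extension. -/
theorem sub_ext (hG : ∅ ∈ G) : M ⊆ Ext M G := fun x hx =>
  ⟨chk x, (DMap_chk M M).mem (inM_V.2 hx), (val_chk hG x).symm⟩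

/-- The generic filter belongs to the extension. -/
theorem gen_mem (hP : P ∈ M) (hG : Generic M P G) : G ∈ Ext M G := by
  refine ⟨rep P (fun p => ZFSet.pair (chk p) p), ?_, ?_⟩
  · refine ZFm.rep_mem (A := M) ?_ hP
    have hc : ∀ {Γ : Type 1} [Ctx Γ] {f : Γ → V}, DMap M M f → DMap M M (fun γ => chk (f γ)) :=
      fun h => (DMap_chk M M).comp h
    apply_rules (transparency := .reducible) (maxDepth := 999) only [hc] using is_poly
  · ext x
    rw [mem_val]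
    constructor
    · intro hx
      exact ⟨chk x, x, hx, mem_rep.2 ⟨x, hG.sub hx, rfl⟩, (val_chk hG.empty_mem x).symm⟩
    · rintro ⟨σ, p, hp, h, rfl⟩
      obtain ⟨q, _, e⟩ := mem_rep.1 h
      obtain ⟨rfl, rfl⟩ := ZFSet.pair_injective e
      rwa [val_chk hG.empty_mem]

omit [ZFm M] in
theorem ext_countable (hM : M.Countable) : (Ext M G).Countable := by
  have : Ext M G = val G '' M := by
    ext x
    constructor
    · rintro ⟨τ, hτ, rfl⟩
      exact ⟨τ, hτ, rfl⟩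
    · rintro ⟨τ, hτ, rfl⟩
      exact ⟨τ, hτ, rfl⟩
  rw [this]
  exact hM.image _

/-! ### The axioms in the extension -/

/-- Separation in the extension. -/
theorem ext_sep (hM : M.Countable) (hP : P ∈ M) (h0 : ∅ ∈ P) (hG : Generic M P G)
    {Q : V → Prop} (hQ : Dfn (Ext M G) (Ext M G) Q) {a : V} (ha : a ∈ Ext M G) :
    ZFSet.sep Q a ∈ Ext M G := by
  obtain ⟨α, hα, rfl⟩ := ha
  obtain ⟨F, hF, hFP, hFm, hFt⟩ := exists_force hM hP h0 hG hQ
  have hF' : ∀ {Γ : Type 1} [Ctx Γ] {f g : Γ → V}, DMap M M f → DMap M M g →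
    Dfn M M (fun γ => F (f γ) (g γ)) := fun h h' => hF.comp (h.prodMk h')
  have hcP : ∀ {Γ : Type 1} [Ctx Γ], DMap M M (fun _ : Γ => P) := DMap.const hP hP
  have hcα : ∀ {Γ : Type 1} [Ctx Γ], DMap M M (fun _ : Γ => α) := DMap.const hα hα
  refine ⟨ZFSet.sep (fun z => ∃ σ ∈ dom α, ∃ r ∈ P, z = ZFSet.pair σ r ∧
    (∃ s ∈ P, ZFSet.pair σ s ∈ α ∧ s ⊆ r) ∧ F σ r) (pr (dom α) P), ?_, ?_⟩
  · refine ZFm.sep_mem ?_ (pr_mem (dom_mem hα) hP)
    apply_rules (transparency := .reducible) (maxDepth := 999) only [hcP, hcα, hF'] using is_poly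
  · ext x
    rw [ZFSet.mem_sep, mem_val, mem_val]
    constructor
    · rintro ⟨⟨σ, s, hs, h1, rfl⟩, h2⟩
      have hσ : σ ∈ dom α := mem_dom.2 ⟨s, h1⟩
      obtain ⟨p, hp, h3⟩ := (hFt σ (inM_V.2 (mem_of_dom hα hσ))).1 h2
      obtain ⟨r, hr, h4, h5⟩ := hG.dir s hs p hp
      refine ⟨σ, r, hr, ZFSet.mem_sep.2 ⟨pair_mem_pr.2 ⟨hσ, hG.sub hr⟩, σ, hσ, r, hG.sub hr, rfl,
        ⟨s, hG.sub hs, h1, h4⟩, hFm σ p r h3 (hG.sub hr) h5⟩, rfl⟩
    · rintro ⟨σ, r, hr, h1, rfl⟩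
      obtain ⟨_, σ', hσ, r', _, e, ⟨s, hs, h2, h3⟩, h4⟩ := ZFSet.mem_sep.1 h1
      obtain ⟨rfl, rfl⟩ := ZFSet.pair_injective e
      exact ⟨⟨σ, s, hG.down r hr s hs h3, h2, rfl⟩,
        (hFt σ (inM_V.2 (mem_of_dom hα hσ))).2 ⟨r, hr, h4⟩⟩

/-- Collection in the extension. -/
theorem ext_coll (hM : M.Countable) (hP : P ∈ M) (h0 : ∅ ∈ P) (hG : Generic M P G)
    {Q : V → V → Prop} (hQ : Dfn (Ext M G) (Ext M G) (fun p : V × V => Q p.1 p.2)) {a : V}
    (ha : a ∈ Ext M G) (h : ∀ x ∈ a, ∃ y ∈ Ext M G, Q x y) :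
    ∃ b ∈ Ext M G, ∀ x ∈ a, ∃ y ∈ b, Q x y := by
  obtain ⟨α, hα, rfl⟩ := ha
  obtain ⟨F, hF, hFP, hFm, hFt⟩ := exists_force hM hP h0 hG hQ
  have hF' : ∀ {Γ : Type 1} [Ctx Γ] {f g g' : Γ → V}, DMap M M f → DMap M M g → DMap M M g' →
    Dfn M M (fun γ => F (f γ, g γ) (g' γ)) := fun h h' h'' => hF.comp ((h.prodMk h').prodMk h'')
  have hcP : ∀ {Γ : Type 1} [Ctx Γ], DMap M M (fun _ : Γ => P) := DMap.const hP hP
  have hcα : ∀ {Γ : Type 1} [Ctx Γ], DMap M M (fun _ : Γ => α) := DMap.const hα hα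
  obtain ⟨B, hB, h1⟩ := ZFm.coll (M := M) (P := fun z y => ∃ σ ∈ dom α, ∃ p ∈ P,
    z = ZFSet.pair σ p ∧ (F (σ, y) p ∨ ∀ ρ ∈ M, ¬ F (σ, ρ) p)) (by
      apply_rules (transparency := .reducible) (maxDepth := 999) only [hcP, hcα, hF'] using is_poly)
    (pr_mem (dom_mem hα) hP) (by
      intro z hz
      obtain ⟨σ, hσ, p, hp, rfl⟩ := mem_pr.1 hz
      by_cases h2 : ∃ ρ ∈ M, F (σ, ρ) p
      · obtain ⟨ρ, hρ, h2⟩ := h2
        exact ⟨ρ, hρ, σ, hσ, p, hp, rfl, Or.inl h2⟩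
      · push Not at h2
        exact ⟨∅, ZFm.empty_mem, σ, hσ, p, hp, rfl, Or.inr h2⟩)
  refine ⟨val G (nm B), ⟨nm B, nm_mem hB, rfl⟩, fun x hx => ?_⟩
  obtain ⟨_, ⟨ρ, hρ, rfl⟩, h2⟩ := h x hx
  obtain ⟨σ, s, hs, h3, rfl⟩ := mem_val.1 hx
  have hσ : σ ∈ dom α := mem_dom.2 ⟨s, h3⟩
  have hσM := mem_of_dom hα hσ
  have key : ∀ ρ ∈ M, (Q (val G σ) (val G ρ) ↔ ∃ p ∈ G, F (σ, ρ) p) := by
    intro ρ hρ
    have := hFt (σ, ρ) (inM_prod.2 ⟨inM_V.2 hσM, hρ⟩)
    rwa [valΓ_prod, valΓ_V] at this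
  obtain ⟨p, hp, h4⟩ := (key ρ hρ).1 h2
  obtain ⟨y, hy, σ', _, p', _, e, h5⟩ := h1 (ZFSet.pair σ p) (pair_mem_pr.2 ⟨hσ, hG.sub hp⟩)
  obtain ⟨rfl, rfl⟩ := ZFSet.pair_injective e
  rcases h5 with h5 | h5
  · exact ⟨val G y, (mem_val_nm hG.empty_mem).2 ⟨y, hy, rfl⟩,
      (key y (TrC.trans hB hy)).2 ⟨p, hp, h5⟩⟩
  · exact absurd h4 (h5 ρ hρ)

/-- Pairing in the extension. -/
theorem ext_upair (hG : ∅ ∈ G) {a b : V} (ha : a ∈ Ext M G) (hb : b ∈ Ext M G) :
    ({a, b} : V) ∈ Ext M G := by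
  obtain ⟨σ, hσ, rfl⟩ := ha
  obtain ⟨τ, hτ, rfl⟩ := hb
  refine ⟨nm {σ, τ}, nm_mem (ZFm.upair_mem hσ hτ), ?_⟩
  ext x
  rw [mem_val_nm hG, ZFSet.mem_pair]
  constructor
  · rintro (rfl | rfl)
    · exact ⟨σ, by simp, rfl⟩
    · exact ⟨τ, by simp, rfl⟩
  · rintro ⟨ρ, hρ, rfl⟩
    rcases ZFSet.mem_pair.1 hρ with rfl | rfl
    · exact Or.inl rfl
    · exact Or.inr rfl

/-- Union in the extension. -/
theorem ext_sUnion (hM : M.Countable) (hP : P ∈ M) (h0 : ∅ ∈ P) (hG : Generic M P G) {a : V}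
    (ha : a ∈ Ext M G) : (ZFSet.sUnion a : V) ∈ Ext M G := by
  have ha' := ha
  obtain ⟨α, hα, rfl⟩ := ha
  have : TrC (Ext M G) := FD0.trC_ext
  have hU : (ZFSet.sUnion (rep (dom α) dom) : V) ∈ M :=
    ZFm.sUnion_mem (ZFm.rep_mem (A := M) (DMap.dom (DMap.id (Γ := V))) (dom_mem hα))
  have hc : ∀ {Γ : Type 1} [Ctx Γ], DMap (Ext M G) (Ext M G) (fun _ : Γ => val G α) :=
    DMap.const ha' ha'
  have h1 := ext_sep hM hP h0 hG (Q := fun z => ∃ y ∈ val G α, z ∈ y) (by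
    apply_rules (transparency := .reducible) (maxDepth := 999) only [hc] using is_poly)
    (a := val G (nm (ZFSet.sUnion (rep (dom α) dom)))) ⟨_, nm_mem hU, rfl⟩
  have e : (ZFSet.sUnion (val G α) : V) = ZFSet.sep (fun z => ∃ y ∈ val G α, z ∈ y)
      (val G (nm (ZFSet.sUnion (rep (dom α) dom)))) := by
    ext z
    rw [ZFSet.mem_sUnion, ZFSet.mem_sep]
    constructor
    · rintro ⟨y, hy, hz⟩
      refine ⟨?_, y, hy, hz⟩
      obtain ⟨σ, s, _, h3, rfl⟩ := mem_val.1 hy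
      obtain ⟨ρ, t, _, h4, rfl⟩ := mem_val.1 hz
      refine (mem_val_nm hG.empty_mem).2 ⟨ρ, ?_, rfl⟩
      rw [ZFSet.mem_sUnion]
      exact ⟨dom σ, mem_rep.2 ⟨σ, mem_dom.2 ⟨s, h3⟩, rfl⟩, mem_dom.2 ⟨t, h4⟩⟩
    · exact fun h => h.2
  rwa [e]

/-- The extension is a model of ZF without power sets. -/
theorem ext_ZFm (hM : M.Countable) (hP : P ∈ M) (h0 : ∅ ∈ P) (hG : Generic M P G) :
    ZFm (Ext M G) where
  toTrC := FD0.trC_ext
  empty_mem := sub_ext hG.empty_mem ZFm.empty_mem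
  upair_mem := ext_upair hG.empty_mem
  sUnion_mem := ext_sUnion hM hP h0 hG
  omega_mem := sub_ext hG.empty_mem ZFm.omega_mem
  sep_mem := ext_sep hM hP h0 hG
  coll := ext_coll hM hP h0 hG

/-! ### Ordinals -/

/-- ranks, as ordinals -/
noncomputable def ro (x : V) : V :=
  ZFSet.sUnion (rep x (fun y => open Classical in if _h : y ∈ x then insert (ro y) (ro y) else ∅))
termination_by ZFSet.rank x
decreasing_by all_goals exact ZFSet.rank_lt_of_mem _h

theorem ro_eq (x : V) : ro x = ZFSet.sUnion (rep x (fun y => insert (ro y) (ro y))) := by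
  rw [ro]
  congr 1
  exact Chk.rep_congr fun y hy => by rw [dif_pos hy]

theorem ro_ord (x : V) : (ro x).IsOrdinal := by
  induction x using ZFSet.inductionOn with
  | _ x ih =>
    rw [ro_eq, ZFSet.isOrdinal_iff_forall_mem_isOrdinal]
    have h : ∀ y ∈ rep x (fun y => insert (ro y) (ro y)), y.IsOrdinal := by
      intro z hz
      obtain ⟨y, hy, rfl⟩ := mem_rep.1 hz
      exact ZFSet.isOrdinal_succ (ih y hy)
    refine ⟨ZFSet.IsTransitive.sUnion' fun y hy => (h y hy).isTransitive, fun z hz => ?_⟩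
    obtain ⟨y, hy, hz⟩ := ZFSet.mem_sUnion.1 hz
    exact (h y hy).mem hz

theorem ro_mem_ro {x y : V} (h : y ∈ x) : ro y ∈ ro x := by
  rw [ro_eq x, ZFSet.mem_sUnion]
  exact ⟨_, mem_rep.2 ⟨y, h, rfl⟩, ZFSet.mem_insert _ _⟩

theorem DMap_ro {A : Set V} : DMap A M ro := by
  refine DMap.recMem (H := fun x g => ZFSet.sUnion (rep x (fun y => insert (app g y) (app g y))))
    ?_ ?_
  · apply_rules (transparency := .reducible) (maxDepth := 999) only using is_poly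
  · intro x _
    rw [ro_eq]
    congr 1
    exact Chk.rep_congr fun y hy => by rw [Chk.app_gr hy]

theorem val_sub_ro (τ : V) : (val G τ).IsOrdinal → val G τ ⊆ ro τ := by
  induction τ using (InvImage.wf ZFSet.rank Ordinal.lt_wf).induction with
  | _ τ ih =>
  intro ho x hx
  obtain ⟨σ, p, hp, h, rfl⟩ := mem_val.1 hx
  have hσ : σ ∈ dom τ := mem_dom.2 ⟨p, h⟩
  have ho' := ho.mem hx
  have h1 := ih σ (dom_wf hσ) ho'
  have h2 : ro σ ∈ ro τ := by
    have e1 : ro σ ∈ ro {σ} := ro_mem_ro (by simp)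
    have e2 : ro ({σ} : V) ∈ ro (ZFSet.pair σ p) := ro_mem_ro (by simp [ZFSet.pair])
    have e3 : ro (ZFSet.pair σ p) ∈ ro τ := ro_mem_ro h
    exact (ro_ord τ).mem_trans ((ro_ord _).mem_trans e1 e2) e3
  exact ho'.mem_of_subset_of_mem (ro_ord τ) h1 h2

/-- There are no new ordinals. -/
theorem ext_ord : ∀ a ∈ Ext M G, a.IsOrdinal → a ∈ M := by
  rintro _ ⟨τ, hτ, rfl⟩ ho
  have h : ro τ ∈ M := (DMap_ro (A := M)).mem (inM_V.2 hτ)
  rcases (ho.subset_iff_eq_or_mem (ro_ord τ)).1 (val_sub_ro τ ho) with e | e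
  · rw [e]
    exact h
  · exact TrC.trans h e

end

end ExtPf

end Pool.Agent.CTM
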