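import Pool.Agent.CTM.HierLev

/-!
Classes closed under the basic operations, the normal form theorem, and transitivity of the
levels of limit index.
-/

set_option autoImplicit false

namespace Pool.Agent.CTM

/-- Classes closed under the basic operations. -/
structure FC (C : Set V) : Prop where
  zero : (∅ : V) ∈ C
  op : ∀ {w u v : V}, w ∈ C → u ∈ C → v ∈ C → Fop w u v ∈ C

namespace FC

variable {C : Set V} (h : FC C)

include h

theorem upair {u v : V} (hu : u ∈ C) (hv : v ∈ C) : ({u, v} : V) ∈ C := by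
  rw [← Fop_pair]
  exact h.op h.zero hu hv

theorem sing {u : V} (hu : u ∈ C) : ({u} : V) ∈ C := by
  have := h.upair hu hu
  rwa [ZFSet.pair_eq_singleton] at this

theorem opair {u v : V} (hu : u ∈ C) (hv : v ∈ C) : ZFSet.pair u v ∈ C :=
  h.upair (h.sing hu) (h.upair hu hv)

theorem sel_mem : ∀ n, sel n ∈ C
  | 0 => h.zero
  | n + 1 => h.sing (sel_mem n)

theorem diff {u v : V} (hu : u ∈ C) (hv : v ∈ C) : u \ v ∈ C := by
  rw [← Fop_diff]
  exact h.op (h.sel_mem _) hu hv

theorem prod {u v : V} (hu : u ∈ C) (hv : v ∈ C) : ZFSet.prod u v ∈ C := by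
  rw [← Fop_prod]
  exact h.op (h.sel_mem _) hu hv

theorem dom {u : V} (hu : u ∈ C) : CTM.dom u ∈ C := by
  rw [← Fop_dom u u]
  exact h.op (h.sel_mem _) hu hu

theorem lift {u v : V} (hu : u ∈ C) (hv : v ∈ C) : opLift u v ∈ C := by
  rw [← Fop_lift]
  exact h.op (h.sel_mem _) hu hv

theorem p2 {u v : V} (hu : u ∈ C) (hv : v ∈ C) : opP2 u v ∈ C := by
  rw [← Fop_p2]
  exact h.op (h.sel_mem _) hu hv

theorem e2 {u v : V} (hu : u ∈ C) (hv : v ∈ C) : opE2 u v ∈ C := by
  rw [← Fop_e2]
  exact h.op (h.sel_mem _) hu hv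

theorem opid {u : V} (hu : u ∈ C) : opId u ∈ C := by
  rw [← Fop_id u u]
  exact h.op (h.sel_mem _) hu hu

theorem inter {u v : V} (hu : u ∈ C) (hv : v ∈ C) : u ∩ v ∈ C := by
  have : u ∩ v = u \ (u \ v) := by
    ext z
    rw [ZFSet.mem_inter, ZFSet.mem_sdiff, ZFSet.mem_sdiff]
    tauto
  rw [this]
  exact h.diff hu (h.diff hu hv)

end FC

/-! ### Projections of pairs -/

open Classical in
/-- The first component of a pair. -/
noncomputable def pfst (p : V) : V := if h : ∃ a b, p = ZFSet.pair a b then h.choose else ∅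

open Classical in
/-- The second component of a pair. -/
noncomputable def psnd (p : V) : V :=
  if h : ∃ b a, p = ZFSet.pair a b then h.choose else ∅

@[simp] theorem pfst_pair (a b : V) : pfst (ZFSet.pair a b) = a := by
  unfold pfst
  have h : ∃ a' b', ZFSet.pair a b = ZFSet.pair a' b' := ⟨a, b, rfl⟩
  rw [dif_pos h]
  obtain ⟨b', e⟩ := h.choose_spec
  exact (ZFSet.pair_injective e).1.symm

@[simp] theorem psnd_pair (a b : V) : psnd (ZFSet.pair a b) = b := by
  unfold psnd
  have h : ∃ b' a', ZFSet.pair a b = ZFSet.pair a' b' := ⟨b, a, rfl⟩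
  rw [dif_pos h]
  obtain ⟨b', e⟩ := h.choose_spec
  exact (ZFSet.pair_injective e).2.symm

/-! ### The normal form theorem -/

/-- **Normal form theorem.** A class closed under the basic operations contains the extensions
(over any of its elements `A`) of all formulas. -/
theorem FC.ext_mem {C : Set V} (hC : FC C) {K : Type*} (c : K → V) (hc : ∀ k, c k ∈ C) {A : V}
    (hA : A ∈ C) {n : ℕ} (φ : Fm K n) : ∀ (X : V) (_ : X ∈ C) (val : Fin n → V → V)
      (_ : ∀ i, gr (val i) X ∈ C),
      ZFSet.sep (fun s => φ.Sat (A : Set V) (fun x y => x ∈ y) c (fun i => val i s)) X ∈ C := by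
  have term : ∀ {n : ℕ} (t : K ⊕ Fin n) (X : V) (_ : X ∈ C) (val : Fin n → V → V)
      (_ : ∀ i, gr (val i) X ∈ C),
      gr (fun s => Sum.elim c (fun i => val i s) t) X ∈ C := by
    intro n t X hX val hval
    rcases t with k | i
    · have : gr (fun s => Sum.elim c (fun i => val i s) (Sum.inl k : K ⊕ Fin n)) X =
          ZFSet.prod X {c k} := by
        ext p
        rw [mem_gr, ZFSet.mem_prod]
        constructor
        · rintro ⟨x, hx, rfl⟩
          exact ⟨x, hx, c k, by simp, rfl⟩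
        · rintro ⟨x, hx, b, hb, rfl⟩
          rw [ZFSet.mem_singleton] at hb
          subst hb
          exact ⟨x, hx, rfl⟩
      rw [this]
      exact hC.prod hX (hC.sing (hc k))
    · exact hval i
  induction φ with
  | mem s t =>
    intro X hX val hval
    have h1 := term s X hX val hval
    have h2 := term t X hX val hval
    have : ZFSet.sep (fun x => (Fm.mem s t).Sat (A : Set V) (fun x y => x ∈ y) c
        (fun i => val i x)) X =
        opE2 (gr (fun x => Sum.elim c (fun i => val i x) s) X)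
          (gr (fun x => Sum.elim c (fun i => val i x) t) X) := by
      ext x
      rw [ZFSet.mem_sep, mem_opE2]
      constructor
      · rintro ⟨hx, h⟩
        exact ⟨_, _, mem_gr.2 ⟨x, hx, rfl⟩, mem_gr.2 ⟨x, hx, rfl⟩, h⟩
      · rintro ⟨a, b, ha, hb, hab⟩
        obtain ⟨x', hx', e⟩ := mem_gr.1 ha
        obtain ⟨rfl, rfl⟩ := ZFSet.pair_injective e
        obtain ⟨x'', hx'', e⟩ := mem_gr.1 hb
        obtain ⟨rfl, rfl⟩ := ZFSet.pair_injective e
        exact ⟨hx', hab⟩
    rw [this]
    exact hC.e2 h1 h2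
  | eq s t =>
    intro X hX val hval
    have h1 := term s X hX val hval
    have h2 := term t X hX val hval
    have : ZFSet.sep (fun x => (Fm.eq s t).Sat (A : Set V) (fun x y => x ∈ y) c
        (fun i => val i x)) X =
        CTM.dom ((gr (fun x => Sum.elim c (fun i => val i x) s) X) ∩
          (gr (fun x => Sum.elim c (fun i => val i x) t) X)) := by
      ext x
      rw [ZFSet.mem_sep, mem_dom]
      constructor
      · rintro ⟨hx, h⟩
        have h' : Sum.elim c (fun i => val i x) s = Sum.elim c (fun i => val i x) t := h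
        refine ⟨_, ZFSet.mem_inter.2 ⟨mem_gr.2 ⟨x, hx, rfl⟩, mem_gr.2 ⟨x, hx, ?_⟩⟩⟩
        show ZFSet.pair x _ = ZFSet.pair x _
        rw [h']
      · rintro ⟨y, hy⟩
        obtain ⟨ha, hb⟩ := ZFSet.mem_inter.1 hy
        obtain ⟨x', hx', e⟩ := mem_gr.1 ha
        obtain ⟨rfl, rfl⟩ := ZFSet.pair_injective e
        obtain ⟨x'', hx'', e⟩ := mem_gr.1 hb
        obtain ⟨rfl, e'⟩ := ZFSet.pair_injective e
        exact ⟨hx', e'.symm⟩
    rw [this]
    exact hC.dom (hC.inter h1 h2)
  | neg φ ih =>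
    intro X hX val hval
    have : ZFSet.sep (fun x => (Fm.neg φ).Sat (A : Set V) (fun x y => x ∈ y) c
        (fun i => val i x)) X = X \ ZFSet.sep (fun x => φ.Sat (A : Set V) (fun x y => x ∈ y) c
        (fun i => val i x)) X := by
      ext x
      rw [ZFSet.mem_sep, ZFSet.mem_sdiff, ZFSet.mem_sep]
      show x ∈ X ∧ ¬ _ ↔ _
      tauto
    rw [this]
    exact hC.diff hX (ih X hX val hval)
  | and φ ψ ih ih' =>
    intro X hX val hval
    have : ZFSet.sep (fun x => (Fm.and φ ψ).Sat (A : Set V) (fun x y => x ∈ y) c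
        (fun i => val i x)) X = (ZFSet.sep (fun x => φ.Sat (A : Set V) (fun x y => x ∈ y) c
        (fun i => val i x)) X) ∩ (ZFSet.sep (fun x => ψ.Sat (A : Set V) (fun x y => x ∈ y) c
        (fun i => val i x)) X) := by
      ext x
      rw [ZFSet.mem_sep, ZFSet.mem_inter, ZFSet.mem_sep, ZFSet.mem_sep]
      show x ∈ X ∧ (_ ∧ _) ↔ _
      tauto
    rw [this]
    exact hC.inter (ih X hX val hval) (ih' X hX val hval)
  | @all n φ ih =>
    intro X hX val hval
    have hXA : ZFSet.prod X A ∈ C := hC.prod hX hA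
    set val' : Fin (n + 1) → V → V := fun i p =>
      (Fin.snoc (fun i => val i (pfst p)) (psnd p) : Fin (n + 1) → V) i with hval'
    have h1 : ∀ i, gr (val' i) (ZFSet.prod X A) ∈ C := by
      intro i
      refine Fin.lastCases ?_ (fun i => ?_) i
      · have : gr (val' (Fin.last n)) (ZFSet.prod X A) = opP2 X A := by
          ext p
          rw [mem_gr, mem_opP2]
          constructor
          · rintro ⟨q, hq, rfl⟩
            obtain ⟨s, hs, a, ha, rfl⟩ := ZFSet.mem_prod.1 hq
            exact ⟨s, a, hs, ha, by simp [hval']⟩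
          · rintro ⟨s, a, hs, ha, rfl⟩
            exact ⟨_, ZFSet.pair_mem_prod.2 ⟨hs, ha⟩, by simp [hval']⟩
        rw [this]
        exact hC.p2 hX hA
      · have : gr (val' i.castSucc) (ZFSet.prod X A) = opLift (gr (val i) X) A := by
          ext p
          rw [mem_gr, mem_opLift]
          constructor
          · rintro ⟨q, hq, rfl⟩
            obtain ⟨s, hs, a, ha, rfl⟩ := ZFSet.mem_prod.1 hq
            exact ⟨s, a, val i s, mem_gr.2 ⟨s, hs, rfl⟩, ha, by simp [hval']⟩
          · rintro ⟨s, a, b, hs, ha, rfl⟩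
            obtain ⟨s', hs', e⟩ := mem_gr.1 hs
            obtain ⟨rfl, rfl⟩ := ZFSet.pair_injective e
            exact ⟨_, ZFSet.pair_mem_prod.2 ⟨hs', ha⟩, by simp [hval']⟩
        rw [this]
        exact hC.lift (hval i) hA
    have h2 := ih (ZFSet.prod X A) hXA val' h1
    have key : ∀ s a, (fun i => val' i (ZFSet.pair s a)) =
        (Fin.snoc (fun i => val i s) a : Fin (n + 1) → V) := by
      intro s a
      funext i
      simp [hval']
    have : ZFSet.sep (fun x => (Fm.all φ).Sat (A : Set V) (fun x y => x ∈ y) c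
        (fun i => val i x)) X = X \ CTM.dom ((ZFSet.prod X A) \
          ZFSet.sep (fun p => φ.Sat (A : Set V) (fun x y => x ∈ y) c
            (fun i => val' i p)) (ZFSet.prod X A)) := by
      ext x
      rw [ZFSet.mem_sep, ZFSet.mem_sdiff, mem_dom]
      refine and_congr_right fun hx => ?_
      show (∀ a ∈ (A : Set V), _) ↔ _
      constructor
      · rintro h ⟨a, ha⟩
        rw [ZFSet.mem_sdiff, ZFSet.pair_mem_prod, ZFSet.mem_sep] at ha
        refine ha.2 ⟨ZFSet.pair_mem_prod.2 ha.1, ?_⟩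
        rw [key]
        exact h a ha.1.2
      · intro h a ha
        by_contra hcon
        refine h ⟨a, ?_⟩
        rw [ZFSet.mem_sdiff, ZFSet.pair_mem_prod, ZFSet.mem_sep]
        refine ⟨⟨hx, ha⟩, fun h' => hcon ?_⟩
        rw [← key]
        exact h'.2
    rw [this]
    exact hC.diff hX (hC.dom (hC.diff hXA h2))

/-! ### Hereditary parts and transitivity of the levels -/

/-- The largest transitive subset of `s`. -/
noncomputable def her (s : V) : V :=
  ZFSet.sep (fun x => ∃ t : V, t ⊆ s ∧ t.IsTransitive ∧ x ∈ t) s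

theorem her_subset (s : V) : her s ⊆ s := fun _ h => (ZFSet.mem_sep.1 h).1

theorem her_trans {s x y : V} (hx : x ∈ her s) (hy : y ∈ x) : y ∈ her s := by
  obtain ⟨_, t, ht, htt, hxt⟩ := ZFSet.mem_sep.1 hx
  have hyt : y ∈ t := htt x hxt hy
  exact ZFSet.mem_sep.2 ⟨ht hyt, t, ht, htt, hyt⟩

theorem mem_her {s x : V} (hx : x ∈ s) (h : ∀ y ∈ x, y ∈ her s) : x ∈ her s := by
  refine ZFSet.mem_sep.2 ⟨hx, insert x (her s), ?_, ?_, by simp⟩
  · intro z hz
    rcases ZFSet.mem_insert_iff.1 hz with rfl | hz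
    · exact hx
    · exact her_subset _ hz
  · intro z hz y hy
    rcases ZFSet.mem_insert_iff.1 hz with rfl | hz
    · exact ZFSet.mem_insert_of_mem _ (h y hy)
    · exact ZFSet.mem_insert_of_mem _ (her_trans hz hy)

theorem her_of_opair {s a b : V} (h : ZFSet.pair a b ∈ her s) : a ∈ her s ∧ b ∈ her s := by
  have h1 : ({a, b} : V) ∈ her s := her_trans h (by simp [ZFSet.pair])
  exact ⟨her_trans h1 (by simp), her_trans h1 (by simp)⟩

theorem her_fc {s : V} (h : FC (s : Set V)) : FC (her s : Set V) := by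
  have hz : (∅ : V) ∈ her s := mem_her h.zero fun y hy => (ZFSet.notMem_empty _ hy).elim
  have hup : ∀ {a b : V}, a ∈ her s → b ∈ her s → ({a, b} : V) ∈ her s := by
    intro a b ha hb
    refine mem_her (h.upair (her_subset _ ha) (her_subset _ hb)) fun y hy => ?_
    rcases ZFSet.mem_pair.1 hy with rfl | rfl
    · exact ha
    · exact hb
  have hop : ∀ {a b : V}, a ∈ her s → b ∈ her s → ZFSet.pair a b ∈ her s := by
    intro a b ha hb
    have := hup (hup ha ha) (hup ha hb)
    rwa [ZFSet.pair_eq_singleton] at this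
  refine ⟨hz, fun {w u v} hw hu hv => ?_⟩
  have hs : Fop w u v ∈ s := h.op (her_subset _ hw) (her_subset _ hu) (her_subset _ hv)
  refine mem_her hs fun y hy => ?_
  by_cases h1 : w = sel 1
  · subst h1
    rw [Fop_diff, ZFSet.mem_sdiff] at hy
    exact her_trans hu hy.1
  by_cases h2 : w = sel 2
  · subst h2
    rw [Fop_prod, ZFSet.mem_prod] at hy
    obtain ⟨a, ha, b, hb, rfl⟩ := hy
    exact hop (her_trans hu ha) (her_trans hv hb)
  by_cases h3 : w = sel 3
  · subst h3
    rw [Fop_dom, mem_dom] at hy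
    obtain ⟨b, hb⟩ := hy
    exact (her_of_opair (her_trans hu hb)).1
  by_cases h4 : w = sel 4
  · subst h4
    rw [Fop_lift, mem_opLift] at hy
    obtain ⟨p, a, b, hp, ha, rfl⟩ := hy
    have := her_of_opair (her_trans hu hp)
    exact hop (hop this.1 (her_trans hv ha)) this.2
  by_cases h5 : w = sel 5
  · subst h5
    rw [Fop_p2, mem_opP2] at hy
    obtain ⟨p, a, hp, ha, rfl⟩ := hy
    exact hop (hop (her_trans hu hp) (her_trans hv ha)) (her_trans hv ha)
  by_cases h6 : w = sel 6
  · subst h6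
    rw [Fop_e2, mem_opE2] at hy
    obtain ⟨a, b, ha, _, _⟩ := hy
    exact (her_of_opair (her_trans hu ha)).1
  by_cases h7 : w = sel 7
  · subst h7
    rw [Fop_id, mem_opId] at hy
    obtain ⟨a, ha, rfl⟩ := hy
    exact hop (her_trans hu ha) (her_trans hu ha)
  have : Fop w u v = {u, v} := by
    unfold Fop
    simp [h1, h2, h3, h4, h5, h6, h7]
  rw [this] at hy
  rcases ZFSet.mem_pair.1 hy with rfl | rfl
  · exact hu
  · exact hv

/-- Indices closed under successors. -/
def Lim (α : Ordinal.{0}) : Prop := 0 < α ∧ ∀ β < α, Order.succ β < α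

theorem lev_zero : lev 0 = ∅ := by
  rw [ZFSet.eq_empty]
  intro p hp
  obtain ⟨β, hβ, _⟩ := mem_lev.1 hp
  exact absurd hβ (not_lt_bot)

theorem Lim.fc {α : Ordinal.{0}} (h : Lim α) : FC (slev α : Set V) := by
  refine ⟨?_, fun {w u v} hw hu hv => ?_⟩
  · have := lev_mem_slev h.1
    rwa [lev_zero] at this
  · obtain ⟨a, ha, hw⟩ := mem_slev.1 hw
    obtain ⟨b, hb, hu⟩ := mem_slev.1 hu
    obtain ⟨c, hc, hv⟩ := mem_slev.1 hv
    have hM : Order.succ (max (max a b) c) < α := h.2 _ (max_lt (max_lt ha hb) hc)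
    refine slev_mono (Order.succ_le_of_lt hM) (Fop_mem_slev_succ (Or.inr ?_) (Or.inr ?_)
      (Or.inr ?_))
    · exact slev_mono (Order.succ_le_succ ((le_max_left _ _).trans (le_max_left _ _))) hw
    · exact slev_mono (Order.succ_le_succ ((le_max_right _ _).trans (le_max_left _ _))) hu
    · exact slev_mono (Order.succ_le_succ (le_max_right _ _)) hv

theorem Lim.slev_her {α : Ordinal.{0}} (h : Lim α) (β : Ordinal.{0}) : β < α →
    ∀ x ∈ slev β, x ∈ her (slev α) := by
  induction β using WellFoundedLT.induction with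
  | ind β ih =>
  intro hβ x hx
  have hfc := her_fc h.fc
  obtain ⟨γ, hγ, hx⟩ := mem_slev.1 hx
  have hγα := hγ.trans hβ
  have hlev : lev γ ∈ her (slev α) := by
    refine mem_her (lev_mem_slev hγα) fun y hy => ?_
    obtain ⟨a, b, rfl⟩ := (lev_wo γ).1.rel y hy
    exact hfc.opair (ih γ hγ hγα a ((lev_wo γ).1.left hy))
      (ih γ hγ hγα b ((lev_wo γ).1.right _ _ hy))
  have hor : ∀ z, (z = lev γ ∨ z ∈ slev γ) → z ∈ her (slev α) := by
    rintro z (rfl | hz)
    · exact hlev
    · exact ih γ hγ hγα z hz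
  rcases mem_slev_succ.1 hx with h1 | h1 | ⟨w, u, v, hw, hu, hv, rfl⟩
  · exact ih γ hγ hγα x h1
  · exact h1 ▸ hlev
  · exact hfc.op (hor w hw) (hor u hu) (hor v hv)

theorem Lim.isTransitive {α : Ordinal.{0}} (h : Lim α) : (slev α).IsTransitive := by
  intro x hx y hy
  obtain ⟨β, hβ, hx⟩ := mem_slev.1 hx
  exact her_subset _ (her_trans (h.slev_her _ (h.2 β hβ) x hx) hy)

theorem Lim.trC {α : Ordinal.{0}} (h : Lim α) : TrC (slev α : Set V) :=
  ⟨fun {x _} hx hy => h.isTransitive x hx hy⟩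

/-- The inner model. -/
def LL : Set V := {x | ∃ α, x ∈ slev α}

/-- Closing off an ordinal under a monotone function. -/
theorem exists_closed (g : Ordinal.{0} → Ordinal.{0}) (hg : Monotone g) (α : Ordinal.{0}) :
    ∃ l, Lim l ∧ α < l ∧ ∀ β < l, g β < l := by
  set a : ℕ → Ordinal.{0} := fun k => Nat.rec α (fun _ x => Order.succ (max x (g x))) k with ha
  have h0 : a 0 = α := rfl
  have h1 : ∀ k, a (k + 1) = Order.succ (max (a k) (g (a k))) := fun k => rfl
  have h2 : ∀ k, a k < a (k + 1) := fun k => by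
    rw [h1]
    exact Order.lt_succ_of_le (le_max_left _ _)
  have h3 : ∀ k, g (a k) < a (k + 1) := fun k => by
    rw [h1]
    exact Order.lt_succ_of_le (le_max_right _ _)
  have h4 : ∀ k, a k < ⨆ k, a k := fun k => (h2 k).trans_le (Ordinal.le_iSup a (k + 1))
  have h5 : ∀ β < ⨆ k, a k, ∃ k, β < a k := fun β hβ => (Ordinal.lt_iSup_iff).1 hβ
  refine ⟨⨆ k, a k, ⟨?_, fun β hβ => ?_⟩, ?_, fun β hβ => ?_⟩
  · exact lt_of_le_of_lt (by simp) (h4 0)
  · obtain ⟨k, hk⟩ := h5 β hβ
    exact (Order.succ_le_of_lt hk).trans_lt (h4 k)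
  · exact h0 ▸ h4 0
  · obtain ⟨k, hk⟩ := h5 β hβ
    exact ((hg hk.le).trans_lt (h3 k)).trans (h4 (k + 1))

theorem exists_lim (α : Ordinal.{0}) : ∃ l, Lim l ∧ α < l := by
  obtain ⟨l, h, h', _⟩ := exists_closed id monotone_id α
  exact ⟨l, h, h'⟩

theorem exists_lim_mem {x : V} (h : x ∈ LL) : ∃ l, Lim l ∧ x ∈ slev l := by
  obtain ⟨α, hα⟩ := h
  obtain ⟨l, hl, h'⟩ := exists_lim α
  exact ⟨l, hl, slev_mono h'.le hα⟩

instance : TrC LL where
  trans := by
    intro x y hx hy
    obtain ⟨l, hl, h⟩ := exists_lim_mem hx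
    exact ⟨l, hl.isTransitive x h hy⟩

theorem LL_fc : FC LL := by
  refine ⟨?_, fun {w u v} hw hu hv => ?_⟩
  · obtain ⟨l, hl, _⟩ := exists_lim 0
    exact ⟨l, hl.fc.zero⟩
  · obtain ⟨a, hw⟩ := hw
    obtain ⟨b, hu⟩ := hu
    obtain ⟨c, hv⟩ := hv
    refine ⟨_, Fop_mem_slev_succ (α := max (max a b) c) (Or.inr ?_) (Or.inr ?_) (Or.inr ?_)⟩
    · exact slev_mono ((le_max_left _ _).trans (le_max_left _ _)) hw
    · exact slev_mono ((le_max_right _ _).trans (le_max_left _ _)) hu
    · exact slev_mono (le_max_right _ _) hv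

theorem lev_mem_LL (α : Ordinal.{0}) : lev α ∈ LL := ⟨_, lev_mem_slev (Order.lt_succ α)⟩

theorem slev_mem_LL (α : Ordinal.{0}) : slev α ∈ LL := LL_fc.dom (lev_mem_LL α)

/-- Any set of elements of `LL` is contained in a level. -/
theorem exists_slev {a : V} (h : ∀ x ∈ a, x ∈ LL) (α : Ordinal.{0}) :
    ∃ l, Lim l ∧ α < l ∧ a ⊆ slev l := by
  choose! f hf using h
  set β : Ordinal.{0} := ⨆ x : a, f x.1 with hβ
  obtain ⟨l, hl, h'⟩ := exists_lim (max α β)
  refine ⟨l, hl, (le_max_left _ _).trans_lt h', fun x hx => ?_⟩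
  have : f x ≤ β := Ordinal.le_iSup (fun x : a => f x.1) ⟨x, hx⟩
  exact slev_mono ((this.trans (le_max_right _ _)).trans h'.le) (hf x hx)

end Pool.Agent.CTM
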