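import Pool.Agent.CTM.SOADefs
import Pool.Agent.CTM.HierNF
import Pool.Agent.CTM.CovA

/-!
Module EA_FAM (MP_ea2134_lc): a countable family of sets which contains all parameter-free definable
subsets of a given set `U`: the closure of `{∅, U}` under the basic operations.

Formalisation: helper25.
-/

set_option autoImplicit false

namespace Pool.Agent.CTM

namespace Fam

section

variable {Γ : Type 1} [Ctx Γ] {A M : Set V}

/-! ### The basic operations are definable -/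

theorem dmap_prod [ZFm M] {f g : Γ → V} (hf : DMap A M f) (hg : DMap A M g) :
    DMap A M (fun γ => ZFSet.prod (f γ) (g γ)) := by
  have h : DMap A M (fun p : V × V => ZFSet.prod p.1 p.2) := by
    have h1 : DMap A M (fun p : V × V =>
        (ZFSet.sUnion (rep p.1 (fun a => rep p.2 (fun b => ZFSet.pair a b))) : V)) := by
      apply_rules (transparency := .reducible) (maxDepth := 999) only using is_poly
    refine h1.congr fun p _ => ?_
    ext z
    rw [ZFSet.mem_sUnion, ZFSet.mem_prod]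
    constructor
    · rintro ⟨y, hy, hz⟩
      obtain ⟨a, ha, rfl⟩ := mem_rep.1 hy
      obtain ⟨b, hb, rfl⟩ := mem_rep.1 hz
      exact ⟨a, ha, b, hb, rfl⟩
    · rintro ⟨a, ha, b, hb, rfl⟩
      exact ⟨_, mem_rep.2 ⟨a, ha, rfl⟩, mem_rep.2 ⟨b, hb, rfl⟩⟩
  exact h.comp (hf.prodMk hg)

/-- separation with an arbitrary definable predicate -/
theorem dmap_sep_congr [ZFm M] {a : V × V → V} {P Q : V × V → V → Prop} (ha : DMap A M a)
    (hQ : Dfn A M (fun p : (V × V) × V => Q p.1 p.2))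
    (e : ∀ p, InM M p → ∀ z ∈ a p, (Q p z ↔ P p z)) :
    DMap A M (fun p => ZFSet.sep (P p) (a p)) := by
  refine (DMap.sep ha hQ).congr fun p hp => ?_
  ext z
  rw [ZFSet.mem_sep, ZFSet.mem_sep]
  exact and_congr_right fun hz => e p hp z hz

theorem dmap_lift [ZFm M] : DMap A M (fun p : V × V => opLift p.1 p.2) := by
  unfold opLift
  refine dmap_sep_congr (Q := fun q p => ∃ s ∈ M, ∃ a ∈ M, ∃ b ∈ M, ZFSet.pair s b ∈ q.1 ∧
    a ∈ q.2 ∧ p = ZFSet.pair (ZFSet.pair s a) b) ?_ ?_ ?_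
  · exact dmap_prod (dmap_prod (DMap.dom (DMap.fst DMap.id)) (DMap.snd DMap.id))
      (DMap.ran (DMap.fst DMap.id))
  · apply_rules (transparency := .reducible) (maxDepth := 999) only using is_poly
  · intro q hq p _
    obtain ⟨h1, h2⟩ := inM_prod.1 hq
    rw [inM_V] at h1
    constructor
    · rintro ⟨s, _, a, _, b, _, h⟩
      exact ⟨s, a, b, h⟩
    · rintro ⟨s, a, b, h3, h4, h5⟩
      obtain ⟨h6, h7⟩ := pair_mem_iff.1 (TrC.trans h1 h3)
      exact ⟨s, h6, a, TrC.trans h2 h4, b, h7, h3, h4, h5⟩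

theorem dmap_p2 [ZFm M] : DMap A M (fun p : V × V => opP2 p.1 p.2) := by
  unfold opP2
  refine dmap_sep_congr (Q := fun q p => ∃ s ∈ M, ∃ a ∈ M, s ∈ q.1 ∧
    a ∈ q.2 ∧ p = ZFSet.pair (ZFSet.pair s a) a) ?_ ?_ ?_
  · exact dmap_prod (dmap_prod (DMap.fst DMap.id) (DMap.snd DMap.id)) (DMap.snd DMap.id)
  · apply_rules (transparency := .reducible) (maxDepth := 999) only using is_poly
  · intro q hq p _
    obtain ⟨h1, h2⟩ := inM_prod.1 hq
    rw [inM_V] at h1
    constructor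
    · rintro ⟨s, _, a, _, h⟩
      exact ⟨s, a, h⟩
    · rintro ⟨s, a, h3, h4, h5⟩
      exact ⟨s, TrC.trans h1 h3, a, TrC.trans h2 h4, h3, h4, h5⟩

theorem dmap_e2 [ZFm M] : DMap A M (fun p : V × V => opE2 p.1 p.2) := by
  unfold opE2
  refine dmap_sep_congr (Q := fun q s => ∃ a ∈ M, ∃ b ∈ M, ZFSet.pair s a ∈ q.1 ∧
    ZFSet.pair s b ∈ q.2 ∧ a ∈ b) ?_ ?_ ?_
  · exact DMap.dom (DMap.fst DMap.id)
  · apply_rules (transparency := .reducible) (maxDepth := 999) only using is_poly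
  · intro q hq p _
    obtain ⟨h1, h2⟩ := inM_prod.1 hq
    rw [inM_V] at h1
    constructor
    · rintro ⟨a, _, b, _, h⟩
      exact ⟨a, b, h⟩
    · rintro ⟨a, b, h3, h4, h5⟩
      exact ⟨a, (pair_mem_iff.1 (TrC.trans h1 h3)).2, b, (pair_mem_iff.1 (TrC.trans h2 h4)).2,
        h3, h4, h5⟩

theorem dmap_id [ZFm M] : DMap A M (fun p : V × V => opId p.1) := by
  unfold opId
  refine dmap_sep_congr (Q := fun q p => ∃ a ∈ q.1, p = ZFSet.pair a a) ?_ ?_ ?_
  · exact dmap_prod (DMap.fst DMap.id) (DMap.fst DMap.id)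
  · apply_rules (transparency := .reducible) (maxDepth := 999) only using is_poly
  · exact fun _ _ _ _ => Iff.rfl

/-- `Fop w` is a value of the operation, for a fixed selector -/
theorem fop_mem [ZFm M] {w u v : V} (hu : u ∈ M) (hv : v ∈ M) : Fop w u v ∈ M := by
  have huv : InM M ((u, v) : V × V) := inM_prod.2 ⟨inM_V.2 hu, hv⟩
  unfold Fop
  split_ifs
  · exact (DMap.diff (A := M) (DMap.fst (Γ := V × V) DMap.id) (DMap.snd DMap.id)).mem huv
  · exact (dmap_prod (A := M) (DMap.fst (Γ := V × V) DMap.id) (DMap.snd DMap.id)).mem huv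
  · exact (DMap.dom (A := M) (DMap.fst (Γ := V × V) DMap.id)).mem huv
  · exact (dmap_lift (A := M)).mem huv
  · exact (dmap_p2 (A := M)).mem huv
  · exact (dmap_e2 (A := M)).mem huv
  · exact (dmap_id (A := M)).mem huv
  · exact ZFm.upair_mem hu hv

theorem dmap_fop [ZFm M] {w f g : Γ → V} (hw : DMap A M w) (hf : DMap A M f)
    (hg : DMap A M g) : DMap A M (fun γ => Fop (w γ) (f γ) (g γ)) := by
  have h : DMap A M (fun p : (V × V) × V => Fop p.1.1 p.1.2 p.2) := by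
    refine DMap.of_graph (fun p hp => ?_) ?_
    · obtain ⟨h1, h2⟩ := inM_prod.1 hp
      obtain ⟨_, h3⟩ := inM_prod.1 h1
      exact fop_mem h3 h2
    · have : D0 (fun p : ((V × V) × V) × V => p.2 = Fop p.1.1.1 p.1.1.2 p.1.2) := by
        apply_rules (transparency := .reducible) (maxDepth := 999) only using is_poly
      exact this.dfn
  exact h.comp ((hw.prodMk hf).prodMk hg)

/-! ### Countable sets -/

theorem cbl_prod2 [ZFm M] {a b : V} (ha : Cbl M a) (hb : Cbl M b) : Cbl M (ZFSet.prod a b) := by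
  obtain ⟨f, hf, f1, f2, f3⟩ := ha
  obtain ⟨g, hg, g1, g2, g3⟩ := hb
  refine Cov.cbl_image (A := M) (H := fun p => ZFSet.pair (app f (Cov.fs p)) (app g (Cov.sn p)))
    Cov.cbl_prod ?_ ?_
  · apply_rules (transparency := .reducible) (maxDepth := 999) only [DMap.const hf hf,
      DMap.const hg hg, Cov.dmap_fs, Cov.dmap_sn] using is_poly
  · intro z hz
    obtain ⟨x, hx, y, hy, rfl⟩ := ZFSet.mem_prod.1 hz
    obtain ⟨m, hm⟩ := mem_ran.1 (f3 hx)
    obtain ⟨n, hn⟩ := mem_ran.1 (g3 hy)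
    refine mem_rep.2 ⟨ZFSet.pair m n, ZFSet.pair_mem_prod.2 ⟨?_, ?_⟩, ?_⟩
    · rw [← f2]
      exact mem_dom.2 ⟨_, hm⟩
    · rw [← g2]
      exact mem_dom.2 ⟨_, hn⟩
    · rw [Cov.fs_pair, Cov.sn_pair, f1.app_eq hm, g1.app_eq hn]

theorem cbl_union [ZFCm M] {a b : V} (ham : a ∈ M) (hbm : b ∈ M) (ha : Cbl M a) (hb : Cbl M b) :
    Cbl M (a ∪ b) := by
  classical
  have h := Cov.cbl_iUnion (M := M) (B := fun n => if n = ∅ then a else b) (by
    refine Cov.dmap_ite ?_ (DMap.const ham ham) (DMap.const hbm hbm)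
    apply_rules (transparency := .reducible) (maxDepth := 999) only using is_poly) (fun n _ => by
      by_cases h : n = ∅
      · simp only [h, if_true]
        exact ha
      · simp only [h, if_false]
        exact hb)
  refine Cov.cbl_mono (fun z hz => ?_) h
  rw [ZFSet.mem_sUnion]
  rcases ZFSet.mem_union.1 hz with hz | hz
  · exact ⟨a, mem_rep.2 ⟨nn 0, Cov.nn_mem 0, if_pos rfl⟩, hz⟩
  · exact ⟨b, mem_rep.2 ⟨nn 1, Cov.nn_mem 1, if_neg (Cov.nn_succ_ne 0)⟩, hz⟩

theorem cbl_sing [ZFm M] {a : V} (ha : a ∈ M) : Cbl M {a} := by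
  refine ⟨gr (fun _ => a) ZFSet.omega, Cov.gr_mem (A := M) (DMap.const ha ha) ZFm.omega_mem,
    Cov.isFn_gr _ _, Cov.dom_gr _ _, fun z hz => ?_⟩
  rw [ZFSet.mem_singleton] at hz
  subst hz
  exact Cov.mem_ran_gr.2 ⟨nn 0, Cov.nn_mem 0, rfl⟩

/-! ### The closure -/

/-- one step of the closure -/
noncomputable def stp (a : V) : V :=
  a ∪ rep (ZFSet.prod (ZFSet.prod a a) a) (fun p => Fop (Cov.fs (Cov.fs p)) (Cov.sn (Cov.fs p))
    (Cov.sn p))

theorem subset_stp (a : V) : a ⊆ stp a := fun _ h => ZFSet.mem_union.2 (Or.inl h)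

theorem fop_mem_stp {a w u v : V} (hw : w ∈ a) (hu : u ∈ a) (hv : v ∈ a) :
    Fop w u v ∈ stp a := by
  refine ZFSet.mem_union.2 (Or.inr (mem_rep.2 ⟨ZFSet.pair (ZFSet.pair w u) v, ?_, ?_⟩))
  · exact ZFSet.pair_mem_prod.2 ⟨ZFSet.pair_mem_prod.2 ⟨hw, hu⟩, hv⟩
  · rw [Cov.fs_pair, Cov.fs_pair, Cov.sn_pair, Cov.sn_pair]

theorem dmap_stp [ZFm M] {f : Γ → V} (hf : DMap A M f) : DMap A M (fun γ => stp (f γ)) := by
  have h : DMap A M (fun p : V => stp p) := by
    unfold stp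
    apply_rules (transparency := .reducible) (maxDepth := 999) only [dmap_prod, dmap_fop,
      Cov.dmap_fs, Cov.dmap_sn] using is_poly
  exact h.comp hf

theorem cbl_stp [ZFCm M] {a : V} (ha : a ∈ M) (h : Cbl M a) : Cbl M (stp a) := by
  have hd : DMap M M (fun p : V => Fop (Cov.fs (Cov.fs p)) (Cov.sn (Cov.fs p)) (Cov.sn p)) := by
    apply_rules (transparency := .reducible) (maxDepth := 999) only [dmap_fop,
      Cov.dmap_fs, Cov.dmap_sn] using is_poly
  have hp : ZFSet.prod (ZFSet.prod a a) a ∈ M := by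
    have : DMap M M (fun p : V => ZFSet.prod (ZFSet.prod p p) p) := by
      apply_rules (transparency := .reducible) (maxDepth := 999) only [dmap_prod] using is_poly
    exact this.mem (inM_V.2 ha)
  refine cbl_union ha (ZFm.rep_mem hd hp) h ?_
  exact Cov.cbl_image (cbl_prod2 (cbl_prod2 h h) h) hd (fun _ hz => hz)

end

theorem mono_of_rec {F : V → V} {B : V} {S : V → V}
    (hF : ∀ x z, z ∈ F x ↔ z ∈ B ∨ ∃ y ∈ x, z ∈ S (F y)) {x x' : V} (h : x ⊆ x') : F x ⊆ F x' := by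
  intro z hz
  rw [hF] at hz ⊢
  rcases hz with hz | ⟨y, hy, hz⟩
  · exact Or.inl hz
  · exact Or.inr ⟨y, h hy, hz⟩

theorem nn_subset_succ (n : ℕ) : nn n ⊆ nn (n + 1) := fun _ h => ZFSet.mem_insert_of_mem _ h

theorem nn_mono {m n : ℕ} (h : m ≤ n) : nn m ⊆ nn n := by
  induction h with
  | refl => exact fun _ h => h
  | step _ ih => exact fun _ hz => nn_subset_succ _ (ih hz)

end Fam

open Fam in
/-- **Module FAM.** -/
theorem stmt_family : Stmt_family := by
  intro N _ U hU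
  set B : V := {∅, U} with hB
  have hBN : B ∈ N := ZFm.upair_mem ZFm.empty_mem hU
  set H : V → V → V := fun x g => B ∪ ZFSet.sUnion (rep x (fun y => stp (app g y))) with hH
  obtain ⟨F, hF⟩ := Cov.exists_rec (fun x => x) H (· ∈ ·) ZFSet.mem_wf (fun _ _ h => h)
  have hF' : ∀ x z, z ∈ F x ↔ z ∈ B ∨ ∃ y ∈ x, z ∈ stp (F y) := by
    intro x z
    rw [hF x, hH]
    simp only [ZFSet.mem_union, ZFSet.mem_sUnion]
    refine or_congr Iff.rfl ?_
    constructor
    · rintro ⟨s, hs, hz⟩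
      obtain ⟨y, hy, rfl⟩ := mem_rep.1 hs
      rw [Cov.app_gr _ hy] at hz
      exact ⟨y, hy, hz⟩
    · rintro ⟨y, hy, hz⟩
      refine ⟨_, mem_rep.2 ⟨y, hy, rfl⟩, ?_⟩
      rw [Cov.app_gr _ hy]
      exact hz
  have hHd : DMap N N (fun p : V × V => H p.1 p.2) := by
    rw [hH]
    apply_rules (transparency := .reducible) (maxDepth := 999) only [DMap.const hBN hBN,
      dmap_stp] using is_poly
  have hFd : DMap N N F := DMap.recMem hHd (fun x _ => hF x)
  have hmono : ∀ {m n : ℕ}, m ≤ n → F (nn m) ⊆ F (nn n) := fun h => mono_of_rec hF' (nn_mono h)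
  have hstep : ∀ n : ℕ, stp (F (nn n)) ⊆ F (nn (n + 1)) := fun n z hz =>
    (hF' _ _).2 (Or.inr ⟨nn n, Cov.nn_mem_succ n, hz⟩)
  have hstep' : ∀ n : ℕ, F (nn (n + 1)) ⊆ stp (F (nn n)) := by
    intro n z hz
    rcases (hF' _ _).1 hz with hz | ⟨y, hy, hz⟩
    · exact Fam.subset_stp _ ((hF' _ _).2 (Or.inl hz))
    · have hy : y ∈ (insert (nn n) (nn n) : V) := hy
      rcases ZFSet.mem_insert_iff.1 hy with rfl | hy
      · exact hz
      · exact Fam.subset_stp _ ((hF' _ _).2 (Or.inr ⟨y, hy, hz⟩))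
  set D : V := ZFSet.sUnion (rep ZFSet.omega F) with hD
  have hDN : D ∈ N := ZFm.sUnion_mem (ZFm.rep_mem hFd ZFm.omega_mem)
  have hFN : ∀ n : ℕ, F (nn n) ∈ N := fun n =>
    hFd.mem (inM_V.2 (TrC.trans ZFm.omega_mem (Cov.nn_mem n)))
  have memD : ∀ z, z ∈ D ↔ ∃ n : ℕ, z ∈ F (nn n) := by
    intro z
    rw [hD, ZFSet.mem_sUnion]
    constructor
    · rintro ⟨s, hs, hz⟩
      obtain ⟨y, hy, rfl⟩ := mem_rep.1 hs
      obtain ⟨n, rfl⟩ := Cov.mem_omega.1 hy
      exact ⟨n, hz⟩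
    · rintro ⟨n, hz⟩
      exact ⟨_, mem_rep.2 ⟨nn n, Cov.nn_mem n, rfl⟩, hz⟩
  have hcbl : ∀ n : ℕ, Cbl N (F (nn n)) := by
    intro n
    induction n with
    | zero =>
      have h0 : F (nn 0) ⊆ {∅} ∪ {U} := by
        intro z hz
        rcases (hF' _ _).1 hz with hz | ⟨y, hy, _⟩
        · rw [hB, ZFSet.mem_pair] at hz
          rw [ZFSet.mem_union, ZFSet.mem_singleton, ZFSet.mem_singleton]
          exact hz
        · exact (ZFSet.notMem_empty y hy).elim
      refine Cov.cbl_mono h0 (cbl_union ?_ ?_ (cbl_sing ZFm.empty_mem) (cbl_sing hU))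
      · have := ZFm.upair_mem (M := N) ZFm.empty_mem ZFm.empty_mem
        rwa [ZFSet.pair_eq_singleton] at this
      · have := ZFm.upair_mem hU hU
        rwa [ZFSet.pair_eq_singleton] at this
    | succ n ih => exact Cov.cbl_mono (hstep' n) (cbl_stp (hFN n) ih)
  have hFC : FC {z : V | z ∈ D} := by
    refine ⟨(memD _).2 ⟨0, (hF' _ _).2 (Or.inl (by rw [hB]; simp))⟩, ?_⟩
    intro w u v hw hu hv
    obtain ⟨a, hw⟩ := (memD w).1 hw
    obtain ⟨b, hu⟩ := (memD u).1 hu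
    obtain ⟨c, hv⟩ := (memD v).1 hv
    refine (memD _).2 ⟨max (max a b) c + 1, hstep _ (fop_mem_stp ?_ ?_ ?_)⟩
    · exact hmono ((le_max_left _ _).trans (le_max_left _ _)) hw
    · exact hmono ((le_max_right _ _).trans (le_max_left _ _)) hu
    · exact hmono (le_max_right _ _) hv
  have hUD : U ∈ {z : V | z ∈ D} := (memD _).2 ⟨0, (hF' _ _).2 (Or.inl (by rw [hB]; simp))⟩
  refine ⟨D, hDN, Cov.cbl_iUnion hFd (fun n hn => ?_), fun P hP => ?_⟩
  · obtain ⟨m, rfl⟩ := Cov.mem_omega.1 hn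
    exact hcbl m
  · obtain ⟨φ, hφ⟩ := hP
    have key := hFC.ext_mem (K := (∅ ∩ {x : V | x ∈ U} : Set V)) (fun a => a.1)
      (fun k => (k.2.1 : k.1 ∈ (∅ : Set V)).elim) hUD φ U hUD (fun _ s => s) (fun _ => by
        have : gr (fun s => s) U = opId U := by
          ext p
          rw [mem_gr, mem_opId]
          constructor
          · rintro ⟨a, ha, rfl⟩
            exact ⟨a, ha, rfl⟩
          · rintro ⟨a, ha, rfl⟩
            exact ⟨a, ha, rfl⟩
        rw [this]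
        exact hFC.opid hUD)
    have e : ZFSet.sep P U = ZFSet.sep (fun s => φ.Sat (U : Set V) (fun x y => x ∈ y)
        (fun a : (∅ ∩ {x : V | x ∈ U} : Set V) => a.1) (fun _ => s)) U := by
      ext z
      rw [ZFSet.mem_sep, ZFSet.mem_sep]
      refine and_congr_right fun hz => ?_
      exact (hφ (fun _ => z) (fun _ => hz)).symm
    rw [e]
    exact key

end Pool.Agent.CTM
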