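import Pool.Agent.CTM.StmtsF

/-!
Module GEN: generic filters over countable classes exist.
-/

set_option autoImplicit false

namespace Pool.Agent.CTM

namespace GenPf

/-- One step: an extension of `p` in `D`, if there is one. -/
noncomputable def step (D p : V) : V :=
  open Classical in if h : ∃ q ∈ D, p ⊆ q then h.choose else p

theorem step_sub (D p : V) : p ⊆ step D p := by
  unfold step
  split
  · rename_i h
    exact h.choose_spec.2
  · exact fun _ h => h

theorem step_mem {D p : V} (h : ∃ q ∈ D, p ⊆ q) : step D p ∈ D := by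
  unfold step
  rw [dif_pos h]
  exact h.choose_spec.1

/-- The sequence of conditions: at step `n`, enter `e n` if `e n` is a dense subset of `P`. -/
noncomputable def seq (e : ℕ → V) (P p : V) : ℕ → V
  | 0 => p
  | n + 1 => open Classical in if DenseIn P (e n) then step (e n) (seq e P p n) else seq e P p n

variable {e : ℕ → V} {P p : V}

theorem seq_mem (hp : p ∈ P) : ∀ n, seq e P p n ∈ P
  | 0 => hp
  | n + 1 => by
    have ih := seq_mem hp n
    rw [seq]
    split
    · rename_i h
      exact h.1 (step_mem (h.2 _ ih))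
    · exact ih

theorem seq_succ (n : ℕ) : seq e P p n ⊆ seq e P p (n + 1) := by
  rw [seq]
  split
  · exact step_sub _ _
  · exact fun _ h => h

theorem seq_mono {m n : ℕ} (h : m ≤ n) : seq e P p m ⊆ seq e P p n := by
  induction n, h using Nat.le_induction with
  | base => exact fun _ h => h
  | succ n _ ih => exact fun _ h => seq_succ n (ih h)

theorem seq_meets (hp : p ∈ P) {n : ℕ} (h : DenseIn P (e n)) : seq e P p (n + 1) ∈ e n := by
  rw [seq, if_pos h]
  exact step_mem (h.2 _ (seq_mem hp n))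

end GenPf

open GenPf in
/-- **Module GEN.** Existence of generic filters over countable classes. -/
theorem stmt_generic : Stmt_generic := by
  intro M hM P hP p hp h0
  obtain ⟨e, rfl⟩ := hM.exists_eq_range ⟨P, hP⟩
  refine ⟨ZFSet.sep (fun q => ∃ n, q ⊆ seq e P p n) P, ?_, ?_⟩
  · have hs : ∀ n, seq e P p n ∈ ZFSet.sep (fun q => ∃ n, q ⊆ seq e P p n) P := fun n =>
      ZFSet.mem_sep.2 ⟨seq_mem hp n, n, fun _ h => h⟩
    refine ⟨?_, ?_, ?_, ?_, ?_⟩
    · exact fun q hq => (ZFSet.mem_sep.1 hq).1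
    · exact ZFSet.mem_sep.2 ⟨h0, 0, fun x hx => absurd hx (ZFSet.notMem_empty x)⟩
    · intro q hq r hr hrq
      obtain ⟨n, hn⟩ := (ZFSet.mem_sep.1 hq).2
      exact ZFSet.mem_sep.2 ⟨hr, n, fun x hx => hn (hrq hx)⟩
    · intro q hq r hr
      obtain ⟨m, hm⟩ := (ZFSet.mem_sep.1 hq).2
      obtain ⟨n, hn⟩ := (ZFSet.mem_sep.1 hr).2
      exact ⟨_, hs (max m n), fun x hx => seq_mono (le_max_left m n) (hm hx),
        fun x hx => seq_mono (le_max_right m n) (hn hx)⟩
    · rintro _ ⟨n, rfl⟩ hD
      exact ⟨_, seq_meets hp hD, hs (n + 1)⟩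
  · exact ZFSet.mem_sep.2 ⟨hp, 0, fun _ h => h⟩

end Pool.Agent.CTM
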