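import Pool.Agent.CTM.StmtsF
import Pool.Agent.CTM.Gen
import Pool.Agent.CTM.Chk

/-!
The forcing theorem (MP_ea2134_lc, module FRC): the forcing relation is definable in the ground
model and everything true in the extension is forced.
-/

set_option autoImplicit false

namespace Pool.Agent.CTM

namespace FrcPf

/-! ### The recursion for equality -/

/-- The recursion step for `p ⊩ σ = τ`. -/
def Step (P : V) (X : V → V → V → Prop) (σ τ p : V) : Prop :=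
  (∀ ρ ∈ dom σ, ∀ s ∈ P, ZFSet.pair ρ s ∈ σ → ∀ q ∈ P, p ⊆ q → s ⊆ q → ∃ r ∈ P, q ⊆ r ∧
      ∃ π ∈ dom τ, ∃ t ∈ P, ZFSet.pair π t ∈ τ ∧ t ⊆ r ∧ X ρ π r) ∧
  (∀ π ∈ dom τ, ∀ t ∈ P, ZFSet.pair π t ∈ τ → ∀ q ∈ P, p ⊆ q → t ⊆ q → ∃ r ∈ P, q ⊆ r ∧
      ∃ ρ ∈ dom σ, ∃ s ∈ P, ZFSet.pair ρ s ∈ σ ∧ s ⊆ r ∧ X ρ π r)

/-- `p ⊩ σ = τ`. -/
def FE (P : V) (σ τ p : V) : Prop :=
  (∀ ρ, (_h : ρ ∈ dom σ) → ∀ s ∈ P, ZFSet.pair ρ s ∈ σ → ∀ q ∈ P, p ⊆ q → s ⊆ q → ∃ r ∈ P, q ⊆ r ∧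
      ∃ π ∈ dom τ, ∃ t ∈ P, ZFSet.pair π t ∈ τ ∧ t ⊆ r ∧ FE P ρ π r) ∧
  (∀ π ∈ dom τ, ∀ t ∈ P, ZFSet.pair π t ∈ τ → ∀ q ∈ P, p ⊆ q → t ⊆ q → ∃ r ∈ P, q ⊆ r ∧
      ∃ ρ, ∃ _h : ρ ∈ dom σ, ∃ s ∈ P, ZFSet.pair ρ s ∈ σ ∧ s ⊆ r ∧ FE P ρ π r)
termination_by ZFSet.rank σ
decreasing_by all_goals exact dom_wf _h

theorem FE_eq (P σ τ p : V) : FE P σ τ p ↔ Step P (FE P) σ τ p := by
  rw [FE, Step]
  simp only [exists_prop]

theorem Step.congr {P : V} {X Y : V → V → V → Prop} {σ τ : V}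
    (h : ∀ ρ ∈ dom σ, ∀ π ∈ dom τ, ∀ r ∈ P, (X ρ π r ↔ Y ρ π r)) (p : V) :
    Step P X σ τ p ↔ Step P Y σ τ p := by
  unfold Step
  refine and_congr ?_ ?_
  · refine forall_congr' fun ρ => forall_congr' fun hρ => forall_congr' fun s =>
      forall_congr' fun _ => forall_congr' fun _ => forall_congr' fun q => forall_congr' fun _ =>
      forall_congr' fun _ => forall_congr' fun _ => exists_congr fun r => and_congr_right fun hr =>
      and_congr_right fun _ => exists_congr fun π => and_congr_right fun hπ =>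
      exists_congr fun t => and_congr_right fun _ => and_congr_right fun _ =>
      and_congr_right fun _ => h ρ hρ π hπ r hr
  · refine forall_congr' fun π => forall_congr' fun hπ => forall_congr' fun s =>
      forall_congr' fun _ => forall_congr' fun _ => forall_congr' fun q => forall_congr' fun _ =>
      forall_congr' fun _ => forall_congr' fun _ => exists_congr fun r => and_congr_right fun hr =>
      and_congr_right fun _ => exists_congr fun ρ => and_congr_right fun hρ =>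
      exists_congr fun t => and_congr_right fun _ => and_congr_right fun _ =>
      and_congr_right fun _ => h ρ hρ π hπ r hr

theorem FE.mono {P σ τ p q : V} (h : FE P σ τ p) (hpq : p ⊆ q) : FE P σ τ q := by
  rw [FE_eq] at h ⊢
  exact ⟨fun ρ hρ s hs h1 q' hq' h2 h3 => h.1 ρ hρ s hs h1 q' hq' (fun _ hx => h2 (hpq hx)) h3,
    fun π hπ t ht h1 q' hq' h2 h3 => h.2 π hπ t ht h1 q' hq' (fun _ hx => h2 (hpq hx)) h3⟩

theorem FE.dense {P σ τ p : V} (h : ∀ q ∈ P, p ⊆ q → ∃ r ∈ P, q ⊆ r ∧ FE P σ τ r) :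
    FE P σ τ p := by
  rw [FE_eq]
  constructor
  · intro ρ hρ s hs h1 q hq h2 h3
    obtain ⟨q', hq', h4, h5⟩ := h q hq h2
    rw [FE_eq] at h5
    obtain ⟨r, hr, h6, h7⟩ := h5.1 ρ hρ s hs h1 q' hq' (fun _ hx => hx) (fun _ hx => h4 (h3 hx))
    exact ⟨r, hr, fun _ hx => h6 (h4 hx), h7⟩
  · intro π hπ t ht h1 q hq h2 h3
    obtain ⟨q', hq', h4, h5⟩ := h q hq h2
    rw [FE_eq] at h5
    obtain ⟨r, hr, h6, h7⟩ := h5.2 π hπ t ht h1 q' hq' (fun _ hx => hx) (fun _ hx => h4 (h3 hx))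
    exact ⟨r, hr, fun _ hx => h6 (h4 hx), h7⟩

/-- `p ⊩ σ ∈ τ`. -/
def FM (P : V) (σ τ p : V) : Prop :=
  ∀ q ∈ P, p ⊆ q → ∃ r ∈ P, q ⊆ r ∧
    ∃ π ∈ dom τ, ∃ t ∈ P, ZFSet.pair π t ∈ τ ∧ t ⊆ r ∧ FE P σ π r

theorem FM.mono {P σ τ p q : V} (h : FM P σ τ p) (hpq : p ⊆ q) : FM P σ τ q :=
  fun q' hq' h2 => h q' hq' (fun _ hx => h2 (hpq hx))

theorem FM.dense {P σ τ p : V} (h : ∀ q ∈ P, p ⊆ q → ∃ r ∈ P, q ⊆ r ∧ FM P σ τ r) :
    FM P σ τ p := by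
  intro q hq h2
  obtain ⟨q', hq', h4, h5⟩ := h q hq h2
  obtain ⟨r, hr, h6, h7⟩ := h5 q' hq' (fun _ hx => hx)
  exact ⟨r, hr, fun _ hx => h6 (h4 hx), h7⟩

/-! ### Definability -/

/-- The set of the conditions that force `σ = τ`, as a function of `x = (σ, τ)`. -/
noncomputable def EF (P : V) (x : V) : V :=
  ZFSet.sep (fun p => ∃ σ ∈ (ZFSet.sUnion x : V), ∃ τ ∈ (ZFSet.sUnion x : V), x = ZFSet.pair σ τ ∧
    FE P σ τ p) P

theorem mem_sU_left {σ τ : V} : σ ∈ (ZFSet.sUnion (ZFSet.pair σ τ) : V) := by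
  rw [ZFSet.mem_sUnion]
  exact ⟨{σ, τ}, by simp [ZFSet.pair], by simp⟩

theorem mem_sU_right {σ τ : V} : τ ∈ (ZFSet.sUnion (ZFSet.pair σ τ) : V) := by
  rw [ZFSet.mem_sUnion]
  exact ⟨{σ, τ}, by simp [ZFSet.pair], by simp⟩

theorem mem_EF {P σ τ p : V} : p ∈ EF P (ZFSet.pair σ τ) ↔ p ∈ P ∧ FE P σ τ p := by
  unfold EF
  rw [ZFSet.mem_sep]
  refine and_congr_right fun _ => ?_
  constructor
  · rintro ⟨σ', _, τ', _, e, h⟩
    obtain ⟨rfl, rfl⟩ := ZFSet.pair_injective e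
    exact h
  · intro h
    exact ⟨σ, mem_sU_left, τ, mem_sU_right, rfl, h⟩

/-- The recursion step. -/
noncomputable def HF (P : V) (x g : V) : V :=
  ZFSet.sep (fun p => ∃ σ ∈ (ZFSet.sUnion x : V), ∃ τ ∈ (ZFSet.sUnion x : V), x = ZFSet.pair σ τ ∧
    Step P (fun ρ π r => r ∈ app g (ZFSet.pair ρ π)) σ τ p) P

/-- A set that contains the components of the elements of the components of `x`. -/
noncomputable def U4 (x : V) : V :=
  ZFSet.sUnion (ZFSet.sUnion (ZFSet.sUnion (ZFSet.sUnion x : V) : V) : V)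

/-- All pairs of elements of `U4 x`. -/
noncomputable def DD (x : V) : V :=
  ZFSet.sUnion (rep (U4 x) (fun a => rep (U4 x) (fun b => ZFSet.pair a b)))

theorem mem_DD {x z : V} : z ∈ DD x ↔ ∃ a ∈ U4 x, ∃ b ∈ U4 x, z = ZFSet.pair a b := by
  unfold DD
  rw [ZFSet.mem_sUnion]
  constructor
  · rintro ⟨y, hy, hz⟩
    obtain ⟨a, ha, rfl⟩ := mem_rep.1 hy
    obtain ⟨b, hb, rfl⟩ := mem_rep.1 hz
    exact ⟨a, ha, b, hb, rfl⟩
  · rintro ⟨a, ha, b, hb, rfl⟩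
    exact ⟨_, mem_rep.2 ⟨a, ha, rfl⟩, mem_rep.2 ⟨b, hb, rfl⟩⟩

theorem rank_U4 {x a : V} (h : a ∈ U4 x) : Order.succ (Order.succ (ZFSet.rank a)) < ZFSet.rank x := by
  unfold U4 at h
  simp only [ZFSet.mem_sUnion] at h
  obtain ⟨u, ⟨v, ⟨w, ⟨z, hz, hw⟩, hv⟩, hu⟩, ha⟩ := h
  have h1 := ZFSet.rank_lt_of_mem ha
  have h2 := ZFSet.rank_lt_of_mem hu
  have h3 := ZFSet.rank_lt_of_mem hv
  have h4 := ZFSet.rank_lt_of_mem hw
  have h5 := ZFSet.rank_lt_of_mem hz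
  have h6 : Order.succ (ZFSet.rank a) < ZFSet.rank v :=
    (Order.succ_le_of_lt h1).trans_lt h2
  have h7 : Order.succ (Order.succ (ZFSet.rank a)) < ZFSet.rank w :=
    (Order.succ_le_of_lt h6).trans_lt h3
  exact h7.trans (h4.trans h5)

theorem DD_wf {x y : V} (h : y ∈ DD x) : ZFSet.rank y < ZFSet.rank x := by
  obtain ⟨a, ha, b, hb, rfl⟩ := mem_DD.1 h
  have h1 := rank_U4 ha
  have h2 := rank_U4 hb
  have e : ZFSet.rank (ZFSet.pair a b) =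
      Order.succ (max (Order.succ (ZFSet.rank a)) (Order.succ (ZFSet.rank b))) := by
    unfold ZFSet.pair
    rw [ZFSet.rank_pair, ZFSet.rank_pair, ZFSet.rank_singleton]
    rw [max_eq_right]
    exact Order.succ_le_succ (le_max_left _ _)
  rw [e, Order.succ_max]
  exact max_lt h1 h2

theorem mem_U4_left {σ τ ρ : V} (h : ρ ∈ dom σ) : ρ ∈ U4 (ZFSet.pair σ τ) := by
  obtain ⟨s, h⟩ := mem_dom.1 h
  unfold U4
  rw [ZFSet.mem_sUnion]
  refine ⟨{ρ}, ?_, by simp⟩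
  rw [ZFSet.mem_sUnion]
  refine ⟨ZFSet.pair ρ s, ?_, by simp [ZFSet.pair]⟩
  rw [ZFSet.mem_sUnion]
  exact ⟨σ, mem_sU_left, h⟩

theorem mem_U4_right {σ τ ρ : V} (h : ρ ∈ dom τ) : ρ ∈ U4 (ZFSet.pair σ τ) := by
  obtain ⟨s, h⟩ := mem_dom.1 h
  unfold U4
  rw [ZFSet.mem_sUnion]
  refine ⟨{ρ}, ?_, by simp⟩
  rw [ZFSet.mem_sUnion]
  refine ⟨ZFSet.pair ρ s, ?_, by simp [ZFSet.pair]⟩
  rw [ZFSet.mem_sUnion]
  exact ⟨τ, mem_sU_right, h⟩

theorem EF_rec (P x : V) : EF P x = HF P x (gr (EF P) (DD x)) := by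
  unfold HF
  ext p
  conv_lhs => rw [EF]
  rw [ZFSet.mem_sep, ZFSet.mem_sep]
  refine and_congr_right fun _ => exists_congr fun σ => and_congr_right fun _ =>
    exists_congr fun τ => and_congr_right fun _ => and_congr_right fun e => ?_
  rw [FE_eq]
  refine Step.congr (fun ρ hρ π hπ r hr => ?_) p
  rw [Chk.app_gr, mem_EF]
  · simp [hr]
  · rw [e]
    exact mem_DD.2 ⟨ρ, mem_U4_left hρ, π, mem_U4_right hπ, rfl⟩

section

variable {M : Set V} [ZFm M]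

theorem dmap_EF {P : V} (hP : P ∈ M) : DMap M M (EF P) := by
  have hc : ∀ {Γ : Type 1} [Ctx Γ], DMap M M (fun _ : Γ => P) := DMap.const hP hP
  refine DMap.recV (D := DD) (H := HF P) ?_ ?_ (fun x _ => EF_rec P x)
    (fun y x => ZFSet.rank y < ZFSet.rank x) (InvImage.wf ZFSet.rank Ordinal.lt_wf)
    (fun x _ y hy => DD_wf hy)
  · unfold DD U4
    apply_rules (transparency := .reducible) (maxDepth := 999) only using is_poly
  · unfold HF Step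
    apply_rules (transparency := .reducible) (maxDepth := 999) only [hc] using is_poly

/-- A definable property that is dense below an element of `G` holds at an element of `G`. -/
theorem meets_below {P G p : V} (hP : P ∈ M) (hG : Generic M P G) (hp : p ∈ G) {Q : V → Prop}
    (hQ : Dfn M M Q) (h : ∀ q ∈ P, p ⊆ q → ∃ r ∈ P, q ⊆ r ∧ Q r) : ∃ r ∈ G, p ⊆ r ∧ Q r := by
  have hpM : p ∈ M := TrC.trans hP (hG.sub hp)
  have hcP : ∀ {Γ : Type 1} [Ctx Γ], DMap M M (fun _ : Γ => P) := DMap.const hP hP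
  have hcp : ∀ {Γ : Type 1} [Ctx Γ], DMap M M (fun _ : Γ => p) := DMap.const hpM hpM
  have hQ' : ∀ {Γ : Type 1} [Ctx Γ] {f : Γ → V}, DMap M M f → Dfn M M (fun γ => Q (f γ)) :=
    fun h => hQ.comp h
  have hD : Dfn M M (fun r : V => (p ⊆ r ∧ Q r) ∨ ∀ r' ∈ P, ¬ (p ⊆ r' ∧ r ⊆ r')) := by
    apply_rules (transparency := .reducible) (maxDepth := 999) only [hcP, hcp, hQ'] using is_poly
  obtain ⟨r, hr, hrG⟩ := hG.meets _ (ZFm.sep_mem hD hP) ⟨fun r hr => (ZFSet.mem_sep.1 hr).1, by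
    intro q hq
    by_cases h1 : ∃ r' ∈ P, p ⊆ r' ∧ q ⊆ r'
    · obtain ⟨r', hr', h2, h3⟩ := h1
      obtain ⟨r, hr, h4, h5⟩ := h r' hr' h2
      exact ⟨r, ZFSet.mem_sep.2 ⟨hr, Or.inl ⟨fun _ hx => h4 (h2 hx), h5⟩⟩, fun _ hx => h4 (h3 hx)⟩
    · push Not at h1
      exact ⟨q, ZFSet.mem_sep.2 ⟨hq, Or.inr fun r' hr' h2 => h1 r' hr' h2.1 h2.2⟩, fun _ hx => hx⟩⟩
  rcases (ZFSet.mem_sep.1 hr).2 with h1 | h1
  · exact ⟨r, hrG, h1⟩
  · obtain ⟨r', hr', h2, h3⟩ := hG.dir p hp r hrG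
    exact absurd ⟨h2, h3⟩ (h1 r' (hG.sub hr'))

/-- The truth lemma for equality. -/
theorem truth_eq {P G : V} (hP : P ∈ M) (hG : Generic M P G) (σ : V) : σ ∈ M → ∀ τ ∈ M,
    (val G σ = val G τ ↔ ∃ p ∈ G, FE P σ τ p) := by
  have hcP : ∀ {Γ : Type 1} [Ctx Γ], DMap M M (fun _ : Γ => P) := DMap.const hP hP
  have hEF : ∀ {Γ : Type 1} [Ctx Γ] {f : Γ → V}, DMap M M f → DMap M M (fun γ => EF P (f γ)) :=
    fun h => (dmap_EF hP).comp h
  induction σ using (InvImage.wf ZFSet.rank Ordinal.lt_wf).induction with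
  | _ σ ih =>
  intro hσ τ hτ
  have hdM : ∀ {x y : V}, x ∈ M → y ∈ dom x → y ∈ M := by
    intro x y hx hy
    obtain ⟨z, hz⟩ := mem_dom.1 hy
    exact (pair_mem_iff.1 (TrC.trans hx hz)).1
  have hcσ : ∀ {Γ : Type 1} [Ctx Γ], DMap M M (fun _ : Γ => σ) := DMap.const hσ hσ
  have hcτ : ∀ {Γ : Type 1} [Ctx Γ], DMap M M (fun _ : Γ => τ) := DMap.const hτ hτ
  constructor
  · intro he
    have hD : Dfn M M (fun p : V => p ∈ EF P (ZFSet.pair σ τ) ∨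
        (∃ ρ ∈ dom σ, ∃ s ∈ P, ZFSet.pair ρ s ∈ σ ∧ s ⊆ p ∧ ∀ r ∈ P, p ⊆ r → ¬ ∃ π ∈ dom τ,
          ∃ t ∈ P, ZFSet.pair π t ∈ τ ∧ t ⊆ r ∧ r ∈ EF P (ZFSet.pair ρ π)) ∨
        (∃ π ∈ dom τ, ∃ t ∈ P, ZFSet.pair π t ∈ τ ∧ t ⊆ p ∧ ∀ r ∈ P, p ⊆ r → ¬ ∃ ρ ∈ dom σ,
          ∃ s ∈ P, ZFSet.pair ρ s ∈ σ ∧ s ⊆ r ∧ r ∈ EF P (ZFSet.pair ρ π))) := by
      apply_rules (transparency := .reducible) (maxDepth := 999) only [hcP, hcσ, hcτ, hEF] using is_poly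
    obtain ⟨p, hp, hpG⟩ := hG.meets _ (ZFm.sep_mem hD hP) ⟨fun r hr => (ZFSet.mem_sep.1 hr).1, by
      intro p hp
      by_cases h1 : FE P σ τ p
      · exact ⟨p, ZFSet.mem_sep.2 ⟨hp, Or.inl (mem_EF.2 ⟨hp, h1⟩)⟩, fun _ hx => hx⟩
      · rw [FE_eq, Step, not_and_or] at h1
        rcases h1 with h1 | h1
        · push Not at h1
          obtain ⟨ρ, hρ, s, hs, h2, q, hq, h3, h4, h5⟩ := h1
          refine ⟨q, ZFSet.mem_sep.2 ⟨hq, Or.inr (Or.inl ⟨ρ, hρ, s, hs, h2, h4, ?_⟩)⟩, h3⟩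
          rintro r hr h6 ⟨π, hπ, t, ht, h7, h8, h9⟩
          exact h5 r hr h6 π hπ t ht h7 h8 (mem_EF.1 h9).2
        · push Not at h1
          obtain ⟨π, hπ, t, ht, h2, q, hq, h3, h4, h5⟩ := h1
          refine ⟨q, ZFSet.mem_sep.2 ⟨hq, Or.inr (Or.inr ⟨π, hπ, t, ht, h2, h4, ?_⟩)⟩, h3⟩
          rintro r hr h6 ⟨ρ, hρ, s, hs, h7, h8, h9⟩
          exact h5 r hr h6 ρ hρ s hs h7 h8 (mem_EF.1 h9).2⟩
    rcases (ZFSet.mem_sep.1 hp).2 with h1 | h1 | h1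
    · exact ⟨p, hpG, (mem_EF.1 h1).2⟩
    · obtain ⟨ρ, hρ, s, hs, h2, h3, h4⟩ := h1
      have h5 : val G ρ ∈ val G σ := mem_val.2 ⟨ρ, s, hG.down p hpG s hs h3, h2, rfl⟩
      rw [he] at h5
      obtain ⟨π, t, ht, h6, h7⟩ := mem_val.1 h5
      have hπ : π ∈ dom τ := mem_dom.2 ⟨t, h6⟩
      obtain ⟨p', hp', h8⟩ := (ih ρ (dom_wf hρ) (hdM hσ hρ) π (hdM hτ hπ)).1 h7
      obtain ⟨r1, hr1, h9, h10⟩ := hG.dir p hpG p' hp'
      obtain ⟨r, hr, h11, h12⟩ := hG.dir r1 hr1 t ht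
      refine absurd ⟨π, hπ, t, hG.sub ht, h6, h12, mem_EF.2 ⟨hG.sub hr, ?_⟩⟩
        (h4 r (hG.sub hr) (fun _ hx => h11 (h9 hx)))
      exact h8.mono fun _ hx => h11 (h10 hx)
    · obtain ⟨π, hπ, t, ht, h2, h3, h4⟩ := h1
      have h5 : val G π ∈ val G τ := mem_val.2 ⟨π, t, hG.down p hpG t ht h3, h2, rfl⟩
      rw [← he] at h5
      obtain ⟨ρ, s, hs, h6, h7⟩ := mem_val.1 h5
      have hρ : ρ ∈ dom σ := mem_dom.2 ⟨s, h6⟩
      obtain ⟨p', hp', h8⟩ := (ih ρ (dom_wf hρ) (hdM hσ hρ) π (hdM hτ hπ)).1 h7.symm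
      obtain ⟨r1, hr1, h9, h10⟩ := hG.dir p hpG p' hp'
      obtain ⟨r, hr, h11, h12⟩ := hG.dir r1 hr1 s hs
      refine absurd ⟨ρ, hρ, s, hG.sub hs, h6, h12, mem_EF.2 ⟨hG.sub hr, ?_⟩⟩
        (h4 r (hG.sub hr) (fun _ hx => h11 (h9 hx)))
      exact h8.mono fun _ hx => h11 (h10 hx)
  · rintro ⟨p, hp, h⟩
    rw [FE_eq] at h
    ext x
    constructor
    · intro hx
      obtain ⟨ρ, s, hs, h1, rfl⟩ := mem_val.1 hx
      have hρ : ρ ∈ dom σ := mem_dom.2 ⟨s, h1⟩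
      have hρM := hdM hσ hρ
      have hcρ : ∀ {Γ : Type 1} [Ctx Γ], DMap M M (fun _ : Γ => ρ) := DMap.const hρM hρM
      obtain ⟨p', hp', h2, h3⟩ := hG.dir p hp s hs
      have hQ : Dfn M M (fun r : V => ∃ π ∈ dom τ, ∃ t ∈ P, ZFSet.pair π t ∈ τ ∧ t ⊆ r ∧
          r ∈ EF P (ZFSet.pair ρ π)) := by
        apply_rules (transparency := .reducible) (maxDepth := 999) only [hcP, hcτ, hcρ, hEF] using is_poly
      obtain ⟨r, hr, _, π, hπ, t, ht, h4, h5, h6⟩ := meets_below hP hG hp' hQ (by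
        intro q hq h4
        obtain ⟨r, hr, h5, π, hπ, t, ht, h6, h7, h8⟩ := h.1 ρ hρ s (hG.sub hs) h1 q hq
          (fun _ hx => h4 (h2 hx)) (fun _ hx => h4 (h3 hx))
        exact ⟨r, hr, h5, π, hπ, t, ht, h6, h7, mem_EF.2 ⟨hr, h8⟩⟩)
      rw [(ih ρ (dom_wf hρ) hρM π (hdM hτ hπ)).2 ⟨r, hr, (mem_EF.1 h6).2⟩]
      exact mem_val.2 ⟨π, t, hG.down r hr t ht h5, h4, rfl⟩
    · intro hx
      obtain ⟨π, t, ht, h1, rfl⟩ := mem_val.1 hx
      have hπ : π ∈ dom τ := mem_dom.2 ⟨t, h1⟩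
      have hπM := hdM hτ hπ
      have hcπ : ∀ {Γ : Type 1} [Ctx Γ], DMap M M (fun _ : Γ => π) := DMap.const hπM hπM
      obtain ⟨p', hp', h2, h3⟩ := hG.dir p hp t ht
      have hQ : Dfn M M (fun r : V => ∃ ρ ∈ dom σ, ∃ s ∈ P, ZFSet.pair ρ s ∈ σ ∧ s ⊆ r ∧
          r ∈ EF P (ZFSet.pair ρ π)) := by
        apply_rules (transparency := .reducible) (maxDepth := 999) only [hcP, hcσ, hcπ, hEF] using is_poly
      obtain ⟨r, hr, _, ρ, hρ, s, hs, h4, h5, h6⟩ := meets_below hP hG hp' hQ (by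
        intro q hq h4
        obtain ⟨r, hr, h5, ρ, hρ, s, hs, h6, h7, h8⟩ := h.2 π hπ t (hG.sub ht) h1 q hq
          (fun _ hx => h4 (h2 hx)) (fun _ hx => h4 (h3 hx))
        exact ⟨r, hr, h5, ρ, hρ, s, hs, h6, h7, mem_EF.2 ⟨hr, h8⟩⟩)
      rw [← (ih ρ (dom_wf hρ) (hdM hσ hρ) π hπM).2 ⟨r, hr, (mem_EF.1 h6).2⟩]
      exact mem_val.2 ⟨ρ, s, hG.down r hr s hs h5, h4, rfl⟩

/-- The truth lemma for membership. -/
theorem truth_mem {P G : V} (hP : P ∈ M) (hG : Generic M P G) {σ τ : V} (hσ : σ ∈ M)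
    (hτ : τ ∈ M) : val G σ ∈ val G τ ↔ ∃ p ∈ G, FM P σ τ p := by
  have hcP : ∀ {Γ : Type 1} [Ctx Γ], DMap M M (fun _ : Γ => P) := DMap.const hP hP
  have hEF : ∀ {Γ : Type 1} [Ctx Γ] {f : Γ → V}, DMap M M f → DMap M M (fun γ => EF P (f γ)) :=
    fun h => (dmap_EF hP).comp h
  have hdM : ∀ {x y : V}, x ∈ M → y ∈ dom x → y ∈ M := by
    intro x y hx hy
    obtain ⟨z, hz⟩ := mem_dom.1 hy
    exact (pair_mem_iff.1 (TrC.trans hx hz)).1
  have hcσ : ∀ {Γ : Type 1} [Ctx Γ], DMap M M (fun _ : Γ => σ) := DMap.const hσ hσ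
  have hcτ : ∀ {Γ : Type 1} [Ctx Γ], DMap M M (fun _ : Γ => τ) := DMap.const hτ hτ
  constructor
  · intro h
    obtain ⟨π, t, ht, h1, h2⟩ := mem_val.1 h
    have hπ : π ∈ dom τ := mem_dom.2 ⟨t, h1⟩
    obtain ⟨p, hp, h3⟩ := (truth_eq hP hG σ hσ π (hdM hτ hπ)).1 h2
    obtain ⟨p', hp', h4, h5⟩ := hG.dir p hp t ht
    refine ⟨p', hp', fun q hq h6 => ⟨q, hq, fun _ hx => hx, π, hπ, t, hG.sub ht, h1, ?_, ?_⟩⟩
    · exact fun _ hx => h6 (h5 hx)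
    · exact h3.mono fun _ hx => h6 (h4 hx)
  · rintro ⟨p, hp, h⟩
    have hQ : Dfn M M (fun r : V => ∃ π ∈ dom τ, ∃ t ∈ P, ZFSet.pair π t ∈ τ ∧ t ⊆ r ∧
        r ∈ EF P (ZFSet.pair σ π)) := by
      apply_rules (transparency := .reducible) (maxDepth := 999) only [hcP, hcτ, hcσ, hEF] using is_poly
    obtain ⟨r, hr, _, π, hπ, t, ht, h4, h5, h6⟩ := meets_below hP hG hp hQ (by
      intro q hq h4
      obtain ⟨r, hr, h5, π, hπ, t, ht, h6, h7, h8⟩ := h q hq h4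
      exact ⟨r, hr, h5, π, hπ, t, ht, h6, h7, mem_EF.2 ⟨hr, h8⟩⟩)
    rw [(truth_eq hP hG σ hσ π (hdM hτ hπ)).2 ⟨r, hr, (mem_EF.1 h6).2⟩]
    exact mem_val.2 ⟨π, t, hG.down r hr t ht h5, h4, rfl⟩

omit [ZFm M] in
/-- A forcing predicate that is monotone, closed under density and satisfies the truth lemma is
the semantic forcing relation. -/
theorem forces_iff (hM : M.Countable) {P : V} (hP : P ∈ M) (h0 : ∅ ∈ P) {A : V → Prop}
    {Φ : V → Prop} (hmono : ∀ p q, A p → p ⊆ q → A q)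
    (hdense : ∀ p, (∀ q ∈ P, p ⊆ q → ∃ r ∈ P, q ⊆ r ∧ A r) → A p)
    (htruth : ∀ G, Generic M P G → (Φ G ↔ ∃ p ∈ G, A p)) {p : V} (hp : p ∈ P) :
    (∀ G, Generic M P G → p ∈ G → Φ G) ↔ A p := by
  constructor
  · intro h
    refine hdense p fun q hq hpq => ?_
    by_contra hc
    push Not at hc
    obtain ⟨G, hG, hqG⟩ := stmt_generic M hM P hP q hq h0
    obtain ⟨r, hr, h1⟩ := (htruth G hG).1 (h G hG (hG.down q hqG p hp hpq))
    obtain ⟨r', hr', h2, h3⟩ := hG.dir q hqG r hr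
    exact hc r' (hG.sub hr') h2 (hmono r r' h1 h3)
  · intro h G hG hpG
    exact (htruth G hG).2 ⟨p, hpG, h⟩

/-! ### The forcing theorem -/

/-- The forcing theorem for one formula. -/
def FT (M : Set V) (P : V) {n : ℕ} (φ : Fm Empty n) : Prop :=
  DP M M (n + 1) (fun v => v (Fin.last n) ∈ P ∧ Frc M P (v (Fin.last n)) φ (Fin.init v)) ∧
    ∀ G, Generic M P G → ∀ τ : Fin n → V, (∀ i, τ i ∈ M) →
      φ.Sat (Ext M G) (fun x y => x ∈ y) Empty.elim (fun i => val G (τ i)) →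
      ∃ p ∈ G, Frc M P p φ τ

omit [ZFm M] in
/-- Forcing predicates for atomic formulas. -/
theorem ft_atomic (hM : M.Countable) {P : V} (hP : P ∈ M) (h0 : ∅ ∈ P) {n : ℕ} (φ : Fm Empty n)
    (i j : Fin n) (A : V → V → V → Prop)
    (hA : Dfn M M (fun q : (V × V) × V => q.2 ∈ P ∧ A q.1.1 q.1.2 q.2))
    (hmono : ∀ σ τ p q, A σ τ p → p ⊆ q → A σ τ q)
    (hdense : ∀ σ τ p, (∀ q ∈ P, p ⊆ q → ∃ r ∈ P, q ⊆ r ∧ A σ τ r) → A σ τ p)
    (htruth : ∀ G, Generic M P G → ∀ τ : Fin n → V, (∀ i, τ i ∈ M) →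
      (φ.Sat (Ext M G) (fun x y => x ∈ y) Empty.elim (fun i => val G (τ i)) ↔
        ∃ p ∈ G, A (τ i) (τ j) p)) : FT M P φ := by
  have key : ∀ τ : Fin n → V, (∀ i, τ i ∈ M) → ∀ p ∈ P, (Frc M P p φ τ ↔ A (τ i) (τ j) p) :=
    fun τ hτ p hp => forces_iff hM hP h0 (A := A (τ i) (τ j)) (hmono _ _) (hdense _ _)
      (fun G hG => htruth G hG τ hτ) hp
  constructor
  · have h1 : DP M M (n + 1) (fun v => v (Fin.last n) ∈ P ∧
        A (v i.castSucc) (v j.castSucc) (v (Fin.last n))) := by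
      have h2 := DP.ren (n := 3) hA ![i.castSucc, j.castSucc, Fin.last n]
      exact h2.congr fun v _ => Iff.rfl
    refine h1.congr fun v hv => and_congr_right fun hp => ?_
    exact (key (Fin.init v) (fun k => hv _) _ hp).symm
  · intro G hG τ hτ h
    obtain ⟨p, hp, h1⟩ := (htruth G hG τ hτ).1 h
    exact ⟨p, hp, (key τ hτ p (hG.sub hp)).2 h1⟩

theorem ft_eq (hM : M.Countable) {P : V} (hP : P ∈ M) (h0 : ∅ ∈ P) {n : ℕ} (i j : Fin n) :
    FT M P (.eq (.inr i) (.inr j)) := by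
  have hcP : ∀ {Γ : Type 1} [Ctx Γ], DMap M M (fun _ : Γ => P) := DMap.const hP hP
  have hEF : ∀ {Γ : Type 1} [Ctx Γ] {f : Γ → V}, DMap M M f → DMap M M (fun γ => EF P (f γ)) :=
    fun h => (dmap_EF hP).comp h
  refine ft_atomic hM hP h0 _ i j (FE P) ?_ (fun _ _ _ _ h h' => h.mono h')
    (fun _ _ _ h => FE.dense h) (fun G hG τ hτ => truth_eq hP hG _ (hτ i) _ (hτ j))
  refine Dfn.congr' (P := fun q : (V × V) × V => q.2 ∈ EF P (ZFSet.pair q.1.1 q.1.2))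
    (fun q _ => mem_EF.symm) ?_
  apply_rules (transparency := .reducible) (maxDepth := 999) only [hcP, hEF] using is_poly

theorem ft_mem (hM : M.Countable) {P : V} (hP : P ∈ M) (h0 : ∅ ∈ P) {n : ℕ} (i j : Fin n) :
    FT M P (.mem (.inr i) (.inr j)) := by
  have hcP : ∀ {Γ : Type 1} [Ctx Γ], DMap M M (fun _ : Γ => P) := DMap.const hP hP
  have hEF : ∀ {Γ : Type 1} [Ctx Γ] {f : Γ → V}, DMap M M f → DMap M M (fun γ => EF P (f γ)) :=
    fun h => (dmap_EF hP).comp h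
  refine ft_atomic hM hP h0 _ i j (FM P) ?_ (fun _ _ _ _ h h' => h.mono h')
    (fun _ _ _ h => FM.dense h) (fun G hG τ hτ => truth_mem hP hG (hτ i) (hτ j))
  refine Dfn.congr' (P := fun q : (V × V) × V => q.2 ∈ P ∧ ∀ q' ∈ P, q.2 ⊆ q' → ∃ r ∈ P, q' ⊆ r ∧
    ∃ π ∈ dom q.1.2, ∃ t ∈ P, ZFSet.pair π t ∈ q.1.2 ∧ t ⊆ r ∧ r ∈ EF P (ZFSet.pair q.1.1 π))
    (fun q _ => and_congr_right fun _ => ?_) ?_
  · unfold FM
    refine forall_congr' fun q' => forall_congr' fun _ => forall_congr' fun _ =>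
      exists_congr fun r => and_congr_right fun hr => and_congr_right fun _ =>
      exists_congr fun π => and_congr_right fun _ => exists_congr fun t =>
      and_congr_right fun _ => and_congr_right fun _ => and_congr_right fun _ => ?_
    rw [mem_EF]
    simp [hr]
  · apply_rules (transparency := .reducible) (maxDepth := 999) only [hcP, hEF] using is_poly

omit [ZFm M] in
theorem Frc_mono {P p q : V} (hp : p ∈ P) (hpq : p ⊆ q) {n : ℕ} {φ : Fm Empty n} {τ : Fin n → V}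
    (h : Frc M P p φ τ) : Frc M P q φ τ :=
  fun G hG hq => h G hG (hG.down q hq p hp hpq)

omit [ZFm M] in
theorem Frc_neg (hM : M.Countable) {P : V} (hP : P ∈ M) (h0 : ∅ ∈ P) {n : ℕ} {φ : Fm Empty n}
    (hφ : FT M P φ) {p : V} (hp : p ∈ P) {τ : Fin n → V} (hτ : ∀ i, τ i ∈ M) :
    Frc M P p φ.neg τ ↔ ∀ q ∈ P, p ⊆ q → ¬ Frc M P q φ τ := by
  constructor
  · intro h q hq hpq hc
    obtain ⟨G, hG, hqG⟩ := stmt_generic M hM P hP q hq h0
    exact h G hG (hG.down q hqG p hp hpq) (hc G hG hqG)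
  · intro h G hG hpG hc
    obtain ⟨r, hr, h1⟩ := hφ.2 G hG τ hτ hc
    obtain ⟨q, hq, h2, h3⟩ := hG.dir p hpG r hr
    exact h q (hG.sub hq) h2 (Frc_mono (hG.sub hr) h3 h1)

omit [ZFm M] in
/-- Instantiating all but the last variable. -/
theorem dfn_last {n : ℕ} {Q : (Fin (n + 1) → V) → Prop} (h : DP M M (n + 1) Q) {τ : Fin n → V}
    (hτ : ∀ i, τ i ∈ M) : Dfn M M (fun p : V => Q (Fin.snoc τ p)) := by
  have h1 := DP.ren h (Fin.natAdd 1)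
  have h2 := DP.subst (n := 1) (k := n + 1) (R := fun _ u => Q u) h1
    (g := Fin.snoc (fun i _ => τ i) (fun v => v 0)) (by
      intro i
      refine Fin.lastCases ?_ (fun i => ?_) i
      · simp only [Fin.snoc_last]
        exact DF.proj 0
      · simp only [Fin.snoc_castSucc]
        exact (DMap.const (Γ := V) (hτ i) (hτ i)) 0)
  refine DP.congr h2 fun v _ => ?_
  have e : (fun i => (Fin.snoc (fun (i : Fin n) (_ : Fin 1 → V) => τ i) (fun v => v 0) :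
      Fin (n + 1) → (Fin 1 → V) → V) i v) = Fin.snoc τ (Ctx.of v : V) := by
    funext i
    refine Fin.lastCases ?_ (fun i => ?_) i
    · simp only [Fin.snoc_last]
      rfl
    · simp only [Fin.snoc_castSucc]
  rw [e]

theorem ft_neg (hM : M.Countable) {P : V} (hP : P ∈ M) (h0 : ∅ ∈ P) {n : ℕ} {φ : Fm Empty n}
    (hφ : FT M P φ) : FT M P φ.neg := by
  have hcP : ∀ {Γ : Type 1} [Ctx Γ], DMap M M (fun _ : Γ => P) := DMap.const hP hP
  have h1 : DP M M (n + 1) (fun v => v (Fin.last n) ∈ P ∧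
      Frc M P (v (Fin.last n)) φ.neg (Fin.init v)) := by
    have hm : DP M M (n + 1) (fun v => v (Fin.last n) ∈ P) := by
      have h2 : Dfn M M (fun p : V => p ∈ P) := by
        apply_rules (transparency := .reducible) (maxDepth := 999) only [hcP] using is_poly
      exact (DP.ren (n := 1) h2 ![Fin.last n]).congr fun v _ => Iff.rfl
    have hs : DP M M (n + 1 + 1) (fun v => v (Fin.last n).castSucc ⊆ v (Fin.last (n + 1))) := by
      have h2 : Dfn M M (fun p : V × V => p.1 ⊆ p.2) := by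
        apply_rules (transparency := .reducible) (maxDepth := 999) only using is_poly
      exact (DP.ren (n := 2) h2 ![(Fin.last n).castSucc, Fin.last (n + 1)]).congr
        fun v _ => Iff.rfl
    have hf := DP.ren hφ.1 (Fin.snoc (fun i => i.castSucc.castSucc) (Fin.last (n + 1)) :
      Fin (n + 1) → Fin (n + 1 + 1))
    have h3 : DP M M (n + 1) (fun v => v (Fin.last n) ∈ P ∧ ∀ q ∈ M, ¬ (v (Fin.last n) ⊆ q ∧
        q ∈ P ∧ Frc M P q φ (Fin.init v))) := by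
      refine DP.and hm (DP.all (P := fun v q => ¬ (v (Fin.last n) ⊆ q ∧
        q ∈ P ∧ Frc M P q φ (Fin.init v))) (DP.not (DP.and ?_ ?_)))
      · exact hs
      · refine hf.congr fun v _ => ?_
        have e : Fin.init (v ∘ (Fin.snoc (fun i => i.castSucc.castSucc) (Fin.last (n + 1)) :
            Fin (n + 1) → Fin (n + 1 + 1))) = Fin.init (Fin.init v) := by
          funext i
          simp [Fin.init]
        rw [e]
        simp
    refine h3.congr fun v hv => and_congr_right fun hp => ?_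
    rw [Frc_neg hM hP h0 hφ hp (τ := Fin.init v) (fun i => hv _)]
    constructor
    · intro h q hq hpq hc
      exact h q (TrC.trans hP hq) ⟨hpq, hq, hc⟩
    · rintro h q _ ⟨h4, h5, h6⟩
      exact h q h5 h4 h6
  refine ⟨h1, fun G hG τ hτ h => ?_⟩
  have hD : Dfn M M (fun p : V => (p ∈ P ∧ Frc M P p φ τ) ∨ (p ∈ P ∧ Frc M P p φ.neg τ)) := by
    refine Dfn.or ((dfn_last hφ.1 hτ).congr fun p _ => ?_) ((dfn_last h1 hτ).congr fun p _ => ?_)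
    · simp
    · simp
  obtain ⟨p, hp, hpG⟩ := hG.meets _ (ZFm.sep_mem hD hP) ⟨fun r hr => (ZFSet.mem_sep.1 hr).1, by
    intro p hp
    by_cases h2 : ∃ q ∈ P, p ⊆ q ∧ Frc M P q φ τ
    · obtain ⟨q, hq, h3, h4⟩ := h2
      exact ⟨q, ZFSet.mem_sep.2 ⟨hq, Or.inl ⟨hq, h4⟩⟩, h3⟩
    · push Not at h2
      exact ⟨p, ZFSet.mem_sep.2 ⟨hp, Or.inr ⟨hp, (Frc_neg hM hP h0 hφ hp hτ).2 h2⟩⟩,
        fun _ hx => hx⟩⟩
  rcases (ZFSet.mem_sep.1 hp).2 with h2 | h2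
  · exact absurd (h2.2 G hG hpG) h
  · exact ⟨p, hpG, h2.2⟩

omit [ZFm M] in
theorem ft_and {P : V} {n : ℕ} {φ ψ : Fm Empty n} (hφ : FT M P φ) (hψ : FT M P ψ) :
    FT M P (φ.and ψ) := by
  constructor
  · refine (DP.and hφ.1 hψ.1).congr fun v _ => ?_
    constructor
    · rintro ⟨⟨h1, h2⟩, _, h3⟩
      exact ⟨h1, fun G hG hp => ⟨h2 G hG hp, h3 G hG hp⟩⟩
    · rintro ⟨h1, h2⟩
      exact ⟨⟨h1, fun G hG hp => (h2 G hG hp).1⟩, h1, fun G hG hp => (h2 G hG hp).2⟩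
  · rintro G hG τ hτ ⟨h1, h2⟩
    obtain ⟨p, hp, h3⟩ := hφ.2 G hG τ hτ h1
    obtain ⟨q, hq, h4⟩ := hψ.2 G hG τ hτ h2
    obtain ⟨r, hr, h5, h6⟩ := hG.dir p hp q hq
    exact ⟨r, hr, fun G' hG' hr' => ⟨Frc_mono (hG.sub hp) h5 h3 G' hG' hr',
      Frc_mono (hG.sub hq) h6 h4 G' hG' hr'⟩⟩

theorem val_snoc {n : ℕ} (G : V) (τ : Fin n → V) (x : V) :
    (fun i => val G ((Fin.snoc τ x : Fin (n + 1) → V) i)) =
      (Fin.snoc (fun i => val G (τ i)) (val G x) : Fin (n + 1) → V) := by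
  funext i
  refine Fin.lastCases ?_ (fun i => ?_) i
  · simp
  · simp

omit [ZFm M] in
theorem Frc_all {P p : V} {n : ℕ} {φ : Fm Empty (n + 1)} {τ : Fin n → V} :
    Frc M P p φ.all τ ↔ ∀ x ∈ M, Frc M P p φ (Fin.snoc τ x) := by
  constructor
  · intro h x hx G hG hp
    rw [val_snoc]
    exact h G hG hp (val G x) ⟨x, hx, rfl⟩
  · rintro h G hG hp _ ⟨x, hx, rfl⟩
    have := h x hx G hG hp
    rwa [val_snoc] at this

theorem ft_all (hM : M.Countable) {P : V} (hP : P ∈ M) (h0 : ∅ ∈ P) {n : ℕ}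
    {φ : Fm Empty (n + 1)} (hφ : FT M P φ) : FT M P φ.all := by
  have hn := ft_neg hM hP h0 hφ
  have hcP : ∀ {Γ : Type 1} [Ctx Γ], DMap M M (fun _ : Γ => P) := DMap.const hP hP
  have hsw : ∀ {φ : Fm Empty (n + 1)}, FT M P φ → DP M M (n + 1 + 1)
      (fun v => v (Fin.last n).castSucc ∈ P ∧ Frc M P (v (Fin.last n).castSucc) φ
        (Fin.snoc (Fin.init (Fin.init v)) (v (Fin.last (n + 1))) : Fin (n + 1) → V)) := by
    intro φ hφ
    have hf := DP.ren hφ.1 (Fin.snoc (Fin.snoc (fun i => i.castSucc.castSucc)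
      (Fin.last (n + 1)) : Fin (n + 1) → Fin (n + 1 + 1)) (Fin.last n).castSucc :
      Fin (n + 1 + 1) → Fin (n + 1 + 1))
    refine hf.congr fun v _ => ?_
    have e : Fin.init (v ∘ (Fin.snoc (Fin.snoc (fun i => i.castSucc.castSucc)
        (Fin.last (n + 1)) : Fin (n + 1) → Fin (n + 1 + 1)) (Fin.last n).castSucc :
        Fin (n + 1 + 1) → Fin (n + 1 + 1))) =
        (Fin.snoc (Fin.init (Fin.init v)) (v (Fin.last (n + 1))) : Fin (n + 1) → V) := by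
      funext i
      refine Fin.lastCases ?_ (fun i => ?_) i
      · simp [Fin.init]
      · simp [Fin.init]
    rw [e]
    simp
  have h1 : DP M M (n + 1) (fun v => v (Fin.last n) ∈ P ∧
      Frc M P (v (Fin.last n)) φ.all (Fin.init v)) := by
    have hm : DP M M (n + 1) (fun v => v (Fin.last n) ∈ P) := by
      have h2 : Dfn M M (fun p : V => p ∈ P) := by
        apply_rules (transparency := .reducible) (maxDepth := 999) only [hcP] using is_poly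
      exact (DP.ren (n := 1) h2 ![Fin.last n]).congr fun v _ => Iff.rfl
    have h3 : DP M M (n + 1) (fun v => v (Fin.last n) ∈ P ∧ ∀ x ∈ M, (v (Fin.last n) ∈ P ∧
        Frc M P (v (Fin.last n)) φ (Fin.snoc (Fin.init v) x : Fin (n + 1) → V))) :=
      DP.and hm (DP.all (P := fun v x => v (Fin.last n) ∈ P ∧
        Frc M P (v (Fin.last n)) φ (Fin.snoc (Fin.init v) x : Fin (n + 1) → V)) (hsw hφ))
    refine h3.congr fun v hv => and_congr_right fun hp => ?_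
    rw [Frc_all]
    exact forall_congr' fun x => forall_congr' fun _ => by simp [hp]
  refine ⟨h1, fun G hG τ hτ h => ?_⟩
  have h2 : DP M M (n + 1) (fun v => ∃ x ∈ M, (v (Fin.last n) ∈ P ∧
      Frc M P (v (Fin.last n)) φ.neg (Fin.snoc (Fin.init v) x : Fin (n + 1) → V))) :=
    DP.ex (P := fun v x => v (Fin.last n) ∈ P ∧
      Frc M P (v (Fin.last n)) φ.neg (Fin.snoc (Fin.init v) x : Fin (n + 1) → V)) (hsw hn)
  have hD : Dfn M M (fun p : V => (p ∈ P ∧ Frc M P p φ.all τ) ∨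
      ∃ x ∈ M, (p ∈ P ∧ Frc M P p φ.neg (Fin.snoc τ x : Fin (n + 1) → V))) := by
    refine Dfn.or ((dfn_last h1 hτ).congr fun p _ => ?_) ((dfn_last h2 hτ).congr fun p _ => ?_)
    · simp
    · simp
  have hτx : ∀ {x : V}, x ∈ M → ∀ i, (Fin.snoc τ x : Fin (n + 1) → V) i ∈ M := by
    intro x hx i
    refine Fin.lastCases ?_ (fun i => ?_) i
    · simpa using hx
    · simpa using hτ i
  obtain ⟨p, hp, hpG⟩ := hG.meets _ (ZFm.sep_mem hD hP) ⟨fun r hr => (ZFSet.mem_sep.1 hr).1, by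
    intro p hp
    by_cases h3 : ∃ q ∈ P, p ⊆ q ∧ ∃ x ∈ M, Frc M P q φ.neg (Fin.snoc τ x : Fin (n + 1) → V)
    · obtain ⟨q, hq, h4, x, hx, h5⟩ := h3
      exact ⟨q, ZFSet.mem_sep.2 ⟨hq, Or.inr ⟨x, hx, hq, h5⟩⟩, h4⟩
    · push Not at h3
      refine ⟨p, ZFSet.mem_sep.2 ⟨hp, Or.inl ⟨hp, ?_⟩⟩, fun _ hx => hx⟩
      rw [Frc_all]
      intro x hx G' hG' hpG'
      by_contra hc
      obtain ⟨q, hq, h4⟩ := hn.2 G' hG' (Fin.snoc τ x) (hτx hx) hc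
      obtain ⟨r, hr, h5, h6⟩ := hG'.dir p hpG' q hq
      exact h3 r (hG'.sub hr) h5 x hx (Frc_mono (hG'.sub hq) h6 h4)⟩
  rcases (ZFSet.mem_sep.1 hp).2 with h3 | h3
  · exact ⟨p, hpG, h3.2⟩
  · obtain ⟨x, hx, _, h4⟩ := h3
    refine absurd (h (val G x) ⟨x, hx, rfl⟩) ?_
    have h5 := h4 G hG hpG
    rw [val_snoc] at h5
    exact h5

theorem ft (hM : M.Countable) {P : V} (hP : P ∈ M) (h0 : ∅ ∈ P) {n : ℕ} (φ : Fm Empty n) :
    FT M P φ := by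
  induction φ with
  | mem s t =>
    rcases s with s | i
    · exact s.elim
    · rcases t with t | j
      · exact t.elim
      · exact ft_mem hM hP h0 i j
  | eq s t =>
    rcases s with s | i
    · exact s.elim
    · rcases t with t | j
      · exact t.elim
      · exact ft_eq hM hP h0 i j
  | neg φ ih => exact ft_neg hM hP h0 ih
  | and φ ψ ih ih' => exact ft_and ih ih'
  | all φ ih => exact ft_all hM hP h0 ih

end

end FrcPf

/-- **Module FRC.** The forcing theorem. -/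
theorem stmt_forcing : Stmt_forcing := fun _ _ hM _ hP h0 _ φ => FrcPf.ft hM hP h0 φ

end Pool.Agent.CTM
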