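import Pool.Agent.CTM.Greals

/-!
Density facts used in the rigidity proof: the generic filter decides `c_i ∩ l`, promises can be
made, and basic facts on the generic reals.
-/

set_option autoImplicit false

namespace Pool.Agent.CTM

namespace GrePf

section

variable {M : Set V} [ZFCm M] {w I e : V} {Kap : V → V → Prop} {P G : V}

theorem mem_cre_of {i n p : V} (hn : n ∈ (ZFSet.omega : V)) (hp : p ∈ G)
    (h : tC i n (nn 1) ∈ p) : n ∈ cre G i := ZFSet.mem_sep.2 ⟨hn, p, hp, h⟩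

theorem not_mem_cre_of (hpos : IsPos I e Kap P) (hG : Generic M P G) {i n p : V} (hp : p ∈ G)
    (h : tC i n (nn 0) ∈ p) : n ∉ cre G i := by
  intro hn
  obtain ⟨_, q, hq, h'⟩ := ZFSet.mem_sep.1 hn
  obtain ⟨r, hr, hpr, hqr⟩ := hG.dir p hp q hq
  exact ((hpos r).1 (hG.sub hr)).funC i n ⟨hpr h, hqr h'⟩

/-- The generic filter decides `c_i(n)`. -/
theorem gen_decC (hS : Setup M w I e Kap) (hP : P ∈ M) (hpos : IsPos I e Kap P)
    (hG : Generic M P G) {i n : V} (hi : i ∈ I) (hn : n ∈ (ZFSet.omega : V)) :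
    ∃ p ∈ G, tC i n (nn 0) ∈ p ∨ tC i n (nn 1) ∈ p := by
  have hiM : i ∈ M := TrC.trans hS.I_mem hi
  have hnM : n ∈ M := TrC.trans (M := M) ZFm.omega_mem hn
  obtain ⟨p, hpD, hpG⟩ := hG.meets _ (dense_or hP
      (tokM 0 hiM hnM (nnM 0)) (tokM 0 hiM hnM (nnM 1)))
      ⟨fun p hp => (ZFSet.mem_sep.1 hp).1, fun p hp => by
        obtain ⟨q, hq, hpq, h⟩ := decC ((hpos p).1 hp) hi hn
        exact ⟨q, ZFSet.mem_sep.2 ⟨(hpos q).2 hq, h⟩, hpq⟩⟩
  exact ⟨p, hpG, (ZFSet.mem_sep.1 hpD).2⟩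

/-- (D1) The generic filter decides `c_i ∩ l`. -/
theorem gen_Tr (hS : Setup M w I e Kap) (hP : P ∈ M) (hpos : IsPos I e Kap P)
    (hG : Generic M P G) {i l : V} (hi : i ∈ I) (hl : l ∈ (ZFSet.omega : V)) :
    ∃ p ∈ G, Tr p i l (cre G i ∩ l) := by
  obtain ⟨L, rfl⟩ := mem_omega.1 hl
  have key : ∀ L : ℕ, ∃ p ∈ G, ∀ n ∈ nn L, tC i n (nn 0) ∈ p ∨ tC i n (nn 1) ∈ p := by
    intro L
    induction L with
    | zero => exact ⟨∅, hG.empty_mem, fun n hn => absurd hn (ZFSet.notMem_empty n)⟩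
    | succ L ih =>
      obtain ⟨p, hp, h⟩ := ih
      obtain ⟨q, hq, h'⟩ := gen_decC hS hP hpos hG hi (nn_mem L)
      obtain ⟨r, hr, hpr, hqr⟩ := hG.dir p hp q hq
      refine ⟨r, hr, fun n hn => ?_⟩
      rcases ZFSet.mem_insert_iff.1 (show n ∈ (insert (nn L) (nn L) : V) from hn) with rfl | hn
      · exact h'.imp (fun a => hqr a) (fun a => hqr a)
      · exact (h n hn).imp (fun a => hpr a) (fun a => hpr a)
  obtain ⟨p, hp, h⟩ := key L
  refine ⟨p, hp, fun z hz => (ZFSet.mem_inter.1 hz).2, fun n hn => ⟨fun h' => ?_, fun h' => ?_⟩⟩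
  · rcases h n hn with h0 | h1
    · exact absurd (ZFSet.mem_inter.1 h').1 (not_mem_cre_of hpos hG hp h0)
    · exact h1
  · rcases h n hn with h0 | h1
    · exact h0
    · obtain ⟨k, _, rfl⟩ := mem_nn.1 hn
      exact absurd (ZFSet.mem_inter.2 ⟨mem_cre_of (nn_mem k) hp h1, hn⟩) h'

/-- (D2) A promise can be made below every condition. -/
theorem ext_promise (hS : Setup M w I e Kap) (hpos : IsPos I e Kap P) {q i x l U : V}
    (hq : q ∈ P) (hi : i ∈ I) (hl : l ∈ (ZFSet.omega : V)) (hx : Kap x (kv l U (lab e i))) :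
    ∃ q' ∈ P, q ⊆ q' ∧ ∃ m ∈ (ZFSet.omega : V), tR i x m ∈ q' := by
  obtain ⟨q', h1, h2, h3⟩ := addR (fun x k h => (hS.kap_real x k h).2.1) hS.kap_fun
    ((hpos q).1 hq) hi hl hx
  exact ⟨q', (hpos q').2 h1, h2, h3⟩

/-- The generic filter contains a promise for every point with the label of `i`. -/
theorem gen_promise (hS : Setup M w I e Kap) (hP : P ∈ M) (hpos : IsPos I e Kap P)
    (hG : Generic M P G) {i x l U : V} (hi : i ∈ I) (hl : l ∈ (ZFSet.omega : V))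
    (hx : Kap x (kv l U (lab e i))) : ∃ p ∈ G, ∃ m ∈ (ZFSet.omega : V), tR i x m ∈ p := by
  have hiM : i ∈ M := TrC.trans hS.I_mem hi
  have hxM : x ∈ M := (hS.kap_real _ _ hx).1
  have hD : ZFSet.sep (fun p => ∃ m ∈ (ZFSet.omega : V), tR i x m ∈ p) P ∈ M := by
    refine ZFm.sep_mem (Dfn.ex_mem (DMap.const ZFm.omega_mem ZFm.omega_mem) ?_) hP
    exact Dfn.mem (dtok 2 hiM (DMap.const hxM hxM) (DMap.snd DMap.id)) (DMap.fst DMap.id)
  obtain ⟨p, hpD, hpG⟩ := hG.meets _ hD ⟨fun p hp => (ZFSet.mem_sep.1 hp).1, fun p hp => by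
    obtain ⟨q, hq, hpq, h⟩ := ext_promise hS hpos hp hi hl hx
    exact ⟨q, ZFSet.mem_sep.2 ⟨hq, h⟩, hpq⟩⟩
  exact ⟨p, hpG, (ZFSet.mem_sep.1 hpD).2⟩

end

end GrePf

end Pool.Agent.CTM
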