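import Pool.Agent.CTM.PosDefs

/-!
Module GRE: density arguments. The generic reals `c_i` are distinct, and `d_i` codes `c_i`.
-/

set_option autoImplicit false

namespace Pool.Agent.CTM

namespace GrePf

/-! ### Natural numbers -/

theorem mk_ofNat (n : ℕ) : ZFSet.mk (PSet.ofNat n) = nn n := by
  induction n with
  | zero => rfl
  | succ n ih =>
    show insert (ZFSet.mk (PSet.ofNat n)) (ZFSet.mk (PSet.ofNat n)) = _
    rw [ih]
    rfl

theorem mem_omega {x : V} : x ∈ (ZFSet.omega : V) ↔ ∃ n : ℕ, x = nn n := by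
  induction x using Quotient.inductionOn with
  | _ x =>
    constructor
    · rintro ⟨⟨n⟩, h⟩
      exact ⟨n, by rw [← mk_ofNat]; exact ZFSet.sound h⟩
    · rintro ⟨n, h⟩
      rw [← mk_ofNat] at h
      exact ⟨⟨n⟩, ZFSet.exact h⟩

theorem nn_mem (n : ℕ) : nn n ∈ (ZFSet.omega : V) := mem_omega.2 ⟨n, rfl⟩

theorem mem_nn {n : ℕ} {x : V} : x ∈ nn n ↔ ∃ m < n, x = nn m := by
  induction n generalizing x with
  | zero =>
    constructor
    · intro h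
      exact absurd h (ZFSet.notMem_empty x)
    · rintro ⟨m, h, -⟩
      omega
  | succ n ih =>
    show x ∈ (insert (nn n) (nn n) : V) ↔ _
    rw [ZFSet.mem_insert_iff, ih]
    constructor
    · rintro (rfl | ⟨m, hm, rfl⟩)
      · exact ⟨n, Nat.lt_succ_self n, rfl⟩
      · exact ⟨m, by omega, rfl⟩
    · rintro ⟨m, hm, rfl⟩
      rcases Nat.lt_succ_iff_lt_or_eq.1 hm with h | rfl
      · exact Or.inr ⟨m, h, rfl⟩
      · exact Or.inl rfl

theorem nn_mem_nn_of_lt {m n : ℕ} (h : m < n) : nn m ∈ nn n := mem_nn.2 ⟨m, h, rfl⟩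

theorem nn_inj {m n : ℕ} (h : nn m = nn n) : m = n := by
  rcases lt_trichotomy m n with h' | h' | h'
  · have := nn_mem_nn_of_lt h'
    rw [h] at this
    exact absurd this (ZFSet.mem_irrefl _)
  · exact h'
  · have := nn_mem_nn_of_lt h'
    rw [h] at this
    exact absurd this (ZFSet.mem_irrefl _)

theorem nn_sub_nn_of_le {m n : ℕ} (h : m ≤ n) : nn m ⊆ nn n := by
  intro x hx
  obtain ⟨k, hk, rfl⟩ := mem_nn.1 hx
  exact nn_mem_nn_of_lt (by omega)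

theorem le_of_nn_sub_nn {m n : ℕ} (h : nn m ⊆ nn n) : m ≤ n := by
  by_contra h'
  have := h (nn_mem_nn_of_lt (not_le.1 h'))
  exact ZFSet.mem_irrefl _ this

theorem nn_union {m n : ℕ} (h : m ≤ n) : nn m ∪ nn n = nn n := by
  ext x
  rw [ZFSet.mem_union]
  exact ⟨fun hx => hx.elim (fun hx => nn_sub_nn_of_le h hx) id, Or.inr⟩

theorem nn_union' {m n : ℕ} (h : m ≤ n) : nn n ∪ nn m = nn n := by
  ext x
  rw [ZFSet.mem_union]
  exact ⟨fun hx => hx.elim id (fun hx => nn_sub_nn_of_le h hx), Or.inl⟩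

theorem nn01 : nn 0 ≠ nn 1 := fun h => by have := nn_inj h; omega
theorem nn10 : nn 1 ≠ nn 0 := fun h => by have := nn_inj h; omega

theorem mem_two {ε : V} : ε ∈ nn 2 ↔ ε = nn 0 ∨ ε = nn 1 := by
  rw [mem_nn]
  constructor
  · rintro ⟨m, hm, rfl⟩
    interval_cases m
    · exact Or.inl rfl
    · exact Or.inr rfl
  · rintro (rfl | rfl)
    · exact ⟨0, by omega, rfl⟩
    · exact ⟨1, by omega, rfl⟩

/-- Two distinct sets of natural numbers differ below some `k`. -/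
theorem exists_split {x y : V} (hx : x ⊆ ZFSet.omega) (hy : y ⊆ ZFSet.omega) (h : x ≠ y) :
    ∃ k : ℕ, ∀ z : V, nn k ⊆ z → x ∩ z ≠ y ∩ z := by
  by_contra h'
  push Not at h'
  refine h ?_
  ext a
  constructor
  · intro ha
    obtain ⟨n, rfl⟩ := mem_omega.1 (hx ha)
    obtain ⟨z, hz, e⟩ := h' (n + 1)
    have : nn n ∈ x ∩ z := ZFSet.mem_inter.2 ⟨ha, hz (nn_mem_nn_of_lt (Nat.lt_succ_self n))⟩
    rw [e] at this
    exact (ZFSet.mem_inter.1 this).1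
  · intro ha
    obtain ⟨n, rfl⟩ := mem_omega.1 (hy ha)
    obtain ⟨z, hz, e⟩ := h' (n + 1)
    have : nn n ∈ y ∩ z := ZFSet.mem_inter.2 ⟨ha, hz (nn_mem_nn_of_lt (Nat.lt_succ_self n))⟩
    rw [← e] at this
    exact (ZFSet.mem_inter.1 this).1

/-! ### Tokens -/

theorem tC_inj {i n ε i' n' ε' : V} (h : tC i n ε = tC i' n' ε') : i = i' ∧ n = n' ∧ ε = ε' := by
  unfold tC at h
  rw [ZFSet.pair_inj, ZFSet.pair_inj, ZFSet.pair_inj] at h
  exact ⟨h.2.1, h.2.2.1, h.2.2.2⟩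

theorem tD_inj {i n ε i' n' ε' : V} (h : tD i n ε = tD i' n' ε') : i = i' ∧ n = n' ∧ ε = ε' := by
  unfold tD at h
  rw [ZFSet.pair_inj, ZFSet.pair_inj, ZFSet.pair_inj] at h
  exact ⟨h.2.1, h.2.2.1, h.2.2.2⟩

theorem tR_inj {i n ε i' n' ε' : V} (h : tR i n ε = tR i' n' ε') : i = i' ∧ n = n' ∧ ε = ε' := by
  unfold tR at h
  rw [ZFSet.pair_inj, ZFSet.pair_inj, ZFSet.pair_inj] at h
  exact ⟨h.2.1, h.2.2.1, h.2.2.2⟩

theorem tC_ne_tD {i n ε i' n' ε' : V} : tC i n ε ≠ tD i' n' ε' := by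
  intro h
  unfold tC tD at h
  rw [ZFSet.pair_inj] at h
  have := nn_inj h.1
  omega

theorem tC_ne_tR {i n ε i' n' ε' : V} : tC i n ε ≠ tR i' n' ε' := by
  intro h
  unfold tC tR at h
  rw [ZFSet.pair_inj] at h
  have := nn_inj h.1
  omega

theorem tD_ne_tR {i n ε i' n' ε' : V} : tD i n ε ≠ tR i' n' ε' := by
  intro h
  unfold tD tR at h
  rw [ZFSet.pair_inj] at h
  have := nn_inj h.1
  omega

theorem seg_inj {x m x' m' : V} (h : seg x m = seg x' m') : m = m' ∧ x ∩ m = x' ∩ m' := by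
  unfold seg at h
  rwa [ZFSet.pair_inj] at h

theorem kv_inj {l U a l' U' a' : V} (h : kv l U a = kv l' U' a') : l = l' ∧ U = U' ∧ a = a' := by
  unfold kv at h
  rw [ZFSet.pair_inj, ZFSet.pair_inj] at h
  exact ⟨h.1.1, h.1.2, h.2⟩

/-! ### Decisions -/

theorem Tr.mono {p q i l u : V} (h : Tr p i l u) (hpq : p ⊆ q) : Tr q i l u :=
  ⟨h.1, fun n hn => ⟨fun h' => hpq ((h.2 n hn).1 h'), fun h' => hpq ((h.2 n hn).2 h')⟩⟩

theorem Tr.uniq {p i l u u' : V} (hp : ∀ i n, ¬ (tC i n (nn 0) ∈ p ∧ tC i n (nn 1) ∈ p))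
    (h : Tr p i l u) (h' : Tr p i l u') : u = u' := by
  ext n
  constructor
  · intro hn
    by_contra hn'
    exact hp i n ⟨(h'.2 n (h.1 hn)).2 hn', (h.2 n (h.1 hn)).1 hn⟩
  · intro hn
    by_contra hn'
    exact hp i n ⟨(h.2 n (h'.1 hn)).2 hn', (h'.2 n (h'.1 hn)).1 hn⟩

section

variable {I e : V} {Kap : V → V → Prop} {p : V}

theorem fin_insert {t : V} (h : {s | s ∈ p}.Finite) : {s | s ∈ (insert t p : V)}.Finite := by
  refine (h.insert t).subset fun s hs => ?_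
  rcases ZFSet.mem_insert_iff.1 hs with rfl | hs
  · exact Set.mem_insert _ _
  · exact Set.mem_insert_of_mem _ hs

theorem sub_insert {t : V} : p ⊆ insert t p := fun _ hs => ZFSet.mem_insert_of_mem _ hs

/-- Adding a token `C`. -/
theorem addC (hp : Cond I e Kap p) {i n ε : V} (hi : i ∈ I) (hn : n ∈ (ZFSet.omega : V))
    (hε : ε ∈ nn 2) (h : ∀ ε', tC i n ε' ∉ p) : Cond I e Kap (insert (tC i n ε) p) := by
  have hfun : ∀ j k, ¬ (tC j k (nn 0) ∈ (insert (tC i n ε) p : V) ∧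
      tC j k (nn 1) ∈ (insert (tC i n ε) p : V)) := by
    rintro j k ⟨h0, h1⟩
    rcases ZFSet.mem_insert_iff.1 h0 with h0' | h0'
    · obtain ⟨e1, e2, h2⟩ := tC_inj h0'
      rcases ZFSet.mem_insert_iff.1 h1 with h1' | h1'
      · obtain ⟨_, _, h3⟩ := tC_inj h1'
        exact nn01 (h2.trans h3.symm)
      · rw [e1, e2] at h1'
        exact h _ h1'
    · rcases ZFSet.mem_insert_iff.1 h1 with h1' | h1'
      · obtain ⟨e1, e2, h2⟩ := tC_inj h1'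
        rw [e1, e2] at h0'
        exact h _ h0'
      · exact hp.funC _ _ ⟨h0', h1'⟩
  have hD : ∀ j s ε', tD j s ε' ∈ (insert (tC i n ε) p : V) → tD j s ε' ∈ p := by
    intro j s ε' hh
    rcases ZFSet.mem_insert_iff.1 hh with hh | hh
    · exact absurd hh.symm tC_ne_tD
    · exact hh
  have hR : ∀ j s ε', tR j s ε' ∈ (insert (tC i n ε) p : V) → tR j s ε' ∈ p := by
    intro j s ε' hh
    rcases ZFSet.mem_insert_iff.1 hh with hh | hh
    · exact absurd hh.symm tC_ne_tR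
    · exact hh
  have hTr : ∀ j x m l U u, tR j x m ∈ p → Kap x (kv l U (lab e j)) →
      Tr (insert (tC i n ε) p) j l u → Tr p j l u := by
    intro j x m l U u h1 h2 h3
    obtain ⟨u', h4⟩ := hp.dec j x m l U h1 h2
    have := Tr.uniq hfun h3 (Tr.mono h4 sub_insert)
    rwa [this]
  refine ⟨?_, fin_insert hp.fin, hfun, ?_, ?_, ?_, ?_⟩
  · intro t ht
    rcases ZFSet.mem_insert_iff.1 ht with rfl | ht
    · exact Or.inl ⟨i, hi, n, hn, ε, hε, rfl⟩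
    · exact hp.tok t ht
  · exact fun j s hh => hp.funD j s ⟨hD _ _ _ hh.1, hD _ _ _ hh.2⟩
  · intro j x m l U h1 h2
    obtain ⟨u, hu⟩ := hp.dec j x m l U (hR _ _ _ h1) h2
    exact ⟨u, Tr.mono hu sub_insert⟩
  · intro j x m l U u m' ε' h1 h2 h3 h4 h5
    exact hp.obey j x m l U u m' ε' (hR _ _ _ h1) h2 (hTr _ _ _ _ _ _ (hR _ _ _ h1) h2 h3) h4
      (hD _ _ _ h5)
  · intro j x m l U u x' m' l' U' u' h1 h2 h3 h4 h5 h6
    exact hp.sep j x m l U u x' m' l' U' u' (hR _ _ _ h1) (hR _ _ _ h2) h3 h4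
      (hTr _ _ _ _ _ _ (hR _ _ _ h1) h3 h5) (hTr _ _ _ _ _ _ (hR _ _ _ h2) h4 h6)

/-- Deciding `c_i(n)`. -/
theorem decC (hp : Cond I e Kap p) {i n : V} (hi : i ∈ I) (hn : n ∈ (ZFSet.omega : V)) :
    ∃ q, Cond I e Kap q ∧ p ⊆ q ∧ (tC i n (nn 0) ∈ q ∨ tC i n (nn 1) ∈ q) := by
  by_cases h0 : tC i n (nn 0) ∈ p
  · exact ⟨p, hp, fun _ h => h, Or.inl h0⟩
  by_cases h1 : tC i n (nn 1) ∈ p
  · exact ⟨p, hp, fun _ h => h, Or.inr h1⟩
  refine ⟨insert (tC i n (nn 0)) p, addC hp hi hn (mem_two.2 (Or.inl rfl)) ?_, sub_insert,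
    Or.inl (ZFSet.mem_insert _ _)⟩
  intro ε' h
  rcases hp.tok _ h with ⟨j, _, k, _, ε, hε, h2⟩ | ⟨j, _, k, _, u, _, ε, hε, h2⟩ | ⟨j, _, k, _, _, _, h2⟩
  · obtain ⟨_, _, rfl⟩ := tC_inj h2
    rcases mem_two.1 hε with rfl | rfl
    · exact h0 h
    · exact h1 h
  · exact tC_ne_tD h2
  · exact tC_ne_tR h2

/-- Deciding `c_i ∩ l`. -/
theorem decTr (hp : Cond I e Kap p) {i : V} (hi : i ∈ I) (l : ℕ) :
    ∃ q, Cond I e Kap q ∧ p ⊆ q ∧ ∃ u, Tr q i (nn l) u := by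
  induction l with
  | zero =>
    refine ⟨p, hp, fun _ h => h, ∅, fun x hx => absurd hx (ZFSet.notMem_empty x), fun n hn => ?_⟩
    exact absurd hn (ZFSet.notMem_empty n)
  | succ l ih =>
    obtain ⟨q, hq, hpq, u, hu⟩ := ih
    obtain ⟨r, hr, hqr, h⟩ := decC hq hi (nn_mem l)
    have hsub : u ⊆ nn (l + 1) := fun x hx => nn_sub_nn_of_le (Nat.le_succ l) (hu.1 hx)
    have key : ∀ n ∈ nn (l + 1), n = nn l ∨ n ∈ nn l := fun n hn => ZFSet.mem_insert_iff.1 hn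
    have hlu : nn l ∉ u := fun h => ZFSet.mem_irrefl _ (hu.1 h)
    rcases h with h | h
    · refine ⟨r, hr, fun _ h => hqr (hpq h), u, hsub, fun n hn => ?_⟩
      rcases key n hn with rfl | hn'
      · exact ⟨fun h' => absurd h' hlu, fun _ => h⟩
      · exact ⟨fun h' => hqr ((hu.2 n hn').1 h'), fun h' => hqr ((hu.2 n hn').2 h')⟩
    · refine ⟨r, hr, fun _ h => hqr (hpq h), insert (nn l) u, ?_, fun n hn => ?_⟩
      · intro x hx
        rcases ZFSet.mem_insert_iff.1 hx with rfl | hx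
        · exact nn_mem_nn_of_lt (Nat.lt_succ_self l)
        · exact hsub hx
      · rcases key n hn with rfl | hn'
        · exact ⟨fun _ => h, fun h' => absurd (ZFSet.mem_insert _ _) h'⟩
        · have hne : n ≠ nn l := by
            rintro rfl
            exact ZFSet.mem_irrefl _ hn'
          refine ⟨fun h' => hqr ((hu.2 n hn').1 ?_), fun h' => hqr ((hu.2 n hn').2 ?_)⟩
          · exact (ZFSet.mem_insert_iff.1 h').resolve_left hne
          · exact fun h'' => h' (ZFSet.mem_insert_of_mem _ h'')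

/-- Deciding `d_i(s)`. -/
theorem decD (hp : Cond I e Kap p) {i m u : V} (hi : i ∈ I) (hm : m ∈ (ZFSet.omega : V))
    (hu : u ⊆ m) : ∃ q, Cond I e Kap q ∧ p ⊆ q ∧
      (tD i (ZFSet.pair m u) (nn 0) ∈ q ∨ tD i (ZFSet.pair m u) (nn 1) ∈ q) := by
  by_cases h0 : tD i (ZFSet.pair m u) (nn 0) ∈ p
  · exact ⟨p, hp, fun _ h => h, Or.inl h0⟩
  by_cases h1 : tD i (ZFSet.pair m u) (nn 1) ∈ p
  · exact ⟨p, hp, fun _ h => h, Or.inr h1⟩
  -- the colour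
  have hcol : ∃ ε ∈ nn 2, ∀ x m₀ l U v, tR i x m₀ ∈ p → Kap x (kv l U (lab e i)) →
      Tr p i l v → m₀ ⊆ m → x ∩ m = u → (ε = nn 1 ↔ v ∈ U) := by
    by_cases hc : ∃ x m₀ l U v, tR i x m₀ ∈ p ∧ Kap x (kv l U (lab e i)) ∧
      Tr p i l v ∧ m₀ ⊆ m ∧ x ∩ m = u ∧ v ∈ U
    · obtain ⟨x, m₀, l, U, v, a1, a2, a3, a4, a5, a6⟩ := hc
      refine ⟨nn 1, mem_two.2 (Or.inr rfl), fun x' m₀' l' U' v' b1 b2 b3 b4 b5 => ?_⟩
      refine ⟨fun _ => ?_, fun _ => rfl⟩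
      by_contra b6
      refine hp.sep i x m₀ l U v x' m₀' l' U' v' a1 b1 a2 b2 a3 b3
        (fun h => b6 (h.1 a6)) ?_
      have hsub : m₀ ∪ m₀' ⊆ m := by
        intro z hz
        rcases ZFSet.mem_union.1 hz with hz | hz
        · exact a4 hz
        · exact b4 hz
      have hx : ∀ y : V, y ∩ (m₀ ∪ m₀') = (y ∩ m) ∩ (m₀ ∪ m₀') := by
        intro y
        ext z
        simp only [ZFSet.mem_inter]
        exact ⟨fun h => ⟨⟨h.1, hsub h.2⟩, h.2⟩, fun h => ⟨h.1.1, h.2⟩⟩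
      rw [hx x, hx x', a5, b5]
    · refine ⟨nn 0, mem_two.2 (Or.inl rfl), fun x' m₀' l' U' v' b1 b2 b3 b4 b5 => ?_⟩
      refine ⟨fun h => absurd h nn01, fun b6 => ?_⟩
      exact absurd ⟨x', m₀', l', U', v', b1, b2, b3, b4, b5, b6⟩ hc
  obtain ⟨ε, hε, hcol⟩ := hcol
  refine ⟨insert (tD i (ZFSet.pair m u) ε) p, ?_, sub_insert, ?_⟩
  swap
  · rcases mem_two.1 hε with rfl | rfl
    · exact Or.inl (ZFSet.mem_insert _ _)
    · exact Or.inr (ZFSet.mem_insert _ _)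
  have hC : ∀ j s ε', tC j s ε' ∈ (insert (tD i (ZFSet.pair m u) ε) p : V) → tC j s ε' ∈ p := by
    intro j s ε' hh
    rcases ZFSet.mem_insert_iff.1 hh with hh | hh
    · exact absurd hh tC_ne_tD
    · exact hh
  have hR : ∀ j s ε', tR j s ε' ∈ (insert (tD i (ZFSet.pair m u) ε) p : V) → tR j s ε' ∈ p := by
    intro j s ε' hh
    rcases ZFSet.mem_insert_iff.1 hh with hh | hh
    · exact absurd hh.symm tD_ne_tR
    · exact hh
  have hTr : ∀ j l v, Tr (insert (tD i (ZFSet.pair m u) ε) p) j l v → Tr p j l v :=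
    fun j l v h => ⟨h.1, fun n hn => ⟨fun h' => hC _ _ _ ((h.2 n hn).1 h'),
      fun h' => hC _ _ _ ((h.2 n hn).2 h')⟩⟩
  refine ⟨?_, fin_insert hp.fin, ?_, ?_, ?_, ?_, ?_⟩
  · intro t ht
    rcases ZFSet.mem_insert_iff.1 ht with rfl | ht
    · exact Or.inr (Or.inl ⟨i, hi, m, hm, u, hu, ε, hε, rfl⟩)
    · exact hp.tok t ht
  · exact fun j n hh => hp.funC j n ⟨hC _ _ _ hh.1, hC _ _ _ hh.2⟩
  · rintro j s ⟨c0, c1⟩
    rcases ZFSet.mem_insert_iff.1 c0 with c0' | c0'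
    · obtain ⟨e1, e2, c2⟩ := tD_inj c0'
      rcases ZFSet.mem_insert_iff.1 c1 with c1' | c1'
      · obtain ⟨_, _, c3⟩ := tD_inj c1'
        exact nn01 (c2.trans c3.symm)
      · rw [e1, e2] at c1'
        exact h1 c1'
    · rcases ZFSet.mem_insert_iff.1 c1 with c1' | c1'
      · obtain ⟨e1, e2, c2⟩ := tD_inj c1'
        rw [e1, e2] at c0'
        exact h0 c0'
      · exact hp.funD _ _ ⟨c0', c1'⟩
  · intro j x m₀ l U b1 b2
    obtain ⟨v, hv⟩ := hp.dec j x m₀ l U (hR _ _ _ b1) b2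
    exact ⟨v, Tr.mono hv sub_insert⟩
  · intro j x m₀ l U v m' ε' b1 b2 b3 b4 b5
    rcases ZFSet.mem_insert_iff.1 b5 with b5 | b5
    · obtain ⟨rfl, b6, rfl⟩ := tD_inj b5
      obtain ⟨rfl, b7⟩ := ZFSet.pair_inj.1 b6
      exact hcol x m₀ l U v (hR _ _ _ b1) b2 (hTr _ _ _ b3) b4 b7
    · exact hp.obey j x m₀ l U v m' ε' (hR _ _ _ b1) b2 (hTr _ _ _ b3) b4 b5
  · intro j x m₀ l U v x' m₀' l' U' v' b1 b2 b3 b4 b5 b6
    exact hp.sep j x m₀ l U v x' m₀' l' U' v' (hR _ _ _ b1) (hR _ _ _ b2) b3 b4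
      (hTr _ _ _ b5) (hTr _ _ _ b6)

/-- A finite set of sets satisfies any eventual property at a common large number. -/
theorem exists_large (hp : {s | s ∈ p}.Finite) {Q : V → ℕ → Prop}
    (h : ∀ t ∈ p, ∃ k, ∀ k' ≥ k, Q t k') : ∃ k, ∀ t ∈ p, Q t k := by
  have h1 : ∀ᶠ k in Filter.atTop, ∀ t ∈ {s | s ∈ p}, Q t k :=
    (Filter.eventually_all_finite hp).2 fun t ht => Filter.eventually_atTop.2 (h t ht)
  obtain ⟨k, hk⟩ := h1.exists
  exact ⟨k, fun t ht => hk t ht⟩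

/-- Making a promise. -/
theorem addR (hreal : ∀ x k, Kap x k → x ⊆ ZFSet.omega)
    (hfun : ∀ x k k', Kap x k → Kap x k' → k = k')
    (hp : Cond I e Kap p) {i x l U : V} (hi : i ∈ I) (hl : l ∈ (ZFSet.omega : V))
    (hx : Kap x (kv l U (lab e i))) :
    ∃ q, Cond I e Kap q ∧ p ⊆ q ∧ ∃ m ∈ (ZFSet.omega : V), tR i x m ∈ q := by
  obtain ⟨L, rfl⟩ := mem_omega.1 hl
  obtain ⟨p', hp', hpp', u, hu⟩ := decTr hp hi L
  obtain ⟨k, hk⟩ := exists_large (p := p') hp'.fin (Q := fun t k =>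
    (∀ j m v ε, t = tD j (ZFSet.pair m v) ε → m ∈ nn k) ∧
    ∀ j x' m, t = tR j x' m → x' ≠ x → ∀ z : V, nn k ⊆ z → x ∩ z ≠ x' ∩ z) (by
    intro t ht
    rcases hp'.tok t ht with ⟨j, _, n, _, ε, _, rfl⟩ | ⟨j, _, m, hm, v, _, ε, _, rfl⟩ |
      ⟨j, _, x', m, _, ⟨l', _, U', hK⟩, rfl⟩
    · exact ⟨0, fun k' _ => ⟨fun _ _ _ _ h => absurd h tC_ne_tD,
        fun _ _ _ h => absurd h tC_ne_tR⟩⟩
    · obtain ⟨n, rfl⟩ := mem_omega.1 hm
      refine ⟨n + 1, fun k' hk' => ⟨fun j' m' v' ε' h => ?_, fun _ _ _ h => absurd h tD_ne_tR⟩⟩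
      obtain ⟨_, h, _⟩ := tD_inj h
      rw [← (ZFSet.pair_inj.1 h).1]
      exact nn_mem_nn_of_lt (by omega)
    · by_cases hxx : x' = x
      · refine ⟨0, fun k' _ => ⟨fun _ _ _ _ h => absurd h.symm tD_ne_tR,
          fun j' x'' m' h hne => ?_⟩⟩
        obtain ⟨_, rfl, _⟩ := tR_inj h
        exact absurd hxx hne
      · obtain ⟨k, hk⟩ := exists_split (hreal _ _ hx) (hreal _ _ hK) (Ne.symm hxx)
        refine ⟨k, fun k' hk' => ⟨fun _ _ _ _ h => absurd h.symm tD_ne_tR,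
          fun j' x'' m' h hne z hz => ?_⟩⟩
        obtain ⟨_, rfl, _⟩ := tR_inj h
        exact hk z fun a ha => hz (nn_sub_nn_of_le hk' ha))
  refine ⟨insert (tR i x (nn k)) p', ?_, fun _ h => sub_insert (hpp' h), nn k, nn_mem k,
    ZFSet.mem_insert _ _⟩
  have hC : ∀ j s ε', tC j s ε' ∈ (insert (tR i x (nn k)) p' : V) → tC j s ε' ∈ p' := by
    intro j s ε' hh
    rcases ZFSet.mem_insert_iff.1 hh with hh | hh
    · exact absurd hh tC_ne_tR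
    · exact hh
  have hD : ∀ j s ε', tD j s ε' ∈ (insert (tR i x (nn k)) p' : V) → tD j s ε' ∈ p' := by
    intro j s ε' hh
    rcases ZFSet.mem_insert_iff.1 hh with hh | hh
    · exact absurd hh tD_ne_tR
    · exact hh
  have hTr : ∀ j l v, Tr (insert (tR i x (nn k)) p') j l v → Tr p' j l v :=
    fun j l v h => ⟨h.1, fun n hn => ⟨fun h' => hC _ _ _ ((h.2 n hn).1 h'),
      fun h' => hC _ _ _ ((h.2 n hn).2 h')⟩⟩
  -- the value at the new promise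
  have hval : ∀ l' U' v, Kap x (kv l' U' (lab e i)) → Tr p' i l' v →
      l' = nn L ∧ U' = U ∧ v = u := by
    intro l' U' v h1 h2
    obtain ⟨rfl, rfl, _⟩ := kv_inj (hfun _ _ _ h1 hx)
    exact ⟨rfl, rfl, Tr.uniq hp'.funC h2 hu⟩
  refine ⟨?_, fin_insert hp'.fin, ?_, ?_, ?_, ?_, ?_⟩
  · intro t ht
    rcases ZFSet.mem_insert_iff.1 ht with rfl | ht
    · exact Or.inr (Or.inr ⟨i, hi, x, nn k, nn_mem k, ⟨nn L, nn_mem L, U, hx⟩, rfl⟩)
    · exact hp'.tok t ht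
  · exact fun j n hh => hp'.funC j n ⟨hC _ _ _ hh.1, hC _ _ _ hh.2⟩
  · exact fun j n hh => hp'.funD j n ⟨hD _ _ _ hh.1, hD _ _ _ hh.2⟩
  · intro j y m l' U' b1 b2
    rcases ZFSet.mem_insert_iff.1 b1 with b1 | b1
    · obtain ⟨rfl, rfl, rfl⟩ := tR_inj b1
      obtain ⟨rfl, rfl, _⟩ := kv_inj (hfun _ _ _ b2 hx)
      exact ⟨u, Tr.mono hu sub_insert⟩
    · obtain ⟨v, hv⟩ := hp'.dec j y m l' U' b1 b2
      exact ⟨v, Tr.mono hv sub_insert⟩
  · intro j y m l' U' v m' ε' b1 b2 b3 b4 b5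
    rcases ZFSet.mem_insert_iff.1 b1 with b1 | b1
    · obtain ⟨rfl, rfl, rfl⟩ := tR_inj b1
      have := (hk _ (hD _ _ _ b5)).1 _ m' _ _ rfl
      exact absurd (b4 this) (ZFSet.mem_irrefl _)
    · exact hp'.obey j y m l' U' v m' ε' b1 b2 (hTr _ _ _ b3) b4 (hD _ _ _ b5)
  · intro j y m l' U' v y' m' l'' U'' v' b1 b2 b3 b4 b5 b6 b7
    replace b5 := hTr _ _ _ b5
    replace b6 := hTr _ _ _ b6
    rcases ZFSet.mem_insert_iff.1 b1 with b1' | b1'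
    · obtain ⟨rfl, rfl, rfl⟩ := tR_inj b1'
      obtain ⟨rfl, rfl, rfl⟩ := hval _ _ _ b3 b5
      rcases ZFSet.mem_insert_iff.1 b2 with b2 | b2
      · obtain ⟨_, rfl, rfl⟩ := tR_inj b2
        obtain ⟨rfl, rfl, rfl⟩ := hval _ _ _ b4 b6
        exact absurd Iff.rfl b7
      · by_cases hyy : y' = y
        · subst hyy
          obtain ⟨rfl, rfl, rfl⟩ := hval _ _ _ b4 b6
          exact absurd Iff.rfl b7
        · exact (hk _ b2).2 _ y' _ rfl hyy _ fun a ha => ZFSet.mem_union.2 (Or.inl ha)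
    · rcases ZFSet.mem_insert_iff.1 b2 with b2 | b2
      · obtain ⟨rfl, rfl, rfl⟩ := tR_inj b2
        obtain ⟨rfl, rfl, rfl⟩ := hval _ _ _ b4 b6
        by_cases hyy : y = y'
        · subst hyy
          obtain ⟨rfl, rfl, rfl⟩ := hval _ _ _ b3 b5
          exact absurd Iff.rfl b7
        · exact fun h => (hk _ b1').2 _ y _ rfl hyy _ (fun a ha => ZFSet.mem_union.2 (Or.inr ha)) h.symm
      · exact hp'.sep j y m l' U' v y' m' l'' U'' v' b1' b2 b3 b4 b5 b6 b7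

/-- Making `c_i` and `c_j` distinct. -/
theorem splitC (hp : Cond I e Kap p) {i j : V} (hi : i ∈ I) (hj : j ∈ I) (hij : i ≠ j) :
    ∃ q, Cond I e Kap q ∧ p ⊆ q ∧
      ∃ n ∈ (ZFSet.omega : V), tC i n (nn 0) ∈ q ∧ tC j n (nn 1) ∈ q := by
  obtain ⟨k, hk⟩ := exists_large (p := p) hp.fin (Q := fun t k => ∀ a ε, t ≠ tC a (nn k) ε) (by
    intro t _
    by_cases h : ∃ a, ∃ k : ℕ, ∃ ε, t = tC a (nn k) ε
    · obtain ⟨a, k, ε, rfl⟩ := h
      refine ⟨k + 1, fun k' hk' a' ε' h => ?_⟩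
      have := nn_inj (tC_inj h).2.1
      omega
    · exact ⟨0, fun k' _ a ε h' => h ⟨a, k', ε, h'⟩⟩)
  have h1 := addC hp hi (nn_mem k) (mem_two.2 (Or.inl rfl)) (ε := nn 0)
    (fun ε' h => hk _ h i ε' rfl)
  have h2 := addC h1 hj (nn_mem k) (mem_two.2 (Or.inr rfl)) (ε := nn 1) (fun ε' h => by
    rcases ZFSet.mem_insert_iff.1 h with h | h
    · exact hij (tC_inj h).1.symm
    · exact hk _ h j ε' rfl)
  exact ⟨_, h2, fun _ h => sub_insert (sub_insert h), nn k, nn_mem k,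
    sub_insert (ZFSet.mem_insert _ _), ZFSet.mem_insert _ _⟩

end

/-! ### Membership in `M` -/

section

variable {M : Set V} [ZFm M]

theorem nnM (n : ℕ) : nn n ∈ M := TrC.trans (M := M) ZFm.omega_mem (nn_mem n)

theorem pairM {x y : V} (hx : x ∈ M) (hy : y ∈ M) : ZFSet.pair x y ∈ M :=
  ZFm.upair_mem (by
    have := ZFm.upair_mem hx hx
    rwa [ZFSet.pair_eq_singleton] at this) (ZFm.upair_mem hx hy)

theorem interM {x y : V} (hx : x ∈ M) (hy : y ∈ M) : x ∩ y ∈ M :=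
  ZFm.sep_mem (P := fun z => z ∈ y) (Dfn.mem DMap.id (DMap.const hy hy)) hx

theorem tokM (k : ℕ) {x y z : V} (hx : x ∈ M) (hy : y ∈ M) (hz : z ∈ M) :
    ZFSet.pair (nn k) (ZFSet.pair x (ZFSet.pair y z)) ∈ M :=
  pairM (nnM k) (pairM hx (pairM hy hz))

theorem dense_or {P s t : V} (hP : P ∈ M) (hs : s ∈ M) (ht : t ∈ M) :
    ZFSet.sep (fun p => s ∈ p ∨ t ∈ p) P ∈ M :=
  ZFm.sep_mem (Dfn.or (Dfn.mem (DMap.const hs hs) DMap.id) (Dfn.mem (DMap.const ht ht) DMap.id)) hP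

theorem dtok (k : ℕ) {i : V} (hi : i ∈ M) {Γ : Type 1} [Ctx Γ] {f g : Γ → V} (hf : DMap M M f)
    (hg : DMap M M g) :
    DMap M M (fun γ => ZFSet.pair (nn k) (ZFSet.pair i (ZFSet.pair (f γ) (g γ)))) :=
  DMap.pair (DMap.const (nnM k) (nnM k)) (DMap.pair (DMap.const hi hi) (DMap.pair hf hg))

end

end GrePf

open GrePf

/-- **Module GRE.** The generic reals are distinct, and `d_i` codes `c_i`. -/
theorem stmt_greals : Stmt_greals := by
  intro M _ w I e Kap hS P hP hpos G hG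
  have hIM : ∀ i ∈ I, i ∈ M := fun i hi => TrC.trans hS.I_mem hi
  have hωM : ∀ n ∈ (ZFSet.omega : V), n ∈ M := fun n hn => TrC.trans (M := M) ZFm.omega_mem hn
  have hGc : ∀ p ∈ G, Cond I e Kap p := fun p hp => (hpos p).1 (hG.sub hp)
  -- basic facts on the generic reals
  have hc1 : ∀ i n, n ∈ (ZFSet.omega : V) → ∀ p ∈ G, tC i n (nn 1) ∈ p → n ∈ cre G i :=
    fun i n hn p hp h => ZFSet.mem_sep.2 ⟨hn, p, hp, h⟩
  have hc0 : ∀ i n, ∀ p ∈ G, tC i n (nn 0) ∈ p → n ∉ cre G i := by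
    intro i n p hp h hn
    obtain ⟨_, q, hq, h'⟩ := ZFSet.mem_sep.1 hn
    obtain ⟨r, hr, hpr, hqr⟩ := hG.dir p hp q hq
    exact (hGc r hr).funC i n ⟨hpr h, hqr h'⟩
  refine ⟨fun i hi j hj hij => ?_, fun i hi x l U hl hx => ?_⟩
  · by_contra hne
    have hD : ZFSet.sep (fun p => ∃ n ∈ (ZFSet.omega : V), tC i n (nn 0) ∈ p ∧ tC j n (nn 1) ∈ p)
        P ∈ M := by
      refine ZFm.sep_mem (Dfn.ex_mem (DMap.const ZFm.omega_mem ZFm.omega_mem) (Dfn.and ?_ ?_)) hP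
      · exact Dfn.mem (dtok 0 (hIM i hi) (DMap.snd DMap.id) (DMap.const (nnM 0) (nnM 0)))
          (DMap.fst DMap.id)
      · exact Dfn.mem (dtok 0 (hIM j hj) (DMap.snd DMap.id) (DMap.const (nnM 1) (nnM 1)))
          (DMap.fst DMap.id)
    obtain ⟨p, hpD, hpG⟩ := hG.meets _ hD ⟨fun p hp => (ZFSet.mem_sep.1 hp).1, fun p hp => by
      obtain ⟨q, hq, hpq, h⟩ := splitC ((hpos p).1 hp) hi hj hne
      exact ⟨q, ZFSet.mem_sep.2 ⟨(hpos q).2 hq, h⟩, hpq⟩⟩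
    obtain ⟨_, n, hn, h0, h1⟩ := ZFSet.mem_sep.1 hpD
    have h2 := hc1 j n hn p hpG h1
    rw [← hij] at h2
    exact hc0 i n p hpG h0 h2
  · have hxM : x ∈ M := (hS.kap_real _ _ hx).1
    have hD : ZFSet.sep (fun p => ∃ m ∈ (ZFSet.omega : V), tR i x m ∈ p) P ∈ M := by
      refine ZFm.sep_mem (Dfn.ex_mem (DMap.const ZFm.omega_mem ZFm.omega_mem) ?_) hP
      exact Dfn.mem (dtok 2 (hIM i hi) (DMap.const hxM hxM) (DMap.snd DMap.id)) (DMap.fst DMap.id)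
    obtain ⟨p, hpD, hpG⟩ := hG.meets _ hD ⟨fun p hp => (ZFSet.mem_sep.1 hp).1, fun p hp => by
      obtain ⟨q, hq, hpq, h⟩ := addR (fun x k h => (hS.kap_real x k h).2.1) hS.kap_fun
        ((hpos p).1 hp) hi hl hx
      exact ⟨q, ZFSet.mem_sep.2 ⟨(hpos q).2 hq, h⟩, hpq⟩⟩
    obtain ⟨_, m₀, hm₀, hR⟩ := ZFSet.mem_sep.1 hpD
    obtain ⟨u, hu⟩ := (hGc p hpG).dec i x m₀ l U hR hx
    have hcl : cre G i ∩ l = u := by
      ext n
      rw [ZFSet.mem_inter]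
      constructor
      · rintro ⟨h1, h2⟩
        by_contra h3
        exact hc0 i n p hpG ((hu.2 n h2).2 h3) h1
      · intro h1
        have h2 := hu.1 h1
        obtain ⟨L, rfl⟩ := mem_omega.1 hl
        obtain ⟨k, _, rfl⟩ := mem_nn.1 h2
        exact ⟨hc1 i _ (nn_mem k) p hpG ((hu.2 _ h2).1 h1), h2⟩
    refine ⟨m₀, hm₀, fun m hm hmm => ?_⟩
    rw [hcl]
    have hsegM : seg x m ∈ M := pairM (hωM m hm) (interM hxM (hωM m hm))
    -- a condition that decides `d_i (seg x m)`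
    obtain ⟨q, hqD, hqG⟩ := hG.meets _ (dense_or hP
      (tokM 1 (hIM i hi) hsegM (nnM 0)) (tokM 1 (hIM i hi) hsegM (nnM 1)))
      ⟨fun p hp => (ZFSet.mem_sep.1 hp).1, fun p hp => by
        obtain ⟨q, hq, hpq, h⟩ := decD ((hpos p).1 hp) hi hm
          (u := x ∩ m) (fun z hz => (ZFSet.mem_inter.1 hz).2)
        exact ⟨q, ZFSet.mem_sep.2 ⟨(hpos q).2 hq, h⟩, hpq⟩⟩
    have key : ∀ q ∈ G, ∀ ε, tD i (seg x m) ε ∈ q → (ε = nn 1 ↔ u ∈ U) := by
      intro q hq ε h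
      obtain ⟨r, hr, hpr, hqr⟩ := hG.dir p hpG q hq
      exact (hGc r hr).obey i x m₀ l U u m ε (hpr hR) hx (Tr.mono hu hpr) hmm (hqr h)
    constructor
    · intro h
      obtain ⟨_, q, hq, h'⟩ := ZFSet.mem_sep.1 h
      exact (key q hq _ h').1 rfl
    · intro huU
      refine ZFSet.mem_sep.2 ⟨?_, ?_⟩
      · refine ZFSet.pair_mem_prod.2 ⟨hm, ZFSet.mem_sep.2 ⟨?_, ?_⟩⟩
        · rw [ZFSet.mem_powerset]
          intro z hz
          exact (hS.kap_real _ _ hx).2.1 (ZFSet.mem_inter.1 hz).1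
        · obtain ⟨k, rfl⟩ := mem_omega.1 hm
          refine ((Set.finite_lt_nat k).image nn).subset fun z hz => ?_
          obtain ⟨j, hj, rfl⟩ := mem_nn.1 (ZFSet.mem_inter.1 hz).2
          exact ⟨j, hj, rfl⟩
      · have hq' : tD i (seg x m) (nn 0) ∈ q ∨ tD i (seg x m) (nn 1) ∈ q :=
          (ZFSet.mem_sep.1 hqD).2
        rcases hq' with h | h
        · exact absurd ((key q hqG _ h).2 huU) nn01
        · exact ⟨q, hqG, h⟩

end Pool.Agent.CTM
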