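import Pool.Agent.CTM.StmtsL
import Pool.Agent.CTM.Cbl3

/-!
The hereditarily countable sets of a model of ZFC (MP_ea2134_lc, module HC).
Mathematics: helper73; formalisation: helper65.
-/

set_option autoImplicit false

namespace Pool.Agent.CTM

namespace HCaux

theorem rep_congr {a : V} {F F' : V → V} (h : ∀ x ∈ a, F x = F' x) : rep a F = rep a F' := by
  ext z
  rw [mem_rep, mem_rep]
  constructor
  · rintro ⟨x, hx, rfl⟩
    exact ⟨x, hx, (h x hx).symm⟩
  · rintro ⟨x, hx, rfl⟩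
    exact ⟨x, hx, h x hx⟩

/-- the transitive closure of `{x}` -/
noncomputable def TC (x : V) : V :=
  insert x (ZFSet.sUnion (rep x (fun y => open Classical in if _h : y ∈ x then TC y else ∅)))
termination_by ZFSet.rank x
decreasing_by exact ZFSet.rank_lt_of_mem _h

theorem TC_eq (x : V) : TC x = insert x (ZFSet.sUnion (rep x TC)) := by
  rw [TC]
  congr 2
  exact rep_congr fun y hy => by rw [dif_pos hy]

theorem mem_TC {x z : V} : z ∈ TC x ↔ z = x ∨ ∃ y ∈ x, z ∈ TC y := by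
  rw [TC_eq, ZFSet.mem_insert_iff, ZFSet.mem_sUnion]
  refine or_congr Iff.rfl ?_
  constructor
  · rintro ⟨t, ht, hz⟩
    obtain ⟨y, hy, rfl⟩ := mem_rep.1 ht
    exact ⟨y, hy, hz⟩
  · rintro ⟨y, hy, hz⟩
    exact ⟨_, mem_rep.2 ⟨y, hy, rfl⟩, hz⟩

theorem self_mem_TC (x : V) : x ∈ TC x := mem_TC.2 (Or.inl rfl)

theorem TC_sub_of_mem {x y : V} (h : y ∈ x) : TC y ⊆ TC x := fun _ hz => mem_TC.2 (Or.inr ⟨y, h, hz⟩)

theorem TC_trans (x : V) : (TC x).IsTransitive := by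
  induction x using ZFSet.inductionOn with
  | _ x ih =>
    intro z hz u hu
    rcases mem_TC.1 hz with rfl | ⟨y, hy, hz⟩
    · exact TC_sub_of_mem hu (self_mem_TC u)
    · exact TC_sub_of_mem hy (ih y hy z hz hu)

theorem TC_min {x t : V} (ht : t.IsTransitive) (hx : x ∈ t) : TC x ⊆ t := by
  induction x using ZFSet.inductionOn with
  | _ x ih =>
    intro z hz
    rcases mem_TC.1 hz with rfl | ⟨y, hy, hz⟩
    · exact hx
    · exact ih y hy (ht x hx hy) hz

/-- the power set in `M` -/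
noncomputable def PM (M : Set V) (x : V) : V := ZFSet.sep (fun y => y ∈ M) (ZFSet.powerset x)

theorem mem_PM {M : Set V} {x y : V} : y ∈ PM M x ↔ y ∈ M ∧ y ⊆ x := by
  unfold PM
  rw [ZFSet.mem_sep, ZFSet.mem_powerset, and_comm]

/-- the levels of the cumulative hierarchy of `M` -/
noncomputable def VV (M : Set V) (x : V) : V :=
  ZFSet.sUnion (rep x (fun y => open Classical in if _h : y ∈ x then PM M (VV M y) else ∅))
termination_by ZFSet.rank x
decreasing_by exact ZFSet.rank_lt_of_mem _h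

theorem VV_eq (M : Set V) (x : V) : VV M x = ZFSet.sUnion (rep x (fun y => PM M (VV M y))) := by
  rw [VV]
  congr 1
  exact rep_congr fun y hy => by rw [dif_pos hy]

theorem mem_VV {M : Set V} {x z : V} : z ∈ VV M x ↔ ∃ y ∈ x, z ∈ M ∧ z ⊆ VV M y := by
  rw [VV_eq, ZFSet.mem_sUnion]
  constructor
  · rintro ⟨t, ht, hz⟩
    obtain ⟨y, hy, rfl⟩ := mem_rep.1 ht
    exact ⟨y, hy, mem_PM.1 hz⟩
  · rintro ⟨y, hy, hz⟩
    exact ⟨_, mem_rep.2 ⟨y, hy, rfl⟩, mem_PM.2 hz⟩

theorem ran_gr' (F : V → V) (a : V) : ran (gr F a) = rep a F := by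
  ext z
  rw [Cov.mem_ran_gr, mem_rep]

/-- ranks, as ordinals -/
noncomputable def ro (x : V) : V :=
  ZFSet.sUnion (rep x (fun y => open Classical in if _h : y ∈ x then insert (ro y) (ro y) else ∅))
termination_by ZFSet.rank x
decreasing_by all_goals exact ZFSet.rank_lt_of_mem _h

theorem ro_eq (x : V) : ro x = ZFSet.sUnion (rep x (fun y => insert (ro y) (ro y))) := by
  rw [ro]
  congr 1
  exact rep_congr fun y hy => by rw [dif_pos hy]

theorem mem_ro {x a : V} : a ∈ ro x ↔ ∃ y ∈ x, a = ro y ∨ a ∈ ro y := by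
  rw [ro_eq, ZFSet.mem_sUnion]
  constructor
  · rintro ⟨t, ht, hz⟩
    obtain ⟨y, hy, rfl⟩ := mem_rep.1 ht
    exact ⟨y, hy, ZFSet.mem_insert_iff.1 hz⟩
  · rintro ⟨y, hy, hz⟩
    exact ⟨_, mem_rep.2 ⟨y, hy, rfl⟩, ZFSet.mem_insert_iff.2 hz⟩

theorem ro_ord (x : V) : (ro x).IsOrdinal := by
  induction x using ZFSet.inductionOn with
  | _ x ih =>
    rw [ro_eq]
    refine Cbl3.sUnion_ordinal fun z hz => ?_
    obtain ⟨y, hy, rfl⟩ := mem_rep.1 hz
    exact ZFSet.isOrdinal_succ (ih y hy)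

theorem omega_trans : (ZFSet.omega : V).IsTransitive := by
  intro x hx
  obtain ⟨n, rfl⟩ := Cov.mem_omega.1 hx
  clear hx
  induction n with
  | zero => exact fun y hy => absurd hy (ZFSet.notMem_empty y)
  | succ n ih =>
    intro y hy
    have hy' : y ∈ (insert (nn n) (nn n) : V) := hy
    rcases ZFSet.mem_insert_iff.1 hy' with rfl | h
    · exact Cov.nn_mem n
    · exact ih h

section

variable {A M : Set V}

theorem DMap_TC [ZFm M] : DMap A M TC := by
  refine DMap.recMem (H := fun x g => insert x (ZFSet.sUnion (ran g))) ?_ ?_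
  · apply_rules (transparency := .reducible) (maxDepth := 999) only using is_poly
  · intro x _
    rw [TC_eq, ran_gr']

theorem DMap_ro [ZFm M] : DMap A M ro := by
  refine DMap.recMem (H := fun _ g => ZFSet.sUnion (rep (ran g) (fun y => insert y y))) ?_ ?_
  · apply_rules (transparency := .reducible) (maxDepth := 999) only using is_poly
  · intro x _
    rw [ro_eq, ran_gr']
    congr 1
    ext z
    rw [mem_rep, mem_rep]
    constructor
    · rintro ⟨y, hy, rfl⟩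
      exact ⟨_, mem_rep.2 ⟨y, hy, rfl⟩, rfl⟩
    · rintro ⟨t, ht, rfl⟩
      obtain ⟨y, hy, rfl⟩ := mem_rep.1 ht
      exact ⟨y, hy, rfl⟩

theorem cbl_omega' [ZFm M] : Cbl M (ZFSet.omega : V) := by
  refine ⟨gr (fun n => n) ZFSet.omega, Cov.gr_mem (A := M) DMap.id ZFm.omega_mem, Cov.isFn_gr _ _,
    Cov.dom_gr _ _, fun z hz => ?_⟩
  rw [Cov.mem_ran_gr]
  exact ⟨z, hz, rfl⟩

theorem cbl_rep [ZFm M] {x : V} {F : V → V} (h : Cbl M x) (hF : DMap A M F) :
    Cbl M (rep x F) := Cov.cbl_image h hF fun _ hz => hz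

variable [ZFCm M]

theorem DMap_PM : DMap A M (PM M) := by
  refine DMap.of_graph (fun x hx => ZFCm.power_mem (inM_V.1 hx)) ?_
  refine Dfn.congr' (P := fun p : V × V => (∀ z ∈ p.2, z ⊆ p.1) ∧ ∀ z ∈ M, z ⊆ p.1 → z ∈ p.2)
    (fun p hp => ?_) ?_
  · have h2 : p.2 ∈ M := (inM_prod.1 hp).2
    constructor
    · intro e
      rw [e]
      exact ⟨fun z hz => (mem_PM.1 hz).2, fun z hz h => mem_PM.2 ⟨hz, h⟩⟩
    · rintro ⟨h, h'⟩
      ext z
      rw [mem_PM]
      exact ⟨fun hz => ⟨TrC.trans h2 hz, h z hz⟩, fun hz => h' z hz.1 hz.2⟩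
  · apply_rules (transparency := .reducible) (maxDepth := 999) only using is_poly

theorem DMap_VV : DMap A M (VV M) := by
  have hPM : ∀ {Γ : Type 1} [Ctx Γ] {f : Γ → V}, DMap A M f → DMap A M (fun γ => PM M (f γ)) :=
    fun h => DMap_PM.comp h
  refine DMap.recMem (H := fun _ g => ZFSet.sUnion (rep (ran g) (fun y => PM M y))) ?_ ?_
  · apply_rules (transparency := .reducible) (maxDepth := 999) only [hPM] using is_poly
  · intro x _
    rw [VV_eq, ran_gr']
    congr 1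
    ext z
    rw [mem_rep, mem_rep]
    constructor
    · rintro ⟨y, hy, rfl⟩
      exact ⟨_, mem_rep.2 ⟨y, hy, rfl⟩, rfl⟩
    · rintro ⟨t, ht, rfl⟩
      obtain ⟨y, hy, rfl⟩ := mem_rep.1 ht
      exact ⟨y, hy, rfl⟩

/-- characterisation of the hereditarily countable sets -/
theorem mem_HC {x : V} : x ∈ HC M ↔ x ∈ M ∧ Cbl M (TC x) := by
  constructor
  · rintro ⟨t, ht, htr, hx, hc⟩
    exact ⟨TrC.trans ht hx, Cov.cbl_mono (TC_min htr hx) hc⟩
  · rintro ⟨hx, hc⟩
    have : TC x ∈ M := (DMap_TC (A := M) (M := M)).mem (γ := x) (inM_V.2 hx)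
    exact ⟨TC x, this, TC_trans x, self_mem_TC x, hc⟩

omit [ZFCm M] in
theorem HC_trans {x y : V} (hx : x ∈ HC M) (hy : y ∈ x) : y ∈ HC M := by
  obtain ⟨t, ht, htr, hxt, hc⟩ := hx
  exact ⟨t, ht, htr, htr x hxt hy, hc⟩

theorem HC_sub {x : V} (hx : x ∈ HC M) : x ∈ M := (mem_HC.1 hx).1

omit [ZFCm M] in
theorem HC_cbl {x : V} (hx : x ∈ HC M) : Cbl M x := by
  obtain ⟨t, ht, htr, hxt, hc⟩ := hx
  exact Cov.cbl_mono (htr x hxt) hc

/-- (5) -/
theorem HC_intro {x : V} (hx : x ∈ M) (h : ∀ y ∈ x, y ∈ HC M) (hc : Cbl M x) : x ∈ HC M := by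
  rw [mem_HC]
  refine ⟨hx, ?_⟩
  classical
  obtain ⟨f, hf, hfn, hdom, hran⟩ := hc
  have hTC : ∀ {Δ : Type 1} [Ctx Δ] {f : Δ → V}, DMap M M f → DMap M M (fun γ => TC (f γ)) :=
    fun h => DMap_TC.comp h
  let B : V → V := fun n => if app f n ∈ x then TC (app f n) else ∅
  have happ : DMap M M (fun n : V => app f n) := DMap.app (DMap.const hf hf) DMap.id
  have hB : DMap M M B :=
    Cov.dmap_ite (Dfn.mem happ (DMap.const hx hx)) (hTC happ) DMap.empty
  have h1 : Cbl M (ZFSet.sUnion (rep ZFSet.omega B)) := by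
    refine Cov.cbl_iUnion hB fun n _ => ?_
    show Cbl M (if app f n ∈ x then TC (app f n) else ∅)
    split_ifs with hn
    · exact (mem_HC.1 (h _ hn)).2
    · exact Cov.cbl_empty
  rw [TC_eq]
  refine Cbl3.cbl_insert hx (Cov.cbl_mono (fun z hz => ?_) h1)
  obtain ⟨t, ht, hz⟩ := ZFSet.mem_sUnion.1 hz
  obtain ⟨y, hy, rfl⟩ := mem_rep.1 ht
  obtain ⟨n, hn⟩ := mem_ran.1 (hran hy)
  refine ZFSet.mem_sUnion.2 ⟨B n, mem_rep.2 ⟨n, ?_, rfl⟩, ?_⟩
  · rw [← hdom]
    exact mem_dom.2 ⟨_, hn⟩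
  · show z ∈ (if app f n ∈ x then TC (app f n) else ∅)
    rw [hfn.app_eq hn, if_pos hy]
    exact hz

theorem omega_mem_HC : (ZFSet.omega : V) ∈ HC M ∧ ∀ n ∈ (ZFSet.omega : V), n ∈ HC M := by
  have h1 : (ZFSet.omega : V) ∈ M := ZFm.omega_mem
  have h2 : ∀ n ∈ (ZFSet.omega : V), n ∈ HC M := fun n hn =>
    ⟨ZFSet.omega, h1, omega_trans, hn, cbl_omega'⟩
  exact ⟨HC_intro h1 h2 cbl_omega', h2⟩

theorem empty_mem_HC : (∅ : V) ∈ HC M := by
  exact HC_intro ZFm.empty_mem (fun y hy => absurd hy (ZFSet.notMem_empty y)) Cov.cbl_empty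

theorem upair_mem_HC {x y : V} (hx : x ∈ HC M) (hy : y ∈ HC M) : ({x, y} : V) ∈ HC M := by
  have h1 : ({x, y} : V) = insert x (insert y ∅) := by
    ext z
    simp
  refine HC_intro (ZFm.upair_mem (HC_sub hx) (HC_sub hy)) (fun z hz => ?_) ?_
  · rcases ZFSet.mem_pair.1 hz with rfl | rfl
    · exact hx
    · exact hy
  · rw [h1]
    exact Cbl3.cbl_insert (HC_sub hx) (Cbl3.cbl_insert (HC_sub hy) Cov.cbl_empty)

theorem pair_mem_HC {x y : V} (hx : x ∈ HC M) (hy : y ∈ HC M) : ZFSet.pair x y ∈ HC M := by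
  have h1 := upair_mem_HC hx hx
  rw [ZFSet.pair_eq_singleton] at h1
  exact upair_mem_HC h1 (upair_mem_HC hx hy)

theorem sUnion_mem_HC {x : V} (hx : x ∈ HC M) : (ZFSet.sUnion x : V) ∈ HC M := by
  refine HC_intro (ZFm.sUnion_mem (HC_sub hx)) (fun z hz => ?_) ?_
  · obtain ⟨y, hy, hz⟩ := ZFSet.mem_sUnion.1 hz
    exact HC_trans (HC_trans hx hy) hz
  · refine Cov.cbl_mono (fun z hz => ?_) (mem_HC.1 hx).2
    obtain ⟨y, hy, hz⟩ := ZFSet.mem_sUnion.1 hz
    exact TC_sub_of_mem hy (TC_sub_of_mem hz (self_mem_TC z))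

/-- (4) -/
theorem real_mem_HC {x : V} (hx : x ⊆ ZFSet.omega) : x ∈ HC M ↔ x ∈ M :=
  ⟨HC_sub, fun h => HC_intro h (fun _ hy => omega_mem_HC.2 _ (hx hy)) (Cov.cbl_mono hx cbl_omega')⟩

/-- (3) -/
theorem enum_mem_HC {x : V} (hx : x ∈ HC M) :
    ∃ f ∈ HC M, IsFn f ∧ dom f = ZFSet.omega ∧ x ⊆ ran f := by
  classical
  obtain ⟨f, hf, hfn, hdom, hran⟩ := HC_cbl hx
  have hxM := HC_sub hx
  have hF : DMap M M (fun n : V => if app f n ∈ x then app f n else ∅) := by
    refine Cov.dmap_ite ?_ ?_ ?_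
    · exact Dfn.mem (DMap.app (DMap.const hf hf) DMap.id) (DMap.const hxM hxM)
    · exact DMap.app (DMap.const hf hf) DMap.id
    · exact DMap.empty
  set F : V → V := fun n : V => if app f n ∈ x then app f n else ∅ with hFdef
  have hFH : ∀ n, F n ∈ HC M := by
    intro n
    rw [hFdef]
    show (if app f n ∈ x then app f n else ∅) ∈ HC M
    split_ifs with h
    · exact HC_trans hx h
    · exact empty_mem_HC
  have hom : (ZFSet.omega : V) ∈ M := ZFm.omega_mem
  have hP : DMap M M (fun n : V => ZFSet.pair n (F n)) := DMap.pair DMap.id hF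
  refine ⟨gr F ZFSet.omega, ?_, Cov.isFn_gr F _, Cov.dom_gr F _, ?_⟩
  · refine HC_intro (ZFm.rep_mem hP hom) (fun p hp => ?_) (cbl_rep cbl_omega' hP)
    obtain ⟨n, hn, rfl⟩ := mem_gr.1 hp
    exact pair_mem_HC (omega_mem_HC.2 n hn) (hFH n)
  · intro y hy
    obtain ⟨n, hn⟩ := mem_ran.1 (hran hy)
    have h1 : app f n = y := hfn.app_eq hn
    have h2 : n ∈ (ZFSet.omega : V) := by
      rw [← hdom]
      exact mem_dom.2 ⟨y, hn⟩
    refine mem_ran.2 ⟨n, mem_gr.2 ⟨n, h2, ?_⟩⟩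
    have h3 : F n = y := by
      show (if app f n ∈ x then app f n else ∅) = y
      rw [h1, if_pos hy]
    rw [h3]

omit [ZFCm M] in
/-- ranks of hereditarily countable sets are countable -/
theorem ro_sub (x : V) : ro x ⊆ rep (TC x) ro := by
  intro a ha
  have key : ∀ x : V, ∀ a, (a = ro x ∨ a ∈ ro x) → ∃ y ∈ TC x, ro y = a := by
    intro x
    induction x using ZFSet.inductionOn with
    | _ x ih =>
      rintro a (rfl | h)
      · exact ⟨x, self_mem_TC x, rfl⟩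
      · obtain ⟨y, hy, h⟩ := mem_ro.1 h
        obtain ⟨z, hz, e⟩ := ih y hy a h
        exact ⟨z, TC_sub_of_mem hy hz, e⟩
  obtain ⟨y, hy, e⟩ := key x a (Or.inr ha)
  exact mem_rep.2 ⟨y, hy, e⟩

theorem sub_VV {x : V} (hx : x ∈ M) : x ⊆ VV M (ro x) := by
  induction x using ZFSet.inductionOn with
  | _ x ih =>
    intro y hy
    have hyM : y ∈ M := TrC.trans hx hy
    exact mem_VV.2 ⟨ro y, mem_ro.2 ⟨y, hy, Or.inl rfl⟩, hyM, ih y hy hyM⟩

/-- (2) -/
theorem exists_HC_set (M : Set V) [ZFCm M] : ∃ h ∈ M, ∀ x, x ∈ h ↔ x ∈ HC M := by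
  obtain ⟨w, hw, -, hwm, -⟩ := exists_omega1 M
  have hV : VV M w ∈ M := (DMap_VV (A := M) (M := M)).mem (γ := w) (inM_V.2 hw)
  have hD : Dfn M M (fun x : V => Cbl M (TC x)) := Cbl3.dfn_cbl DMap_TC
  refine ⟨ZFSet.sep (fun x => Cbl M (TC x)) (VV M w), ZFm.sep_mem hD hV, fun x => ?_⟩
  rw [ZFSet.mem_sep, mem_HC]
  constructor
  · rintro ⟨h1, h2⟩
    exact ⟨TrC.trans hV h1, h2⟩
  · rintro ⟨h1, h2⟩
    refine ⟨mem_VV.2 ⟨ro x, ?_, h1, sub_VV h1⟩, h2⟩
    rw [hwm]
    have hrk : DMap M M ro := DMap_ro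
    refine ⟨hrk.mem (γ := x) (inM_V.2 h1), ro_ord x, ?_⟩
    exact Cov.cbl_mono (ro_sub x) (cbl_rep h2 hrk)

end

/-- satisfaction in a set `h ∈ M` is definable in `M` -/
theorem sat_set {M : Set V} [ZFm M] {h : V} (hh : h ∈ M) {C : Type 1} (c : C → V)
    (hc : ∀ a, c a ∈ M) {n : ℕ} (φ : Fm C n) :
    DP M M n (fun v => φ.Sat {x | x ∈ h} (fun x y => x ∈ y) c v) := by
  have hterm : ∀ {n : ℕ} (s : C ⊕ Fin n), DF M M n (fun v => Sum.elim c v s) := by
    intro n s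
    rcases s with a | i
    · exact ⟨fun v _ => hc a, (DP.const_eq (hc a) (hc a) _).congr fun v _ => Iff.rfl⟩
    · exact DF.proj i
  have hatom : ∀ {n : ℕ} (R : V → V → Prop), DP M M (n + 2)
      (fun x => R (x (Fin.natAdd n 0)) (x (Fin.natAdd n 1))) →
      ∀ s t : C ⊕ Fin n, DP M M n (fun v => R (Sum.elim c v s) (Sum.elim c v t)) := by
    intro n R hR s t
    have := DP.subst (A := M) (M := M) (n := n) (k := 2)
      (R := fun _ u => R (u 0) (u 1)) hR (g := fun i v => Sum.elim c v (![s, t] i))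
      (fun i => hterm _)
    exact this
  induction φ with
  | mem s t => exact hatom (fun x y => x ∈ y) (DP.mem _ _) s t
  | eq s t => exact hatom (fun x y => x = y) (DP.eq _ _) s t
  | neg φ ih => exact ih.not
  | and φ ψ ih ih' => exact ih.and ih'
  | @all n φ ih =>
    have h1 : DP M M (n + 1) (fun v => v (Fin.last n) ∈ h → φ.Sat {x | x ∈ h} (fun x y => x ∈ y) c v) := by
      have h2 : DP M M (n + 1) (fun v => v (Fin.last n) ∈ h) := by
        have := DP.subst (A := M) (M := M) (n := n + 1) (k := 2)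
          (R := fun _ u => u 0 ∈ u 1) (DP.mem _ _)
          (g := fun i v => if i = 0 then v (Fin.last n) else h) (fun i => by
            by_cases hi : i = 0
            · subst hi
              simp only [if_true]
              exact DF.proj _
            · simp only [if_neg hi]
              exact ⟨fun v _ => hh, (DP.const_eq hh hh _).congr fun v _ => Iff.rfl⟩)
        refine this.congr fun v _ => ?_
        simp
      refine ((h2.and ih.not).not).congr fun v _ => ?_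
      tauto
    refine (DP.all (P := fun v x => x ∈ h → φ.Sat {x | x ∈ h} (fun x y => x ∈ y) c (Fin.snoc v x))
      ?_).congr fun v _ => ?_
    · refine h1.congr fun v _ => ?_
      simp
    · constructor
      · intro H x hx
        exact H x (TrC.trans hh hx) hx
      · intro H x _ hx
        exact H x hx

/-- a predicate definable in the hereditarily countable sets is definable in `M` -/
theorem exists_dfn {M : Set V} [ZFCm M] {Γ : Type 1} [Ctx Γ] {P : Γ → Prop}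
    (hP : Dfn (HC M) (HC M) P) :
    ∃ Q : Γ → Prop, Dfn M M Q ∧ ∀ γ, InM (HC M) γ → (Q γ ↔ P γ) := by
  obtain ⟨h, hh, hmem⟩ := exists_HC_set M
  have hset : {x | x ∈ h} = HC M := Set.ext hmem
  obtain ⟨φ, hφ⟩ := hP
  refine ⟨fun γ => φ.Sat {x | x ∈ h} (fun x y => x ∈ y) (fun a => a.1) (Ctx.get γ), ?_, ?_⟩
  · have h1 := sat_set hh (fun a : (HC M ∩ HC M : Set V) => a.1) (fun a => HC_sub a.2.1) φ
    refine DP.congr h1 fun v _ => ?_
    show _ ↔ φ.Sat {x | x ∈ h} (fun x y => x ∈ y) (fun a => a.1) (Ctx.get (Ctx.of v : Γ))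
    rw [Ctx.get_of]
  · intro γ hγ
    rw [hset]
    have h2 : φ.Sat (HC M) (fun x y => x ∈ y) (fun a => a.1) (Ctx.get γ) ↔
        P (Ctx.of (Ctx.get γ)) := hφ (Ctx.get γ) hγ
    rwa [Ctx.of_get] at h2

theorem sep_mem_HC {M : Set V} [ZFCm M] {P : V → Prop} (hP : Dfn (HC M) (HC M) P) {a : V}
    (ha : a ∈ HC M) : ZFSet.sep P a ∈ HC M := by
  obtain ⟨Q, hQ, hPQ⟩ := exists_dfn hP
  have h1 : ZFSet.sep Q a ∈ M := ZFm.sep_mem hQ (HC_sub ha)
  have h2 : ZFSet.sep P a = ZFSet.sep Q a := by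
    ext x
    rw [ZFSet.mem_sep, ZFSet.mem_sep]
    exact and_congr_right fun hx => (hPQ x (inM_V.2 (HC_trans ha hx))).symm
  rw [h2]
  exact HC_intro h1 (fun y hy => HC_trans ha (ZFSet.mem_sep.1 hy).1)
    (Cov.cbl_mono (fun y hy => (ZFSet.mem_sep.1 hy).1) (HC_cbl ha))

theorem coll_HC {M : Set V} [ZFCm M] {P : V → V → Prop}
    (hP : Dfn (HC M) (HC M) (fun p : V × V => P p.1 p.2)) {a : V} (ha : a ∈ HC M)
    (hex : ∀ x ∈ a, ∃ y ∈ HC M, P x y) : ∃ b ∈ HC M, ∀ x ∈ a, ∃ y ∈ b, P x y := by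
  obtain ⟨h, hh, hmem⟩ := exists_HC_set M
  obtain ⟨Q, hQ, hPQ⟩ := exists_dfn hP
  obtain ⟨f, hf, hfn, hdom, hinj, hord⟩ := ZFCm.choice (M := M) hh
  have hQ' : ∀ x ∈ HC M, ∀ y ∈ HC M, (Q (x, y) ↔ P x y) := fun x hx y hy =>
    hPQ (x, y) (inM_prod.2 ⟨inM_V.2 hx, hy⟩)
  -- the least witness
  let W : V → V → Prop := fun x y => Q (x, y) ∧ ∀ z ∈ h, Q (x, z) → ¬ app f z ∈ app f y
  have hWd : DMap M M (fun x : V => ZFSet.sUnion (ZFSet.sep (W x) h)) := by
    refine DMap.sUnion (DMap.sep (DMap.const hh hh) ?_)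
    refine Dfn.and ?_ ?_
    · exact hQ.comp DMap.id
    · refine Dfn.all_mem (DMap.const hh hh) (Dfn.imp ?_ (Dfn.not (Dfn.mem ?_ ?_)))
      · exact hQ.comp (g := fun p : (V × V) × V => (p.1.1, p.2))
          (DMap.prodMk (DMap.fst (DMap.fst DMap.id)) (DMap.snd DMap.id))
      · exact DMap.app (DMap.const hf hf) (DMap.snd DMap.id)
      · exact DMap.app (DMap.const hf hf) (DMap.snd (DMap.fst DMap.id))
  have hW : ∀ x ∈ a, ∃ y ∈ h, W x y ∧ ZFSet.sUnion (ZFSet.sep (W x) h) = y := by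
    intro x hx
    have hxH : x ∈ HC M := HC_trans ha hx
    obtain ⟨y0, hy0, hp0⟩ := hex x hx
    -- least value
    have hmin : ∃ y ∈ h, Q (x, y) ∧ ∀ z ∈ h, Q (x, z) → ¬ app f z ∈ app f y := by
      by_contra hcon
      push Not at hcon
      have key : ∀ u : V, ∀ y ∈ h, app f y = u → ¬ Q (x, y) := by
        intro u
        induction u using ZFSet.inductionOn with
        | _ u ih =>
          intro y hy e hq
          obtain ⟨z, hz, hqz, hlt⟩ := hcon y hy hq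
          rw [e] at hlt
          exact ih _ hlt z hz rfl hqz
      exact key _ y0 ((hmem y0).2 hy0) rfl ((hQ' x hxH y0 hy0).2 hp0)
    obtain ⟨y, hy, hq, hm⟩ := hmin
    refine ⟨y, hy, ⟨hq, hm⟩, ?_⟩
    have hs : ZFSet.sep (W x) h = {y} := by
      ext z
      rw [ZFSet.mem_sep, ZFSet.mem_singleton]
      constructor
      · rintro ⟨hz, hqz, hmz⟩
        have h1 := hm z hz hqz
        have h2 := hmz y hy hq
        have h3 : app f z = app f y := by
          rcases (hord z hz).mem_trichotomous (hord y hy) with h | h | h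
          · exact absurd h h1
          · exact h
          · exact absurd h h2
        exact hinj z (hdom ▸ hz) y (hdom ▸ hy) h3
      · rintro rfl
        exact ⟨hy, hq, hm⟩
    rw [hs]
    simp
  refine ⟨rep a (fun x => ZFSet.sUnion (ZFSet.sep (W x) h)), ?_, ?_⟩
  · refine HC_intro (ZFm.rep_mem hWd (HC_sub ha)) (fun y hy => ?_) (cbl_rep (HC_cbl ha) hWd)
    obtain ⟨x, hx, rfl⟩ := mem_rep.1 hy
    obtain ⟨y, hy, -, e⟩ := hW x hx
    rw [e]
    exact (hmem y).1 hy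
  · intro x hx
    obtain ⟨y, hy, hw, e⟩ := hW x hx
    exact ⟨y, mem_rep.2 ⟨x, hx, e⟩, (hQ' x (HC_trans ha hx) y ((hmem y).1 hy)).1 hw.1⟩

end HCaux

open HCaux in
/-- **Module HCM.** -/
theorem stmt_HC : Stmt_HC := by
  intro M _
  refine ⟨?_, exists_HC_set M, fun x hx => enum_mem_HC hx, fun x hx => real_mem_HC hx,
    fun x hx h hc => HC_intro hx h hc⟩
  exact
    { trans := fun hx hy => HC_trans hx hy
      empty_mem := empty_mem_HC
      upair_mem := fun hx hy => upair_mem_HC hx hy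
      sUnion_mem := fun hx => sUnion_mem_HC hx
      omega_mem := omega_mem_HC.1
      sep_mem := fun hP _ ha => sep_mem_HC hP ha
      coll := fun hP _ ha hex => coll_HC hP ha hex }

end Pool.Agent.CTM
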