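import Pool.Agent.CTM.HierDef

/-!
Absolute description of the initial segments of the hierarchy, and the condensation lemma.
-/

set_option autoImplicit false

namespace Pool.Agent.CTM

/-! ### Absoluteness of the step -/

section

variable {Γ : Type 1} [Ctx Γ]

theorem D0.ex_dom {f : Γ → V} {P : Γ → V → Prop} (hf : Prj f)
    (h : D0 (fun p : Γ × V => P p.1 p.2)) : D0 (fun γ => ∃ x ∈ dom (f γ), P γ x) := by
  have h' : D0 (fun q : (((Γ × V) × V) × V) × V => P q.1.1.1.1 q.1.2) :=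
    h.comp (g := fun q : (((Γ × V) × V) × V) × V => (q.1.1.1.1, q.1.2))
      (Prj.prodMk (Prj.fst (Prj.fst (Prj.fst (Prj.fst Prj.id)))) (Prj.snd (Prj.fst Prj.id)))
  refine D0.congr' (P := fun γ => ∃ e ∈ f γ, ∃ t ∈ e, ∃ x ∈ t, ∃ z ∈ t, e = ZFSet.pair x z ∧ P γ x)
    (fun γ => ?_) ?_
  · constructor
    · rintro ⟨x, hx, h⟩
      obtain ⟨z, hz⟩ := mem_dom.1 hx
      obtain ⟨t, ht, h1, h2⟩ := sUU_pair_mem (s := x) (b := z) rfl
      exact ⟨_, hz, t, ht, x, h1, z, h2, rfl, h⟩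
    · rintro ⟨e, he, t, _, x, _, z, _, rfl, h⟩
      exact ⟨x, mem_dom.2 ⟨z, he⟩, h⟩
  · refine D0.ex_mem hf (D0.ex_mem (Prj.snd Prj.id) (D0.ex_mem (Prj.snd Prj.id)
      (D0.ex_mem (Prj.snd (Prj.fst Prj.id)) (D0.and (D0.isPair (Prj.snd (Prj.fst (Prj.fst
        (Prj.fst Prj.id)))) (Prj.snd (Prj.fst Prj.id)) (Prj.snd Prj.id)) h'))))

theorem D0.all_dom {f : Γ → V} {P : Γ → V → Prop} (hf : Prj f)
    (h : D0 (fun p : Γ × V => P p.1 p.2)) : D0 (fun γ => ∀ x ∈ dom (f γ), P γ x) :=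
  (D0.ex_dom (P := fun γ x => ¬ P γ x) hf h.not).not.congr fun γ => by push Not; rfl

theorem D0.mem_dom {f g : Γ → V} (hf : Prj f) (hg : Prj g) : D0 (fun γ => f γ ∈ dom (g γ)) := by
  refine D0.congr' (P := fun γ => ∃ x ∈ dom (g γ), f γ = x) (fun γ => ?_) ?_
  · simp
  · exact D0.ex_dom hg (D0.eq (hf.comp (Prj.fst Prj.id)) (Prj.snd Prj.id))

theorem D0.ex_domtop {f : Γ → V} {P : Γ → V → Prop} (hf : Prj f)
    (h : D0 (fun p : Γ × V => P p.1 p.2)) : D0 (fun γ => ∃ x ∈ dom (topr (f γ)), P γ x) := by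
  refine D0.congr' (P := fun γ => P γ (f γ) ∨ ∃ x ∈ dom (f γ), P γ x) (fun γ => ?_)
    (D0.or (h.comp (Prj.prodMk Prj.id hf)) (D0.ex_dom hf h))
  constructor
  · rintro ⟨x, hx, h⟩
    rcases mem_dom_topr.1 hx with rfl | hx
    · exact Or.inl h
    · exact Or.inr ⟨x, hx, h⟩
  · rintro (h | ⟨x, hx, h⟩)
    · exact ⟨_, mem_dom_topr.2 (Or.inl rfl), h⟩
    · exact ⟨x, mem_dom_topr.2 (Or.inr hx), h⟩

theorem D0.all_domtop {f : Γ → V} {P : Γ → V → Prop} (hf : Prj f)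
    (h : D0 (fun p : Γ × V => P p.1 p.2)) : D0 (fun γ => ∀ x ∈ dom (topr (f γ)), P γ x) :=
  (D0.ex_domtop (P := fun γ x => ¬ P γ x) hf h.not).not.congr fun γ => by push Not; rfl

theorem D0.pairMemC {f g h : Γ → V} (hf : Prj f) (hg : Prj g) (hh : Prj h) :
    D0 (fun γ => ZFSet.pair (f γ) (g γ) ∈ h γ) := by
  refine D0.congr' (P := fun γ => ∃ e ∈ h γ, e = ZFSet.pair (f γ) (g γ)) (fun γ => ?_) ?_
  · simp
  · exact D0.ex_mem hh (D0.isPair (Prj.snd Prj.id) (hf.comp (Prj.fst Prj.id))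
      (hg.comp (Prj.fst Prj.id)))

theorem D0.mem_domtop {f g : Γ → V} (hf : Prj f) (hg : Prj g) :
    D0 (fun γ => f γ ∈ dom (topr (g γ))) := by
  refine D0.congr' (P := fun γ => ∃ x ∈ dom (topr (g γ)), f γ = x) (fun γ => ?_) ?_
  · simp
  · exact D0.ex_domtop hg (D0.eq (hf.comp (Prj.fst Prj.id)) (Prj.snd Prj.id))

theorem D0.pair_mem_topr {f g h : Γ → V} (hf : Prj f) (hg : Prj g) (hh : Prj h) :
    D0 (fun γ => ZFSet.pair (f γ) (g γ) ∈ topr (h γ)) := by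
  refine D0.congr' (P := fun γ => ZFSet.pair (f γ) (g γ) ∈ h γ ∨
    ((f γ = h γ ∨ f γ ∈ dom (h γ)) ∧ g γ = h γ)) (fun γ => CTM.pair_mem_topr) ?_
  exact D0.or (D0.pairMemC hf hg hh) (D0.and (D0.or (D0.eq hf hh) (D0.mem_dom hf hh))
    (D0.eq hg hh))

end

/-! Guarded versions of the rules for membership. -/

theorem D0.memI {Γ : Type 1} [Ctx Γ] {f g : Γ → V} [h : IsPrj f] [h' : IsPrj g] :
    D0 (fun γ => f γ ∈ g γ) := D0.mem h.out h'.out

theorem D0.ex_memI {Γ : Type 1} [Ctx Γ] {f : Γ → V} {P : Γ → V → Prop} [hf : IsPrj f]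
    (h : D0 (fun p : Γ × V => P p.1 p.2)) : D0 (fun γ => ∃ x ∈ f γ, P γ x) := D0.ex_mem hf.out h

theorem D0.all_memI {Γ : Type 1} [Ctx Γ] {f : Γ → V} {P : Γ → V → Prop} [hf : IsPrj f]
    (h : D0 (fun p : Γ × V => P p.1 p.2)) : D0 (fun γ => ∀ x ∈ f γ, P γ x) := D0.all_mem hf.out h

section

variable {Γ : Type 1} [Ctx Γ]

theorem D0.prect {f g h : Γ → V} (hf : Prj f) (hg : Prj g) (hh : Prj h) :
    D0 (fun γ => prec (topr (f γ)) (g γ) (h γ)) := by
  have : D0 (fun p : (V × V) × V => prec (topr p.1.1) p.1.2 p.2) := by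
    unfold prec ltT ltS
    apply_rules (transparency := .reducible) (maxDepth := 999) only [D0.not, D0.and, D0.or,
      D0.imp, D0.pair_mem_topr, D0.mem_domtop, D0.ex_domtop, D0.all_domtop, D0.isFop, D0.eqI,
      D0.memI, D0.ex_memI, D0.all_memI, Prj.id, Prj.snd, Prj.fst, Prj.prodMk]
  exact this.comp (g := fun γ => ((f γ, g γ), h γ)) ((hf.prodMk hg).prodMk hh)

theorem D0.mem_newt {f g : Γ → V} (hf : Prj f) (hg : Prj g) :
    D0 (fun γ => f γ ∈ newS (topr (g γ))) := by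
  have : D0 (fun p : V × V => p.1 ∈ newS (topr p.2)) := by
    refine D0.congr' (P := fun p : V × V => (∃ w ∈ dom (topr p.2), ∃ u ∈ dom (topr p.2),
      ∃ v ∈ dom (topr p.2), p.1 = Fop w u v) ∧ ¬ p.1 ∈ dom (topr p.2)) (fun p => mem_newS) ?_
    apply_rules (transparency := .reducible) (maxDepth := 999) only [D0.not, D0.and, D0.or,
      D0.imp, D0.pair_mem_topr, D0.mem_domtop,
      D0.ex_domtop, D0.all_domtop, D0.mem_dom, D0.ex_dom, D0.all_dom, D0.pairMemC, D0.isFop,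
      D0.isPair, D0.eqI, D0.memI, D0.ex_memI, D0.all_memI, Prj.id, Prj.snd, Prj.fst, Prj.prodMk]
  exact this.comp (g := fun γ => (f γ, g γ)) (hf.prodMk hg)

theorem D0.pair_mem_stp {f g h : Γ → V} (hf : Prj f) (hg : Prj g) (hh : Prj h) :
    D0 (fun γ => ZFSet.pair (f γ) (g γ) ∈ Stp (h γ)) := by
  have : D0 (fun p : (V × V) × V => ZFSet.pair p.1.1 p.1.2 ∈ Stp p.2) := by
    refine D0.congr' (P := fun p : (V × V) × V =>
      ZFSet.pair p.1.1 p.1.2 ∈ topr p.2 ∨ (p.1.1 ∈ dom (topr p.2) ∧ p.1.2 ∈ newS (topr p.2)) ∨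
      (p.1.1 ∈ newS (topr p.2) ∧ p.1.2 ∈ newS (topr p.2) ∧
        (p.1.1 = p.1.2 ∨ prec (topr p.2) p.1.1 p.1.2))) (fun p => pair_mem_ext2) ?_
    apply_rules (transparency := .reducible) (maxDepth := 999) only [D0.not, D0.and, D0.or,
      D0.imp, D0.prect, D0.mem_newt, D0.pair_mem_topr, D0.mem_domtop,
      D0.ex_domtop, D0.all_domtop, D0.mem_dom, D0.ex_dom, D0.all_dom, D0.pairMemC, D0.isFop,
      D0.isPair, D0.eqI, D0.memI, D0.ex_memI, D0.all_memI, Prj.id, Prj.snd, Prj.fst, Prj.prodMk]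
  exact this.comp (g := fun γ => ((f γ, g γ), h γ)) ((hf.prodMk hg).prodMk hh)

end

/-- `Stp q ⊆ r`, in bounded form. -/
def StpLe (q r : V) : Prop :=
  (∀ x ∈ dom (topr q), ∀ y ∈ dom (topr q), ZFSet.pair x y ∈ topr q → ZFSet.pair x y ∈ r) ∧
  (∀ w ∈ dom (topr q), ∀ u ∈ dom (topr q), ∀ v ∈ dom (topr q),
    ∃ y ∈ dom r, y = Fop w u v) ∧
  (∀ y ∈ dom r, y ∈ newS (topr q) → ∀ x ∈ dom (topr q), ZFSet.pair x y ∈ r) ∧
  (∀ x ∈ dom r, ∀ y ∈ dom r, x ∈ newS (topr q) → y ∈ newS (topr q) →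
    (x = y ∨ prec (topr q) x y) → ZFSet.pair x y ∈ r)

theorem stpLe_iff {q r : V} (hq : WO q) (_hr : ∀ x y, ZFSet.pair x y ∈ r → y ∈ dom r) :
    StpLe q r ↔ Stp q ⊆ r := by
  have hnew : ∀ y, y ∈ newS (topr q) → y ∈ dom (Stp q) := fun y hy =>
    hq.topr.mem_dom_ext2.2 (Or.inr hy)
  constructor
  · rintro ⟨h1, h2, h3, h4⟩ p hp
    obtain ⟨x, y, rfl⟩ := hq.stp.rel p hp
    have hnr : ∀ y, y ∈ newS (topr q) → y ∈ dom r := by
      intro y hy
      obtain ⟨⟨w, hw, u, hu, v, hv, rfl⟩, _⟩ := mem_newS.1 hy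
      obtain ⟨y, hy, rfl⟩ := h2 w hw u hu v hv
      exact hy
    rcases pair_mem_ext2.1 hp with h | ⟨h, h'⟩ | ⟨h, h', h''⟩
    · exact h1 x (hq.topr.left h) y (hq.topr.right _ _ h) h
    · exact h3 y (hnr y h') h' x h
    · exact h4 x (hnr x h) y (hnr y h') h h' h''
  · intro h
    refine ⟨fun x _ y _ hxy => h (subset_ext2 _ hxy), fun w hw u hu v hv => ?_,
      fun y _ hy' x hx => h (pair_mem_ext2.2 (Or.inr (Or.inl ⟨hx, hy'⟩))),
      fun x _ y _ hx' hy' hxy => h (pair_mem_ext2.2 (Or.inr (Or.inr ⟨hx', hy', hxy⟩)))⟩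
    refine ⟨_, dom_mono h ?_, rfl⟩
    rw [Stp, hq.topr.mem_dom_ext2]
    by_cases h5 : Fop w u v ∈ dom (topr q)
    · exact Or.inl h5
    · exact Or.inr (mem_newS.2 ⟨⟨w, hw, u, hu, v, hv, rfl⟩, h5⟩)

/-- Initial segments of the hierarchy, in absolute form. -/
def Good (A : V) : Prop :=
  (∀ r ∈ A, ∀ r' ∈ A, r ∈ dom r' ∨ r = r' ∨ r' ∈ dom r) ∧
  ∀ r ∈ A, (∀ p ∈ r, ∃ t ∈ p, ∃ x ∈ t, ∃ y ∈ t, p = ZFSet.pair x y ∧
      ∃ q ∈ A, q ∈ dom r ∧ ZFSet.pair x y ∈ Stp q) ∧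
    ∀ q ∈ A, q ∈ dom r → StpLe q r

theorem D0.good' : D0 (fun A : V => Good A) := by
  unfold Good StpLe
  apply_rules (transparency := .reducible) (maxDepth := 999) only [D0.not, D0.and, D0.or,
      D0.imp, D0.prect, D0.mem_newt, D0.pair_mem_stp, D0.pair_mem_topr, D0.mem_domtop,
      D0.ex_domtop, D0.all_domtop, D0.mem_dom, D0.ex_dom, D0.all_dom, D0.pairMemC, D0.isFop,
      D0.isPair, D0.eqI, D0.memI, D0.ex_memI, D0.all_memI, Prj.id, Prj.snd, Prj.fst, Prj.prodMk]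

theorem D0.good {Γ : Type 1} [Ctx Γ] {f : Γ → V} (hf : Prj f) : D0 (fun γ => Good (f γ)) :=
  D0.good'.comp hf

attribute [is_poly] D0.good

/-- The set `{lev β : β < α}`. -/
noncomputable def levs (α : Ordinal.{0}) : V := rep α.toZFSet levZ

theorem mem_levs {α : Ordinal.{0}} {r : V} : r ∈ levs α ↔ ∃ β < α, r = lev β := by
  unfold levs
  rw [mem_rep]
  constructor
  · rintro ⟨x, hx, rfl⟩
    obtain ⟨β, hβ, rfl⟩ := Ordinal.mem_toZFSet_iff.1 hx
    exact ⟨β, hβ, levZ_toZFSet β⟩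
  · rintro ⟨β, hβ, rfl⟩
    exact ⟨_, Ordinal.mem_toZFSet_iff.2 ⟨β, hβ, rfl⟩, levZ_toZFSet β⟩

theorem lev_mem_dom_iff {α β : Ordinal.{0}} : lev β ∈ dom (lev α) ↔ β < α := by
  constructor
  · intro h
    by_contra h'
    exact lev_notMem_slev (not_lt.1 h') h
  · exact lev_mem_slev

theorem good_levs (α : Ordinal.{0}) : Good (levs α) := by
  refine ⟨fun r hr r' hr' => ?_, fun r hr => ⟨fun p hp => ?_, fun q hq hqr => ?_⟩⟩
  · obtain ⟨β, hβ, rfl⟩ := mem_levs.1 hr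
    obtain ⟨γ, hγ, rfl⟩ := mem_levs.1 hr'
    rcases lt_trichotomy β γ with h | rfl | h
    · exact Or.inl (lev_mem_dom_iff.2 h)
    · exact Or.inr (Or.inl rfl)
    · exact Or.inr (Or.inr (lev_mem_dom_iff.2 h))
  · obtain ⟨β, hβ, rfl⟩ := mem_levs.1 hr
    obtain ⟨γ, hγ, hp'⟩ := mem_lev.1 hp
    obtain ⟨x, y, rfl⟩ := (lev_wo β).1.rel p hp
    obtain ⟨t, ht, h1, h2⟩ := sUU_pair_mem (s := x) (b := y) rfl
    exact ⟨t, ht, x, h1, y, h2, rfl, lev γ, mem_levs.2 ⟨γ, hγ.trans hβ, rfl⟩,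
      lev_mem_dom_iff.2 hγ, hp'⟩
  · obtain ⟨β, hβ, rfl⟩ := mem_levs.1 hr
    obtain ⟨γ, hγ, rfl⟩ := mem_levs.1 hq
    rw [stpLe_iff (lev_wo γ).1 (lev_wo β).1.right]
    exact stp_lev_subset (lev_mem_dom_iff.1 hqr)

theorem Good.eq_levs {A : V} (h : Good A) : ∃ α, A = levs α := by
  -- every element of `A` is a level, all of whose predecessors are in `A`
  have key : ∀ r : V, r ∈ A → ∃ α, r = lev α ∧ ∀ β < α, lev β ∈ A := by
    intro r
    induction hn : ZFSet.rank r using WellFoundedLT.induction generalizing r with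
    | ind n ih =>
    intro hr
    subst hn
    have ih' : ∀ q ∈ A, q ∈ dom r → ∃ α, q = lev α ∧ ∀ β < α, lev β ∈ A := fun q hq hqr =>
      ih _ (rank_lt_of_mem_dom hqr) q rfl hq
    -- the set of indices of the predecessors
    set I : Set Ordinal.{0} := {β | lev β ∈ A ∧ lev β ∈ dom r} with hI
    have hdown : ∀ β ∈ I, ∀ γ < β, γ ∈ I := by
      rintro β ⟨h1, h2⟩ γ hγ
      obtain ⟨α, e, h3⟩ := ih' _ h1 h2
      have := lev_injective e
      subst this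
      have h4 : lev γ ∈ A := h3 γ hγ
      refine ⟨h4, ?_⟩
      rcases h.1 _ h4 r hr with h5 | h5 | h5
      · exact h5
      · exfalso
        have h6 := rank_lt_of_mem_dom h2
        have h7 := rank_lt_of_mem_dom (lev_mem_dom_iff.2 hγ)
        rw [h5] at h7
        exact lt_asymm h6 h7
      · exfalso
        have h6 := rank_lt_of_mem_dom h2
        have h7 := rank_lt_of_mem_dom (lev_mem_dom_iff.2 hγ)
        have h8 := rank_lt_of_mem_dom h5
        exact lt_asymm h6 (h8.trans h7)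
    have hbdd : ∃ α, α ∉ I := by
      by_contra hcon
      push Not at hcon
      have h1 : Function.Injective (fun β : Ordinal.{0} => (⟨lev β, (hcon β).1⟩ : A)) := by
        intro a b e
        exact lev_injective (congrArg Subtype.val e)
      exact not_small_ordinal.{0} (small_of_injective h1)
    set α := sInf {α | α ∉ I} with hα
    have hαI : α ∉ I := csInf_mem (s := {α | α ∉ I}) hbdd
    have hltI : ∀ β < α, β ∈ I := by
      intro β hβ
      by_contra h1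
      exact absurd (csInf_le' (s := {α | α ∉ I}) h1) (not_le.2 hβ)
    have hIα : ∀ β ∈ I, β < α := by
      intro β hβ
      by_contra h1
      rcases (not_lt.1 h1).lt_or_eq with h2 | h2
      · exact hαI (hdown β hβ α h2)
      · exact hαI (h2 ▸ hβ)
    refine ⟨α, ?_, fun β hβ => (hltI β hβ).1⟩
    ext p
    rw [mem_lev]
    constructor
    · intro hp
      obtain ⟨t, _, x, _, y, _, rfl, q, hq, hqr, h1⟩ := (h.2 r hr).1 p hp
      obtain ⟨β, rfl, _⟩ := ih' q hq hqr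
      exact ⟨β, hIα β ⟨hq, hqr⟩, h1⟩
    · rintro ⟨β, hβ, hp⟩
      obtain ⟨h1, h2⟩ := hltI β hβ
      have h3 := (h.2 r hr).2 _ h1 h2
      have hrr : ∀ x y, ZFSet.pair x y ∈ r → y ∈ dom r := by
        intro x y hxy
        obtain ⟨t, _, x', _, y', _, e, q, hq, hqr, h4⟩ := (h.2 r hr).1 _ hxy
        obtain ⟨rfl, rfl⟩ := ZFSet.pair_injective e
        obtain ⟨γ, rfl, _⟩ := ih' q hq hqr
        have h5 := (lev_wo γ).1.stp.right _ _ h4
        have h6 := (h.2 r hr).2 _ hq hqr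
        rcases (lev_wo γ).1.topr.mem_dom_ext2.1 h5 with h7 | h7
        · have h8 : ZFSet.pair y y ∈ topr (lev γ) := (lev_wo γ).1.topr.refl h7
          exact mem_dom.2 ⟨y, h6.1 y h7 y h7 h8⟩
        · obtain ⟨⟨w, hw, u, hu, v, hv, rfl⟩, _⟩ := mem_newS.1 h7
          obtain ⟨y, hy, rfl⟩ := h6.2.1 w hw u hu v hv
          exact hy
      exact (stpLe_iff (lev_wo β).1 hrr).1 h3 hp
  -- hence `A` is an initial segment
  set J : Set Ordinal.{0} := {β | lev β ∈ A} with hJ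
  have hdown : ∀ β ∈ J, ∀ γ < β, γ ∈ J := by
    intro β hβ γ hγ
    obtain ⟨α, e, h3⟩ := key _ hβ
    have := lev_injective e
    subst this
    exact h3 γ hγ
  have hbdd : ∃ α, α ∉ J := by
    by_contra hcon
    push Not at hcon
    have h1 : Function.Injective (fun β : Ordinal.{0} => (⟨lev β, hcon β⟩ : A)) := by
      intro a b e
      exact lev_injective (congrArg Subtype.val e)
    exact not_small_ordinal.{0} (small_of_injective h1)
  refine ⟨sInf {α | α ∉ J}, ?_⟩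
  ext r
  rw [mem_levs]
  constructor
  · intro hr
    obtain ⟨α, rfl, _⟩ := key r hr
    refine ⟨α, ?_, rfl⟩
    by_contra h1
    have h2 : sInf {α | α ∉ J} ∉ J := csInf_mem (s := {α | α ∉ J}) hbdd
    rcases (not_lt.1 h1).lt_or_eq with h3 | h3
    · exact h2 (hdown α hr _ h3)
    · rw [h3] at h2
      exact h2 hr
  · rintro ⟨β, hβ, rfl⟩
    by_contra h1
    exact absurd (csInf_le' (s := {α | α ∉ J}) h1) (not_le.2 hβ)

/-- `A` is an initial segment of the hierarchy one of whose levels contains `x`. -/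
def GoodAt (x A : V) : Prop := Good A ∧ ∃ r ∈ A, x ∈ dom r

theorem D0.goodAt {Γ : Type 1} [Ctx Γ] {f g : Γ → V} (hf : Prj f) (hg : Prj g) :
    D0 (fun γ => GoodAt (f γ) (g γ)) := by
  have : D0 (fun p : V × V => GoodAt p.1 p.2) := by
    unfold GoodAt
    apply_rules (transparency := .reducible) (maxDepth := 999) only [D0.good, D0.not, D0.and, D0.or,
      D0.imp, D0.prect, D0.mem_newt, D0.pair_mem_stp, D0.pair_mem_topr, D0.mem_domtop,
      D0.ex_domtop, D0.all_domtop, D0.mem_dom, D0.ex_dom, D0.all_dom, D0.pairMemC, D0.isFop,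
      D0.isPair, D0.eqI, D0.memI, D0.ex_memI, D0.all_memI, Prj.id, Prj.snd, Prj.fst, Prj.prodMk]
  exact this.comp (g := fun γ => (f γ, g γ)) (hf.prodMk hg)

attribute [is_poly] D0.goodAt

/-- **Condensation.** A small transitive class, every element `x` of which has an initial segment
`A` of the hierarchy in the class with `x` in the field of a member of `A`, is a level. -/
theorem condensationL (T : Set V) [Small.{0} T] (htr : ∀ x ∈ T, ∀ y ∈ x, y ∈ T)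
    (hne : T.Nonempty) (h : ∀ x ∈ T, ∃ A ∈ T, GoodAt x A) :
    ∃ l, Lim l ∧ T = {x | x ∈ slev l} ∧ ∀ β < l, lev β ∈ T := by
  have h1 : ∀ x ∈ T, ∃ α, x ∈ slev α ∧ ∀ β ≤ α, lev β ∈ T := by
    intro x hx
    obtain ⟨A, hA, hG, r, hr, hxr⟩ := h x hx
    obtain ⟨α, rfl⟩ := hG.eq_levs
    obtain ⟨β, hβ, rfl⟩ := mem_levs.1 hr
    exact ⟨β, hxr, fun γ hγ => htr _ hA _ (mem_levs.2 ⟨γ, hγ.trans_lt hβ, rfl⟩)⟩
  set J : Set Ordinal.{0} := {β | lev β ∈ T} with hJ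
  have hbdd : ∃ α, α ∉ J := by
    by_contra hcon
    push Not at hcon
    have h1 : Function.Injective (fun β : Ordinal.{0} => (⟨lev β, hcon β⟩ : T)) := by
      intro a b e
      exact lev_injective (congrArg Subtype.val e)
    exact not_small_ordinal.{0} (small_of_injective h1)
  have hup : ∀ β ∈ J, ∃ γ, β < γ ∧ ∀ δ ≤ γ, δ ∈ J := by
    intro β hβ
    obtain ⟨α, h2, h3⟩ := h1 _ hβ
    exact ⟨α, lev_mem_dom_iff.1 h2, h3⟩
  have h2 : sInf {α | α ∉ J} ∉ J := csInf_mem (s := {α | α ∉ J}) hbdd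
  have h3 : ∀ β < sInf {α | α ∉ J}, β ∈ J := by
    intro β hβ
    by_contra h1
    exact absurd (csInf_le' (s := {α | α ∉ J}) h1) (not_le.2 hβ)
  have h4 : ∀ β ∈ J, β < sInf {α | α ∉ J} := by
    intro β hβ
    obtain ⟨γ, hγ, h5⟩ := hup β hβ
    by_contra h6
    exact h2 (h5 _ ((not_lt.1 h6).trans hγ.le))
  refine ⟨sInf {α | α ∉ J}, ⟨?_, fun β hβ => ?_⟩, ?_, h3⟩
  · obtain ⟨x, hx⟩ := hne
    obtain ⟨α, _, h5⟩ := h1 x hx
    exact h4 0 (h5 0 (by simp))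
  · obtain ⟨γ, hγ, h5⟩ := hup β (h3 β hβ)
    exact (Order.succ_le_of_lt hγ).trans_lt (h4 γ (h5 γ le_rfl))
  · ext x
    constructor
    · intro hx
      obtain ⟨α, h5, h6⟩ := h1 x hx
      exact slev_mono (h4 α (h6 α le_rfl)).le h5
    · intro hx
      obtain ⟨β, hβ, h5⟩ := mem_slev.1 hx
      have hl : Order.succ β < sInf {α | α ∉ J} := by
        obtain ⟨γ, hγ, h5⟩ := hup β (h3 β hβ)
        exact (Order.succ_le_of_lt hγ).trans_lt (h4 γ (h5 γ le_rfl))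
      have h6 : lev (Order.succ β) ∈ T := h3 _ hl
      obtain ⟨y, hy⟩ := mem_dom.1 h5
      have h7 : ZFSet.pair x y ∈ T := htr _ h6 _ hy
      have h8 : ({x, y} : V) ∈ T := htr _ h7 _ (by simp [ZFSet.pair])
      exact htr _ h8 _ (by simp)

end Pool.Agent.CTM
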