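import Pool.Agent.CTM.HierZF

/-!
Definability of the hierarchy in transitive models of ZF without power set, and the enumeration
`Lx` of the inner model by ordinals.
-/

set_option autoImplicit false

namespace Pool.Agent.CTM

section

variable {Γ : Type 1} [Ctx Γ] {A M : Set V} [ZFm M]

theorem DMap.prod {f g : Γ → V} (hf : DMap A M f) (hg : DMap A M g) :
    DMap A M (fun γ => ZFSet.prod (f γ) (g γ)) := by
  have h : DMap A M (fun p : V × V => ZFSet.prod p.1 p.2) := by
    refine DMap.congr' (f := fun p : V × V => (ZFSet.sUnion (CTM.rep p.1 fun x =>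
      CTM.rep p.2 fun y => ZFSet.pair x y) : V)) (fun p _ => ?_)
      (by apply_rules (transparency := .reducible) (maxDepth := 999) only using is_poly)
    ext z
    rw [ZFSet.mem_prod, ZFSet.mem_sUnion]
    constructor
    · rintro ⟨a, ha, b, hb, rfl⟩
      exact ⟨_, mem_rep.2 ⟨a, ha, rfl⟩, mem_rep.2 ⟨b, hb, rfl⟩⟩
    · rintro ⟨w, hw, hz⟩
      obtain ⟨a, ha, rfl⟩ := mem_rep.1 hw
      obtain ⟨b, hb, rfl⟩ := mem_rep.1 hz
      exact ⟨a, ha, b, hb, rfl⟩
  exact h.comp (hf.prodMk hg)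

attribute [is_poly] DMap.dom DMap.ran DMap.app DMap.res DMap.prod

theorem DMap.opLift : DMap A M (fun p : V × V => opLift p.1 p.2) := by
  refine DMap.congr' (f := fun p : V × V => (ZFSet.sep (fun z => ∃ s ∈ CTM.dom p.1, ∃ a ∈ p.2,
    ∃ b ∈ CTM.ran p.1, ZFSet.pair s b ∈ p.1 ∧ z = ZFSet.pair (ZFSet.pair s a) b)
    (ZFSet.prod (ZFSet.prod (CTM.dom p.1) p.2) (CTM.ran p.1)) : V)) (fun p _ => ?_)
    (by apply_rules (transparency := .reducible) (maxDepth := 999) only using is_poly)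
  ext z
  rw [mem_opLift, ZFSet.mem_sep]
  constructor
  · rintro ⟨s, a, b, h1, h2, rfl⟩
    have hs : s ∈ CTM.dom p.1 := mem_dom.2 ⟨b, h1⟩
    have hb : b ∈ CTM.ran p.1 := mem_ran.2 ⟨s, h1⟩
    exact ⟨ZFSet.pair_mem_prod.2 ⟨ZFSet.pair_mem_prod.2 ⟨hs, h2⟩, hb⟩, s, hs, a, h2, b, hb, h1,
      rfl⟩
  · rintro ⟨_, s, _, a, ha, b, _, h1, rfl⟩
    exact ⟨s, a, b, h1, ha, rfl⟩

theorem DMap.opP2 : DMap A M (fun p : V × V => opP2 p.1 p.2) := by
  refine DMap.congr' (f := fun p : V × V => (ZFSet.sep (fun z => ∃ s ∈ p.1, ∃ a ∈ p.2,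
    z = ZFSet.pair (ZFSet.pair s a) a) (ZFSet.prod (ZFSet.prod p.1 p.2) p.2) : V))
    (fun p _ => ?_) (by apply_rules (transparency := .reducible) (maxDepth := 999) only using is_poly)
  ext z
  rw [mem_opP2, ZFSet.mem_sep]
  constructor
  · rintro ⟨s, a, h1, h2, rfl⟩
    exact ⟨ZFSet.pair_mem_prod.2 ⟨ZFSet.pair_mem_prod.2 ⟨h1, h2⟩, h2⟩, s, h1, a, h2, rfl⟩
  · rintro ⟨_, s, h1, a, ha, rfl⟩
    exact ⟨s, a, h1, ha, rfl⟩

theorem DMap.opE2 : DMap A M (fun p : V × V => opE2 p.1 p.2) := by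
  refine DMap.congr' (f := fun p : V × V => (ZFSet.sep (fun s => ∃ a ∈ CTM.ran p.1,
    ∃ b ∈ CTM.ran p.2, ZFSet.pair s a ∈ p.1 ∧ ZFSet.pair s b ∈ p.2 ∧ a ∈ b)
    (CTM.dom p.1) : V)) (fun p _ => ?_)
    (by apply_rules (transparency := .reducible) (maxDepth := 999) only using is_poly)
  ext s
  rw [mem_opE2, ZFSet.mem_sep]
  constructor
  · rintro ⟨a, b, h1, h2, h3⟩
    exact ⟨mem_dom.2 ⟨a, h1⟩, a, mem_ran.2 ⟨s, h1⟩, b, mem_ran.2 ⟨s, h2⟩, h1, h2, h3⟩
  · rintro ⟨_, a, _, b, _, h1, h2, h3⟩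
    exact ⟨a, b, h1, h2, h3⟩

theorem DMap.opId : DMap A M (fun x : V => opId x) := by
  refine DMap.congr' (f := fun x : V => (CTM.rep x fun a => ZFSet.pair a a)) (fun p _ => ?_)
    (by apply_rules (transparency := .reducible) (maxDepth := 999) only using is_poly)
  ext z
  rw [mem_opId, mem_rep]
  exact exists_congr fun a => and_congr Iff.rfl eq_comm

theorem Fop_mem {w u v : V} (hw : w ∈ M) (hu : u ∈ M) (hv : v ∈ M) : Fop w u v ∈ M := by
  have huv : InM M ((u, v) : V × V) := inM_prod.2 ⟨inM_V.2 hu, hv⟩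
  by_cases h1 : w = sel 1
  · subst h1
    rw [Fop_diff]
    exact DMap.mem (A := M) (f := fun p : V × V => p.1 \ p.2) (by
      apply_rules (transparency := .reducible) (maxDepth := 999) only using is_poly) huv
  by_cases h2 : w = sel 2
  · subst h2
    rw [Fop_prod]
    exact DMap.mem (A := M) (f := fun p : V × V => ZFSet.prod p.1 p.2) (by
      apply_rules (transparency := .reducible) (maxDepth := 999) only using is_poly) huv
  by_cases h3 : w = sel 3
  · subst h3
    rw [Fop_dom]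
    exact DMap.mem (A := M) (f := fun p : V × V => CTM.dom p.1) (by
      apply_rules (transparency := .reducible) (maxDepth := 999) only using is_poly) huv
  by_cases h4 : w = sel 4
  · subst h4
    rw [Fop_lift]
    exact DMap.mem (A := M) (f := fun p : V × V => CTM.opLift p.1 p.2) DMap.opLift huv
  by_cases h5 : w = sel 5
  · subst h5
    rw [Fop_p2]
    exact DMap.mem (A := M) (f := fun p : V × V => CTM.opP2 p.1 p.2) DMap.opP2 huv
  by_cases h6 : w = sel 6
  · subst h6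
    rw [Fop_e2]
    exact DMap.mem (A := M) (f := fun p : V × V => CTM.opE2 p.1 p.2) DMap.opE2 huv
  by_cases h7 : w = sel 7
  · subst h7
    rw [Fop_id]
    exact DMap.mem (A := M) (f := fun p : V => CTM.opId p) DMap.opId (inM_V.2 hu)
  have : Fop w u v = {u, v} := by
    unfold Fop
    simp [h1, h2, h3, h4, h5, h6, h7]
  rw [this]
  exact ZFm.upair_mem hu hv

theorem DMap.fop {f g h : Γ → V} (hf : DMap A M f) (hg : DMap A M g) (hh : DMap A M h) :
    DMap A M (fun γ => Fop (f γ) (g γ) (h γ)) := by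
  have : DMap A M (fun p : (V × V) × V => Fop p.1.1 p.1.2 p.2) := by
    refine DMap.of_graph (fun p hp => ?_) ?_
    · rw [inM_prod, inM_prod] at hp
      exact Fop_mem (inM_V.1 hp.1.1) hp.1.2 hp.2
    · have : D0 (fun q : ((V × V) × V) × V => q.2 = Fop q.1.1.1 q.1.1.2 q.1.2) := by
        apply_rules (transparency := .reducible) (maxDepth := 999) only using is_poly
      exact this.dfn
  exact this.comp ((hf.prodMk hg).prodMk hh)

attribute [is_poly] DMap.fop

theorem Dfn.ltT {f1 f2 f3 f4 f5 f6 s : Γ → V} (hs : DMap A M s) (h1 : DMap A M f1)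
    (h2 : DMap A M f2) (h3 : DMap A M f3) (h4 : DMap A M f4) (h5 : DMap A M f5)
    (h6 : DMap A M f6) :
    Dfn A M (fun γ => ltT (s γ) (f1 γ) (f2 γ) (f3 γ) (f4 γ) (f5 γ) (f6 γ)) := by
  unfold CTM.ltT ltS
  apply_rules (transparency := .reducible) (maxDepth := 999) only
    [hs, h1, h2, h3, h4, h5, h6] using is_poly

attribute [is_poly] Dfn.ltT

theorem Dfn.prec {s f g : Γ → V} (hs : DMap A M s) (hf : DMap A M f) (hg : DMap A M g) :
    Dfn A M (fun γ => CTM.prec (s γ) (f γ) (g γ)) := by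
  have : Dfn A M (fun p : (V × V) × V => CTM.prec p.1.1 p.1.2 p.2) := by
    unfold CTM.prec
    apply_rules (transparency := .reducible) (maxDepth := 999) only using is_poly
  exact this.comp ((hs.prodMk hf).prodMk hg)

attribute [is_poly] Dfn.prec

theorem DMap.newS {s : Γ → V} (hs : DMap A M s) : DMap A M (fun γ => newS (s γ)) := by
  have : DMap A M (fun x : V => CTM.newS x) := by
    unfold CTM.newS
    apply_rules (transparency := .reducible) (maxDepth := 999) only using is_poly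
  exact this.comp hs

attribute [is_poly] DMap.newS

theorem DMap.topr {s : Γ → V} (hs : DMap A M s) : DMap A M (fun γ => topr (s γ)) := by
  have : DMap A M (fun x : V => CTM.topr x) := by
    unfold CTM.topr
    apply_rules (transparency := .reducible) (maxDepth := 999) only using is_poly
  exact this.comp hs

attribute [is_poly] DMap.topr

theorem DMap.ext2 {s : Γ → V} (hs : DMap A M s) : DMap A M (fun γ => ext2 (s γ)) := by
  have : DMap A M (fun x : V => CTM.ext2 x) := by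
    refine DMap.congr' (f := fun s : V => (s ∪ ZFSet.prod (CTM.dom s) (CTM.newS s)) ∪
      ZFSet.sep (fun p => ∃ x ∈ CTM.newS s, ∃ y ∈ CTM.newS s, p = ZFSet.pair x y ∧
        (x = y ∨ CTM.prec s x y)) (ZFSet.prod (CTM.newS s) (CTM.newS s))) (fun s _ => ?_)
      (by apply_rules (transparency := .reducible) (maxDepth := 999) only using is_poly)
    unfold CTM.ext2
    congr 1
    ext p
    rw [ZFSet.mem_sep, ZFSet.mem_sep]
    refine and_congr_right fun hp => ?_
    obtain ⟨a, ha, b, hb, rfl⟩ := ZFSet.mem_prod.1 hp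
    constructor
    · rintro ⟨x, y, e, h⟩
      obtain ⟨rfl, rfl⟩ := ZFSet.pair_injective e
      exact ⟨a, ha, b, hb, rfl, h⟩
    · rintro ⟨x, _, y, _, e, h⟩
      exact ⟨x, y, e, h⟩
  exact this.comp hs

attribute [is_poly] DMap.ext2

theorem DMap.stp {s : Γ → V} (hs : DMap A M s) : DMap A M (fun γ => Stp (s γ)) :=
  (hs.topr).ext2

attribute [is_poly] DMap.stp

end

/-! ### The hierarchy as a function on sets -/

theorem rep_if {x : V} {F : V → V} :
    (rep x fun y => open Classical in if _h : y ∈ x then F y else ∅) = rep x F := by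
  ext z
  rw [mem_rep, mem_rep]
  constructor
  · rintro ⟨y, hy, rfl⟩
    exact ⟨y, hy, by rw [dif_pos hy]⟩
  · rintro ⟨y, hy, rfl⟩
    exact ⟨y, hy, by rw [dif_pos hy]⟩

/-- The hierarchy as a function on all sets. -/
noncomputable def levZ (x : V) : V :=
  ZFSet.sUnion (rep x (fun y => open Classical in if _h : y ∈ x then Stp (levZ y) else ∅))
termination_by ZFSet.rank x
decreasing_by exact ZFSet.rank_lt_of_mem _h

theorem levZ_eq (x : V) : levZ x = ZFSet.sUnion (rep x fun y => Stp (levZ y)) := by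
  rw [levZ]
  congr 1
  exact rep_if

theorem mem_levZ {x p : V} : p ∈ levZ x ↔ ∃ y ∈ x, p ∈ Stp (levZ y) := by
  rw [levZ_eq, ZFSet.mem_sUnion]
  constructor
  · rintro ⟨z, hz, hp⟩
    obtain ⟨y, hy, rfl⟩ := mem_rep.1 hz
    exact ⟨y, hy, hp⟩
  · rintro ⟨y, hy, hp⟩
    exact ⟨_, mem_rep.2 ⟨y, hy, rfl⟩, hp⟩

theorem levZ_toZFSet (α : Ordinal.{0}) : levZ α.toZFSet = lev α := by
  induction α using WellFoundedLT.induction with
  | ind α ih =>
  ext p
  rw [mem_levZ, mem_lev]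
  constructor
  · rintro ⟨y, hy, hp⟩
    obtain ⟨β, hβ, rfl⟩ := Ordinal.mem_toZFSet_iff.1 hy
    exact ⟨β, hβ, by rwa [ih β hβ] at hp⟩
  · rintro ⟨β, hβ, hp⟩
    exact ⟨_, Ordinal.mem_toZFSet_iff.2 ⟨β, hβ, rfl⟩, by rwa [ih β hβ]⟩

/-- The least element of `c` with respect to `r`. -/
noncomputable def minOf (r c : V) : V :=
  ZFSet.sUnion (ZFSet.sep (fun m => ∀ x ∈ c, ZFSet.pair m x ∈ r) c)

theorem WO.minOf {r c : V} (h : WO r) (hc : c ⊆ dom r) (hne : ∃ x, x ∈ c) :
    minOf r c ∈ c ∧ ∀ x ∈ c, ZFSet.pair (minOf r c) x ∈ r := by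
  obtain ⟨x, hx⟩ := hne
  obtain ⟨m, hm, _, h1⟩ := h.least {x | x ∈ c} ⟨x, hx, hc hx⟩
  have h2 : ∀ x ∈ c, ZFSet.pair m x ∈ r := fun x hx => h1 x hx (hc hx)
  have : CTM.minOf r c = m := by
    unfold CTM.minOf
    have : (ZFSet.sep (fun m => ∀ x ∈ c, ZFSet.pair m x ∈ r) c : V) = {m} := by
      ext z
      rw [ZFSet.mem_sep, ZFSet.mem_singleton]
      constructor
      · rintro ⟨hz, h3⟩
        exact h.antisymm _ _ (h3 m hm) (h2 z hz)
      · rintro rfl
        exact ⟨hm, h2⟩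
    rw [this]
    simp
  rw [this]
  exact ⟨hm, h2⟩

/-- The enumeration of the inner model by ordinals (defined for all sets). -/
noncomputable def Lx (x : V) : V :=
  minOf (levZ (insert x x)) (dom (levZ (insert x x)) \
    rep x (fun y => open Classical in if _h : y ∈ x then Lx y else ∅))
termination_by ZFSet.rank x
decreasing_by exact ZFSet.rank_lt_of_mem _h

theorem Lx_eq (x : V) : Lx x = minOf (levZ (insert x x)) (dom (levZ (insert x x)) \ rep x Lx) := by
  rw [Lx]
  congr 2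
  exact rep_if

section

variable {Γ : Type 1} [Ctx Γ] {A M : Set V} [ZFm M]

theorem DMap.minOf {f g : Γ → V} (hf : DMap A M f) (hg : DMap A M g) :
    DMap A M (fun γ => minOf (f γ) (g γ)) := by
  have : DMap A M (fun p : V × V => CTM.minOf p.1 p.2) := by
    unfold CTM.minOf
    apply_rules (transparency := .reducible) (maxDepth := 999) only using is_poly
  exact this.comp (hf.prodMk hg)

theorem DMap.levZ' : DMap A M levZ := by
  refine DMap.recMem (H := fun _ g => ZFSet.sUnion (CTM.rep (CTM.ran g) fun r => Stp r)) (by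
    apply_rules (transparency := .reducible) (maxDepth := 999) only using is_poly) fun x _ => ?_
  rw [levZ_eq, ran_gr]
  congr 1
  ext z
  rw [mem_rep, mem_rep]
  constructor
  · rintro ⟨y, hy, rfl⟩
    exact ⟨_, mem_rep.2 ⟨y, hy, rfl⟩, rfl⟩
  · rintro ⟨r, hr, rfl⟩
    obtain ⟨y, hy, rfl⟩ := mem_rep.1 hr
    exact ⟨y, hy, rfl⟩

theorem DMap.levZ {f : Γ → V} (hf : DMap A M f) : DMap A M (fun γ => levZ (f γ)) :=
  DMap.levZ'.comp hf

attribute [is_poly] DMap.levZ DMap.minOf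

/-- The enumeration `Lx` is definable without parameters in all transitive models of ZF without
power set. -/
theorem DMap.Lx : DMap A M Lx := by
  refine DMap.recMem (H := fun x g => CTM.minOf (CTM.levZ (Insert.insert x x))
    (CTM.dom (CTM.levZ (Insert.insert x x)) \ CTM.ran g)) (by
    apply_rules (transparency := .reducible) (maxDepth := 999) only using is_poly) fun x _ => ?_
  rw [Lx_eq, ran_gr]

end

/-! ### The enumeration on ordinals -/

theorem insert_toZFSet (α : Ordinal.{0}) :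
    (insert α.toZFSet α.toZFSet : V) = (Order.succ α).toZFSet := by
  rw [Order.succ_eq_add_one, Ordinal.toZFSet_add_one]

theorem Lx_spec (α : Ordinal.{0}) : Lx α.toZFSet ∈ slev (Order.succ α) ∧
    (∀ β < α, Lx α.toZFSet ≠ Lx β.toZFSet) ∧
    ∀ x ∈ slev (Order.succ α), (∀ β < α, x ≠ Lx β.toZFSet) →
      ZFSet.pair (Lx α.toZFSet) x ∈ lev (Order.succ α) := by
  induction α using WellFoundedLT.induction with
  | ind α ih =>
  have hmem : ∀ x, x ∈ rep α.toZFSet Lx ↔ ∃ β < α, x = Lx β.toZFSet := by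
    intro x
    rw [mem_rep]
    constructor
    · rintro ⟨y, hy, rfl⟩
      obtain ⟨β, hβ, rfl⟩ := Ordinal.mem_toZFSet_iff.1 hy
      exact ⟨β, hβ, rfl⟩
    · rintro ⟨β, hβ, rfl⟩
      exact ⟨_, Ordinal.mem_toZFSet_iff.2 ⟨β, hβ, rfl⟩, rfl⟩
  have hr : levZ (insert α.toZFSet α.toZFSet) = lev (Order.succ α) := by
    rw [insert_toZFSet, levZ_toZFSet]
  have hne : ∃ x, x ∈ slev (Order.succ α) \ rep α.toZFSet Lx := by
    refine ⟨lev α, ZFSet.mem_sdiff.2 ⟨lev_mem_slev (Order.lt_succ α), fun h => ?_⟩⟩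
    obtain ⟨β, hβ, e⟩ := (hmem _).1 h
    have h1 := (ih β hβ).1
    rw [← e] at h1
    exact lev_notMem_slev (Order.succ_le_of_lt hβ) h1
  have hL : Lx α.toZFSet = minOf (lev (Order.succ α)) (slev (Order.succ α) \ rep α.toZFSet Lx) := by
    rw [Lx_eq, hr]
    rfl
  have h := (lev_wo (Order.succ α)).1.minOf (c := slev (Order.succ α) \ rep α.toZFSet Lx)
    (fun x hx => (ZFSet.mem_sdiff.1 hx).1) hne
  rw [← hL] at h
  have h1 := ZFSet.mem_sdiff.1 h.1
  refine ⟨h1.1, fun β hβ e => h1.2 ((hmem _).2 ⟨β, hβ, e⟩), fun x hx hx' => h.2 x ?_⟩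
  refine ZFSet.mem_sdiff.2 ⟨hx, fun h2 => ?_⟩
  obtain ⟨β, hβ, e⟩ := (hmem _).1 h2
  exact hx' β hβ e

theorem Lx_inj {α β : Ordinal.{0}} (h : Lx α.toZFSet = Lx β.toZFSet) : α = β := by
  rcases lt_trichotomy α β with h1 | h1 | h1
  · exact ((Lx_spec β).2.1 α h1 h.symm).elim
  · exact h1
  · exact ((Lx_spec α).2.1 β h1 h).elim

/-- If `x ∈ slev β` has not been enumerated before `α ≥ β` then `Lx α ∈ slev β`. -/
theorem Lx_mem_slev {α β : Ordinal.{0}} (h : β ≤ α) {x : V} (hx : x ∈ slev β)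
    (hx' : ∀ γ < α, x ≠ Lx γ.toZFSet) : Lx α.toZFSet ∈ slev β := by
  have h0 : β ≤ Order.succ α := h.trans (Order.le_succ α)
  have h1 := (Lx_spec α).2.2 x (slev_mono h0 hx) hx'
  have h2 := ((lev_wo (Order.succ α)).2 β h0).2 _ _ h1 hx
  exact mem_dom.2 ⟨x, h2⟩

end Pool.Agent.CTM
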