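import Pool.Agent.CTM.HierCond

/-!
Elementary subclasses, the Mostowski collapse, and a countable transitive class that is
elementarily embedded in `LL`.
-/

set_option autoImplicit false

namespace Pool.Agent.CTM

deriving instance Countable for Fm

namespace Hier

/-- Satisfaction in a class of sets. -/
abbrev SS {K : Type*} (D : Set V) (c : K → V) {n : ℕ} (φ : Fm K n) (v : Fin n → V) : Prop :=
  φ.Sat D (fun x y => x ∈ y) c v

theorem snoc_mem {D : Set V} {n : ℕ} {v : Fin n → V} (hv : ∀ i, v i ∈ D) {x : V} (hx : x ∈ D) :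
    ∀ i, (Fin.snoc v x : Fin (n + 1) → V) i ∈ D := by
  intro i
  refine Fin.lastCases ?_ (fun i => ?_) i
  · simpa using hx
  · simpa using hv i

theorem elim_mem {K : Type*} {D : Set V} {c : K → V} (hc : ∀ k, c k ∈ D) {n : ℕ} {v : Fin n → V}
    (hv : ∀ i, v i ∈ D) (s : K ⊕ Fin n) : Sum.elim c v s ∈ D := by
  cases s with
  | inl k => exact hc k
  | inr i => exact hv i

theorem elim_comp {K : Type*} (f : V → V) (c : K → V) {n : ℕ} (v : Fin n → V) (s : K ⊕ Fin n) :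
    Sum.elim (f ∘ c) (f ∘ v) s = f (Sum.elim c v s) := by
  cases s <;> rfl

theorem comp_snoc (f : V → V) {n : ℕ} (v : Fin n → V) (x : V) :
    f ∘ (Fin.snoc v x : Fin (n + 1) → V) = Fin.snoc (f ∘ v) (f x) := by
  funext i
  refine Fin.lastCases ?_ (fun i => ?_) i
  · simp
  · simp

/-- Isomorphisms preserve satisfaction. -/
theorem sat_iso {K : Type*} {D D' : Set V} (f : V → V) (hf : f '' D = D')
    (hinj : Set.InjOn f D) (hE : ∀ x ∈ D, ∀ y ∈ D, (x ∈ y ↔ f x ∈ f y)) (c : K → V)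
    (hc : ∀ k, c k ∈ D) {n : ℕ} (φ : Fm K n) :
    ∀ v : Fin n → V, (∀ i, v i ∈ D) → (SS D c φ v ↔ SS D' (f ∘ c) φ (f ∘ v)) := by
  induction φ with
  | mem s t =>
    intro v hv
    show Sum.elim c v s ∈ Sum.elim c v t ↔
      Sum.elim (f ∘ c) (f ∘ v) s ∈ Sum.elim (f ∘ c) (f ∘ v) t
    rw [elim_comp, elim_comp]
    exact hE _ (elim_mem hc hv s) _ (elim_mem hc hv t)
  | eq s t =>
    intro v hv
    show Sum.elim c v s = Sum.elim c v t ↔
      Sum.elim (f ∘ c) (f ∘ v) s = Sum.elim (f ∘ c) (f ∘ v) t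
    rw [elim_comp, elim_comp]
    exact ⟨fun h => congrArg f h, fun h => hinj (elim_mem hc hv s) (elim_mem hc hv t) h⟩
  | neg φ ih => intro v hv; exact not_congr (ih v hv)
  | and φ ψ ih ih' => intro v hv; exact and_congr (ih v hv) (ih' v hv)
  | all φ ih =>
    intro v hv
    constructor
    · intro H y hy
      rw [← hf] at hy
      obtain ⟨x, hx, rfl⟩ := hy
      have := (ih _ (snoc_mem hv hx)).1 (H x hx)
      rwa [comp_snoc] at this
    · intro H x hx
      refine (ih _ (snoc_mem hv hx)).2 ?_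
      rw [comp_snoc]
      exact H (f x) (hf ▸ ⟨x, hx, rfl⟩)

/-- `N` is an elementary subclass of `U`. -/
def Elem (N U : Set V) : Prop :=
  N ⊆ U ∧ ∀ (K : Type 1) (c : K → V) (_ : ∀ k, c k ∈ N) (n : ℕ) (φ : Fm K n) (v : Fin n → V)
    (_ : ∀ i, v i ∈ N), (SS N c φ v ↔ SS U c φ v)

/-- Tarski-Vaught criterion. -/
theorem elem_of_tv {N U : Set V} (hN : N ⊆ U)
    (tv : ∀ (K : Type 1) (c : K → V) (_ : ∀ k, c k ∈ N) (n : ℕ) (φ : Fm K (n + 1))
      (v : Fin n → V) (_ : ∀ i, v i ∈ N), (∃ x ∈ U, SS U c φ (Fin.snoc v x)) →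
        ∃ x ∈ N, SS U c φ (Fin.snoc v x)) : Elem N U := by
  refine ⟨hN, fun K c hc n φ => ?_⟩
  induction φ with
  | mem s t => intro v hv; exact Iff.rfl
  | eq s t => intro v hv; exact Iff.rfl
  | neg φ ih => intro v hv; exact not_congr (ih v hv)
  | and φ ψ ih ih' => intro v hv; exact and_congr (ih v hv) (ih' v hv)
  | @all n φ ih =>
    intro v hv
    constructor
    · intro H
      by_contra hcon
      have h1 : ∃ x ∈ U, SS U c φ.neg (Fin.snoc v x) := by
        by_contra h2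
        push Not at h2
        exact hcon fun x hx => not_not.1 (h2 x hx)
      obtain ⟨x, hx, hx'⟩ := tv K c hc n φ.neg v hv h1
      exact hx' ((ih _ (snoc_mem hv hx)).1 (H x hx))
    · intro H x hx
      exact (ih _ (snoc_mem hv hx)).2 (H x (hN hx))

/-- Any formula has constants from one of the sets of an increasing sequence. -/
theorem supp {N : ℕ → Set V} {K : Type*} (c : K → V)
    (hN : Monotone N) (hc : ∀ k, ∃ i, c k ∈ N i) {n : ℕ} (φ : Fm K n) :
    ∃ i, ∀ j, i ≤ j → ∃ φ' : Fm (N j) n, ∀ (D : Set V) (v : Fin n → V),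
      (SS D c φ v ↔ SS D (fun a : N j => a.1) φ' v) := by
  have ht : ∀ {n : ℕ} (s : K ⊕ Fin n), ∃ i, ∀ j, i ≤ j → ∃ s' : N j ⊕ Fin n, ∀ v : Fin n → V,
      Sum.elim c v s = Sum.elim (fun a : N j => a.1) v s' := by
    intro n s
    cases s with
    | inl k =>
      obtain ⟨i, hi⟩ := hc k
      exact ⟨i, fun j hj => ⟨Sum.inl ⟨c k, hN hj hi⟩, fun v => rfl⟩⟩
    | inr m => exact ⟨0, fun j _ => ⟨Sum.inr m, fun v => rfl⟩⟩
  induction φ with
  | mem s t =>
    obtain ⟨i, hi⟩ := ht s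
    obtain ⟨i', hi'⟩ := ht t
    refine ⟨max i i', fun j hj => ?_⟩
    obtain ⟨s', hs⟩ := hi j ((le_max_left _ _).trans hj)
    obtain ⟨t', ht'⟩ := hi' j ((le_max_right _ _).trans hj)
    refine ⟨.mem s' t', fun D v => ?_⟩
    show Sum.elim c v s ∈ Sum.elim c v t ↔ Sum.elim _ v s' ∈ Sum.elim _ v t'
    rw [hs, ht']
  | eq s t =>
    obtain ⟨i, hi⟩ := ht s
    obtain ⟨i', hi'⟩ := ht t
    refine ⟨max i i', fun j hj => ?_⟩
    obtain ⟨s', hs⟩ := hi j ((le_max_left _ _).trans hj)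
    obtain ⟨t', ht'⟩ := hi' j ((le_max_right _ _).trans hj)
    refine ⟨.eq s' t', fun D v => ?_⟩
    show Sum.elim c v s = Sum.elim c v t ↔ Sum.elim _ v s' = Sum.elim _ v t'
    rw [hs, ht']
  | neg φ ih =>
    obtain ⟨i, hi⟩ := ih
    refine ⟨i, fun j hj => ?_⟩
    obtain ⟨φ', h⟩ := hi j hj
    exact ⟨.neg φ', fun D v => not_congr (h D v)⟩
  | and φ ψ ih ih' =>
    obtain ⟨i, hi⟩ := ih
    obtain ⟨i', hi'⟩ := ih'
    refine ⟨max i i', fun j hj => ?_⟩
    obtain ⟨φ', h⟩ := hi j ((le_max_left _ _).trans hj)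
    obtain ⟨ψ', h'⟩ := hi' j ((le_max_right _ _).trans hj)
    exact ⟨.and φ' ψ', fun D v => and_congr (h D v) (h' D v)⟩
  | all φ ih =>
    obtain ⟨i, hi⟩ := ih
    refine ⟨i, fun j hj => ?_⟩
    obtain ⟨φ', h⟩ := hi j hj
    exact ⟨.all φ', fun D v => forall_congr' fun x => imp_congr Iff.rfl (h D _)⟩

open Classical in
/-- Skolem functions. -/
noncomputable def sk (U : Set V) {C : Set V} {n : ℕ} (φ : Fm C (n + 1)) (v : Fin n → C) : V :=
  if h : ∃ x ∈ U, SS U (fun a : C => a.1) φ (Fin.snoc (fun i => (v i).1) x) then h.choose else ∅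

/-- The stages of the Skolem hull. -/
noncomputable def Nk (U : Set V) : ℕ → Set V
  | 0 => {∅}
  | k + 1 => Nk U k ∪ Set.range
      (fun p : Σ n, Fm (Nk U k) (n + 1) × (Fin n → Nk U k) => sk U p.2.1 p.2.2)

theorem Nk_mono (U : Set V) : Monotone (Nk U) :=
  monotone_nat_of_le_succ fun _ => Set.subset_union_left

theorem Nk_countable (U : Set V) : ∀ k, (Nk U k).Countable
  | 0 => Set.countable_singleton _
  | k + 1 => by
    have : Countable (Nk U k) := (Nk_countable U k).to_subtype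
    exact (Nk_countable U k).union (Set.countable_range _)

theorem Nk_subset {U : Set V} (h0 : ∅ ∈ U) : ∀ k, Nk U k ⊆ U
  | 0 => by
    intro x hx
    rw [Set.mem_singleton_iff.1 hx]
    exact h0
  | k + 1 => by
    refine Set.union_subset (Nk_subset h0 k) ?_
    rintro _ ⟨⟨n, φ, v⟩, rfl⟩
    show sk U φ v ∈ U
    unfold sk
    split
    · next h => exact h.choose_spec.1
    · exact h0

/-- Downward Loewenheim-Skolem theorem. -/
theorem exists_elem (U : Set V) (h0 : ∅ ∈ U) : ∃ N, N.Countable ∧ ∅ ∈ N ∧ Elem N U := by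
  refine ⟨⋃ k, Nk U k, Set.countable_iUnion (Nk_countable U), Set.mem_iUnion.2 ⟨0, rfl⟩,
    elem_of_tv (Set.iUnion_subset (Nk_subset h0)) ?_⟩
  intro K c hc n φ v hv hex
  obtain ⟨i, hi⟩ := supp (N := Nk U) c (Nk_mono U) (fun k => Set.mem_iUnion.1 (hc k)) φ
  have h1 : ∃ i', ∀ m, v m ∈ Nk U i' := by
    choose g hg using fun m => Set.mem_iUnion.1 (hv m)
    refine ⟨Finset.univ.sup g, fun m => Nk_mono U (Finset.le_sup (Finset.mem_univ m)) (hg m)⟩
  obtain ⟨i', hi'⟩ := h1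
  obtain ⟨φ', hφ⟩ := hi (max i i') (le_max_left _ _)
  set w : Fin n → Nk U (max i i') := fun m => ⟨v m, Nk_mono U (le_max_right _ _) (hi' m)⟩ with hw
  have h2 : ∃ x ∈ U, SS U (fun a : Nk U (max i i') => a.1) φ' (Fin.snoc (fun i => (w i).1) x) := by
    obtain ⟨x, hx, h⟩ := hex
    exact ⟨x, hx, (hφ U _).1 h⟩
  have h3 : sk U φ' w ∈ Nk U (max i i' + 1) := Or.inr ⟨⟨n, φ', w⟩, rfl⟩
  refine ⟨sk U φ' w, Set.mem_iUnion.2 ⟨_, h3⟩, ?_⟩
  rw [hφ U]
  unfold sk
  rw [dif_pos h2]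
  exact h2.choose_spec.2

/-! ### The Mostowski collapse -/

open Classical in
/-- The collapse of the class `N`. -/
noncomputable def col (N : Set V) (x : V) : V :=
  rep (ZFSet.sep (fun y => y ∈ N) x) (fun y => if _h : y ∈ x then col N y else ∅)
termination_by ZFSet.rank x
decreasing_by exact ZFSet.rank_lt_of_mem _h

theorem mem_col {N : Set V} {x z : V} : z ∈ col N x ↔ ∃ y ∈ x, y ∈ N ∧ col N y = z := by
  rw [col, mem_rep]
  constructor
  · rintro ⟨y, hy, rfl⟩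
    obtain ⟨h1, h2⟩ := ZFSet.mem_sep.1 hy
    exact ⟨y, h1, h2, by rw [dif_pos h1]⟩
  · rintro ⟨y, hy, hy', rfl⟩
    exact ⟨y, ZFSet.mem_sep.2 ⟨hy, hy'⟩, by rw [dif_pos hy]⟩

/-- `N` is extensional. -/
def Extn (N : Set V) : Prop := ∀ x ∈ N, ∀ y ∈ N, (∀ z ∈ N, z ∈ x ↔ z ∈ y) → x = y

theorem col_inj {N : Set V} (hN : Extn N) : Set.InjOn (col N) N := by
  have key : ∀ x : V, x ∈ N → ∀ y ∈ N, col N x = col N y → x = y := by
    intro x
    induction x using ZFSet.inductionOn with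
    | _ x ih =>
    intro hx y hy e
    refine hN x hx y hy fun z hz => ⟨fun h => ?_, fun h => ?_⟩
    · have h1 : col N z ∈ col N y := e ▸ mem_col.2 ⟨z, h, hz, rfl⟩
      obtain ⟨w, hw, hwN, e'⟩ := mem_col.1 h1
      rw [ih z h hz w hwN e'.symm]
      exact hw
    · have h1 : col N z ∈ col N x := e ▸ mem_col.2 ⟨z, h, hz, rfl⟩
      obtain ⟨w, hw, hwN, e'⟩ := mem_col.1 h1
      rw [← ih w hw hwN z hz e']
      exact hw
  exact fun x hx y hy e => key x hx y hy e

theorem col_mem {N : Set V} (hN : Extn N) {x y : V} (hx : x ∈ N) (_hy : y ∈ N) :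
    x ∈ y ↔ col N x ∈ col N y := by
  constructor
  · exact fun h => mem_col.2 ⟨x, h, hx, rfl⟩
  · intro h
    obtain ⟨w, hw, hwN, e⟩ := mem_col.1 h
    rw [← col_inj hN hwN hx e]
    exact hw

theorem col_trC (N : Set V) : TrC (col N '' N) := by
  refine ⟨fun {x y} hx hy => ?_⟩
  obtain ⟨x, hx, rfl⟩ := hx
  obtain ⟨w, _, hwN, rfl⟩ := mem_col.1 hy
  exact ⟨w, hwN, rfl⟩

/-- The collapse is the identity on transitive sets. -/
theorem col_id {N : Set V} {t : V} (ht : t.IsTransitive) (htN : ∀ x ∈ t, x ∈ N) :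
    ∀ x : V, x ∈ t → col N x = x := by
  intro x
  induction x using ZFSet.inductionOn with
  | _ x ih =>
  intro hx
  ext z
  rw [mem_col]
  constructor
  · rintro ⟨y, hy, _, rfl⟩
    rw [ih y hy (ht x hx hy)]
    exact hy
  · intro hz
    exact ⟨z, hz, htN z (ht x hx hz), ih z hz (ht x hx hz)⟩

theorem col_self {N : Set V} {t : V} (ht : t.IsTransitive) (htN : ∀ x ∈ t, x ∈ N) :
    col N t = t := by
  ext z
  rw [mem_col]
  constructor
  · rintro ⟨y, hy, _, rfl⟩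
    rw [col_id ht htN y hy]
    exact hy
  · intro hz
    exact ⟨z, hz, htN z hz, col_id ht htN z hz⟩

/-- The collapse preserves satisfaction. -/
theorem col_sat {K : Type*} {N : Set V} (hN : Extn N) (c : K → V) (hc : ∀ k, c k ∈ N) {n : ℕ}
    (φ : Fm K n) (v : Fin n → V) (hv : ∀ i, v i ∈ N) :
    SS N c φ v ↔ SS (col N '' N) (col N ∘ c) φ (col N ∘ v) :=
  sat_iso (col N) rfl (col_inj hN) (fun _ hx _ hy => col_mem hN hx hy) c hc φ v hv

/-- An elementary subclass of a transitive class is extensional. -/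
theorem Elem.extn {N U : Set V} [TrC U] (h : Elem N U) : Extn N := by
  intro x hx y hy H
  have h1 := h.2 PEmpty (fun k => k.elim) (fun k => k.elim) 2
    (.all (.neg (.and (.neg (.and (.neg (.and (.mem (.inr 2) (.inr 0)) (.neg (.mem (.inr 2) (.inr 1)))))
      (.neg (.and (.mem (.inr 2) (.inr 1)) (.neg (.mem (.inr 2) (.inr 0)))))))
      (.eq (.inr 0) (.inr 0))))) ![x, y] (by
        intro i
        fin_cases i
        · exact hx
        · exact hy)
  ext z
  have h2 : ∀ D : Set V, SS D (fun k : PEmpty.{2} => (k.elim : V))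
    (.all (.neg (.and (.neg (.and (.neg (.and (.mem (.inr 2) (.inr 0)) (.neg (.mem (.inr 2) (.inr 1)))))
      (.neg (.and (.mem (.inr 2) (.inr 1)) (.neg (.mem (.inr 2) (.inr 0)))))))
      (.eq (.inr 0) (.inr 0))))) ![x, y] ↔ ∀ z ∈ D, (z ∈ x ↔ z ∈ y) := by
    intro D
    refine forall_congr' fun z => imp_congr Iff.rfl ?_
    show ¬ (¬ (¬ (z ∈ x ∧ ¬ z ∈ y) ∧ ¬ (z ∈ y ∧ ¬ z ∈ x)) ∧ x = x) ↔ _
    tauto
  have h3 := (h2 U).1 (h1.1 ((h2 N).2 H))
  constructor
  · exact fun hz => (h3 z (TrC.trans (h.1 hx) hz)).1 hz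
  · exact fun hz => (h3 z (TrC.trans (h.1 hy) hz)).2 hz

end Hier

end Pool.Agent.CTM
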