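import Pool.Agent.CTM.HierTr
import Pool.Agent.CTM.Cbl3

/-!
Countable hulls in a model of ZFC + V = L, and their collapses.
-/

set_option autoImplicit false

namespace Pool.Agent.CTM

namespace Hier

section

variable {Γ : Type 1} [Ctx Γ] {A M : Set V}

theorem cbl_union [ZFm M] {x y : V} (h : Cbl M x) (h' : Cbl M y) : Cbl M (x ∪ y) := by
  classical
  obtain ⟨f, hf, h1, h2, h3⟩ := h
  obtain ⟨g, hg, h4, h5, h6⟩ := h'
  have hd : DMap M M (fun p : V => if Cov.fs p = ∅ then app f (Cov.sn p) else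
      app g (Cov.sn p)) := by
    refine Cov.dmap_ite (Dfn.eq (Cov.dmap_fs DMap.id) DMap.empty) ?_ ?_
    · exact DMap.app (DMap.const hf hf) (Cov.dmap_sn DMap.id)
    · exact DMap.app (DMap.const hg hg) (Cov.dmap_sn DMap.id)
  refine Cov.cbl_image (Cov.cbl_prod (M := M)) hd fun z hz => ?_
  rcases ZFSet.mem_union.1 hz with hz | hz
  · obtain ⟨n, hn⟩ := mem_ran.1 (h3 hz)
    refine mem_rep.2 ⟨ZFSet.pair ∅ n, ZFSet.pair_mem_prod.2 ⟨Cov.nn_mem 0, ?_⟩, ?_⟩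
    · rw [← h2]
      exact mem_dom.2 ⟨_, hn⟩
    · rw [Cov.fs_pair, Cov.sn_pair, if_pos rfl]
      exact h1.app_eq hn
  · obtain ⟨n, hn⟩ := mem_ran.1 (h6 hz)
    refine mem_rep.2 ⟨ZFSet.pair (CTM.nn 1) n, ZFSet.pair_mem_prod.2 ⟨Cov.nn_mem 1, ?_⟩, ?_⟩
    · rw [← h5]
      exact mem_dom.2 ⟨_, hn⟩
    · rw [Cov.fs_pair, Cov.sn_pair, if_neg (Cov.nn_succ_ne 0)]
      exact h4.app_eq hn

theorem cbl_prod [ZFm M] {x y : V} (h : Cbl M x) (h' : Cbl M y) : Cbl M (ZFSet.prod x y) := by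
  obtain ⟨f, hf, h1, h2, h3⟩ := h
  obtain ⟨g, hg, h4, h5, h6⟩ := h'
  have hd : DMap M M (fun p : V => ZFSet.pair (app f (Cov.fs p)) (app g (Cov.sn p))) := by
    refine DMap.pair ?_ ?_
    · exact DMap.app (DMap.const hf hf) (Cov.dmap_fs DMap.id)
    · exact DMap.app (DMap.const hg hg) (Cov.dmap_sn DMap.id)
  refine Cov.cbl_image (Cov.cbl_prod (M := M)) hd fun z hz => ?_
  obtain ⟨a, ha, b, hb, rfl⟩ := ZFSet.mem_prod.1 hz
  obtain ⟨n, hn⟩ := mem_ran.1 (h3 ha)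
  obtain ⟨m, hm⟩ := mem_ran.1 (h6 hb)
  refine mem_rep.2 ⟨ZFSet.pair n m, ZFSet.pair_mem_prod.2 ⟨?_, ?_⟩, ?_⟩
  · rw [← h2]
    exact mem_dom.2 ⟨_, hn⟩
  · rw [← h5]
    exact mem_dom.2 ⟨_, hm⟩
  · rw [Cov.fs_pair, Cov.sn_pair, h1.app_eq hn, h4.app_eq hm]

/-- The collapse of a set is definable. -/
theorem dmap_col [ZFm M] {h : V} (hA : h ∈ A) (hM : h ∈ M) : DMap A M (col {x | x ∈ h}) := by
  refine DMap.recMem (H := fun x g => rep (ZFSet.sep (fun y => y ∈ h) x) fun y => app g y) ?_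
    fun x _ => ?_
  · refine DMap.rep (DMap.sep (DMap.fst DMap.id) (Dfn.mem (DMap.snd DMap.id)
      (DMap.const hA hM))) (DMap.app (DMap.snd (DMap.fst DMap.id)) (DMap.snd DMap.id))
  · ext z
    rw [mem_col, mem_rep]
    constructor
    · rintro ⟨y, hy, hy', rfl⟩
      exact ⟨y, ZFSet.mem_sep.2 ⟨hy, hy'⟩, app_gr hy⟩
    · rintro ⟨y, hy, rfl⟩
      obtain ⟨h1, h2⟩ := ZFSet.mem_sep.1 hy
      exact ⟨y, h1, h2, (app_gr h1).symm⟩

end

/-- One step of the closure under the basic operations and least elements of sets. -/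
noncomputable def stepG (r s : V) : V :=
  s ∪ (rep (ZFSet.prod (ZFSet.prod s s) s) (fun p => Fop (Cov.fs (Cov.fs p)) (Cov.sn (Cov.fs p))
    (Cov.sn p)) ∪ rep s (fun u => minOf r u))

theorem subset_stepG (r s : V) : s ⊆ stepG r s := fun _ h => ZFSet.mem_union.2 (Or.inl h)

theorem fop_mem_stepG {r s w u v : V} (hw : w ∈ s) (hu : u ∈ s) (hv : v ∈ s) :
    Fop w u v ∈ stepG r s := by
  refine ZFSet.mem_union.2 (Or.inr (ZFSet.mem_union.2 (Or.inl (mem_rep.2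
    ⟨ZFSet.pair (ZFSet.pair w u) v, ZFSet.pair_mem_prod.2 ⟨ZFSet.pair_mem_prod.2 ⟨hw, hu⟩, hv⟩,
      ?_⟩))))
  rw [Cov.fs_pair, Cov.fs_pair, Cov.sn_pair, Cov.sn_pair]

theorem minOf_mem_stepG {r s u : V} (hu : u ∈ s) : minOf r u ∈ stepG r s :=
  ZFSet.mem_union.2 (Or.inr (ZFSet.mem_union.2 (Or.inr (mem_rep.2 ⟨u, hu, rfl⟩))))

section

variable {Γ : Type 1} [Ctx Γ] {A M : Set V}

theorem dmap_stepG [ZFm M] {f g : Γ → V} (hf : DMap A M f) (hg : DMap A M g) :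
    DMap A M (fun γ => stepG (f γ) (g γ)) := by
  have h : DMap A M (fun p : V × V => stepG p.1 p.2) := by
    unfold stepG
    refine DMap.union (DMap.snd DMap.id) (DMap.union (DMap.rep (DMap.prod (DMap.prod
      (DMap.snd DMap.id) (DMap.snd DMap.id)) (DMap.snd DMap.id)) (DMap.fop ?_ ?_ ?_))
      (DMap.rep (DMap.snd DMap.id) (DMap.minOf (DMap.fst (DMap.fst DMap.id)) (DMap.snd DMap.id))))
    · exact Cov.dmap_fs (Cov.dmap_fs (DMap.snd DMap.id))
    · exact Cov.dmap_sn (Cov.dmap_fs (DMap.snd DMap.id))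
    · exact Cov.dmap_sn (DMap.snd DMap.id)
  exact h.comp (g := fun γ => (f γ, g γ)) (hf.prodMk hg)

theorem cbl_stepG [ZFm M] {r s : V} (hr : r ∈ M) (h : Cbl M s) : Cbl M (stepG r s) := by
  refine cbl_union h (cbl_union ?_ ?_)
  · refine Cov.cbl_image (A := M) (cbl_prod (cbl_prod h h) h) ?_ fun _ hz => hz
    refine DMap.fop ?_ ?_ ?_
    · exact Cov.dmap_fs (Cov.dmap_fs DMap.id)
    · exact Cov.dmap_sn (Cov.dmap_fs DMap.id)
    · exact Cov.dmap_sn DMap.id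
  · exact Cov.cbl_image (A := M) h (DMap.minOf (DMap.const hr hr) DMap.id) fun _ hz => hz

/-- In a model of ZFC any countable set is contained in a countable set that is closed under the
basic operations and least elements. -/
theorem exists_hull [ZFCm M] {r c : V} (hr : r ∈ M) (hc : c ∈ M) (hcc : Cbl M c)
    (h0 : ∅ ∈ c) : ∃ h ∈ M, Cbl M h ∧ c ⊆ h ∧ FC {x | x ∈ h} ∧ ∀ u ∈ h, minOf r u ∈ h := by
  obtain ⟨F, hF⟩ := Cov.exists_rec (fun x => x)
    (fun _ g => c ∪ ZFSet.sUnion (rep (ran g) (stepG r))) (· ∈ ·) ZFSet.mem_wf (fun _ _ h => h)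
  have hFd : DMap M M F := by
    refine DMap.recMem (H := fun _ g => c ∪ ZFSet.sUnion (rep (ran g) (stepG r))) ?_
      fun x _ => hF x
    refine DMap.union (DMap.const hc hc) (DMap.sUnion (DMap.rep (DMap.ran (DMap.snd DMap.id))
      (dmap_stepG (DMap.const hr hr) (DMap.snd DMap.id))))
  have hFm : ∀ x z, z ∈ F x ↔ z ∈ c ∨ ∃ y ∈ x, z ∈ stepG r (F y) := by
    intro x z
    rw [hF x, ZFSet.mem_union, ZFSet.mem_sUnion, ran_gr]
    refine or_congr Iff.rfl ⟨?_, ?_⟩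
    · rintro ⟨w, hw, hz⟩
      obtain ⟨u, hu, rfl⟩ := mem_rep.1 hw
      obtain ⟨y, hy, rfl⟩ := mem_rep.1 hu
      exact ⟨y, hy, hz⟩
    · rintro ⟨y, hy, hz⟩
      exact ⟨_, mem_rep.2 ⟨_, mem_rep.2 ⟨y, hy, rfl⟩, rfl⟩, hz⟩
  have hsucc : ∀ n, F (nn (n + 1)) = F (nn n) ∪ stepG r (F (nn n)) := by
    intro n
    ext z
    rw [ZFSet.mem_union, hFm, hFm]
    constructor
    · rintro (h | ⟨y, hy, hz⟩)
      · exact Or.inl (Or.inl h)
      · rcases ZFSet.mem_insert_iff.1 hy with rfl | hy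
        · exact Or.inr hz
        · exact Or.inl (Or.inr ⟨y, hy, hz⟩)
    · rintro ((h | ⟨y, hy, hz⟩) | h)
      · exact Or.inl h
      · exact Or.inr ⟨y, ZFSet.mem_insert_of_mem _ hy, hz⟩
      · exact Or.inr ⟨_, ZFSet.mem_insert _ _, h⟩
  have hmono : Monotone (fun n => F (nn n)) := by
    refine monotone_nat_of_le_succ fun n => ?_
    intro z hz
    show z ∈ F (nn (n + 1))
    rw [hsucc]
    exact ZFSet.mem_union.2 (Or.inl hz)
  have hmono' : ∀ {m n : ℕ}, m ≤ n → ∀ {z : V}, z ∈ F (nn m) → z ∈ F (nn n) :=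
    fun h _ hz => hmono h hz
  have hstep : ∀ n z, z ∈ stepG r (F (nn n)) → z ∈ F (nn (n + 1)) := by
    intro n z hz
    rw [hsucc]
    exact ZFSet.mem_union.2 (Or.inr hz)
  have hcbl : ∀ n, Cbl M (F (nn n)) := by
    intro n
    induction n with
    | zero =>
      have : F (nn 0) = c := by
        ext z
        rw [hFm]
        constructor
        · rintro (h | ⟨y, hy, _⟩)
          · exact h
          · exact absurd hy (ZFSet.notMem_empty y)
        · exact Or.inl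
      rw [this]
      exact hcc
    | succ n ih =>
      rw [hsucc]
      exact cbl_union ih (cbl_stepG hr ih)
  have hmem : ∀ z, z ∈ ZFSet.sUnion (rep ZFSet.omega F) ↔ ∃ n, z ∈ F (nn n) := by
    intro z
    rw [ZFSet.mem_sUnion]
    constructor
    · rintro ⟨w, hw, hz⟩
      obtain ⟨u, hu, rfl⟩ := mem_rep.1 hw
      obtain ⟨n, rfl⟩ := mem_omega_iff.1 hu
      exact ⟨n, hz⟩
    · rintro ⟨n, hz⟩
      exact ⟨_, mem_rep.2 ⟨_, mem_omega_iff.2 ⟨n, rfl⟩, rfl⟩, hz⟩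
  have hcF : ∀ z ∈ c, z ∈ F (nn 0) := fun z hz => (hFm _ z).2 (Or.inl hz)
  refine ⟨ZFSet.sUnion (rep ZFSet.omega F), ZFm.sUnion_mem (ZFm.rep_mem hFd ZFm.omega_mem),
    Cov.cbl_iUnion hFd fun n hn => ?_, fun z hz => (hmem z).2 ⟨0, hcF z hz⟩, ⟨?_, ?_⟩,
    fun u hu => ?_⟩
  · obtain ⟨n, rfl⟩ := mem_omega_iff.1 hn
    exact hcbl n
  · exact (hmem _).2 ⟨0, hcF _ h0⟩
  · intro w u v hw hu hv
    obtain ⟨i, hi⟩ := (hmem w).1 hw
    obtain ⟨j, hj⟩ := (hmem u).1 hu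
    obtain ⟨k, hk⟩ := (hmem v).1 hv
    refine (hmem _).2 ⟨max (max i j) k + 1, hstep _ _ (fop_mem_stepG ?_ ?_ ?_)⟩
    · exact hmono' ((le_max_left _ _).trans (le_max_left _ _)) hi
    · exact hmono' ((le_max_right _ _).trans (le_max_left _ _)) hj
    · exact hmono' (le_max_right _ _) hk
  · obtain ⟨i, hi⟩ := (hmem u).1 hu
    exact (hmem _).2 ⟨i + 1, hstep _ _ (minOf_mem_stepG hi)⟩

end

/-- The elements of a field `y` in a closed set form an elementary subclass of `y`. -/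
theorem elem_of_fc {C : Set V} (hC : FC C) {r : V} (hr : WO r) (hy : dom r ∈ C)
    (hmin : ∀ u ∈ C, minOf r u ∈ C) : Elem {x | x ∈ C ∧ x ∈ dom r} {x | x ∈ dom r} := by
  refine elem_of_tv (fun x hx => hx.2) ?_
  intro K c hc n φ v hv ⟨x, hx, hφ⟩
  have h1 := hC.ext_mem c (fun k => (hc k).1) hy φ (dom r) hy
    (Fin.snoc (fun i _ => v i) (fun s => s) : Fin (n + 1) → V → V) (by
      intro i
      refine Fin.lastCases ?_ (fun i => ?_) i
      · rw [Fin.snoc_last]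
        have : gr (fun s => s) (dom r) = opId (dom r) := by
          ext p
          rw [mem_gr, mem_opId]
          constructor
          · rintro ⟨x, hx, rfl⟩
            exact ⟨x, hx, rfl⟩
          · rintro ⟨x, hx, rfl⟩
            exact ⟨x, hx, rfl⟩
        rw [this]
        exact hC.opid hy
      · rw [Fin.snoc_castSucc]
        have : gr (fun _ => v i) (dom r) = ZFSet.prod (dom r) {v i} := by
          ext p
          rw [mem_gr, ZFSet.mem_prod]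
          constructor
          · rintro ⟨x, hx, rfl⟩
            exact ⟨x, hx, v i, by simp, rfl⟩
          · rintro ⟨a, ha, b, hb, rfl⟩
            rw [ZFSet.mem_singleton.1 hb]
            exact ⟨a, ha, rfl⟩
        rw [this]
        exact hC.prod hy (hC.sing (hv i).1))
  have h2 : ∀ s, (fun i => (Fin.snoc (fun i _ => v i) (fun s => s) : Fin (n + 1) → V → V) i s) =
      (Fin.snoc v s : Fin (n + 1) → V) := by
    intro s
    funext i
    refine Fin.lastCases ?_ (fun i => ?_) i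
    · simp
    · simp
  simp only [h2] at h1
  set Z : V := ZFSet.sep (fun s => φ.Sat (dom r : Set V) (fun x y => x ∈ y) c (Fin.snoc v s))
    (dom r) with hZ
  obtain ⟨h3, _⟩ := hr.minOf (c := Z) (fun z hz => (ZFSet.mem_sep.1 hz).1)
    ⟨x, ZFSet.mem_sep.2 ⟨hx, hφ⟩⟩
  obtain ⟨h4, h5⟩ := ZFSet.mem_sep.1 h3
  exact ⟨minOf r Z, ⟨hmin Z h1, h4⟩, h5⟩

/-- An absolute predicate is defined by a formula without constants. -/
theorem D0.fm {Γ : Type 1} [Ctx Γ] {P : Γ → Prop} (h : D0 P) :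
    ∃ φ : Fm PEmpty.{2} (Ctx.n Γ), ∀ (M : Set V) [TrC M] (c : PEmpty.{2} → V) (γ : Γ),
      InM M γ → (SS M c φ (Ctx.get γ) ↔ P γ) := by
  obtain ⟨φ, h⟩ := h
  refine ⟨φ.mapC Empty.elim, fun M _ c γ hγ => ?_⟩
  rw [← h M γ hγ]
  unfold SS
  rw [Fm.sat_mapC]
  have e : (c ∘ Empty.elim : Empty → V) = Empty.elim := by
    funext x; exact x.elim
  rw [e]

/-- **Condensation in the model.** Any countable transitive set of a model of ZFC + V = L belongs
to a countable level. -/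
theorem exists_level {M : Set V} [ZFCm M] (hL : VeqL M) {t : V} (ht : t ∈ M)
    (htr : t.IsTransitive) (htc : Cbl M t) :
    ∃ β : Ordinal.{0}, Lim β ∧ t ∈ slev β ∧ slev β ∈ M ∧ Cbl M (slev β) := by
  obtain ⟨γ, hγ, hytr, hyG, hty⟩ := hL t ht
  have hyM : slev γ ∈ M := by
    have := (DMap.dom (DMap.id (Γ := V) (A := M) (M := M))).mem (γ := lev γ) (inM_V.2 hγ)
    exact this
  have hins : ∀ {a b : V}, a ∈ M → b ∈ M → (insert a b : V) ∈ M := by
    intro a b ha hb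
    have : DMap M M (fun p : V × V => (insert p.1 p.2 : V)) := DMap.insert (DMap.fst DMap.id)
      (DMap.snd DMap.id)
    exact this.mem (γ := (a, b)) (inM_prod.2 ⟨inM_V.2 ha, hb⟩)
  -- the hull
  obtain ⟨h, hM, hcbl, hch, hfc, hmin⟩ := exists_hull (r := lev γ)
    (c := insert ∅ (insert (slev γ) (insert t t))) hγ
    (hins ZFm.empty_mem (hins hyM (hins ht ht)))
    (Cbl3.cbl_insert ZFm.empty_mem (Cbl3.cbl_insert hyM (Cbl3.cbl_insert ht htc)))
    (ZFSet.mem_insert _ _)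
  have hyh : slev γ ∈ h := hch (by simp)
  have hth : t ∈ h := hch (by simp)
  have hsh : ∀ s ∈ t, s ∈ h := fun s hs => hch (by simp [hs])
  have hel : Elem {x | x ∈ {x | x ∈ h} ∧ x ∈ dom (lev γ)} {x | x ∈ dom (lev γ)} :=
    elem_of_fc hfc (lev_wo γ).1 hyh hmin
  set k : V := ZFSet.sep (fun x => x ∈ slev γ) h with hk
  have hkM : k ∈ M := ZFm.sep_mem (Dfn.mem DMap.id (DMap.const hyM hyM)) hM
  have hkH : {x | x ∈ {x | x ∈ h} ∧ x ∈ dom (lev γ)} = {x | x ∈ k} := by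
    ext x
    exact (ZFSet.mem_sep).symm
  rw [hkH] at hel
  have hyT : TrC {x | x ∈ dom (lev γ)} := ⟨fun {x y} hx hy => hytr x hx hy⟩
  have hext := hel.extn
  set T : V := rep k (col {x | x ∈ k}) with hT
  have hTM : T ∈ M := ZFm.rep_mem (dmap_col hkM hkM) hkM
  have hTc : Cbl M T := Cov.cbl_image (A := M) (Cov.cbl_mono (fun x hx => (ZFSet.mem_sep.1 hx).1)
    hcbl) (dmap_col hkM hkM) (fun _ hz => hz)
  have hTset : (T : Set V) = col {x | x ∈ k} '' {x | x ∈ k} := by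
    ext z
    show z ∈ T ↔ _
    rw [hT, mem_rep]
    rfl
  have htk : t ∈ k := ZFSet.mem_sep.2 ⟨hth, hty⟩
  have hsk : ∀ s ∈ t, s ∈ k := fun s hs => ZFSet.mem_sep.2 ⟨hsh s hs, hytr t hty hs⟩
  have htT : t ∈ T := mem_rep.2 ⟨t, htk, col_self htr hsk⟩
  have hTT : TrC (T : Set V) := hTset ▸ col_trC _
  -- the collapse satisfies the hypothesis of condensation
  have hG : ∀ x ∈ (T : Set V), ∃ B ∈ (T : Set V), GoodAt x B := by
    intro x hx
    obtain ⟨z, hz, rfl⟩ := mem_rep.1 hx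
    obtain ⟨hzh, hzy⟩ := ZFSet.mem_sep.1 hz
    obtain ⟨B, hB, hzB⟩ := hyG z hzy
    obtain ⟨φ, hφ⟩ := D0.fm (D0.goodAt (Γ := V × V) (f := fun p => p.1) (g := fun p => p.2)
      (Prj.fst Prj.id) (Prj.snd Prj.id))
    have h1 : ¬ SS {x | x ∈ dom (lev γ)} (fun k : PEmpty.{2} => (k.elim : V))
        (.all (.neg φ)) (Ctx.get z) := by
      intro H
      exact H B hB ((hφ {x | x ∈ dom (lev γ)} _ ((z, B) : V × V)
        (inM_prod.2 ⟨inM_V.2 hzy, hB⟩)).2 hzB)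
    have h2 := hel.2 PEmpty.{2} (fun k : PEmpty.{2} => (k.elim : V)) (fun k => k.elim) _
      (.all (.neg φ)) (Ctx.get z) (fun i => hz)
    rw [← h2] at h1
    have h3 : ∃ B ∈ k, SS {x | x ∈ k} (fun k : PEmpty.{2} => (k.elim : V)) φ
        (Ctx.get ((z, B) : V × V)) := by
      by_contra h4
      push Not at h4
      exact h1 fun B hB hB' => h4 B hB hB'
    obtain ⟨B, hB, hB'⟩ := h3
    have h4 := (col_sat hext (fun k : PEmpty.{2} => (k.elim : V)) (fun k => k.elim) φ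
      (Ctx.get ((z, B) : V × V)) (inM_prod.2 ⟨inM_V.2 hz, hB⟩)).1 hB'
    have hBT : col {x | x ∈ k} B ∈ T := mem_rep.2 ⟨B, hB, rfl⟩
    refine ⟨_, hBT, ?_⟩
    have h5 := (hφ (T : Set V) (col {x | x ∈ k} ∘ fun k : PEmpty.{2} => (k.elim : V))
      ((col {x | x ∈ k} z, col {x | x ∈ k} B) : V × V) (inM_prod.2 ⟨inM_V.2 hx, hBT⟩))
    refine h5.1 ?_
    rw [← hTset] at h4
    have e : (Ctx.get ((col {x | x ∈ k} z, col {x | x ∈ k} B) : V × V)) =
        col {x | x ∈ k} ∘ (Ctx.get ((z, B) : V × V)) := by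
      show Fin.snoc _ _ = col {x | x ∈ k} ∘ Fin.snoc _ _
      rw [comp_snoc]
      rfl
    rw [e]
    exact h4
  have hsm : Small.{0} (T : Set V) := by
    have h6 : Small.{0} {x // x ∈ T} := inferInstance
    exact h6
  obtain ⟨l, hl, hTl, _⟩ := condensationL (T : Set V) (fun x hx y hy => TrC.trans hx hy)
    ⟨t, htT⟩ hG
  have hTeq : T = slev l := by
    ext x
    have : x ∈ (T : Set V) ↔ x ∈ {x | x ∈ slev l} := by rw [hTl]
    exact this
  exact ⟨l, hl, hTeq ▸ htT, hTeq ▸ hTM, hTeq ▸ hTc⟩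

end Hier

end Pool.Agent.CTM
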