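import Pool.Agent.CTM.HierOps

/-!
A constructible-like hierarchy of well-orders `lev α` (as sets of ordered pairs), whose fields
`dom (lev α)` are the levels of an inner model.
-/

set_option autoImplicit false

namespace Pool.Agent.CTM

theorem rank_lt_of_pair_mem_left {x y f : V} (h : ZFSet.pair x y ∈ f) : x.rank < f.rank := by
  have h1 : x.rank < (ZFSet.pair x y).rank := by
    have h2 : x ∈ ({x} : V) := by simp
    have h3 : ({x} : V) ∈ ZFSet.pair x y := by simp [ZFSet.pair]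
    exact (ZFSet.rank_lt_of_mem h2).trans (ZFSet.rank_lt_of_mem h3)
  exact h1.trans (ZFSet.rank_lt_of_mem h)

theorem rank_lt_of_pair_mem_right {x y f : V} (h : ZFSet.pair x y ∈ f) : y.rank < f.rank := by
  have h1 : y.rank < (ZFSet.pair x y).rank := by
    have h2 : y ∈ ({x, y} : V) := by simp
    have h3 : ({x, y} : V) ∈ ZFSet.pair x y := by simp [ZFSet.pair]
    exact (ZFSet.rank_lt_of_mem h2).trans (ZFSet.rank_lt_of_mem h3)
  exact h1.trans (ZFSet.rank_lt_of_mem h)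

theorem rank_lt_of_mem_dom {x f : V} (h : x ∈ dom f) : x.rank < f.rank := by
  obtain ⟨y, hy⟩ := mem_dom.1 h
  exact rank_lt_of_pair_mem_left hy

theorem self_notMem_dom (r : V) : r ∉ dom r := fun h => lt_irrefl _ (rank_lt_of_mem_dom h)

/-- Reflexive well-orders as sets of ordered pairs. -/
structure WO (r : V) : Prop where
  rel : ∀ p ∈ r, ∃ x y, p = ZFSet.pair x y
  right : ∀ x y, ZFSet.pair x y ∈ r → y ∈ dom r
  antisymm : ∀ x y, ZFSet.pair x y ∈ r → ZFSet.pair y x ∈ r → x = y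
  least : ∀ C : Set V, (∃ x ∈ C, x ∈ dom r) →
    ∃ m ∈ C, m ∈ dom r ∧ ∀ x ∈ C, x ∈ dom r → ZFSet.pair m x ∈ r

theorem WO.left {r x y : V} (_ : WO r) (h : ZFSet.pair x y ∈ r) : x ∈ dom r := mem_dom.2 ⟨y, h⟩

theorem WO.total {r : V} (h : WO r) {x y : V} (hx : x ∈ dom r) (hy : y ∈ dom r) :
    ZFSet.pair x y ∈ r ∨ ZFSet.pair y x ∈ r := by
  obtain ⟨m, hm, _, h1⟩ := h.least {x, y} ⟨x, by simp, hx⟩
  rcases hm with rfl | hm
  · exact Or.inl (h1 y (by simp) hy)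
  · rw [Set.mem_singleton_iff] at hm
    subst hm
    exact Or.inr (h1 x (by simp) hx)

theorem WO.refl {r : V} (h : WO r) {x : V} (hx : x ∈ dom r) : ZFSet.pair x x ∈ r := by
  rcases h.total hx hx with h | h <;> exact h

theorem WO.trans {r : V} (h : WO r) {x y z : V} (hxy : ZFSet.pair x y ∈ r)
    (hyz : ZFSet.pair y z ∈ r) : ZFSet.pair x z ∈ r := by
  have hx := h.left hxy
  have hy := h.left hyz
  have hz := h.right _ _ hyz
  obtain ⟨m, hm, _, h1⟩ := h.least {x, y, z} ⟨x, by simp, hx⟩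
  rcases hm with rfl | rfl | hm
  · exact h1 z (by simp) hz
  · have := h.antisymm _ _ (h1 x (by simp) hx) hxy
    rwa [← this]
  · rw [Set.mem_singleton_iff] at hm
    subst hm
    have h2 := h.antisymm _ _ (h1 y (by simp) hy) hyz
    rw [h2]
    exact hxy

/-- `s` is an initial part of `r`. -/
def EE (s r : V) : Prop := s ⊆ r ∧ ∀ x y, ZFSet.pair x y ∈ r → y ∈ dom s → ZFSet.pair x y ∈ s

theorem dom_mono {s r : V} (h : s ⊆ r) : dom s ⊆ dom r := by
  intro x hx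
  obtain ⟨y, hy⟩ := mem_dom.1 hx
  exact mem_dom.2 ⟨y, h hy⟩

theorem EE.refl (r : V) : EE r r := ⟨fun _ h => h, fun _ _ h _ => h⟩

theorem EE.trans {a b c : V} (h : EE a b) (h' : EE b c) : EE a c :=
  ⟨fun _ hx => h'.1 (h.1 hx), fun x y hxy hy => h.2 x y (h'.2 x y hxy (dom_mono h.1 hy)) hy⟩

/-! ### Adding the order as a new top element -/

/-- The end extension of `r` by the new top element `r`. -/
noncomputable def topr (r : V) : V := r ∪ ZFSet.prod (insert r (dom r)) {r}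

theorem pair_mem_topr {r x y : V} : ZFSet.pair x y ∈ topr r ↔
    ZFSet.pair x y ∈ r ∨ ((x = r ∨ x ∈ dom r) ∧ y = r) := by
  unfold topr
  rw [ZFSet.mem_union, ZFSet.pair_mem_prod, ZFSet.mem_insert_iff, ZFSet.mem_singleton]

theorem mem_dom_topr {r x : V} : x ∈ dom (topr r) ↔ x = r ∨ x ∈ dom r := by
  rw [mem_dom]
  constructor
  · rintro ⟨y, hy⟩
    rcases pair_mem_topr.1 hy with h | h
    · exact Or.inr (mem_dom.2 ⟨y, h⟩)
    · exact h.1
  · intro h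
    exact ⟨r, pair_mem_topr.2 (Or.inr ⟨h, rfl⟩)⟩

theorem WO.topr {r : V} (h : WO r) : WO (topr r) where
  rel := by
    intro p hp
    unfold CTM.topr at hp
    rw [ZFSet.mem_union] at hp
    rcases hp with hp | hp
    · exact h.rel p hp
    · obtain ⟨a, _, b, _, e⟩ := ZFSet.mem_prod.1 hp
      exact ⟨a, b, e⟩
  right := by
    intro x y hxy
    rw [mem_dom_topr]
    rcases pair_mem_topr.1 hxy with h1 | h1
    · exact Or.inr (h.right _ _ h1)
    · exact Or.inl h1.2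
  antisymm := by
    intro x y hxy hyx
    rcases pair_mem_topr.1 hxy with h1 | ⟨h1, h1'⟩
    · rcases pair_mem_topr.1 hyx with h2 | ⟨h2, h2'⟩
      · exact h.antisymm _ _ h1 h2
      · subst h2'
        exact absurd (h.left h1) (self_notMem_dom _)
    · rcases pair_mem_topr.1 hyx with h2 | ⟨h2, h2'⟩
      · subst h1'
        exact absurd (h.left h2) (self_notMem_dom _)
      · rw [h1', h2']
  least := by
    rintro C ⟨x, hx, hx'⟩
    by_cases hC : ∃ x ∈ C, x ∈ dom r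
    · obtain ⟨m, hm, hm', h1⟩ := h.least C hC
      refine ⟨m, hm, mem_dom_topr.2 (Or.inr hm'), fun z hz hz' => ?_⟩
      rcases mem_dom_topr.1 hz' with rfl | hz'
      · exact pair_mem_topr.2 (Or.inr ⟨Or.inr hm', rfl⟩)
      · exact pair_mem_topr.2 (Or.inl (h1 z hz hz'))
    · refine ⟨x, hx, hx', fun z hz hz' => ?_⟩
      have hxr : x = r := (mem_dom_topr.1 hx').resolve_right fun h' => hC ⟨x, hx, h'⟩
      have hzr : z = r := (mem_dom_topr.1 hz').resolve_right fun h' => hC ⟨z, hz, h'⟩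
      exact pair_mem_topr.2 (Or.inr ⟨Or.inl hxr, hzr⟩)

/-! ### Adding the values of the operations -/

/-- The values of the operations which are new. -/
noncomputable def newS (s : V) : V :=
  (ZFSet.sUnion (rep (dom s) fun w => ZFSet.sUnion (rep (dom s) fun u =>
    rep (dom s) fun v => Fop w u v)) : V) \ dom s

theorem mem_newS {s x : V} : x ∈ newS s ↔
    (∃ w ∈ dom s, ∃ u ∈ dom s, ∃ v ∈ dom s, x = Fop w u v) ∧ x ∉ dom s := by
  unfold newS
  rw [ZFSet.mem_sdiff]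
  refine and_congr ?_ Iff.rfl
  rw [ZFSet.mem_sUnion]
  constructor
  · rintro ⟨z, hz, hx⟩
    obtain ⟨w, hw, rfl⟩ := mem_rep.1 hz
    rw [ZFSet.mem_sUnion] at hx
    obtain ⟨z, hz, hx⟩ := hx
    obtain ⟨u, hu, rfl⟩ := mem_rep.1 hz
    obtain ⟨v, hv, rfl⟩ := mem_rep.1 hx
    exact ⟨w, hw, u, hu, v, hv, rfl⟩
  · rintro ⟨w, hw, u, hu, v, hv, rfl⟩
    refine ⟨_, mem_rep.2 ⟨w, hw, rfl⟩, ?_⟩
    rw [ZFSet.mem_sUnion]
    exact ⟨_, mem_rep.2 ⟨u, hu, rfl⟩, mem_rep.2 ⟨v, hv, rfl⟩⟩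

/-- The strict part of `s`. -/
def ltS (s x y : V) : Prop := ZFSet.pair x y ∈ s ∧ ¬ x = y

/-- The lexicographic order of triples. -/
def ltT (s w u v w' u' v' : V) : Prop :=
  ltS s w w' ∨ (w = w' ∧ (ltS s u u' ∨ (u = u' ∧ ltS s v v')))

/-- `x` is generated before `y`. -/
def prec (s x y : V) : Prop :=
  ∃ w ∈ dom s, ∃ u ∈ dom s, ∃ v ∈ dom s, x = Fop w u v ∧
    ∀ w' ∈ dom s, ∀ u' ∈ dom s, ∀ v' ∈ dom s, y = Fop w' u' v' → ltT s w u v w' u' v'

/-- The end extension of `s` by the new values of the operations. -/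
noncomputable def ext2 (s : V) : V :=
  (s ∪ ZFSet.prod (dom s) (newS s)) ∪
    ZFSet.sep (fun p => ∃ x y, p = ZFSet.pair x y ∧ (x = y ∨ prec s x y))
      (ZFSet.prod (newS s) (newS s))

theorem pair_mem_ext2 {s x y : V} : ZFSet.pair x y ∈ ext2 s ↔
    ZFSet.pair x y ∈ s ∨ (x ∈ dom s ∧ y ∈ newS s) ∨
      (x ∈ newS s ∧ y ∈ newS s ∧ (x = y ∨ prec s x y)) := by
  unfold ext2
  rw [ZFSet.mem_union, ZFSet.mem_union, ZFSet.pair_mem_prod, ZFSet.mem_sep, ZFSet.pair_mem_prod,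
    or_assoc]
  refine or_congr Iff.rfl (or_congr Iff.rfl ?_)
  rw [and_assoc]
  refine and_congr Iff.rfl (and_congr Iff.rfl ?_)
  constructor
  · rintro ⟨x', y', e, h⟩
    obtain ⟨rfl, rfl⟩ := ZFSet.pair_injective e
    exact h
  · intro h
    exact ⟨x, y, rfl, h⟩

theorem newS_notMem {s x : V} (h : x ∈ newS s) : x ∉ dom s := (mem_newS.1 h).2

theorem WO.mem_dom_ext2 {s : V} (h : WO s) {x : V} : x ∈ dom (ext2 s) ↔ x ∈ dom s ∨ x ∈ newS s := by
  rw [mem_dom]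
  constructor
  · rintro ⟨y, hy⟩
    rcases pair_mem_ext2.1 hy with h1 | h1 | h1
    · exact Or.inl (h.left h1)
    · exact Or.inl h1.1
    · exact Or.inr h1.1
  · rintro (h1 | h1)
    · exact ⟨x, pair_mem_ext2.2 (Or.inl (h.refl h1))⟩
    · exact ⟨x, pair_mem_ext2.2 (Or.inr (Or.inr ⟨h1, h1, Or.inl rfl⟩))⟩

theorem WO.ltS_asymm {s : V} (h : WO s) {x y : V} (h1 : ltS s x y) (h2 : ltS s y x) : False :=
  h1.2 (h.antisymm _ _ h1.1 h2.1)

theorem WO.ltT_asymm {s : V} (h : WO s) {w u v w' u' v' : V} (h1 : ltT s w u v w' u' v')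
    (h2 : ltT s w' u' v' w u v) : False := by
  rcases h1 with h1 | ⟨rfl, h1 | ⟨rfl, h1⟩⟩
  · rcases h2 with h2 | ⟨rfl, _⟩
    · exact h.ltS_asymm h1 h2
    · exact h1.2 rfl
  · rcases h2 with h2 | ⟨_, h2 | ⟨rfl, _⟩⟩
    · exact h2.2 rfl
    · exact h.ltS_asymm h1 h2
    · exact h1.2 rfl
  · rcases h2 with h2 | ⟨_, h2 | ⟨_, h2⟩⟩
    · exact h2.2 rfl
    · exact h2.2 rfl
    · exact h.ltS_asymm h1 h2

theorem WO.prec_asymm {s : V} (h : WO s) {x y : V} (h1 : prec s x y) (h2 : prec s y x) :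
    False := by
  obtain ⟨w, hw, u, hu, v, hv, rfl, h1⟩ := h1
  obtain ⟨w', hw', u', hu', v', hv', rfl, h2⟩ := h2
  exact h.ltT_asymm (h1 w' hw' u' hu' v' hv' rfl) (h2 w hw u hu v hv rfl)

theorem WO.ext2 {s : V} (h : WO s) : WO (ext2 s) where
  rel := by
    intro p hp
    unfold CTM.ext2 at hp
    rw [ZFSet.mem_union, ZFSet.mem_union, ZFSet.mem_sep] at hp
    rcases hp with (hp | hp) | ⟨hp, _⟩
    · exact h.rel p hp
    · obtain ⟨a, _, b, _, e⟩ := ZFSet.mem_prod.1 hp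
      exact ⟨a, b, e⟩
    · obtain ⟨a, _, b, _, e⟩ := ZFSet.mem_prod.1 hp
      exact ⟨a, b, e⟩
  right := by
    intro x y hxy
    rw [h.mem_dom_ext2]
    rcases pair_mem_ext2.1 hxy with h1 | h1 | h1
    · exact Or.inl (h.right _ _ h1)
    · exact Or.inr h1.2
    · exact Or.inr h1.2.1
  antisymm := by
    intro x y hxy hyx
    rcases pair_mem_ext2.1 hxy with h1 | ⟨h1, h1'⟩ | ⟨h1, h1', h1''⟩
    · rcases pair_mem_ext2.1 hyx with h2 | ⟨h2, h2'⟩ | ⟨h2, h2', h2''⟩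
      · exact h.antisymm _ _ h1 h2
      · exact absurd (h.left h1) (newS_notMem h2')
      · exact absurd (h.left h1) (newS_notMem h2')
    · rcases pair_mem_ext2.1 hyx with h2 | ⟨h2, h2'⟩ | ⟨h2, h2', h2''⟩
      · exact absurd (h.left h2) (newS_notMem h1')
      · exact absurd h2 (newS_notMem h1')
      · exact absurd h1 (newS_notMem h2')
    · rcases pair_mem_ext2.1 hyx with h2 | ⟨h2, h2'⟩ | ⟨h2, h2', h2''⟩
      · exact absurd (h.right _ _ h2) (newS_notMem h1)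
      · exact absurd h2 (newS_notMem h1')
      · rcases h1'' with rfl | h1''
        · rfl
        · rcases h2'' with rfl | h2''
          · rfl
          · exact (h.prec_asymm h1'' h2'').elim
  least := by
    rintro C ⟨x, hx, hx'⟩
    by_cases hC : ∃ x ∈ C, x ∈ dom s
    · obtain ⟨m, hm, hm', h1⟩ := h.least C hC
      refine ⟨m, hm, h.mem_dom_ext2.2 (Or.inl hm'), fun z hz hz' => ?_⟩
      rcases h.mem_dom_ext2.1 hz' with hz' | hz'
      · exact pair_mem_ext2.2 (Or.inl (h1 z hz hz'))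
      · exact pair_mem_ext2.2 (Or.inr (Or.inl ⟨hm', hz'⟩))
    · have hxn : x ∈ newS s := (h.mem_dom_ext2.1 hx').resolve_left fun h' => hC ⟨x, hx, h'⟩
      obtain ⟨⟨w, hw, u, hu, v, hv, e⟩, _⟩ := mem_newS.1 hxn
      obtain ⟨w0, ⟨u1, hu1, v1, hv1, h1⟩, hw0, hwl⟩ := h.least
        {w | ∃ u ∈ dom s, ∃ v ∈ dom s, Fop w u v ∈ C ∧ Fop w u v ∈ newS s}
        ⟨w, ⟨u, hu, v, hv, e ▸ hx, e ▸ hxn⟩, hw⟩
      obtain ⟨u0, ⟨v1, hv1, h1⟩, hu0, hul⟩ := h.least
        {u | ∃ v ∈ dom s, Fop w0 u v ∈ C ∧ Fop w0 u v ∈ newS s} ⟨u1, ⟨v1, hv1, h1⟩, hu1⟩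
      obtain ⟨v0, h1, hv0, hvl⟩ := h.least
        {v | Fop w0 u0 v ∈ C ∧ Fop w0 u0 v ∈ newS s} ⟨v1, h1, hv1⟩
      refine ⟨Fop w0 u0 v0, h1.1, h.mem_dom_ext2.2 (Or.inr h1.2), fun z hz hz' => ?_⟩
      have hzn : z ∈ newS s := (h.mem_dom_ext2.1 hz').resolve_left fun h' => hC ⟨z, hz, h'⟩
      refine pair_mem_ext2.2 (Or.inr (Or.inr ⟨h1.2, hzn, ?_⟩))
      by_cases hne : Fop w0 u0 v0 = z
      · exact Or.inl hne
      right
      refine ⟨w0, hw0, u0, hu0, v0, hv0, rfl, fun w' hw' u' hu' v' hv' e' => ?_⟩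
      have h2 : ZFSet.pair w0 w' ∈ s := hwl w' ⟨u', hu', v', hv', e' ▸ hz, e' ▸ hzn⟩ hw'
      by_cases hww : w0 = w'
      · subst hww
        right
        refine ⟨rfl, ?_⟩
        have h3 : ZFSet.pair u0 u' ∈ s := hul u' ⟨v', hv', e' ▸ hz, e' ▸ hzn⟩ hu'
        by_cases huu : u0 = u'
        · subst huu
          right
          refine ⟨rfl, hvl v' ⟨e' ▸ hz, e' ▸ hzn⟩ hv', ?_⟩
          rintro rfl
          exact hne e'.symm
        · exact Or.inl ⟨h3, huu⟩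
      · exact Or.inl ⟨h2, hww⟩

/-! ### The hierarchy -/

/-- One step of the hierarchy. -/
noncomputable def Stp (r : V) : V := ext2 (topr r)

theorem WO.stp {r : V} (h : WO r) : WO (Stp r) := h.topr.ext2

theorem subset_topr (r : V) : r ⊆ topr r := fun _ h => ZFSet.mem_union.2 (Or.inl h)

theorem subset_ext2 (r : V) : r ⊆ ext2 r := fun _ h =>
  ZFSet.mem_union.2 (Or.inl (ZFSet.mem_union.2 (Or.inl h)))

theorem subset_stp (r : V) : r ⊆ Stp r := fun _ h => subset_ext2 _ (subset_topr _ h)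

theorem EE.topr (r : V) : EE r (topr r) := by
  refine ⟨subset_topr r, fun x y hxy hy => ?_⟩
  rcases pair_mem_topr.1 hxy with h | ⟨_, rfl⟩
  · exact h
  · exact absurd hy (self_notMem_dom _)

theorem EE.ext2 (s : V) : EE s (ext2 s) := by
  refine ⟨subset_ext2 s, fun x y hxy hy => ?_⟩
  rcases pair_mem_ext2.1 hxy with h | ⟨_, h⟩ | ⟨_, h, _⟩
  · exact h
  · exact absurd hy (newS_notMem h)
  · exact absurd hy (newS_notMem h)

theorem EE.stp (r : V) : EE r (Stp r) := (EE.topr r).trans (EE.ext2 _)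

/-- The hierarchy of well-orders. -/
noncomputable def lev (α : Ordinal.{0}) : V := ZFSet.iUnion fun β : Set.Iio α => Stp (lev β)
termination_by α
decreasing_by exact β.2

theorem mem_lev {α : Ordinal.{0}} {p : V} : p ∈ lev α ↔ ∃ β < α, p ∈ Stp (lev β) := by
  rw [lev]
  simp

theorem lev_mono {β α : Ordinal.{0}} (h : β ≤ α) : lev β ⊆ lev α := by
  intro p hp
  obtain ⟨γ, hγ, hp⟩ := mem_lev.1 hp
  exact mem_lev.2 ⟨γ, hγ.trans_le h, hp⟩

theorem lev_succ (α : Ordinal.{0}) : lev (Order.succ α) = Stp (lev α) := by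
  ext p
  rw [mem_lev]
  constructor
  · rintro ⟨β, hβ, hp⟩
    rcases (Order.lt_succ_iff.1 hβ).lt_or_eq with h | rfl
    · exact subset_stp _ (mem_lev.2 ⟨β, h, hp⟩)
    · exact hp
  · intro hp
    exact ⟨α, Order.lt_succ α, hp⟩

theorem stp_lev_subset {β α : Ordinal.{0}} (h : β < α) : Stp (lev β) ⊆ lev α := by
  rw [← lev_succ]
  exact lev_mono (Order.succ_le_of_lt h)

theorem lev_wo (α : Ordinal.{0}) : WO (lev α) ∧ ∀ β ≤ α, EE (lev β) (lev α) := by
  induction α using WellFoundedLT.induction with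
  | ind α ih =>
  have hEE : ∀ β ≤ α, EE (lev β) (lev α) := by
    intro β hβ
    refine ⟨lev_mono hβ, fun x y hxy hy => ?_⟩
    obtain ⟨γ, hγ, hxy⟩ := mem_lev.1 hxy
    rcases le_or_gt (Order.succ γ) β with h | h
    · rw [← lev_succ] at hxy
      exact lev_mono h hxy
    · have hβγ : β ≤ γ := Order.lt_succ_iff.1 h
      exact (((ih γ hγ).2 β hβγ).trans (EE.stp _)).2 x y hxy hy
  have hS : ∀ γ γ' : Ordinal.{0}, γ ≤ γ' → γ' < α → EE (Stp (lev γ)) (Stp (lev γ')) := by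
    intro γ γ' h h'
    rcases h.lt_or_eq with h1 | rfl
    · have := (ih γ' h').2 (Order.succ γ) (Order.succ_le_of_lt h1)
      rw [lev_succ] at this
      exact this.trans (EE.stp _)
    · exact EE.refl _
  refine ⟨⟨?_, ?_, ?_, ?_⟩, hEE⟩
  · intro p hp
    obtain ⟨γ, hγ, hp⟩ := mem_lev.1 hp
    exact (ih γ hγ).1.stp.rel p hp
  · intro x y hxy
    obtain ⟨γ, hγ, hxy⟩ := mem_lev.1 hxy
    exact dom_mono (stp_lev_subset hγ) ((ih γ hγ).1.stp.right _ _ hxy)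
  · intro x y hxy hyx
    obtain ⟨γ, hγ, hxy⟩ := mem_lev.1 hxy
    obtain ⟨γ', hγ', hyx⟩ := mem_lev.1 hyx
    have hm : max γ γ' < α := max_lt hγ hγ'
    exact (ih _ hm).1.stp.antisymm _ _ ((hS _ _ (le_max_left _ _) hm).1 hxy)
      ((hS _ _ (le_max_right _ _) hm).1 hyx)
  · rintro C ⟨x, hx, hx'⟩
    obtain ⟨y, hy⟩ := mem_dom.1 hx'
    obtain ⟨γ, hγ, hy⟩ := mem_lev.1 hy
    have hne : {γ : Ordinal.{0} | γ < α ∧ ∃ x ∈ C, x ∈ dom (Stp (lev γ))}.Nonempty :=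
      ⟨γ, hγ, x, hx, mem_dom.2 ⟨y, hy⟩⟩
    obtain ⟨γ0, ⟨hγ0, hC⟩, hmin⟩ := WellFounded.has_min
      (r := ((· < ·) : Ordinal.{0} → Ordinal.{0} → Prop)) (wellFounded_lt) _ hne
    obtain ⟨m, hm, hm', h1⟩ := (ih γ0 hγ0).1.stp.least C hC
    refine ⟨m, hm, dom_mono (stp_lev_subset hγ0) hm', fun z hz hz' => ?_⟩
    obtain ⟨y', hy'⟩ := mem_dom.1 hz'
    obtain ⟨γ', hγ', hy'⟩ := mem_lev.1 hy'
    have hzd : z ∈ dom (Stp (lev γ')) := mem_dom.2 ⟨y', hy'⟩
    have hM : max γ0 γ' < α := max_lt hγ0 hγ'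
    have e1 := hS _ _ (le_max_left γ0 γ') hM
    have e2 := hS _ _ (le_max_right γ0 γ') hM
    rcases (ih _ hM).1.stp.total (dom_mono e1.1 hm') (dom_mono e2.1 hzd) with h2 | h2
    · exact stp_lev_subset hM h2
    · have h3 := e1.2 _ _ h2 hm'
      have h4 := h1 z hz (mem_dom.2 ⟨m, h3⟩)
      exact stp_lev_subset hγ0 h4

/-- The levels of the inner model. -/
noncomputable def slev (α : Ordinal.{0}) : V := dom (lev α)

theorem slev_mono {β α : Ordinal.{0}} (h : β ≤ α) : slev β ⊆ slev α := dom_mono (lev_mono h)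

theorem mem_slev_succ {α : Ordinal.{0}} {x : V} : x ∈ slev (Order.succ α) ↔
    x ∈ slev α ∨ x = lev α ∨ ∃ w u v, (w = lev α ∨ w ∈ slev α) ∧ (u = lev α ∨ u ∈ slev α) ∧
      (v = lev α ∨ v ∈ slev α) ∧ x = Fop w u v := by
  unfold slev
  rw [lev_succ, Stp, (lev_wo α).1.topr.mem_dom_ext2, mem_dom_topr, mem_newS]
  constructor
  · rintro ((h | h) | ⟨⟨w, hw, u, hu, v, hv, e⟩, _⟩)
    · exact Or.inr (Or.inl h)
    · exact Or.inl h
    · exact Or.inr (Or.inr ⟨w, u, v, mem_dom_topr.1 hw, mem_dom_topr.1 hu, mem_dom_topr.1 hv, e⟩)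
  · intro h
    by_cases hx : x ∈ dom (topr (lev α))
    · exact Or.inl (mem_dom_topr.1 hx)
    · rw [mem_dom_topr] at hx
      rcases h with h | h | ⟨w, u, v, hw, hu, hv, e⟩
      · exact (hx (Or.inr h)).elim
      · exact (hx (Or.inl h)).elim
      · exact Or.inr ⟨⟨w, mem_dom_topr.2 hw, u, mem_dom_topr.2 hu, v, mem_dom_topr.2 hv, e⟩,
          fun h => hx (mem_dom_topr.1 h)⟩

theorem mem_slev {α : Ordinal.{0}} {x : V} : x ∈ slev α ↔ ∃ β < α, x ∈ slev (Order.succ β) := by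
  unfold slev
  rw [mem_dom]
  constructor
  · rintro ⟨y, hy⟩
    obtain ⟨β, hβ, h⟩ := mem_lev.1 hy
    exact ⟨β, hβ, by rw [lev_succ]; exact mem_dom.2 ⟨y, h⟩⟩
  · rintro ⟨β, hβ, h⟩
    obtain ⟨y, hy⟩ := mem_dom.1 h
    exact ⟨y, lev_mono (Order.succ_le_of_lt hβ) hy⟩

theorem lev_mem_slev {β α : Ordinal.{0}} (h : β < α) : lev β ∈ slev α :=
  slev_mono (Order.succ_le_of_lt h) (mem_slev_succ.2 (Or.inr (Or.inl rfl)))

theorem lev_notMem_slev {β α : Ordinal.{0}} (h : α ≤ β) : lev β ∉ slev α := by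
  intro h'
  exact self_notMem_dom _ (slev_mono h h')

theorem lev_injective {α β : Ordinal.{0}} (h : lev α = lev β) : α = β := by
  rcases lt_trichotomy α β with h1 | h1 | h1
  · have := lev_mem_slev h1
    rw [h] at this
    exact (lev_notMem_slev le_rfl this).elim
  · exact h1
  · have := lev_mem_slev h1
    rw [← h] at this
    exact (lev_notMem_slev le_rfl this).elim

theorem Fop_mem_slev_succ {α : Ordinal.{0}} {w u v : V} (hw : w = lev α ∨ w ∈ slev α)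
    (hu : u = lev α ∨ u ∈ slev α) (hv : v = lev α ∨ v ∈ slev α) :
    Fop w u v ∈ slev (Order.succ α) :=
  mem_slev_succ.2 (Or.inr (Or.inr ⟨w, u, v, hw, hu, hv, rfl⟩))

end Pool.Agent.CTM
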