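import Pool.Agent.CTM.Rec

/-!
A finite list of basic operations on sets (all absolute), combined in one ternary operation `Fop`.
They are enough for the normal form theorem in `HierNF`.
-/

set_option autoImplicit false

namespace Pool.Agent.CTM

/-- Selectors: iterated singletons of the empty set. -/
noncomputable def sel : ℕ → V
  | 0 => ∅
  | n + 1 => {sel n}

/-- `{((s, a), b) : (s, b) ∈ u, a ∈ v}`. -/
noncomputable def opLift (u v : V) : V :=
  ZFSet.sep (fun p => ∃ s a b, ZFSet.pair s b ∈ u ∧ a ∈ v ∧ p = ZFSet.pair (ZFSet.pair s a) b)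
    (ZFSet.prod (ZFSet.prod (dom u) v) (ran u))

/-- `{((s, a), a) : s ∈ u, a ∈ v}`. -/
noncomputable def opP2 (u v : V) : V :=
  ZFSet.sep (fun p => ∃ s a, s ∈ u ∧ a ∈ v ∧ p = ZFSet.pair (ZFSet.pair s a) a)
    (ZFSet.prod (ZFSet.prod u v) v)

/-- `{s : (s, a) ∈ u, (s, b) ∈ v, a ∈ b}`. -/
noncomputable def opE2 (u v : V) : V :=
  ZFSet.sep (fun s => ∃ a b, ZFSet.pair s a ∈ u ∧ ZFSet.pair s b ∈ v ∧ a ∈ b) (dom u)

/-- `{(a, a) : a ∈ u}`. -/
noncomputable def opId (u : V) : V :=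
  ZFSet.sep (fun p => ∃ a ∈ u, p = ZFSet.pair a a) (ZFSet.prod u u)

theorem mem_opLift {u v p : V} : p ∈ opLift u v ↔
    ∃ s a b, ZFSet.pair s b ∈ u ∧ a ∈ v ∧ p = ZFSet.pair (ZFSet.pair s a) b := by
  unfold opLift
  rw [ZFSet.mem_sep]
  refine ⟨fun h => h.2, fun h => ⟨?_, h⟩⟩
  obtain ⟨s, a, b, h1, h2, rfl⟩ := h
  rw [ZFSet.pair_mem_prod, ZFSet.pair_mem_prod]
  exact ⟨⟨mem_dom.2 ⟨b, h1⟩, h2⟩, mem_ran.2 ⟨s, h1⟩⟩

theorem mem_opP2 {u v p : V} : p ∈ opP2 u v ↔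
    ∃ s a, s ∈ u ∧ a ∈ v ∧ p = ZFSet.pair (ZFSet.pair s a) a := by
  unfold opP2
  rw [ZFSet.mem_sep]
  refine ⟨fun h => h.2, fun h => ⟨?_, h⟩⟩
  obtain ⟨s, a, h1, h2, rfl⟩ := h
  rw [ZFSet.pair_mem_prod, ZFSet.pair_mem_prod]
  exact ⟨⟨h1, h2⟩, h2⟩

theorem mem_opE2 {u v s : V} : s ∈ opE2 u v ↔
    ∃ a b, ZFSet.pair s a ∈ u ∧ ZFSet.pair s b ∈ v ∧ a ∈ b := by
  unfold opE2
  rw [ZFSet.mem_sep]
  refine ⟨fun h => h.2, fun h => ⟨?_, h⟩⟩
  obtain ⟨a, b, h1, h2, h3⟩ := h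
  exact mem_dom.2 ⟨a, h1⟩

theorem mem_opId {u p : V} : p ∈ opId u ↔ ∃ a ∈ u, p = ZFSet.pair a a := by
  unfold opId
  rw [ZFSet.mem_sep]
  refine ⟨fun h => h.2, fun h => ⟨?_, h⟩⟩
  obtain ⟨a, h1, rfl⟩ := h
  rw [ZFSet.pair_mem_prod]
  exact ⟨h1, h1⟩

/-- The basic operations. -/
noncomputable def Fop (w u v : V) : V :=
  open Classical in
  if w = sel 1 then u \ v
  else if w = sel 2 then ZFSet.prod u v
  else if w = sel 3 then dom u
  else if w = sel 4 then opLift u v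
  else if w = sel 5 then opP2 u v
  else if w = sel 6 then opE2 u v
  else if w = sel 7 then opId u
  else {u, v}

theorem sel_succ_ne_zero (n : ℕ) : sel (n + 1) ≠ sel 0 := by
  intro h
  have : sel n ∈ sel (n + 1) := by simp [sel]
  rw [h] at this
  exact ZFSet.notMem_empty _ this

theorem sel_inj : ∀ {m n : ℕ}, sel m = sel n → m = n
  | 0, 0, _ => rfl
  | 0, n + 1, h => absurd h.symm (sel_succ_ne_zero n)
  | m + 1, 0, h => absurd h (sel_succ_ne_zero m)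
  | m + 1, n + 1, h => by
    have : sel m = sel n := ZFSet.singleton_inj.1 h
    rw [sel_inj this]

theorem sel_ne {m n : ℕ} (h : m ≠ n) : sel m ≠ sel n := fun e => h (sel_inj e)

theorem Fop_pair (u v : V) : Fop (sel 0) u v = {u, v} := by
  unfold Fop
  simp only [sel_ne (show (0 : ℕ) ≠ 1 by decide), sel_ne (show (0 : ℕ) ≠ 2 by decide),
    sel_ne (show (0 : ℕ) ≠ 3 by decide), sel_ne (show (0 : ℕ) ≠ 4 by decide),
    sel_ne (show (0 : ℕ) ≠ 5 by decide), sel_ne (show (0 : ℕ) ≠ 6 by decide),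
    sel_ne (show (0 : ℕ) ≠ 7 by decide), if_false]

theorem Fop_diff (u v : V) : Fop (sel 1) u v = u \ v := by
  unfold Fop
  simp

theorem Fop_prod (u v : V) : Fop (sel 2) u v = ZFSet.prod u v := by
  unfold Fop
  simp only [sel_ne (show (2 : ℕ) ≠ 1 by decide), if_false, if_true]

theorem Fop_dom (u v : V) : Fop (sel 3) u v = dom u := by
  unfold Fop
  simp only [sel_ne (show (3 : ℕ) ≠ 1 by decide), sel_ne (show (3 : ℕ) ≠ 2 by decide), if_false,
    if_true]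

theorem Fop_lift (u v : V) : Fop (sel 4) u v = opLift u v := by
  unfold Fop
  simp only [sel_ne (show (4 : ℕ) ≠ 1 by decide), sel_ne (show (4 : ℕ) ≠ 2 by decide),
    sel_ne (show (4 : ℕ) ≠ 3 by decide), if_false, if_true]

theorem Fop_p2 (u v : V) : Fop (sel 5) u v = opP2 u v := by
  unfold Fop
  simp only [sel_ne (show (5 : ℕ) ≠ 1 by decide), sel_ne (show (5 : ℕ) ≠ 2 by decide),
    sel_ne (show (5 : ℕ) ≠ 3 by decide), sel_ne (show (5 : ℕ) ≠ 4 by decide), if_false, if_true]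

theorem Fop_e2 (u v : V) : Fop (sel 6) u v = opE2 u v := by
  unfold Fop
  simp only [sel_ne (show (6 : ℕ) ≠ 1 by decide), sel_ne (show (6 : ℕ) ≠ 2 by decide),
    sel_ne (show (6 : ℕ) ≠ 3 by decide), sel_ne (show (6 : ℕ) ≠ 4 by decide),
    sel_ne (show (6 : ℕ) ≠ 5 by decide), if_false, if_true]

theorem Fop_id (u v : V) : Fop (sel 7) u v = opId u := by
  unfold Fop
  simp only [sel_ne (show (7 : ℕ) ≠ 1 by decide), sel_ne (show (7 : ℕ) ≠ 2 by decide),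
    sel_ne (show (7 : ℕ) ≠ 3 by decide), sel_ne (show (7 : ℕ) ≠ 4 by decide),
    sel_ne (show (7 : ℕ) ≠ 5 by decide), sel_ne (show (7 : ℕ) ≠ 6 by decide), if_false, if_true]

/-! ### Absoluteness -/

theorem sUU_pair_mem {q s b : V} (h : q = ZFSet.pair s b) :
    ∃ t ∈ q, s ∈ t ∧ b ∈ t := ⟨{s, b}, by rw [h]; simp [ZFSet.pair], by simp, by simp⟩

section

variable {Γ : Type 1} [Ctx Γ]

theorem D0.isSel {f : Γ → V} (hf : Prj f) (n : ℕ) : D0 (fun γ => f γ = sel n) := by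
  have h : ∀ n, D0 (fun x : V => x = sel n) := by
    intro n
    induction n with
    | zero =>
      refine D0.congr' (P := fun x : V => ∀ z ∈ x, False) (fun x => ?_) (by apply_rules (transparency := .reducible) (maxDepth := 999) only using is_poly)
      exact ZFSet.eq_empty x
    | succ n ih =>
      have ih' : D0 (fun p : V × V => p.2 = sel n) := ih.comp (g := fun p : V × V => p.2) (Prj.snd Prj.id)
      refine D0.congr' (P := fun x : V => (∃ z ∈ x, z = sel n) ∧ ∀ z ∈ x, z = sel n)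
        (fun x => ?_) (D0.and (D0.ex_mem Prj.id ih') (D0.all_mem Prj.id ih'))
      constructor
      · intro e
        rw [e]
        exact ⟨⟨sel n, by simp [sel], rfl⟩, fun z hz => by simpa [sel] using hz⟩
      · rintro ⟨⟨z, hz, rfl⟩, h2⟩
        ext y
        rw [sel, ZFSet.mem_singleton]
        exact ⟨h2 y, fun e => e ▸ hz⟩
  exact (h n).comp hf

theorem D0.isProd {f g h : Γ → V} (hf : Prj f) (hg : Prj g) (hh : Prj h) :
    D0 (fun γ => f γ = ZFSet.prod (g γ) (h γ)) := by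
  have : D0 (fun p : (V × V) × V => p.1.1 = ZFSet.prod p.1.2 p.2) := by
    refine D0.congr' (P := fun p : (V × V) × V =>
      (∀ z ∈ p.1.1, ∃ a ∈ p.1.2, ∃ b ∈ p.2, z = ZFSet.pair a b) ∧
      (∀ a ∈ p.1.2, ∀ b ∈ p.2, ∃ z ∈ p.1.1, z = ZFSet.pair a b)) (fun p => ?_) (by apply_rules (transparency := .reducible) (maxDepth := 999) only using is_poly)
    constructor
    · intro e
      rw [e]
      refine ⟨fun z hz => ?_, fun a ha b hb => ⟨_, ZFSet.pair_mem_prod.2 ⟨ha, hb⟩, rfl⟩⟩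
      obtain ⟨a, ha, b, hb, e⟩ := ZFSet.mem_prod.1 hz
      exact ⟨a, ha, b, hb, e⟩
    · rintro ⟨h1, h2⟩
      ext z
      rw [ZFSet.mem_prod]
      constructor
      · intro hz
        obtain ⟨a, ha, b, hb, e⟩ := h1 z hz
        exact ⟨a, ha, b, hb, e⟩
      · rintro ⟨a, ha, b, hb, rfl⟩
        obtain ⟨z, hz, rfl⟩ := h2 a ha b hb
        exact hz
  exact this.comp (((hf.prodMk hg).prodMk hh))

theorem D0.isDiff {f g h : Γ → V} (hf : Prj f) (hg : Prj g) (hh : Prj h) :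
    D0 (fun γ => f γ = g γ \ h γ) := by
  have : D0 (fun p : (V × V) × V => p.1.1 = p.1.2 \ p.2) := by
    refine D0.congr' (P := fun p : (V × V) × V =>
      (∀ z ∈ p.1.1, z ∈ p.1.2 ∧ ¬ z ∈ p.2) ∧
      (∀ z ∈ p.1.2, ¬ z ∈ p.2 → z ∈ p.1.1)) (fun p => ?_) (by apply_rules (transparency := .reducible) (maxDepth := 999) only using is_poly)
    constructor
    · intro e
      rw [e]
      refine ⟨fun z hz => ZFSet.mem_sdiff.1 hz, fun z hz h => ZFSet.mem_sdiff.2 ⟨hz, h⟩⟩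
    · rintro ⟨h1, h2⟩
      ext z
      rw [ZFSet.mem_sdiff]
      exact ⟨h1 z, fun h => h2 z h.1 h.2⟩
  exact this.comp (((hf.prodMk hg).prodMk hh))

theorem D0.isDom {f g : Γ → V} (hf : Prj f) (hg : Prj g) :
    D0 (fun γ => f γ = dom (g γ)) := by
  have : D0 (fun p : V × V => p.1 = dom p.2) := by
    refine D0.congr' (P := fun p : V × V =>
      (∀ a ∈ p.1, ∃ q ∈ p.2, ∃ t ∈ q, ∃ b ∈ t, q = ZFSet.pair a b) ∧
      (∀ q ∈ p.2, ∀ t ∈ q, ∀ a ∈ t, ∀ b ∈ t, q = ZFSet.pair a b → a ∈ p.1)) (fun p => ?_)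
      (by apply_rules (transparency := .reducible) (maxDepth := 999) only using is_poly)
    constructor
    · intro e
      rw [e]
      refine ⟨fun a ha => ?_, fun q hq t _ a _ b _ e => mem_dom.2 ⟨b, e ▸ hq⟩⟩
      obtain ⟨b, hb⟩ := mem_dom.1 ha
      obtain ⟨t, ht, h1, h2⟩ := sUU_pair_mem (s := a) (b := b) rfl
      exact ⟨_, hb, t, ht, b, h2, rfl⟩
    · rintro ⟨h1, h2⟩
      ext a
      rw [mem_dom]
      constructor
      · intro ha
        obtain ⟨q, hq, t, _, b, _, rfl⟩ := h1 a ha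
        exact ⟨b, hq⟩
      · rintro ⟨b, hb⟩
        obtain ⟨t, ht, h3, h4⟩ := sUU_pair_mem (s := a) (b := b) rfl
        exact h2 _ hb t ht a h3 b h4 rfl
  exact this.comp (hf.prodMk hg)

theorem D0.isLift {f g h : Γ → V} (hf : Prj f) (hg : Prj g) (hh : Prj h) :
    D0 (fun γ => f γ = opLift (g γ) (h γ)) := by
  have : D0 (fun p : (V × V) × V => p.1.1 = opLift p.1.2 p.2) := by
    refine D0.congr' (P := fun p : (V × V) × V =>
      (∀ z ∈ p.1.1, ∃ q ∈ p.1.2, ∃ t ∈ q, ∃ s ∈ t, ∃ b ∈ t, q = ZFSet.pair s b ∧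
        ∃ a ∈ p.2, ∃ e ∈ z, ∃ c ∈ e, c = ZFSet.pair s a ∧ z = ZFSet.pair c b) ∧
      (∀ q ∈ p.1.2, ∀ t ∈ q, ∀ s ∈ t, ∀ b ∈ t, q = ZFSet.pair s b →
        ∀ a ∈ p.2, ∃ z ∈ p.1.1, ∃ e ∈ z, ∃ c ∈ e, c = ZFSet.pair s a ∧ z = ZFSet.pair c b))
      (fun p => ?_) (by apply_rules (transparency := .reducible) (maxDepth := 999) only using is_poly)
    constructor
    · intro e
      rw [e]
      refine ⟨fun z hz => ?_, fun q hq t ht s hs b hb e a ha => ?_⟩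
      · obtain ⟨s, a, b, h1, h2, rfl⟩ := mem_opLift.1 hz
        obtain ⟨t, ht, h3, h4⟩ := sUU_pair_mem (s := s) (b := b) rfl
        obtain ⟨t', ht', h3', h4'⟩ := sUU_pair_mem (s := ZFSet.pair s a) (b := b) rfl
        exact ⟨_, h1, t, ht, s, h3, b, h4, rfl, a, h2, t', ht', _, h3', rfl, rfl⟩
      · obtain ⟨t', ht', h3', h4'⟩ := sUU_pair_mem (s := ZFSet.pair s a) (b := b) rfl
        exact ⟨_, mem_opLift.2 ⟨s, a, b, e ▸ hq, ha, rfl⟩, t', ht', _, h3', rfl, rfl⟩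
    · rintro ⟨h1, h2⟩
      ext z
      rw [mem_opLift]
      constructor
      · intro hz
        obtain ⟨q, hq, t, _, s, _, b, _, rfl, a, ha, e, _, c, _, rfl, rfl⟩ := h1 z hz
        exact ⟨s, a, b, hq, ha, rfl⟩
      · rintro ⟨s, a, b, h3, h4, rfl⟩
        obtain ⟨t, ht, h5, h6⟩ := sUU_pair_mem (s := s) (b := b) rfl
        obtain ⟨z, hz, e, _, c, _, rfl, rfl⟩ := h2 _ h3 t ht s h5 b h6 rfl a h4
        exact hz
  exact this.comp (((hf.prodMk hg).prodMk hh))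

theorem D0.isP2 {f g h : Γ → V} (hf : Prj f) (hg : Prj g) (hh : Prj h) :
    D0 (fun γ => f γ = opP2 (g γ) (h γ)) := by
  have : D0 (fun p : (V × V) × V => p.1.1 = opP2 p.1.2 p.2) := by
    refine D0.congr' (P := fun p : (V × V) × V =>
      (∀ z ∈ p.1.1, ∃ s ∈ p.1.2, ∃ a ∈ p.2, ∃ e ∈ z, ∃ c ∈ e, c = ZFSet.pair s a ∧
        z = ZFSet.pair c a) ∧
      (∀ s ∈ p.1.2, ∀ a ∈ p.2, ∃ z ∈ p.1.1, ∃ e ∈ z, ∃ c ∈ e, c = ZFSet.pair s a ∧
        z = ZFSet.pair c a)) (fun p => ?_) (by apply_rules (transparency := .reducible) (maxDepth := 999) only using is_poly)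
    constructor
    · intro e
      rw [e]
      refine ⟨fun z hz => ?_, fun s hs a ha => ?_⟩
      · obtain ⟨s, a, h1, h2, rfl⟩ := mem_opP2.1 hz
        obtain ⟨t', ht', h3', h4'⟩ := sUU_pair_mem (s := ZFSet.pair s a) (b := a) rfl
        exact ⟨s, h1, a, h2, t', ht', _, h3', rfl, rfl⟩
      · obtain ⟨t', ht', h3', h4'⟩ := sUU_pair_mem (s := ZFSet.pair s a) (b := a) rfl
        exact ⟨_, mem_opP2.2 ⟨s, a, hs, ha, rfl⟩, t', ht', _, h3', rfl, rfl⟩
    · rintro ⟨h1, h2⟩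
      ext z
      rw [mem_opP2]
      constructor
      · intro hz
        obtain ⟨s, hs, a, ha, e, _, c, _, rfl, rfl⟩ := h1 z hz
        exact ⟨s, a, hs, ha, rfl⟩
      · rintro ⟨s, a, h3, h4, rfl⟩
        obtain ⟨z, hz, e, _, c, _, rfl, rfl⟩ := h2 s h3 a h4
        exact hz
  exact this.comp (((hf.prodMk hg).prodMk hh))

theorem D0.isE2 {f g h : Γ → V} (hf : Prj f) (hg : Prj g) (hh : Prj h) :
    D0 (fun γ => f γ = opE2 (g γ) (h γ)) := by
  have : D0 (fun p : (V × V) × V => p.1.1 = opE2 p.1.2 p.2) := by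
    refine D0.congr' (P := fun p : (V × V) × V =>
      (∀ s ∈ p.1.1, ∃ q ∈ p.1.2, ∃ t ∈ q, ∃ a ∈ t, q = ZFSet.pair s a ∧
        ∃ q' ∈ p.2, ∃ t' ∈ q', ∃ b ∈ t', q' = ZFSet.pair s b ∧ a ∈ b) ∧
      (∀ q ∈ p.1.2, ∀ t ∈ q, ∀ s ∈ t, ∀ a ∈ t, q = ZFSet.pair s a →
        ∀ q' ∈ p.2, ∀ t' ∈ q', ∀ b ∈ t', q' = ZFSet.pair s b → a ∈ b → s ∈ p.1.1))
      (fun p => ?_) (by apply_rules (transparency := .reducible) (maxDepth := 999) only using is_poly)
    constructor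
    · intro e
      rw [e]
      refine ⟨fun s hs => ?_, fun q hq t ht s hs a ha e q' hq' t' ht' b hb e' hab => ?_⟩
      · obtain ⟨a, b, h1, h2, h3⟩ := mem_opE2.1 hs
        obtain ⟨t, ht, h5, h6⟩ := sUU_pair_mem (s := s) (b := a) rfl
        obtain ⟨t', ht', h5', h6'⟩ := sUU_pair_mem (s := s) (b := b) rfl
        exact ⟨_, h1, t, ht, a, h6, rfl, _, h2, t', ht', b, h6', rfl, h3⟩
      · exact mem_opE2.2 ⟨a, b, e ▸ hq, e' ▸ hq', hab⟩
    · rintro ⟨h1, h2⟩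
      ext s
      rw [mem_opE2]
      constructor
      · intro hs
        obtain ⟨q, hq, t, _, a, _, rfl, q', hq', t', _, b, _, rfl, hab⟩ := h1 s hs
        exact ⟨a, b, hq, hq', hab⟩
      · rintro ⟨a, b, h3, h4, h5⟩
        obtain ⟨t, ht, h6, h7⟩ := sUU_pair_mem (s := s) (b := a) rfl
        obtain ⟨t', ht', h6', h7'⟩ := sUU_pair_mem (s := s) (b := b) rfl
        exact h2 _ h3 t ht s h6 a h7 rfl _ h4 t' ht' b h7' rfl h5
  exact this.comp (((hf.prodMk hg).prodMk hh))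

theorem D0.isId {f g : Γ → V} (hf : Prj f) (hg : Prj g) :
    D0 (fun γ => f γ = opId (g γ)) := by
  have : D0 (fun p : V × V => p.1 = opId p.2) := by
    refine D0.congr' (P := fun p : V × V =>
      (∀ z ∈ p.1, ∃ a ∈ p.2, z = ZFSet.pair a a) ∧
      (∀ a ∈ p.2, ∃ z ∈ p.1, z = ZFSet.pair a a)) (fun p => ?_) (by apply_rules (transparency := .reducible) (maxDepth := 999) only using is_poly)
    constructor
    · intro e
      rw [e]
      refine ⟨fun z hz => ?_, fun a ha => ⟨_, mem_opId.2 ⟨a, ha, rfl⟩, rfl⟩⟩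
      obtain ⟨a, ha, e⟩ := mem_opId.1 hz
      exact ⟨a, ha, e⟩
    · rintro ⟨h1, h2⟩
      ext z
      rw [mem_opId]
      constructor
      · intro hz
        obtain ⟨a, ha, e⟩ := h1 z hz
        exact ⟨a, ha, e⟩
      · rintro ⟨a, ha, rfl⟩
        obtain ⟨z, hz, rfl⟩ := h2 a ha
        exact hz
  exact this.comp (hf.prodMk hg)

attribute [is_poly] D0.isSel
attribute [is_poly] D0.isProd
attribute [is_poly] D0.isDiff
attribute [is_poly] D0.isDom
attribute [is_poly] D0.isLift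
attribute [is_poly] D0.isP2
attribute [is_poly] D0.isE2
attribute [is_poly] D0.isId

theorem D0.isFop {f w g h : Γ → V} (hf : Prj f) (hw : Prj w) (hg : Prj g) (hh : Prj h) :
    D0 (fun γ => f γ = Fop (w γ) (g γ) (h γ)) := by
  have : D0 (fun p : ((V × V) × V) × V => p.1.1.1 = Fop p.1.1.2 p.1.2 p.2) := by
    refine D0.congr' (P := fun p : ((V × V) × V) × V =>
      (p.1.1.2 = sel 1 → p.1.1.1 = p.1.2 \ p.2) ∧
      (p.1.1.2 = sel 2 → p.1.1.1 = ZFSet.prod p.1.2 p.2) ∧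
      (p.1.1.2 = sel 3 → p.1.1.1 = dom p.1.2) ∧
      (p.1.1.2 = sel 4 → p.1.1.1 = opLift p.1.2 p.2) ∧
      (p.1.1.2 = sel 5 → p.1.1.1 = opP2 p.1.2 p.2) ∧
      (p.1.1.2 = sel 6 → p.1.1.1 = opE2 p.1.2 p.2) ∧
      (p.1.1.2 = sel 7 → p.1.1.1 = opId p.1.2) ∧
      ((¬ p.1.1.2 = sel 1) → (¬ p.1.1.2 = sel 2) → (¬ p.1.1.2 = sel 3) → (¬ p.1.1.2 = sel 4) →
        (¬ p.1.1.2 = sel 5) → (¬ p.1.1.2 = sel 6) → (¬ p.1.1.2 = sel 7) →
        p.1.1.1 = {p.1.2, p.2})) (fun p => ?_) (by apply_rules (transparency := .reducible) (maxDepth := 999) only using is_poly)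
    by_cases h1 : p.1.1.2 = sel 1
    · rw [h1, Fop_diff]
      simp [sel_ne]
    by_cases h2 : p.1.1.2 = sel 2
    · rw [h2, Fop_prod]
      simp [sel_ne]
    by_cases h3 : p.1.1.2 = sel 3
    · rw [h3, Fop_dom]
      simp [sel_ne]
    by_cases h4 : p.1.1.2 = sel 4
    · rw [h4, Fop_lift]
      simp [sel_ne]
    by_cases h5 : p.1.1.2 = sel 5
    · rw [h5, Fop_p2]
      simp [sel_ne]
    by_cases h6 : p.1.1.2 = sel 6
    · rw [h6, Fop_e2]
      simp [sel_ne]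
    by_cases h7 : p.1.1.2 = sel 7
    · rw [h7, Fop_id]
      simp [sel_ne]
    unfold Fop
    simp [h1, h2, h3, h4, h5, h6, h7]
  exact this.comp ((((hf.prodMk hw).prodMk hg).prodMk hh))

attribute [is_poly] D0.isFop

end

end Pool.Agent.CTM
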