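import Pool.Agent.CTM.HierEl

/-!
A countable transitive model of ZFC in which all sets are constructible.
-/

set_option autoImplicit false

namespace Pool.Agent.CTM

namespace Hier

/-- An elementary embedding of `M` in `U`. -/
structure Emb (M U : Set V) (j : V → V) : Prop where
  mem : ∀ x ∈ M, j x ∈ U
  el : ∀ (K : Type 1) (c : K → V) (_ : ∀ k, c k ∈ M) (n : ℕ) (φ : Fm K n) (v : Fin n → V)
    (_ : ∀ i, v i ∈ M), (SS M c φ v ↔ SS U (j ∘ c) φ (j ∘ v))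

theorem exists_emb (U : Set V) [TrC U] (h0 : ∅ ∈ U) :
    ∃ M : Set V, M.Countable ∧ TrC M ∧ ∅ ∈ M ∧ ∃ j, Emb M U j := by
  obtain ⟨N, hN, hN0, hel⟩ := exists_elem U h0
  have hext := hel.extn
  refine ⟨col N '' N, hN.image _, col_trC N, ⟨∅, hN0, ?_⟩, Function.invFunOn (col N) N, ?_⟩
  · refine (ZFSet.eq_empty _).2 fun z hz => ?_
    obtain ⟨y, hy, _⟩ := mem_col.1 hz
    exact ZFSet.notMem_empty _ hy
  · have h1 : ∀ x ∈ col N '' N, Function.invFunOn (col N) N x ∈ N := fun x hx =>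
      Function.invFunOn_mem hx
    have h2 : ∀ x ∈ col N '' N, col N (Function.invFunOn (col N) N x) = x := fun x hx =>
      Function.invFunOn_eq hx
    refine ⟨fun x hx => hel.1 (h1 x hx), fun K c hc n φ v hv => ?_⟩
    have h3 := col_sat hext (Function.invFunOn (col N) N ∘ c) (fun k => h1 _ (hc k)) φ
      (Function.invFunOn (col N) N ∘ v) (fun i => h1 _ (hv i))
    have e1 : col N ∘ (Function.invFunOn (col N) N ∘ c) = c := by
      funext k; exact h2 _ (hc k)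
    have e2 : col N ∘ (Function.invFunOn (col N) N ∘ v) = v := by
      funext k; exact h2 _ (hv k)
    rw [e1, e2] at h3
    rw [← h3]
    exact hel.2 K _ (fun k => h1 _ (hc k)) n φ _ (fun i => h1 _ (hv i))

section

variable {M U : Set V} {j : V → V} {Γ Δ : Type 1} [Ctx Γ] [Ctx Δ]

/-- `P` and `Q` are defined in `M` and `U` by the same formula. -/
def Rel (M U : Set V) (j : V → V) (P Q : Γ → Prop) : Prop :=
  ∃ φ : Fm (M ∩ M : Set V) (Ctx.n Γ),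
    (∀ γ, InM M γ → (SS M (fun a => a.1) φ (Ctx.get γ) ↔ P γ)) ∧
    (∀ γ, InM U γ → (SS U (fun a => j a.1) φ (Ctx.get γ) ↔ Q γ))

/-- The image of a context. -/
def jΓ (j : V → V) (γ : Γ) : Γ := Ctx.of (j ∘ Ctx.get γ)

theorem Emb.inM (h : Emb M U j) {γ : Γ} (hγ : InM M γ) : InM U (jΓ j γ) :=
  inM_of.2 fun i => h.mem _ (hγ i)

theorem Emb.transfer (h : Emb M U j) {P Q : Γ → Prop} (hR : Rel M U j P Q) {γ : Γ}
    (hγ : InM M γ) : P γ ↔ Q (jΓ j γ) := by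
  obtain ⟨φ, h1, h2⟩ := hR
  rw [← h1 γ hγ, ← h2 _ (h.inM hγ)]
  have h3 := h.el _ (fun a : (M ∩ M : Set V) => a.1) (fun a => a.2.1) _ φ (Ctx.get γ) hγ
  rw [h3]
  unfold jΓ
  rw [Ctx.get_of]
  rfl

theorem Rel.not {P Q : Γ → Prop} (h : Rel M U j P Q) :
    Rel M U j (fun γ => ¬ P γ) (fun γ => ¬ Q γ) := by
  obtain ⟨φ, h1, h2⟩ := h
  exact ⟨φ.neg, fun γ hγ => not_congr (h1 γ hγ), fun γ hγ => not_congr (h2 γ hγ)⟩

theorem Rel.and {P Q P' Q' : Γ → Prop} (h : Rel M U j P Q) (h' : Rel M U j P' Q') :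
    Rel M U j (fun γ => P γ ∧ P' γ) (fun γ => Q γ ∧ Q' γ) := by
  obtain ⟨φ, h1, h2⟩ := h
  obtain ⟨φ', h1', h2'⟩ := h'
  exact ⟨φ.and φ', fun γ hγ => and_congr (h1 γ hγ) (h1' γ hγ),
    fun γ hγ => and_congr (h2 γ hγ) (h2' γ hγ)⟩

theorem Rel.congr {P Q P' Q' : Γ → Prop} (h : Rel M U j P Q) (e : ∀ γ, InM M γ → (P γ ↔ P' γ))
    (e' : ∀ γ, InM U γ → (Q γ ↔ Q' γ)) : Rel M U j P' Q' := by
  obtain ⟨φ, h1, h2⟩ := h
  exact ⟨φ, fun γ hγ => (h1 γ hγ).trans (e γ hγ), fun γ hγ => (h2 γ hγ).trans (e' γ hγ)⟩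

theorem Rel.imp {P Q P' Q' : Γ → Prop} (h : Rel M U j P Q) (h' : Rel M U j P' Q') :
    Rel M U j (fun γ => P γ → P' γ) (fun γ => Q γ → Q' γ) :=
  (h.and h'.not).not.congr (fun γ _ => by tauto) (fun γ _ => by tauto)

theorem Rel.iff {P Q P' Q' : Γ → Prop} (h : Rel M U j P Q) (h' : Rel M U j P' Q') :
    Rel M U j (fun γ => P γ ↔ P' γ) (fun γ => Q γ ↔ Q' γ) :=
  ((h.imp h').and (h'.imp h)).congr (fun γ _ => by tauto) (fun γ _ => by tauto)

theorem Rel.all {P Q : Γ → V → Prop} (h : Rel M U j (fun p : Γ × V => P p.1 p.2)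
    (fun p : Γ × V => Q p.1 p.2)) :
    Rel M U j (fun γ => ∀ x ∈ M, P γ x) (fun γ => ∀ x ∈ U, Q γ x) := by
  obtain ⟨φ, h1, h2⟩ := h
  refine ⟨.all φ, fun γ hγ => forall_congr' fun x => imp_congr_right fun hx => ?_,
    fun γ hγ => forall_congr' fun x => imp_congr_right fun hx => ?_⟩
  · exact h1 (γ, x) (inM_prod.2 ⟨hγ, hx⟩)
  · exact h2 (γ, x) (inM_prod.2 ⟨hγ, hx⟩)

theorem Rel.ex {P Q : Γ → V → Prop} (h : Rel M U j (fun p : Γ × V => P p.1 p.2)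
    (fun p : Γ × V => Q p.1 p.2)) :
    Rel M U j (fun γ => ∃ x ∈ M, P γ x) (fun γ => ∃ x ∈ U, Q γ x) :=
  (Rel.all (P := fun γ x => ¬ P γ x) (Q := fun γ x => ¬ Q γ x) h.not).not.congr
    (fun γ _ => by push Not; rfl) (fun γ _ => by push Not; rfl)

theorem Rel.d0 [TrC M] [TrC U] {P : Γ → Prop} (h : D0 P) : Rel M U j P P := by
  obtain ⟨φ, h⟩ := h
  refine ⟨φ.mapC Empty.elim, fun γ hγ => ?_, fun γ hγ => ?_⟩
  · rw [← h M γ hγ]
    unfold SS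
    rw [Fm.sat_mapC]
    have e : ((fun a : (M ∩ M : Set V) => a.1) ∘ Empty.elim : Empty → V) = Empty.elim := by
      funext x; exact x.elim
    rw [e]
  · rw [← h U γ hγ]
    unfold SS
    rw [Fm.sat_mapC]
    have e : ((fun a : (M ∩ M : Set V) => j a.1) ∘ Empty.elim : Empty → V) = Empty.elim := by
      funext x; exact x.elim
    rw [e]

theorem Rel.comp {P Q : Δ → Prop} (h : Rel M U j P Q) {g : Γ → Δ} (hg : Prj g) :
    Rel M U j (fun γ => P (g γ)) (fun γ => Q (g γ)) := by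
  obtain ⟨φ, h1, h2⟩ := h
  have hg' := hg
  obtain ⟨ρ, hg⟩ := hg
  have e : ∀ γ, Ctx.get γ ∘ ρ = Ctx.get (g γ) := fun γ => by funext i; exact (hg γ i).symm
  refine ⟨φ.ren ρ, fun γ hγ => ?_, fun γ hγ => ?_⟩
  · unfold SS
    rw [Fm.sat_ren, e]
    exact h1 _ (hg'.inM hγ)
  · unfold SS
    rw [Fm.sat_ren, e]
    exact h2 _ (hg'.inM hγ)

theorem Rel.fm (φ : Fm (M ∩ M : Set V) (Ctx.n Γ)) : Rel M U j
    (fun γ : Γ => SS M (fun a => a.1) φ (Ctx.get γ))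
    (fun γ => SS U (fun a => j a.1) φ (Ctx.get γ)) :=
  ⟨φ, fun _ _ => Iff.rfl, fun _ _ => Iff.rfl⟩

end

/-- An absolute description of `ω`. -/
def IsOm (w : V) : Prop :=
  (∃ z ∈ w, z = sel 0) ∧ (∀ n ∈ w, ∃ m ∈ w, m = insert n n) ∧ ∀ n ∈ w, IsNat n

theorem isOm_iff {w : V} : IsOm w ↔ w = ZFSet.omega := by
  constructor
  · rintro ⟨⟨z, hz, rfl⟩, h2, h3⟩
    have h4 : ∀ n : ℕ, nn n ∈ w := by
      intro n
      induction n with
      | zero => exact hz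
      | succ n ih =>
        obtain ⟨m, hm, rfl⟩ := h2 _ ih
        exact hm
    ext x
    constructor
    · exact fun hx => isNat_iff.1 (h3 x hx)
    · intro hx
      obtain ⟨n, rfl⟩ := mem_omega_iff.1 hx
      exact h4 n
  · rintro rfl
    refine ⟨⟨_, ZFSet.omega_zero, rfl⟩, fun n hn => ⟨_, ZFSet.omega_succ hn, rfl⟩,
      fun n hn => isNat_iff.2 hn⟩

theorem D0.isOm : D0 (fun p : PUnit.{2} × V => IsOm p.2) := by
  have h : D0 (fun w : V => IsOm w) := by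
    unfold IsOm
    apply_rules (transparency := .reducible) (maxDepth := 999) only using is_poly
  exact h.comp (g := fun p : PUnit.{2} × V => p.2) (Prj.snd Prj.id)

theorem zfm_of_emb {M : Set V} {j : V → V} (h : Emb M LL j) [TrC M] (h0 : ∅ ∈ M) : ZFm M where
  empty_mem := h0
  upair_mem := by
    intro x y hx hy
    have hR : Rel M LL j (fun γ : V × V => ∃ z ∈ M, z = {γ.1, γ.2})
        (fun γ : V × V => ∃ z ∈ LL, z = {γ.1, γ.2}) :=
      Rel.ex (Rel.d0 (D0.isUPair (Prj.snd Prj.id) (Prj.fst (Prj.fst Prj.id))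
        (Prj.snd (Prj.fst Prj.id))))
    have hγ : InM M ((x, y) : V × V) := inM_prod.2 ⟨inM_V.2 hx, hy⟩
    have h1 := inM_prod.1 (h.inM hγ)
    obtain ⟨z, hz, rfl⟩ := (h.transfer hR hγ).2 ⟨_, ZFm.upair_mem (inM_V.1 h1.1) h1.2, rfl⟩
    exact hz
  sUnion_mem := by
    intro x hx
    have hR : Rel M LL j (fun γ : V => ∃ z ∈ M, z = (ZFSet.sUnion γ : V))
        (fun γ : V => ∃ z ∈ LL, z = (ZFSet.sUnion γ : V)) :=
      Rel.ex (Rel.d0 (D0.isSUnion (Prj.snd Prj.id) (Prj.fst Prj.id)))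
    have hγ : InM M (x : V) := inM_V.2 hx
    obtain ⟨z, hz, rfl⟩ := (h.transfer hR hγ).2 ⟨_, ZFm.sUnion_mem (inM_V.1 (h.inM hγ)), rfl⟩
    exact hz
  omega_mem := by
    have hR : Rel M LL j (fun _ : PUnit.{2} => ∃ z ∈ M, IsOm z) (fun _ => ∃ z ∈ LL, IsOm z) :=
      Rel.ex (Rel.d0 D0.isOm)
    obtain ⟨z, hz, hz'⟩ := (h.transfer hR (γ := PUnit.unit) inM_unit).2
      ⟨_, ZFm.omega_mem, isOm_iff.2 rfl⟩
    rwa [← isOm_iff.1 hz']
  sep_mem := by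
    intro P hP a ha
    obtain ⟨φ, hφ⟩ := hP
    have hR : Rel M LL j (fun a : V => ∃ b ∈ M, ∀ z ∈ M, (z ∈ b ↔ z ∈ a ∧
          SS M (fun a : (M ∩ M : Set V) => a.1) φ (Ctx.get z)))
        (fun a : V => ∃ b ∈ LL, ∀ z ∈ LL, (z ∈ b ↔ z ∈ a ∧
          SS LL (fun a : (M ∩ M : Set V) => j a.1) φ (Ctx.get z))) := by
      refine Rel.ex (Rel.all (Rel.iff (Rel.d0 (D0.mem (Prj.snd Prj.id) (Prj.snd (Prj.fst Prj.id))))
        (Rel.and (Rel.d0 (D0.mem (Prj.snd Prj.id) (Prj.fst (Prj.fst Prj.id)))) ?_)))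
      exact (Rel.fm (Γ := V) φ).comp (Prj.snd Prj.id)
    have hγ : InM M (a : V) := inM_V.2 ha
    obtain ⟨b, hb, hb'⟩ := (h.transfer hR hγ).2 (by
      have h1 : Dfn LL LL (fun z : V => SS LL (fun a : (M ∩ M : Set V) => j a.1) φ (Ctx.get z)) := by
        refine ⟨φ.mapC (fun a => ⟨j a.1, h.mem _ a.2.1, h.mem _ a.2.1⟩), fun v _ => ?_⟩
        rw [Fm.sat_mapC]
        show _ ↔ SS LL _ φ (Ctx.get (Ctx.of v : V))
        rw [Ctx.get_of]
        rfl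
      exact ⟨_, LL_sep h1 (inM_V.1 (h.inM hγ)), fun z _ => ZFSet.mem_sep⟩)
    refine Set.mem_of_eq_of_mem ?_ hb
    ext z
    rw [ZFSet.mem_sep]
    constructor
    · rintro ⟨hz, hz'⟩
      have hzM : z ∈ M := TrC.trans ha hz
      refine (hb' z hzM).2 ⟨hz, (hφ _ (inM_V.2 hzM)).2 ?_⟩
      exact hz'
    · intro hz
      have hzM : z ∈ M := TrC.trans hb hz
      obtain ⟨h1, h2⟩ := (hb' z hzM).1 hz
      exact ⟨h1, (hφ _ (inM_V.2 hzM)).1 h2⟩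
  coll := by
    intro P hP a ha H
    obtain ⟨φ, hφ⟩ := hP
    have hR : Rel M LL j (fun a : V => (∀ x ∈ M, x ∈ a → ∃ y ∈ M,
          SS M (fun a : (M ∩ M : Set V) => a.1) φ (Ctx.get ((x, y) : V × V))) →
          ∃ b ∈ M, ∀ x ∈ M, x ∈ a → ∃ y ∈ M, y ∈ b ∧
            SS M (fun a : (M ∩ M : Set V) => a.1) φ (Ctx.get ((x, y) : V × V)))
        (fun a : V => (∀ x ∈ LL, x ∈ a → ∃ y ∈ LL,
          SS LL (fun a : (M ∩ M : Set V) => j a.1) φ (Ctx.get ((x, y) : V × V))) →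
          ∃ b ∈ LL, ∀ x ∈ LL, x ∈ a → ∃ y ∈ LL, y ∈ b ∧
            SS LL (fun a : (M ∩ M : Set V) => j a.1) φ (Ctx.get ((x, y) : V × V))) := by
      refine Rel.imp (Rel.all (Rel.imp (Rel.d0 (D0.mem (Prj.snd Prj.id) (Prj.fst Prj.id)))
        (Rel.ex ?_))) (Rel.ex (Rel.all (Rel.imp
          (Rel.d0 (D0.mem (Prj.snd Prj.id) (Prj.fst (Prj.fst Prj.id))))
          (Rel.ex (Rel.and (Rel.d0 (D0.mem (Prj.snd Prj.id)
            (Prj.snd (Prj.fst (Prj.fst Prj.id))))) ?_)))))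
      · exact (Rel.fm (Γ := V × V) φ).comp (g := fun p : (V × V) × V => (p.1.2, p.2))
          (Prj.prodMk (Prj.snd (Prj.fst Prj.id)) (Prj.snd Prj.id))
      · exact (Rel.fm (Γ := V × V) φ).comp (g := fun p : ((V × V) × V) × V => (p.1.2, p.2))
          (Prj.prodMk (Prj.snd (Prj.fst Prj.id)) (Prj.snd Prj.id))
    have hφ' : ∀ x ∈ M, ∀ y ∈ M, (SS M (fun a : (M ∩ M : Set V) => a.1) φ
        (Ctx.get ((x, y) : V × V)) ↔ P x y) := by
      intro x hx y hy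
      have := hφ (Ctx.get ((x, y) : V × V)) (inM_prod.2 ⟨inM_V.2 hx, hy⟩)
      simp only [Ctx.of_get] at this
      exact this
    have hγ : InM M (a : V) := inM_V.2 ha
    obtain ⟨b, hb, hb'⟩ := (h.transfer hR hγ).2 (by
      intro H'
      have h1 : Dfn LL LL (fun p : V × V => (fun x y : V => SS LL
          (fun a : (M ∩ M : Set V) => j a.1) φ (Ctx.get ((x, y) : V × V))) p.1 p.2) := by
        refine ⟨φ.mapC (fun a => ⟨j a.1, h.mem _ a.2.1, h.mem _ a.2.1⟩), fun v _ => ?_⟩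
        rw [Fm.sat_mapC]
        show _ ↔ SS LL _ φ (Ctx.get (Ctx.of v : V × V))
        rw [Ctx.get_of]
        rfl
      have hja := inM_V.1 (h.inM hγ)
      obtain ⟨b, hb, hb'⟩ := ZFm.coll h1 hja (fun x hx => H' x (TrC.trans hja hx) hx)
      refine ⟨b, hb, fun x _ hx' => ?_⟩
      obtain ⟨y, hy, hy'⟩ := hb' x hx'
      exact ⟨y, TrC.trans hb hy, hy, hy'⟩) (by
      intro x hx hx'
      obtain ⟨y, hy, hy'⟩ := H x hx'
      exact ⟨y, hy, (hφ' x hx y hy).2 hy'⟩)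
    refine ⟨b, hb, fun x hx => ?_⟩
    have hxM : x ∈ M := TrC.trans ha hx
    obtain ⟨y, hy, hy', hy''⟩ := hb' x hxM hx
    exact ⟨y, hy', (hφ' x hxM y hy).1 hy''⟩

theorem power_of_emb {M : Set V} {j : V → V} (h : Emb M LL j) [TrC M] {x : V} (hx : x ∈ M) :
    ZFSet.sep (fun y => y ∈ M) (ZFSet.powerset x) ∈ M := by
  have hR : Rel M LL j (fun x : V => ∃ b ∈ M, ∀ z ∈ M, (z ∈ b ↔ z ⊆ x))
      (fun x : V => ∃ b ∈ LL, ∀ z ∈ LL, (z ∈ b ↔ z ⊆ x)) :=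
    Rel.ex (Rel.all (Rel.d0 (D0.iff (D0.mem (Prj.snd Prj.id) (Prj.snd (Prj.fst Prj.id)))
      (D0.subset (Prj.snd Prj.id) (Prj.fst (Prj.fst Prj.id))))))
  have hγ : InM M (x : V) := inM_V.2 hx
  obtain ⟨b, hb, hb'⟩ := (h.transfer hR hγ).2
    ⟨_, ZFCm.power_mem (inM_V.1 (h.inM hγ)), fun z hz => by
      rw [ZFSet.mem_sep, ZFSet.mem_powerset]
      exact and_iff_left hz⟩
  refine Set.mem_of_eq_of_mem ?_ hb
  ext z
  rw [ZFSet.mem_sep, ZFSet.mem_powerset]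
  constructor
  · rintro ⟨h1, h2⟩
    exact (hb' z h2).2 h1
  · intro hz
    have hzM : z ∈ M := TrC.trans hb hz
    exact ⟨(hb' z hzM).1 hz, hzM⟩

/-! ### All sets are constructible -/

/-- `r` is a level in the initial segment `A` of the hierarchy, and its field `y` is a transitive
set that contains `t` and is closed under the hierarchy. -/
def VL (t A r y : V) : Prop :=
  Good A ∧ r ∈ A ∧ y = dom r ∧ (∀ x ∈ y, ∀ z ∈ x, z ∈ y) ∧ (∀ x ∈ y, ∃ B ∈ y, GoodAt x B) ∧ t ∈ y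

theorem D0.vl : D0 (fun p : ((V × V) × V) × V => VL p.1.1.1 p.1.1.2 p.1.2 p.2) := by
  unfold VL
  apply_rules (transparency := .reducible) (maxDepth := 999) only [D0.and, D0.good, D0.goodAt,
    D0.isDom, D0.memI, D0.ex_memI, D0.all_memI, Prj.id, Prj.snd, Prj.fst, Prj.prodMk]

/-- The statement that all elements of `M` are constructible in `M`. -/
def VeqL (M : Set V) : Prop := ∀ t ∈ M, ∃ γ : Ordinal.{0}, lev γ ∈ M ∧ (slev γ).IsTransitive ∧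
  (∀ x ∈ slev γ, ∃ B ∈ slev γ, GoodAt x B) ∧ t ∈ slev γ

theorem isOrdinal_iff' {x : V} : x.IsOrdinal ↔
    (∀ y ∈ x, ∀ z ∈ y, z ∈ x) ∧ ∀ y ∈ x, ∀ z ∈ y, ∀ w ∈ z, w ∈ y := by
  rw [ZFSet.isOrdinal_iff_forall_mem_isTransitive]
  constructor
  · rintro ⟨h1, h2⟩
    exact ⟨fun y hy z hz => h1 y hy hz, fun y hy z hz w hw => h2 y hy z hz hw⟩
  · rintro ⟨h1, h2⟩
    exact ⟨fun y hy z hz => h1 y hy z hz, fun y hy z hz w hw => h2 y hy z hz w hw⟩

theorem D0.isOrd {Γ : Type 1} [Ctx Γ] {f : Γ → V} (hf : Prj f) :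
    D0 (fun γ => (f γ).IsOrdinal) := by
  have h : D0 (fun x : V => x.IsOrdinal) := by
    refine D0.congr' (fun x => isOrdinal_iff') ?_
    apply_rules (transparency := .reducible) (maxDepth := 999) only using is_poly
  exact h.comp (g := f) hf

theorem ord_mem_LL (α : Ordinal.{0}) : α.toZFSet ∈ LL := by
  induction α using WellFoundedLT.induction with
  | ind α ih =>
  obtain ⟨l, hl, h1, h2⟩ := exists_slev (a := α.toZFSet) (by
    intro z hz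
    obtain ⟨β, hβ, rfl⟩ := Ordinal.mem_toZFSet_iff.1 hz
    exact ih β hβ) 0
  have h3 : Dfn LL LL (fun z : V => z.IsOrdinal) := (D0.isOrd Prj.id).dfn
  have h4 := LL_sep h3 (slev_mem_LL l)
  set D : V := ZFSet.sep (fun z : V => z.IsOrdinal) (slev l) with hD
  have hDo : D.IsOrdinal := by
    rw [ZFSet.isOrdinal_iff_forall_mem_isOrdinal]
    refine ⟨fun y hy z hz => ?_, fun y hy => (ZFSet.mem_sep.1 hy).2⟩
    obtain ⟨h5, h6⟩ := ZFSet.mem_sep.1 hy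
    exact ZFSet.mem_sep.2 ⟨hl.isTransitive y h5 hz, h6.mem hz⟩
  have h5 : α.toZFSet ⊆ D := by
    intro z hz
    refine ZFSet.mem_sep.2 ⟨h2 hz, ?_⟩
    exact (ZFSet.isOrdinal_toZFSet α).mem hz
  rcases ((ZFSet.isOrdinal_toZFSet α).subset_iff_eq_or_mem hDo).1 h5 with h6 | h6
  · rw [h6]
    exact h4
  · exact TrC.trans h4 h6

theorem levs_mem_LL (α : Ordinal.{0}) : levs α ∈ LL :=
  ZFm.rep_mem (DMap.levZ (A := LL) DMap.id) (ord_mem_LL α)

theorem VL_LL : ∀ t ∈ LL, ∃ A ∈ LL, ∃ r ∈ LL, ∃ y ∈ LL, VL t A r y := by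
  rintro t ⟨α, ht⟩
  choose idx hidx using levs_mem_LL
  set g : Ordinal.{0} → Ordinal.{0} := fun β => sInf {l | ∀ γ ≤ β, levs (Order.succ γ) ∈ slev l}
    with hg
  have hne : ∀ β : Ordinal.{0}, {l : Ordinal.{0} | ∀ γ ≤ β, levs (Order.succ γ) ∈ slev l}.Nonempty := by
    intro β
    refine ⟨⨆ γ : Set.Iic β, idx (Order.succ γ.1), fun γ hγ => ?_⟩
    exact slev_mono (Ordinal.le_iSup (fun γ : Set.Iic β => idx (Order.succ γ.1)) ⟨γ, hγ⟩)
      (hidx _)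
  have hgm : Monotone g := fun a b hab =>
    csInf_le_csInf (OrderBot.bddBelow _) (hne b) (fun l hl γ hγ => hl γ (hγ.trans hab))
  have hgs : ∀ β, ∀ γ ≤ β, levs (Order.succ γ) ∈ slev (g β) := fun β => csInf_mem (hne β)
  obtain ⟨l, hl, hαl, hlg⟩ := exists_closed g hgm α
  refine ⟨levs (Order.succ l), levs_mem_LL _, lev l, lev_mem_LL l, slev l, slev_mem_LL l,
    good_levs _, mem_levs.2 ⟨l, Order.lt_succ l, rfl⟩, rfl,
    fun x hx z hz => hl.isTransitive x hx hz, fun x hx => ?_, slev_mono hαl.le ht⟩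
  obtain ⟨β, hβ, hx⟩ := mem_slev.1 hx
  refine ⟨levs (Order.succ (Order.succ β)), slev_mono (hlg _ (hl.2 β hβ)).le
    (hgs _ _ le_rfl), good_levs _, lev (Order.succ β), mem_levs.2 ⟨_, Order.lt_succ _, rfl⟩, hx⟩

theorem veqL_of_emb {M : Set V} {j : V → V} (h : Emb M LL j) [TrC M] : VeqL M := by
  intro t ht
  have hR : Rel M LL j (fun t : V => ∃ A ∈ M, ∃ r ∈ M, ∃ y ∈ M, VL t A r y)
      (fun t : V => ∃ A ∈ LL, ∃ r ∈ LL, ∃ y ∈ LL, VL t A r y) :=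
    Rel.ex (Rel.ex (Rel.ex (Rel.d0 D0.vl)))
  have hγ : InM M (t : V) := inM_V.2 ht
  obtain ⟨A, hA, r, hr, y, hy, h1, h2, h3, h4, h5, h6⟩ := (h.transfer hR hγ).2
    (VL_LL _ (inM_V.1 (h.inM hγ)))
  obtain ⟨α, rfl⟩ := h1.eq_levs
  obtain ⟨γ, _, rfl⟩ := mem_levs.1 h2
  subst h3
  exact ⟨γ, hr, fun x hx z hz => h4 x hx z hz, h5, h6⟩

theorem zfcm_of_veqL {M : Set V} [ZFm M] (hL : VeqL M)
    (hp : ∀ {x : V}, x ∈ M → ZFSet.sep (fun y => y ∈ M) (ZFSet.powerset x) ∈ M) : ZFCm M where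
  power_mem := hp
  choice := by
    intro x hx
    obtain ⟨γ, hγ, htr, _, hxγ⟩ := hL x hx
    have hw := (lev_wo γ).1
    have hsub : ∀ y ∈ x, y ∈ dom (lev γ) := fun y hy => htr x hxγ hy
    have hD : DMap M M (otp (lev γ) hw) := DMap.otp hw hγ hγ
    refine ⟨gr (otp (lev γ) hw) x, mem_of_gr hD hx, isFn_gr _ _, dom_gr _ _, ?_, ?_⟩
    · intro y hy z hz e
      rw [dom_gr] at hy hz
      rw [app_gr hy, app_gr hz] at e
      exact otp_inj hw (hsub y hy) (hsub z hz) e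
    · intro y hy
      rw [app_gr hy]
      exact otp_ord hw y

/-- **A countable transitive model of ZFC + V = L.** -/
theorem exists_model : ∃ M : Set V, M.Countable ∧ ZFCm M ∧ VeqL M := by
  obtain ⟨M, hM, hT, h0, j, hj⟩ := exists_emb LL LL_fc.zero
  have : TrC M := hT
  have hZ : ZFm M := zfm_of_emb hj h0
  exact ⟨M, hM, zfcm_of_veqL (veqL_of_emb hj) (power_of_emb hj), veqL_of_emb hj⟩

end Hier

end Pool.Agent.CTM
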