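import Pool.Agent.CTM.HierNF
import Pool.Agent.CTM.Defs

/-!
The inner model `LL` satisfies ZFC.
-/

set_option autoImplicit false

namespace Pool.Agent.CTM

/-! ### Reflection -/

theorem exists_common {α : Ordinal.{0}} (hα : Lim α) : ∀ {n : ℕ} (v : Fin n → V),
    (∀ i, v i ∈ slev α) → ∃ β < α, ∀ i, v i ∈ slev β := by
  intro n
  induction n with
  | zero => exact fun v _ => ⟨0, hα.1, fun i => i.elim0⟩
  | succ n ih =>
    intro v hv
    obtain ⟨β, hβ, h1⟩ := ih (fun i => v i.castSucc) fun i => hv _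
    obtain ⟨γ, hγ, h2⟩ := mem_slev.1 (hv (Fin.last n))
    refine ⟨max β (Order.succ γ), max_lt hβ (hα.2 γ hγ), fun i => ?_⟩
    refine Fin.lastCases ?_ (fun i => ?_) i
    · exact slev_mono (le_max_right _ _) h2
    · exact slev_mono (le_max_left _ _) (h1 i)

/-- The least level that contains a counterexample. -/
noncomputable def wit {K : Type*} (c : K → V) {n : ℕ} (φ : Fm K (n + 1)) (v : Fin n → V) :
    Ordinal.{0} :=
  sInf {β | ∃ x ∈ slev β, ¬ φ.Sat LL (fun x y => x ∈ y) c (Fin.snoc v x)}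

/-- **Reflection principle** for the hierarchy. -/
theorem reflection {K : Type*} (c : K → V) {n : ℕ} (φ : Fm K n) :
    ∃ g : Ordinal.{0} → Ordinal.{0}, Monotone g ∧ ∀ l, Lim l → (∀ β < l, g β < l) →
      ∀ v : Fin n → V, (∀ i, v i ∈ slev l) →
        (φ.Sat LL (fun x y => x ∈ y) c v ↔
          φ.Sat (slev l : Set V) (fun x y => x ∈ y) c v) := by
  induction φ with
  | mem s t => exact ⟨id, monotone_id, fun _ _ _ _ _ => Iff.rfl⟩
  | eq s t => exact ⟨id, monotone_id, fun _ _ _ _ _ => Iff.rfl⟩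
  | neg φ ih =>
    obtain ⟨g, hg, h⟩ := ih
    exact ⟨g, hg, fun l hl hl' v hv => not_congr (h l hl hl' v hv)⟩
  | and φ ψ ih ih' =>
    obtain ⟨g, hg, h⟩ := ih
    obtain ⟨g', hg', h'⟩ := ih'
    refine ⟨fun β => max (g β) (g' β), fun a b hab => max_le_max (hg hab) (hg' hab),
      fun l hl hl' v hv => and_congr (h l hl (fun β hβ => ?_) v hv)
        (h' l hl (fun β hβ => ?_) v hv)⟩
    · exact (le_max_left _ _).trans_lt (hl' β hβ)
    · exact (le_max_right _ _).trans_lt (hl' β hβ)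
  | @all n φ ih =>
    obtain ⟨g, hg, h⟩ := ih
    set k : Ordinal.{0} → Ordinal.{0} := fun β =>
      ⨆ v : Fin n → slev β, wit c φ (fun i => (v i).1) with hk
    have hkm : Monotone k := by
      intro a b hab
      refine Ordinal.iSup_le fun v => ?_
      exact Ordinal.le_iSup (fun v : Fin n → slev b => wit c φ (fun i => (v i).1))
        (fun i => ⟨(v i).1, slev_mono hab (v i).2⟩)
    refine ⟨fun β => max (g β) (k β), fun a b hab => max_le_max (hg hab) (hkm hab),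
      fun l hl hl' v hv => ?_⟩
    have hgl : ∀ β < l, g β < l := fun β hβ => (le_max_left _ _).trans_lt (hl' β hβ)
    have hkl : ∀ β < l, k β < l := fun β hβ => (le_max_right _ _).trans_lt (hl' β hβ)
    have hv' : ∀ x ∈ slev l, ∀ i, (Fin.snoc v x : Fin (n + 1) → V) i ∈ slev l := by
      intro x hx i
      refine Fin.lastCases ?_ (fun i => ?_) i
      · simpa using hx
      · simpa using hv i
    constructor
    · intro H x hx
      exact (h l hl hgl _ (hv' x hx)).1 (H x ⟨l, hx⟩)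
    · intro H
      by_contra hcon
      have h1 : ∃ x ∈ LL, ¬ φ.Sat LL (fun x y => x ∈ y) c (Fin.snoc v x) := by
        by_contra h2
        push Not at h2
        exact hcon fun x hx => h2 x hx
      obtain ⟨x, ⟨β, hx⟩, hx'⟩ := h1
      obtain ⟨β0, hβ0, hvβ⟩ := exists_common hl v hv
      have h3 : wit c φ v ∈ {β | ∃ x ∈ slev β, ¬ φ.Sat LL (fun x y => x ∈ y) c (Fin.snoc v x)} :=
        csInf_mem ⟨β, x, hx, hx'⟩
      obtain ⟨y, hy, hy'⟩ := h3
      have h4 : wit c φ v ≤ k β0 :=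
        Ordinal.le_iSup (fun v : Fin n → slev β0 => wit c φ (fun i => (v i).1))
          (fun i => ⟨v i, hvβ i⟩)
      have hyl : y ∈ slev l := slev_mono (h4.trans (hkl β0 hβ0).le) hy
      exact hy' ((h l hl hgl _ (hv' y hyl)).2 (H y hyl))

/-- Separation in `LL`. -/
theorem LL_sep {P : V → Prop} (h : Dfn LL LL P) {a : V} (ha : a ∈ LL) : ZFSet.sep P a ∈ LL := by
  obtain ⟨φ, hφ⟩ := h
  obtain ⟨g, hg, hr⟩ := reflection (fun a : (LL ∩ LL : Set V) => a.1) φ
  obtain ⟨β, hβ⟩ := ha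
  obtain ⟨l, hl, hlβ, hlg⟩ := exists_closed g hg β
  have hal : a ∈ slev l := slev_mono hlβ.le hβ
  have h1 := LL_fc.ext_mem (fun a : (LL ∩ LL : Set V) => a.1) (fun k => k.2.1) (slev_mem_LL l)
    φ (slev l) (slev_mem_LL l) (fun _ s => s) (fun _ => by
      have : gr (fun s => s) (slev l) = opId (slev l) := by
        ext p
        rw [mem_gr, mem_opId]
        constructor
        · rintro ⟨x, hx, rfl⟩
          exact ⟨x, hx, rfl⟩
        · rintro ⟨x, hx, rfl⟩
          exact ⟨x, hx, rfl⟩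
      rw [this]
      exact LL_fc.opid (slev_mem_LL l))
  have h2 := LL_fc.inter ⟨β, hβ⟩ h1
  refine Set.mem_of_eq_of_mem ?_ h2
  ext x
  rw [ZFSet.mem_sep, ZFSet.mem_inter, ZFSet.mem_sep]
  refine and_congr_right fun hx => ?_
  have hxl : x ∈ slev l := hl.isTransitive a hal hx
  rw [and_iff_right hxl]
  have hv : ∀ i : Fin (Ctx.n V), (fun _ => x : Fin (Ctx.n V) → V) i ∈ slev l := fun _ => hxl
  have h3 := hφ (fun _ => x) (fun i => ⟨l, hxl⟩)
  have h4 := hr l hl hlg (fun _ => x) hv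
  exact h3.symm.trans h4

/-! ### Natural numbers -/

theorem mem_omega_iff {x : V} : x ∈ (ZFSet.omega : V) ↔ ∃ n : ℕ, x = nn n := by
  have key : ∀ n : ℕ, nn n = ZFSet.mk (PSet.ofNat n) := by
    intro n
    induction n with
    | zero => rfl
    | succ n ih =>
      rw [nn, ih]
      rfl
  constructor
  · induction x using Quotient.inductionOn with
    | _ x =>
    rintro ⟨⟨n⟩, h⟩
    exact ⟨n, (Quotient.sound h).trans (key n).symm⟩
  · rintro ⟨n, rfl⟩
    rw [key]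
    exact ⟨⟨n⟩, PSet.Equiv.rfl⟩

/-- An absolute description of the natural numbers. -/
def IsNat (x : V) : Prop :=
  (∀ y ∈ x, ∀ z ∈ y, z ∈ x) ∧ ((∀ y ∈ x, False) ∨ ∃ z ∈ x, x = insert z z) ∧
    ∀ y ∈ x, ((∀ w ∈ y, False) ∨ ∃ z ∈ y, y = insert z z)

theorem isNat_iff {x : V} : IsNat x ↔ x ∈ (ZFSet.omega : V) := by
  constructor
  · induction x using ZFSet.inductionOn with
    | _ x ih =>
    rintro ⟨h1, h2, h3⟩
    rcases h2 with h2 | ⟨z, hz, h2⟩
    · rw [(ZFSet.eq_empty x).2 fun y hy => h2 y hy]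
      exact ZFSet.omega_zero
    · have hzn : IsNat z := by
        refine ⟨fun y hy w hw => ?_, h3 z hz, fun y hy => h3 y (h1 z hz y hy)⟩
        have h4 : w ∈ x := h1 y (h1 z hz y hy) w hw
        rw [h2, ZFSet.mem_insert_iff] at h4
        rcases h4 with rfl | h4
        · exact absurd hw (ZFSet.mem_asymm hy)
        · exact h4
      rw [h2]
      exact ZFSet.omega_succ (ih z hz hzn)
  · rw [mem_omega_iff]
    rintro ⟨n, rfl⟩
    induction n with
    | zero =>
      have h : ∀ y ∈ nn 0, False := fun y hy => ZFSet.notMem_empty y hy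
      exact ⟨fun y hy => (h y hy).elim, Or.inl h, fun y hy => (h y hy).elim⟩
    | succ n ih =>
      obtain ⟨h1, h2, h3⟩ := ih
      refine ⟨fun y hy z hz => ?_, Or.inr ⟨nn n, by simp [nn], rfl⟩, fun y hy => ?_⟩
      · rw [nn, ZFSet.mem_insert_iff] at hy ⊢
        rcases hy with rfl | hy
        · exact Or.inr hz
        · exact Or.inr (h1 y hy z hz)
      · rw [nn, ZFSet.mem_insert_iff] at hy
        rcases hy with rfl | hy
        · exact h2
        · exact h3 y hy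

section

variable {Γ : Type 1} [Ctx Γ]

theorem D0.isInsert {f g h : Γ → V} (hf : Prj f) (hg : Prj g) (hh : Prj h) :
    D0 (fun γ => f γ = (insert (g γ) (h γ) : V)) := by
  have : D0 (fun p : (V × V) × V => p.1.1 = (insert p.1.2 p.2 : V)) := by
    refine D0.congr' (P := fun p : (V × V) × V => (∀ z ∈ p.1.1, z = p.1.2 ∨ z ∈ p.2) ∧
      p.1.2 ∈ p.1.1 ∧ ∀ z ∈ p.2, z ∈ p.1.1) (fun p => ?_)
      (by apply_rules (transparency := .reducible) (maxDepth := 999) only using is_poly)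
    constructor
    · intro e
      rw [e]
      exact ⟨fun z hz => ZFSet.mem_insert_iff.1 hz, ZFSet.mem_insert _ _,
        fun z hz => ZFSet.mem_insert_of_mem _ hz⟩
    · rintro ⟨h1, h2, h3⟩
      ext z
      rw [ZFSet.mem_insert_iff]
      constructor
      · exact h1 z
      · rintro (rfl | hz)
        · exact h2
        · exact h3 z hz
  exact this.comp (((hf.prodMk hg).prodMk hh))

attribute [is_poly] D0.isInsert

theorem D0.isNat' : D0 (fun x : V => IsNat x) := by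
  unfold IsNat
  apply_rules (transparency := .reducible) (maxDepth := 999) only using is_poly

theorem D0.isNat {f : Γ → V} (hf : Prj f) : D0 (fun γ => IsNat (f γ)) := D0.isNat'.comp hf

attribute [is_poly] D0.isNat

end

theorem LL_insert {x y : V} (hx : x ∈ LL) (hy : y ∈ LL) : (insert x y : V) ∈ LL := by
  obtain ⟨l, hl, h1, h2⟩ := exists_slev (a := insert x y) (by
    intro z hz
    rcases ZFSet.mem_insert_iff.1 hz with rfl | hz
    · exact hx
    · exact TrC.trans hy hz) 0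
  have h3 : Dfn LL LL (fun z : V => z = x ∨ z ∈ y) :=
    Dfn.or (Dfn.eq DMap.id (DMap.const hx hx)) (Dfn.mem DMap.id (DMap.const hy hy))
  have h4 := LL_sep h3 (slev_mem_LL l)
  refine Set.mem_of_eq_of_mem ?_ h4
  ext z
  rw [ZFSet.mem_sep, ZFSet.mem_insert_iff]
  refine ⟨fun h => ⟨h2 (ZFSet.mem_insert_iff.2 h), h⟩, fun h => h.2⟩

theorem LL_nn : ∀ n, nn n ∈ LL
  | 0 => LL_fc.zero
  | n + 1 => LL_insert (LL_nn n) (LL_nn n)

theorem LL_omega : (ZFSet.omega : V) ∈ LL := by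
  obtain ⟨l, hl, h1, h2⟩ := exists_slev (a := ZFSet.omega) (by
    intro z hz
    obtain ⟨n, rfl⟩ := mem_omega_iff.1 hz
    exact LL_nn n) 0
  have h3 : Dfn LL LL (fun z : V => IsNat z) := (D0.isNat Prj.id).dfn
  have h4 := LL_sep h3 (slev_mem_LL l)
  refine Set.mem_of_eq_of_mem ?_ h4
  ext z
  rw [ZFSet.mem_sep, isNat_iff]
  exact ⟨fun h => ⟨h2 h, h⟩, fun h => h.2⟩

instance : ZFm LL where
  empty_mem := LL_fc.zero
  upair_mem := fun hx hy => LL_fc.upair hx hy
  sUnion_mem := by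
    intro x hx
    obtain ⟨l, hl, h1, h2⟩ := exists_slev (a := ZFSet.sUnion x) (by
      intro z hz
      obtain ⟨y, hy, hz⟩ := ZFSet.mem_sUnion.1 hz
      exact TrC.trans (TrC.trans hx hy) hz) 0
    have h3 : Dfn LL LL (fun z : V => ∃ y ∈ x, z ∈ y) :=
      Dfn.ex_mem (DMap.const hx hx) (Dfn.mem (DMap.fst DMap.id) (DMap.snd DMap.id))
    have h4 := LL_sep h3 (slev_mem_LL l)
    refine Set.mem_of_eq_of_mem ?_ h4
    ext z
    rw [ZFSet.mem_sep, ZFSet.mem_sUnion]
    exact ⟨fun h => ⟨h2 (ZFSet.mem_sUnion.2 h), h⟩, fun h => h.2⟩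
  omega_mem := LL_omega
  sep_mem := fun h _ ha => LL_sep h ha
  coll := by
    intro P _ a ha H
    choose! f hf hP using H
    obtain ⟨l, hl, h1, h2⟩ := exists_slev (a := rep a f) (by
      intro z hz
      obtain ⟨x, hx, rfl⟩ := mem_rep.1 hz
      exact hf x hx) 0
    exact ⟨slev l, slev_mem_LL l, fun x hx => ⟨f x, h2 (mem_rep.2 ⟨x, hx, rfl⟩), hP x hx⟩⟩

theorem LL_power {x : V} (hx : x ∈ LL) : ZFSet.sep (fun y => y ∈ LL) (ZFSet.powerset x) ∈ LL := by
  obtain ⟨l, hl, h1, h2⟩ := exists_slev (a := ZFSet.sep (fun y => y ∈ LL) (ZFSet.powerset x)) (by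
      intro z hz
      exact (ZFSet.mem_sep.1 hz).2) 0
  have h3 : Dfn LL LL (fun z : V => z ⊆ x) := Dfn.subset DMap.id (DMap.const hx hx)
  have h4 := LL_sep h3 (slev_mem_LL l)
  refine Set.mem_of_eq_of_mem ?_ h4
  ext z
  rw [ZFSet.mem_sep, ZFSet.mem_sep, ZFSet.mem_powerset]
  refine ⟨fun h => ⟨h2 (ZFSet.mem_sep.2 ⟨ZFSet.mem_powerset.2 h.1, h.2⟩), h.1⟩,
    fun h => ⟨h.2, l, h.1⟩⟩

/-! ### Order types -/

/-- The strict part of a well-order. -/
def sR (r x y : V) : Prop := ZFSet.pair x y ∈ r ∧ x ≠ y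

theorem WO.wf {r : V} (h : WO r) : WellFounded (sR r) := by
  rw [WellFounded.wellFounded_iff_has_min]
  intro C hC
  by_cases hC' : ∃ x ∈ C, x ∈ dom r
  · obtain ⟨m, hm, hm', h1⟩ := h.least C hC'
    refine ⟨m, hm, fun x hx hxm => hxm.2 ?_⟩
    exact h.antisymm _ _ hxm.1 (h1 x hx (h.left hxm.1))
  · obtain ⟨x, hx⟩ := hC
    refine ⟨x, hx, fun y hy hyx => hC' ⟨y, hy, h.left hyx.1⟩⟩

/-- The set of predecessors of `x`. -/
noncomputable def prd (r x : V) : V := ZFSet.sep (fun y => ZFSet.pair y x ∈ r ∧ y ≠ x) (dom r)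

theorem mem_prd {r x y : V} : y ∈ prd r x ↔ sR r y x := by
  unfold prd sR
  rw [ZFSet.mem_sep, mem_dom]
  exact ⟨fun h => h.2, fun h => ⟨⟨x, h.1⟩, h⟩⟩

open Classical in
/-- The order type of the set of predecessors of `x`, as an ordinal. -/
noncomputable def otp (r : V) (h : WO r) : V → V :=
  h.wf.fix fun x ih => rep (prd r x) fun y => if hy : sR r y x then ih y hy else ∅

theorem otp_eq {r : V} (h : WO r) (x : V) : otp r h x = rep (prd r x) (otp r h) := by
  unfold otp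
  rw [WellFounded.fix_eq]
  ext z
  rw [mem_rep, mem_rep]
  constructor
  · rintro ⟨y, hy, rfl⟩
    exact ⟨y, hy, by rw [dif_pos (mem_prd.1 hy)]⟩
  · rintro ⟨y, hy, rfl⟩
    exact ⟨y, hy, by rw [dif_pos (mem_prd.1 hy)]⟩

theorem mem_otp {r : V} (h : WO r) {x z : V} : z ∈ otp r h x ↔ ∃ y, sR r y x ∧ otp r h y = z := by
  rw [otp_eq, mem_rep]
  exact exists_congr fun y => and_congr mem_prd Iff.rfl

theorem WO.sR_trans {r : V} (h : WO r) {x y z : V} (h1 : sR r x y) (h2 : sR r y z) : sR r x z := by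
  refine ⟨h.trans h1.1 h2.1, ?_⟩
  rintro rfl
  exact h1.2 (h.antisymm _ _ h1.1 h2.1)

theorem otp_ord {r : V} (h : WO r) (x : V) : (otp r h x).IsOrdinal := by
  induction x using h.wf.induction with
  | _ x ih =>
  rw [ZFSet.isOrdinal_iff_forall_mem_isOrdinal]
  refine ⟨?_, ?_⟩
  · intro z hz w hw
    obtain ⟨y, hy, rfl⟩ := (mem_otp h).1 hz
    obtain ⟨y', hy', rfl⟩ := (mem_otp h).1 hw
    exact (mem_otp h).2 ⟨y', h.sR_trans hy' hy, rfl⟩
  · intro z hz
    obtain ⟨y, hy, rfl⟩ := (mem_otp h).1 hz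
    exact ih y hy

theorem otp_lt {r : V} (h : WO r) {x y : V} (hxy : sR r x y) : otp r h x ∈ otp r h y :=
  (mem_otp h).2 ⟨x, hxy, rfl⟩

theorem otp_inj {r : V} (h : WO r) {x y : V} (hx : x ∈ dom r) (hy : y ∈ dom r)
    (e : otp r h x = otp r h y) : x = y := by
  by_contra hne
  rcases h.total hx hy with h1 | h1
  · have := otp_lt h ⟨h1, hne⟩
    rw [e] at this
    exact ZFSet.mem_irrefl _ this
  · have := otp_lt h ⟨h1, fun e => hne e.symm⟩
    rw [e] at this
    exact ZFSet.mem_irrefl _ this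

theorem isFn_gr (F : V → V) (a : V) : IsFn (gr F a) := by
  refine ⟨fun p hp => ?_, fun x y z h1 h2 => ?_⟩
  · obtain ⟨x, _, rfl⟩ := mem_gr.1 hp
    exact ⟨x, F x, rfl⟩
  · obtain ⟨x', _, e⟩ := mem_gr.1 h1
    obtain ⟨x'', _, e'⟩ := mem_gr.1 h2
    obtain ⟨rfl, rfl⟩ := ZFSet.pair_injective e
    obtain ⟨rfl, rfl⟩ := ZFSet.pair_injective e'
    rfl

theorem dom_gr (F : V → V) (a : V) : dom (gr F a) = a := by
  ext x
  rw [mem_dom]
  constructor
  · rintro ⟨y, hy⟩
    obtain ⟨x', hx', e⟩ := mem_gr.1 hy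
    obtain ⟨rfl, rfl⟩ := ZFSet.pair_injective e
    exact hx'
  · exact fun hx => ⟨F x, mem_gr.2 ⟨x, hx, rfl⟩⟩

theorem app_gr {F : V → V} {a x : V} (hx : x ∈ a) : app (gr F a) x = F x :=
  (isFn_gr F a).app_eq (mem_gr.2 ⟨x, hx, rfl⟩)

theorem ran_gr (F : V → V) (a : V) : ran (gr F a) = rep a F := by
  ext y
  rw [mem_ran, mem_rep]
  constructor
  · rintro ⟨x, hx⟩
    obtain ⟨x', hx', e⟩ := mem_gr.1 hx
    obtain ⟨rfl, rfl⟩ := ZFSet.pair_injective e
    exact ⟨x', hx', rfl⟩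
  · rintro ⟨x, hx, rfl⟩
    exact ⟨x, mem_gr.2 ⟨x, hx, rfl⟩⟩

/-- Order types are definable. -/
theorem DMap.otp {A M : Set V} [ZFm M] {r : V} (h : WO r) (hr : r ∈ M) (hA : r ∈ A) :
    DMap A M (otp r h) := by
  refine DMap.recV (D := prd r) (H := fun _ g => CTM.ran g) ?_ (DMap.ran (DMap.snd DMap.id))
    (fun x _ => ?_) (sR r) h.wf (fun x _ y hy => mem_prd.1 hy)
  · unfold prd
    have hc : DMap A M (fun _ : V => r) := DMap.const hA hr
    refine DMap.sep (DMap.dom hc) (Dfn.and (Dfn.mem (DMap.pair (DMap.snd DMap.id)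
      (DMap.fst DMap.id)) (DMap.const hA hr)) (Dfn.not (Dfn.eq (DMap.snd DMap.id)
      (DMap.fst DMap.id))))
  · rw [ran_gr]
    exact otp_eq h x

theorem mem_of_gr {M : Set V} [ZFm M] {A : Set V} {F : V → V} (h : DMap A M F) {a : V}
    (ha : a ∈ M) : gr F a ∈ M :=
  ZFm.rep_mem (DMap.pair DMap.id h) ha

instance : ZFCm LL where
  power_mem := LL_power
  choice := by
    intro x hx
    obtain ⟨l, hl, h1, h2⟩ := exists_slev (a := x) (fun y hy => TrC.trans hx hy) 0
    have hw := (lev_wo l).1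
    have hD : DMap LL LL (otp (lev l) hw) := DMap.otp hw (lev_mem_LL l) (lev_mem_LL l)
    refine ⟨gr (otp (lev l) hw) x, mem_of_gr hD hx, isFn_gr _ _, dom_gr _ _, ?_, ?_⟩
    · intro y hy z hz e
      rw [dom_gr] at hy hz
      rw [app_gr hy, app_gr hz] at e
      exact otp_inj hw (h2 hy) (h2 hz) e
    · intro y hy
      rw [app_gr hy]
      exact otp_ord hw y

end Pool.Agent.CTM
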