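import Pool.Agent.CTM.KapInd

/-!
Construction of the function `Kap` (MP_ea2134_lc, module KAP).

Mathematics: helper73; formalisation: helper48.
-/

set_option autoImplicit false

namespace Pool.Agent.CTM

namespace KapInd

/-- `Lx b` solves the task at `a`, and avoids the earlier solutions (given by `g`). -/
def Cnd (Lx : V → V) (a g b : V) : Prop :=
  tn Lx a ∈ (ZFSet.omega : V) ∧ Sol (tn Lx a) (tG Lx a) (Lx b) ∧
    ∀ a' ∈ a, ∀ y ∈ ran (Lx b), y ∉ ran (app g a')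

/-- The recursion step: the first solution with index in `w`. -/
noncomputable def stp (w : V) (Lx : V → V) (a g : V) : V :=
  ZFSet.sUnion (rep (ZFSet.sep (fun b => Cnd Lx a g b ∧ ∀ b' ∈ b, ¬ Cnd Lx a g b') w) Lx)

theorem stp_cases {w : V} (hw : w.IsOrdinal) (Lx : V → V) (a g : V) :
    (∃ b ∈ w, Cnd Lx a g b ∧ (∀ b' ∈ b, ¬ Cnd Lx a g b') ∧ stp w Lx a g = Lx b) ∨
      ((∀ b ∈ w, ¬ Cnd Lx a g b) ∧ stp w Lx a g = ∅) := by
  by_cases h : ∃ b, b ∈ w ∧ Cnd Lx a g b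
  · left
    obtain ⟨b, ⟨hb, hb'⟩, hmin⟩ := ZFSet.mem_wf.has_min {b | b ∈ w ∧ Cnd Lx a g b} h
    have hmin' : ∀ b' ∈ b, ¬ Cnd Lx a g b' := fun b' h1 h2 =>
      hmin b' ⟨hw.isTransitive b hb h1, h2⟩ h1
    have e : (ZFSet.sep (fun b => Cnd Lx a g b ∧ ∀ b' ∈ b, ¬ Cnd Lx a g b') w : V) = {b} := by
      ext c
      rw [ZFSet.mem_sep, ZFSet.mem_singleton]
      constructor
      · rintro ⟨hc, hc1, hc2⟩
        rcases (hw.mem hc).mem_trichotomous (hw.mem hb) with h3 | h3 | h3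
        · exact absurd hc1 (hmin' c h3)
        · exact h3
        · exact absurd hb' (hc2 b h3)
      · rintro rfl
        exact ⟨hb, hb', hmin'⟩
    refine ⟨b, hb, hb', hmin', ?_⟩
    unfold stp
    rw [e]
    have e2 : rep {b} Lx = {Lx b} := by
      ext y
      rw [mem_rep, ZFSet.mem_singleton]
      constructor
      · rintro ⟨x, hx, rfl⟩
        rw [ZFSet.mem_singleton.1 hx]
      · rintro rfl
        exact ⟨b, ZFSet.mem_singleton.2 rfl, rfl⟩
    rw [e2, ZFSet.sUnion_singleton]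
  · right
    push Not at h
    refine ⟨h, ?_⟩
    unfold stp
    refine (ZFSet.eq_empty _).2 fun y hy => ?_
    obtain ⟨u, hu, _⟩ := ZFSet.mem_sUnion.1 hy
    obtain ⟨b, hb, _⟩ := mem_rep.1 hu
    obtain ⟨hb1, hb2, _⟩ := ZFSet.mem_sep.1 hb
    exact h b hb1 hb2

section

variable {Γ : Type 1} [Ctx Γ] {A N : Set V} [ZFm N]

theorem dfn_sol {f g h : Γ → V} (hf : DMap A N f) (hg : DMap A N g) (hh : DMap A N h) :
    Dfn A N (fun γ => Sol (f γ) (g γ) (h γ)) := by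
  have h1 : Dfn A N (fun p : (V × V) × V => Sol p.1.1 p.1.2 p.2) := by
    unfold Sol
    apply_rules (transparency := .reducible) (maxDepth := 999) only
      [Dfn.isFn, Dfn.isInjF, DMap.omega] using is_poly
  exact h1.comp ((hf.prodMk hg).prodMk hh)

variable {Lx : V → V} (hL : DMap A N Lx)

include hL

theorem dmap_tn {f : Γ → V} (hf : DMap A N f) : DMap A N (fun γ => tn Lx (f γ)) :=
  Cov.dmap_fs (Cov.dmap_fs (hL.comp hf))

theorem dmap_tG {f : Γ → V} (hf : DMap A N f) : DMap A N (fun γ => tG Lx (f γ)) :=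
  Cov.dmap_fs (Cov.dmap_sn (Cov.dmap_fs (hL.comp hf)))

theorem dmap_tk {f : Γ → V} (hf : DMap A N f) : DMap A N (fun γ => tk Lx (f γ)) :=
  Cov.dmap_sn (Cov.dmap_sn (Cov.dmap_fs (hL.comp hf)))

theorem dfn_cnd {f g h : Γ → V} (hf : DMap A N f) (hg : DMap A N g) (hh : DMap A N h) :
    Dfn A N (fun γ => Cnd Lx (f γ) (g γ) (h γ)) := by
  have hL' : ∀ {Δ : Type 1} [Ctx Δ] {f : Δ → V}, DMap A N f → DMap A N (fun γ => Lx (f γ)) :=
    fun hf => hL.comp hf
  have e1 : DMap A N (fun p : (V × V) × V => p.1.1) := DMap.fst (DMap.fst DMap.id)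
  have e2 : DMap A N (fun p : (V × V) × V => Lx p.2) := hL.comp (DMap.snd DMap.id)
  have h2 : Dfn A N (fun p : (V × V) × V => tn Lx p.1.1 ∈ (ZFSet.omega : V)) :=
    Dfn.mem (dmap_tn hL e1) DMap.omega
  have h3 : Dfn A N (fun p : (V × V) × V => Sol (tn Lx p.1.1) (tG Lx p.1.1) (Lx p.2)) :=
    dfn_sol (dmap_tn hL e1) (dmap_tG hL e1) e2
  have h5 : Dfn A N (fun p : (V × V) × V => ∀ a' ∈ p.1.1, ∀ y ∈ ran (Lx p.2),
      y ∉ ran (app p.1.2 a')) := by
    apply_rules (transparency := .reducible) (maxDepth := 999) only [hL'] using is_poly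
  have h1 : Dfn A N (fun p : (V × V) × V => Cnd Lx p.1.1 p.1.2 p.2) := h2.and (h3.and h5)
  exact Dfn.comp (Δ := (V × V) × V) (g := fun γ => ((f γ, g γ), h γ)) h1
    ((hf.prodMk hg).prodMk hh)

/-- The recursion step is definable in every model whose ordinals are the elements of `w`. -/
theorem dmap_stp {w : V} (hw : w.IsOrdinal) (hN : ∀ a, a.IsOrdinal → (a ∈ N ↔ a ∈ w)) :
    DMap A N (fun p : V × V => stp w Lx p.1 p.2) := by
  refine DMap.of_graph (fun p _ => ?_) ?_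
  · rcases stp_cases hw Lx p.1 p.2 with ⟨b, hb, _, _, e⟩ | ⟨_, e⟩
    · rw [e]
      exact hL.mem (inM_V.2 ((hN b (hw.mem hb)).2 hb))
    · rw [e]
      exact ZFm.empty_mem
  · refine Dfn.congr' (P := fun q : (V × V) × V =>
      (∃ b ∈ N, b.IsOrdinal ∧ Cnd Lx q.1.1 q.1.2 b ∧ (∀ b' ∈ b, ¬ Cnd Lx q.1.1 q.1.2 b') ∧
        q.2 = Lx b) ∨
      ((∀ b ∈ N, b.IsOrdinal → ¬ Cnd Lx q.1.1 q.1.2 b) ∧ q.2 = ∅)) (fun q _ => ?_) ?_
    · constructor
      · intro e
        rcases stp_cases hw Lx q.1.1 q.1.2 with ⟨b, hb, h1, h2, e'⟩ | ⟨h1, e'⟩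
        · exact Or.inl ⟨b, (hN b (hw.mem hb)).2 hb, hw.mem hb, h1, h2, e.trans e'⟩
        · exact Or.inr ⟨fun b hb hbo => h1 b ((hN b hbo).1 hb), e.trans e'⟩
      · rintro (⟨b, hb, hbo, h1, h2, e⟩ | ⟨h1, e⟩)
        · rcases stp_cases hw Lx q.1.1 q.1.2 with ⟨b', hb', h1', h2', e'⟩ | ⟨h1', e'⟩
          · have : b = b' := by
              rcases hbo.mem_trichotomous (hw.mem hb') with h3 | h3 | h3
              · exact absurd h1 (h2' b h3)
              · exact h3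
              · exact absurd h1' (h2 b' h3)
            rw [e, this]
            exact e'.symm
          · exact absurd h1 (h1' b ((hN b hbo).1 hb))
        · rcases stp_cases hw Lx q.1.1 q.1.2 with ⟨b', hb', h1', h2', e'⟩ | ⟨h1', e'⟩
          · exact absurd h1' (h1 b' ((hN b' (hw.mem hb')).2 hb') (hw.mem hb'))
          · exact e.trans e'.symm
    · have hL' : ∀ {Δ : Type 1} [Ctx Δ] {f : Δ → V}, DMap A N f →
          DMap A N (fun γ => Lx (f γ)) := fun hf => hL.comp hf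
      have hC : ∀ {Δ : Type 1} [Ctx Δ] {f g h : Δ → V}, DMap A N f → DMap A N g → DMap A N h →
          Dfn A N (fun γ => Cnd Lx (f γ) (g γ) (h γ)) := fun hf hg hh => dfn_cnd hL hf hg hh
      apply_rules (transparency := .reducible) (maxDepth := 999) only
        [hL', hC, Dfn.isOrdinal] using is_poly

/-- The recursion step is definable from `w`. -/
theorem dmap_stp' {w : V} (hw : w ∈ A) (hw' : w ∈ N) :
    DMap A N (fun p : V × V => stp w Lx p.1 p.2) := by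
  unfold stp
  have hL' : ∀ {Δ : Type 1} [Ctx Δ] {f : Δ → V}, DMap A N f →
      DMap A N (fun γ => Lx (f γ)) := fun hf => hL.comp hf
  have hC : ∀ {Δ : Type 1} [Ctx Δ] {f g h : Δ → V}, DMap A N f → DMap A N g → DMap A N h →
      Dfn A N (fun γ => Cnd Lx (f γ) (g γ) (h γ)) := fun hf hg hh => dfn_cnd hL hf hg hh
  have hwc : ∀ {Δ : Type 1} [Ctx Δ], DMap A N (fun _ : Δ => w) := fun {Δ} _ => DMap.const hw hw'
  apply_rules (transparency := .reducible) (maxDepth := 999) only [hL', hC, hwc] using is_poly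

end

section

variable {M : Set V} [ZFCm M]

/-- Everything in `w` is hereditarily countable. -/
theorem mem_HC_of_mem {w : V} (hw : ∀ a, a ∈ w ↔ a ∈ M ∧ a.IsOrdinal ∧ Cbl M a) (a : V) :
    a ∈ w → a ∈ HC M := by
  induction a using ZFSet.inductionOn with
  | _ a ih =>
    intro ha
    obtain ⟨h1, h2, h3⟩ := (hw a).1 ha
    refine HCaux.HC_intro h1 (fun y hy => ih y hy ?_) h3
    exact (hw y).2 ⟨TrC.trans h1 hy, h2.mem hy, h3.mono (h2.subset_of_mem hy)⟩

theorem ord_HC_iff {w : V} (hw : ∀ a, a ∈ w ↔ a ∈ M ∧ a.IsOrdinal ∧ Cbl M a) (a : V)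
    (ha : a.IsOrdinal) : a ∈ HC M ↔ a ∈ w :=
  ⟨fun h => (hw a).2 ⟨HCaux.HC_sub h, ha, HCaux.HC_cbl h⟩, mem_HC_of_mem hw a⟩

/-- Sets of bounded rank. -/
theorem mem_VV_iff (z : V) : ∀ a : V, a.IsOrdinal → z ∈ M →
    (z ⊆ HCaux.VV M a ↔ rk z ⊆ a) ∧ (z ∈ HCaux.VV M a ↔ rk z ∈ a) := by
  induction z using ZFSet.inductionOn with
  | _ z ih =>
    have h1 : ∀ a : V, a.IsOrdinal → z ∈ M → (z ⊆ HCaux.VV M a ↔ rk z ⊆ a) := by
      intro a ha hz
      constructor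
      · intro h b hb
        obtain ⟨y, hy, h2⟩ := mem_rk_iff.1 hb
        have h3 : rk y ∈ a := ((ih y hy a ha (TrC.trans hz hy)).2).1 (h hy)
        rcases h2 with h2 | rfl
        · exact ha.isTransitive _ h3 h2
        · exact h3
      · intro h y hy
        exact ((ih y hy a ha (TrC.trans hz hy)).2).2 (h (mem_rk_iff.2 ⟨y, hy, Or.inr rfl⟩))
    intro a ha hz
    refine ⟨h1 a ha hz, ?_⟩
    rw [HCaux.mem_VV]
    constructor
    · rintro ⟨b, hb, _, hzb⟩
      have h2 := (h1 b (ha.mem hb) hz).1 hzb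
      rcases (rk_mem_ord z).mem_or_subset (ha.mem hb) with h3 | h3
      · exact ha.isTransitive b hb h3
      · have : rk z = b := by
          ext c
          exact ⟨fun hc => h2 hc, fun hc => h3 hc⟩
        rw [this]
        exact hb
    · intro h
      exact ⟨rk z, h, hz, (h1 (rk z) (rk_mem_ord z) hz).2 fun _ hc => hc⟩

end

end KapInd

open KapInd in
/-- **Module KAP.** -/
theorem stmt_kap : Stmt_kap := by
  intro Lx hLx M _ hLM
  obtain ⟨hHC, -, -, hHCr, hHCi⟩ := stmt_HC M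
  obtain ⟨w, hwM, hwo, hw, hwc⟩ := exists_omega1 M
  obtain ⟨e, he, he1, he2, he3, he4⟩ := exists_inj_omega1 hw hwM
  obtain ⟨σ, hσ⟩ := Cov.exists_rec (fun x => x) (stp w Lx) (· ∈ ·) ZFSet.mem_wf
    (fun _ _ h => h)
  have hLx' : ∀ x ∈ HC M, ∃ a ∈ w, x = Lx a := by
    intro x hx
    obtain ⟨a, ha, hao, e⟩ := hLM x hx
    exact ⟨a, (ord_HC_iff hw a hao).1 ha, e⟩
  -- definability of `σ`
  have hσN : ∀ (N : Set V) [ZFm N], (∀ a, a.IsOrdinal → (a ∈ N ↔ a ∈ w)) → DMap ∅ N σ :=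
    fun N _ hN => DMap.recMem (dmap_stp (hLx N) hwo hN) (fun x _ => hσ x)
  have hLMM : DMap M M Lx := (hLx M).mono (Set.empty_subset _)
  have hσM : DMap M M σ := DMap.recMem (dmap_stp' hLMM hwM hwM) (fun x _ => hσ x)
  have hσHC : ∀ a ∈ w, σ a ∈ HC M := fun a ha =>
    (hσN (HC M) (ord_HC_iff hw)).mem (inM_V.2 (mem_HC_of_mem hw a ha))
  have hLHC : ∀ a ∈ w, Lx a ∈ HC M := fun a ha =>
    (hLx (HC M)).mem (inM_V.2 (mem_HC_of_mem hw a ha))
  have hcnd : ∀ a b, Cnd Lx a (gr σ a) b ↔ tn Lx a ∈ (ZFSet.omega : V) ∧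
      Sol (tn Lx a) (tG Lx a) (Lx b) ∧ ∀ a' ∈ a, ∀ y ∈ ran (Lx b), y ∉ ran (σ a') := by
    intro a b
    unfold Cnd
    refine and_congr_right fun _ => and_congr_right fun _ => forall₂_congr fun a' ha' => ?_
    rw [Cov.app_gr _ ha']
  have hcase : ∀ a, (∃ b ∈ w, (tn Lx a ∈ (ZFSet.omega : V) ∧ Sol (tn Lx a) (tG Lx a) (Lx b) ∧
      ∀ a' ∈ a, ∀ y ∈ ran (Lx b), y ∉ ran (σ a')) ∧ σ a = Lx b) ∨
      ((∀ b ∈ w, ¬ (tn Lx a ∈ (ZFSet.omega : V) ∧ Sol (tn Lx a) (tG Lx a) (Lx b) ∧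
      ∀ a' ∈ a, ∀ y ∈ ran (Lx b), y ∉ ran (σ a'))) ∧ σ a = ∅) := by
    intro a
    rcases stp_cases hwo Lx a (gr σ a) with ⟨b, hb, h1, _, h3⟩ | ⟨h1, h2⟩
    · exact Or.inl ⟨b, hb, (hcnd a b).1 h1, (hσ a).trans h3⟩
    · exact Or.inr ⟨fun b hb h => h1 b hb ((hcnd a b).2 h), (hσ a).trans h2⟩
  have hran0 : ∀ y, y ∉ ran (∅ : V) := fun y hy => by
    obtain ⟨x, hx⟩ := mem_ran.1 hy
    exact ZFSet.notMem_empty _ hx
  have hok : SigOK M w Lx σ :=
    { dmap := hσM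
      cbl := fun a ha => by
        have : ran (σ a) ∈ HC M := (DMap.ran (DMap.id (Γ := V) (A := ∅))).mem (M := HC M)
          (γ := σ a) (inM_V.2 (hσHC a ha))
        exact HCaux.HC_cbl this
      sol := fun a _ hn s hs h1 h2 => by
        obtain ⟨b, hb, rfl⟩ := hLx' s hs
        rcases hcase a with ⟨b', _, h3, h4⟩ | ⟨h3, _⟩
        · rw [h4]
          exact h3.2.1
        · exact absurd ⟨hn, h1, h2⟩ (h3 b hb)
      disj := fun a _ a' ha' y hy => by
        rcases hcase a with ⟨b', _, h3, h4⟩ | ⟨_, h4⟩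
        · rw [h4] at hy
          exact h3.2.2 a' ha' y hy
        · rw [h4] at hy
          exact absurd hy (hran0 y) }
  -- the values of `σ`
  have hsol : ∀ a i x, ZFSet.pair i x ∈ σ a → Sol (tn Lx a) (tG Lx a) (σ a) := by
    intro a i x h
    rcases hcase a with ⟨b', _, h3, h4⟩ | ⟨_, h4⟩
    · rw [h4]
      exact h3.2.1
    · rw [h4] at h
      exact absurd h (ZFSet.notMem_empty _)
  refine ⟨KapOf w Lx σ, ?_, w, HCaux.VV M w, e, ?_⟩
  · intro N _ hN
    have hN' : ∀ a, a.IsOrdinal → (a ∈ N ↔ a ∈ w) := fun a ha =>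
      (hN a ha).trans (ord_HC_iff hw a ha)
    have hσ' : ∀ {Δ : Type 1} [Ctx Δ] {f : Δ → V}, DMap ∅ N f → DMap ∅ N (fun γ => σ (f γ)) :=
      fun hf => (hσN N hN').comp hf
    have htk : ∀ {Δ : Type 1} [Ctx Δ] {f : Δ → V}, DMap ∅ N f →
      DMap ∅ N (fun γ => tk Lx (f γ)) := fun hf => dmap_tk (hLx N) hf
    refine Dfn.congr' (P := fun p : V × V => ∃ a ∈ N, a.IsOrdinal ∧ ∃ i ∈ N,
      ZFSet.pair i p.1 ∈ σ a ∧ p.2 = app (tk Lx a) i) (fun p _ => ?_) ?_
    · constructor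
      · rintro ⟨a, ha, i, hi, h⟩
        have haN : a ∈ N := (hN' a (hwo.mem ha)).2 ha
        have : σ a ∈ N := (hσN N hN').mem (inM_V.2 haN)
        exact ⟨a, haN, hwo.mem ha, i, (pair_mem_iff.1 (TrC.trans this hi)).1, hi, h⟩
      · rintro ⟨a, ha, hao, i, _, hi, h⟩
        exact ⟨a, (hN' a hao).1 ha, i, hi, h⟩
    · apply_rules (transparency := .reducible) (maxDepth := 999) only
        [hσ', htk, Dfn.isOrdinal] using is_poly
  · refine
      { w_mem := hwM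
        w_ord := hwo
        w_iff := hw
        I_mem := (HCaux.DMap_VV (A := M)).mem (inM_V.2 hwM)
        I_iff := fun x => ?_
        e_mem := he
        e_fn := he1
        e_dom := he2
        e_inj := he3
        e_real := he4
        kap_dfn := ?_
        kap_real := ?_
        kap_fun := ?_
        ind := fun n W z hW hz hinj hcbl hWc k hk Y hY hYc =>
          KapInd.ind hw hwM hLMM hLx' hok n W z hW hz hinj hcbl hWc k hk Y hY hYc }
    · constructor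
      · intro hx
        have hxM : x ∈ M := TrC.trans ((HCaux.DMap_VV (A := M)).mem (inM_V.2 hwM)) hx
        exact ⟨hxM, ((mem_VV_iff x w hwo hxM).2).1 hx⟩
      · rintro ⟨h1, h2⟩
        exact ((mem_VV_iff x w hwo h1).2).2 h2
    · have hσ' : ∀ {Δ : Type 1} [Ctx Δ] {f : Δ → V}, DMap M M f → DMap M M (fun γ => σ (f γ)) :=
        fun hf => hσM.comp hf
      have htk : ∀ {Δ : Type 1} [Ctx Δ] {f : Δ → V}, DMap M M f →
        DMap M M (fun γ => tk Lx (f γ)) := fun hf => dmap_tk hLMM hf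
      have hwcst : ∀ {Δ : Type 1} [Ctx Δ], DMap M M (fun _ : Δ => w) :=
        fun {Δ} _ => DMap.const hwM hwM
      refine Dfn.congr' (P := fun p : V × V => ∃ a ∈ w, ∃ i ∈ M,
        ZFSet.pair i p.1 ∈ σ a ∧ p.2 = app (tk Lx a) i) (fun p _ => ?_) ?_
      · constructor
        · rintro ⟨a, ha, i, hi, h⟩
          have : σ a ∈ M := hσM.mem (inM_V.2 (TrC.trans hwM ha))
          exact ⟨a, ha, i, (pair_mem_iff.1 (TrC.trans this hi)).1, hi, h⟩
        · rintro ⟨a, ha, i, _, hi, h⟩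
          exact ⟨a, ha, i, hi, h⟩
      · apply_rules (transparency := .reducible) (maxDepth := 999) only
          [hσ', htk, hwcst] using is_poly
    · rintro x k ⟨a, ha, i, hi, rfl⟩
      obtain ⟨h1, h2, _, h4, _⟩ := hsol a i x hi
      have hi' : i ∈ dom (σ a) := mem_dom.2 ⟨x, hi⟩
      have hx : x ⊆ ZFSet.omega := by
        have := h4 i (h2 ▸ hi')
        rwa [h1.app_eq hi] at this
      have hpHC := pair_mem_iff.1 (TrC.trans (hσHC a ha) hi)
      refine ⟨HCaux.HC_sub hpHC.2, hx, ?_⟩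
      have hd : DMap ∅ (HC M) (fun p : V × V => app (tk Lx p.1) p.2) :=
        DMap.app (dmap_tk (hLx (HC M)) (DMap.fst DMap.id)) (DMap.snd DMap.id)
      exact hd.mem (γ := (a, i)) (inM_prod.2 ⟨inM_V.2 (mem_HC_of_mem hw a ha), hpHC.1⟩)
    · rintro x k k' ⟨a, ha, i, hi, rfl⟩ ⟨a', ha', i', hi', rfl⟩
      have haa : a = a' := by
        have hy : x ∈ ran (σ a) := mem_ran.2 ⟨i, hi⟩
        have hy' : x ∈ ran (σ a') := mem_ran.2 ⟨i', hi'⟩
        rcases (hwo.mem ha).mem_trichotomous (hwo.mem ha') with h | h | h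
        · exact absurd hy (hok.disj a' ha' a h x hy')
        · exact h
        · exact absurd hy' (hok.disj a ha a' h x hy)
      subst haa
      obtain ⟨h1, _, h3, _⟩ := hsol a i x hi
      have : i = i' := h3 i (mem_dom.2 ⟨x, hi⟩) i' (mem_dom.2 ⟨x, hi'⟩)
        ((h1.app_eq hi).trans (h1.app_eq hi').symm)
      rw [this]

end Pool.Agent.CTM
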