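import Pool.Agent.CTM.Defs

/-!
The forcing notion of MP_ea2134_lc: definitions and statements of the modules.

Reals are subsets of `ω`. A code `(l, U)` (with `l ∈ ω`) stands for the clopen set of all reals `c`
with `c ∩ l ∈ U`. `Kap x k` says that `x` is a point of the ground model set `X` and that its
value is `k`; we use values of the form `k = ((l, U), a)`.
-/

set_option autoImplicit false

namespace Pool.Agent.CTM

/-- The initial segment of `x` of length `m`. -/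
noncomputable def seg (x m : V) : V := ZFSet.pair m (x ∩ m)

/-- The value `((l, U), a)`. -/
noncomputable def kv (l U a : V) : V := ZFSet.pair (ZFSet.pair l U) a

/-- The ground model data: `w = ω₁`, `I` is the set of all sets of rank less than `ω₁`, `e` is an
injection of `ω₁` into the reals, `Kap` is the generic-like function on a set of reals
(all in the sense of `M`). -/
structure Setup (M : Set V) (w I e : V) (Kap : V → V → Prop) : Prop where
  w_mem : w ∈ M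
  w_ord : w.IsOrdinal
  w_iff : ∀ a, a ∈ w ↔ a ∈ M ∧ a.IsOrdinal ∧ Cbl M a
  I_mem : I ∈ M
  I_iff : ∀ x, x ∈ I ↔ x ∈ M ∧ rk x ∈ w
  e_mem : e ∈ M
  e_fn : IsFn e
  e_dom : dom e = w
  e_inj : IsInjF e
  e_real : ∀ a ∈ w, app e a ⊆ ZFSet.omega
  kap_dfn : Dfn M M (fun p : V × V => Kap p.1 p.2)
  kap_real : ∀ x k, Kap x k → x ∈ M ∧ x ⊆ ZFSet.omega ∧ k ∈ HC M
  kap_fun : ∀ x k k', Kap x k → Kap x k' → k = k'
  ind : ∀ (n : ℕ) (W : V) (z : Fin n → V → V), W ∈ M → (∀ j, DMap M M (z j)) →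
    (∀ x ∈ W, Function.Injective (fun j => z j x) ∧ ∀ j, z j x ⊆ ZFSet.omega) →
    (∀ y ∈ M, Cbl M (ZFSet.sep (fun x => ∃ j, z j x = y) W)) → ¬ Cbl M W →
    ∀ k : Fin n → V, (∀ j, k j ∈ HC M) → ∀ Y ∈ M, Cbl M Y →
    ∃ z' : Fin n → V, Function.Injective z' ∧ (∀ j, Kap (z' j) (k j)) ∧ (∀ j, z' j ∉ Y) ∧
      ∀ h ∈ ZFSet.omega, ¬ Cbl M (ZFSet.sep (fun x => ∀ j, z j x ∩ h = z' j ∩ h) W)

/-- The label of the index `i`. -/
noncomputable def lab (e i : V) : V := app e (rk i)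

/-- Token: `c_i(n) = ε`. -/
noncomputable def tC (i n ε : V) : V := ZFSet.pair (nn 0) (ZFSet.pair i (ZFSet.pair n ε))

/-- Token: `d_i(s) = ε`. -/
noncomputable def tD (i s ε : V) : V := ZFSet.pair (nn 1) (ZFSet.pair i (ZFSet.pair s ε))

/-- Token: the promise that `d_i(seg x m')` is correct for all `m' ≥ m`. -/
noncomputable def tR (i x m : V) : V := ZFSet.pair (nn 2) (ZFSet.pair i (ZFSet.pair x m))

/-- The tokens. -/
def IsTok (I e : V) (Kap : V → V → Prop) (t : V) : Prop :=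
  (∃ i ∈ I, ∃ n ∈ ZFSet.omega, ∃ ε ∈ nn 2, t = tC i n ε) ∨
  (∃ i ∈ I, ∃ m ∈ ZFSet.omega, ∃ u, u ⊆ m ∧ ∃ ε ∈ nn 2, t = tD i (ZFSet.pair m u) ε) ∨
  (∃ i ∈ I, ∃ x, ∃ m ∈ ZFSet.omega, (∃ l ∈ ZFSet.omega, ∃ U, Kap x (kv l U (lab e i))) ∧
    t = tR i x m)

/-- The tokens in `p` decide that `c_i ∩ l = u`. -/
def Tr (p i l u : V) : Prop :=
  u ⊆ l ∧ ∀ n ∈ l, (n ∈ u → tC i n (nn 1) ∈ p) ∧ (n ∉ u → tC i n (nn 0) ∈ p)

/-- The conditions: finite sets of tokens such that (1) the tokens C, D are functional,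
(2) a promise for `x` at `i` is accompanied by the decision whether `c_i` is in the clopen set
of `x`, (3) the tokens D obey the promises, (4) two promises with different decisions never speak
about the same segment. -/
structure Cond (I e : V) (Kap : V → V → Prop) (p : V) : Prop where
  tok : ∀ t ∈ p, IsTok I e Kap t
  fin : {t | t ∈ p}.Finite
  funC : ∀ i n, ¬ (tC i n (nn 0) ∈ p ∧ tC i n (nn 1) ∈ p)
  funD : ∀ i s, ¬ (tD i s (nn 0) ∈ p ∧ tD i s (nn 1) ∈ p)
  dec : ∀ i x m l U, tR i x m ∈ p → Kap x (kv l U (lab e i)) → ∃ u, Tr p i l u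
  obey : ∀ i x m l U u m' ε, tR i x m ∈ p → Kap x (kv l U (lab e i)) → Tr p i l u →
    m ⊆ m' → tD i (seg x m') ε ∈ p → (ε = nn 1 ↔ u ∈ U)
  sep : ∀ i x m l U u x' m' l' U' u', tR i x m ∈ p → tR i x' m' ∈ p →
    Kap x (kv l U (lab e i)) → Kap x' (kv l' U' (lab e i)) → Tr p i l u → Tr p i l' u' →
    ¬ (u ∈ U ↔ u' ∈ U') → x ∩ (m ∪ m') ≠ x' ∩ (m ∪ m')

/-- `P` is the forcing notion. -/
def IsPos (I e : V) (Kap : V → V → Prop) (P : V) : Prop := ∀ p, p ∈ P ↔ Cond I e Kap p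

/-- The generic real `c_i`. -/
noncomputable def cre (G i : V) : V :=
  ZFSet.sep (fun n => ∃ p ∈ G, tC i n (nn 1) ∈ p) ZFSet.omega

/-- The generic set of segments `d_i`. -/
noncomputable def dre (G i : V) : V :=
  ZFSet.sep (fun s => ∃ p ∈ G, tD i s (nn 1) ∈ p) (ZFSet.prod ZFSet.omega (FinP ZFSet.omega))

/-- `d` computes, in the limit along the segments of the points `x` with label `a`, whether `c` is
in the clopen set of `x`. -/
def Codes (Kap : V → V → Prop) (a c d : V) : Prop :=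
  ∀ x l U, l ∈ ZFSet.omega → Kap x (kv l U a) →
    ∃ m₀ ∈ ZFSet.omega, ∀ m ∈ ZFSet.omega, m₀ ⊆ m → (seg x m ∈ d ↔ c ∩ l ∈ U)

/-- **Module POS.** The forcing notion is a set of `M`, and all its elements and all countable
subsets of `ω × P` are in `I`. -/
def Stmt_pos : Prop :=
  ∀ (M : Set V) [ZFCm M] (w I e : V) (Kap : V → V → Prop), Setup M w I e Kap →
    ∃ P ∈ M, IsPos I e Kap P ∧ ∅ ∈ P ∧
      ∀ τ ∈ M, τ ⊆ ZFSet.prod ZFSet.omega P → Cbl M τ → τ ∈ I

/-- **Module GRE.** The generic reals are distinct, and `d_i` codes `c_i`. -/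
def Stmt_greals : Prop :=
  ∀ (M : Set V) [ZFCm M] (w I e : V) (Kap : V → V → Prop), Setup M w I e Kap →
    ∀ P ∈ M, IsPos I e Kap P → ∀ G, Generic M P G →
      (∀ i ∈ I, ∀ j ∈ I, cre G i = cre G j → i = j) ∧
      ∀ i ∈ I, Codes Kap (lab e i) (cre G i) (dre G i)

/-- **Module CCC.** The forcing notion has the countable antichain condition in `M`. -/
def Stmt_ccc : Prop :=
  ∀ (M : Set V) [ZFCm M] (w I e : V) (Kap : V → V → Prop), Setup M w I e Kap →
    ∀ P ∈ M, IsPos I e Kap P → ∀ A ∈ M, A ⊆ P →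
      (∀ p ∈ A, ∀ q ∈ A, p ≠ q → ¬ ∃ r ∈ P, p ⊆ r ∧ q ⊆ r) → Cbl M A

/-- **Module RIG.** Rigidity: the only reals that are coded with the label of `i₀` are the
generic reals `c_i` with this label. -/
def Stmt_rigid : Prop :=
  ∀ (M : Set V) [ZFCm M] (w I e : V) (Kap : V → V → Prop), Setup M w I e Kap → M.Countable →
    ∀ P ∈ M, IsPos I e Kap P → ∀ G, Generic M P G →
      ∀ c ∈ Ext M G, ∀ d ∈ Ext M G, c ⊆ ZFSet.omega → ∀ i₀ ∈ I, Codes Kap (lab e i₀) c d →
      ∃ i ∈ I, lab e i = lab e i₀ ∧ c = cre G i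

/-- **Module KAP.** Construction of `Kap` from an enumeration of the hereditarily countable
sets of `M` by countable ordinals; `Kap` is definable in all models of ZF without power set whose
ordinals are the countable ordinals of `M`. -/
def Stmt_kap : Prop :=
  ∀ Lx : V → V, (∀ (N : Set V) [ZFm N], DMap ∅ N Lx) →
    ∀ (M : Set V) [ZFCm M], (∀ x ∈ HC M, ∃ a ∈ HC M, a.IsOrdinal ∧ x = Lx a) →
    ∃ Kap : V → V → Prop,
      (∀ (N : Set V) [ZFm N], (∀ a, a.IsOrdinal → (a ∈ N ↔ a ∈ HC M)) →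
        Dfn ∅ N (fun p : V × V => Kap p.1 p.2)) ∧
      ∃ w I e, Setup M w I e Kap

end Pool.Agent.CTM
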