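import Pool.Agent.CTM.Root
import Pool.Agent.CTM.HC
import Pool.Agent.CTM.PosDefs

/-!
The density property of the function `Kap` (MP_ea2134_lc, module KAP, field `ind` of `Setup`), from
an abstract description of the recursion `σ` that solves the tasks.

Mathematics: helper73; formalisation: helper48.
-/

set_option autoImplicit false

namespace Pool.Agent.CTM

namespace KapInd

/-- `s` is an injective tuple of reals with index set `n`, and in the closure of `G`. -/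
def Sol (n G s : V) : Prop :=
  IsFn s ∧ dom s = n ∧ IsInjF s ∧ (∀ i ∈ n, app s i ⊆ ZFSet.omega) ∧
    ∀ h ∈ (ZFSet.omega : V), ∃ g ∈ G, ∀ i ∈ n, app g i ∩ h = app s i ∩ h

/-- The size of the tuples in the task at `a`. -/
noncomputable def tn (Lx : V → V) (a : V) : V := Cov.fs (Cov.fs (Lx a))

/-- The set of tuples of the task at `a`. -/
noncomputable def tG (Lx : V → V) (a : V) : V := Cov.fs (Cov.sn (Cov.fs (Lx a)))

/-- The tuple of prescribed values of the task at `a`. -/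
noncomputable def tk (Lx : V → V) (a : V) : V := Cov.sn (Cov.sn (Cov.fs (Lx a)))

/-- The properties of the recursion `σ` that are used for `ind`. -/
structure SigOK (M : Set V) (w : V) (Lx σ : V → V) : Prop where
  dmap : DMap M M σ
  cbl : ∀ a ∈ w, Cbl M (ran (σ a))
  sol : ∀ a ∈ w, tn Lx a ∈ (ZFSet.omega : V) → ∀ s ∈ HC M, Sol (tn Lx a) (tG Lx a) s →
    (∀ a' ∈ a, ∀ y ∈ ran s, y ∉ ran (σ a')) → Sol (tn Lx a) (tG Lx a) (σ a)
  disj : ∀ a ∈ w, ∀ a' ∈ a, ∀ y ∈ ran (σ a), y ∉ ran (σ a')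

/-- The function `Kap` that is defined by `σ`. -/
def KapOf (w : V) (Lx σ : V → V) (x k : V) : Prop :=
  ∃ a ∈ w, ∃ i, ZFSet.pair i x ∈ σ a ∧ k = app (tk Lx a) i

section

variable {M : Set V} [ZFCm M]

omit [ZFCm M] in
theorem mem_FinP_omega {x h : V} (hx : x ⊆ ZFSet.omega) (hh : h ∈ (ZFSet.omega : V)) :
    x ∩ h ∈ FinP (ZFSet.omega : V) := by
  rw [mem_FinP]
  refine ⟨fun y hy => hx (ZFSet.mem_inter.1 hy).1, ?_⟩
  obtain ⟨m, rfl⟩ := mem_omega.1 hh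
  refine (Set.Finite.subset (Set.finite_range (fun i : Fin m => nn i)) fun y hy => ?_)
  obtain ⟨l, hl, rfl⟩ := mem_nn.1 (ZFSet.mem_inter.1 hy).2
  exact ⟨⟨l, hl⟩, rfl⟩

omit [ZFCm M] in
theorem tup_mem_FinP {x : V} {n : ℕ} {v : Fin n → V} (h : ∀ j, v j ∈ x) :
    tup v ∈ FinP (ZFSet.prod ZFSet.omega x) := by
  rw [mem_FinP]
  constructor
  · intro y hy
    obtain ⟨i, rfl⟩ := mem_tup.1 hy
    exact ZFSet.pair_mem_prod.2 ⟨nn_mem_omega _, h i⟩
  · refine (Set.finite_range (fun i : Fin n => ZFSet.pair (nn i) (v i))).subset fun y hy => ?_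
    obtain ⟨i, rfl⟩ := mem_tup.1 hy
    exact ⟨i, rfl⟩

omit [ZFCm M] in
theorem mem_ran_tup {n : ℕ} {v : Fin n → V} {y : V} (h : y ∈ ran (tup v)) : ∃ j, y = v j := by
  obtain ⟨i, hi⟩ := mem_ran.1 h
  obtain ⟨j, e⟩ := mem_tup.1 hi
  exact ⟨j, (ZFSet.pair_injective e).2⟩

omit [ZFCm M] in
theorem tup_injF {n : ℕ} {v : Fin n → V} (h : Function.Injective v) : IsInjF (tup v) := by
  intro x hx y hy e
  rw [dom_tup] at hx hy
  obtain ⟨a, ha, rfl⟩ := mem_nn.1 hx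
  obtain ⟨b, hb, rfl⟩ := mem_nn.1 hy
  have h1 := app_tup v ⟨a, ha⟩
  have h2 := app_tup v ⟨b, hb⟩
  have h3 : v ⟨a, ha⟩ = v ⟨b, hb⟩ := by
    rw [← h1, ← h2]
    exact e
  have h4 := h h3
  rw [Fin.mk.injEq] at h4
  rw [h4]

theorem ind {w : V} {Lx σ : V → V} (hw : ∀ a, a ∈ w ↔ a ∈ M ∧ a.IsOrdinal ∧ Cbl M a)
    (hwM : w ∈ M) (hLd : DMap M M Lx) (hLx : ∀ x ∈ HC M, ∃ a ∈ w, x = Lx a)
    (hσ : SigOK M w Lx σ) (n : ℕ) (W : V) (z : Fin n → V → V) (hW : W ∈ M)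
    (hz : ∀ j, DMap M M (z j))
    (hinj : ∀ x ∈ W, Function.Injective (fun j => z j x) ∧ ∀ j, z j x ⊆ ZFSet.omega)
    (hcbl : ∀ y ∈ M, Cbl M (ZFSet.sep (fun x => ∃ j, z j x = y) W)) (hWc : ¬ Cbl M W)
    (k : Fin n → V) (hk : ∀ j, k j ∈ HC M) (Y : V) (hY : Y ∈ M) (hYc : Cbl M Y) :
    ∃ z' : Fin n → V, Function.Injective z' ∧ (∀ j, KapOf w Lx σ (z' j) (k j)) ∧
      (∀ j, z' j ∉ Y) ∧
      ∀ h ∈ ZFSet.omega, ¬ Cbl M (ZFSet.sep (fun x => ∀ j, z j x ∩ h = z' j ∩ h) W) := by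
  classical
  obtain ⟨hHC, -, -, hHCr, hHCi⟩ := stmt_HC M
  -- traces
  let t : V → V → V := fun x h => tup (fun j => z j x ∩ h)
  have hzc : ∀ j, ∀ {Δ : Type 1} [Ctx Δ] {f : Δ → V}, DMap M M f →
      DMap M M (fun γ => z j (f γ)) := fun j _ _ _ hf => (hz j).comp hf
  have htc : ∀ {Δ : Type 1} [Ctx Δ] {f g : Δ → V}, DMap M M f → DMap M M g →
      DMap M M (fun γ => t (f γ) (g γ)) := fun hf hg =>
    DMap.tup (v := fun j γ => z j _ ∩ _) fun j => DMap.inter (hzc j hf) hg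
  have ht : DMap M M (fun p : V × V => t p.1 p.2) := htc (DMap.fst DMap.id) (DMap.snd DMap.id)
  have hteq : ∀ {x x' h : V}, t x h = t x' h ↔ ∀ j, z j x ∩ h = z j x' ∩ h := by
    intro x x' h
    constructor
    · intro e j
      exact congrFun (tup_inj e) j
    · intro e
      show tup (fun j => z j x ∩ h) = tup (fun j => z j x' ∩ h)
      congr 1
      funext j
      exact e j
  let T : V := FinP (ZFSet.prod ZFSet.omega (FinP ZFSet.omega))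
  have hTM : T ∈ M := (DMap.FinP (DMap.prod DMap.omega (DMap.FinP DMap.omega)) :
    DMap M M (fun _ : PUnit.{2} => T)).mem (γ := PUnit.unit) inM_unit
  have hTc : Cbl M T := ((cbl_omega (M := M)).prod (cbl_omega (M := M)).finP).finP
  have hT : ∀ x ∈ W, ∀ h ∈ (ZFSet.omega : V), t x h ∈ T := fun x hx h hh =>
    tup_mem_FinP fun j => mem_FinP_omega ((hinj x hx).2 j) hh
  -- condensation points
  have hcond := condensation hW ht hTc hT
  set W1 : V := ZFSet.sep (fun x => ∀ h ∈ (ZFSet.omega : V),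
    ¬ Cbl M (ZFSet.sep (fun x' => t x' h = t x h) W)) W with hW1
  have hWd : ∀ {Δ : Type 1} [Ctx Δ], DMap M M (fun _ : Δ => W) := fun {Δ} _ => DMap.cst hW
  have hW1M : W1 ∈ M := by
    refine ZFm.sep_mem ?_ hW
    apply_rules (transparency := .reducible) (maxDepth := 999) only
      [hWd, htc, Dfn.cbl, DMap.omega] using is_poly
  have hW1W : ∀ x ∈ W1, x ∈ W := fun x hx => (ZFSet.mem_sep.1 hx).1
  have hW1c : ¬ Cbl M W1 := by
    intro hc
    refine hWc ((hc.union hcond).mono fun x hx => ?_)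
    rw [ZFSet.mem_union]
    by_cases h : ∃ h ∈ (ZFSet.omega : V), Cbl M (ZFSet.sep (fun x' => t x' h = t x h) W)
    · exact Or.inr (ZFSet.mem_sep.2 ⟨hx, h⟩)
    · push Not at h
      exact Or.inl (ZFSet.mem_sep.2 ⟨hx, h⟩)
  -- a countable dense subset
  obtain ⟨E, hE, hE1⟩ := Cov.choose_from (Γ := V) (Q := fun p y => t y (Cov.fs p) = Cov.sn p)
    (by
      refine Dfn.eq (htc (DMap.snd DMap.id) (Cov.dmap_fs (DMap.fst DMap.id)))
        (Cov.dmap_sn (DMap.fst DMap.id))) hW1M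
  let D : V := ZFSet.sep (fun p => ∃ y ∈ W1, t y (Cov.fs p) = Cov.sn p) (ZFSet.prod ZFSet.omega T)
  have hpM : ZFSet.prod ZFSet.omega T ∈ M := (DMap.prod DMap.omega (DMap.cst hTM) :
    DMap M M (fun _ : PUnit.{2} => ZFSet.prod ZFSet.omega T)).mem (γ := PUnit.unit) inM_unit
  have hDM : D ∈ M := by
    refine ZFm.sep_mem ?_ hpM
    refine Dfn.ex_mem (DMap.cst hW1M) (Dfn.eq (htc (DMap.snd DMap.id)
      (Cov.dmap_fs (DMap.fst DMap.id))) (Cov.dmap_sn (DMap.fst DMap.id)))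
  have hDc : Cbl M D := ((cbl_omega (M := M)).prod hTc).mono fun p hp => (ZFSet.mem_sep.1 hp).1
  have hDE : ∀ p ∈ D, E p ∈ W1 ∧ t (E p) (Cov.fs p) = Cov.sn p := fun p hp =>
    hE1 p (inM_V.2 (TrC.trans hDM hp)) (ZFSet.mem_sep.1 hp).2
  let zt : V → V := fun x => tup (fun j => z j x)
  have hzt : ∀ {Δ : Type 1} [Ctx Δ] {f : Δ → V}, DMap M M f → DMap M M (fun γ => zt (f γ)) :=
    fun hf => DMap.tup (v := fun j γ => z j _) fun j => hzc j hf
  let G : V := rep D (fun p => zt (E p))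
  have hGd : DMap M M (fun p : V => zt (E p)) := hzt hE
  have hGM : G ∈ M := ZFm.rep_mem hGd hDM
  have hGc : Cbl M G := hDc.rep hGd
  have hztHC : ∀ x ∈ W, zt x ∈ HC M := by
    intro x hx
    refine tup_mem.2 fun j => ?_
    exact (hHCr _ ((hinj x hx).2 j)).2 ((hz j).mem (inM_V.2 (TrC.trans hW hx)))
  have hGHC : G ∈ HC M := by
    refine hHCi G hGM (fun g hg => ?_) hGc
    obtain ⟨p, hp, rfl⟩ := mem_rep.1 hg
    exact hztHC _ (hW1W _ (hDE p hp).1)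
  have hdense : ∀ x ∈ W1, ∀ h ∈ (ZFSet.omega : V), ∃ g ∈ G, ∀ i ∈ nn n,
      app g i ∩ h = app (zt x) i ∩ h := by
    intro x hx h hh
    have hp : ZFSet.pair h (t x h) ∈ D := ZFSet.mem_sep.2
      ⟨ZFSet.pair_mem_prod.2 ⟨hh, hT x (hW1W x hx) h hh⟩, x, hx, by rw [Cov.fs_pair, Cov.sn_pair]⟩
    refine ⟨_, mem_rep.2 ⟨_, hp, rfl⟩, fun i hi => ?_⟩
    obtain ⟨m, hm, rfl⟩ := mem_nn.1 hi
    have h1 := (hDE _ hp).2
    rw [Cov.fs_pair, Cov.sn_pair] at h1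
    have h2 := hteq.1 h1 ⟨m, hm⟩
    show app (tup _) (nn m) ∩ h = app (tup _) (nn m) ∩ h
    have h3 := app_tup (fun j => z j (E (ZFSet.pair h (t x h)))) ⟨m, hm⟩
    have h4 := app_tup (fun j => z j x) ⟨m, hm⟩
    simp only at h3 h4
    rw [h3, h4]
    exact h2
  -- the task
  let τ : V := ZFSet.pair (nn n) (ZFSet.pair G (tup k))
  have hτ : τ ∈ HC M := pair_mem_iff.2 ⟨nn_mem n, pair_mem_iff.2 ⟨hGHC, tup_mem.2 hk⟩⟩
  let B : V := ZFSet.sep (fun a => Cov.fs (Lx a) = τ) w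
  have hτM : τ ∈ M := HCaux.HC_sub hτ
  have hLc : ∀ {Δ : Type 1} [Ctx Δ] {f : Δ → V}, DMap M M f → DMap M M (fun γ => Lx (f γ)) :=
    fun hf => hLd.comp hf
  have hBM : B ∈ M := ZFm.sep_mem (Dfn.eq (Cov.dmap_fs hLd) (DMap.cst hτM)) hwM
  have hBc : ¬ Cbl M B := by
    intro hc
    refine not_cbl_power (M := M) ((hc.rep (F := fun a => Cov.sn (Lx a))
      (Cov.dmap_sn hLd)).mono fun y hy => ?_)
    obtain ⟨hy1, hy2⟩ := ZFSet.mem_sep.1 hy
    have hy3 : y ∈ HC M := (hHCr y (ZFSet.mem_powerset.1 hy1)).2 hy2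
    obtain ⟨a, ha, e⟩ := hLx (ZFSet.pair τ y) (pair_mem_iff.2 ⟨hτ, hy3⟩)
    refine mem_rep.2 ⟨a, ZFSet.mem_sep.2 ⟨ha, ?_⟩, ?_⟩
    · rw [← e, Cov.fs_pair]
    · rw [← e, Cov.sn_pair]
  have hBt : ∀ a ∈ B, a ∈ w ∧ tn Lx a = nn n ∧ tG Lx a = G ∧ tk Lx a = tup k := by
    intro a ha
    obtain ⟨h1, h2⟩ := ZFSet.mem_sep.1 ha
    refine ⟨h1, ?_, ?_, ?_⟩
    · show Cov.fs (Cov.fs (Lx a)) = _
      rw [h2, Cov.fs_pair]
    · show Cov.fs (Cov.sn (Cov.fs (Lx a))) = _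
      rw [h2, Cov.sn_pair, Cov.fs_pair]
    · show Cov.sn (Cov.sn (Cov.fs (Lx a))) = _
      rw [h2, Cov.sn_pair, Cov.sn_pair]
  -- the task is solved at all its stages
  have hBs : ∀ a ∈ B, Sol (nn n) G (σ a) := by
    intro a ha
    obtain ⟨haw, h1, h2, -⟩ := hBt a ha
    have haC : Cbl M a := ((hw a).1 haw).2.2
    have haM : a ∈ M := ((hw a).1 haw).1
    have hrd : DMap M M (fun a' : V => ran (σ a')) := DMap.ran hσ.dmap
    let C : V := ZFSet.sUnion (rep a (fun a' => ran (σ a')))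
    have hCM : C ∈ M := ZFm.sUnion_mem (ZFm.rep_mem hrd haM)
    have haw' : ∀ a' ∈ a, a' ∈ w := by
      intro a' ha'
      obtain ⟨h3, h4, h5⟩ := (hw a).1 haw
      exact (hw a').2 ⟨TrC.trans h3 ha', h4.mem ha', h5.mono (h4.subset_of_mem ha')⟩
    have hCc : Cbl M C := haC.iUnion hrd fun a' ha' => hσ.cbl a' (haw' a' ha')
    have hX : Cbl M (ZFSet.sep (fun x => ∃ y ∈ C, ∃ j, z j x = y) W) := by
      refine Cbl.sep_ex (A := M) (P := fun y x => ∃ j, z j x = y) hCc hCM hW ?_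
        fun y hy => hcbl y (TrC.trans hCM hy)
      exact Dfn.ex_fin (P := fun j (p : V × V) => z j p.2 = p.1) fun j =>
        Dfn.eq (hzc j (DMap.snd DMap.id)) (DMap.fst DMap.id)
    obtain ⟨x, hx, hx'⟩ : ∃ x ∈ W1, x ∉ ZFSet.sep (fun x => ∃ y ∈ C, ∃ j, z j x = y) W := by
      by_contra hcon
      push Not at hcon
      exact hW1c (hX.mono hcon)
    have hxW := hW1W x hx
    have hsol := hσ.sol a haw
    rw [h1, h2] at hsol
    refine hsol (nn_mem_omega n) (zt x) (hztHC x hxW) ?_ ?_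
    · refine ⟨tup_isFn _, dom_tup _, tup_injF (hinj x hxW).1, fun i hi => ?_, hdense x hx⟩
      obtain ⟨m, hm, rfl⟩ := mem_nn.1 hi
      have h3 := app_tup (fun j => z j x) ⟨m, hm⟩
      simp only at h3
      show app (tup fun j => z j x) (nn m) ⊆ _
      rw [h3]
      exact (hinj x hxW).2 _
    · intro a' ha' y hy hy'
      obtain ⟨j, e⟩ := mem_ran_tup hy
      refine hx' (ZFSet.mem_sep.2 ⟨hxW, y, ?_, j, e.symm⟩)
      exact ZFSet.mem_sUnion.2 ⟨_, mem_rep.2 ⟨a', ha', rfl⟩, hy'⟩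
  -- a stage outside `Y`
  have hYB : Cbl M (ZFSet.sep (fun a => ∃ y ∈ Y, y ∈ ran (σ a)) w) := by
    have hd : Dfn M M (fun p : V × V => p.1 ∈ ran (σ p.2)) :=
      Dfn.mem (DMap.fst DMap.id) (DMap.ran (hσ.dmap.comp (DMap.snd DMap.id)))
    refine Cbl.sep_ex (P := fun y a => y ∈ ran (σ a)) hYc hY hwM hd fun y hy => ?_
    refine cbl_fin (fun a ha => TrC.trans hwM (ZFSet.mem_sep.1 ha).1) ?_
    refine Set.Subsingleton.finite fun a ha b hb => ?_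
    obtain ⟨ha1, ha2⟩ := ZFSet.mem_sep.1 ha
    obtain ⟨hb1, hb2⟩ := ZFSet.mem_sep.1 hb
    rcases ((hw a).1 ha1).2.1.mem_trichotomous ((hw b).1 hb1).2.1 with h | h | h
    · exact absurd ha2 (hσ.disj b hb1 a h y hb2)
    · exact h
    · exact absurd hb2 (hσ.disj a ha1 b h y ha2)
  obtain ⟨a, ha, haY⟩ : ∃ a ∈ B, a ∉ ZFSet.sep (fun a => ∃ y ∈ Y, y ∈ ran (σ a)) w := by
    by_contra hcon
    push Not at hcon
    exact hBc (hYB.mono hcon)
  obtain ⟨haw, -, -, h3⟩ := hBt a ha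
  obtain ⟨hs1, hs2, hs3, hs4, hs5⟩ := hBs a ha
  have hdomj : ∀ j : Fin n, nn j ∈ dom (σ a) := fun j => by
    rw [hs2]
    exact nn_mem_nn.2 j.2
  refine ⟨fun j => app (σ a) (nn j), ?_, ?_, ?_, ?_⟩
  · intro i j e
    exact Fin.ext (nn_inj (hs3 _ (hdomj i) _ (hdomj j) e))
  · intro j
    refine ⟨a, haw, nn j, hs1.pair_app (hdomj j), ?_⟩
    rw [h3, app_tup]
  · intro j hj
    refine haY (ZFSet.mem_sep.2 ⟨haw, _, hj, ?_⟩)
    exact mem_ran.2 ⟨_, hs1.pair_app (hdomj j)⟩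
  · intro h hh hc
    obtain ⟨g, hg, hgi⟩ := hs5 h hh
    obtain ⟨p, hp, rfl⟩ := mem_rep.1 hg
    refine (ZFSet.mem_sep.1 (hDE p hp).1).2 h hh (hc.mono fun x hx => ?_)
    obtain ⟨hx1, hx2⟩ := ZFSet.mem_sep.1 hx
    refine ZFSet.mem_sep.2 ⟨hx1, fun j => ?_⟩
    rw [hteq.1 hx2 j, ← hgi (nn j) (nn_mem_nn.2 j.2)]
    show z j (E p) ∩ h = app (tup fun j => z j (E p)) (nn j) ∩ h
    rw [app_tup]

end

end KapInd

end Pool.Agent.CTM
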