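import Pool.Agent.CTM.Nat1
import Pool.Agent.CTM.HierDef

/-!
Definable predicates and functions in transitive classes and in models of ZF without power set
(toolkit NAT, second part, MP_ea2134_lc). `DMap.prod` is in `HierDef`.
-/

set_option autoImplicit false

namespace Pool.Agent.CTM

section

variable {Γ Δ : Type 1} [Ctx Γ] [Ctx Δ] {A M : Set V}

/-! ### Definable predicates and functions -/

theorem Dfn.isTransitive [TrC M] {f : Γ → V} (hf : DMap A M f) :
    Dfn A M (fun γ => (f γ).IsTransitive) := by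
  have h : Dfn A M (fun x : V => x.IsTransitive) := (D0.isTransitive Prj.id).dfn
  exact h.comp hf

theorem Dfn.isOrdinal [TrC M] {f : Γ → V} (hf : DMap A M f) :
    Dfn A M (fun γ => (f γ).IsOrdinal) := by
  have h : Dfn A M (fun x : V => x.IsOrdinal) := (D0.isOrdinal Prj.id).dfn
  exact h.comp hf

/-- Definition by cases. -/
theorem DMap.ite {P : Γ → Prop} [DecidablePred P] {f g : Γ → V} (h : Dfn A M P) (hf : DMap A M f)
    (hg : DMap A M g) : DMap A M (fun γ => if P γ then f γ else g γ) := by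
  refine DMap.of_graph (fun γ hγ => ?_) ?_
  · by_cases hP : P γ
    · rw [if_pos hP]
      exact hf.mem hγ
    · rw [if_neg hP]
      exact hg.mem hγ
  · refine Dfn.congr' (P := fun p : Γ × V => (P p.1 → p.2 = f p.1) ∧ (¬ P p.1 → p.2 = g p.1))
      (fun p _ => ?_) ?_
    · by_cases hP : P p.1
      · simp [hP]
      · simp [hP]
    · have h1 : Dfn A M (fun p : Γ × V => P p.1) := h.comp (DMap.fst DMap.id)
      exact Dfn.and (Dfn.imp h1 hf.graph) (Dfn.imp h1.not hg.graph)

theorem Dfn.all_fin {n : ℕ} {P : Fin n → Γ → Prop} (h : ∀ i, Dfn A M (P i)) :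
    Dfn A M (fun γ => ∀ i, P i γ) := by
  induction n with
  | zero => exact Dfn.true.congr fun γ _ => by simp
  | succ n ih =>
    refine (Dfn.and (h 0) (ih fun i => h i.succ)).congr fun γ _ => ?_
    rw [Fin.forall_fin_succ]

theorem Dfn.ex_fin {n : ℕ} {P : Fin n → Γ → Prop} (h : ∀ i, Dfn A M (P i)) :
    Dfn A M (fun γ => ∃ i, P i γ) :=
  (Dfn.all_fin (P := fun i γ => ¬ P i γ) fun i => (h i).not).not.congr fun γ _ => by
    push Not; rfl

theorem tup_zero (v : Fin 0 → V) : tup v = ∅ := by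
  rw [ZFSet.eq_empty]
  intro x hx
  obtain ⟨i, _⟩ := mem_tup.1 hx
  exact i.elim0

theorem tup_succ {n : ℕ} (v : Fin (n + 1) → V) :
    tup v = insert (ZFSet.pair (nn n) (v (Fin.last n))) (tup (fun i : Fin n => v i.castSucc)) := by
  ext x
  rw [mem_tup, ZFSet.mem_insert_iff, mem_tup]
  constructor
  · rintro ⟨i, rfl⟩
    refine Fin.lastCases ?_ (fun i => ?_) i
    · exact Or.inl rfl
    · exact Or.inr ⟨i, rfl⟩
  · rintro (rfl | ⟨i, rfl⟩)
    · exact ⟨Fin.last n, rfl⟩
    · exact ⟨i.castSucc, rfl⟩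

theorem num_of_notMem {x : V} (h : x ∉ (ZFSet.omega : V)) : num x = 0 := by
  unfold num
  rw [dif_neg]
  rintro ⟨n, rfl⟩
  exact h (nn_mem_omega n)

theorem sUnion_nn_succ (n : ℕ) : (ZFSet.sUnion (nn (n + 1)) : V) = nn n := by
  ext x
  rw [ZFSet.mem_sUnion]
  constructor
  · rintro ⟨y, hy, hx⟩
    obtain ⟨m, hm, rfl⟩ := mem_nn.1 hy
    exact nn_sub_nn.2 (Nat.lt_succ_iff.1 hm) hx
  · intro hx
    exact ⟨nn n, nn_mem_nn.2 (Nat.lt_succ_self n), hx⟩

theorem mem_FinP {a x : V} : x ∈ FinP a ↔ x ⊆ a ∧ {y | y ∈ x}.Finite := by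
  unfold FinP
  rw [ZFSet.mem_sep, ZFSet.mem_powerset]

variable [ZFm M]

theorem Dfn.isFn {f : Γ → V} (hf : DMap A M f) : Dfn A M (fun γ => IsFn (f γ)) := by
  have h : Dfn A M (fun x : V => IsFn x) := (D0.isFn Prj.id).dfn
  exact h.comp hf

theorem Dfn.isInjF {f : Γ → V} (hf : DMap A M f) : Dfn A M (fun γ => IsInjF (f γ)) := by
  have h : Dfn A M (fun x : V => IsInjF x) := by
    unfold IsInjF
    apply_rules (transparency := .reducible) (maxDepth := 999) only using is_poly
  exact h.comp hf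

theorem Dfn.isMap {f g h : Γ → V} (hf : DMap A M f) (hg : DMap A M g) (hh : DMap A M h) :
    Dfn A M (fun γ => IsMap (f γ) (g γ) (h γ)) := by
  have h : Dfn A M (fun p : (V × V) × V => IsMap p.1.1 p.1.2 p.2) := by
    unfold IsMap
    apply_rules (transparency := .reducible) (maxDepth := 999) only [Dfn.isFn] using is_poly
  exact h.comp ((hf.prodMk hg).prodMk hh)

theorem nn_mem (n : ℕ) : nn n ∈ M := TrC.trans ZFm.omega_mem (nn_mem_omega n)

theorem DMap.nn (n : ℕ) : DMap A M (fun _ : Γ => CTM.nn n) := by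
  induction n with
  | zero => exact DMap.empty
  | succ n ih => exact DMap.insert ih ih

theorem DMap.omega : DMap A M (fun _ : Γ => (ZFSet.omega : V)) := by
  refine DMap.of_graph (fun _ _ => ZFm.omega_mem) ?_
  have h : Dfn A M (fun x : V => x = ZFSet.omega) := (D0.isOmega Prj.id).dfn
  exact h.comp (DMap.snd DMap.id)

/-- The graph of a definable function on a set. -/
theorem DMap.gr {a : Γ → V} {F : Γ → V → V} (ha : DMap A M a)
    (h : DMap A M (fun p : Γ × V => F p.1 p.2)) : DMap A M (fun γ => gr (F γ) (a γ)) := by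
  unfold CTM.gr
  exact DMap.rep ha (DMap.pair (DMap.snd DMap.id) h)

/-- Iteration of a definable function. -/
theorem DMap.iter {G : Γ → V → V} {x k : Γ → V} (hG : DMap A M (fun p : Γ × V => G p.1 p.2))
    (hx : DMap A M x) (hk : DMap A M k) : DMap A M (fun γ => (G γ)^[num (k γ)] (x γ)) := by
  classical
  have hG' : ∀ {Δ : Type 1} [Ctx Δ] {c : Δ → Γ} {f : Δ → V}, DMap A M c → DMap A M f →
      DMap A M (fun δ => G (c δ) (f δ)) := fun hc hf => hG.comp (hc.prodMk hf)
  have hx' : ∀ {Δ : Type 1} [Ctx Δ] {c : Δ → Γ}, DMap A M c → DMap A M (fun δ => x (c δ)) :=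
    fun hc => hx.comp hc
  have key : DMap A M (fun p : Γ × V => (G p.1)^[num p.2] (x p.1)) := by
    refine DMap.recΓ (D := fun _ n => n) (F := fun γ n => (G γ)^[num n] (x γ))
      (H := fun γ n g => if n ∈ (ZFSet.omega : V) ∧ ¬ n = ∅ then G γ (CTM.app g (ZFSet.sUnion n))
        else x γ) (DMap.snd DMap.id) ?_ ?_ (· ∈ ·) ZFSet.mem_wf (fun _ _ _ _ _ h => h)
    · refine DMap.ite ?_ ?_ ?_
      · apply_rules (transparency := .reducible) (maxDepth := 999) only [DMap.omega] using is_poly
      · apply_rules (transparency := .reducible) (maxDepth := 999) only [hG'] using is_poly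
      · exact hx' (DMap.fst (DMap.fst DMap.id))
    · intro γ _ n _
      by_cases hn : n ∈ (ZFSet.omega : V)
      · obtain ⟨m, rfl⟩ := mem_omega.1 hn
        cases m with
        | zero =>
          rw [if_neg (fun h => h.2 rfl), num_nn]
          rfl
        | succ m =>
          have hne : ¬ CTM.nn (m + 1) = ∅ := by
            intro h
            have h1 : CTM.nn m ∈ CTM.nn (m + 1) := nn_mem_nn.2 (Nat.lt_succ_self m)
            rw [h] at h1
            exact ZFSet.notMem_empty _ h1
          rw [if_pos ⟨hn, hne⟩, num_nn, sUnion_nn_succ,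
            app_gr (nn_mem_nn.2 (Nat.lt_succ_self m)), num_nn, Function.iterate_succ_apply']
      · rw [if_neg (fun h => hn h.1), num_of_notMem hn]
        rfl
  exact key.comp (DMap.prodMk DMap.id hk)

theorem DMap.tup {n : ℕ} {v : Fin n → Γ → V} (h : ∀ i, DMap A M (v i)) :
    DMap A M (fun γ => CTM.tup (fun i => v i γ)) := by
  induction n with
  | zero => exact DMap.empty.congr fun γ _ => (tup_zero _).symm
  | succ n ih =>
    refine DMap.congr' (fun γ _ => tup_succ _) ?_
    exact DMap.insert (DMap.pair (DMap.nn n) (h _)) (ih fun i => h _)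

attribute [is_poly] Dfn.isTransitive Dfn.isOrdinal DMap.ite Dfn.all_fin Dfn.ex_fin
attribute [is_poly] Dfn.isFn Dfn.isInjF Dfn.isMap DMap.nn DMap.omega DMap.gr DMap.iter DMap.tup

end

end Pool.Agent.CTM
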