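import Pool.Agent.CTM.HierZF

/-!
Ranks, finite subsets and tuples in transitive models of ZF without power set.
Auxiliary: `Nat3.dmap_omega`, `exists_of_finset`.
-/

set_option autoImplicit false

namespace Pool.Agent.CTM

/-! ### Ranks -/

theorem rk_mem_ord (x : V) : (rk x).IsOrdinal := ZFSet.isOrdinal_toZFSet _

theorem mem_rk_iff {x a : V} : a ∈ rk x ↔ ∃ y ∈ x, a ∈ rk y ∨ a = rk y := by
  unfold rk
  rw [Ordinal.mem_toZFSet_iff]
  constructor
  · rintro ⟨o, ho, rfl⟩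
    obtain ⟨y, hy, hoy⟩ := ZFSet.lt_rank_iff.1 ho
    refine ⟨y, hy, ?_⟩
    rcases hoy.lt_or_eq with h | h
    · exact Or.inl (Ordinal.toZFSet_mem_toZFSet_iff.2 h)
    · exact Or.inr (by rw [h])
  · rintro ⟨y, hy, h | rfl⟩
    · obtain ⟨o, ho, rfl⟩ := Ordinal.mem_toZFSet_iff.1 h
      exact ⟨o, ho.trans (ZFSet.rank_lt_of_mem hy), rfl⟩
    · exact ⟨_, ZFSet.rank_lt_of_mem hy, rfl⟩

theorem rk_eq (x : V) : rk x = ZFSet.sUnion (rep x (fun y => insert (rk y) (rk y))) := by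
  ext a
  rw [mem_rk_iff, ZFSet.mem_sUnion]
  constructor
  · rintro ⟨y, hy, h⟩
    exact ⟨_, mem_rep.2 ⟨y, hy, rfl⟩, ZFSet.mem_insert_iff.2 h.symm⟩
  · rintro ⟨z, hz, ha⟩
    obtain ⟨y, hy, rfl⟩ := mem_rep.1 hz
    exact ⟨y, hy, (ZFSet.mem_insert_iff.1 ha).symm⟩

theorem rk_ord {a : V} (h : a.IsOrdinal) : rk a = a := h.toZFSet_rank_eq

section

variable {Γ : Type 1} [Ctx Γ] {A M : Set V} [ZFm M]

theorem DMap.rk {f : Γ → V} (hf : DMap A M f) : DMap A M (fun γ => rk (f γ)) := by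
  have h : DMap A M (fun x : V => CTM.rk x) := by
    refine DMap.recMem (H := fun _ g => ZFSet.sUnion (CTM.rep (CTM.ran g) fun r => Insert.insert r r))
      (by apply_rules (transparency := .reducible) (maxDepth := 999) only using is_poly) fun x _ => ?_
    rw [rk_eq, ran_gr]
    congr 1
    ext z
    rw [mem_rep, mem_rep]
    constructor
    · rintro ⟨y, hy, rfl⟩
      exact ⟨_, mem_rep.2 ⟨y, hy, rfl⟩, rfl⟩
    · rintro ⟨r, hr, rfl⟩
      obtain ⟨y, hy, rfl⟩ := mem_rep.1 hr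
      exact ⟨y, hy, rfl⟩
  exact h.comp hf

/-! ### Finite sets and tuples -/

omit [ZFm M] in
theorem exists_of_finset (s : Finset V) : ∃ x : V, ∀ y, y ∈ x ↔ y ∈ s := by
  classical
  induction s using Finset.induction_on with
  | empty => exact ⟨∅, fun y => by simp⟩
  | insert b s _ ih =>
    obtain ⟨x, hx⟩ := ih
    exact ⟨insert b x, fun y => by rw [ZFSet.mem_insert_iff, hx, Finset.mem_insert]⟩

theorem fin_mem {x : V} (h : ∀ y ∈ x, y ∈ M) (h' : {y | y ∈ x}.Finite) : x ∈ M := by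
  classical
  have key : ∀ s : Finset V, (∀ y ∈ s, y ∈ M) → ∃ z ∈ M, ∀ y, y ∈ z ↔ y ∈ s := by
    intro s
    induction s using Finset.induction_on with
    | empty => exact fun _ => ⟨∅, ZFm.empty_mem, fun y => by simp⟩
    | insert b s _ ih =>
      intro hs
      obtain ⟨z, hz, hz'⟩ := ih fun y hy => hs y (Finset.mem_insert_of_mem hy)
      refine ⟨insert b z, ?_, fun y => by rw [ZFSet.mem_insert_iff, hz', Finset.mem_insert]⟩
      exact (DMap.insert (A := M) (M := M) (DMap.fst DMap.id) (DMap.snd DMap.id)).mem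
        (γ := ((b, z) : V × V))
        (inM_prod.2 ⟨inM_V.2 (hs b (Finset.mem_insert_self _ _)), hz⟩)
  obtain ⟨z, hz, hz'⟩ := key h'.toFinset fun y hy => h y (by simpa using hy)
  have : x = z := by
    ext y
    rw [hz']
    simp
  rwa [this]

theorem tup_mem {n : ℕ} {v : Fin n → V} : tup v ∈ M ↔ ∀ i, v i ∈ M := by
  have hm : ∀ x : V, x ∈ tup v ↔ ∃ i : Fin n, ZFSet.pair (nn i) (v i) = x := fun x => by
    unfold tup
    rw [ZFSet.mem_range]
  have hn : ∀ k : ℕ, nn k ∈ M := by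
    intro k
    induction k with
    | zero => exact ZFm.empty_mem
    | succ k ih =>
      exact (DMap.insert (A := M) (M := M) (DMap.fst DMap.id) (DMap.snd DMap.id)).mem
        (γ := ((nn k, nn k) : V × V)) (inM_prod.2 ⟨inM_V.2 ih, ih⟩)
  constructor
  · intro h i
    exact (pair_mem_iff.1 (TrC.trans h ((hm _).2 ⟨i, rfl⟩))).2
  · intro h
    refine fin_mem (fun y hy => ?_) ?_
    · obtain ⟨i, rfl⟩ := (hm y).1 hy
      exact pair_mem_iff.2 ⟨hn _, h i⟩
    · refine (Set.finite_range fun i : Fin n => ZFSet.pair (nn i) (v i)).subset fun y hy => ?_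
      exact (hm y).1 hy

/-! ### The set of the finite subsets -/

namespace Nat3

/-- Auxiliary hierarchy of finite subsets of `a`. -/
noncomputable def Gf (a x : V) : V :=
  insert ∅ (ZFSet.sUnion (rep x (fun y => open Classical in if _h : y ∈ x then
    Gf a y ∪ ZFSet.sUnion (rep a fun b => rep (Gf a y) fun s => insert b s) else ∅)))
termination_by ZFSet.rank x
decreasing_by all_goals exact ZFSet.rank_lt_of_mem _h

/-- The step. -/
noncomputable def stp (a s : V) : V := s ∪ ZFSet.sUnion (rep a fun b => rep s fun t => insert b t)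

omit [ZFm M] in
theorem mem_stp {a s x : V} : x ∈ stp a s ↔ x ∈ s ∨ ∃ b ∈ a, ∃ t ∈ s, insert b t = x := by
  unfold stp
  rw [ZFSet.mem_union, ZFSet.mem_sUnion]
  refine or_congr Iff.rfl ?_
  constructor
  · rintro ⟨z, hz, hx⟩
    obtain ⟨b, hb, rfl⟩ := mem_rep.1 hz
    obtain ⟨t, ht, rfl⟩ := mem_rep.1 hx
    exact ⟨b, hb, t, ht, rfl⟩
  · rintro ⟨b, hb, t, ht, rfl⟩
    exact ⟨_, mem_rep.2 ⟨b, hb, rfl⟩, mem_rep.2 ⟨t, ht, rfl⟩⟩

omit [ZFm M] in
theorem Gf_eq (a x : V) : Gf a x = insert ∅ (ZFSet.sUnion (rep x fun y => stp a (Gf a y))) := by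
  rw [Gf]
  congr 2
  ext z
  rw [mem_rep, mem_rep]
  constructor
  · rintro ⟨y, hy, rfl⟩
    exact ⟨y, hy, by rw [dif_pos hy]; rfl⟩
  · rintro ⟨y, hy, rfl⟩
    exact ⟨y, hy, by rw [dif_pos hy]; rfl⟩

omit [ZFm M] in
theorem mem_Gf {a x z : V} : z ∈ Gf a x ↔ z = ∅ ∨ ∃ y ∈ x, z ∈ stp a (Gf a y) := by
  rw [Gf_eq, ZFSet.mem_insert_iff, ZFSet.mem_sUnion]
  refine or_congr Iff.rfl ?_
  constructor
  · rintro ⟨w, hw, hz⟩
    obtain ⟨y, hy, rfl⟩ := mem_rep.1 hw
    exact ⟨y, hy, hz⟩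
  · rintro ⟨y, hy, hz⟩
    exact ⟨_, mem_rep.2 ⟨y, hy, rfl⟩, hz⟩

omit [ZFm M] in
theorem Gf_fin {a : V} (x : V) : ∀ z ∈ Gf a x, z ⊆ a ∧ {y | y ∈ z}.Finite := by
  induction x using ZFSet.inductionOn with
  | _ x ih =>
  intro z hz
  rcases mem_Gf.1 hz with rfl | ⟨y, hy, hz⟩
  · refine ⟨fun y hy => absurd hy (ZFSet.notMem_empty y), ?_⟩
    have : {y | y ∈ (∅ : V)} = ∅ := by
      ext y
      simp
    rw [this]
    exact Set.finite_empty
  · rcases mem_stp.1 hz with hz | ⟨b, hb, t, ht, rfl⟩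
    · exact ih y hy z hz
    · obtain ⟨h1, h2⟩ := ih y hy t ht
      refine ⟨fun w hw => ?_, ?_⟩
      · rcases ZFSet.mem_insert_iff.1 hw with rfl | hw
        · exact hb
        · exact h1 hw
      · have : {y | y ∈ (insert b t : V)} = insert b {y | y ∈ t} := by
          ext y
          simp
        rw [this]
        exact h2.insert b

omit [ZFm M] in
theorem FinP_eq (a : V) : FinP a = Gf a ZFSet.omega := by
  classical
  have hom : ∀ n, nn n ∈ (ZFSet.omega : V) := by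
    intro n
    induction n with
    | zero => exact ZFSet.omega_zero
    | succ n ih => exact ZFSet.omega_succ ih
  ext x
  unfold FinP
  rw [ZFSet.mem_sep, ZFSet.mem_powerset]
  constructor
  · rintro ⟨h1, h2⟩
    have key : ∀ s : Finset V, (∀ y ∈ s, y ∈ a) → ∃ n : ℕ, ∃ z ∈ Gf a (nn n),
        ∀ y, y ∈ z ↔ y ∈ s := by
      intro s
      induction s using Finset.induction_on with
      | empty => exact fun _ => ⟨0, ∅, mem_Gf.2 (Or.inl rfl), fun y => by simp⟩
      | insert b s _ ih =>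
        intro hs
        obtain ⟨n, z, hz, hz'⟩ := ih fun y hy => hs y (Finset.mem_insert_of_mem hy)
        refine ⟨n + 1, insert b z, mem_Gf.2 (Or.inr ⟨nn n, by simp [nn], mem_stp.2 (Or.inr
          ⟨b, hs b (Finset.mem_insert_self _ _), z, hz, rfl⟩)⟩),
          fun y => by rw [ZFSet.mem_insert_iff, hz', Finset.mem_insert]⟩
    obtain ⟨n, z, hz, hz'⟩ := key h2.toFinset fun y hy => h1 (by simpa using hy)
    have : x = z := by
      ext y
      rw [hz']
      simp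
    rw [this]
    exact mem_Gf.2 (Or.inr ⟨nn n, hom n, mem_stp.2 (Or.inl hz)⟩)
  · exact Gf_fin _ x

theorem dmap_Gf : DMap A M (fun p : V × V => Gf p.1 p.2) := by
  refine DMap.recΓ (Γ := V) (D := fun _ x => x) (H := fun a _ g => (Insert.insert ∅ (ZFSet.sUnion
    (CTM.rep (CTM.ran g) fun s => s ∪ ZFSet.sUnion (CTM.rep a fun b => CTM.rep s fun t =>
      Insert.insert b t))) : V)) (F := Gf) (DMap.snd DMap.id) (by
    apply_rules (transparency := .reducible) (maxDepth := 999) only using is_poly)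
    (fun a _ x _ => ?_) (· ∈ ·) ZFSet.mem_wf (fun _ _ _ _ _ h => h)
  rw [Gf_eq, ran_gr]
  congr 2
  ext z
  rw [mem_rep, mem_rep]
  constructor
  · rintro ⟨y, hy, rfl⟩
    exact ⟨_, mem_rep.2 ⟨y, hy, rfl⟩, rfl⟩
  · rintro ⟨s, hs, rfl⟩
    obtain ⟨y, hy, rfl⟩ := mem_rep.1 hs
    exact ⟨y, hy, rfl⟩

theorem dmap_omega : DMap A M (fun _ : Γ => (ZFSet.omega : V)) := by
  refine DMap.of_graph (fun _ _ => ZFm.omega_mem) ?_
  have h : D0 (fun p : V × V => IsNat p.2) := D0.isNat (Prj.snd Prj.id)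
  have h' : Dfn A M (fun p : V × V => IsNat p.2) := h.dfn
  have h1 : Dfn A M (fun x : V => (∀ n ∈ x, IsNat n) ∧ ∀ n ∈ M, IsNat n → n ∈ x) :=
    Dfn.and (Dfn.all_mem DMap.id h') (Dfn.all (P := fun x n => IsNat n → n ∈ x)
      (Dfn.imp h' (Dfn.mem (DMap.snd DMap.id) (DMap.fst DMap.id))))
  refine (h1.comp (DMap.snd DMap.id : DMap A M (fun p : Γ × V => p.2))).congr' fun p _ => ?_
  constructor
  · intro e
    rw [e]
    exact ⟨fun n hn => isNat_iff.2 hn, fun n _ hn => isNat_iff.1 hn⟩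
  · rintro ⟨h2, h3⟩
    ext n
    constructor
    · exact fun hn => isNat_iff.1 (h2 n hn)
    · exact fun hn => h3 n (TrC.trans ZFm.omega_mem hn) (isNat_iff.2 hn)

end Nat3

theorem DMap.FinP {f : Γ → V} (hf : DMap A M f) : DMap A M (fun γ => FinP (f γ)) := by
  have h : DMap A M (fun γ => Nat3.Gf (f γ) ZFSet.omega) :=
    Nat3.dmap_Gf.comp (hf.prodMk Nat3.dmap_omega)
  exact h.congr fun γ _ => (Nat3.FinP_eq (f γ)).symm

end

end Pool.Agent.CTM
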