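import Pool.Agent.CTM.Nat1
import Pool.Agent.CTM.Nat2
import Pool.Agent.CTM.Nat3

/-!
Natural numbers, ordinals, finite sets, ranks and recursion on `ω` in models of ZF without power set.
-/

set_option autoImplicit false

namespace Pool.Agent.CTM

attribute [is_poly] DMap.rk DMap.FinP

end Pool.Agent.CTM
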