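import Pool.Agent.CTM.Defs

/-!
Second-order arithmetic: the two-sorted language, satisfaction over a set of reals, definability
and countability statements for MP_ea2134_lc.
-/

set_option autoImplicit false

namespace Pool.Agent.CTM

/-- Terms for natural numbers, with variables among the first `n`. -/
inductive NT (n : ℕ) : Type
  | var (i : Fin n) : NT n
  | zero : NT n
  | one : NT n
  | add (s t : NT n) : NT n
  | mul (s t : NT n) : NT n

/-- The value of a term. -/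
def NT.val {n : ℕ} (a : Fin n → ℕ) : NT n → ℕ
  | .var i => a i
  | .zero => 0
  | .one => 1
  | .add s t => s.val a + t.val a
  | .mul s t => s.val a * t.val a

/-- Formulas of second-order arithmetic (language `+, ·, <, ∈, 0, 1`, equality of numbers), with
number variables among the first `n` and set variables among the first `k`. -/
inductive L2 : ℕ → ℕ → Type
  | eq {n k : ℕ} (s t : NT n) : L2 n k
  | lt {n k : ℕ} (s t : NT n) : L2 n k
  | mem {n k : ℕ} (s : NT n) (j : Fin k) : L2 n k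
  | neg {n k : ℕ} (φ : L2 n k) : L2 n k
  | and {n k : ℕ} (φ ψ : L2 n k) : L2 n k
  | allN {n k : ℕ} (φ : L2 (n + 1) k) : L2 n k
  | allS {n k : ℕ} (φ : L2 n (k + 1)) : L2 n k

/-- Satisfaction: number variables range over the natural numbers, set variables over `R`. -/
def L2.Sat (R : Set (Set ℕ)) : ∀ {n k : ℕ}, L2 n k → (Fin n → ℕ) → (Fin k → Set ℕ) → Prop
  | _, _, .eq s t, a, _ => s.val a = t.val a
  | _, _, .lt s t, a, _ => s.val a < t.val a
  | _, _, .mem s j, a, X => s.val a ∈ X j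
  | _, _, .neg φ, a, X => ¬ φ.Sat R a X
  | _, _, .and φ ψ, a, X => φ.Sat R a X ∧ ψ.Sat R a X
  | _, _, .allN φ, a, X => ∀ m : ℕ, φ.Sat R (Fin.snoc a m) X
  | _, _, .allS φ, a, X => ∀ Y ∈ R, φ.Sat R a (Fin.snoc X Y)

/-- The reals of `N`, as sets of natural numbers. -/
def RN (N : Set V) : Set (Set ℕ) := {x | toZ x ∈ N}

/-- **Module SO1.** Satisfaction of formulas of second-order arithmetic over the reals of `N` is
definable in `N`. -/
def Stmt_so1 : Prop :=
  ∀ (N : Set V) [ZFm N] (n k : ℕ) (φ : L2 n k),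
    DP ∅ N (n + k) (fun v => ∃ (a : Fin n → ℕ) (X : Fin k → Set ℕ),
      (∀ i, v (Fin.castAdd k i) = nn (a i)) ∧ (∀ j, v (Fin.natAdd n j) = toZ (X j)) ∧
      φ.Sat (RN N) a X)

/-- **Module SO2.** If everything is countable in `N` then a parameter-free definable relation
between reals of `N` is definable in second-order arithmetic over the reals of `N`. -/
def Stmt_so2 : Prop :=
  ∀ (N : Set V) [ZFm N], (∀ x ∈ N, ∃ f ∈ N, IsFn f ∧ dom f = ZFSet.omega ∧ x ⊆ ran f) →
    ∀ (k : ℕ) (P : (Fin k → V) → Prop), DP ∅ N k P →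
    ∃ φ : L2 0 k, ∀ X : Fin k → Set ℕ, (∀ j, X j ∈ RN N) →
      (φ.Sat (RN N) Fin.elim0 X ↔ P (fun j => toZ (X j)))

/-- The set of the reals of `N`. -/
noncomputable def RZ (N : Set V) : V := ZFSet.sep (fun x => x ∈ N) (ZFSet.powerset ZFSet.omega)

/-- **Module FAM.** A countable family of sets contains all parameter-free definable subsets of
a given set `U`. -/
def Stmt_family : Prop :=
  ∀ (N : Set V) [ZFCm N], ∀ U ∈ N, ∃ D ∈ N, Cbl N D ∧
    ∀ P : V → Prop, Dfn ∅ {x | x ∈ U} P → ZFSet.sep P U ∈ D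

/-- **Module TYP.** Given distinct reals `c i` (`i ∈ I`) and a surjection of `I` onto the reals, and
a countable family `D` of sets, some `c i` is in no element of `D` that is smaller than the
continuum. -/
def Stmt_typical : Prop :=
  ∀ (N : Set V) [ZFCm N], ∀ I ∈ N, ∀ c ∈ N, IsMap c I (RZ N) → IsInjF c →
    (∃ s ∈ N, IsFn s ∧ dom s = I ∧ RZ N ⊆ ran s) → ∀ D ∈ N, Cbl N D →
    ∃ i ∈ I, ∀ d ∈ D, app c i ∈ d → ∃ f ∈ N, IsMap f (RZ N) d ∧ IsInjF f

/-- **Module SML.** An injection `B → A` in `M[G]` gives in `M` a surjection of `A × ω` onto `B`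
(uses the covering property). -/
def Stmt_small : Prop :=
  ∀ (M N : Set V) [ZFCm M] [ZFCm N], M ⊆ N →
    (∀ f ∈ N, ∀ Z ∈ M, ∀ Z' ∈ M, IsMap f Z Z' →
      ∃ F ∈ M, IsFn F ∧ dom F = Z ∧ ∀ z ∈ Z, app F z ⊆ Z' ∧ Cbl M (app F z) ∧
        app f z ∈ app F z) →
    ∀ A ∈ M, ∀ B ∈ M, ∀ f ∈ N, IsMap f B A → IsInjF f →
    ∃ g ∈ M, IsFn g ∧ dom g = ZFSet.prod A ZFSet.omega ∧ B ⊆ ran g

/-- **Module CAN.** The set `I` of all sets of rank less than `w = ω₁` is larger than every set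
of sets of bounded rank below `w`. -/
def Stmt_cantor : Prop :=
  ∀ (M : Set V) [ZFCm M] (w I : V), w ∈ M → w.IsOrdinal →
    (∀ a, a ∈ w ↔ a ∈ M ∧ a.IsOrdinal ∧ Cbl M a) → I ∈ M → (∀ x, x ∈ I ↔ x ∈ M ∧ rk x ∈ w) →
    ∀ b ∈ w, ∀ A ∈ M, (∀ x ∈ A, rk x ∈ b) →
    ¬ ∃ g ∈ M, IsFn g ∧ dom g = ZFSet.prod A ZFSet.omega ∧ I ⊆ ran g

end Pool.Agent.CTM
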