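import Pool.Agent.CTM.Defs

/-!
Statement of the constructible part (MP_ea2134_lc).
-/

set_option autoImplicit false

namespace Pool.Agent.CTM

/-- **Part L.** There is an enumeration `Lx` of a class of sets by ordinals, definable in all
transitive models of ZF without power set, and a countable transitive model `M` of ZFC in which the
hereditarily countable sets are exactly the `Lx a`, where `a` is an ordinal that is countable
in `M`. (That `Lx a ∈ HC M` for `a ∈ HC M` follows from `DMap ∅ (HC M) Lx`.) -/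
def Stmt_L : Prop :=
  ∃ Lx : V → V, (∀ (N : Set V) [ZFm N], DMap ∅ N Lx) ∧
    ∃ M : Set V, M.Countable ∧ ZFCm M ∧ ∀ x ∈ HC M, ∃ a ∈ HC M, a.IsOrdinal ∧ x = Lx a

/-- **Module HCM.** In a model of ZFC the class of hereditarily countable sets is a set, and it is
a model of ZF without power set in which everything is countable. -/
def Stmt_HC : Prop :=
  ∀ (M : Set V) [ZFCm M], ZFm (HC M) ∧ (∃ h ∈ M, ∀ x, x ∈ h ↔ x ∈ HC M) ∧
    (∀ x ∈ HC M, ∃ f ∈ HC M, IsFn f ∧ dom f = ZFSet.omega ∧ x ⊆ ran f) ∧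
    (∀ x ⊆ ZFSet.omega, x ∈ HC M ↔ x ∈ M) ∧
    (∀ x ∈ M, (∀ y ∈ x, y ∈ HC M) → Cbl M x → x ∈ HC M)

end Pool.Agent.CTM
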