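import Pool.Agent.CTM.StmtsF
import Pool.Agent.CTM.StmtsL
import Pool.Agent.CTM.PosDefs
import Pool.Agent.CTM.SOADefs
import Pool.Agent.CTM.Nat

/-!
Assembly of the construction of MP_ea2134_lc, first part: smallness arguments.
-/

set_option autoImplicit false

namespace Pool.Agent.CTM

/-- `D` is smaller than the continuum in `N`: no injection of the reals of `N` into `D`
belongs to `N`. -/
def SmallIn (N : Set V) (D : Set (Set ℕ)) : Prop :=
  ¬ ∃ f ∈ N, IsFn f ∧ dom f = RZ N ∧ IsInjF f ∧ ∀ x ∈ RN N, ∃ y ∈ D, app f (toZ x) = toZ y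

/-- In `N`, the real `a` is not `b`-typical. -/
def NonTypical (N : Set V) {k : ℕ} (b : Fin k → Set ℕ) (a : Set ℕ) : Prop :=
  ∃ φ : L2 0 (k + 1), φ.Sat (RN N) Fin.elim0 (Fin.snoc b a) ∧
    SmallIn N {x | x ∈ RN N ∧ φ.Sat (RN N) Fin.elim0 (Fin.snoc b x)}

theorem mem_RZ {N : Set V} {x : V} : x ∈ RZ N ↔ x ∈ N ∧ x ⊆ ZFSet.omega := by
  unfold RZ
  rw [ZFSet.mem_sep, ZFSet.mem_powerset]
  exact and_comm

theorem RZ_mem (N : Set V) [ZFCm N] : RZ N ∈ N := ZFCm.power_mem ZFm.omega_mem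

theorem gr_mem_of {A N : Set V} [ZFm N] {F : V → V} (h : DMap A N F) {a : V} (ha : a ∈ N) :
    gr F a ∈ N := by
  have h1 : DMap (A ∪ N) N (fun _ : V => gr F a) := DMap.gr (Γ := V)
    (a := fun _ => a) (F := fun _ => F) (DMap.const (Or.inr ha) ha)
    ((h.mono Set.subset_union_left).comp (DMap.snd DMap.id))
  exact h1.mem (γ := (∅ : V)) (inM_V.2 ZFm.empty_mem)

theorem no_inj {M N : Set V} [ZFCm M] [ZFCm N] (hMN : M ⊆ N)
    (hcv : ∀ f ∈ N, ∀ Z ∈ M, ∀ Z' ∈ M, IsMap f Z Z' →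
      ∃ F ∈ M, IsFn F ∧ dom F = Z ∧ ∀ z ∈ Z, app F z ⊆ Z' ∧ Cbl M (app F z) ∧
        app f z ∈ app F z)
    (hsml : Stmt_small) (hcan : Stmt_cantor) {w I e : V} {Kap : V → V → Prop}
    (S : Setup M w I e Kap) {c : V} (hc : c ∈ N) (hcm : IsMap c I (RZ N)) (hci : IsInjF c)
    {A : V} (hA : A ∈ M) {b : V} (hb : b ∈ w) (hAb : ∀ x ∈ A, rk x ∈ b) {k : V} (hk : k ∈ N)
    (hkd : dom k = A) (hki : IsInjF k) {f : V} (hf : f ∈ N)
    (hfd : dom f = RZ N) (hfi : IsInjF f) (hfk : ∀ x ∈ RZ N, ∃ y ∈ A, app k y = app f x) :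
    False := by
  have hI : I ∈ N := hMN S.I_mem
  have hAN : A ∈ N := hMN hA
  set h : V := ZFSet.sep (fun p => ∃ i ∈ I, ∃ y ∈ A, p = ZFSet.pair i y ∧
    app k y = app f (app c i)) (ZFSet.prod I A) with hh
  have hpN : ZFSet.prod I A ∈ N := by
    have : DMap N N (fun p : V × V => ZFSet.prod p.1 p.2) :=
      DMap.prod (DMap.fst DMap.id) (DMap.snd DMap.id)
    exact this.mem (γ := (I, A)) (inM_prod.2 ⟨inM_V.2 hI, hAN⟩)
  have hmem : ∀ i y, ZFSet.pair i y ∈ h ↔ i ∈ I ∧ y ∈ A ∧ app k y = app f (app c i) := by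
    intro i y
    rw [hh, ZFSet.mem_sep, ZFSet.pair_mem_prod]
    constructor
    · rintro ⟨_, i', hi, y', hy, e, h1⟩
      obtain ⟨rfl, rfl⟩ := ZFSet.pair_injective e
      exact ⟨hi, hy, h1⟩
    · rintro ⟨hi, hy, h1⟩
      exact ⟨⟨hi, hy⟩, i, hi, y, hy, rfl, h1⟩
  have hhN : h ∈ N := by
    refine ZFm.sep_mem' (A := N) ?_ hpN
    apply_rules (transparency := .reducible) (maxDepth := 999) only
      [DMap.const hI hI, DMap.const hAN hAN, DMap.const hk hk, DMap.const hf hf,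
        DMap.const hc hc] using is_poly
  have hfn : IsFn h := by
    refine ⟨fun p hp => ?_, fun i y y' h1 h2 => ?_⟩
    · rw [hh, ZFSet.mem_sep] at hp
      obtain ⟨_, i, _, y, _, e, _⟩ := hp
      exact ⟨i, y, e⟩
    · obtain ⟨_, hy, h3⟩ := (hmem _ _).1 h1
      obtain ⟨_, hy', h4⟩ := (hmem _ _).1 h2
      exact hki y (hkd ▸ hy) y' (hkd ▸ hy') (h3.trans h4.symm)
  have hdom : dom h = I := by
    ext i
    rw [mem_dom]
    constructor
    · rintro ⟨y, hy⟩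
      exact ((hmem _ _).1 hy).1
    · intro hi
      obtain ⟨y, hy, h1⟩ := hfk _ (hcm.2.2 i hi)
      exact ⟨y, (hmem _ _).2 ⟨hi, hy, h1⟩⟩
  have happ : ∀ i ∈ I, app h i ∈ A ∧ app k (app h i) = app f (app c i) := by
    intro i hi
    have := hfn.pair_app (x := i) (hdom ▸ hi)
    exact ((hmem _ _).1 this).2
  have hmap : IsMap h I A := ⟨hfn, hdom, fun i hi => (happ i hi).1⟩
  have hinj : IsInjF h := by
    intro i hi j hj e
    rw [hdom] at hi hj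
    have h1 := (happ i hi).2
    have h2 := (happ j hj).2
    rw [e, h2] at h1
    have h3 := hfi _ (hfd ▸ hcm.2.2 j hj) _ (hfd ▸ hcm.2.2 i hi) h1
    exact (hci j (hcm.2.1 ▸ hj) i (hcm.2.1 ▸ hi) h3).symm
  obtain ⟨g, hg, h1, h2, h3⟩ := hsml M N hMN hcv A hA I S.I_mem h hhN hmap hinj
  exact hcan M w I S.w_mem S.w_ord S.w_iff S.I_mem S.I_iff b hb A hA hAb ⟨g, hg, h1, h2, h3⟩

end Pool.Agent.CTM
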