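import Pool.Agent.CTM.MainA

/-!
Assembly of the construction of MP_ea2134_lc, second part.
-/

set_option autoImplicit false

namespace Pool.Agent.CTM

theorem Cbl.lift {M N : Set V} (hMN : M ⊆ N) {x : V} (h : Cbl M x) : Cbl N x := by
  obtain ⟨f, hf, h⟩ := h
  exact ⟨f, hMN hf, h⟩

theorem HC_lift {M N : Set V} (hMN : M ⊆ N) {x : V} (h : x ∈ HC M) : x ∈ HC N := by
  obtain ⟨t, ht, h1, h2, h3⟩ := h
  exact ⟨t, hMN ht, h1, h2, h3.lift hMN⟩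

theorem HC_sub' {M : Set V} [TrC M] {x : V} (h : x ∈ HC M) : x ∈ M := by
  obtain ⟨t, ht, _, h2, _⟩ := h
  exact TrC.trans ht h2

theorem Cbl.mono' {M : Set V} {x y : V} (h : Cbl M y) (hxy : x ⊆ y) : Cbl M x := by
  obtain ⟨f, hf, h1, h2, h3⟩ := h
  exact ⟨f, hf, h1, h2, fun z hz => h3 (hxy hz)⟩

theorem HC_cbl {M : Set V} {x : V} (h : x ∈ HC M) : Cbl M x := by
  obtain ⟨t, _, h1, h2, h3⟩ := h
  exact h3.mono' (h1 x h2)

/-- The ordinals of `HC N` are those of `HC M`. -/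
theorem HC_ord {M N : Set V} [ZFCm M] [ZFCm N] (hMN : M ⊆ N)
    (hM : ∀ x ∈ M, (∀ y ∈ x, y ∈ HC M) → Cbl M x → x ∈ HC M)
    (hord : ∀ a ∈ N, a.IsOrdinal → a ∈ M)
    (hom : ∀ a ∈ M, a.IsOrdinal → Cbl N a → Cbl M a) (a : V) (ha : a.IsOrdinal) :
    a ∈ HC N ↔ a ∈ HC M := by
  refine ⟨?_, HC_lift hMN⟩
  induction a using ZFSet.inductionOn with
  | _ a ih =>
    intro h
    have hN : a ∈ N := HC_sub' h
    have h1 : a ∈ M := hord a hN ha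
    obtain ⟨t, ht, ht1, ht2, ht3⟩ := h
    have h2 : Cbl M a := hom a h1 ha (ht3.mono' (ht1 a ht2))
    refine hM a h1 (fun y hy => ih y hy (ha.mem hy) ⟨t, ht, ht1, ht1 a ht2 hy, ht3⟩) h2

theorem RN_HC {N : Set V} (h : ∀ x ⊆ (ZFSet.omega : V), x ∈ HC N ↔ x ∈ N) :
    RN (HC N) = RN N := by
  ext x
  exact h _ (toZ_sub x)

theorem ex_toZ {N : Set V} {x : V} (h : x ⊆ ZFSet.omega) (h' : x ∈ N) : ∃ y ∈ RN N, x = toZ y := by
  obtain ⟨y, rfl⟩ := toZ_surj h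
  exact ⟨y, h', rfl⟩

end Pool.Agent.CTM
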