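import Pool.Agent.CTM.MainB

/-!
Assembly of the construction of MP_ea2134_lc, third part: the main theorem, from the statements of
the modules.
-/

set_option autoImplicit false

namespace Pool.Agent.CTM

/-- Properties of the data: ground model `M`, extension `N`, forcing notion `P`, generic `G`. -/
structure Sit (M N : Set V) (w I e P G : V) (Kap : V → V → Prop) (Lx : V → V) : Prop where
  S : Setup M w I e Kap
  cnt : N.Countable
  sub : M ⊆ N
  G_mem : G ∈ N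
  zM : ZFm (HC M)
  zN : ZFm (HC N)
  cN : ∀ x ∈ HC N, ∃ f ∈ HC N, IsFn f ∧ dom f = ZFSet.omega ∧ x ⊆ ran f
  rM : ∀ x ⊆ (ZFSet.omega : V), x ∈ HC M ↔ x ∈ M
  rN : ∀ x ⊆ (ZFSet.omega : V), x ∈ HC N ↔ x ∈ N
  clN : ∀ x ∈ N, (∀ y ∈ x, y ∈ HC N) → Cbl N x → x ∈ HC N
  hcset : ∃ h ∈ N, ∀ x, x ∈ h ↔ x ∈ HC N
  hord : ∀ a, a.IsOrdinal → (a ∈ HC N ↔ a ∈ HC M)
  hL : ∀ (N : Set V) [ZFm N], DMap ∅ N Lx
  hLM : ∀ x ∈ HC M, ∃ a ∈ HC M, a.IsOrdinal ∧ x = Lx a
  kN : Dfn ∅ (HC N) (fun p : V × V => Kap p.1 p.2)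
  cov : ∀ f ∈ N, ∀ Z ∈ M, ∀ Z' ∈ M, IsMap f Z Z' →
      ∃ F ∈ M, IsFn F ∧ dom F = Z ∧ ∀ z ∈ Z, app F z ⊆ Z' ∧ Cbl M (app F z) ∧
        app f z ∈ app F z
  nice : ∀ r ∈ N, r ⊆ ZFSet.omega → ∃ τ ∈ I, ∀ n ∈ (ZFSet.omega : V),
      n ∈ r ↔ ∃ p ∈ G, ZFSet.pair n p ∈ τ
  inj : ∀ i ∈ I, ∀ j ∈ I, cre G i = cre G j → i = j
  cod : ∀ i ∈ I, Codes Kap (lab e i) (cre G i) (dre G i)
  rig : ∀ c ∈ N, ∀ d ∈ N, c ⊆ ZFSet.omega → ∀ i₀ ∈ I, Codes Kap (lab e i₀) c d →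
      ∃ i ∈ I, lab e i = lab e i₀ ∧ c = cre G i

theorem exists_sit (hL : Stmt_L) (hHC : Stmt_HC) (hgen : Stmt_generic) (hext : Stmt_ext)
    (hcov : Stmt_cover) (hom : Stmt_omega1) (hnice : Stmt_nice) (hpos : Stmt_pos)
    (hgre : Stmt_greals) (hccc : Stmt_ccc) (hrig : Stmt_rigid) (hkap : Stmt_kap) :
    ∃ (M N : Set V) (w I e P G : V) (Kap : V → V → Prop) (Lx : V → V),
      ZFCm M ∧ ZFCm N ∧ Sit M N w I e P G Kap Lx := by
  obtain ⟨Lx, hLx, M, hMc, hM, hLM⟩ := hL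
  obtain ⟨Kap, hK, w, I, e, S⟩ := hkap Lx hLx M hLM
  obtain ⟨P, hP, hIs, h0, hI⟩ := hpos M w I e Kap S
  obtain ⟨G, hG, _⟩ := hgen M hMc P hP ∅ h0 h0
  obtain ⟨hN, hMN, hGN, hNc, hord⟩ := hext M hMc P hP h0 G hG
  have ccc : CCC M P := hccc M w I e Kap S P hP hIs
  obtain ⟨zM, _, _, rM, clM⟩ := hHC M
  obtain ⟨zN, hset, cN, rN, clN⟩ := hHC (Ext M G)
  have ho := fun a ha => HC_ord hMN clM hord (hom M hMc P hP h0 ccc G hG) a ha
  obtain ⟨hinj, hcod⟩ := hgre M w I e Kap S P hP hIs G hG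
  refine ⟨M, Ext M G, w, I, e, P, G, Kap, Lx, hM, hN, ?_⟩
  exact
    { S := S
      cnt := hNc
      sub := hMN
      G_mem := hGN
      zM := zM
      zN := zN
      cN := cN
      rM := rM
      rN := rN
      clN := clN
      hcset := hset
      hord := ho
      hL := hLx
      hLM := hLM
      kN := hK (HC (Ext M G)) ho
      cov := hcov M hMc P hP h0 ccc G hG
      nice := fun r hr hr' => by
        obtain ⟨τ, hτ, h1, h2, h3⟩ := hnice M hMc P hP h0 ccc G hG r hr hr'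
        exact ⟨τ, hI τ hτ h1 h2, h3⟩
      inj := hinj
      cod := hcod
      rig := hrig M w I e Kap S hMc P hP hIs G hG }

section

variable {M N : Set V} {w I e P G : V} {Kap : V → V → Prop} {Lx : V → V}

theorem Sit.M_sub_HCN (s : Sit M N w I e P G Kap Lx) {x : V} (h : x ∈ HC M) : x ∈ HC N :=
  HC_lift s.sub h

/-- The predicate `x ∈ HC M` is definable over `HC N`. -/
theorem Sit.pr_dfn (s : Sit M N w I e P G Kap Lx) :
    Dfn ∅ (HC N) (fun x : V => ∃ a ∈ HC N, a.IsOrdinal ∧ x = Lx a) := by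
  haveI := s.zN
  refine Dfn.ex (P := fun x a => a.IsOrdinal ∧ x = Lx a) (Dfn.and ?_ ?_)
  · exact Dfn.isOrdinal (DMap.snd DMap.id)
  · exact Dfn.eq (DMap.fst DMap.id) ((s.hL (HC N)).comp (DMap.snd DMap.id))

theorem Sit.pr_iff [ZFCm M] (s : Sit M N w I e P G Kap Lx) {x : V} (hx : x ⊆ ZFSet.omega) :
    (∃ a ∈ HC N, a.IsOrdinal ∧ x = Lx a) ↔ x ∈ M := by
  haveI := s.zM
  constructor
  · rintro ⟨a, ha, ha', rfl⟩
    have h1 : a ∈ HC M := (s.hord a ha').1 ha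
    exact HC_sub' ((s.hL (HC M)).mem (inM_V.2 h1))
  · intro h
    obtain ⟨a, ha, ha', e⟩ := s.hLM x ((s.rM x hx).2 h)
    exact ⟨a, s.M_sub_HCN ha, ha', e⟩

/-- The function `i ↦ c_i` on `a`. -/
theorem Sit.c_mem [ZFCm N] (s : Sit M N w I e P G Kap Lx) {a : V} (ha : a ∈ N) :
    gr (cre G) a ∈ N := by
  refine gr_mem_of (A := N) ?_ ha
  have h := s.G_mem
  unfold cre tC
  refine DMap.sep (DMap.const ZFm.omega_mem ZFm.omega_mem) ?_
  apply_rules (transparency := .reducible) (maxDepth := 999) only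
    [DMap.const h h, DMap.nn] using is_poly

theorem Sit.cre_mem [ZFCm N] (s : Sit M N w I e P G Kap Lx) {i : V} (hi : i ∈ N) :
    cre G i ∈ N := by
  have h1 := s.c_mem (a := {i}) (by
    have : DMap N N (fun p : V => ({p} : V)) := DMap.sing DMap.id
    exact this.mem (inM_V.2 hi))
  have h2 : ZFSet.pair i (cre G i) ∈ gr (cre G) {i} := mem_gr.2 ⟨i, by simp, rfl⟩
  exact (pair_mem_iff.1 (TrC.trans h1 h2)).2

theorem cre_sub (G i : V) : cre G i ⊆ ZFSet.omega := fun _ h => (ZFSet.mem_sep.1 h).1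

theorem Sit.cmap [ZFCm M] [ZFCm N] (s : Sit M N w I e P G Kap Lx) :
    IsMap (gr (cre G) I) I (RZ N) := by
  refine ⟨gr_isFn _ _, dom_gr _ _, fun i hi => ?_⟩
  rw [app_gr hi, mem_RZ]
  exact ⟨s.cre_mem (TrC.trans (s.sub s.S.I_mem) hi), cre_sub G i⟩

theorem Sit.cinj (s : Sit M N w I e P G Kap Lx) : IsInjF (gr (cre G) I) := by
  intro i hi j hj h
  rw [dom_gr] at hi hj
  rw [app_gr hi, app_gr hj] at h
  exact s.inj i hi j hj h

theorem omega_mem_w [ZFCm M] (S : Setup M w I e Kap) : ZFSet.omega ∈ w := by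
  refine (S.w_iff _).2 ⟨ZFm.omega_mem, omega_isOrdinal, ?_⟩
  refine ⟨gr (fun x => x) ZFSet.omega, gr_mem_of (A := M) DMap.id ZFm.omega_mem, gr_isFn _ _,
    dom_gr _ _, ?_⟩
  rw [ran_gr]
  exact fun z hz => mem_rep.2 ⟨z, hz, rfl⟩

theorem succ_mem_w [ZFCm M] (S : Setup M w I e Kap) {a : V} (ha : a ∈ w) : insert a a ∈ w := by
  obtain ⟨h1, h2, f, hf, hf1, hf2, hf3⟩ := (S.w_iff a).1 ha
  refine (S.w_iff _).2 ⟨?_, ZFSet.isOrdinal_succ h2, ?_⟩
  · have : DMap M M (fun p : V => (insert p p : V)) := DMap.insert DMap.id DMap.id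
    exact this.mem (inM_V.2 h1)
  · -- shift the enumeration by one
    classical
    refine ⟨gr (fun n => if n = ∅ then a else app f (ZFSet.sUnion n)) ZFSet.omega,
      gr_mem_of (A := M) (DMap.ite ?_ ?_ ?_) ZFm.omega_mem, gr_isFn _ _, dom_gr _ _, ?_⟩
    · exact Dfn.eq DMap.id DMap.empty
    · exact DMap.const h1 h1
    · exact DMap.app (DMap.const hf hf) (DMap.sUnion DMap.id)
    · rw [ran_gr]
      intro z hz
      rw [mem_rep]
      rcases ZFSet.mem_insert_iff.1 hz with rfl | hz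
      · exact ⟨∅, ZFSet.omega_zero, by simp⟩
      · obtain ⟨n, hn⟩ := mem_ran.1 (hf3 hz)
        have hn' : n ∈ (ZFSet.omega : V) := hf2 ▸ mem_dom.2 ⟨z, hn⟩
        refine ⟨insert n n, ZFSet.omega_succ hn', ?_⟩
        have h3 : (insert n n : V) ≠ ∅ := by
          intro h
          exact ZFSet.notMem_empty n (h ▸ ZFSet.mem_insert n n)
        rw [if_neg h3]
        have h4 : (ZFSet.sUnion (insert n n : V) : V) = n := by
          obtain ⟨k, rfl⟩ := mem_omega.1 hn'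
          ext y
          rw [ZFSet.mem_sUnion]
          constructor
          · rintro ⟨t, ht, hy⟩
            rcases ZFSet.mem_insert_iff.1 ht with rfl | ht
            · exact hy
            · exact (nn_isOrdinal k).mem_trans hy ht
          · intro hy
            exact ⟨_, ZFSet.mem_insert _ _, hy⟩
        rw [h4]
        exact hf1.app_eq hn

theorem rk_real {x : V} (h : x ⊆ ZFSet.omega) : rk x ∈ (insert ZFSet.omega ZFSet.omega : V) := by
  have h1 : rk x ⊆ ZFSet.omega := by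
    intro a ha
    obtain ⟨y, hy, h2⟩ := mem_rk_iff.1 ha
    have h3 := h hy
    have h4 : y.IsOrdinal := omega_isOrdinal.mem h3
    rw [rk_ord h4] at h2
    rcases h2 with h2 | rfl
    · exact omega_isOrdinal.mem_trans h2 h3
    · exact h3
  rcases ((rk_mem_ord x).subset_iff_eq_or_mem omega_isOrdinal).1 h1 with h2 | h2
  · rw [h2]; exact ZFSet.mem_insert _ _
  · exact ZFSet.mem_insert_iff.2 (Or.inr h2)

end

end Pool.Agent.CTM
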