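import Pool.Agent.CTM.MainC

/-!
Assembly of the construction of MP_ea2134_lc, fourth part: non-typical and typical reals.
-/

set_option autoImplicit false

namespace Pool.Agent.CTM

section

variable {M N : Set V} {w I e P G : V} {Kap : V → V → Prop} {Lx : V → V}

/-- Every real of `M` is non-typical in `N`. -/
theorem Sit.nt_M [ZFCm M] [ZFCm N] (s : Sit M N w I e P G Kap Lx) (hso2 : Stmt_so2)
    (hsml : Stmt_small) (hcan : Stmt_cantor) {a : Set ℕ} (ha : toZ a ∈ M) :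
    NonTypical N (Fin.elim0 : Fin 0 → Set ℕ) a := by
  have zN := s.zN
  have hR : RN (HC N) = RN N := RN_HC s.rN
  obtain ⟨φ, hφ⟩ := hso2 (HC N) s.cN 1
    (fun v => ∃ a ∈ HC N, a.IsOrdinal ∧ v 0 = Lx a) s.pr_dfn
  rw [hR] at hφ
  have key : ∀ x ∈ RN N, φ.Sat (RN N) Fin.elim0 (Fin.snoc (Fin.elim0 : Fin 0 → Set ℕ) x) ↔
      toZ x ∈ M := by
    intro x hx
    rw [← s.pr_iff (toZ_sub x), hφ _ (fun j => ?_)]
    · exact Iff.rfl
    · have : (Fin.snoc (Fin.elim0 : Fin 0 → Set ℕ) x : Fin 1 → Set ℕ) j = x := by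
        have : j = 0 := Subsingleton.elim _ _
        subst this
        rfl
      rw [this]
      exact hx
  refine ⟨φ, (key a (s.sub ha)).2 ha, ?_⟩
  rintro ⟨f, hf, hff, hfd, hfi, hfr⟩
  refine no_inj s.sub s.cov hsml hcan s.S (s.c_mem (s.sub s.S.I_mem)) s.cmap s.cinj
    (A := RZ M) (RZ_mem M) (b := insert (insert ZFSet.omega ZFSet.omega)
      (insert ZFSet.omega ZFSet.omega)) (succ_mem_w s.S (succ_mem_w s.S (omega_mem_w s.S)))
    (fun x hx => ?_) (k := gr (fun x => x) (RZ M)) (gr_mem_of (A := N) DMap.id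
      (s.sub (RZ_mem M))) (dom_gr _ _) ?_ hf hfd hfi ?_
  · exact ZFSet.mem_insert_iff.2 (Or.inr (rk_real (mem_RZ.1 hx).2))
  · intro x hx y hy h
    rw [dom_gr] at hx hy
    rwa [app_gr hx, app_gr hy] at h
  · intro x hx
    obtain ⟨y, hy, rfl⟩ := ex_toZ (mem_RZ.1 hx).2 (mem_RZ.1 hx).1
    obtain ⟨z, ⟨hz, hz'⟩, h⟩ := hfr y hy
    have h1 : toZ z ∈ RZ M := mem_RZ.2 ⟨(key z hz).1 hz', toZ_sub z⟩
    exact ⟨toZ z, h1, by rw [app_gr h1, h]⟩

/-- The relation `Codes` is definable over `HC N`. -/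
theorem Sit.codes_dfn [ZFCm M] (s : Sit M N w I e P G Kap Lx) :
    Dfn ∅ (HC N) (fun p : V × V => ∃ d ∈ HC N, Codes Kap p.1 p.2 d) := by
  have zN := s.zN
  have hk : ∀ {Δ : Type 1} [Ctx Δ] {f g : Δ → V}, DMap ∅ (HC N) f → DMap ∅ (HC N) g →
      Dfn ∅ (HC N) (fun γ => Kap (f γ) (g γ)) := fun h h' => s.kN.comp (h.prodMk h')
  refine Dfn.congr' (P := fun p : V × V => ∃ d ∈ HC N, ∀ x ∈ HC N, ∀ l ∈ HC N, ∀ U ∈ HC N,
    l ∈ ZFSet.omega → Kap x (kv l U p.1) →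
    ∃ m₀ ∈ (ZFSet.omega : V), ∀ m ∈ (ZFSet.omega : V), m₀ ⊆ m →
      (seg x m ∈ d ↔ p.2 ∩ l ∈ U)) (fun p _ => ?_) ?_
  · refine exists_congr fun d => and_congr_right fun _ => ?_
    constructor
    · intro h x _ l _ U _ hl hx
      exact h x l U hl hx
    · intro h x l U hl hx
      obtain ⟨h1, h2, h3⟩ := s.S.kap_real x _ hx
      have zM := s.zM
      obtain ⟨h4, _⟩ := pair_mem_iff.1 h3
      obtain ⟨h5, h6⟩ := pair_mem_iff.1 h4
      exact h x (s.M_sub_HCN ((s.rM x h2).2 h1)) l (s.M_sub_HCN h5) U (s.M_sub_HCN h6) hl hx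
  · unfold kv seg
    apply_rules (transparency := .reducible) (maxDepth := 999) only
      [hk, DMap.omega] using is_poly

/-- The generic real `c_i` is non-typical over the label of `i`. -/
theorem Sit.nt_c [ZFCm M] [ZFCm N] (s : Sit M N w I e P G Kap Lx) (hso2 : Stmt_so2)
    (hsml : Stmt_small) (hcan : Stmt_cantor) {i₀ : V} (hi₀ : i₀ ∈ I) {a b : Set ℕ}
    (ha : toZ a = lab e i₀) (hb : toZ b = cre G i₀) :
    NonTypical N (fun _ : Fin 1 => a) b := by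
  have zN := s.zN
  have hR : RN (HC N) = RN N := RN_HC s.rN
  have hdfn : DP ∅ (HC N) 2 (fun v => ∃ d ∈ HC N, Codes Kap (v 0) (v 1) d) := by
    refine DP.congr s.codes_dfn fun v _ => ?_
    rfl
  obtain ⟨φ, hφ⟩ := hso2 (HC N) s.cN 2 (fun v => ∃ d ∈ HC N, Codes Kap (v 0) (v 1) d) hdfn
  rw [hR] at hφ
  have hIN : I ∈ N := s.sub s.S.I_mem
  have haM : toZ a ∈ M := by
    rw [ha]
    have h1 : DMap M M (fun x : V => app e x) := DMap.app (DMap.const s.S.e_mem s.S.e_mem) DMap.id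
    have h2 : rk i₀ ∈ w := ((s.S.I_iff i₀).1 hi₀).2
    exact h1.mem (inM_V.2 (TrC.trans s.S.w_mem h2))
  have haN : a ∈ RN N := s.sub haM
  have hbN : b ∈ RN N := by
    show toZ b ∈ N
    rw [hb]
    exact s.cre_mem (TrC.trans hIN hi₀)
  have key : ∀ x ∈ RN N, φ.Sat (RN N) Fin.elim0 (Fin.snoc (fun _ : Fin 1 => a) x) ↔
      ∃ d ∈ HC N, Codes Kap (lab e i₀) (toZ x) d := by
    intro x hx
    rw [hφ _ (fun j => ?_)]
    · rw [← ha]
      exact Iff.rfl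
    · refine Fin.lastCases ?_ (fun j => ?_) j
      · rw [Fin.snoc_last]; exact hx
      · rw [Fin.snoc_castSucc]; exact haN
  have hdre : dre G i₀ ∈ HC N := by
    have h := s.G_mem
    have hi : i₀ ∈ N := TrC.trans hIN hi₀
    have hdm : DMap N N (fun i : V => dre G i) := by
      unfold dre tD
      apply_rules (transparency := .reducible) (maxDepth := 999) only
        [DMap.const h h, DMap.nn, DMap.FinP, DMap.prod, DMap.omega] using is_poly
    have hsub : dre G i₀ ⊆ ZFSet.prod ZFSet.omega (FinP ZFSet.omega) :=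
      fun _ h => (ZFSet.mem_sep.1 h).1
    have hB : ZFSet.prod ZFSet.omega (FinP ZFSet.omega) ∈ HC N := by
      have : DMap (∅ : Set V) (HC N) (fun _ : V => (ZFSet.prod ZFSet.omega (FinP ZFSet.omega) : V)) := by
        apply_rules (transparency := .reducible) (maxDepth := 999) only
          [DMap.FinP, DMap.prod, DMap.omega] using is_poly
      exact this.mem (γ := (∅ : V)) (inM_V.2 ZFm.empty_mem)
    exact s.clN _ (hdm.mem (inM_V.2 hi)) (fun y hy => TrC.trans hB (hsub hy))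
      ((HC_cbl hB).mono' hsub)
  refine ⟨φ, (key b hbN).2 ⟨dre G i₀, hdre, ?_⟩, ?_⟩
  · rw [hb]
    exact s.cod i₀ hi₀
  rintro ⟨f, hf, hff, hfd, hfi, hfr⟩
  set A : V := ZFSet.sep (fun i => lab e i = lab e i₀) I with hA
  have hAM : A ∈ M := by
    refine ZFm.sep_mem' (A := M) ?_ s.S.I_mem
    have h1 := s.S.e_mem
    have h2 : lab e i₀ ∈ M := ha ▸ haM
    unfold lab at *
    apply_rules (transparency := .reducible) (maxDepth := 999) only
      [DMap.const h1 h1, DMap.const h2 h2, DMap.rk] using is_poly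
  have hrk : ∀ i ∈ A, rk i = rk i₀ := by
    intro i hi
    rw [hA, ZFSet.mem_sep] at hi
    have h1 := ((s.S.I_iff i).1 hi.1).2
    have h2 := ((s.S.I_iff i₀).1 hi₀).2
    exact s.S.e_inj _ (s.S.e_dom.symm ▸ h1) _ (s.S.e_dom.symm ▸ h2) hi.2
  refine no_inj s.sub s.cov hsml hcan s.S (s.c_mem hIN) s.cmap s.cinj (A := A) hAM
    (b := insert (rk i₀) (rk i₀)) (succ_mem_w s.S ((s.S.I_iff i₀).1 hi₀).2)
    (fun x hx => ?_) (k := gr (cre G) A) (s.c_mem (s.sub hAM)) (dom_gr _ _) ?_ hf hfd hfi ?_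
  · rw [hrk x hx]
    exact ZFSet.mem_insert _ _
  · intro x hx y hy h
    rw [dom_gr] at hx hy
    rw [app_gr hx, app_gr hy] at h
    exact s.inj x (ZFSet.mem_sep.1 hx).1 y (ZFSet.mem_sep.1 hy).1 h
  · intro x hx
    obtain ⟨y, hy, rfl⟩ := ex_toZ (mem_RZ.1 hx).2 (mem_RZ.1 hx).1
    obtain ⟨z, ⟨hz, hz'⟩, h⟩ := hfr y hy
    obtain ⟨d, hd, hcd⟩ := (key z hz).1 hz'
    obtain ⟨i, hi, h1, h2⟩ := s.rig (toZ z) hz d (HC_sub' hd) (toZ_sub z) i₀ hi₀ hcd
    have h3 : i ∈ A := ZFSet.mem_sep.2 ⟨hi, h1⟩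
    exact ⟨i, h3, by rw [app_gr h3, h, h2]⟩

/-- Some generic real is typical. -/
theorem Sit.typ [ZFCm M] [ZFCm N] (s : Sit M N w I e P G Kap Lx) (hso1 : Stmt_so1)
    (hfam : Stmt_family) (htyp : Stmt_typical) :
    ∃ i ∈ I, ∀ b : Set ℕ, toZ b = cre G i → ¬ NonTypical N (Fin.elim0 : Fin 0 → Set ℕ) b := by
  have zN := s.zN
  have hR : RN (HC N) = RN N := RN_HC s.rN
  have hIN : I ∈ N := s.sub s.S.I_mem
  obtain ⟨h, hh, hh'⟩ := s.hcset
  have hset : {x | x ∈ h} = HC N := by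
    ext x
    exact hh' x
  obtain ⟨D, hD, hDc, hD'⟩ := hfam N h hh
  rw [hset] at hD'
  have hsurj : ∃ t ∈ N, IsFn t ∧ dom t = I ∧ RZ N ⊆ ran t := by
    refine ⟨gr (fun τ => ZFSet.sep (fun n => ∃ p ∈ G, ZFSet.pair n p ∈ τ) ZFSet.omega) I,
      gr_mem_of (A := N) ?_ hIN, gr_isFn _ _, dom_gr _ _, ?_⟩
    · have h := s.G_mem
      refine DMap.sep (DMap.const ZFm.omega_mem ZFm.omega_mem) ?_
      apply_rules (transparency := .reducible) (maxDepth := 999) only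
        [DMap.const h h] using is_poly
    · intro r hr
      obtain ⟨h1, h2⟩ := mem_RZ.1 hr
      obtain ⟨τ, hτ, h3⟩ := s.nice r h1 h2
      rw [ran_gr, mem_rep]
      refine ⟨τ, hτ, ?_⟩
      ext n
      rw [ZFSet.mem_sep]
      constructor
      · rintro ⟨h4, h5⟩
        exact (h3 n h4).2 h5
      · intro h4
        exact ⟨h2 h4, (h3 n (h2 h4)).1 h4⟩
  obtain ⟨i, hi, hi'⟩ := htyp N I hIN (gr (cre G) I) (s.c_mem hIN) s.cmap s.cinj hsurj D hD hDc
  · refine ⟨i, hi, fun b hb => ?_⟩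
    rw [app_gr hi] at hi'
    rintro ⟨φ, h1, h2⟩
    have h3 : Dfn ∅ (HC N) (fun y : V => ∃ x : Set ℕ, y = toZ x ∧
        φ.Sat (RN N) Fin.elim0 (Fin.snoc (Fin.elim0 : Fin 0 → Set ℕ) x)) := by
      have h4 := hso1 (HC N) 0 1 φ
      rw [hR] at h4
      refine DP.congr h4 fun v _ => ?_
      constructor
      · rintro ⟨a, X, _, h5, h6⟩
        refine ⟨X 0, h5 0, ?_⟩
        have e1 : a = Fin.elim0 := Subsingleton.elim _ _
        have e2 : X = Fin.snoc (Fin.elim0 : Fin 0 → Set ℕ) (X 0) := by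
          funext j
          have : j = 0 := Subsingleton.elim _ _
          subst this
          rfl
        rw [e1, e2] at h6
        exact h6
      · rintro ⟨x, h5, h6⟩
        refine ⟨Fin.elim0, Fin.snoc (Fin.elim0 : Fin 0 → Set ℕ) x, fun i => i.elim0,
          fun j => ?_, h6⟩
        have : j = 0 := Subsingleton.elim _ _
        subst this
        exact h5
    have h4 := hD' _ h3
    have hbN : toZ b ∈ N := by
      rw [hb]
      exact s.cre_mem (TrC.trans hIN hi)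
    obtain ⟨f, hf, hf1, hf2⟩ := hi' _ h4 (by
      rw [ZFSet.mem_sep, hh', ← hb]
      exact ⟨(s.rN _ (toZ_sub b)).2 hbN, b, rfl, h1⟩)
    refine h2 ⟨f, hf, hf1.1, hf1.2.1, hf2, fun x hx => ?_⟩
    have h5 := hf1.2.2 (toZ x) (mem_RZ.2 ⟨hx, toZ_sub x⟩)
    rw [ZFSet.mem_sep, hh'] at h5
    obtain ⟨h6, y, h7, h8⟩ := h5
    refine ⟨y, ⟨?_, h8⟩, h7⟩
    show toZ y ∈ N
    rw [← h7]
    exact HC_sub' h6

end

/-- **Main theorem**, from the statements of the modules. -/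
theorem main_of (hL : Stmt_L) (hHC : Stmt_HC) (hgen : Stmt_generic) (hext : Stmt_ext)
    (hcov : Stmt_cover) (hom : Stmt_omega1) (hnice : Stmt_nice) (hpos : Stmt_pos)
    (hgre : Stmt_greals) (hccc : Stmt_ccc) (hrig : Stmt_rigid) (hkap : Stmt_kap)
    (hso1 : Stmt_so1) (hso2 : Stmt_so2) (hfam : Stmt_family) (htyp : Stmt_typical)
    (hsml : Stmt_small) (hcan : Stmt_cantor) :
    ∃ N : Set V, N.Countable ∧ ZFCm N ∧ ∃ a ∈ RN N, ∃ b ∈ RN N,
      NonTypical N (Fin.elim0 : Fin 0 → Set ℕ) a ∧ NonTypical N (fun _ : Fin 1 => a) b ∧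
      ¬ NonTypical N (Fin.elim0 : Fin 0 → Set ℕ) b := by
  obtain ⟨M, N, w, I, e, P, G, Kap, Lx, hM, hN, s⟩ := exists_sit hL hHC hgen hext hcov hom hnice
    hpos hgre hccc hrig hkap
  obtain ⟨i, hi, h1⟩ := s.typ hso1 hfam htyp
  have hiN : i ∈ N := TrC.trans (s.sub s.S.I_mem) hi
  have hw : rk i ∈ w := ((s.S.I_iff i).1 hi).2
  obtain ⟨a, ha⟩ := toZ_surj (s.S.e_real _ hw)
  obtain ⟨b, hb⟩ := toZ_surj (cre_sub G i)
  have haM : toZ a ∈ M := by
    rw [← ha]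
    have h1 : DMap M M (fun x : V => app e x) := DMap.app (DMap.const s.S.e_mem s.S.e_mem) DMap.id
    exact h1.mem (inM_V.2 (TrC.trans s.S.w_mem hw))
  refine ⟨N, s.cnt, hN, a, s.sub haM, b, ?_, s.nt_M hso2 hsml hcan haM,
    s.nt_c hso2 hsml hcan hi ha.symm hb.symm, h1 b hb.symm⟩
  show toZ b ∈ N
  rw [← hb]
  exact s.cre_mem hiN

end Pool.Agent.CTM
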