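import Pool.Agent.CTM.HierZF

/-!
Natural numbers, tuples, functions and absolute predicates.
-/

set_option autoImplicit false

namespace Pool.Agent.CTM

/-! ### The natural numbers -/

theorem mem_omega {x : V} : x ∈ ZFSet.omega ↔ ∃ n, x = nn n := mem_omega_iff

theorem nn_mem_omega (n : ℕ) : nn n ∈ ZFSet.omega := mem_omega.2 ⟨n, rfl⟩

theorem mem_nn {n : ℕ} {x : V} : x ∈ nn n ↔ ∃ m < n, x = nn m := by
  induction n with
  | zero =>
    constructor
    · intro h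
      exact absurd h (ZFSet.notMem_empty x)
    · rintro ⟨m, hm, _⟩
      exact absurd hm (Nat.not_lt_zero m)
  | succ n ih =>
    rw [nn, ZFSet.mem_insert_iff, ih]
    constructor
    · rintro (h | ⟨m, hm, h⟩)
      · exact ⟨n, n.lt_succ_self, h⟩
      · exact ⟨m, hm.trans n.lt_succ_self, h⟩
    · rintro ⟨m, hm, h⟩
      rcases Nat.lt_succ_iff_lt_or_eq.1 hm with h' | h'
      · exact Or.inr ⟨m, h', h⟩
      · exact Or.inl (h' ▸ h)

theorem nn_inj : Function.Injective nn := by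
  intro m n e
  rcases lt_trichotomy m n with h | h | h
  · have h1 : nn m ∈ nn n := mem_nn.2 ⟨m, h, rfl⟩
    rw [e] at h1
    exact absurd h1 (ZFSet.mem_irrefl _)
  · exact h
  · have h1 : nn n ∈ nn m := mem_nn.2 ⟨n, h, rfl⟩
    rw [e] at h1
    exact absurd h1 (ZFSet.mem_irrefl _)

theorem nn_mem_nn {m n : ℕ} : nn m ∈ nn n ↔ m < n := by
  rw [mem_nn]
  constructor
  · rintro ⟨k, hk, e⟩
    rwa [nn_inj e]
  · exact fun h => ⟨m, h, rfl⟩

theorem nn_sub_nn {m n : ℕ} : nn m ⊆ nn n ↔ m ≤ n := by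
  constructor
  · intro h
    by_contra hlt
    have h1 : nn n ∈ nn m := nn_mem_nn.2 (not_le.1 hlt)
    exact ZFSet.mem_irrefl _ (h h1)
  · intro h x hx
    obtain ⟨k, hk, rfl⟩ := mem_nn.1 hx
    exact nn_mem_nn.2 (hk.trans_le h)

theorem nn_isOrdinal (n : ℕ) : (nn n).IsOrdinal := by
  induction n with
  | zero => exact ZFSet.isOrdinal_empty
  | succ n ih => exact ZFSet.isOrdinal_succ ih

theorem omega_isOrdinal : (ZFSet.omega : V).IsOrdinal := by
  rw [ZFSet.isOrdinal_iff_forall_mem_isOrdinal]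
  refine ⟨fun x hx y hy => ?_, fun x hx => ?_⟩
  · obtain ⟨n, rfl⟩ := mem_omega.1 hx
    obtain ⟨m, _, rfl⟩ := mem_nn.1 hy
    exact nn_mem_omega m
  · obtain ⟨n, rfl⟩ := mem_omega.1 hx
    exact nn_isOrdinal n

/-- The natural number represented by `x` (zero if there is none). -/
noncomputable def num (x : V) : ℕ := open Classical in if h : ∃ n, x = nn n then h.choose else 0

theorem num_nn (n : ℕ) : num (nn n) = n := by
  have h : ∃ k, nn n = nn k := ⟨n, rfl⟩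
  unfold num
  rw [dif_pos h]
  exact (nn_inj h.choose_spec).symm

theorem nn_num {x : V} (h : x ∈ ZFSet.omega) : nn (num x) = x := by
  obtain ⟨n, rfl⟩ := mem_omega.1 h
  rw [num_nn]

theorem mem_toZ {x : Set ℕ} {n : ℕ} : nn n ∈ toZ x ↔ n ∈ x := by
  unfold toZ
  rw [ZFSet.mem_sep]
  constructor
  · rintro ⟨_, m, hm, e⟩
    rwa [nn_inj e]
  · exact fun h => ⟨nn_mem_omega n, n, h, rfl⟩

theorem toZ_sub (x : Set ℕ) : toZ x ⊆ ZFSet.omega := fun _ h => (ZFSet.mem_sep.1 h).1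

theorem toZ_inj : Function.Injective toZ := by
  intro x y e
  ext n
  rw [← mem_toZ, e, mem_toZ]

theorem toZ_surj {x : V} (h : x ⊆ ZFSet.omega) : ∃ y : Set ℕ, x = toZ y := by
  refine ⟨{n | nn n ∈ x}, ?_⟩
  ext z
  unfold toZ
  rw [ZFSet.mem_sep]
  constructor
  · intro hz
    obtain ⟨n, rfl⟩ := mem_omega.1 (h hz)
    exact ⟨h hz, n, hz, rfl⟩
  · rintro ⟨_, n, hn, rfl⟩
    exact hn

/-! ### Tuples -/

theorem mem_tup {n : ℕ} {v : Fin n → V} {x : V} :
    x ∈ tup v ↔ ∃ i : Fin n, x = ZFSet.pair (nn i) (v i) := by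
  unfold tup
  rw [ZFSet.mem_range]
  constructor
  · rintro ⟨i, rfl⟩
    exact ⟨i, rfl⟩
  · rintro ⟨i, rfl⟩
    exact ⟨i, rfl⟩

theorem tup_inj {n : ℕ} : Function.Injective (tup : (Fin n → V) → V) := by
  intro v w e
  funext i
  have h1 : ZFSet.pair (nn i) (v i) ∈ tup w := by
    rw [← e]
    exact mem_tup.2 ⟨i, rfl⟩
  obtain ⟨j, hj⟩ := mem_tup.1 h1
  obtain ⟨h2, h3⟩ := ZFSet.pair_injective hj
  have h4 : i = j := Fin.ext (nn_inj h2)
  subst h4
  exact h3

theorem tup_isFn {n : ℕ} (v : Fin n → V) : IsFn (tup v) := by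
  refine ⟨fun p hp => ?_, fun x y z h1 h2 => ?_⟩
  · obtain ⟨i, rfl⟩ := mem_tup.1 hp
    exact ⟨_, _, rfl⟩
  · obtain ⟨i, hi⟩ := mem_tup.1 h1
    obtain ⟨j, hj⟩ := mem_tup.1 h2
    obtain ⟨h3, h4⟩ := ZFSet.pair_injective hi
    obtain ⟨h5, h6⟩ := ZFSet.pair_injective hj
    have h7 : i = j := Fin.ext (nn_inj (h3.symm.trans h5))
    subst h7
    exact h4.trans h6.symm

theorem dom_tup {n : ℕ} (v : Fin n → V) : dom (tup v) = nn n := by
  ext x
  rw [mem_dom, mem_nn]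
  constructor
  · rintro ⟨y, hy⟩
    obtain ⟨i, hi⟩ := mem_tup.1 hy
    exact ⟨i, i.2, (ZFSet.pair_injective hi).1⟩
  · rintro ⟨m, hm, rfl⟩
    exact ⟨v ⟨m, hm⟩, mem_tup.2 ⟨⟨m, hm⟩, rfl⟩⟩

theorem app_tup {n : ℕ} (v : Fin n → V) (i : Fin n) : app (tup v) (nn i) = v i :=
  (tup_isFn v).app_eq (mem_tup.2 ⟨i, rfl⟩)

/-- Every function with domain `nn n` is a tuple. -/
theorem eq_tup {n : ℕ} {z : V} (h : IsFn z) (h' : dom z = nn n) :
    z = tup (fun i : Fin n => app z (nn i)) := by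
  ext p
  rw [mem_tup]
  constructor
  · intro hp
    obtain ⟨x, y, rfl⟩ := h.1 p hp
    have hx : x ∈ dom z := mem_dom.2 ⟨y, hp⟩
    rw [h'] at hx
    obtain ⟨m, hm, rfl⟩ := mem_nn.1 hx
    exact ⟨⟨m, hm⟩, by rw [← h.app_eq hp]⟩
  · rintro ⟨i, rfl⟩
    refine h.pair_app ?_
    rw [h']
    exact nn_mem_nn.2 i.2

/-! ### Functions -/

theorem mem_iff_app {f x y : V} (h : IsFn f) : ZFSet.pair x y ∈ f ↔ x ∈ dom f ∧ app f x = y := by
  constructor
  · exact fun hp => ⟨mem_dom.2 ⟨y, hp⟩, h.app_eq hp⟩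
  · rintro ⟨hx, rfl⟩
    exact h.pair_app hx

theorem gr_isFn (F : V → V) (a : V) : IsFn (gr F a) := isFn_gr F a

/-- Two functions with the same domain and the same values are equal. -/
theorem fn_ext {f g : V} (hf : IsFn f) (hg : IsFn g) (h : dom f = dom g)
    (h' : ∀ x ∈ dom f, app f x = app g x) : f = g := by
  ext p
  constructor
  · intro hp
    obtain ⟨x, y, rfl⟩ := hf.1 p hp
    obtain ⟨h1, h2⟩ := (mem_iff_app hf).1 hp
    exact (mem_iff_app hg).2 ⟨h ▸ h1, (h' x h1).symm.trans h2⟩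
  · intro hp
    obtain ⟨x, y, rfl⟩ := hg.1 p hp
    obtain ⟨h1, h2⟩ := (mem_iff_app hg).1 hp
    have h3 : x ∈ dom f := h.symm ▸ h1
    exact (mem_iff_app hf).2 ⟨h3, (h' x h3).trans h2⟩

theorem mem_ran_iff {f y : V} (h : IsFn f) : y ∈ ran f ↔ ∃ x ∈ dom f, app f x = y := by
  rw [mem_ran]
  exact exists_congr fun x => mem_iff_app h

section

variable {Γ Δ : Type 1} [Ctx Γ] [Ctx Δ] {A M : Set V}

/-! ### Absolute predicates -/

theorem D0.isEmpty {f : Γ → V} (hf : Prj f) : D0 (fun γ => f γ = ∅) := by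
  refine D0.congr' (P := fun γ => ∀ z ∈ f γ, False) (fun γ => ZFSet.eq_empty _) ?_
  exact D0.all_mem hf D0.const

theorem D0.isUnion {f g h : Γ → V} (hf : Prj f) (hg : Prj g) (hh : Prj h) :
    D0 (fun γ => f γ = g γ ∪ h γ) := by
  have : D0 (fun p : (V × V) × V => p.1.1 = p.1.2 ∪ p.2) := by
    refine D0.congr' (P := fun p : (V × V) × V =>
      (∀ z ∈ p.1.1, z ∈ p.1.2 ∨ z ∈ p.2) ∧
      (∀ z ∈ p.1.2, z ∈ p.1.1) ∧ (∀ z ∈ p.2, z ∈ p.1.1)) (fun p => ?_)
      (by apply_rules (transparency := .reducible) (maxDepth := 999) only using is_poly)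
    constructor
    · intro e
      rw [e]
      exact ⟨fun z hz => ZFSet.mem_union.1 hz, fun z hz => ZFSet.mem_union.2 (Or.inl hz),
        fun z hz => ZFSet.mem_union.2 (Or.inr hz)⟩
    · rintro ⟨h1, h2, h3⟩
      ext z
      rw [ZFSet.mem_union]
      exact ⟨h1 z, fun h => h.elim (h2 z) (h3 z)⟩
  exact this.comp ((hf.prodMk hg).prodMk hh)

theorem D0.isInter {f g h : Γ → V} (hf : Prj f) (hg : Prj g) (hh : Prj h) :
    D0 (fun γ => f γ = g γ ∩ h γ) := by
  have : D0 (fun p : (V × V) × V => p.1.1 = p.1.2 ∩ p.2) := by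
    refine D0.congr' (P := fun p : (V × V) × V =>
      (∀ z ∈ p.1.1, z ∈ p.1.2 ∧ z ∈ p.2) ∧
      (∀ z ∈ p.1.2, z ∈ p.2 → z ∈ p.1.1)) (fun p => ?_)
      (by apply_rules (transparency := .reducible) (maxDepth := 999) only using is_poly)
    constructor
    · intro e
      rw [e]
      exact ⟨fun z hz => ZFSet.mem_inter.1 hz, fun z hz hz' => ZFSet.mem_inter.2 ⟨hz, hz'⟩⟩
    · rintro ⟨h1, h2⟩
      ext z
      rw [ZFSet.mem_inter]
      exact ⟨h1 z, fun h => h2 z h.1 h.2⟩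
  exact this.comp ((hf.prodMk hg).prodMk hh)

theorem D0.pair_mem {f g h : Γ → V} (hf : Prj f) (hg : Prj g) (hh : Prj h) :
    D0 (fun γ => ZFSet.pair (f γ) (g γ) ∈ h γ) := by
  have : D0 (fun p : (V × V) × V => ZFSet.pair p.1.1 p.1.2 ∈ p.2) := by
    refine D0.congr' (P := fun p : (V × V) × V => ∃ q ∈ p.2, q = ZFSet.pair p.1.1 p.1.2)
      (fun p => ?_)
      (by apply_rules (transparency := .reducible) (maxDepth := 999) only using is_poly)
    constructor
    · exact fun h => ⟨_, h, rfl⟩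
    · rintro ⟨q, hq, rfl⟩
      exact hq
  exact this.comp ((hf.prodMk hg).prodMk hh)

theorem D0.isTransitive {f : Γ → V} (hf : Prj f) : D0 (fun γ => (f γ).IsTransitive) := by
  have : D0 (fun x : V => ∀ y ∈ x, y ⊆ x) := by
    apply_rules (transparency := .reducible) (maxDepth := 999) only using is_poly
  exact this.comp hf

theorem NatAux.isOrdinal_iff {x : V} : x.IsOrdinal ↔ x.IsTransitive ∧
    ∀ w ∈ x, ∀ z ∈ w, ∀ y ∈ z, y ∈ w := by
  constructor
  · exact fun h => ⟨h.isTransitive, fun w hw z hz y hy => h.mem_trans' hy hz hw⟩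
  · rintro ⟨h1, h2⟩
    exact ⟨h1, fun hy hz hw => h2 _ hw _ hz _ hy⟩

theorem D0.isOrdinal {f : Γ → V} (hf : Prj f) : D0 (fun γ => (f γ).IsOrdinal) := by
  have : D0 (fun x : V => (∀ y ∈ x, y ⊆ x) ∧ ∀ w ∈ x, ∀ z ∈ w, ∀ y ∈ z, y ∈ w) := by
    apply_rules (transparency := .reducible) (maxDepth := 999) only using is_poly
  exact (this.congr fun x => NatAux.isOrdinal_iff.symm).comp hf

theorem D0.isOmega {f : Γ → V} (hf : Prj f) : D0 (fun γ => f γ = ZFSet.omega) := by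
  have : D0 (fun x : V => x = ZFSet.omega) := by
    refine D0.congr' (P := fun x : V => (∀ y ∈ x, IsNat y) ∧ (∃ y ∈ x, ∀ z ∈ y, False) ∧
      ∀ y ∈ x, ∃ z ∈ x, z = insert y y) (fun x => ?_)
      (by apply_rules (transparency := .reducible) (maxDepth := 999) only using is_poly)
    constructor
    · intro e
      rw [e]
      refine ⟨fun y hy => isNat_iff.2 hy, ⟨∅, ZFSet.omega_zero, fun z hz => ZFSet.notMem_empty z hz⟩,
        fun y hy => ⟨_, ZFSet.omega_succ hy, rfl⟩⟩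
    · rintro ⟨h1, ⟨y0, hy0, h2⟩, h3⟩
      have h4 : y0 = ∅ := (ZFSet.eq_empty y0).2 fun z hz => h2 z hz
      have h5 : ∀ n, nn n ∈ x := by
        intro n
        induction n with
        | zero =>
          rw [h4] at hy0
          exact hy0
        | succ n ih =>
          obtain ⟨z, hz, e⟩ := h3 _ ih
          rw [nn, ← e]
          exact hz
      ext z
      constructor
      · exact fun hz => isNat_iff.1 (h1 z hz)
      · intro hz
        obtain ⟨n, rfl⟩ := mem_omega.1 hz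
        exact h5 n
  exact this.comp hf

theorem D0.isFn {f : Γ → V} (hf : Prj f) : D0 (fun γ => IsFn (f γ)) := by
  have : D0 (fun f : V => IsFn f) := by
    refine D0.congr' (P := fun f : V =>
      (∀ p ∈ f, ∃ t ∈ p, ∃ x ∈ t, ∃ y ∈ t, p = ZFSet.pair x y) ∧
      (∀ p ∈ f, ∀ q ∈ f, ∀ t ∈ p, ∀ x ∈ t, ∀ y ∈ t, ∀ s ∈ q, ∀ z ∈ s,
        p = ZFSet.pair x y → q = ZFSet.pair x z → y = z)) (fun f => ?_)
      (by apply_rules (transparency := .reducible) (maxDepth := 999) only using is_poly)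
    constructor
    · intro h
      refine ⟨fun p hp => ?_, ?_⟩
      · obtain ⟨x, y, rfl⟩ := h.1 p hp
        obtain ⟨t, ht, h1, h2⟩ := sUU_pair_mem (s := x) (b := y) rfl
        exact ⟨t, ht, x, h1, y, h2, rfl⟩
      · rintro p hp q hq _ _ x _ y _ _ _ z _ rfl rfl
        exact h.2 x y z hp hq
    · rintro ⟨h1, h2⟩
      refine ⟨fun p hp => ?_, fun x y z hxy hxz => ?_⟩
      · obtain ⟨_, _, x, _, y, _, e⟩ := h1 p hp
        exact ⟨x, y, e⟩
      · obtain ⟨t, ht, h3, h4⟩ := sUU_pair_mem (s := x) (b := y) rfl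
        obtain ⟨s, hs, _, h5⟩ := sUU_pair_mem (s := x) (b := z) rfl
        exact h2 _ hxy _ hxz t ht x h3 y h4 s hs z h5 rfl rfl
  exact this.comp hf

theorem D0.isRan {f g : Γ → V} (hf : Prj f) (hg : Prj g) : D0 (fun γ => f γ = ran (g γ)) := by
  have : D0 (fun p : V × V => p.1 = ran p.2) := by
    refine D0.congr' (P := fun p : V × V =>
      (∀ b ∈ p.1, ∃ q ∈ p.2, ∃ t ∈ q, ∃ a ∈ t, q = ZFSet.pair a b) ∧
      (∀ q ∈ p.2, ∀ t ∈ q, ∀ a ∈ t, ∀ b ∈ t, q = ZFSet.pair a b → b ∈ p.1)) (fun p => ?_)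
      (by apply_rules (transparency := .reducible) (maxDepth := 999) only using is_poly)
    constructor
    · intro e
      rw [e]
      refine ⟨fun b hb => ?_, fun q hq t _ a _ b _ e => mem_ran.2 ⟨a, e ▸ hq⟩⟩
      obtain ⟨a, ha⟩ := mem_ran.1 hb
      obtain ⟨t, ht, h1, h2⟩ := sUU_pair_mem (s := a) (b := b) rfl
      exact ⟨_, ha, t, ht, a, h1, rfl⟩
    · rintro ⟨h1, h2⟩
      ext b
      rw [mem_ran]
      constructor
      · intro hb
        obtain ⟨q, hq, t, _, a, _, rfl⟩ := h1 b hb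
        exact ⟨a, hq⟩
      · rintro ⟨a, ha⟩
        obtain ⟨t, ht, h3, h4⟩ := sUU_pair_mem (s := a) (b := b) rfl
        exact h2 _ ha t ht a h3 b h4 rfl
  exact this.comp (hf.prodMk hg)

end

end Pool.Agent.CTM
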