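import Pool.Agent.CTM.PosDefs
import Pool.Agent.CTM.Nat
import Pool.Agent.CTM.Cbl

/-!
The forcing notion of MP_ea2134_lc is a set of the ground model.
-/

set_option autoImplicit false

namespace Pool.Agent.CTM

section

variable {M : Set V} [ZFCm M] {w I e : V} {Kap : V → V → Prop}

/-- `I` contains the countable sets of `M` all whose elements are in `I`. -/
theorem Setup.mem_I (S : Setup M w I e Kap) {x : V} (hx : x ∈ M) (hc : Cbl M x)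
    (h : ∀ y ∈ x, y ∈ I) : x ∈ I := by
  refine (S.I_iff x).2 ⟨hx, ?_⟩
  have h1 : Cbl M (rep x rk) := hc.rep (A := M) (DMap.rk DMap.id)
  have h2 : rep x rk ⊆ w := by
    intro a ha
    obtain ⟨y, hy, rfl⟩ := mem_rep.1 ha
    exact ((S.I_iff y).1 (h y hy)).2
  obtain ⟨b, hb, hb'⟩ := cbl_bounded S.w_iff h1 h2
  have hbo : b.IsOrdinal := ((S.w_iff b).1 hb).2.1
  have h3 : rk x ⊆ b := by
    intro a ha
    obtain ⟨y, hy, hya⟩ := mem_rk_iff.1 ha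
    have h4 : rk y ∈ b := hb' _ (mem_rep.2 ⟨y, hy, rfl⟩)
    rcases hya with hya | rfl
    · exact hbo.mem_trans hya h4
    · exact h4
  have hxo : (rk x).IsOrdinal := rk_mem_ord x
  rcases (hxo.subset_iff_eq_or_mem hbo).1 h3 with h5 | h5
  · rw [h5]; exact hb
  · exact S.w_ord.mem_trans h5 hb

omit [ZFCm M] in
theorem Setup.I_sub (S : Setup M w I e Kap) {x : V} (h : x ∈ I) : x ∈ M :=
  ((S.I_iff x).1 h).1

theorem Setup.fin_mem_I (S : Setup M w I e Kap) {x : V} (h : ∀ y ∈ x, y ∈ I)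
    (hf : {y | y ∈ x}.Finite) : x ∈ I :=
  S.mem_I (fin_mem (fun y hy => S.I_sub (h y hy)) hf)
    (cbl_fin (fun y hy => S.I_sub (h y hy)) hf) h

theorem Setup.upair_mem_I (S : Setup M w I e Kap) {x y : V} (h : x ∈ I) (h' : y ∈ I) :
    ({x, y} : V) ∈ I := by
  refine S.fin_mem_I (fun z hz => ?_) ?_
  · rcases ZFSet.mem_pair.1 hz with rfl | rfl
    · exact h
    · exact h'
  · have : {z | z ∈ ({x, y} : V)} = {x, y} := by
      ext z
      simp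
    rw [this]
    exact Set.toFinite _

theorem Setup.pair_mem_I (S : Setup M w I e Kap) {x y : V} (h : x ∈ I) (h' : y ∈ I) :
    ZFSet.pair x y ∈ I := by
  unfold ZFSet.pair
  refine S.upair_mem_I ?_ (S.upair_mem_I h h')
  rw [← ZFSet.pair_eq_singleton]
  exact S.upair_mem_I h h

theorem Setup.nn_mem_I (S : Setup M w I e Kap) (n : ℕ) : nn n ∈ I := by
  induction n using Nat.strong_induction_on with
  | _ n ih =>
    refine S.fin_mem_I (fun y hy => ?_) ?_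
    · obtain ⟨m, hm, rfl⟩ := mem_nn.1 hy
      exact ih m hm
    · refine ((Set.finite_lt_nat n).image nn).subset fun y hy => ?_
      obtain ⟨m, hm, rfl⟩ := mem_nn.1 hy
      exact ⟨m, hm, rfl⟩

theorem Setup.omega_sub_I (S : Setup M w I e Kap) {x : V} (h : x ∈ ZFSet.omega) : x ∈ I := by
  obtain ⟨n, rfl⟩ := mem_omega.1 h
  exact S.nn_mem_I n

theorem Setup.real_mem_I (S : Setup M w I e Kap) {x : V} (hx : x ∈ M) (h : x ⊆ ZFSet.omega) :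
    x ∈ I :=
  S.mem_I hx (cbl_omega.mono h) fun _ hy => S.omega_sub_I (h hy)

theorem Setup.sub_nat_mem_I (S : Setup M w I e Kap) {u m : V} (hm : m ∈ ZFSet.omega)
    (h : u ⊆ m) : u ∈ I := by
  obtain ⟨n, rfl⟩ := mem_omega.1 hm
  refine S.fin_mem_I (fun y hy => ?_) ?_
  · obtain ⟨k, _, rfl⟩ := mem_nn.1 (h hy)
    exact S.nn_mem_I k
  · refine ((Set.finite_lt_nat n).image nn).subset fun y hy => ?_
    obtain ⟨k, hk, rfl⟩ := mem_nn.1 (h hy)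
    exact ⟨k, hk, rfl⟩

/-- All tokens are in `I`. -/
theorem Setup.tok_mem_I (S : Setup M w I e Kap) {t : V} (h : IsTok I e Kap t) : t ∈ I := by
  have h2 : ∀ ε ∈ nn 2, ε ∈ I := fun ε hε => S.omega_sub_I
    (by obtain ⟨m, _, rfl⟩ := mem_nn.1 hε; exact nn_mem_omega m)
  rcases h with ⟨i, hi, n, hn, ε, hε, rfl⟩ | ⟨i, hi, m, hm, u, hu, ε, hε, rfl⟩ |
    ⟨i, hi, x, m, hm, ⟨l, _, U, hk⟩, rfl⟩
  · exact S.pair_mem_I (S.nn_mem_I 0) (S.pair_mem_I hi (S.pair_mem_I (S.omega_sub_I hn) (h2 ε hε)))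
  · exact S.pair_mem_I (S.nn_mem_I 1) (S.pair_mem_I hi (S.pair_mem_I
      (S.pair_mem_I (S.omega_sub_I hm) (S.sub_nat_mem_I hm hu)) (h2 ε hε)))
  · obtain ⟨h3, h4, _⟩ := S.kap_real _ _ hk
    exact S.pair_mem_I (S.nn_mem_I 2) (S.pair_mem_I hi (S.pair_mem_I (S.real_mem_I h3 h4)
      (S.omega_sub_I hm)))

theorem HC_sub {x : V} (h : x ∈ HC M) : x ∈ M := by
  obtain ⟨t, ht, _, hx, _⟩ := h
  exact TrC.trans ht hx

theorem kv_mem {l U a : V} (h : kv l U a ∈ M) : l ∈ M ∧ U ∈ M ∧ a ∈ M := by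
  unfold kv at h
  obtain ⟨h1, h2⟩ := pair_mem_iff.1 h
  obtain ⟨h3, h4⟩ := pair_mem_iff.1 h1
  exact ⟨h3, h4, h2⟩

theorem Setup.kv_mem (S : Setup M w I e Kap) {x l U a : V} (h : Kap x (kv l U a)) :
    l ∈ M ∧ U ∈ M ∧ a ∈ M :=
  CTM.kv_mem (HC_sub (S.kap_real _ _ h).2.2)

theorem tC_mem {i n ε : V} : tC i n ε ∈ M ↔ i ∈ M ∧ n ∈ M ∧ ε ∈ M := by
  unfold tC
  rw [pair_mem_iff, pair_mem_iff, pair_mem_iff]
  exact and_iff_right (nn_mem 0)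

theorem tD_mem {i n ε : V} : tD i n ε ∈ M ↔ i ∈ M ∧ n ∈ M ∧ ε ∈ M := by
  unfold tD
  rw [pair_mem_iff, pair_mem_iff, pair_mem_iff]
  exact and_iff_right (nn_mem 1)

theorem tR_mem {i n ε : V} : tR i n ε ∈ M ↔ i ∈ M ∧ n ∈ M ∧ ε ∈ M := by
  unfold tR
  rw [pair_mem_iff, pair_mem_iff, pair_mem_iff]
  exact and_iff_right (nn_mem 2)

/-! ### Definability -/

section

variable {Γ : Type 1} [Ctx Γ] {A : Set V}

theorem DMap.tC {f g h : Γ → V} (hf : DMap A M f) (hg : DMap A M g) (hh : DMap A M h) :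
    DMap A M (fun γ => tC (f γ) (g γ) (h γ)) :=
  DMap.pair (DMap.nn 0) (DMap.pair hf (DMap.pair hg hh))

theorem DMap.tD {f g h : Γ → V} (hf : DMap A M f) (hg : DMap A M g) (hh : DMap A M h) :
    DMap A M (fun γ => tD (f γ) (g γ) (h γ)) :=
  DMap.pair (DMap.nn 1) (DMap.pair hf (DMap.pair hg hh))

theorem DMap.tR {f g h : Γ → V} (hf : DMap A M f) (hg : DMap A M g) (hh : DMap A M h) :
    DMap A M (fun γ => tR (f γ) (g γ) (h γ)) :=
  DMap.pair (DMap.nn 2) (DMap.pair hf (DMap.pair hg hh))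

theorem DMap.seg {f g : Γ → V} (hf : DMap A M f) (hg : DMap A M g) :
    DMap A M (fun γ => seg (f γ) (g γ)) :=
  DMap.pair hg (DMap.inter hf hg)

theorem DMap.kv {f g h : Γ → V} (hf : DMap A M f) (hg : DMap A M g) (hh : DMap A M h) :
    DMap A M (fun γ => kv (f γ) (g γ) (h γ)) :=
  DMap.pair (DMap.pair hf hg) hh

theorem DMap.lab {f g : Γ → V} (hf : DMap A M f) (hg : DMap A M g) :
    DMap A M (fun γ => lab (f γ) (g γ)) :=
  DMap.app hf (DMap.rk hg)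

theorem Dfn.tr {f g h k : Γ → V} (hf : DMap A M f) (hg : DMap A M g) (hh : DMap A M h)
    (hk : DMap A M k) : Dfn A M (fun γ => Tr (f γ) (g γ) (h γ) (k γ)) := by
  have : Dfn A M (fun p : ((V × V) × V) × V => Tr p.1.1.1 p.1.1.2 p.1.2 p.2) := by
    unfold Tr
    apply_rules (transparency := .reducible) (maxDepth := 999) only [DMap.tC, DMap.nn] using is_poly
  exact this.comp (((hf.prodMk hg).prodMk hh).prodMk hk)

end

omit [ZFCm M] in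
theorem Setup.kap_dfn' (S : Setup M w I e Kap) {Γ : Type 1} [Ctx Γ] {f g : Γ → V}
    (hf : DMap M M f) (hg : DMap M M g) : Dfn M M (fun γ => Kap (f γ) (g γ)) :=
  S.kap_dfn.comp (hf.prodMk hg)

theorem Setup.dfn_tok (S : Setup M w I e Kap) : Dfn M M (IsTok I e Kap) := by
  have hI : ∀ {Γ : Type 1} [Ctx Γ], DMap M M (fun _ : Γ => I) := DMap.const S.I_mem S.I_mem
  have he : ∀ {Γ : Type 1} [Ctx Γ], DMap M M (fun _ : Γ => e) := DMap.const S.e_mem S.e_mem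
  have hK := @Setup.kap_dfn' M w I e Kap S
  refine Dfn.congr' (P := fun t =>
    (∃ i ∈ I, ∃ n ∈ ZFSet.omega, ∃ ε ∈ nn 2, t = tC i n ε) ∨
    (∃ i ∈ I, ∃ m ∈ ZFSet.omega, ∃ u ∈ M, u ⊆ m ∧ ∃ ε ∈ nn 2, t = tD i (ZFSet.pair m u) ε) ∨
    (∃ i ∈ I, ∃ x ∈ M, ∃ m ∈ ZFSet.omega, (∃ l ∈ ZFSet.omega, ∃ U ∈ M, Kap x (kv l U (lab e i))) ∧
      t = tR i x m)) (fun t _ => ?_) ?_
  · unfold IsTok
    refine or_congr Iff.rfl (or_congr ?_ ?_)
    · constructor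
      · rintro ⟨i, hi, m, hm, u, hu, h⟩
        exact ⟨i, hi, m, hm, u, S.I_sub (S.sub_nat_mem_I hm hu), hu, h⟩
      · rintro ⟨i, hi, m, hm, u, _, hu, h⟩
        exact ⟨i, hi, m, hm, u, hu, h⟩
    · constructor
      · rintro ⟨i, hi, x, m, hm, ⟨l, hl, U, hk⟩, h⟩
        exact ⟨i, hi, x, (S.kap_real _ _ hk).1, m, hm, ⟨l, hl, U, (S.kv_mem hk).2.1, hk⟩, h⟩
      · rintro ⟨i, hi, x, _, m, hm, ⟨l, hl, U, _, hk⟩, h⟩
        exact ⟨i, hi, x, m, hm, ⟨l, hl, U, hk⟩, h⟩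
  · apply_rules (transparency := .reducible) (maxDepth := 999) only [hI, he, hK, DMap.tC, DMap.tD,
      DMap.tR, DMap.kv, DMap.lab, DMap.omega, DMap.nn] using is_poly

/-- If the tokens C of `p` are functional then `u` is determined by `Tr p i l u`. -/
theorem Tr.eq {p i l u : V} (h : Tr p i l u)
    (hC : ∀ i n, ¬ (tC i n (nn 0) ∈ p ∧ tC i n (nn 1) ∈ p)) :
    u = ZFSet.sep (fun n => tC i n (nn 1) ∈ p) l := by
  ext n
  rw [ZFSet.mem_sep]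
  constructor
  · intro hn
    exact ⟨h.1 hn, (h.2 n (h.1 hn)).1 hn⟩
  · rintro ⟨hn, h1⟩
    by_contra hu
    exact hC i n ⟨(h.2 n hn).2 hu, h1⟩

theorem Tr.mem {p i l u : V} (h : Tr p i l u)
    (hC : ∀ i n, ¬ (tC i n (nn 0) ∈ p ∧ tC i n (nn 1) ∈ p)) (hp : p ∈ M) (hi : i ∈ M)
    (hl : l ∈ M) : u ∈ M := by
  rw [h.eq hC]
  have h1 : ∀ {Γ : Type 1} [Ctx Γ], DMap M M (fun _ : Γ => i) := DMap.const hi hi
  have h2 : ∀ {Γ : Type 1} [Ctx Γ], DMap M M (fun _ : Γ => p) := DMap.const hp hp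
  refine ZFm.sep_mem' (A := M) ?_ hl
  apply_rules (transparency := .reducible) (maxDepth := 999) only [h1, h2, DMap.tC, DMap.nn] using is_poly

/-- The conditions, with all quantifiers restricted to `M`. -/
structure CondM (M : Set V) (I e : V) (Kap : V → V → Prop) (p : V) : Prop where
  tok : ∀ t ∈ p, IsTok I e Kap t
  fin : p ∈ FinP p
  funC : ∀ i ∈ M, ∀ n ∈ M, ¬ (tC i n (nn 0) ∈ p ∧ tC i n (nn 1) ∈ p)
  funD : ∀ i ∈ M, ∀ s ∈ M, ¬ (tD i s (nn 0) ∈ p ∧ tD i s (nn 1) ∈ p)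
  dec : ∀ i ∈ M, ∀ x ∈ M, ∀ m ∈ M, ∀ l ∈ M, ∀ U ∈ M, tR i x m ∈ p → Kap x (kv l U (lab e i)) →
    ∃ u ∈ M, Tr p i l u
  obey : ∀ i ∈ M, ∀ x ∈ M, ∀ m ∈ M, ∀ l ∈ M, ∀ U ∈ M, ∀ u ∈ M, ∀ m' ∈ M, ∀ ε ∈ M,
    tR i x m ∈ p → Kap x (kv l U (lab e i)) → Tr p i l u →
    m ⊆ m' → tD i (seg x m') ε ∈ p → (ε = nn 1 ↔ u ∈ U)
  sep : ∀ i ∈ M, ∀ x ∈ M, ∀ m ∈ M, ∀ l ∈ M, ∀ U ∈ M, ∀ u ∈ M, ∀ x' ∈ M, ∀ m' ∈ M, ∀ l' ∈ M,
    ∀ U' ∈ M, ∀ u' ∈ M, tR i x m ∈ p → tR i x' m' ∈ p →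
    Kap x (kv l U (lab e i)) → Kap x' (kv l' U' (lab e i)) → Tr p i l u → Tr p i l' u' →
    ¬ (u ∈ U ↔ u' ∈ U') → x ∩ (m ∪ m') ≠ x' ∩ (m ∪ m')

theorem Setup.cond_iff (S : Setup M w I e Kap) {p : V} (hp : p ∈ M) :
    Cond I e Kap p ↔ CondM M I e Kap p := by
  constructor
  · intro h
    refine ⟨h.tok, mem_FinP.2 ⟨fun _ h => h, h.fin⟩, fun i _ n _ => h.funC i n,
      fun i _ n _ => h.funD i n, fun i hi x hx m hm l hl U hU h1 h2 => ?_,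
      fun i hi x hx m hm l hl U hU u hu m' hm' ε hε => h.obey i x m l U u m' ε,
      fun i hi x hx m hm l hl U hU u hu x' hx' m' hm' l' hl' U' hU' u' hu' =>
        h.sep i x m l U u x' m' l' U' u'⟩
    obtain ⟨u, hu⟩ := h.dec i x m l U h1 h2
    exact ⟨u, hu.mem h.funC hp hi hl, hu⟩
  · intro h
    have hC : ∀ i n, ¬ (tC i n (nn 0) ∈ p ∧ tC i n (nn 1) ∈ p) := by
      intro i n h1
      obtain ⟨hi, hn, _⟩ := tC_mem.1 (TrC.trans hp h1.1)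
      exact h.funC i hi n hn h1
    refine ⟨h.tok, (mem_FinP.1 h.fin).2, hC, ?_, ?_, ?_, ?_⟩
    · intro i n h1
      obtain ⟨hi, hn, _⟩ := tD_mem.1 (TrC.trans hp h1.1)
      exact h.funD i hi n hn h1
    · intro i x m l U h1 h2
      obtain ⟨hi, hx, hm⟩ := tR_mem.1 (TrC.trans hp h1)
      obtain ⟨hl, hU, _⟩ := S.kv_mem h2
      obtain ⟨u, _, hu⟩ := h.dec i hi x hx m hm l hl U hU h1 h2
      exact ⟨u, hu⟩
    · intro i x m l U u m' ε h1 h2 h3 h4 h5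
      obtain ⟨hi, hx, hm⟩ := tR_mem.1 (TrC.trans hp h1)
      obtain ⟨hl, hU, _⟩ := S.kv_mem h2
      obtain ⟨_, hs, hε⟩ := tD_mem.1 (TrC.trans hp h5)
      exact h.obey i hi x hx m hm l hl U hU u (h3.mem hC hp hi hl) m' (pair_mem_iff.1 hs).1 ε hε
        h1 h2 h3 h4 h5
    · intro i x m l U u x' m' l' U' u' h1 h1' h2 h2' h3 h3'
      obtain ⟨hi, hx, hm⟩ := tR_mem.1 (TrC.trans hp h1)
      obtain ⟨_, hx', hm'⟩ := tR_mem.1 (TrC.trans hp h1')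
      obtain ⟨hl, hU, _⟩ := S.kv_mem h2
      obtain ⟨hl', hU', _⟩ := S.kv_mem h2'
      exact h.sep i hi x hx m hm l hl U hU u (h3.mem hC hp hi hl) x' hx' m' hm' l' hl' U' hU' u'
        (h3'.mem hC hp hi hl') h1 h1' h2 h2' h3 h3'

theorem Setup.dfn_condM (S : Setup M w I e Kap) : Dfn M M (CondM M I e Kap) := by
  have hI : ∀ {Γ : Type 1} [Ctx Γ], DMap M M (fun _ : Γ => I) := DMap.const S.I_mem S.I_mem
  have he : ∀ {Γ : Type 1} [Ctx Γ], DMap M M (fun _ : Γ => e) := DMap.const S.e_mem S.e_mem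
  have hK := @Setup.kap_dfn' M w I e Kap S
  have hT : ∀ {Γ : Type 1} [Ctx Γ] {f : Γ → V}, DMap M M f →
      Dfn M M (fun γ => IsTok I e Kap (f γ)) := fun h => S.dfn_tok.comp h
  have h1 : Dfn M M (fun p : V => ∀ t ∈ p, IsTok I e Kap t) := by
    apply_rules (transparency := .reducible) (maxDepth := 999) only [hT] using is_poly
  have h2 : Dfn M M (fun p : V => p ∈ FinP p) := by
    apply_rules (transparency := .reducible) (maxDepth := 999) only [DMap.FinP] using is_poly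
  have h3 : Dfn M M (fun p : V => ∀ i ∈ M, ∀ n ∈ M,
      ¬ (tC i n (nn 0) ∈ p ∧ tC i n (nn 1) ∈ p)) := by
    apply_rules (transparency := .reducible) (maxDepth := 999) only [DMap.tC, DMap.nn] using is_poly
  have h4 : Dfn M M (fun p : V => ∀ i ∈ M, ∀ n ∈ M,
      ¬ (tD i n (nn 0) ∈ p ∧ tD i n (nn 1) ∈ p)) := by
    apply_rules (transparency := .reducible) (maxDepth := 999) only [DMap.tD, DMap.nn] using is_poly
  have h5 : Dfn M M (fun p : V => ∀ i ∈ M, ∀ x ∈ M, ∀ m ∈ M, ∀ l ∈ M, ∀ U ∈ M, tR i x m ∈ p →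
      Kap x (kv l U (lab e i)) → ∃ u ∈ M, Tr p i l u) := by
    apply_rules (transparency := .reducible) (maxDepth := 999) only [he, hK, DMap.tR, DMap.kv,
      DMap.lab, Dfn.tr] using is_poly
  have h6 : Dfn M M (fun p : V => ∀ i ∈ M, ∀ x ∈ M, ∀ m ∈ M, ∀ l ∈ M, ∀ U ∈ M, ∀ u ∈ M,
      ∀ m' ∈ M, ∀ ε ∈ M, tR i x m ∈ p → Kap x (kv l U (lab e i)) → Tr p i l u →
      m ⊆ m' → tD i (seg x m') ε ∈ p → (ε = nn 1 ↔ u ∈ U)) := by
    apply_rules (transparency := .reducible) (maxDepth := 999) only [he, hK, DMap.tR, DMap.tD,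
      DMap.kv, DMap.lab, DMap.seg, DMap.nn, Dfn.tr] using is_poly
  have h7 : Dfn M M (fun p : V => ∀ i ∈ M, ∀ x ∈ M, ∀ m ∈ M, ∀ l ∈ M, ∀ U ∈ M, ∀ u ∈ M,
      ∀ x' ∈ M, ∀ m' ∈ M, ∀ l' ∈ M, ∀ U' ∈ M, ∀ u' ∈ M, tR i x m ∈ p → tR i x' m' ∈ p →
      Kap x (kv l U (lab e i)) → Kap x' (kv l' U' (lab e i)) → Tr p i l u → Tr p i l' u' →
      ¬ (u ∈ U ↔ u' ∈ U') → x ∩ (m ∪ m') ≠ x' ∩ (m ∪ m')) := by
    apply_rules (transparency := .reducible) (maxDepth := 999) only [he, hK, DMap.tR, DMap.tD,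
      DMap.kv, DMap.lab, DMap.seg, DMap.nn, Dfn.tr] using is_poly
  refine ((((((h1.and h2).and h3).and h4).and h5).and h6).and h7).congr' (fun p _ => ?_)
  constructor
  · intro h
    exact ⟨⟨⟨⟨⟨⟨h.tok, h.fin⟩, h.funC⟩, h.funD⟩, h.dec⟩, h.obey⟩, h.sep⟩
  · rintro ⟨⟨⟨⟨⟨⟨h1, h2⟩, h3⟩, h4⟩, h5⟩, h6⟩, h7⟩
    exact ⟨h1, h2, h3, h4, h5, h6, h7⟩

end

theorem stmt_pos : Stmt_pos := by
  intro M _ w I e Kap S
  set T : V := ZFSet.sep (IsTok I e Kap) I with hT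
  have hTM : T ∈ M := ZFm.sep_mem' S.dfn_tok S.I_mem
  have hF : FinP T ∈ M := (DMap.FinP (A := M) (M := M) (Γ := V) (DMap.const hTM hTM)).mem
    (γ := T) (inM_V.2 hTM)
  have hPM : ZFSet.sep (CondM M I e Kap) (FinP T) ∈ M := ZFm.sep_mem' S.dfn_condM hF
  have hsub : ∀ p, Cond I e Kap p → p ∈ FinP T := by
    intro p hp
    exact mem_FinP.2 ⟨fun t ht => ZFSet.mem_sep.2 ⟨S.tok_mem_I (hp.tok t ht), hp.tok t ht⟩, hp.fin⟩
  have hP : IsPos I e Kap (ZFSet.sep (CondM M I e Kap) (FinP T)) := by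
    intro p
    rw [ZFSet.mem_sep]
    constructor
    · rintro ⟨h1, h2⟩
      exact (S.cond_iff (TrC.trans hF h1)).2 h2
    · intro h
      exact ⟨hsub p h, (S.cond_iff (TrC.trans hF (hsub p h))).1 h⟩
  have hPI : ∀ p ∈ ZFSet.sep (CondM M I e Kap) (FinP T), p ∈ I := by
    intro p hp
    have h1 := mem_FinP.1 (ZFSet.mem_sep.1 hp).1
    exact S.fin_mem_I (fun t ht => (ZFSet.mem_sep.1 (h1.1 ht)).1) h1.2
  refine ⟨_, hPM, hP, ?_, ?_⟩
  · refine (hP ∅).2 ⟨?_, ?_, ?_, ?_, ?_, ?_, ?_⟩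
    · exact fun t ht => absurd ht (ZFSet.notMem_empty t)
    · have : {t | t ∈ (∅ : V)} = ∅ := by
        ext t
        simp
      rw [this]
      exact Set.finite_empty
    · exact fun i n h => absurd h.1 (ZFSet.notMem_empty _)
    · exact fun i n h => absurd h.1 (ZFSet.notMem_empty _)
    · exact fun i x m l U h => absurd h (ZFSet.notMem_empty _)
    · exact fun i x m l U u m' ε h => absurd h (ZFSet.notMem_empty _)
    · exact fun i x m l U u x' m' l' U' u' h => absurd h (ZFSet.notMem_empty _)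
  · intro τ hτ hs hc
    refine S.mem_I hτ hc fun y hy => ?_
    obtain ⟨n, hn, p, hp, rfl⟩ := ZFSet.mem_prod.1 (hs hy)
    exact S.pair_mem_I (S.omega_sub_I hn) (hPI p hp)

end Pool.Agent.CTM
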