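import Mathlib

/-!
Definitions for the hand-in of MP_ea2134_lc (non-typicality and lower cones of reals): transitive
models of ZFC, their reals, second-order arithmetic, smallness, typicality. This file is
self-contained (it uses only Mathlib).
-/

set_option autoImplicit false

namespace Pool.Agent.CTM.Pub

/-! ### Transitive models of ZFC -/

/-- Formulas of the language of set theory, with free variables among the first `n`. -/
inductive SetFormula : ℕ → Type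
  | mem {n : ℕ} (i j : Fin n) : SetFormula n
  | eq {n : ℕ} (i j : Fin n) : SetFormula n
  | not {n : ℕ} (φ : SetFormula n) : SetFormula n
  | and {n : ℕ} (φ ψ : SetFormula n) : SetFormula n
  | all {n : ℕ} (φ : SetFormula (n + 1)) : SetFormula n

/-- Truth in the structure `(N, ∈)`: quantifiers range over `N`. In `all φ` the quantified
variable is the last one. -/
def SetFormula.Holds (N : Set ZFSet.{0}) : ∀ {n : ℕ}, SetFormula n → (Fin n → ZFSet.{0}) → Prop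
  | _, .mem i j, v => v i ∈ v j
  | _, .eq i j, v => v i = v j
  | _, .not φ, v => ¬ φ.Holds N v
  | _, .and φ ψ, v => φ.Holds N v ∧ ψ.Holds N v
  | _, .all φ, v => ∀ x ∈ N, φ.Holds N (Fin.snoc v x)

/-- `N` is a transitive class of sets and `(N, ∈)` is a model of ZFC. All principles are stated
in first-order form, with all quantifiers bounded by `N`; separation and replacement are schemes
over all formulas, with parameters. -/
structure ModelZFC (N : Set ZFSet.{0}) : Prop where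
  transitive : ∀ x ∈ N, ∀ y ∈ x, y ∈ N
  extensionality : ∀ x ∈ N, ∀ y ∈ N, (∀ z ∈ N, z ∈ x ↔ z ∈ y) → x = y
  foundation : ∀ x ∈ N, (∃ y ∈ N, y ∈ x) → ∃ y ∈ N, y ∈ x ∧ ∀ z ∈ N, z ∈ x → z ∉ y
  pairing : ∀ x ∈ N, ∀ y ∈ N, ∃ z ∈ N, ∀ t ∈ N, t ∈ z ↔ t = x ∨ t = y
  union : ∀ x ∈ N, ∃ u ∈ N, ∀ t ∈ N, t ∈ u ↔ ∃ z ∈ N, z ∈ x ∧ t ∈ z
  power : ∀ x ∈ N, ∃ p ∈ N, ∀ t ∈ N, t ∈ p ↔ ∀ z ∈ N, z ∈ t → z ∈ x
  infinity : ∃ x ∈ N, (∃ e ∈ N, (∀ z ∈ N, z ∉ e) ∧ e ∈ x) ∧
    ∀ y ∈ N, y ∈ x → ∃ s ∈ N, s ∈ x ∧ ∀ t ∈ N, t ∈ s ↔ t ∈ y ∨ t = y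
  separation : ∀ (n : ℕ) (φ : SetFormula (n + 1)) (v : Fin n → ZFSet.{0}), (∀ i, v i ∈ N) →
    ∀ x ∈ N, ∃ y ∈ N, ∀ t ∈ N, t ∈ y ↔ t ∈ x ∧ φ.Holds N (Fin.snoc v t)
  replacement : ∀ (n : ℕ) (φ : SetFormula (n + 2)) (v : Fin n → ZFSet.{0}), (∀ i, v i ∈ N) →
    ∀ a ∈ N, (∀ x ∈ N, x ∈ a → ∃! y, y ∈ N ∧
      φ.Holds N (Fin.snoc (Fin.snoc v x : Fin (n + 1) → ZFSet.{0}) y)) →
    ∃ b ∈ N, ∀ y ∈ N, y ∈ b ↔ ∃ x ∈ N, x ∈ a ∧
      φ.Holds N (Fin.snoc (Fin.snoc v x : Fin (n + 1) → ZFSet.{0}) y)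
  choice : ∀ x ∈ N, (∀ y ∈ N, y ∈ x → ∃ z ∈ N, z ∈ y) →
    (∀ y ∈ N, ∀ y' ∈ N, y ∈ x → y' ∈ x → (∃ z ∈ N, z ∈ y ∧ z ∈ y') → y = y') →
    ∃ c ∈ N, ∀ y ∈ N, y ∈ x → ∃! z, z ∈ N ∧ z ∈ y ∧ z ∈ c

/-! ### Second-order arithmetic -/

/-- Number terms, with variables among the first `n`. -/
inductive NumTerm (n : ℕ) : Type
  | var (i : Fin n) : NumTerm n
  | zero : NumTerm n
  | one : NumTerm n
  | add (s t : NumTerm n) : NumTerm n
  | mul (s t : NumTerm n) : NumTerm n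

/-- The value of a number term. -/
def NumTerm.val {n : ℕ} (a : Fin n → ℕ) : NumTerm n → ℕ
  | .var i => a i
  | .zero => 0
  | .one => 1
  | .add s t => s.val a + t.val a
  | .mul s t => s.val a * t.val a

/-- `L₂`-formulas, with number variables among the first `n` and set variables among the
first `k`. -/
inductive L2Formula : ℕ → ℕ → Type
  | eq {n k : ℕ} (s t : NumTerm n) : L2Formula n k
  | lt {n k : ℕ} (s t : NumTerm n) : L2Formula n k
  | mem {n k : ℕ} (s : NumTerm n) (j : Fin k) : L2Formula n k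
  | not {n k : ℕ} (φ : L2Formula n k) : L2Formula n k
  | and {n k : ℕ} (φ ψ : L2Formula n k) : L2Formula n k
  | allNum {n k : ℕ} (φ : L2Formula (n + 1) k) : L2Formula n k
  | allSet {n k : ℕ} (φ : L2Formula n (k + 1)) : L2Formula n k

/-- Truth in the structure `(ω, R, +, ·, <, ∈, 0, 1)`: number variables range over the natural
numbers, set variables over the set `R` of sets of natural numbers. -/
def L2Formula.Holds (R : Set (Set ℕ)) :
    ∀ {n k : ℕ}, L2Formula n k → (Fin n → ℕ) → (Fin k → Set ℕ) → Prop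
  | _, _, .eq s t, a, _ => s.val a = t.val a
  | _, _, .lt s t, a, _ => s.val a < t.val a
  | _, _, .mem s j, a, X => s.val a ∈ X j
  | _, _, .not φ, a, X => ¬ φ.Holds R a X
  | _, _, .and φ ψ, a, X => φ.Holds R a X ∧ ψ.Holds R a X
  | _, _, .allNum φ, a, X => ∀ m : ℕ, φ.Holds R (Fin.snoc a m) X
  | _, _, .allSet φ, a, X => ∀ Y ∈ R, φ.Holds R a (Fin.snoc X Y)

/-! ### The reals of a model, smallness and typicality -/

/-- The von Neumann numeral of `n`. -/
noncomputable def numeral : ℕ → ZFSet.{0}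
  | 0 => ∅
  | n + 1 => insert (numeral n) (numeral n)

/-- A set of natural numbers, as a set of von Neumann numerals. -/
noncomputable def code (x : Set ℕ) : ZFSet.{0} :=
  ZFSet.sep (fun y => ∃ n ∈ x, y = numeral n) ZFSet.omega

/-- The reals of `N`. -/
def Reals (N : Set ZFSet.{0}) : Set (Set ℕ) := {x | code x ∈ N}

/-- `|D| < 2^ℵ₀` holds in `N`: no injection `g` of the reals of `N` into `D` belongs to `N` (the
graph of `g` is a ZF set `f`). -/
def Small (N : Set ZFSet.{0}) (D : Set (Set ℕ)) : Prop :=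
  ¬ ∃ g : Set ℕ → Set ℕ, Set.InjOn g (Reals N) ∧ Set.MapsTo g (Reals N) D ∧
    ∃ f ∈ N, ∀ p, p ∈ f ↔ ∃ x ∈ Reals N, p = ZFSet.pair (code x) (code (g x))

/-- `N ⊨ Tp(a, b)` for the `k`-tuple `b` of reals: there is no `L₂`-formula `φ` with parameters
`b` that holds at `a` (over the reals of `N`) and such that the set of all reals of `N` that
satisfy it is of size less than the continuum in `N`. -/
def Typical (N : Set ZFSet.{0}) (k : ℕ) (b : Fin k → Set ℕ) (a : Set ℕ) : Prop :=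
  ¬ ∃ φ : L2Formula 0 (k + 1), φ.Holds (Reals N) Fin.elim0 (Fin.snoc b a) ∧
    Small N {x | x ∈ Reals N ∧ φ.Holds (Reals N) Fin.elim0 (Fin.snoc b x)}

end Pool.Agent.CTM.Pub
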