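import Pool.Agent.CTM.ZF

/-!
The recursion theorem in a transitive class that satisfies ZF without power set.
-/

set_option autoImplicit false

namespace Pool.Agent.CTM

section

variable {Γ Δ : Type 1} [Ctx Γ] [Ctx Δ] {A M : Set V}

theorem pair_mem_iff [ZFm M] {x y : V} : ZFSet.pair x y ∈ M ↔ x ∈ M ∧ y ∈ M := by
  constructor
  · intro h
    have h1 : ({x, y} : V) ∈ M := TrC.trans h (by simp [ZFSet.pair])
    exact ⟨TrC.trans h1 (by simp), TrC.trans h1 (by simp)⟩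
  · rintro ⟨h, h'⟩
    have := ZFm.upair_mem (ZFm.upair_mem h h) (ZFm.upair_mem h h')
    rwa [ZFSet.pair_eq_singleton] at this

theorem mem_gr {F : V → V} {a p : V} : p ∈ gr F a ↔ ∃ x ∈ a, ZFSet.pair x (F x) = p := mem_rep

theorem mem_res {f a p : V} : p ∈ res f a ↔ p ∈ f ∧ ∃ x ∈ a, ∃ y, p = ZFSet.pair x y := by
  unfold res
  rw [ZFSet.mem_sep]
  constructor
  · rintro ⟨h, x, hx, y, _, e⟩
    exact ⟨h, x, hx, y, e⟩
  · rintro ⟨h, x, hx, y, e⟩
    exact ⟨h, x, hx, y, mem_sUU_of_pair_right (e ▸ h), e⟩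

/-- If `g` consists of pairs `(x, F x)` and is defined on `a` then its restriction to `a` is
the graph of `F` on `a`. -/
theorem res_eq_gr {F : V → V} {g a : V} (h : ∀ x y, ZFSet.pair x y ∈ g → x ∈ a → y = F x)
    (h' : a ⊆ dom g) : res g a = gr F a := by
  ext p
  rw [mem_res, mem_gr]
  constructor
  · rintro ⟨hp, x, hx, y, rfl⟩
    exact ⟨x, hx, by rw [h x y hp hx]⟩
  · rintro ⟨x, hx, rfl⟩
    obtain ⟨y, hy⟩ := mem_dom.1 (h' hx)
    have := h x y hy hx
    subst this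
    exact ⟨hy, x, hx, _, rfl⟩

/-- Attempts at the recursion. -/
def Att (D : V → V) (H : V → V → V) (g : V) : Prop :=
  ∀ p ∈ g, ∃ x ∈ ZFSet.sUnion (ZFSet.sUnion g), ∃ y ∈ ZFSet.sUnion (ZFSet.sUnion g),
    p = ZFSet.pair x y ∧ D x ⊆ dom g ∧ y = H x (res g (D x))

variable {D : V → V} {H : V → V → V} {F : V → V} {R : V → V → Prop}

theorem Att.pair {g x y : V} (h : Att D H g) (hp : ZFSet.pair x y ∈ g) :
    D x ⊆ dom g ∧ y = H x (res g (D x)) := by
  obtain ⟨x', _, y', _, e, h1, h2⟩ := h _ hp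
  obtain ⟨rfl, rfl⟩ := ZFSet.pair_injective e
  exact ⟨h1, h2⟩

theorem att_eq [ZFm M] (hF : ∀ x ∈ M, F x = H x (gr F (D x))) (wf : WellFounded R)
    (hR : ∀ x ∈ M, ∀ y ∈ D x, R y x) {g : V} (hg : g ∈ M) (h : Att D H g) (x : V) :
    ∀ y, ZFSet.pair x y ∈ g → y = F x := by
  induction x using wf.induction with
  | _ x ih =>
    intro y hy
    obtain ⟨h1, h2⟩ := h.pair hy
    have hx : x ∈ M := (pair_mem_iff.1 (TrC.trans hg hy)).1
    rw [h2, hF x hx]
    congr 1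
    exact res_eq_gr (fun x' y' hp hx' => ih x' (hR x hx x' hx') y' hp) h1

theorem att_iff [ZFm M] (hF : ∀ x ∈ M, F x = H x (gr F (D x))) (wf : WellFounded R)
    (hR : ∀ x ∈ M, ∀ y ∈ D x, R y x) {g : V} (hg : g ∈ M) :
    Att D H g ↔ ∀ p ∈ g, ∃ x, p = ZFSet.pair x (F x) ∧ D x ⊆ dom g := by
  constructor
  · intro h p hp
    obtain ⟨x, _, y, _, rfl, h1, _⟩ := h p hp
    exact ⟨x, by rw [att_eq hF wf hR hg h x y hp], h1⟩
  · intro h p hp
    obtain ⟨x, rfl, h1⟩ := h p hp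
    refine ⟨x, mem_sUU_of_pair_left hp, F x, mem_sUU_of_pair_right hp, rfl, h1, ?_⟩
    have hx : x ∈ M := (pair_mem_iff.1 (TrC.trans hg hp)).1
    rw [res_eq_gr (fun x' y' hp' _ => ?_) h1]
    · exact hF x hx
    · obtain ⟨x'', e, _⟩ := h _ hp'
      obtain ⟨rfl, rfl⟩ := ZFSet.pair_injective e
      rfl

theorem att_exists [ZFm M] (hD : DMap M M D) (hH : DMap M M (fun p : V × V => H p.1 p.2))
    (hF : ∀ x ∈ M, F x = H x (gr F (D x))) (wf : WellFounded R)
    (hR : ∀ x ∈ M, ∀ y ∈ D x, R y x) (x : V) : x ∈ M → ∃ g ∈ M, Att D H g ∧ x ∈ dom g := by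
  have hD' : ∀ {Γ : Type 1} [Ctx Γ] {f : Γ → V}, DMap M M f → DMap M M (fun γ => D (f γ)) :=
    fun h => hD.comp h
  have hH' : ∀ {Γ : Type 1} [Ctx Γ] {f g : Γ → V}, DMap M M f → DMap M M g →
    DMap M M (fun γ => H (f γ) (g γ)) := fun h h' => hH.comp (h.prodMk h')
  have hA : Dfn M M (fun g : V => Att D H g) := by
    unfold Att
    apply_rules (transparency := .reducible) (maxDepth := 999) only [DMap.dom, DMap.res, hD', hH'] using is_poly
  induction x using wf.induction with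
  | _ x ih =>
    intro hx
    have hDx : D x ∈ M := hD.mem (inM_V.2 hx)
    obtain ⟨b, hb, h1⟩ := ZFm.coll (M := M) (P := fun y g => Att D H g ∧ y ∈ dom g) (by
      refine Dfn.and (hA.comp (DMap.snd DMap.id)) ?_
      apply_rules (transparency := .reducible) (maxDepth := 999) only [DMap.dom] using is_poly) hDx (fun y hy => by
        obtain ⟨g, hg, h⟩ := ih y (hR x hx y hy) (TrC.trans hDx hy)
        exact ⟨g, hg, h⟩)
    have hb' : ZFSet.sep (Att D H) b ∈ M := ZFm.sep_mem hA hb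
    set G : V := ZFSet.sUnion (ZFSet.sep (Att D H) b) with hG
    have hGM : G ∈ M := ZFm.sUnion_mem hb'
    have hGp : ∀ p ∈ G, ∃ x, p = ZFSet.pair x (F x) ∧ D x ⊆ dom G := by
      intro p hp
      rw [hG, ZFSet.mem_sUnion] at hp
      obtain ⟨g, hg, hp⟩ := hp
      rw [ZFSet.mem_sep] at hg
      obtain ⟨x', e, h2⟩ := (att_iff hF wf hR (TrC.trans hb hg.1)).1 hg.2 p hp
      refine ⟨x', e, fun z hz => ?_⟩
      obtain ⟨y, hy⟩ := mem_dom.1 (h2 hz)
      refine mem_dom.2 ⟨y, ?_⟩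
      rw [hG, ZFSet.mem_sUnion]
      exact ⟨g, ZFSet.mem_sep.2 hg, hy⟩
    have hDG : D x ⊆ dom G := by
      intro y hy
      obtain ⟨g, hg, h2, h3⟩ := h1 y hy
      obtain ⟨z, hz⟩ := mem_dom.1 h3
      refine mem_dom.2 ⟨z, ?_⟩
      rw [hG, ZFSet.mem_sUnion]
      exact ⟨g, ZFSet.mem_sep.2 ⟨hg, h2⟩, hz⟩
    have hres : res G (D x) = gr F (D x) := by
      refine res_eq_gr (fun x' y' hp _ => ?_) hDG
      obtain ⟨x'', e, _⟩ := hGp _ hp
      obtain ⟨rfl, rfl⟩ := ZFSet.pair_injective e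
      rfl
    have hresM : res G (D x) ∈ M := by
      have : DMap M M (fun p : V × V => res p.1 p.2) := DMap.res (DMap.fst DMap.id)
        (DMap.snd DMap.id)
      exact this.mem (γ := (G, D x)) (inM_prod.2 ⟨inM_V.2 hGM, hDx⟩)
    have hFx : F x ∈ M := by
      rw [hF x hx, ← hres]
      exact hH.mem (γ := (x, res G (D x))) (inM_prod.2 ⟨inM_V.2 hx, hresM⟩)
    refine ⟨insert (ZFSet.pair x (F x)) G, ?_, ?_, ?_⟩
    · have : DMap M M (fun p : V × V => (insert p.1 p.2 : V)) := DMap.insert (DMap.fst DMap.id)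
        (DMap.snd DMap.id)
      exact this.mem (γ := (ZFSet.pair x (F x), G)) (inM_prod.2
        ⟨inM_V.2 (pair_mem_iff.2 ⟨hx, hFx⟩), hGM⟩)
    · rw [att_iff hF wf hR]
      · intro p hp
        have hsub : dom G ⊆ dom (insert (ZFSet.pair x (F x)) G) := by
          intro z hz
          obtain ⟨y, hy⟩ := mem_dom.1 hz
          exact mem_dom.2 ⟨y, by simp [hy]⟩
        rw [ZFSet.mem_insert_iff] at hp
        rcases hp with rfl | hp
        · exact ⟨x, rfl, fun z hz => hsub (hDG hz)⟩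
        · obtain ⟨x', e, h2⟩ := hGp p hp
          exact ⟨x', e, fun z hz => hsub (h2 hz)⟩
      · have : DMap M M (fun p : V × V => (insert p.1 p.2 : V)) := DMap.insert (DMap.fst DMap.id)
          (DMap.snd DMap.id)
        exact this.mem (γ := (ZFSet.pair x (F x), G)) (inM_prod.2
          ⟨inM_V.2 (pair_mem_iff.2 ⟨hx, hFx⟩), hGM⟩)
    · exact mem_dom.2 ⟨F x, by simp⟩

end

section

variable {Γ : Type 1} [Ctx Γ] {A M : Set V}

/-- **Recursion theorem.** A function defined by recursion along a well-founded relation, with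
definable sets of predecessors and definable recursion step, is definable. The recursion may
depend on parameters `γ`. -/
theorem DMap.recΓ [ZFm M] {D : Γ → V → V} {H : Γ → V → V → V} {F : Γ → V → V}
    (hD : DMap A M (fun p : Γ × V => D p.1 p.2))
    (hH : DMap A M (fun p : (Γ × V) × V => H p.1.1 p.1.2 p.2))
    (hF : ∀ γ, InM M γ → ∀ x ∈ M, F γ x = H γ x (gr (F γ) (D γ x)))
    (R : V → V → Prop) (wf : WellFounded R)
    (hR : ∀ γ, InM M γ → ∀ x ∈ M, ∀ y ∈ D γ x, R y x) :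
    DMap A M (fun p : Γ × V => F p.1 p.2) := by
  have hDγ : ∀ γ, InM M γ → DMap M M (D γ) := by
    intro γ hγ
    have h1 : DMap (A ∪ M) M (fun z : V => (γ, z)) :=
      DMap.prodMk (DMap.constΓ (fun i => Or.inr (hγ i)) hγ) DMap.id
    have h2 : DMap (A ∪ M) M (D γ) := (hD.mono Set.subset_union_left).comp h1
    exact DMap.of_graph (fun x hx => h2.mem hx) h2.graph.toM
  have hHγ : ∀ γ, InM M γ → DMap M M (fun p : V × V => H γ p.1 p.2) := by
    intro γ hγ
    have h1 : DMap (A ∪ M) M (fun z : V × V => ((γ, z.1), z.2)) :=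
      DMap.prodMk (DMap.prodMk (DMap.constΓ (fun i => Or.inr (hγ i)) hγ)
        (DMap.fst DMap.id)) (DMap.snd DMap.id)
    have h2 : DMap (A ∪ M) M (fun p : V × V => H γ p.1 p.2) :=
      (hH.mono Set.subset_union_left).comp h1
    exact DMap.of_graph (fun x hx => h2.mem hx) h2.graph.toM
  have hex : ∀ γ, InM M γ → ∀ x ∈ M, ∃ g ∈ M, Att (D γ) (H γ) g ∧ ZFSet.pair x (F γ x) ∈ g := by
    intro γ hγ x hx
    obtain ⟨g, hg, h1, h2⟩ := att_exists (hDγ γ hγ) (hHγ γ hγ) (hF γ hγ) wf (hR γ hγ) x hx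
    obtain ⟨y, hy⟩ := mem_dom.1 h2
    refine ⟨g, hg, h1, ?_⟩
    rwa [← att_eq (hF γ hγ) wf (hR γ hγ) hg h1 x y hy]
  refine DMap.of_graph (fun p hp => ?_) ?_
  · obtain ⟨hγ, hx⟩ := inM_prod.1 hp
    obtain ⟨g, hg, _, h2⟩ := hex p.1 hγ p.2 hx
    exact (pair_mem_iff.1 (TrC.trans hg h2)).2
  · refine Dfn.congr' (P := fun q : (Γ × V) × V => ∃ g ∈ M, Att (D q.1.1) (H q.1.1) g ∧
      ZFSet.pair q.1.2 q.2 ∈ g) (fun q hq => ?_) ?_
    · obtain ⟨hγ, hz⟩ := inM_prod.1 hq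
      obtain ⟨hγ, hx⟩ := inM_prod.1 hγ
      constructor
      · intro e
        obtain ⟨g, hg, h1, h2⟩ := hex q.1.1 hγ q.1.2 hx
        exact ⟨g, hg, h1, e ▸ h2⟩
      · rintro ⟨g, hg, h1, h2⟩
        exact att_eq (hF _ hγ) wf (hR _ hγ) hg h1 _ _ h2
    · have hD' : ∀ {Δ : Type 1} [Ctx Δ] {c : Δ → Γ} {f : Δ → V}, DMap A M c → DMap A M f →
        DMap A M (fun γ => D (c γ) (f γ)) := fun hc h => hD.comp (hc.prodMk h)
      have hH' : ∀ {Δ : Type 1} [Ctx Δ] {c : Δ → Γ} {f g : Δ → V}, DMap A M c → DMap A M f →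
        DMap A M g → DMap A M (fun γ => H (c γ) (f γ) (g γ)) :=
        fun hc h h' => hH.comp ((hc.prodMk h).prodMk h')
      unfold Att
      apply_rules (transparency := .reducible) (maxDepth := 999) only [DMap.dom, DMap.res, hD', hH'] using is_poly

/-- Recursion theorem without parameters. -/
theorem DMap.recV [ZFm M] {D : V → V} {H : V → V → V} {F : V → V}
    (hD : DMap A M D) (hH : DMap A M (fun p : V × V => H p.1 p.2))
    (hF : ∀ x ∈ M, F x = H x (gr F (D x)))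
    (R : V → V → Prop) (wf : WellFounded R) (hR : ∀ x ∈ M, ∀ y ∈ D x, R y x) :
    DMap A M F := by
  have h := DMap.recΓ (Γ := PUnit.{2}) (D := fun _ => D) (H := fun _ => H) (F := fun _ => F)
    (hD.comp (DMap.snd DMap.id))
    (hH.comp (DMap.prodMk (DMap.snd (DMap.fst DMap.id)) (DMap.snd DMap.id)))
    (fun _ _ => hF) R wf (fun _ _ => hR)
  exact h.comp (g := fun x : V => (PUnit.unit, x))
    (DMap.prodMk (DMap.constΓ inM_unit inM_unit) DMap.id)

/-- `∈`-recursion. -/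
theorem DMap.recMem [ZFm M] {H : V → V → V} {F : V → V}
    (hH : DMap A M (fun p : V × V => H p.1 p.2))
    (hF : ∀ x ∈ M, F x = H x (gr F x)) : DMap A M F :=
  DMap.recV DMap.id hH hF (· ∈ ·) ZFSet.mem_wf (fun _ _ _ h => h)

end

end Pool.Agent.CTM
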