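import Pool.Agent.CTM.Chk
import Pool.Agent.CTM.Pos
import Pool.Agent.CTM.Compat

/-!
Forcing facts for the rigidity of the generic reals (MP_ea2134_lc, module RIG).
-/

set_option autoImplicit false

namespace Pool.Agent.CTM

namespace Rig

section

variable {Γ : Type 1} [Ctx Γ]

theorem valΓ_V (G x : V) : valΓ G x = val G x := rfl

theorem valΓ_prod (G : V) (γ : Γ) (x : V) :
    valΓ G ((γ, x) : Γ × V) = (valΓ G γ, val G x) := by
  unfold valΓ
  show (Ctx.of (Fin.init (fun i => val G ((Fin.snoc (Ctx.get γ) x : Fin (Ctx.n Γ + 1) → V) i))),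
    val G ((Fin.snoc (Ctx.get γ) x : Fin (Ctx.n Γ + 1) → V) (Fin.last _))) = _
  rw [Fin.snoc_last]
  congr 2
  funext i
  simp [Fin.init]

/-! ### Absolute predicates -/

/-- `seg x m ∈ d`. -/
def Sd (x m d : V) : Prop := ∃ s ∈ d, ∃ y ∈ s, ∃ v ∈ y, v = x ∩ m ∧ s = ZFSet.pair m v

theorem sd_iff {x m d : V} : Sd x m d ↔ seg x m ∈ d := by
  constructor
  · rintro ⟨s, hs, y, _, v, _, rfl, rfl⟩
    exact hs
  · intro h
    exact ⟨_, h, {m, x ∩ m}, by simp [seg, ZFSet.pair], x ∩ m, by simp, rfl, rfl⟩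

theorem sd_d0 {f g h : Γ → V} (hf : Prj f) (hg : Prj g) (hh : Prj h) :
    D0 (fun γ => Sd (f γ) (g γ) (h γ)) := by
  have : D0 (fun p : (V × V) × V => Sd p.1.1 p.1.2 p.2) := by
    unfold Sd
    apply_rules (transparency := .reducible) (maxDepth := 999) only [D0.isInter, D0.isPair]
      using is_poly
  exact this.comp ((hf.prodMk hg).prodMk hh)

/-- All segments of `x` that are longer than `k` are in `d`. -/
def In (W x k d : V) : Prop := ∀ m ∈ W, k ⊆ m → Sd x m d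

/-- No segment of `x` that is longer than `k` is in `d`. -/
def Out (W x k d : V) : Prop := ∀ m ∈ W, k ⊆ m → ¬ Sd x m d

/-- `Codes`, as an absolute predicate. -/
def CodesT (T W c d : V) : Prop := ∀ t ∈ T, ∀ y ∈ t, ∀ x ∈ y, ∀ B ∈ y, ∀ y' ∈ B, ∀ l ∈ y',
  ∀ U ∈ y', t = ZFSet.pair x B → B = ZFSet.pair l U →
    ∃ k ∈ W, ∀ m ∈ W, k ⊆ m → (Sd x m d ↔ ∃ u ∈ U, u = c ∩ l)

/-- `c` is none of the reals `{n : (i, n) ∈ R}`, `i ∈ J`. -/
def DiffT (J W R c : V) : Prop := ∀ i ∈ J, ¬ ∀ n ∈ W, (n ∈ c ↔ ∃ t ∈ R, t = ZFSet.pair i n)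

theorem in_d0 : D0 (fun p : ((V × V) × V) × V => In p.1.1.1 p.1.1.2 p.1.2 p.2) := by
  unfold In
  apply_rules (transparency := .reducible) (maxDepth := 999) only [sd_d0] using is_poly

theorem out_d0 : D0 (fun p : ((V × V) × V) × V => Out p.1.1.1 p.1.1.2 p.1.2 p.2) := by
  unfold Out
  apply_rules (transparency := .reducible) (maxDepth := 999) only [sd_d0] using is_poly

theorem codesT_d0 {f g h k : Γ → V} (hf : Prj f) (hg : Prj g) (hh : Prj h) (hk : Prj k) :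
    D0 (fun γ => CodesT (f γ) (g γ) (h γ) (k γ)) := by
  have : D0 (fun p : ((V × V) × V) × V => CodesT p.1.1.1 p.1.1.2 p.1.2 p.2) := by
    unfold CodesT
    apply_rules (transparency := .reducible) (maxDepth := 999) only [sd_d0, D0.isInter, D0.isPair]
      using is_poly
  exact this.comp (((hf.prodMk hg).prodMk hh).prodMk hk)

theorem diffT_d0 {f g h k : Γ → V} (hf : Prj f) (hg : Prj g) (hh : Prj h) (hk : Prj k) :
    D0 (fun γ => DiffT (f γ) (g γ) (h γ) (k γ)) := by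
  have : D0 (fun p : ((V × V) × V) × V => DiffT p.1.1.1 p.1.1.2 p.1.2 p.2) := by
    unfold DiffT
    apply_rules (transparency := .reducible) (maxDepth := 999) only [D0.isPair] using is_poly
  exact this.comp (((hf.prodMk hg).prodMk hh).prodMk hk)

theorem codesT_iff {Kap : V → V → Prop} {a T c d : V}
    (hT : ∀ t, t ∈ T ↔ ∃ x l U, l ∈ ZFSet.omega ∧ Kap x (kv l U a) ∧
      t = ZFSet.pair x (ZFSet.pair l U)) :
    CodesT T ZFSet.omega c d ↔ Codes Kap a c d := by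
  have h0 : ∀ x m : V, x ∈ ({x, m} : V) ∧ m ∈ ({x, m} : V) ∧ ({x, m} : V) ∈ ZFSet.pair x m := by
    intro x m
    simp [ZFSet.pair]
  constructor
  · intro h x l U hl hk
    obtain ⟨k, hk', h1⟩ := h _ ((hT _).2 ⟨x, l, U, hl, hk, rfl⟩) _ (h0 _ _).2.2 x (h0 _ _).1 _
      (h0 _ _).2.1 _ (h0 _ _).2.2 l (h0 _ _).1 U (h0 _ _).2.1 rfl rfl
    refine ⟨k, hk', fun m hm hkm => ?_⟩
    rw [← sd_iff, h1 m hm hkm]
    constructor
    · rintro ⟨u, hu, rfl⟩
      exact hu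
    · intro hu
      exact ⟨_, hu, rfl⟩
  · intro h t ht y _ x _ B _ y' _ l _ U _ e1 e2
    subst e2
    obtain ⟨x', l', U', hl, hk, e3⟩ := (hT t).1 ht
    obtain ⟨rfl, e4⟩ := ZFSet.pair_injective (e1.symm.trans e3)
    obtain ⟨rfl, rfl⟩ := ZFSet.pair_injective e4
    obtain ⟨k, hk', h1⟩ := h x l U hl hk
    refine ⟨k, hk', fun m hm hkm => ?_⟩
    rw [sd_iff, h1 m hm hkm]
    constructor
    · intro hu
      exact ⟨_, hu, rfl⟩
    · rintro ⟨u, hu, rfl⟩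
      exact hu

theorem diffT_iff {J R G c : V} (hR : ∀ t, t ∈ R ↔ ∃ i ∈ J, ∃ n ∈ ZFSet.omega, ∃ p ∈ G,
      tC i n (nn 1) ∈ p ∧ t = ZFSet.pair i n) (hc : c ⊆ ZFSet.omega) :
    DiffT J ZFSet.omega R c ↔ ∀ i ∈ J, c ≠ cre G i := by
  refine forall₂_congr fun i hi => not_congr ?_
  constructor
  · intro h
    ext n
    unfold cre
    rw [ZFSet.mem_sep]
    constructor
    · intro hn
      obtain ⟨t, ht, rfl⟩ := (h n (hc hn)).1 hn
      obtain ⟨i', _, n', hn', p, hp, h1, e⟩ := (hR _).1 ht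
      obtain ⟨rfl, rfl⟩ := ZFSet.pair_injective e
      exact ⟨hn', p, hp, h1⟩
    · rintro ⟨hn, p, hp, h1⟩
      exact (h n hn).2 ⟨_, (hR _).2 ⟨i, hi, n, hn, p, hp, h1, rfl⟩, rfl⟩
  · rintro rfl n hn
    unfold cre
    rw [ZFSet.mem_sep]
    constructor
    · rintro ⟨_, p, hp, h1⟩
      exact ⟨_, (hR _).2 ⟨i, hi, n, hn, p, hp, h1, rfl⟩, rfl⟩
    · rintro ⟨t, ht, rfl⟩
      obtain ⟨i', _, n', hn', p, hp, h1, e⟩ := (hR _).1 ht
      obtain ⟨rfl, rfl⟩ := ZFSet.pair_injective e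
      exact ⟨hn', p, hp, h1⟩

end

/-! ### Sets of the ground model -/

section

variable {M : Set V} [ZFCm M] {w I e : V} {Kap : V → V → Prop}

/-- The set of all triples `(x, (l, U))` with `Kap x ((l, U), a)`. -/
theorem exists_T (S : Setup M w I e Kap) {a : V} (ha : a ∈ M) : ∃ T ∈ M, ∀ t, t ∈ T ↔
    ∃ x l U, l ∈ ZFSet.omega ∧ Kap x (kv l U a) ∧ t = ZFSet.pair x (ZFSet.pair l U) := by
  set R : V := ZFSet.sep (fun x => x ∈ M) (ZFSet.powerset ZFSet.omega) with hR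
  have hRM : R ∈ M := ZFCm.power_mem ZFm.omega_mem
  have hk : ∀ {Δ : Type 1} [Ctx Δ] {f g : Δ → V}, DMap M M f → DMap M M g →
      Dfn M M (fun γ => Kap (f γ) (g γ)) := fun hf hg => S.kap_dfn' hf hg
  obtain ⟨b, hb, hb1⟩ := ZFm.coll (M := M) (P := fun x k => Kap x k ∨ ((∀ k' ∈ M, ¬ Kap x k') ∧
    k = x)) (by
      apply_rules (transparency := .reducible) (maxDepth := 999) only [hk] using is_poly) hRM
    (fun x hx => by
      by_cases h : ∃ k ∈ M, Kap x k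
      · obtain ⟨k, hk, h1⟩ := h
        exact ⟨k, hk, Or.inl h1⟩
      · exact ⟨x, TrC.trans hRM hx, Or.inr ⟨fun k' hk' h1 => h ⟨k', hk', h1⟩, rfl⟩⟩)
  have hconstw : ∀ {Δ : Type 1} [Ctx Δ], DMap M M (fun _ : Δ => (ZFSet.omega : V)) :=
    DMap.const ZFm.omega_mem ZFm.omega_mem
  have hconsta : ∀ {Δ : Type 1} [Ctx Δ], DMap M M (fun _ : Δ => a) := DMap.const ha ha
  have hP : Dfn M M (fun t : V => ∃ x ∈ M, ∃ l ∈ (ZFSet.omega : V), ∃ U ∈ M,
      Kap x (kv l U a) ∧ t = ZFSet.pair x (ZFSet.pair l U)) := by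
    apply_rules (transparency := .reducible) (maxDepth := 999) only [hk, hconstw, hconsta,
      DMap.kv] using is_poly
  have hprod : ZFSet.prod R (ZFSet.sUnion (ZFSet.sUnion b)) ∈ M := by
    have h1 : DMap M M (fun p : V × V => ZFSet.prod p.1 p.2) :=
      DMap.prod (DMap.fst DMap.id) (DMap.snd DMap.id)
    exact h1.mem (γ := (R, ZFSet.sUnion (ZFSet.sUnion b))) (inM_prod.2 ⟨inM_V.2 hRM,
      ZFm.sUnion_mem (ZFm.sUnion_mem hb)⟩)
  refine ⟨_, ZFm.sep_mem' hP hprod, fun t => ?_⟩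
  rw [ZFSet.mem_sep]
  constructor
  · rintro ⟨_, x, _, l, hl, U, _, h1, rfl⟩
    exact ⟨x, l, U, hl, h1, rfl⟩
  · rintro ⟨x, l, U, hl, h1, rfl⟩
    obtain ⟨hx, hx', _⟩ := S.kap_real _ _ h1
    obtain ⟨hlM, hUM, _⟩ := S.kv_mem h1
    refine ⟨?_, x, hx, l, hl, U, hUM, h1, rfl⟩
    rw [ZFSet.pair_mem_prod]
    have hxR : x ∈ R := by
      rw [hR, ZFSet.mem_sep, ZFSet.mem_powerset]
      exact ⟨hx', hx⟩
    refine ⟨hxR, ?_⟩
    obtain ⟨k, hkb, h2⟩ := hb1 x hxR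
    have h3 : k = kv l U a := by
      rcases h2 with h2 | ⟨h2, _⟩
      · exact S.kap_fun _ _ _ h2 h1
      · exact absurd h1 (h2 _ (HC_sub (S.kap_real _ _ h1).2.2))
    rw [h3] at hkb
    exact mem_sUU_of_pair_left hkb

/-- The set of indices with label `a`. -/
noncomputable def Ja (I e a : V) : V := ZFSet.sep (fun i => lab e i = a) I

theorem mem_Ja {a i : V} : i ∈ Ja I e a ↔ i ∈ I ∧ lab e i = a := ZFSet.mem_sep

theorem Ja_mem (S : Setup M w I e Kap) {a : V} (ha : a ∈ M) : Ja I e a ∈ M := by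
  have hconste : ∀ {Δ : Type 1} [Ctx Δ], DMap M M (fun _ : Δ => e) := DMap.const S.e_mem S.e_mem
  have hconsta : ∀ {Δ : Type 1} [Ctx Δ], DMap M M (fun _ : Δ => a) := DMap.const ha ha
  refine ZFm.sep_mem ?_ S.I_mem
  apply_rules (transparency := .reducible) (maxDepth := 999) only [hconste, hconsta, DMap.lab]
    using is_poly

/-- A name for the set of all pairs `(i, n)` with `i ∈ J`, `n ∈ c_i`. -/
noncomputable def Rn (P J : V) : V := ZFSet.sep (fun t => ∃ i ∈ J, ∃ n ∈ (ZFSet.omega : V),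
    ∃ p ∈ P, tC i n (nn 1) ∈ p ∧ t = ZFSet.pair (chk (ZFSet.pair i n)) p)
  (ZFSet.prod (rep (ZFSet.prod J ZFSet.omega) chk) P)

theorem Rn_mem {P J : V} (hP : P ∈ M) (hJ : J ∈ M) : Rn P J ∈ M := by
  have hconstw : ∀ {Δ : Type 1} [Ctx Δ], DMap M M (fun _ : Δ => (ZFSet.omega : V)) :=
    DMap.const ZFm.omega_mem ZFm.omega_mem
  have hconstP : ∀ {Δ : Type 1} [Ctx Δ], DMap M M (fun _ : Δ => P) := DMap.const hP hP
  have hconstJ : ∀ {Δ : Type 1} [Ctx Δ], DMap M M (fun _ : Δ => J) := DMap.const hJ hJ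
  have hchk : ∀ {Δ : Type 1} [Ctx Δ] {f : Δ → V}, DMap M M f →
      DMap M M (fun γ => chk (f γ)) := fun h => (DMap_chk M M).comp h
  refine ZFm.sep_mem ?_ ?_
  · apply_rules (transparency := .reducible) (maxDepth := 999) only [hconstw, hconstP, hconstJ,
      hchk, DMap.tC, DMap.nn] using is_poly
  · have h1 : DMap M M (fun x : V => ZFSet.prod (rep (ZFSet.prod x ZFSet.omega) chk) P) := by
      apply_rules (transparency := .reducible) (maxDepth := 999) only [hconstw, hconstP, hconstJ,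
        hchk, DMap.prod, DMap.rep] using is_poly
    exact h1.mem (inM_V.2 hJ)

omit [ZFCm M] in
theorem val_Rn {P J G : V} (hG : Generic M P G) (t : V) : t ∈ val G (Rn P J) ↔
    ∃ i ∈ J, ∃ n ∈ (ZFSet.omega : V), ∃ p ∈ G, tC i n (nn 1) ∈ p ∧ t = ZFSet.pair i n := by
  rw [mem_val]
  constructor
  · rintro ⟨σ, p, hp, h1, rfl⟩
    obtain ⟨_, i, hi, n, hn, p', _, h2, e⟩ := ZFSet.mem_sep.1 h1
    obtain ⟨rfl, rfl⟩ := ZFSet.pair_injective e
    exact ⟨i, hi, n, hn, p, hp, h2, val_chk hG.empty_mem _⟩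
  · rintro ⟨i, hi, n, hn, p, hp, h2, rfl⟩
    refine ⟨chk (ZFSet.pair i n), p, hp, ?_, (val_chk hG.empty_mem _).symm⟩
    refine ZFSet.mem_sep.2 ⟨?_, i, hi, n, hn, p, hG.sub hp, h2, rfl⟩
    rw [ZFSet.pair_mem_prod]
    exact ⟨mem_rep.2 ⟨_, ZFSet.pair_mem_prod.2 ⟨hi, hn⟩, rfl⟩, hG.sub hp⟩

/-! ### Forcing -/

/-- Truth lemma for the big statement. -/
theorem force_codes (hF : Stmt_forceD0) (S : Setup M w I e Kap) (hM : M.Countable) {P : V}
    (hP : P ∈ M) (h0 : ∅ ∈ P) {G c d a : V} (hG : Generic M P G) (hc : c ∈ M) (hd : d ∈ M)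
    (ha : a ∈ M) (h1 : Codes Kap a (val G c) (val G d)) (h2 : val G c ⊆ ZFSet.omega)
    (h3 : ∀ i ∈ I, lab e i = a → val G c ≠ cre G i) :
    ∃ p ∈ G, ∀ G', Generic M P G' → p ∈ G' → Codes Kap a (val G' c) (val G' d) ∧
      val G' c ⊆ ZFSet.omega ∧ ∀ i ∈ I, lab e i = a → val G' c ≠ cre G' i := by
  obtain ⟨T, hTM, hT⟩ := exists_T S ha
  have hd0 : D0 (fun p : ((((V × V) × V) × V) × V) × V =>
      CodesT p.1.1.1.1.1 p.1.1.1.1.2 p.1.2 p.2 ∧ p.1.2 ⊆ p.1.1.1.1.2 ∧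
        DiffT p.1.1.1.2 p.1.1.1.1.2 p.1.1.2 p.1.2) := by
    apply_rules (transparency := .reducible) (maxDepth := 999) only [codesT_d0, diffT_d0]
      using is_poly
  have hchkM : ∀ {x : V}, x ∈ M → chk x ∈ M := fun hx => (DMap_chk M M).mem (inM_V.2 hx)
  set J := Ja I e a with hJ
  have hJM : J ∈ M := Ja_mem S ha
  have hval : ∀ G', Generic M P G' →
      valΓ G' ((((((chk T, chk ZFSet.omega), chk J), Rn P J), c), d) :
        ((((V × V) × V) × V) × V) × V) =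
      (((((T, ZFSet.omega), J), val G' (Rn P J)), val G' c), val G' d) := by
    intro G' hG'
    rw [valΓ_prod, valΓ_prod, valΓ_prod, valΓ_prod, valΓ_prod, valΓ_V, val_chk hG'.empty_mem,
      val_chk hG'.empty_mem, val_chk hG'.empty_mem]
  have hiff : ∀ G', Generic M P G' → ((CodesT T ZFSet.omega (val G' c) (val G' d) ∧
      val G' c ⊆ ZFSet.omega ∧ DiffT J ZFSet.omega (val G' (Rn P J)) (val G' c)) ↔
      (Codes Kap a (val G' c) (val G' d) ∧
      val G' c ⊆ ZFSet.omega ∧ ∀ i ∈ I, lab e i = a → val G' c ≠ cre G' i)) := by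
    intro G' hG'
    refine and_congr (codesT_iff hT) (and_congr_right fun hsub => ?_)
    rw [diffT_iff (val_Rn hG') hsub]
    constructor
    · intro h i hi hia
      exact h i (mem_Ja.2 ⟨hi, hia⟩)
    · intro h i hi
      obtain ⟨h4, h5⟩ := mem_Ja.1 hi
      exact h i h4 h5
  obtain ⟨_, h4⟩ := hF M hM P hP h0 _ _ hd0
  obtain ⟨p, hp, h5⟩ := h4 G hG ((((((chk T, chk ZFSet.omega), chk J), Rn P J), c), d) :
        ((((V × V) × V) × V) × V) × V) (by
      simp only [inM_prod, inM_V]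
      exact ⟨⟨⟨⟨⟨hchkM hTM, hchkM ZFm.omega_mem⟩, hchkM hJM⟩, Rn_mem hP hJM⟩, hc⟩, hd⟩) (by
      rw [hval G hG]
      exact (hiff G hG).2 ⟨h1, h2, h3⟩)
  refine ⟨p, hp, fun G' hG' hp' => ?_⟩
  have h6 := h5 G' hG' hp'
  rw [hval G' hG'] at h6
  exact (hiff G' hG').1 h6

/-- `q` forces that all segments of `x` longer than `k` are in `d`. -/
def FIn (M : Set V) (P d x k q : V) : Prop := q ∈ P ∧ ∀ G, Generic M P G → q ∈ G →
  ∀ m ∈ (ZFSet.omega : V), k ⊆ m → seg x m ∈ val G d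

theorem fIn (hF : Stmt_forceD0) (hM : M.Countable) {P : V} (hP : P ∈ M) (h0 : ∅ ∈ P)
    {d : V} (hd : d ∈ M) :
    (∀ {Δ : Type 1} [Ctx Δ] {f g h : Δ → V}, DMap M M f → DMap M M g → DMap M M h →
      Dfn M M (fun γ => FIn M P d (f γ) (g γ) (h γ))) ∧
    ∀ G, Generic M P G → ∀ x ∈ M, ∀ k ∈ M, (∀ m ∈ (ZFSet.omega : V), k ⊆ m → seg x m ∈ val G d) →
      ∃ q ∈ G, FIn M P d x k q := by
  obtain ⟨h1, h2⟩ := hF M hM P hP h0 _ _ in_d0
  have hchk : ∀ {Δ : Type 1} [Ctx Δ] {f : Δ → V}, DMap M M f →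
      DMap M M (fun γ => chk (f γ)) := fun h => (DMap_chk M M).comp h
  have hchkM : ∀ {x : V}, x ∈ M → chk x ∈ M := fun hx => (DMap_chk M M).mem (inM_V.2 hx)
  have hcd : ∀ {Δ : Type 1} [Ctx Δ], DMap M M (fun _ : Δ => d) := DMap.const hd hd
  have hval : ∀ G, Generic M P G → ∀ x k, valΓ G ((((chk ZFSet.omega, chk x), chk k), d) :
      ((V × V) × V) × V) = (((ZFSet.omega, x), k), val G d) := by
    intro G hG x k
    rw [valΓ_prod, valΓ_prod, valΓ_prod, valΓ_V, val_chk hG.empty_mem, val_chk hG.empty_mem,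
      val_chk hG.empty_mem]
  have hiff : ∀ G x k : V, In ZFSet.omega x k (val G d) ↔
      ∀ m ∈ (ZFSet.omega : V), k ⊆ m → seg x m ∈ val G d := by
    intro G x k
    refine forall₃_congr fun m _ _ => sd_iff
  constructor
  · intro Δ _ f g h hf hg hh
    have h3 : Dfn M M (fun p : (V × V) × V => FIn M P d p.1.1 p.1.2 p.2) := by
      have h4 := h1.comp (g := fun p : (V × V) × V =>
        ((((chk ZFSet.omega, chk p.1.1), chk p.1.2), d), p.2)) (by
        apply_rules (transparency := .reducible) (maxDepth := 999) only [hchk, hcd, DMap.omega]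
          using is_poly)
      refine h4.congr fun q _ => ?_
      unfold FIn
      refine and_congr Iff.rfl (forall₃_congr fun G hG _ => ?_)
      rw [hval G hG]
      exact hiff G q.1.1 q.1.2
    exact h3.comp ((hf.prodMk hg).prodMk hh)
  · intro G hG x hx k hk h
    obtain ⟨p, hp, h3⟩ := h2 G hG ((((chk ZFSet.omega, chk x), chk k), d) :
      ((V × V) × V) × V) (by
        simp only [inM_prod, inM_V]
        exact ⟨⟨⟨hchkM ZFm.omega_mem, hchkM hx⟩, hchkM hk⟩, hd⟩) (by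
        rw [hval G hG]
        exact (hiff G x k).2 h)
    refine ⟨p, hp, hG.sub hp, fun G' hG' hp' => ?_⟩
    have h4 := h3 G' hG' hp'
    rw [hval G' hG'] at h4
    exact (hiff G' x k).1 h4

/-- Truth lemma: no segment of `x` longer than `k` is in `d`. -/
theorem fOut (hF : Stmt_forceD0) (hM : M.Countable) {P : V} (hP : P ∈ M) (h0 : ∅ ∈ P)
    {d : V} (hd : d ∈ M) {G : V} (hG : Generic M P G) {x k : V} (hx : x ∈ M) (hk : k ∈ M)
    (h : ∀ m ∈ (ZFSet.omega : V), k ⊆ m → seg x m ∉ val G d) :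
    ∃ q ∈ G, ∀ G', Generic M P G' → q ∈ G' →
      ∀ m ∈ (ZFSet.omega : V), k ⊆ m → seg x m ∉ val G' d := by
  obtain ⟨_, h2⟩ := hF M hM P hP h0 _ _ out_d0
  have hchkM : ∀ {x : V}, x ∈ M → chk x ∈ M := fun hx => (DMap_chk M M).mem (inM_V.2 hx)
  have hval : ∀ G, Generic M P G → ∀ x k, valΓ G ((((chk ZFSet.omega, chk x), chk k), d) :
      ((V × V) × V) × V) = (((ZFSet.omega, x), k), val G d) := by
    intro G hG x k
    rw [valΓ_prod, valΓ_prod, valΓ_prod, valΓ_V, val_chk hG.empty_mem, val_chk hG.empty_mem,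
      val_chk hG.empty_mem]
  have hiff : ∀ G x k : V, Out ZFSet.omega x k (val G d) ↔
      ∀ m ∈ (ZFSet.omega : V), k ⊆ m → seg x m ∉ val G d := by
    intro G x k
    refine forall₃_congr fun m _ _ => not_congr sd_iff
  obtain ⟨p, hp, h3⟩ := h2 G hG ((((chk ZFSet.omega, chk x), chk k), d) :
    ((V × V) × V) × V) (by
      simp only [inM_prod, inM_V]
      exact ⟨⟨⟨hchkM ZFm.omega_mem, hchkM hx⟩, hchkM hk⟩, hd⟩) (by
      rw [hval G hG]
      exact (hiff G x k).2 h)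
  refine ⟨p, hp, fun G' hG' hp' => ?_⟩
  have h4 := h3 G' hG' hp'
  rw [hval G' hG'] at h4
  exact (hiff G' x k).1 h4

/-- Truth lemma for `c ∩ l = u`. -/
theorem fInter (hF : Stmt_forceD0) (hM : M.Countable) {P : V} (hP : P ∈ M) (h0 : ∅ ∈ P)
    {c : V} (hc : c ∈ M) {G : V} (hG : Generic M P G) {l u : V} (hl : l ∈ M) (hu : u ∈ M)
    (h : val G c ∩ l = u) :
    ∃ q ∈ G, ∀ G', Generic M P G' → q ∈ G' → val G' c ∩ l = u := by
  have hd0 : D0 (fun p : (V × V) × V => p.1.1 = p.1.2 ∩ p.2) :=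
    D0.isInter (Prj.fst (Prj.fst Prj.id)) (Prj.snd (Prj.fst Prj.id)) (Prj.snd Prj.id)
  obtain ⟨_, h2⟩ := hF M hM P hP h0 _ _ hd0
  have hchkM : ∀ {x : V}, x ∈ M → chk x ∈ M := fun hx => (DMap_chk M M).mem (inM_V.2 hx)
  have hval : ∀ G, Generic M P G → valΓ G (((chk u, c), chk l) : (V × V) × V) =
      ((u, val G c), l) := by
    intro G hG
    rw [valΓ_prod, valΓ_prod, valΓ_V, val_chk hG.empty_mem, val_chk hG.empty_mem]
  obtain ⟨p, hp, h3⟩ := h2 G hG (((chk u, c), chk l) : (V × V) × V) (by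
      simp only [inM_prod, inM_V]
      exact ⟨⟨hchkM hu, hc⟩, hchkM hl⟩) (by
      rw [hval G hG]
      exact h.symm)
  refine ⟨p, hp, fun G' hG' hp' => ?_⟩
  have h4 := h3 G' hG' hp'
  rw [hval G' hG'] at h4
  exact h4.symm

end

end Rig

end Pool.Agent.CTM
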