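import Pool.Agent.CTM.Cbl

/-!
Uncountable fibres, the root lemma and condensation points in models of ZFC (MP_ea2134_lc).
-/

set_option autoImplicit false

namespace Pool.Agent.CTM

section

variable {Γ : Type 1} [Ctx Γ] {A M : Set V}

theorem DMap.toM {f : Γ → V} (h : DMap A M f) : DMap M M f :=
  fun i => ⟨(h i).1, Dfn.toM (Γ := Γ × V) (P := fun p => p.2 = f p.1) h.graph⟩

theorem DMap.cst {a : V} (h : a ∈ M) : DMap M M (fun _ : Γ => a) := DMap.const h h

variable [ZFCm M]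

/-- A definable map with countable range on an uncountable set has an uncountable fibre. -/
theorem exists_fiber {W : V} (hW : W ∈ M) (h : ¬ Cbl M W) {F : V → V} (hF : DMap A M F)
    (hc : Cbl M (CTM.rep W F)) :
    ∃ y ∈ CTM.rep W F, ¬ Cbl M (ZFSet.sep (fun x => F x = y) W) := by
  by_contra hcon
  push Not at hcon
  refine h ?_
  have hF' : DMap M M F := hF.toM
  have hF2 : ∀ {Γ : Type 1} [Ctx Γ] {f : Γ → V}, DMap M M f → DMap M M (fun γ => F (f γ)) :=
    fun h => hF'.comp h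
  have hd : Dfn M M (fun p : V × V => F p.2 = p.1) := by
    apply_rules (transparency := .reducible) (maxDepth := 999) only [hF2] using is_poly
  refine (Cbl.sep_ex (P := fun y x => F x = y) hc (ZFm.rep_mem hF' hW) hW hd hcon).mono
    fun x hx => ?_
  exact ZFSet.mem_sep.2 ⟨hx, F x, mem_rep.2 ⟨x, hx, rfl⟩, rfl⟩

/-- `x` has at most `n` elements, in `M`. -/
def SizeLe (M : Set V) (n x : V) : Prop := ∃ f ∈ M, IsFn f ∧ dom f = n ∧ x ⊆ ran f

theorem Dfn.sizeLe {f g : Γ → V} (hf : DMap A M f) (hg : DMap A M g) :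
    Dfn A M (fun γ => SizeLe M (f γ) (g γ)) := by
  have h : Dfn A M (fun p : V × V => SizeLe M p.1 p.2) := by
    unfold SizeLe
    apply_rules (transparency := .reducible) (maxDepth := 999) only [Dfn.isFn] using is_poly
  exact h.comp (hf.prodMk hg)

theorem sizeLe_of_finite {x : V} (h : ∀ y ∈ x, y ∈ M) (h' : {y | y ∈ x}.Finite) :
    ∃ n ∈ (ZFSet.omega : V), SizeLe M n x := by
  obtain ⟨n, v, hv⟩ : ∃ (n : ℕ) (v : Fin n → V), Set.range v = {y | y ∈ x} := by
    obtain ⟨n, v, _, hv⟩ := h'.fin_param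
    exact ⟨n, v, hv⟩
  have hvx : ∀ i, v i ∈ x := fun i => by
    have : v i ∈ {y | y ∈ x} := hv ▸ Set.mem_range_self i
    exact this
  refine ⟨nn n, nn_mem_omega n, tup v, tup_mem.2 fun i => h _ (hvx i), tup_isFn v, dom_tup v,
    fun y hy => ?_⟩
  have : y ∈ Set.range v := hv ▸ hy
  obtain ⟨i, rfl⟩ := this
  exact mem_ran.2 ⟨nn i, mem_tup.2 ⟨i, rfl⟩⟩

omit [ZFCm M] in
theorem card_le_of_sizeLe {x : V} {n : ℕ} (h : SizeLe M (nn n) x) {s : Finset V}
    (hs : ∀ y ∈ s, y ∈ x) : s.card ≤ n := by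
  obtain ⟨f, _, hf, hd, hx⟩ := h
  have : (s : Set V) ⊆ Set.range (fun i : Fin n => app f (nn i)) := by
    intro y hy
    obtain ⟨i, hi⟩ := mem_ran.1 (hx (hs y hy))
    have hi' : i ∈ dom f := mem_dom.2 ⟨y, hi⟩
    rw [hd, mem_nn] at hi'
    obtain ⟨m, hm, rfl⟩ := hi'
    exact ⟨⟨m, hm⟩, hf.app_eq hi⟩
  have h2 : (s : Set V).ncard ≤ (Set.range (fun i : Fin n => app f (nn i))).ncard :=
    Set.ncard_le_ncard this (Set.finite_range _)
  rw [Set.ncard_coe_finset] at h2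
  refine h2.trans ?_
  rw [← Set.image_univ]
  refine (Set.ncard_image_le (Set.finite_univ)).trans ?_
  rw [Set.ncard_univ, Nat.card_eq_fintype_card, Fintype.card_fin]

/-- **Root lemma.** -/
theorem root_lemma {W : V} (hW : W ∈ M) (h : ¬ Cbl M W) {S : V → V} (hS : DMap A M S)
    (hf : ∀ x ∈ W, {y | y ∈ S x}.Finite) :
    ∃ ρ ∈ M, {y | y ∈ ρ}.Finite ∧ ∃ W' ∈ M, W' ⊆ W ∧ ¬ Cbl M W' ∧ (∀ x ∈ W', ρ ⊆ S x) ∧
      ∀ y ∈ M, y ∉ ρ → Cbl M (ZFSet.sep (fun x => y ∈ S x) W') := by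
  classical
  have hS' : DMap M M S := hS.toM
  have hS2 : ∀ {Γ : Type 1} [Ctx Γ] {f : Γ → V}, DMap M M f → DMap M M (fun γ => S (f γ)) :=
    fun h => hS'.comp h
  have hSM : ∀ x ∈ W, S x ∈ M := fun x hx => hS'.mem (inM_V.2 (TrC.trans hW hx))
  have hSf : ∀ x ∈ W, ∀ y ∈ S x, y ∈ M := fun x hx y hy => TrC.trans (hSM x hx) hy
  -- bounded size
  obtain ⟨k, hk⟩ : ∃ k : ℕ, ¬ Cbl M (ZFSet.sep (fun x => SizeLe M (nn k) (S x)) W) := by
    by_contra hcon
    push Not at hcon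
    refine h ?_
    have hd : Dfn M M (fun p : V × V => SizeLe M p.1 (S p.2)) :=
      Dfn.sizeLe (DMap.fst DMap.id) (hS2 (DMap.snd DMap.id))
    refine (Cbl.sep_ex (P := fun i x => SizeLe M i (S x)) (cbl_omega (M := M)) ZFm.omega_mem hW hd
      (fun i hi => ?_)).mono
      fun x hx => ?_
    · obtain ⟨n, rfl⟩ := mem_omega.1 hi
      exact hcon n
    · exact ZFSet.mem_sep.2 ⟨hx, sizeLe_of_finite (hSf x hx) (hf x hx)⟩
  set Wk : V := ZFSet.sep (fun x => SizeLe M (nn k) (S x)) W with hWk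
  have hWkM : Wk ∈ M := ZFm.sep_mem (Dfn.sizeLe (DMap.nn k) hS') hW
  -- the root
  let Wr : Finset V → V := fun s => ZFSet.sep (fun x => ∀ y ∈ s, y ∈ S x) Wk
  have hWr : ∀ s : Finset V, (∀ y ∈ s, y ∈ M) → Wr s ∈ M := by
    intro s
    induction s using Finset.induction_on with
    | empty =>
      intro _
      have : Wr ∅ = Wk := by
        ext x
        simp [Wr]
      rw [this]
      exact hWkM
    | insert a s ha ih =>
      intro hs
      have h1 := ih fun y hy => hs y (Finset.mem_insert_of_mem hy)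
      have haM : a ∈ M := hs a (Finset.mem_insert_self _ _)
      have : Wr (insert a s) = ZFSet.sep (fun x => a ∈ S x) (Wr s) := by
        ext x
        simp only [Wr, ZFSet.mem_sep, Finset.mem_insert, forall_eq_or_imp]
        tauto
      rw [this]
      refine ZFm.sep_mem ?_ h1
      exact Dfn.mem (DMap.cst haM) hS'
  let Q : ℕ → Prop := fun m => ∃ s : Finset V, (∀ y ∈ s, y ∈ M) ∧ s.card = m ∧ ¬ Cbl M (Wr s)
  have hQ0 : Q 0 := by
    refine ⟨∅, by simp, rfl, ?_⟩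
    have : Wr ∅ = Wk := by
      ext x
      simp [Wr]
    rw [this]
    exact hk
  have hQk : ∀ m, Q m → m ≤ k := by
    rintro m ⟨s, _, rfl, hs⟩
    have hne : ∃ x, x ∈ Wr s := by
      by_contra hcon
      push Not at hcon
      exact hs (cbl_fin (fun y hy => absurd hy (hcon y)) (by
        have : {y | y ∈ Wr s} = ∅ := by
          ext y
          simp [hcon y]
        rw [this]
        exact Set.finite_empty))
    obtain ⟨x, hx⟩ := hne
    obtain ⟨hx1, hx2⟩ := ZFSet.mem_sep.1 hx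
    exact card_le_of_sizeLe (ZFSet.mem_sep.1 hx1).2 hx2
  obtain ⟨s, hsM, hsm, hsW⟩ : Q (Nat.findGreatest Q k) :=
    Nat.findGreatest_spec (P := Q) (Nat.zero_le k) hQ0
  have hmax : ∀ t : Finset V, (∀ y ∈ t, y ∈ M) → s.card < t.card → Cbl M (Wr t) := by
    intro t ht hlt
    by_contra hcon
    have hQt : Q t.card := ⟨t, ht, rfl, hcon⟩
    have := Nat.le_findGreatest (hQk _ hQt) hQt
    omega
  let ρ : V := ZFSet.range (fun y : Shrink.{0} {y // y ∈ s} => ((equivShrink _).symm y).1)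
  have hρ : ∀ y, y ∈ ρ ↔ y ∈ s := by
    intro y
    rw [ZFSet.mem_range]
    constructor
    · rintro ⟨z, rfl⟩
      exact ((equivShrink _).symm z).2
    · intro hy
      exact ⟨equivShrink _ ⟨y, hy⟩, by simp⟩
  have hρf : {y | y ∈ ρ}.Finite := by
    refine s.finite_toSet.subset fun y hy => ?_
    exact (hρ y).1 hy
  refine ⟨ρ, fin_mem (fun y hy => hsM y ((hρ y).1 hy)) hρf, hρf, Wr s, hWr s hsM, ?_, hsW, ?_, ?_⟩
  · intro x hx
    exact (ZFSet.mem_sep.1 (ZFSet.mem_sep.1 hx).1).1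
  · intro x hx y hy
    exact (ZFSet.mem_sep.1 hx).2 y ((hρ y).1 hy)
  · intro y hyM hy
    have hys : y ∉ s := fun h => hy ((hρ y).2 h)
    refine (hmax (insert y s) ?_ ?_).mono ?_
    · intro z hz
      rcases Finset.mem_insert.1 hz with rfl | hz
      · exact hyM
      · exact hsM z hz
    · rw [Finset.card_insert_of_notMem hys]
      omega
    · intro x hx
      obtain ⟨hx1, hx2⟩ := ZFSet.mem_sep.1 hx
      obtain ⟨hx3, hx4⟩ := ZFSet.mem_sep.1 hx1
      refine ZFSet.mem_sep.2 ⟨hx3, fun z hz => ?_⟩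
      rcases Finset.mem_insert.1 hz with rfl | hz
      · exact hx2
      · exact hx4 z hz

/-- **Condensation points.** For a definable countable-valued trace function `t x h`
(`h ∈ ω`), all but countably many `x ∈ W` have, for all `h`, uncountably many `x' ∈ W` with the
same trace. -/
theorem condensation {W : V} (hW : W ∈ M) {t : V → V → V}
    (ht : DMap A M (fun p : V × V => t p.1 p.2)) {T : V} (hT : Cbl M T)
    (hT' : ∀ x ∈ W, ∀ h ∈ ZFSet.omega, t x h ∈ T) :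
    Cbl M (ZFSet.sep (fun x => ∃ h ∈ (ZFSet.omega : V),
      Cbl M (ZFSet.sep (fun x' => t x' h = t x h) W)) W) := by
  have ht' : DMap M M (fun p : V × V => t p.1 p.2) := ht.toM
  have ht2 : ∀ {Γ : Type 1} [Ctx Γ] {f g : Γ → V}, DMap M M f → DMap M M g →
    DMap M M (fun γ => t (f γ) (g γ)) := fun h h' => ht'.comp (h.prodMk h')
  obtain ⟨e, heM, he, hed, heT⟩ := hT
  have hran : Cbl M (ran e) := ⟨e, heM, he, hed, fun x hx => hx⟩
  have hranM : ran e ∈ M := (DMap.ran (DMap.cst (Γ := PUnit) heM)).mem (γ := PUnit.unit) inM_unit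
  have hI : Cbl M (ZFSet.prod ZFSet.omega (ran e)) := (cbl_omega (M := M)).prod hran
  have hIM : ZFSet.prod ZFSet.omega (ran e) ∈ M :=
    (DMap.prod (DMap.omega) (DMap.cst (Γ := PUnit) hranM)).mem (γ := PUnit.unit) inM_unit
  have hd : Dfn M M (fun p : V × V => ∃ h ∈ (ZFSet.omega : V), p.1 = ZFSet.pair h (t p.2 h) ∧
      Cbl M (ZFSet.sep (fun x' => t x' h = t p.2 h) W)) := by
    have hWc : ∀ {Γ : Type 1} [Ctx Γ], DMap M M (fun _ : Γ => W) := fun {Γ} _ => DMap.cst hW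
    apply_rules (transparency := .reducible) (maxDepth := 999) only
      [hWc, ht2, Dfn.cbl, DMap.omega, DMap.pair] using is_poly
  refine (Cbl.sep_ex (P := fun i x => ∃ h ∈ (ZFSet.omega : V), i = ZFSet.pair h (t x h) ∧
      Cbl M (ZFSet.sep (fun x' => t x' h = t x h) W)) hI hIM hW hd (fun i hi => ?_)).mono
      fun x hx => ?_
  · by_cases hne : ∃ x0 ∈ W, ∃ h ∈ (ZFSet.omega : V), i = ZFSet.pair h (t x0 h) ∧
      Cbl M (ZFSet.sep (fun x' => t x' h = t x0 h) W)
    · obtain ⟨x0, _, h0, _, rfl, hc⟩ := hne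
      refine hc.mono fun x hx => ?_
      obtain ⟨hx1, h1, _, e1, _⟩ := ZFSet.mem_sep.1 hx
      obtain ⟨rfl, e2⟩ := ZFSet.pair_injective e1
      exact ZFSet.mem_sep.2 ⟨hx1, e2.symm⟩
    · have : {y | y ∈ ZFSet.sep (fun x => ∃ h ∈ (ZFSet.omega : V), i = ZFSet.pair h (t x h) ∧
          Cbl M (ZFSet.sep (fun x' => t x' h = t x h) W)) W} = ∅ := by
        ext y
        simp only [Set.mem_ofPred_eq, ZFSet.mem_sep, Set.mem_empty_iff_false, iff_false]
        rintro ⟨hy, hy'⟩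
        exact hne ⟨y, hy, hy'⟩
      refine cbl_fin (fun y hy => TrC.trans hW (ZFSet.mem_sep.1 hy).1) ?_
      rw [this]
      exact Set.finite_empty
  · obtain ⟨hx1, h, hh, hc⟩ := ZFSet.mem_sep.1 hx
    exact ZFSet.mem_sep.2 ⟨hx1, ZFSet.pair h (t x h),
      ZFSet.pair_mem_prod.2 ⟨hh, heT (hT' x hx1 h hh)⟩, h, hh, rfl, hc⟩

end

end Pool.Agent.CTM
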