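import Pool.Agent.CTM.Pos
import Pool.Agent.CTM.Compat
import Pool.Agent.CTM.Root

/-!
Finite combinatorics for the rigidity of the generic reals (MP_ea2134_lc, module RIG).
-/

set_option autoImplicit false

namespace Pool.Agent.CTM

namespace Rig

open Cmp

/-! ### Adding promises -/

section

variable {I e : V} {Kap : V → V → Prop} {r : V}

/-- New promises for points `z' j` that look like points `z j` with the same promises. -/
theorem extend (hr : Cond I e Kap r) {n : ℕ} {z z' : Fin n → V} {T : V → Fin n → V → Prop}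
    {H R : V}
    (hT : ∀ i j m, T i j m → tR i (z j) m ∈ r ∧
      ∃ l U l' U' u u', Kap (z j) (kv l U (lab e i)) ∧ l' ∈ ZFSet.omega ∧
        Kap (z' j) (kv l' U' (lab e i)) ∧ Tr r i l u ∧ Tr r i l' u' ∧ (u ∈ U ↔ u' ∈ U'))
    (kap_fun : ∀ x k k', Kap x k → Kap x k' → k = k')
    (hB : Bd r H) (hz : ∀ j, z j ∩ H = z' j ∩ H)
    (hR : ∀ t, t ∈ R ↔ ∃ i j m, T i j m ∧ t = tR i (z' j) m)
    (hRf : {t | t ∈ R}.Finite) : Cond I e Kap (r ∪ R) := by
  have hC : ∀ {i m ε}, tC i m ε ∈ r ∪ R → tC i m ε ∈ r := by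
    intro i m ε h
    rcases ZFSet.mem_union.1 h with h | h
    · exact h
    · obtain ⟨i', j, m', _, h1⟩ := (hR _).1 h
      exact absurd h1 tC_ne_tR
  have hD : ∀ {i m ε}, tD i m ε ∈ r ∪ R → tD i m ε ∈ r := by
    intro i m ε h
    rcases ZFSet.mem_union.1 h with h | h
    · exact h
    · obtain ⟨i', j, m', _, h1⟩ := (hR _).1 h
      exact absurd h1 tD_ne_tR
  have hTr : ∀ {i l u}, Tr (r ∪ R) i l u → Tr r i l u := by
    intro i l u h
    exact ⟨h.1, fun n hn => ⟨fun hu => hC ((h.2 n hn).1 hu), fun hu => hC ((h.2 n hn).2 hu)⟩⟩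
  have subr : r ⊆ r ∪ R := fun x hx => ZFSet.mem_union.2 (Or.inl hx)
  -- every promise has a twin in `r`
  have twin : ∀ {i x m l U u}, tR i x m ∈ r ∪ R → Kap x (kv l U (lab e i)) → Tr (r ∪ R) i l u →
      ∃ x' l' U' u', tR i x' m ∈ r ∧ Kap x' (kv l' U' (lab e i)) ∧
        Tr r i l' u' ∧ (u ∈ U ↔ u' ∈ U') ∧ x ∩ H = x' ∩ H := by
    intro i x m l U u h hk ht
    rcases ZFSet.mem_union.1 h with h | h
    · exact ⟨x, l, U, u, h, hk, hTr ht, Iff.rfl, rfl⟩
    · obtain ⟨i', j, m', hT', h1⟩ := (hR _).1 h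
      obtain ⟨rfl, rfl, rfl⟩ := tR_inj h1
      obtain ⟨h2, l₁, U₁, l₂, U₂, u₁, u₂, h3, _, h4, h5, h6, h7⟩ := hT _ _ _ hT'
      obtain ⟨rfl, rfl, _⟩ := kv_inj (kap_fun _ _ _ hk h4)
      have : u = u₂ := tr_unique hr.funC (hTr ht) h6
      subst this
      exact ⟨z j, l₁, U₁, u₁, h2, h3, h5, h7.symm, (hz j).symm⟩
  constructor
  · intro t ht
    rcases ZFSet.mem_union.1 ht with ht | ht
    · exact hr.tok t ht
    · obtain ⟨i, j, m, hT', rfl⟩ := (hR _).1 ht
      obtain ⟨h2, l₁, U₁, l₂, U₂, u₁, u₂, h3, h8, h4, h5, h6, h7⟩ := hT _ _ _ hT'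
      obtain ⟨h9, h10, _⟩ := cond_promise hr h2
      exact Or.inr (Or.inr ⟨i, h9, z' j, m, h10, ⟨l₂, h8, U₂, h4⟩, rfl⟩)
  · refine (hr.fin.union hRf).subset ?_
    intro t ht
    exact ZFSet.mem_union.1 ht
  · rintro i m ⟨h0, h1⟩
    exact hr.funC i m ⟨hC h0, hC h1⟩
  · rintro i m ⟨h0, h1⟩
    exact hr.funD i m ⟨hD h0, hD h1⟩
  · intro i x m l U h hk
    rcases ZFSet.mem_union.1 h with h | h
    · obtain ⟨u, hu⟩ := hr.dec i x m l U h hk
      exact ⟨u, tr_mono hu subr⟩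
    · obtain ⟨i', j, m', hT', h1⟩ := (hR _).1 h
      obtain ⟨rfl, rfl, rfl⟩ := tR_inj h1
      obtain ⟨h2, l₁, U₁, l₂, U₂, u₁, u₂, h3, _, h4, h5, h6, h7⟩ := hT _ _ _ hT'
      obtain ⟨rfl, rfl, _⟩ := kv_inj (kap_fun _ _ _ hk h4)
      exact ⟨u₂, tr_mono h6 subr⟩
  · intro i x m l U u m' ε h hk ht hm h'
    obtain ⟨x', l', U', u', h1, h2, h3, h4, h5⟩ := twin h hk ht
    have h' := hD h'
    have h6 : m' ⊆ H := hB.1 _ _ _ _ h'
    have h7 : seg x m' = seg x' m' := by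
      unfold seg
      rw [inter_eq_of h5 h6]
    rw [h7] at h'
    rw [hr.obey i x' m l' U' u' m' ε h1 h2 h3 hm h', h4]
  · intro i x m l U u x' m' l' U' u' h h' hk hk' ht ht' hne
    obtain ⟨y, l₁, U₁, u₁, h1, h2, h3, h4, h5⟩ := twin h hk ht
    obtain ⟨y', l₁', U₁', u₁', h1', h2', h3', h4', h5'⟩ := twin h' hk' ht'
    rw [h4, h4'] at hne
    have h6 : m ∪ m' ⊆ H := by
      intro v hv
      rcases ZFSet.mem_union.1 hv with hv | hv
      · exact hB.2 _ _ _ h1 hv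
      · exact hB.2 _ _ _ h1' hv
    have := hr.sep i y m l₁ U₁ u₁ y' m' l₁' U₁' u₁' h1 h1' h2 h2' h3 h3' hne
    rwa [inter_eq_of h5 h6, inter_eq_of h5' h6]

end

/-! ### Finite sets -/

theorem exists_set {s : Set V} (h : s.Finite) : ∃ x : V, ∀ y, y ∈ x ↔ y ∈ s := by
  induction s, h using Set.Finite.induction_on with
  | empty => exact ⟨∅, fun y => by simp⟩
  | insert _ _ ih =>
    rename_i a s _ _
    obtain ⟨x, hx⟩ := ih
    exact ⟨insert a x, fun y => by simp [hx]⟩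

theorem generic_fin {M : Set V} {P G : V} (hG : Generic M P G) {s : Set V} (h : s.Finite)
    (hs : ∀ p ∈ s, p ∈ G) : ∃ r ∈ G, ∀ p ∈ s, p ⊆ r := by
  induction s, h using Set.Finite.induction_on with
  | empty => exact ⟨∅, hG.empty_mem, fun p hp => absurd hp (Set.notMem_empty p)⟩
  | insert _ _ ih =>
    rename_i a s _ _
    obtain ⟨r, hr, h1⟩ := ih fun p hp => hs p (Or.inr hp)
    obtain ⟨r', hr', h2, h3⟩ := hG.dir a (hs a (Or.inl rfl)) r hr
    refine ⟨r', hr', fun p hp => ?_⟩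
    rcases hp with rfl | hp
    · exact h2
    · exact fun x hx => h3 (h1 p hp hx)

/-- Finitely many reals that are different from `c` differ from it below some number. -/
theorem exists_h {c : V} (hc : c ⊆ ZFSet.omega) {A : V → V} {s : Set V} (h : s.Finite)
    (hA : ∀ i ∈ s, A i ⊆ ZFSet.omega ∧ c ≠ A i) :
    ∃ N : ℕ, ∀ i ∈ s, c ∩ nn N ≠ A i ∩ nn N := by
  induction s, h using Set.Finite.induction_on with
  | empty => exact ⟨0, fun p hp => absurd hp (Set.notMem_empty p)⟩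
  | insert _ _ ih =>
    rename_i a s _ _
    obtain ⟨N, hN⟩ := ih fun p hp => hA p (Or.inr hp)
    obtain ⟨hsub, hne⟩ := hA a (Or.inl rfl)
    have : ∃ k : ℕ, ¬ (nn k ∈ c ↔ nn k ∈ A a) := by
      by_contra hcon
      push Not at hcon
      apply hne
      ext y
      constructor
      · intro hy
        obtain ⟨k, rfl⟩ := mem_omega.1 (hc hy)
        exact (hcon k).1 hy
      · intro hy
        obtain ⟨k, rfl⟩ := mem_omega.1 (hsub hy)
        exact (hcon k).2 hy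
    obtain ⟨k, hk⟩ := this
    refine ⟨max N (k + 1), fun i hi he => ?_⟩
    rcases hi with rfl | hi
    · apply hk
      have h1 : nn k ∈ nn (max N (k + 1)) := nn_mem_nn.2 (lt_of_lt_of_le (Nat.lt_succ_self k)
        (le_max_right _ _))
      have h2 := congrArg (fun s : V => nn k ∈ s) he
      simp only [ZFSet.mem_inter, h1, and_true, eq_iff_iff] at h2
      exact h2
    · exact hN i hi (inter_eq_of he (nn_sub (le_max_left _ _)))

section

variable {M : Set V} [ZFCm M]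

/-- Finite unions of countable sets. -/
theorem cbl_fin_sep {W : V} {Q : V → V → Prop} {s : Set V} (h : s.Finite)
    (hs : ∀ i ∈ s, Cbl M (ZFSet.sep (Q i) W)) : Cbl M (ZFSet.sep (fun x => ∃ i ∈ s, Q i x) W) := by
  induction s, h using Set.Finite.induction_on with
  | empty =>
    have : (ZFSet.sep (fun x => ∃ i ∈ (∅ : Set V), Q i x) W : V) = ∅ := by
      refine (ZFSet.eq_empty _).2 fun y hy => ?_
      obtain ⟨_, i, hi, _⟩ := ZFSet.mem_sep.1 hy
      exact hi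
    rw [this]
    exact cbl_fin (fun y hy => absurd hy (ZFSet.notMem_empty y)) (by
      convert Set.finite_empty (α := V)
      ext y
      simp)
  | insert _ _ ih =>
    rename_i a s _ _
    refine Cbl.mono (Cbl.union (hs a (Or.inl rfl)) (ih fun i hi => hs i (Or.inr hi))) ?_
    intro y hy
    obtain ⟨hyW, i, hi, hq⟩ := ZFSet.mem_sep.1 hy
    rw [ZFSet.mem_union, ZFSet.mem_sep, ZFSet.mem_sep]
    rcases hi with rfl | hi
    · exact Or.inl ⟨hyW, hq⟩
    · exact Or.inr ⟨hyW, i, hi, hq⟩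

/-- The union of an uncountable set with a countable set removed is nonempty. -/
theorem exists_not_mem {x y : V} (hx : ¬ Cbl M x) (hy : Cbl M y) : ∃ a ∈ x, a ∉ y := by
  by_contra h
  push Not at h
  exact hx (hy.mono fun a ha => h a ha)

/-- The trace of finitely many points. -/
theorem dmap_trace {n : ℕ} {z : Fin n → V → V} (hz : ∀ j, DMap M M (z j)) :
    DMap M M (fun p : V × V => tup (fun j => z j p.1 ∩ p.2)) := by
  refine DMap.tup fun j => ?_
  exact DMap.inter ((hz j).comp (DMap.fst DMap.id)) (DMap.snd DMap.id)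

/-- An uncountable set contains a condensation point for the traces. -/
theorem exists_cond {W : V} (hW : W ∈ M) (hc : ¬ Cbl M W) {n : ℕ} {z : Fin n → V → V}
    (hz : ∀ j, DMap M M (z j)) (hzW : ∀ x ∈ W, ∀ j, z j x ⊆ ZFSet.omega) :
    ∃ x₀ ∈ W, ∀ h ∈ (ZFSet.omega : V),
      ¬ Cbl M (ZFSet.sep (fun x => ∀ j, z j x ∩ h = z j x₀ ∩ h) W) := by
  have hF : FinP ZFSet.omega ∈ M := by
    have h1 : DMap M M (fun p : V => FinP p) := DMap.FinP DMap.id
    exact h1.mem (inM_V.2 ZFm.omega_mem)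
  have h1 := condensation hW (dmap_trace hz) (Cbl.tuples hF (Cbl.finP cbl_omega)) (by
    intro x hx h hh
    rw [ZFSet.mem_sep]
    have h3 : ∀ j, z j x ∩ h ∈ FinP ZFSet.omega := by
      intro j
      refine mem_FinP.2 ?_
      refine ⟨fun y hy => hzW x hx j (ZFSet.mem_inter.1 hy).1, ?_⟩
      obtain ⟨k, rfl⟩ := mem_omega.1 hh
      refine ((Set.finite_lt_nat k).image nn).subset fun y hy => ?_
      obtain ⟨m, hm, rfl⟩ := mem_nn.1 (ZFSet.mem_inter.1 hy).2
      exact ⟨m, hm, rfl⟩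
    refine ⟨?_, n, _, h3, rfl⟩
    refine mem_FinP.2 ?_
    constructor
    · intro y hy
      obtain ⟨j, rfl⟩ := mem_tup.1 hy
      exact ZFSet.pair_mem_prod.2 ⟨nn_mem_omega _, h3 j⟩
    · refine (Set.finite_range fun j : Fin n => ZFSet.pair (nn j) (z j x ∩ h)).subset fun y hy => ?_
      obtain ⟨j, rfl⟩ := mem_tup.1 hy
      exact ⟨j, rfl⟩)
  obtain ⟨x₀, hx₀, h2⟩ := exists_not_mem hc h1
  refine ⟨x₀, hx₀, fun h hh hcb => h2 (ZFSet.mem_sep.2 ⟨hx₀, h, hh, ?_⟩)⟩
  refine hcb.mono fun y hy => ?_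
  obtain ⟨h3, h4⟩ := ZFSet.mem_sep.1 hy
  refine ZFSet.mem_sep.2 ⟨h3, fun j => ?_⟩
  exact congrFun (tup_inj h4) j

end

end Rig

end Pool.Agent.CTM
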