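import Pool.Agent.CTM.RigA
import Pool.Agent.CTM.RigB
import Pool.Agent.CTM.StmtsL

/-!
The uncountable set of points with the trivial clopen set, and the choice of conditions
(MP_ea2134_lc, module RIG).
-/

set_option autoImplicit false

namespace Pool.Agent.CTM

namespace Rig

open Cmp

section

variable {Γ : Type 1} [Ctx Γ] {M : Set V}

/-- Definable choice from a set in `M`. -/
theorem choose_from [ZFCm M] {Q : Γ → V → Prop} (hQ : Dfn M M (fun p : Γ × V => Q p.1 p.2))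
    {b : V} (hb : b ∈ M) : ∃ E : Γ → V, DMap M M E ∧
      ∀ γ, InM M γ → (∃ y ∈ b, Q γ y) → E γ ∈ b ∧ Q γ (E γ) := by
  obtain ⟨w, hw, hw1, hw2, hw3, hw4⟩ := ZFCm.choice hb
  refine ⟨fun γ => ZFSet.sUnion (ZFSet.sep (fun y => Q γ y ∧
    ∀ y' ∈ b, Q γ y' → app w y' ∉ app w y) b), ?_, ?_⟩
  · have hQ' : ∀ {Δ : Type 1} [Ctx Δ] {c : Δ → Γ} {f : Δ → V}, DMap M M c → DMap M M f →
      Dfn M M (fun γ => Q (c γ) (f γ)) := fun hc h => hQ.comp (hc.prodMk h)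
    apply_rules (transparency := .reducible) (maxDepth := 999) only [DMap.const hb hb,
      DMap.const hw hw, hQ'] using is_poly
  · intro γ _ hγ
    obtain ⟨y, hy, hmin⟩ := (InvImage.wf (fun y => app w y) ZFSet.mem_wf).has_min
      {y | y ∈ b ∧ Q γ y} hγ
    have e : (ZFSet.sep (fun y => Q γ y ∧ ∀ y' ∈ b, Q γ y' → app w y' ∉ app w y) b : V) = {y} := by
      ext z
      rw [ZFSet.mem_sep, ZFSet.mem_singleton]
      constructor
      · rintro ⟨hz, hz1, hz2⟩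
        have h1 : app w y ∉ app w z := hz2 y hy.1 hy.2
        have h2 : app w z ∉ app w y := hmin z ⟨hz, hz1⟩
        have h3 : app w z = app w y := by
          rcases ZFSet.IsOrdinal.mem_trichotomous (hw4 z hz) (hw4 y hy.1) with h | h | h
          · exact (h2 h).elim
          · exact h
          · exact (h1 h).elim
        exact hw3 z (hw2 ▸ hz) y (hw2 ▸ hy.1) h3
      · rintro rfl
        exact ⟨hy.1, hy.2, fun y' hy' hq => hmin y' ⟨hy', hq⟩⟩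
    show ZFSet.sUnion (ZFSet.sep (fun y => Q γ y ∧ ∀ y' ∈ b, Q γ y' → app w y' ∉ app w y) b) ∈ b ∧
      Q γ (ZFSet.sUnion (ZFSet.sep (fun y => Q γ y ∧ ∀ y' ∈ b, Q γ y' → app w y' ∉ app w y) b))
    rw [e, ZFSet.sUnion_singleton]
    exact hy

/-- Definable choice. -/
theorem choose_fn [ZFCm M] {Q : V → V → Prop} (hQ : Dfn M M (fun p : V × V => Q p.1 p.2))
    {a : V} (ha : a ∈ M) (h : ∀ x ∈ a, ∃ y ∈ M, Q x y) :
    ∃ E : V → V, DMap M M E ∧ ∀ x ∈ a, E x ∈ M ∧ Q x (E x) := by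
  obtain ⟨b, hb, hb1⟩ := ZFm.coll hQ ha h
  obtain ⟨E, hE, hE1⟩ := choose_from hQ hb
  refine ⟨E, hE, fun x hx => ?_⟩
  obtain ⟨h1, h2⟩ := hE1 x (inM_V.2 (TrC.trans ha hx)) (hb1 x hx)
  exact ⟨TrC.trans hb h1, h2⟩

end

section

variable {M : Set V} [ZFCm M] {w I e : V} {Kap : V → V → Prop}

omit [ZFCm M] in
/-- Values of the form `kv` are hereditarily countable. -/
theorem kv_HC (hHC : ZFm (HC M)) {l U a : V} (hl : l ∈ HC M) (hU : U ∈ HC M) (ha : a ∈ HC M) :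
    kv l U a ∈ HC M :=
  (pair_mem_iff (M := HC M)).2 ⟨(pair_mem_iff (M := HC M)).2 ⟨hl, hU⟩, ha⟩

/-- The points with label `a` and the trivial clopen set. -/
noncomputable def W0 (M : Set V) (Kap : V → V → Prop) (a : V) : V :=
  ZFSet.sep (fun x => Kap x (kv (nn 0) (nn 1) a))
    (ZFSet.sep (fun x => x ∈ M) (ZFSet.powerset ZFSet.omega))

omit [ZFCm M] in
theorem mem_W0 (S : Setup M w I e Kap) {a x : V} :
    x ∈ W0 M Kap a ↔ Kap x (kv (nn 0) (nn 1) a) := by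
  unfold W0
  rw [ZFSet.mem_sep, ZFSet.mem_sep, ZFSet.mem_powerset]
  refine ⟨fun h => h.2, fun h => ⟨?_, h⟩⟩
  obtain ⟨h1, h2, _⟩ := S.kap_real _ _ h
  exact ⟨h2, h1⟩

theorem W0_mem (S : Setup M w I e Kap) {a : V} (ha : a ∈ M) : W0 M Kap a ∈ M := by
  have hk : ∀ {Δ : Type 1} [Ctx Δ] {f g : Δ → V}, DMap M M f → DMap M M g →
      Dfn M M (fun γ => Kap (f γ) (g γ)) := fun hf hg => S.kap_dfn' hf hg
  have hconsta : ∀ {Δ : Type 1} [Ctx Δ], DMap M M (fun _ : Δ => a) := DMap.const ha ha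
  refine ZFm.sep_mem ?_ (ZFCm.power_mem ZFm.omega_mem)
  apply_rules (transparency := .reducible) (maxDepth := 999) only [hk, hconsta, DMap.kv, DMap.nn]
    using is_poly

theorem W0_uncountable (hHC : Stmt_HC) (S : Setup M w I e Kap) {a : V} (ha : a ∈ M)
    (ha' : a ⊆ ZFSet.omega) : ¬ Cbl M (W0 M Kap a) := by
  intro hc
  obtain ⟨h1, _, _, h2, _⟩ := hHC M
  set R : V := ZFSet.sep (fun x => x ∈ M) (ZFSet.powerset ZFSet.omega) with hR
  have hRM : R ∈ M := ZFCm.power_mem ZFm.omega_mem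
  obtain ⟨z', _, h3, h4, _⟩ := S.ind 1 R (fun _ x => x) hRM (fun _ => DMap.id) (fun x hx => by
      refine ⟨fun i j _ => Subsingleton.elim i j, fun _ => ?_⟩
      exact ZFSet.mem_powerset.1 (ZFSet.mem_sep.1 hx).1) (fun y hy => by
      refine cbl_fin (fun x hx => TrC.trans hRM (ZFSet.mem_sep.1 hx).1) ?_
      refine (Set.finite_singleton y).subset fun x hx => ?_
      obtain ⟨_, _, h⟩ := ZFSet.mem_sep.1 hx
      exact h) not_cbl_power (fun _ => kv (nn 0) (nn 1) a) (fun _ =>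
        kv_HC h1 (nn_mem (M := HC M) 0) (nn_mem (M := HC M) 1) ((h2 a ha').2 ha))
      (W0 M Kap a) (W0_mem S ha) hc
  exact h4 0 ((mem_W0 S).2 (h3 0))

omit [ZFCm M] in
theorem fst_pair (x y : V) : (ZFSet.sUnion (dom {ZFSet.pair x y}) : V) = x := by
  have : dom {ZFSet.pair x y} = {x} := by
    ext z
    rw [mem_dom, ZFSet.mem_singleton]
    constructor
    · rintro ⟨u, hu⟩
      exact (ZFSet.pair_injective (ZFSet.mem_singleton.1 hu)).1
    · rintro rfl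
      exact ⟨y, ZFSet.mem_singleton.2 rfl⟩
  rw [this, ZFSet.sUnion_singleton]

omit [ZFCm M] in
theorem snd_pair (x y : V) : (ZFSet.sUnion (ran {ZFSet.pair x y}) : V) = y := by
  have : ran {ZFSet.pair x y} = {y} := by
    ext z
    rw [mem_ran, ZFSet.mem_singleton]
    constructor
    · rintro ⟨u, hu⟩
      exact (ZFSet.pair_injective (ZFSet.mem_singleton.1 hu)).2
    · rintro rfl
      exact ⟨x, ZFSet.mem_singleton.2 rfl⟩
  rw [this, ZFSet.sUnion_singleton]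

/-- The choice of conditions `q x` and of numbers `k x` for the points `x` in `W0`. -/
theorem choose_q (hF : Stmt_forceD0) (hE : Stmt_generic) (S : Setup M w I e Kap)
    (hM : M.Countable) {P : V} (hP : P ∈ M) (h0 : ∅ ∈ P)
    (hdens : ∀ q ∈ P, ∀ i ∈ I, ∀ x l U, l ∈ (ZFSet.omega : V) → Kap x (kv l U (lab e i)) →
      ∃ q' ∈ P, q ⊆ q' ∧ ∃ m ∈ (ZFSet.omega : V), tR i x m ∈ q')
    {c d i₀ p : V} (hd : d ∈ M) (hi₀ : i₀ ∈ I) (hp : p ∈ P)
    (hf : ∀ G, Generic M P G → p ∈ G → Codes Kap (lab e i₀) (val G c) (val G d)) :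
    ∃ q : V → V, ∃ k : V → V, DMap M M q ∧ DMap M M k ∧
      ∀ x ∈ W0 M Kap (lab e i₀), q x ∈ P ∧ p ⊆ q x ∧ k x ∈ (ZFSet.omega : V) ∧
        FIn M P d x (k x) (q x) ∧ ∃ m, tR i₀ x m ∈ q x := by
  obtain ⟨hf1, hf2⟩ := fIn hF hM hP h0 hd
  have hi₀M : i₀ ∈ M := S.I_sub hi₀
  have haM : lab e i₀ ∈ M := by
    have : DMap M M (fun p : V × V => lab p.1 p.2) :=
      DMap.lab (DMap.fst DMap.id) (DMap.snd DMap.id)
    exact this.mem (γ := (e, i₀)) (inM_prod.2 ⟨inM_V.2 S.e_mem, hi₀M⟩)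
  have hpM : p ∈ M := TrC.trans hP hp
  -- the relation
  let Q : V → V → Prop := fun x y => ∃ q ∈ P, ∃ k ∈ (ZFSet.omega : V), y = ZFSet.pair q k ∧
    p ⊆ q ∧ FIn M P d x k q ∧ ∃ m ∈ (ZFSet.omega : V), tR i₀ x m ∈ q
  have hQ : Dfn M M (fun p : V × V => Q p.1 p.2) := by
    have hcP : ∀ {Δ : Type 1} [Ctx Δ], DMap M M (fun _ : Δ => P) := DMap.const hP hP
    have hcp : ∀ {Δ : Type 1} [Ctx Δ], DMap M M (fun _ : Δ => p) := DMap.const hpM hpM
    have hci : ∀ {Δ : Type 1} [Ctx Δ], DMap M M (fun _ : Δ => i₀) := DMap.const hi₀M hi₀M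
    apply_rules (transparency := .reducible) (maxDepth := 999) only [hcP, hcp, hci, DMap.omega,
      hf1, DMap.tR] using is_poly
  obtain ⟨E, hE1, hE2⟩ := choose_fn hQ (W0_mem S haM) (fun x hx => by
    have hk : Kap x (kv (nn 0) (nn 1) (lab e i₀)) := (mem_W0 S).1 hx
    have hxM : x ∈ M := (S.kap_real _ _ hk).1
    obtain ⟨G, hG, hpG⟩ := hE M hM P hP p hp h0
    obtain ⟨k, hkω, h1⟩ := hf G hG hpG x (nn 0) (nn 1) (nn_mem_omega 0) hk
    have h2 : ∀ m ∈ (ZFSet.omega : V), k ⊆ m → seg x m ∈ val G d := by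
      intro m hm hkm
      refine (h1 m hm hkm).2 ?_
      have : val G c ∩ nn 0 = nn 0 := by
        refine (ZFSet.eq_empty _).2 fun y hy => ?_
        exact ZFSet.notMem_empty y (ZFSet.mem_inter.1 hy).2
      rw [this]
      exact nn_mem_nn.2 Nat.zero_lt_one
    obtain ⟨q₁, hq₁, h3⟩ := hf2 G hG x hxM k (TrC.trans ZFm.omega_mem hkω) h2
    obtain ⟨q₂, hq₂, h4, h5⟩ := hG.dir p hpG q₁ hq₁
    obtain ⟨q₃, hq₃, h6, m, hm, h7⟩ := hdens q₂ (hG.sub hq₂) i₀ hi₀ x _ _ (nn_mem_omega 0) hk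
    refine ⟨ZFSet.pair q₃ k, pair_mem_iff.2 ⟨TrC.trans hP hq₃, TrC.trans ZFm.omega_mem hkω⟩,
      q₃, hq₃, k, hkω, rfl, fun y hy => h6 (h4 hy), ⟨hq₃, fun G' hG' hq' => ?_⟩, m, hm, h7⟩
    exact h3.2 G' hG' (hG'.down q₃ hq' q₁ (hG.sub hq₁) fun y hy => h6 (h5 hy)))
  have hE' : ∀ {Δ : Type 1} [Ctx Δ] {f : Δ → V}, DMap M M f →
      DMap M M (fun γ => E (f γ)) := fun h => hE1.comp h
  refine ⟨fun x => ZFSet.sUnion (dom {E x}), fun x => ZFSet.sUnion (ran {E x}), ?_, ?_, ?_⟩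
  · apply_rules (transparency := .reducible) (maxDepth := 999) only [hE'] using is_poly
  · apply_rules (transparency := .reducible) (maxDepth := 999) only [hE'] using is_poly
  · intro x hx
    obtain ⟨_, q, hq, k, hk, h1, h2, h3, m, _, h4⟩ := hE2 x hx
    beta_reduce
    rw [h1, fst_pair, snd_pair]
    exact ⟨hq, h2, hk, h3, m, h4⟩

end

end Rig

end Pool.Agent.CTM
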