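import Pool.Agent.CTM.TokFn
import Pool.Agent.CTM.Compat

/-!
The thinning-out lemma (MP_ea2134_lc): an uncountable family of conditions has an uncountable
subfamily in which all conditions look alike near the root.
-/

set_option autoImplicit false

namespace Pool.Agent.CTM

namespace Thn

open Cmp

/-! ### Tokens -/

section

variable {I e : V} {Kap : V → V → Prop}

theorem at_tidx {t : V} (h : IsTok I e Kap t) {i : V} : At t i ↔ tidx t = i := by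
  rcases h with ⟨i', _, n, _, ε, _, rfl⟩ | ⟨i', _, m, _, u, _, ε, _, rfl⟩ | ⟨i', _, x, m, _, _, rfl⟩
  · rw [tidx_tC]
    exact ⟨fun h => At.C.eq h, fun h => h ▸ At.C⟩
  · rw [tidx_tD]
    exact ⟨fun h => At.D.eq h, fun h => h ▸ At.D⟩
  · rw [tidx_tR]
    exact ⟨fun h => At.R.eq h, fun h => h ▸ At.R⟩

theorem tok_R {t : V} (h : IsTok I e Kap t) (hk : tkind t = nn 2) :
    ∃ i ∈ I, ∃ x, ∃ m ∈ ZFSet.omega, (∃ l ∈ ZFSet.omega, ∃ U, Kap x (kv l U (lab e i))) ∧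
      t = tR i x m := by
  rcases h with ⟨i', _, n, _, ε, _, rfl⟩ | ⟨i', _, m, _, u, _, ε, _, rfl⟩ | h
  · exact absurd hk (by rw [tkind_tC]; exact nn02)
  · exact absurd hk (by rw [tkind_tD]; exact nn12)
  · exact h

end

/-- The R tokens at the root whose points are outside the root. -/
noncomputable def Rs (ρ q : V) : V :=
  ZFSet.sep (fun t => tkind t = nn 2 ∧ tidx t ∈ ρ ∧ tpt t ∉ ρ) q

/-- The other tokens at the root. -/
noncomputable def Bs (ρ q : V) : V :=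
  ZFSet.sep (fun t => tidx t ∈ ρ ∧ ¬ (tkind t = nn 2 ∧ tpt t ∉ ρ)) q

/-- The trace of an R token. -/
noncomputable def qd (Kap : V → V → Prop) (H t : V) : V :=
  ZFSet.pair (ZFSet.pair (tidx t) (tpt t ∩ H)) (ZFSet.pair (thgt t) (red Kap (tpt t)))

/-- The point promised at the root whose trace is `v`. -/
noncomputable def zf (ρ H v q : V) : V :=
  ZFSet.sUnion (ZFSet.sep (fun y => y ∩ H = v) (rep (Rs ρ q) tpt))

/-- The root data of the condition `q`. -/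
noncomputable def rd (Kap : V → V → Prop) (ρ H q : V) : V :=
  ZFSet.pair (Bs ρ q) (rep (Rs ρ q) (qd Kap H))

/-- support and promised points -/
noncomputable def sp (q : V) : V := rep q tidx ∪ rep (ZFSet.sep (fun t => tkind t = nn 2) q) tpt

section

variable {Γ : Type 1} [Ctx Γ] {A M : Set V} [ZFCm M] {w I e : V} {Kap : V → V → Prop}

theorem dmap_Rs {f g : Γ → V} (hf : DMap A M f) (hg : DMap A M g) :
    DMap A M (fun γ => Rs (f γ) (g γ)) := by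
  have h : DMap A M (fun p : V × V => Rs p.1 p.2) := by
    unfold Rs
    apply_rules (transparency := .reducible) (maxDepth := 999) only
      [DMap.tkind, DMap.tidx, DMap.tpt, DMap.nn] using is_poly
  exact h.comp (hf.prodMk hg)

theorem dmap_Bs {f g : Γ → V} (hf : DMap A M f) (hg : DMap A M g) :
    DMap A M (fun γ => Bs (f γ) (g γ)) := by
  have h : DMap A M (fun p : V × V => Bs p.1 p.2) := by
    unfold Bs
    apply_rules (transparency := .reducible) (maxDepth := 999) only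
      [DMap.tkind, DMap.tidx, DMap.tpt, DMap.nn] using is_poly
  exact h.comp (hf.prodMk hg)

theorem dmap_sp {f : Γ → V} (hf : DMap A M f) : DMap A M (fun γ => sp (f γ)) := by
  have h : DMap A M sp := by
    unfold sp
    apply_rules (transparency := .reducible) (maxDepth := 999) only
      [DMap.tkind, DMap.tidx, DMap.tpt, DMap.nn] using is_poly
  exact h.comp hf

theorem dmap_zf {ρ H v : V} (hρ : ρ ∈ M) (hH : H ∈ M) (hv : v ∈ M) {f : Γ → V}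
    (hf : DMap M M f) : DMap M M (fun γ => zf ρ H v (f γ)) := by
  have h : DMap M M (zf ρ H v) := by
    have h1 : ∀ {Γ : Type 1} [Ctx Γ], DMap M M (fun _ : Γ => ρ) := fun {Γ} _ => DMap.cst hρ
    have h2 : ∀ {Γ : Type 1} [Ctx Γ], DMap M M (fun _ : Γ => H) := fun {Γ} _ => DMap.cst hH
    have h3 : ∀ {Γ : Type 1} [Ctx Γ], DMap M M (fun _ : Γ => v) := fun {Γ} _ => DMap.cst hv
    unfold zf
    apply_rules (transparency := .reducible) (maxDepth := 999) only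
      [h1, h2, h3, dmap_Rs, DMap.tpt, DMap.nn] using is_poly
  exact h.comp hf

theorem dmap_rd (hs : Setup M w I e Kap) {ρ H : V} (hρ : ρ ∈ M) (hH : H ∈ M) {f : Γ → V}
    (hf : DMap M M f) : DMap M M (fun γ => rd Kap ρ H (f γ)) := by
  have h : DMap M M (rd Kap ρ H) := by
    have h1 : ∀ {Γ : Type 1} [Ctx Γ], DMap M M (fun _ : Γ => ρ) := fun {Γ} _ => DMap.cst hρ
    have h2 : ∀ {Γ : Type 1} [Ctx Γ], DMap M M (fun _ : Γ => H) := fun {Γ} _ => DMap.cst hH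
    have h3 : ∀ {Γ : Type 1} [Ctx Γ] {f : Γ → V}, DMap M M f →
      DMap M M (fun γ => red Kap (f γ)) := fun h => hs.dmap_red.comp h
    unfold rd qd
    apply_rules (transparency := .reducible) (maxDepth := 999) only
      [h1, h2, h3, dmap_Rs, dmap_Bs, DMap.tidx, DMap.thgt, DMap.tpt, DMap.nn] using is_poly
  exact h.comp hf

end

section

variable {M : Set V} [ZFCm M] {w I e : V} {Kap : V → V → Prop}

theorem mem_Rs {ρ q t : V} : t ∈ Rs ρ q ↔ t ∈ q ∧ tkind t = nn 2 ∧ tidx t ∈ ρ ∧ tpt t ∉ ρ :=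
  ZFSet.mem_sep

theorem mem_Bs {ρ q t : V} :
    t ∈ Bs ρ q ↔ t ∈ q ∧ tidx t ∈ ρ ∧ ¬ (tkind t = nn 2 ∧ tpt t ∉ ρ) :=
  ZFSet.mem_sep

theorem omega_mem_M : (ZFSet.omega : V) ∈ M :=
  (DMap.omega (A := M) (M := M) (Γ := PUnit)).mem (γ := PUnit.unit) inM_unit

/-- the countable set of possible values of the root data -/
theorem cbl_rd (hs : Setup M w I e Kap) {ρ : V} (hρ : ρ ∈ M) (hρf : {y | y ∈ ρ}.Finite)
    {H : V} (hH : H ∈ ZFSet.omega) {W : V} {q : V → V} (hq : ∀ x ∈ W, Cond I e Kap (q x)) :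
    Cbl M (rep W (fun x => rd Kap ρ H (q x))) := by
  have c0 : Cbl M (ZFSet.omega : V) := cbl_omega (M := M)
  have c1 : Cbl M (FinP ZFSet.omega) := c0.finP
  have c2 : Cbl M ρ := cbl_fin (fun y hy => TrC.trans hρ hy) hρf
  have c3 : Cbl M ((ZFSet.omega : V) ∪ (ZFSet.prod ZFSet.omega (FinP ZFSet.omega) ∪ ρ)) :=
    c0.union ((c0.prod c1).union c2)
  have c4 : Cbl M (ZFSet.prod ZFSet.omega (ZFSet.prod ρ (ZFSet.prod
      ((ZFSet.omega : V) ∪ (ZFSet.prod ZFSet.omega (FinP ZFSet.omega) ∪ ρ)) ZFSet.omega))) :=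
    c0.prod (c2.prod (c3.prod c0))
  have c5 : Cbl M (ZFSet.prod (ZFSet.prod ρ (FinP ZFSet.omega))
      (ZFSet.prod ZFSet.omega (ZFSet.prod ZFSet.omega (FinP (FinP ZFSet.omega))))) :=
    (c2.prod c1).prod (c0.prod (c0.prod c1.finP))
  refine (c4.finP.prod c5.finP).mono ?_
  intro p hp
  obtain ⟨x, hx, rfl⟩ := mem_rep.1 hp
  have hc := hq x hx
  refine ZFSet.pair_mem_prod.2 ⟨mem_FinP.2 ⟨fun t ht => ?_, ?_⟩, mem_FinP.2 ⟨fun t ht => ?_, ?_⟩⟩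
  · obtain ⟨htq, hi, hR⟩ := mem_Bs.1 ht
    rcases hc.tok t htq with ⟨i, _, n, hn, ε, hε, rfl⟩ | ⟨i, _, m, hm, u, hu, ε, hε, rfl⟩ |
      ⟨i, _, y, m, hm, _, rfl⟩
    · rw [tidx_tC] at hi
      refine ZFSet.pair_mem_prod.2 ⟨nn_mem_omega 0, ZFSet.pair_mem_prod.2 ⟨hi,
        ZFSet.pair_mem_prod.2 ⟨ZFSet.mem_union.2 (Or.inl hn), omega_sub (nn_mem_omega 2) hε⟩⟩⟩
    · rw [tidx_tD] at hi
      refine ZFSet.pair_mem_prod.2 ⟨nn_mem_omega 1, ZFSet.pair_mem_prod.2 ⟨hi,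
        ZFSet.pair_mem_prod.2 ⟨ZFSet.mem_union.2 (Or.inr (ZFSet.mem_union.2 (Or.inl
          (ZFSet.pair_mem_prod.2 ⟨hm, sub_mem_FinP hu hm⟩)))), omega_sub (nn_mem_omega 2) hε⟩⟩⟩
    · rw [tidx_tR] at hi
      have hy : y ∈ ρ := by
        by_contra hy
        exact hR ⟨tkind_tR _ _ _, by rwa [tpt_tR]⟩
      refine ZFSet.pair_mem_prod.2 ⟨nn_mem_omega 2, ZFSet.pair_mem_prod.2 ⟨hi,
        ZFSet.pair_mem_prod.2 ⟨ZFSet.mem_union.2 (Or.inr (ZFSet.mem_union.2 (Or.inr hy))), hm⟩⟩⟩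
  · exact finite_of_sub (fun t ht => (mem_Bs.1 ht).1) hc.fin
  · obtain ⟨t', ht', rfl⟩ := mem_rep.1 ht
    obtain ⟨htq, hk, hi, hy⟩ := mem_Rs.1 ht'
    obtain ⟨i, _, y, m, hm, ⟨l, hl, U, hK⟩, rfl⟩ := tok_R (hc.tok t' htq) hk
    rw [tidx_tR] at hi
    rw [qd, tidx_tR, tpt_tR, thgt_tR, hs.red_eq hK]
    refine ZFSet.pair_mem_prod.2 ⟨ZFSet.pair_mem_prod.2 ⟨hi, sub_mem_FinP (m := H)
      (fun z hz => (ZFSet.mem_inter.1 hz).2) hH⟩, ZFSet.pair_mem_prod.2 ⟨hm,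
      ZFSet.pair_mem_prod.2 ⟨hl, mem_FinP.2 ⟨fun u hu => ?_, ?_⟩⟩⟩⟩
    · exact sub_mem_FinP (ZFSet.mem_sep.1 hu).2 hl
    · exact (finite_subsets (omega_fin hl)).subset fun u hu => (ZFSet.mem_sep.1 hu).2
  · exact finite_rep (finite_of_sub (fun t ht => (mem_Rs.1 ht).1) hc.fin)

/-- the points promised at the root are separated by `H` -/
def Spd (ρ H q : V) : Prop := ∀ t ∈ Rs ρ q, ∀ t' ∈ Rs ρ q, tpt t ∩ H = tpt t' ∩ H → tpt t = tpt t'

omit [ZFCm M] in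
theorem zf_eq {ρ H v q t : V} (hS : Spd ρ H q) (ht : t ∈ Rs ρ q) (hv : tpt t ∩ H = v) :
    zf ρ H v q = tpt t := by
  have : ZFSet.sep (fun y => y ∩ H = v) (rep (Rs ρ q) tpt) = {tpt t} := by
    ext y
    rw [ZFSet.mem_sep, mem_rep, ZFSet.mem_singleton]
    constructor
    · rintro ⟨⟨t', ht', rfl⟩, h2⟩
      exact hS t' ht' t ht (h2.trans hv.symm)
    · rintro rfl
      exact ⟨⟨t, ht, rfl⟩, hv⟩
  rw [zf, this, ZFSet.sUnion_singleton]

theorem finite_sp {q : V} (h : {t | t ∈ q}.Finite) : {y | y ∈ sp q}.Finite := by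
  have h1 := finite_rep (F := tidx) h
  have h2 := finite_rep (F := tpt) (finite_of_sub (x := ZFSet.sep (fun t => tkind t = nn 2) q)
    (fun t ht => (ZFSet.mem_sep.1 ht).1) h)
  refine (h1.union h2).subset fun y hy => ?_
  exact ZFSet.mem_union.1 hy

theorem mem_sp {q y : V} : y ∈ sp q ↔ (∃ t ∈ q, tidx t = y) ∨ ∃ t ∈ q, tkind t = nn 2 ∧ tpt t = y := by
  rw [sp, ZFSet.mem_union, mem_rep, mem_rep]
  refine or_congr Iff.rfl ?_
  constructor
  · rintro ⟨t, ht, rfl⟩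
    exact ⟨t, (ZFSet.mem_sep.1 ht).1, (ZFSet.mem_sep.1 ht).2, rfl⟩
  · rintro ⟨t, ht, hk, rfl⟩
    exact ⟨t, ZFSet.mem_sep.2 ⟨ht, hk⟩, rfl⟩

theorem dfn_cnd {W : V} (hW : W ∈ M) {t : V → V → V} (hD : DMap M M (fun p : V × V => t p.1 p.2)) :
    Dfn M M (fun x : V => ¬ ∃ h ∈ (ZFSet.omega : V),
      Cbl M (ZFSet.sep (fun x' => t x' h = t x h) W)) := by
  have k1 : ∀ {Γ : Type 1} [Ctx Γ], DMap M M (fun _ : Γ => W) := fun {Γ} _ => DMap.cst hW
  have k2 : ∀ {Γ : Type 1} [Ctx Γ] {f g : Γ → V}, DMap M M f → DMap M M g →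
      DMap M M (fun γ => t (f γ) (g γ)) := fun h h' => hD.comp (h.prodMk h')
  apply_rules (transparency := .reducible) (maxDepth := 999) only
    [k1, k2, Dfn.cbl, DMap.omega] using is_poly

end

end Thn

open Thn Cmp in
/-- **The thinning-out lemma.** -/
theorem thin {M : Set V} [ZFCm M] {w I e : V} {Kap : V → V → Prop} (hs : Setup M w I e Kap)
    {W : V} (hW : W ∈ M) (hWu : ¬ Cbl M W) {q : V → V} (hq : DMap M M q)
    (hqc : ∀ x ∈ W, Cond I e Kap (q x)) :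
    ∃ W' ∈ M, W' ⊆ W ∧ ¬ Cbl M W' ∧ ∃ ρ ∈ M, {y | y ∈ ρ}.Finite ∧
    ∃ (b : V) (n : ℕ) (z : Fin n → V → V) (T : V → Fin n → V → Prop) (L U0 a0 : Fin n → V),
      (∀ j, DMap M M (z j)) ∧
      (∀ x ∈ W', Function.Injective (fun j => z j x) ∧
        ∀ j, z j x ⊆ ZFSet.omega ∧ z j x ∉ ρ) ∧
      (∀ y ∈ M, Cbl M (ZFSet.sep (fun x => ∃ j, z j x = y) W')) ∧
      (∀ i ∈ M, i ∉ ρ → Cbl M (ZFSet.sep (fun x => ∃ t ∈ q x, At t i) W')) ∧
      (∀ x ∈ W', ∀ t, (t ∈ q x ∧ ∃ i ∈ ρ, At t i) ↔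
        (t ∈ b ∨ ∃ i j m, T i j m ∧ t = tR i (z j x) m)) ∧
      (∀ i j m, T i j m → i ∈ ρ ∧ m ∈ ZFSet.omega) ∧
      (∀ x ∈ W', ∀ j, ∃ U, Kap (z j x) (kv (L j) U (a0 j)) ∧ ∀ u, u ⊆ L j → (u ∈ U ↔ u ∈ U0 j)) ∧
      (∀ j, ∃ i m, T i j m) ∧
      (∀ x ∈ W', ∀ h ∈ ZFSet.omega,
        ¬ Cbl M (ZFSet.sep (fun x' => ∀ j, z j x' ∩ h = z j x ∩ h) W')) := by
  classical
  have hq2 : ∀ {Γ : Type 1} [Ctx Γ] {f : Γ → V}, DMap M M f → DMap M M (fun γ => q (f γ)) :=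
    fun h => hq.comp h
  -- the root
  obtain ⟨ρ, hρM, hρf, W1, hW1M, hW1W, hW1u, hW1ρ, hcount⟩ :=
    root_lemma hW hWu (S := fun x => sp (q x)) (dmap_sp hq)
      (fun x hx => finite_sp (hqc x hx).fin)
  have hρ2 : ∀ {Γ : Type 1} [Ctx Γ], DMap M M (fun _ : Γ => ρ) := fun {Γ} _ => DMap.cst hρM
  -- separation
  obtain ⟨H, hH, hHu⟩ : ∃ H ∈ (ZFSet.omega : V),
      ¬ Cbl M (ZFSet.sep (fun x => Spd ρ H (q x)) W1) := by
    by_contra hcon
    push Not at hcon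
    have hd : Dfn M M (fun p : V × V => Spd ρ p.1 (q p.2)) := by
      unfold Spd
      apply_rules (transparency := .reducible) (maxDepth := 999) only
        [hρ2, hq2, dmap_Rs, DMap.tpt] using is_poly
    refine hW1u ((Cbl.sep_ex (P := fun H x => Spd ρ H (q x)) (cbl_omega (M := M)) omega_mem_M hW1M
      hd hcon).mono fun x hx => ?_)
    have hc := hqc x (hW1W hx)
    have hfin : {y | y ∈ rep (Rs ρ (q x)) tpt}.Finite :=
      finite_rep (finite_of_sub (fun t ht => (mem_Rs.1 ht).1) hc.fin)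
    obtain ⟨H, hH⟩ := exists_sep hfin (fun y hy => by
      obtain ⟨t, ht, rfl⟩ := mem_rep.1 hy
      obtain ⟨htq, hk, _, _⟩ := mem_Rs.1 ht
      obtain ⟨i, _, y, m, hm, ⟨l, hl, U, hK⟩, rfl⟩ := tok_R (hc.tok t htq) hk
      rw [tpt_tR]
      exact (hs.kap_real _ _ hK).2.1)
    refine ZFSet.mem_sep.2 ⟨hx, nn H, nn_mem_omega H, fun t ht t' ht' heq => ?_⟩
    exact hH _ (mem_rep.2 ⟨t, ht, rfl⟩) _ (mem_rep.2 ⟨t', ht', rfl⟩) heq
  have hHM : H ∈ M := TrC.trans omega_mem_M hH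
  set W2 : V := ZFSet.sep (fun x => Spd ρ H (q x)) W1 with hW2
  have hW2M : W2 ∈ M := by
    refine ZFm.sep_mem ?_ hW1M
    have h2 : ∀ {Γ : Type 1} [Ctx Γ], DMap M M (fun _ : Γ => H) := fun {Γ} _ => DMap.cst hHM
    unfold Spd
    apply_rules (transparency := .reducible) (maxDepth := 999) only
      [hρ2, h2, hq2, dmap_Rs, DMap.tpt] using is_poly
  -- the fibre
  obtain ⟨y0, hy0, hW3u⟩ := exists_fiber hW2M hHu (F := fun x => rd Kap ρ H (q x))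
    (dmap_rd hs hρM hHM hq)
    (cbl_rd hs hρM hρf hH fun x hx => hqc x (hW1W (ZFSet.mem_sep.1 hx).1))
  obtain ⟨x0, hx0, hx0e⟩ := mem_rep.1 hy0
  set b : V := Bs ρ (q x0) with hb
  set Ts : V := rep (Rs ρ (q x0)) (qd Kap H) with hTs
  set W3 : V := ZFSet.sep (fun x => rd Kap ρ H (q x) = y0) W2 with hW3
  have hW3M : W3 ∈ M := by
    have hy0M : y0 ∈ M := by
      rw [← hx0e]
      exact (dmap_rd hs hρM hHM hq).mem (inM_V.2 (TrC.trans hW2M hx0))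
    exact ZFm.sep_mem (Dfn.eq (dmap_rd hs hρM hHM hq) (DMap.cst hy0M)) hW2M
  have h3 : ∀ x ∈ W3, x ∈ W ∧ x ∈ W1 ∧ Spd ρ H (q x) ∧ Bs ρ (q x) = b ∧
      rep (Rs ρ (q x)) (qd Kap H) = Ts := by
    intro x hx
    obtain ⟨hx2, hxe⟩ := ZFSet.mem_sep.1 hx
    obtain ⟨hx1, hxS⟩ := ZFSet.mem_sep.1 hx2
    rw [← hx0e] at hxe
    obtain ⟨e1, e2⟩ := ZFSet.pair_injective hxe
    exact ⟨hW1W hx1, hx1, hxS, e1, e2⟩
  -- the traces
  have hTsf : {p | p ∈ Ts}.Finite := by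
    have hc := hqc x0 (hW1W (ZFSet.mem_sep.1 hx0).1)
    exact finite_rep (finite_of_sub (fun t ht => (mem_Rs.1 ht).1) hc.fin)
  obtain ⟨n, v, hvi, hv⟩ := (hTsf.image fun p => pi2 (pi1 p)).fin_param
  have hp : ∀ j, ∃ p ∈ Ts, pi2 (pi1 p) = v j := by
    intro j
    have : v j ∈ (fun p => pi2 (pi1 p)) '' {p | p ∈ Ts} := hv ▸ Set.mem_range_self j
    obtain ⟨p, hp, hpe⟩ := this
    exact ⟨p, hp, hpe⟩
  choose pp hpT hpv using hp
  -- the R tokens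
  have hR : ∀ x ∈ W3, ∀ p ∈ Ts, ∃ i y m l U, i ∈ ρ ∧ y ∉ ρ ∧ m ∈ ZFSet.omega ∧ tR i y m ∈ q x ∧
      tR i y m ∈ Rs ρ (q x) ∧
      Kap y (kv l U (lab e i)) ∧ p = ZFSet.pair (ZFSet.pair i (y ∩ H))
        (ZFSet.pair m (ZFSet.pair l (ZFSet.sep (fun u => u ⊆ l) U))) := by
    intro x hx p hp
    obtain ⟨hxW, _, _, _, hxT⟩ := h3 x hx
    rw [← hxT] at hp
    obtain ⟨t, ht, rfl⟩ := mem_rep.1 hp
    obtain ⟨htq, hk, hi, hy⟩ := mem_Rs.1 ht
    obtain ⟨i, _, y, m, hm, ⟨l, hl, U, hK⟩, rfl⟩ := tok_R ((hqc x hxW).tok t htq) hk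
    rw [tidx_tR] at hi
    rw [tpt_tR] at hy
    refine ⟨i, y, m, l, U, hi, hy, hm, htq, ht, hK, ?_⟩
    rw [qd, tidx_tR, tpt_tR, thgt_tR, hs.red_eq hK]
  have hvM : ∀ j, v j ∈ M := by
    intro j
    obtain ⟨x, hx⟩ : ∃ x, x ∈ W3 := by
      by_contra hcon
      push Not at hcon
      refine hW3u (cbl_fin (fun y hy => absurd hy (hcon y)) ?_)
      have : {y | y ∈ W3} = ∅ := by
        ext y
        simp [hcon y]
      rw [this]
      exact Set.finite_empty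
    obtain ⟨i, y, m, l, U, _, _, _, _, _, hK, hpe⟩ := hR x hx (pp j) (hpT j)
    have h1 := hpv j
    rw [hpe, pi1_pair, pi2_pair] at h1
    rw [← h1]
    have hyM : y ∈ M := (hs.kap_real _ _ hK).1
    exact (DMap.inter (DMap.cst hyM) (DMap.cst (Γ := PUnit) hHM)).mem (γ := PUnit.unit) inM_unit
  let z : Fin n → V → V := fun j x => zf ρ H (v j) (q x)
  have hzD : ∀ j, DMap M M (z j) := fun j => dmap_zf hρM hHM (hvM j) hq
  have hz1 : ∀ x ∈ W3, ∀ j i y m, tR i y m ∈ Rs ρ (q x) → y ∩ H = v j → z j x = y := by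
    intro x hx j i y m ht hy
    have := zf_eq (h3 x hx).2.2.1 ht (v := v j) (by rw [tpt_tR]; exact hy)
    rw [tpt_tR] at this
    exact this
  have hz2 : ∀ x ∈ W3, ∀ j, ∃ i m l U, i ∈ ρ ∧ z j x ∉ ρ ∧ m ∈ ZFSet.omega ∧
      tR i (z j x) m ∈ q x ∧ Kap (z j x) (kv l U (lab e i)) ∧ z j x ∩ H = v j ∧
      pp j = ZFSet.pair (ZFSet.pair i (v j))
        (ZFSet.pair m (ZFSet.pair l (ZFSet.sep (fun u => u ⊆ l) U))) := by
    intro x hx j
    obtain ⟨i, y, m, l, U, hi, hy, hm, ht, htR, hK, hpe⟩ := hR x hx (pp j) (hpT j)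
    have h1 := hpv j
    rw [hpe, pi1_pair, pi2_pair] at h1
    have h2 := hz1 x hx j i y m htR h1
    rw [h2]
    exact ⟨i, m, l, U, hi, hy, hm, ht, hK, h1, by rw [hpe, h1]⟩
  let T : V → Fin n → V → Prop := fun i j m => ∃ r, ZFSet.pair (ZFSet.pair i (v j)) (ZFSet.pair m r) ∈ Ts
  -- condensation
  have hD : DMap M M (fun p : V × V => tup (fun j => z j p.1 ∩ p.2)) := by
    refine DMap.tup fun j => ?_
    exact DMap.inter ((hzD j).comp (DMap.fst DMap.id)) (DMap.snd DMap.id)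
  have hFM : FinP ZFSet.omega ∈ M :=
    (DMap.FinP (A := M) (DMap.omega (Γ := PUnit))).mem (γ := PUnit.unit) inM_unit
  have htT : ∀ x ∈ W3, ∀ h ∈ (ZFSet.omega : V), tup (fun j => z j x ∩ h) ∈
      ZFSet.sep (fun z => ∃ (n : ℕ) (v : Fin n → V), (∀ i, v i ∈ FinP ZFSet.omega) ∧ z = tup v)
      (FinP (ZFSet.prod ZFSet.omega (FinP ZFSet.omega))) := by
    intro x hx h hh
    have hfj : ∀ j, z j x ∩ h ∈ FinP ZFSet.omega := fun j =>
      sub_mem_FinP (m := h) (fun y hy => (ZFSet.mem_inter.1 hy).2) hh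
    refine ZFSet.mem_sep.2 ⟨mem_FinP.2 ⟨fun p hp => ?_, ?_⟩, n, _, hfj, rfl⟩
    · obtain ⟨j, rfl⟩ := mem_tup.1 hp
      exact ZFSet.pair_mem_prod.2 ⟨nn_mem_omega _, hfj j⟩
    · refine (Set.finite_range (fun j : Fin n => ZFSet.pair (nn j) (z j x ∩ h))).subset ?_
      intro p hp
      obtain ⟨j, rfl⟩ := mem_tup.1 hp
      exact ⟨j, rfl⟩
  have hcond := condensation (t := fun x h => tup (fun j => z j x ∩ h)) hW3M hD
    (Cbl.tuples hFM (cbl_omega (M := M)).finP) htT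
  set C : V := ZFSet.sep (fun x => ∃ h ∈ (ZFSet.omega : V), Cbl M (ZFSet.sep (fun x' =>
    tup (fun j => z j x' ∩ h) = tup (fun j => z j x ∩ h)) W3)) W3 with hC
  set W4 : V := ZFSet.sep (fun x => ¬ ∃ h ∈ (ZFSet.omega : V), Cbl M (ZFSet.sep (fun x' =>
    tup (fun j => z j x' ∩ h) = tup (fun j => z j x ∩ h)) W3)) W3 with hW4
  have hW4M : W4 ∈ M := by
    exact ZFm.sep_mem (dfn_cnd (t := fun x h => tup (fun j => z j x ∩ h)) hW3M hD) hW3M
  have hW43 : W4 ⊆ W3 := fun x hx => (ZFSet.mem_sep.1 hx).1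
  have hun : ∀ {Z : V}, Z ⊆ W3 → ¬ Cbl M Z → ¬ Cbl M (ZFSet.sep (fun x => x ∈ W4) Z) := by
    intro Z hZ hZu hcon
    refine hZu ((hcon.union hcond).mono fun x hx => ?_)
    rw [ZFSet.mem_union]
    by_cases hx4 : x ∈ W4
    · exact Or.inl (ZFSet.mem_sep.2 ⟨hx, hx4⟩)
    · right
      refine ZFSet.mem_sep.2 ⟨hZ hx, ?_⟩
      by_contra hcon
      exact hx4 (ZFSet.mem_sep.2 ⟨hZ hx, hcon⟩)
  have hW4u : ¬ Cbl M W4 := by
    intro hcon
    exact hun (fun x hx => hx) hW3u (hcon.mono fun x hx => (ZFSet.mem_sep.1 hx).2)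
  refine ⟨W4, hW4M, fun x hx => (h3 x (hW43 hx)).1, hW4u, ρ, hρM, hρf, b, n, z, T,
    fun j => pi1 (pi2 (pi2 (pp j))), fun j => pi2 (pi2 (pi2 (pp j))),
    fun j => lab e (pi1 (pi1 (pp j))), hzD, ?_, ?_, ?_, ?_, ?_, ?_, ?_, ?_⟩
  · intro x hx
    refine ⟨fun j j' hjj => hvi ?_, fun j => ?_⟩
    · obtain ⟨_, _, _, _, _, _, _, _, _, h1, _⟩ := hz2 x (hW43 hx) j
      obtain ⟨_, _, _, _, _, _, _, _, _, h2, _⟩ := hz2 x (hW43 hx) j'
      simp only at hjj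
      rw [← h1, ← h2, hjj]
    · obtain ⟨_, _, _, _, _, h1, _, _, hK, _, _⟩ := hz2 x (hW43 hx) j
      exact ⟨(hs.kap_real _ _ hK).2.1, h1⟩
  · intro y hyM
    by_cases hy : y ∈ ρ
    · refine cbl_fin (fun x hx => ?_) ?_
      · exact TrC.trans hW4M (ZFSet.mem_sep.1 hx).1
      · have : {x | x ∈ ZFSet.sep (fun x => ∃ j, z j x = y) W4} = ∅ := by
          ext x
          simp only [Set.mem_ofPred_eq, ZFSet.mem_sep, Set.mem_empty_iff_false, iff_false]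
          rintro ⟨hx, j, hj⟩
          obtain ⟨_, _, _, _, _, h1, _⟩ := hz2 x (hW43 hx) j
          rw [hj] at h1
          exact h1 hy
        rw [this]
        exact Set.finite_empty
    · refine (hcount y hyM hy).mono fun x hx => ?_
      obtain ⟨hx4, j, hj⟩ := ZFSet.mem_sep.1 hx
      obtain ⟨i, m, _, _, _, _, _, ht, _, _, _⟩ := hz2 x (hW43 hx4) j
      refine ZFSet.mem_sep.2 ⟨(h3 x (hW43 hx4)).2.1, ?_⟩
      refine mem_sp.2 (Or.inr ⟨_, ht, tkind_tR _ _ _, ?_⟩)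
      rw [tpt_tR, hj]
  · intro i hiM hi
    refine (hcount i hiM hi).mono fun x hx => ?_
    obtain ⟨hx4, t, ht, hat⟩ := ZFSet.mem_sep.1 hx
    obtain ⟨hxW, hx1, _⟩ := h3 x (hW43 hx4)
    refine ZFSet.mem_sep.2 ⟨hx1, ?_⟩
    exact mem_sp.2 (Or.inl ⟨t, ht, (at_tidx ((hqc x hxW).tok t ht)).1 hat⟩)
  · intro x hx4 t
    obtain ⟨hxW, hx1, hxS, hxb, hxT⟩ := h3 x (hW43 hx4)
    have hc := hqc x hxW
    constructor
    · rintro ⟨ht, i, hi, hat⟩
      have hti : tidx t = i := (at_tidx (hc.tok t ht)).1 hat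
      by_cases hk : tkind t = nn 2 ∧ tpt t ∉ ρ
      · right
        have htR : t ∈ Rs ρ (q x) := mem_Rs.2 ⟨ht, hk.1, by rw [hti]; exact hi, hk.2⟩
        obtain ⟨i', _, y, m, hm, _, rfl⟩ := tok_R (hc.tok t ht) hk.1
        rw [tidx_tR] at hti
        subst hti
        have hqT : qd Kap H (tR i' y m) ∈ Ts := by
          rw [← hxT]
          exact mem_rep.2 ⟨_, htR, rfl⟩
        have hvj : y ∩ H ∈ Set.range v := by
          rw [hv]
          refine ⟨_, hqT, ?_⟩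
          simp only [qd, pi1_pair, pi2_pair, tpt_tR]
        obtain ⟨j, hj⟩ := hvj
        refine ⟨i', j, m, ⟨red Kap y, ?_⟩, ?_⟩
        · rw [qd, tidx_tR, tpt_tR, thgt_tR] at hqT
          rw [hj]
          exact hqT
        · rw [hz1 x (hW43 hx4) j i' y m htR hj.symm]
      · left
        rw [← hxb]
        exact mem_Bs.2 ⟨ht, by rw [hti]; exact hi, hk⟩
    · rintro (ht | ⟨i, j, m, ⟨r, hr⟩, rfl⟩)
      · rw [← hxb] at ht
        obtain ⟨ht, hi, _⟩ := mem_Bs.1 ht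
        exact ⟨ht, _, hi, (at_tidx (hc.tok t ht)).2 rfl⟩
      · obtain ⟨i', y, m', l, U, hi, hy, hm, ht, htR, hK, hpe⟩ := hR x (hW43 hx4) _ hr
        obtain ⟨e1, e2⟩ := ZFSet.pair_injective hpe
        obtain ⟨rfl, e3⟩ := ZFSet.pair_injective e1
        obtain ⟨rfl, e4⟩ := ZFSet.pair_injective e2
        rw [hz1 x (hW43 hx4) j i y m htR e3.symm]
        exact ⟨ht, i, hi, At.R⟩
  · rintro i j m ⟨r, hr⟩
    obtain ⟨x, hx⟩ : ∃ x, x ∈ W3 := by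
      by_contra hcon
      push Not at hcon
      refine hW3u (cbl_fin (fun y hy => absurd hy (hcon y)) ?_)
      have : {y | y ∈ W3} = ∅ := by
        ext y
        simp [hcon y]
      rw [this]
      exact Set.finite_empty
    obtain ⟨i', y, m', l, U, hi, hy, hm, ht, htR, hK, hpe⟩ := hR x hx _ hr
    obtain ⟨e1, e2⟩ := ZFSet.pair_injective hpe
    obtain ⟨rfl, e3⟩ := ZFSet.pair_injective e1
    obtain ⟨rfl, e4⟩ := ZFSet.pair_injective e2
    exact ⟨hi, hm⟩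
  · intro x hx4 j
    obtain ⟨i, m, l, U, hi, _, hm, ht, hK, _, hpe⟩ := hz2 x (hW43 hx4) j
    refine ⟨U, ?_, ?_⟩
    · simp only [hpe, pi1_pair, pi2_pair]
      exact hK
    · intro u hu
      simp only [hpe, pi2_pair, pi1_pair] at hu ⊢
      rw [ZFSet.mem_sep]
      exact ⟨fun h => ⟨h, hu⟩, fun h => h.1⟩
  · intro j
    obtain ⟨x, hx⟩ : ∃ x, x ∈ W3 := by
      by_contra hcon
      push Not at hcon
      refine hW3u (cbl_fin (fun y hy => absurd hy (hcon y)) ?_)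
      have : {y | y ∈ W3} = ∅ := by
        ext y
        simp [hcon y]
      rw [this]
      exact Set.finite_empty
    obtain ⟨i, m, l, U, _, _, _, _, _, _, hpe⟩ := hz2 x hx j
    refine ⟨i, m, ZFSet.pair l (ZFSet.sep (fun u => u ⊆ l) U), ?_⟩
    rw [← hpe]
    exact hpT j
  · intro x hx4 h hh hcon
    obtain ⟨hx3, hxn⟩ := ZFSet.mem_sep.1 hx4
    refine hun (Z := ZFSet.sep (fun x' => tup (fun j => z j x' ∩ h) = tup (fun j => z j x ∩ h)) W3)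
      (fun x' hx' => (ZFSet.mem_sep.1 hx').1) (fun hc => hxn ⟨h, hh, hc⟩) (hcon.mono ?_)
    intro x' hx'
    obtain ⟨hx1, hx4'⟩ := ZFSet.mem_sep.1 hx'
    obtain ⟨_, he⟩ := ZFSet.mem_sep.1 hx1
    exact ZFSet.mem_sep.2 ⟨hx4', fun j => congrFun (tup_inj he) j⟩

end Pool.Agent.CTM
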