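import Pool.Agent.CTM.RigC
import Pool.Agent.CTM.Greals
import Pool.Agent.CTM.Thin
import Pool.Agent.CTM.FD0
import Pool.Agent.CTM.Forcing
import Pool.Agent.CTM.HC

/-!
Rigidity of the generic reals (MP_ea2134_lc, module RIG).
-/

set_option autoImplicit false

namespace Pool.Agent.CTM

namespace Rig

open Cmp

section

variable {M : Set V} [ZFCm M] {w I e : V} {Kap : V → V → Prop}

/-- The thinned out family of conditions `q x`, `x ∈ W'`: the part of `q x` at the root `ρ` is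
`b` together with the promises `(i, z j x, m)`, `T i j m`. -/
structure Thin (M : Set V) (e : V) (Kap : V → V → Prop) (W : V) (q : V → V) (W' ρ b : V) (n : ℕ)
    (z : Fin n → V → V) (T : V → Fin n → V → Prop) (L U0 a0 : Fin n → V) : Prop where
  mem : W' ∈ M
  sub : W' ⊆ W
  unc : ¬ Cbl M W'
  fin : {y | y ∈ ρ}.Finite
  dmap : ∀ j, DMap M M (z j)
  inj : ∀ x ∈ W', Function.Injective (fun j => z j x)
  real : ∀ x ∈ W', ∀ j, z j x ⊆ ZFSet.omega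
  fib : ∀ y ∈ M, Cbl M (ZFSet.sep (fun x => ∃ j, z j x = y) W')
  idx : ∀ i ∈ M, i ∉ ρ → Cbl M (ZFSet.sep (fun x => ∃ t ∈ q x, At t i) W')
  root : ∀ x ∈ W', ∀ t, (t ∈ q x ∧ ∃ i ∈ ρ, At t i) ↔
    (t ∈ b ∨ ∃ i j m, T i j m ∧ t = tR i (z j x) m)
  T_mem : ∀ i j m, T i j m → i ∈ ρ
  kap : ∀ x ∈ W', ∀ j, ∃ U, Kap (z j x) (kv (L j) U (a0 j)) ∧ ∀ u, u ⊆ L j → (u ∈ U ↔ u ∈ U0 j)

/-- The thinning-out statement. -/
def Stmt_thin : Prop :=
  ∀ (M : Set V) [ZFCm M] (w I e : V) (Kap : V → V → Prop), Setup M w I e Kap →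
    ∀ P ∈ M, IsPos I e Kap P → ∀ W ∈ M, ¬ Cbl M W → ∀ q : V → V, DMap M M q →
    (∀ x ∈ W, q x ∈ P) → ∃ (W' ρ b : V) (n : ℕ) (z : Fin n → V → V) (T : V → Fin n → V → Prop)
      (L U0 a0 : Fin n → V), Thin M e Kap W q W' ρ b n z T L U0 a0

/-- Initial segments of the generic reals are decided. -/
theorem exists_tr {P G : V} (hP : P ∈ M) (hPos : IsPos I e Kap P) (S : Setup M w I e Kap)
    (hG : Generic M P G) {i : V} (hi : i ∈ I) (N : ℕ) :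
    ∃ p ∈ G, Tr p i (nn N) (cre G i ∩ nn N) := by
  have hiM : i ∈ M := S.I_sub hi
  have hD : ZFSet.sep (fun q => ∃ u ∈ M, Tr q i (nn N) u) P ∈ M := by
    have hci : ∀ {Δ : Type 1} [Ctx Δ], DMap M M (fun _ : Δ => i) := DMap.const hiM hiM
    refine ZFm.sep_mem ?_ hP
    apply_rules (transparency := .reducible) (maxDepth := 999) only [hci, DMap.nn, Dfn.tr]
      using is_poly
  obtain ⟨p, hp, hpG⟩ := hG.meets _ hD ⟨ZFSet.sep_subset, fun p hp => by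
    obtain ⟨q, hq, h1, u, hu⟩ := GrePf.decTr ((hPos p).1 hp) hi N
    refine ⟨q, ZFSet.mem_sep.2 ⟨(hPos q).2 hq, u, ?_, hu⟩, h1⟩
    refine fin_mem (fun y hy => ?_) ?_
    · exact TrC.trans (nn_mem N) (hu.1 hy)
    · refine ((Set.finite_lt_nat N).image nn).subset fun y hy => ?_
      obtain ⟨k, hk, rfl⟩ := mem_nn.1 (hu.1 hy)
      exact ⟨k, hk, rfl⟩⟩
  obtain ⟨_, u, _, hu⟩ := ZFSet.mem_sep.1 hp
  refine ⟨p, hpG, ?_⟩
  have : cre G i ∩ nn N = u := by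
    ext n
    rw [ZFSet.mem_inter]
    constructor
    · rintro ⟨hn, hnN⟩
      by_contra hn'
      obtain ⟨_, p', hp', h1⟩ := ZFSet.mem_sep.1 hn
      obtain ⟨r, hr, h2, h3⟩ := hG.dir p hpG p' hp'
      exact ((hPos r).1 (hG.sub hr)).funC i n ⟨h2 ((hu.2 n hnN).2 hn'), h3 h1⟩
    · intro hn
      have hnN := hu.1 hn
      refine ⟨ZFSet.mem_sep.2 ⟨?_, p, hpG, (hu.2 n hnN).1 hn⟩, hnN⟩
      obtain ⟨k, _, rfl⟩ := mem_nn.1 hnN
      exact nn_mem_omega k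
  rw [this]
  exact hu

omit [ZFCm M] in
theorem finite_T {q x : V} {n : ℕ} {z : Fin n → V → V} {T : V → Fin n → V → Prop}
    (hf : {t | t ∈ q}.Finite) (hz : Function.Injective (fun j => z j x))
    (hT : ∀ i j m, T i j m → tR i (z j x) m ∈ q) :
    {p : V × Fin n × V | T p.1 p.2.1 p.2.2}.Finite := by
  refine Set.Finite.of_finite_image (f := fun p : V × Fin n × V => tR p.1 (z p.2.1 x) p.2.2)
    (hf.subset ?_) ?_
  · rintro t ⟨p, hp, rfl⟩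
    exact hT _ _ _ hp
  · rintro ⟨i, j, m⟩ _ ⟨i', j', m'⟩ _ h
    obtain ⟨rfl, h1, rfl⟩ := tR_inj h
    have : j = j' := hz h1
    subst this
    rfl

omit [ZFCm M] in
theorem Thin.restrict [ZFCm M] {W W' W'' ρ b : V} {q : V → V} {n : ℕ} {z : Fin n → V → V}
    {T : V → Fin n → V → Prop} {L U0 a0 : Fin n → V} (h : Thin M e Kap W q W' ρ b n z T L U0 a0)
    (hm : W'' ∈ M) (hs : W'' ⊆ W') (hc : ¬ Cbl M W'') :
    Thin M e Kap W q W'' ρ b n z T L U0 a0 where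
  mem := hm
  sub := fun x hx => h.sub (hs hx)
  unc := hc
  fin := h.fin
  dmap := h.dmap
  inj := fun x hx => h.inj x (hs hx)
  real := fun x hx => h.real x (hs hx)
  fib := fun y hy => (h.fib y hy).mono fun x hx =>
    ZFSet.mem_sep.2 ⟨hs (ZFSet.mem_sep.1 hx).1, (ZFSet.mem_sep.1 hx).2⟩
  idx := fun i hi hi' => (h.idx i hi hi').mono fun x hx =>
    ZFSet.mem_sep.2 ⟨hs (ZFSet.mem_sep.1 hx).1, (ZFSet.mem_sep.1 hx).2⟩
  root := fun x hx => h.root x (hs hx)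
  T_mem := h.T_mem
  kap := fun x hx => h.kap x (hs hx)

/-- The set of all indices in `M` of the tokens of a condition that are not in `ρ`. -/
theorem finite_idx {r : V} (h : {t | t ∈ r}.Finite) : {i | ∃ t ∈ r, At t i}.Finite := by
  have : {i | ∃ t ∈ r, At t i} ⊆ ⋃ t ∈ {t | t ∈ r}, {i | At t i} := by
    rintro i ⟨t, ht, hi⟩
    exact Set.mem_biUnion (by exact ht) hi
  refine (h.biUnion fun t _ => ?_).subset this
  exact Set.Subsingleton.finite fun i hi j hj => At.eq hi hj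

/-- The core of the proof of rigidity. -/
theorem core (hF : Stmt_forceD0) (hE : Stmt_generic) (hHC : Stmt_HC) (S : Setup M w I e Kap)
    (hM : M.Countable) {P : V} (hP : P ∈ M) (hPos : IsPos I e Kap P) (h0 : ∅ ∈ P)
    {c d i₀ p : V} (hc : c ∈ M) (hd : d ∈ M) (hi₀ : i₀ ∈ I) (hp : p ∈ P)
    (hf : ∀ G, Generic M P G → p ∈ G → Codes Kap (lab e i₀) (val G c) (val G d) ∧
      val G c ⊆ ZFSet.omega ∧ ∀ i ∈ I, lab e i = lab e i₀ → val G c ≠ cre G i)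
    {W W' ρ b k₀ : V} {q : V → V} {n : ℕ} {z : Fin n → V → V}
    {T : V → Fin n → V → Prop} {L U0 a0 : Fin n → V}
    (h : Thin M e Kap W q W' ρ b n z T L U0 a0) {j₀ : Fin n} (hz : ∀ x ∈ W', z j₀ x = x)
    (hk : ∀ x ∈ W', Kap x (kv (nn 0) (nn 1) (lab e i₀))) (hk₀ : k₀ ∈ (ZFSet.omega : V))
    (hq : ∀ x ∈ W', q x ∈ P ∧ p ⊆ q x ∧ FIn M P d x k₀ (q x)) : False := by
  classical
  set a := lab e i₀ with ha
  -- a condensation point
  obtain ⟨x₀, hx₀, hcon⟩ := exists_cond h.mem h.unc h.dmap h.real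
  obtain ⟨hq₀P, hpq₀, hIn₀⟩ := hq x₀ hx₀
  have hcq₀ : Cond I e Kap (q x₀) := (hPos _).1 hq₀P
  have hT₀ : ∀ i j m, T i j m → tR i (z j x₀) m ∈ q x₀ := fun i j m hT =>
    ((h.root x₀ hx₀ _).2 (Or.inr ⟨i, j, m, hT, rfl⟩)).1
  have hTfin : {p : V × Fin n × V | T p.1 p.2.1 p.2.2}.Finite :=
    finite_T hcq₀.fin (h.inj x₀ hx₀) hT₀
  -- the indices at which x is promised
  have hlab : ∀ i m, T i j₀ m → i ∈ I ∧ lab e i = a := by
    intro i m hT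
    obtain ⟨h1, _, l, _, U, h2⟩ := cond_promise hcq₀ (hT₀ i j₀ m hT)
    rw [hz x₀ hx₀] at h2
    exact ⟨h1, (kv_inj (S.kap_fun _ _ _ h2 (hk x₀ hx₀))).2.2⟩
  -- a generic filter that contains q x₀
  obtain ⟨G, hG, hqG⟩ := hE M hM P hP (q x₀) hq₀P h0
  obtain ⟨_, hcω, hne⟩ := hf G hG (hG.down _ hqG p hp hpq₀)
  have hρfin : {i | ∃ m, T i j₀ m}.Finite := by
    refine (hTfin.image Prod.fst).subset ?_
    rintro i ⟨m, hm⟩
    exact ⟨(i, j₀, m), hm, rfl⟩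
  obtain ⟨N, hN⟩ := exists_h hcω (A := fun i => cre G i) hρfin (by
    rintro i ⟨m, hm⟩
    obtain ⟨h1, h2⟩ := hlab i m hm
    exact ⟨ZFSet.sep_subset, hne i h1 h2⟩)
  -- the clopen set
  have subfin : ∀ u : V, u ⊆ nn N → {y | y ∈ u}.Finite := by
    intro u hu
    refine ((Set.finite_lt_nat N).image nn).subset fun y hy => ?_
    obtain ⟨k, hk, rfl⟩ := mem_nn.1 (hu hy)
    exact ⟨k, hk, rfl⟩
  obtain ⟨U', hU'⟩ := exists_set (hρfin.image fun i => cre G i ∩ nn N)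
  have hHCM := (hHC M).1
  have hUHC : U' ∈ HC M := by
    refine fin_mem (M := HC M) (fun y hy => ?_) ?_
    · obtain ⟨i, _, rfl⟩ := (hU' y).1 hy
      refine fin_mem (M := HC M) (fun v hv => ?_) (subfin _ fun v hv => (ZFSet.mem_inter.1 hv).2)
      exact TrC.trans (nn_mem (M := HC M) N) (ZFSet.mem_inter.1 hv).2
    · exact (hρfin.image fun i => cre G i ∩ nn N).subset fun y hy => (hU' y).1 hy
  have haM : a ∈ M := (S.kv_mem (hk x₀ hx₀)).2.2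
  have haω : a ⊆ ZFSet.omega := by
    rw [ha]
    exact S.e_real _ ((S.I_iff i₀).1 hi₀).2
  have haHC : a ∈ HC M := ((hHC M).2.2.2.1 a haω).2 haM
  -- the value of c below N
  set u₀ : V := val G c ∩ nn N with hu₀
  have hu₀M : u₀ ∈ M := by
    refine fin_mem (fun v hv => ?_) (subfin _ fun v hv => (ZFSet.mem_inter.1 hv).2)
    exact TrC.trans (nn_mem (M := M) N) (ZFSet.mem_inter.1 hv).2
  have hu₀U : u₀ ∉ U' := by
    intro hu
    obtain ⟨i, hi, h1⟩ := (hU' _).1 hu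
    exact hN i hi h1.symm
  obtain ⟨r₁, hr₁, hfr₁⟩ := fInter hF hM hP h0 hc hG (nn_mem N) hu₀M hu₀.symm
  -- the condition r
  have hex : ∀ i, i ∈ {i | ∃ m, T i j₀ m} → ∃ p ∈ G, Tr p i (nn N) (cre G i ∩ nn N) := by
    rintro i ⟨m, hm⟩
    exact exists_tr hP hPos S hG (hlab i m hm).1 N
  choose! f hfG hfTr using hex
  obtain ⟨r, hrG, hr⟩ := generic_fin hG (s := insert (q x₀) (insert r₁ (f '' {i | ∃ m, T i j₀ m})))
    (((hρfin.image f).insert r₁).insert (q x₀)) (by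
      rintro p' (rfl | rfl | ⟨i, hi, rfl⟩)
      · exact hqG
      · exact hr₁
      · exact hfG i hi)
  have hqr : q x₀ ⊆ r := hr _ (Or.inl rfl)
  have hr₁r : r₁ ⊆ r := hr _ (Or.inr (Or.inl rfl))
  have hTr : ∀ i m, T i j₀ m → Tr r i (nn N) (cre G i ∩ nn N) := fun i m hT =>
    tr_mono (hfTr i ⟨m, hT⟩) (hr _ (Or.inr (Or.inr ⟨i, ⟨m, hT⟩, rfl⟩)))
  have hrP : r ∈ P := hG.sub hrG
  have hcr : Cond I e Kap r := (hPos r).1 hrP
  obtain ⟨N₀, hN₀⟩ := exists_bd hcr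
  -- the values at x₀
  choose V₀ hV₀ hV₀' using h.kap x₀ hx₀
  -- points that look like those of x₀ with prescribed values
  set W₃ : V := ZFSet.sep (fun x => ∀ j, z j x ∩ nn N₀ = z j x₀ ∩ nn N₀) W' with hW₃
  have hx₀M : x₀ ∈ M := TrC.trans h.mem hx₀
  have hzM : ∀ j, ∀ x ∈ M, z j x ∈ M := fun j x hx => (h.dmap j).mem (inM_V.2 hx)
  have hW₃M : W₃ ∈ M := by
    have hcx : ∀ j, ∀ {Δ : Type 1} [Ctx Δ], DMap M M (fun _ : Δ => z j x₀) := fun j =>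
      DMap.const (hzM j _ hx₀M) (hzM j _ hx₀M)
    refine ZFm.sep_mem (Dfn.all_fin fun j => ?_) h.mem
    exact Dfn.eq (DMap.inter (h.dmap j) (DMap.nn _)) (DMap.inter (hcx j) (DMap.nn _))
  have hW₃c : ¬ Cbl M W₃ := hcon _ (nn_mem_omega N₀)
  obtain ⟨z', hz'inj, hz'k, _, hz'⟩ := S.ind n W₃ z hW₃M h.dmap (fun x hx => by
      have hx' := (ZFSet.mem_sep.1 hx).1
      exact ⟨h.inj x hx', h.real x hx'⟩) (fun y hy => (h.fib y hy).mono fun x hx => by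
        obtain ⟨h1, h2⟩ := ZFSet.mem_sep.1 hx
        exact ZFSet.mem_sep.2 ⟨(ZFSet.mem_sep.1 h1).1, h2⟩) hW₃c
      (fun j => if j = j₀ then kv (nn N) U' a else kv (L j) (V₀ j) (a0 j)) (fun j => by
        by_cases hj : j = j₀
        · rw [if_pos hj]
          exact kv_HC hHCM (nn_mem (M := HC M) N) hUHC haHC
        · rw [if_neg hj]
          exact (S.kap_real _ _ (hV₀ j)).2.2) ∅ ZFm.empty_mem
      (cbl_fin (fun y hy => absurd hy (ZFSet.notMem_empty y)) (by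
        convert Set.finite_empty (α := V)
        ext y
        simp))
  have hz'₀ : Kap (z' j₀) (kv (nn N) U' a) := by
    have := hz'k j₀
    rwa [if_pos rfl] at this
  have hz'₁ : ∀ j, j ≠ j₀ → Kap (z' j) (kv (L j) (V₀ j) (a0 j)) := by
    intro j hj
    have := hz'k j
    rwa [if_neg hj] at this
  have hzz' : ∀ j, z j x₀ ∩ nn N₀ = z' j ∩ nn N₀ := by
    obtain ⟨x, hx, _⟩ := exists_not_mem (hz' _ (nn_mem_omega N₀))
      (cbl_fin (M := M) (x := ∅) (fun y hy => absurd hy (ZFSet.notMem_empty y)) (by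
        convert Set.finite_empty (α := V)
        ext y
        simp))
    obtain ⟨h1, h2⟩ := ZFSet.mem_sep.1 hx
    obtain ⟨_, h3⟩ := ZFSet.mem_sep.1 h1
    intro j
    rw [← h3 j, h2 j]
  -- the new promises
  obtain ⟨R, hR'⟩ := exists_set (hTfin.image fun p : V × Fin n × V => tR p.1 (z' p.2.1) p.2.2)
  have hR : ∀ t, t ∈ R ↔ ∃ i j m, T i j m ∧ t = tR i (z' j) m := by
    intro t
    rw [hR']
    constructor
    · rintro ⟨⟨i, j, m⟩, h1, rfl⟩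
      exact ⟨i, j, m, h1, rfl⟩
    · rintro ⟨i, j, m, h1, rfl⟩
      exact ⟨(i, j, m), h1, rfl⟩
  have hRfin : {t | t ∈ R}.Finite :=
    (hTfin.image fun p : V × Fin n × V => tR p.1 (z' p.2.1) p.2.2).subset fun t ht => (hR' t).1 ht
  have hTr0 : ∀ i, Tr r i (nn 0) (nn 0) := fun i =>
    ⟨fun y hy => hy, fun y hy => absurd hy (ZFSet.notMem_empty y)⟩
  have hcr' : Cond I e Kap (r ∪ R) := by
    refine extend hcr (z := fun j => z j x₀) (z' := z') (T := T) (fun i j m hT => ?_)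
      S.kap_fun hN₀ hzz' hR hRfin
    have h1 : tR i (z j x₀) m ∈ r := hqr (hT₀ i j m hT)
    refine ⟨h1, ?_⟩
    by_cases hj : j = j₀
    · subst hj
      have h2 := (hlab i m hT).2
      refine ⟨nn 0, nn 1, nn N, U', nn 0, cre G i ∩ nn N, ?_, nn_mem_omega N, ?_, hTr0 i,
        hTr i m hT, ?_⟩
      · rw [hz x₀ hx₀, h2]
        exact hk x₀ hx₀
      · rw [h2]
        exact hz'₀
      · refine ⟨fun _ => (hU' _).2 ⟨i, ⟨m, hT⟩, rfl⟩, fun _ => nn_mem_nn.2 Nat.zero_lt_one⟩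
    · obtain ⟨_, _, l, hl, U, h2⟩ := cond_promise hcr h1
      obtain ⟨u, hu⟩ := hcr.dec _ _ _ _ _ h1 h2
      have h3 : Kap (z' j) (kv l U (lab e i)) := by
        rw [S.kap_fun _ _ _ h2 (hV₀ j)]
        exact hz'₁ j hj
      exact ⟨l, U, l, U, u, u, h2, hl, h3, hu, hu, Iff.rfl⟩
  -- a generic filter that contains them
  obtain ⟨G₂, hG₂, hrG₂'⟩ := hE M hM P hP (r ∪ R) ((hPos _).2 hcr') h0
  have hrG₂ : r ∈ G₂ := hG₂.down _ hrG₂' r hrP fun y hy => ZFSet.mem_union.2 (Or.inl hy)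
  have hpG₂ : p ∈ G₂ := hG₂.down _ hrG₂ p hp fun y hy => hqr (hpq₀ hy)
  obtain ⟨hCod, _, _⟩ := hf G₂ hG₂ hpG₂
  obtain ⟨k₁, hk₁, hseg⟩ := hCod (z' j₀) (nn N) U' (nn_mem_omega N) hz'₀
  have hc₂ : val G₂ c ∩ nn N = u₀ :=
    hfr₁ G₂ hG₂ (hG₂.down _ hrG₂ r₁ (hG.sub hr₁) hr₁r)
  have hout : ∀ m ∈ (ZFSet.omega : V), k₁ ⊆ m → seg (z' j₀) m ∉ val G₂ d := by
    intro m hm hkm h1
    have h2 := (hseg m hm hkm).1 h1
    rw [hc₂] at h2
    exact hu₀U h2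
  have hz'M : z' j₀ ∈ M := (S.kap_real _ _ hz'₀).1
  obtain ⟨r₂, hr₂, hfr₂⟩ := fOut hF hM hP h0 hd hG₂ hz'M (TrC.trans ZFm.omega_mem hk₁) hout
  obtain ⟨s, hsG, hs₁, hs₂⟩ := hG₂.dir _ hrG₂' r₂ hr₂
  have hsP : s ∈ P := hG₂.sub hsG
  have hcs : Cond I e Kap s := (hPos s).1 hsP
  obtain ⟨N₁', hN₁'⟩ := exists_bd hcs
  obtain ⟨κ₀, rfl⟩ := mem_omega.1 hk₀
  obtain ⟨κ₁, rfl⟩ := mem_omega.1 hk₁
  set N₁ := max N₁' (max κ₀ κ₁) with hN₁d
  have hN₁ : Bd s (nn N₁) := by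
    have h1 : nn N₁' ⊆ nn N₁ := nn_sub (le_max_left _ _)
    exact ⟨fun i m u ε ht y hy => h1 (hN₁'.1 i m u ε ht hy),
      fun i x m ht y hy => h1 (hN₁'.2 i x m ht hy)⟩
  -- a point x₁ that looks like z'
  have hsM : s ∈ M := TrC.trans hP hsP
  have hbad := cbl_fin_sep (M := M) (W := W') (Q := fun i x => i ∉ ρ ∧ ∃ t ∈ q x, At t i)
    (s := {i | ∃ t ∈ s, At t i}) (finite_idx hcs.fin) (by
      rintro i ⟨t, ht, hi⟩
      have hiM : i ∈ M := by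
        rcases hi with ⟨n', ε, rfl⟩ | ⟨s', ε, rfl⟩ | ⟨x', m', rfl⟩
        · exact (tC_mem.1 (TrC.trans hsM ht)).1
        · exact (tD_mem.1 (TrC.trans hsM ht)).1
        · exact (tR_mem.1 (TrC.trans hsM ht)).1
      by_cases hiρ : i ∈ ρ
      · refine cbl_fin (fun y hy => absurd hiρ (ZFSet.mem_sep.1 hy).2.1) ?_
        convert Set.finite_empty (α := V)
        ext y
        simp [ZFSet.mem_sep, hiρ]
      · refine (h.idx i hiM hiρ).mono fun x hx => ?_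
        obtain ⟨h1, _, h2⟩ := ZFSet.mem_sep.1 hx
        exact ZFSet.mem_sep.2 ⟨h1, h2⟩)
  obtain ⟨x₁, hx₁, hx₁bad⟩ := exists_not_mem (hz' _ (nn_mem_omega N₁)) hbad
  obtain ⟨hx₁W₃, hx₁z⟩ := ZFSet.mem_sep.1 hx₁
  have hx₁W : x₁ ∈ W' := (ZFSet.mem_sep.1 hx₁W₃).1
  obtain ⟨hq₁P, hpq₁, hIn₁⟩ := hq x₁ hx₁W
  have hcq₁ : Cond I e Kap (q x₁) := (hPos _).1 hq₁P
  have hrs : r ⊆ s := fun y hy => hs₁ (ZFSet.mem_union.2 (Or.inl hy))
  have hb : ∀ t ∈ b, t ∈ s := fun t ht => hrs (hqr ((h.root x₀ hx₀ t).2 (Or.inl ht)).1)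
  have hTrq : ∀ i l u, i ∈ ρ → Tr (q x₁) i l u → Tr s i l u := by
    intro i l u hi hu
    have h1 : ∀ m ε, tC i m ε ∈ q x₁ → tC i m ε ∈ s := by
      intro m ε ht
      rcases (h.root x₁ hx₁W _).1 ⟨ht, i, hi, At.C⟩ with h2 | ⟨_, _, _, _, h2⟩
      · exact hb _ h2
      · exact absurd h2 tC_ne_tR
    exact ⟨hu.1, fun m hm => ⟨fun hmu => h1 _ _ ((hu.2 m hm).1 hmu),
      fun hmu => h1 _ _ ((hu.2 m hm).2 hmu)⟩⟩
  have hcomp : Cond I e Kap (s ∪ q x₁) := by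
    refine compat hcs hcq₁ (z := fun j => z j x₁) (z' := z') (T := T) (ρ := ρ) (H := nn N₁)
      ?_ ?_ ?_ hN₁ hx₁z
    · intro i t t' ht ht' hi hi'
      by_contra hiρ
      exact hx₁bad (ZFSet.mem_sep.2 ⟨hx₁W, i, ⟨t', ht', hi'⟩, hiρ, t, ht, hi⟩)
    · intro t ht i hi hat
      rcases (h.root x₁ hx₁W t).1 ⟨ht, i, hi, hat⟩ with h1 | ⟨i', j, m, hT, h1⟩
      · exact Or.inl (hb t h1)
      · subst h1
        have : i = i' := At.eq hat At.R
        subst this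
        exact Or.inr ⟨j, m, hT, rfl⟩
    · intro i j m hT
      refine ⟨hs₁ (ZFSet.mem_union.2 (Or.inr ((hR _).2 ⟨i, j, m, hT, rfl⟩))), ?_⟩
      intro l U u l' U'' u' hkl hkl' hu hu'
      have hiρ := h.T_mem i j m hT
      have hus := hTrq i l u hiρ hu
      by_cases hj : j = j₀
      · subst hj
        have h2 := (hlab i m hT).2
        have h3 := S.kap_fun _ _ _ hkl (by
          show Kap (z j x₁) (kv (nn 0) (nn 1) a)
          rw [hz x₁ hx₁W]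
          exact hk x₁ hx₁W)
        obtain ⟨rfl, rfl, _⟩ := kv_inj h3
        obtain ⟨rfl, rfl, _⟩ := kv_inj (S.kap_fun _ _ _ hkl' hz'₀)
        have h4 : u = nn 0 := tr_unique hcs.funC hus (tr_mono (hTr0 i) hrs)
        have h5 : u' = cre G i ∩ nn N := tr_unique hcs.funC hu' (tr_mono (hTr i m hT) hrs)
        rw [h4, h5]
        exact ⟨fun _ => (hU' _).2 ⟨i, ⟨m, hT⟩, rfl⟩, fun _ => nn_mem_nn.2 Nat.zero_lt_one⟩
      · obtain ⟨V₁, hV₁, hV₁'⟩ := h.kap x₁ hx₁W j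
        obtain ⟨rfl, rfl, _⟩ := kv_inj (S.kap_fun _ _ _ hkl hV₁)
        obtain ⟨rfl, rfl, _⟩ := kv_inj (S.kap_fun _ _ _ hkl' (hz'₁ j hj))
        have h4 : u = u' := tr_unique hcs.funC hus hu'
        subst h4
        rw [hV₁' u hu.1, hV₀' j u hu.1]
  -- the contradiction
  obtain ⟨G₃, hG₃, hG₃'⟩ := hE M hM P hP _ ((hPos _).2 hcomp) h0
  have hsG₃ : s ∈ G₃ := hG₃.down _ hG₃' s hsP fun y hy => ZFSet.mem_union.2 (Or.inl hy)
  have hqG₃ : q x₁ ∈ G₃ := hG₃.down _ hG₃' _ hq₁P fun y hy => ZFSet.mem_union.2 (Or.inr hy)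
  have hr₂G₃ : r₂ ∈ G₃ := hG₃.down _ hsG₃ r₂ (hG₂.sub hr₂) hs₂
  have h1 := hIn₁.2 G₃ hG₃ hqG₃ (nn (max κ₀ κ₁)) (nn_mem_omega _) (nn_sub (le_max_left _ _))
  have h2 := hfr₂ G₃ hG₃ hr₂G₃ (nn (max κ₀ κ₁)) (nn_mem_omega _) (nn_sub (le_max_right _ _))
  apply h2
  have h3 : seg (z' j₀) (nn (max κ₀ κ₁)) = seg x₁ (nn (max κ₀ κ₁)) := by
    unfold seg
    have h4 := hx₁z j₀
    rw [hz x₁ hx₁W] at h4
    rw [inter_eq_of h4 (nn_sub (le_max_right _ _))]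
  rw [h3]
  exact h1

omit [ZFCm M] in
theorem cond_empty : Cond I e Kap ∅ where
  tok := fun t ht => absurd ht (ZFSet.notMem_empty t)
  fin := by
    convert Set.finite_empty (α := V)
    ext y
    simp
  funC := fun _ _ h => ZFSet.notMem_empty _ h.1
  funD := fun _ _ h => ZFSet.notMem_empty _ h.1
  dec := fun _ _ _ _ _ h _ => absurd h (ZFSet.notMem_empty _)
  obey := fun _ _ _ _ _ _ _ _ h _ _ _ _ => absurd h (ZFSet.notMem_empty _)
  sep := fun _ _ _ _ _ _ _ _ _ _ _ h => absurd h (ZFSet.notMem_empty _)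

end

open Cmp in
/-- **Module RIG** (from the thinning lemma). -/
theorem stmt_rigid_of (hF : Stmt_forceD0) (hE : Stmt_generic) (hHC : Stmt_HC)
    (hThin : Stmt_thin) : Stmt_rigid := by
  intro M _ w I e Kap S hM P hP hPos G hG c hc d hd hcω i₀ hi₀ hCod
  obtain ⟨c, hc, rfl⟩ := hc
  obtain ⟨d, hd, rfl⟩ := hd
  by_contra hcon
  push Not at hcon
  have h0 : ∅ ∈ P := (hPos ∅).2 cond_empty
  have hi₀M : i₀ ∈ M := S.I_sub hi₀
  have haM : lab e i₀ ∈ M := by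
    have : DMap M M (fun p : V × V => lab p.1 p.2) :=
      DMap.lab (DMap.fst DMap.id) (DMap.snd DMap.id)
    exact this.mem (γ := (e, i₀)) (inM_prod.2 ⟨inM_V.2 S.e_mem, hi₀M⟩)
  have haω : lab e i₀ ⊆ ZFSet.omega := S.e_real _ ((S.I_iff i₀).1 hi₀).2
  obtain ⟨p, hpG, hf⟩ := force_codes hF S hM hP h0 hG hc hd haM hCod hcω hcon
  have hp : p ∈ P := hG.sub hpG
  obtain ⟨q, k, hqd, hkd, hqk⟩ := choose_q hF hE S hM hP h0 (fun q hq i hi x l U hl hx => by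
    obtain ⟨q', hq', h1, h2⟩ := GrePf.addR (fun x k hk => (S.kap_real x k hk).2.1) S.kap_fun
      ((hPos q).1 hq) hi hl hx
    exact ⟨q', (hPos q').2 hq', h1, h2⟩) hd hi₀ hp (fun G' hG' hp' => (hf G' hG' hp').1)
  -- the numbers `k x` are constant on an uncountable set
  set W := W0 M Kap (lab e i₀) with hW
  have hWM : W ∈ M := W0_mem S haM
  have hWc : ¬ Cbl M W := W0_uncountable hHC S haM haω
  obtain ⟨k₀, hk₀, hW₁⟩ := exists_fiber hWM hWc hkd (cbl_omega.mono (by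
    intro y hy
    obtain ⟨x, hx, rfl⟩ := mem_rep.1 hy
    exact (hqk x hx).2.2.1))
  obtain ⟨x', hx', hk'⟩ := mem_rep.1 hk₀
  have hk₀ω : k₀ ∈ (ZFSet.omega : V) := hk' ▸ (hqk x' hx').2.2.1
  set W₁ : V := ZFSet.sep (fun x => k x = k₀) W with hW₁d
  have hk₀M : k₀ ∈ M := TrC.trans ZFm.omega_mem hk₀ω
  have hW₁M : W₁ ∈ M := ZFm.sep_mem (Dfn.eq hkd (DMap.const hk₀M hk₀M)) hWM
  obtain ⟨W', ρ, b, n, z, T, L, U0, a0, hT⟩ := hThin M w I e Kap S P hP hPos W₁ hW₁M hW₁ q hqd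
    (fun x hx => (hqk x (ZFSet.mem_sep.1 hx).1).1)
  have hW'W : ∀ x ∈ W', x ∈ W ∧ k x = k₀ := fun x hx => ZFSet.mem_sep.1 (hT.sub hx)
  -- the index `i₀` is in the root
  have hi₀ρ : i₀ ∈ ρ := by
    by_contra hcon
    refine hT.unc ((hT.idx i₀ hi₀M hcon).mono fun x hx => ZFSet.mem_sep.2 ⟨hx, ?_⟩)
    obtain ⟨m, hm⟩ := (hqk x (hW'W x hx).1).2.2.2.2
    exact ⟨_, hm, At.R⟩
  -- the point itself is one of the points
  obtain ⟨x₁, hx₁, _⟩ := exists_not_mem hT.unc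
    (cbl_fin (M := M) (x := ∅) (fun y hy => absurd hy (ZFSet.notMem_empty y)) (by
      convert Set.finite_empty (α := V)
      ext y
      simp))
  have hbfin : {t | t ∈ b}.Finite :=
    ((hPos _).1 (hqk x₁ (hW'W x₁ hx₁).1).1).fin.subset fun t ht =>
      ((hT.root x₁ hx₁ t).2 (Or.inl ht)).1
  have hj : ∃ j₀, ¬ Cbl M (ZFSet.sep (fun x => z j₀ x = x) W') := by
    by_contra hcon
    push Not at hcon
    have h1 := cbl_fin_sep (M := M) (W := W') (Q := fun j x => ∃ j' : Fin n, j = nn j' ∧ z j' x = x)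
      (s := Set.range fun j : Fin n => nn j) (Set.finite_range _) (by
        rintro _ ⟨j, rfl⟩
        refine (hcon j).mono fun x hx => ?_
        obtain ⟨h1, j', h2, h3⟩ := ZFSet.mem_sep.1 hx
        have : j = j' := Fin.ext (nn_inj h2)
        subst this
        exact ZFSet.mem_sep.2 ⟨h1, h3⟩)
    have h2 : Cbl M (ZFSet.sep (fun x => ∃ m, tR i₀ x m ∈ b) W') := by
      refine cbl_fin (fun y hy => TrC.trans hT.mem (ZFSet.mem_sep.1 hy).1) ?_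
      have : {y | y ∈ (ZFSet.sep (fun x => ∃ m, tR i₀ x m ∈ b) W' : V)} ⊆
          ⋃ t ∈ {t | t ∈ b}, {x | ∃ m, t = tR i₀ x m} := by
        intro y hy
        obtain ⟨_, m, hm⟩ := ZFSet.mem_sep.1 hy
        exact Set.mem_biUnion (by exact hm) ⟨m, rfl⟩
      refine (hbfin.biUnion fun t _ => ?_).subset this
      refine Set.Subsingleton.finite ?_
      rintro x ⟨m, hm⟩ x' ⟨m', hm'⟩
      exact (tR_inj (hm.symm.trans hm')).2.1
    refine hT.unc ((h1.union h2).mono fun x hx => ?_)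
    obtain ⟨m, hm⟩ := (hqk x (hW'W x hx).1).2.2.2.2
    rw [ZFSet.mem_union]
    rcases (hT.root x hx _).1 ⟨hm, i₀, hi₀ρ, At.R⟩ with h3 | ⟨i, j, m', _, h3⟩
    · exact Or.inr (ZFSet.mem_sep.2 ⟨hx, m, h3⟩)
    · refine Or.inl (ZFSet.mem_sep.2 ⟨hx, nn j, ⟨j, rfl⟩, j, rfl, ?_⟩)
      exact (tR_inj h3).2.1.symm
  obtain ⟨j₀, hj₀⟩ := hj
  have hW₂M : ZFSet.sep (fun x => z j₀ x = x) W' ∈ M :=
    ZFm.sep_mem (Dfn.eq (hT.dmap j₀) DMap.id) hT.mem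
  refine core hF hE hHC S hM hP hPos h0 hc hd hi₀ hp hf
    (hT.restrict hW₂M ZFSet.sep_subset hj₀) (j₀ := j₀) (k₀ := k₀)
    (fun x hx => (ZFSet.mem_sep.1 hx).2) (fun x hx => ?_) hk₀ω (fun x hx => ?_)
  · exact (mem_W0 S).1 (hW'W x (ZFSet.mem_sep.1 hx).1).1
  · obtain ⟨h1, h2⟩ := hW'W x (ZFSet.mem_sep.1 hx).1
    obtain ⟨h3, h4, _, h5, _⟩ := hqk x h1
    rw [h2] at h5
    exact ⟨h3, h4, h5⟩

/-- The thinning-out lemma. -/
theorem stmt_thin : Stmt_thin := by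
  intro M _ w I e Kap S P hP hPos W hW hWu q hq hqP
  obtain ⟨W', hW'M, hW'W, hW'u, ρ, hρM, hρf, b, n, z, T, L, U0, a0, h1, h2, h3, h4, h5, h6, h7,
    _, _⟩ := thin S hW hWu hq (fun x hx => (hPos _).1 (hqP x hx))
  exact ⟨W', ρ, b, n, z, T, L, U0, a0,
    { mem := hW'M
      sub := hW'W
      unc := hW'u
      fin := hρf
      dmap := h1
      inj := fun x hx => (h2 x hx).1
      real := fun x hx j => ((h2 x hx).2 j).1
      fib := h3
      idx := h4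
      root := h5
      T_mem := fun i j m h => (h6 i j m h).1
      kap := h7 }⟩

end Rig

/-- **Module RIG.** Rigidity of the generic reals. -/
theorem stmt_rigid : Stmt_rigid :=
  Rig.stmt_rigid_of (stmt_forceD0 stmt_forcing) stmt_generic stmt_HC Rig.stmt_thin

end Pool.Agent.CTM
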