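import Pool.Agent.CTM.SOADefs
import Pool.Agent.CTM.Nat

/-!
Satisfaction of formulas of second-order arithmetic over the reals of `N` is definable in `N`
(module SO1 for MP_ea2134_lc).
-/

set_option autoImplicit false

namespace Pool.Agent.CTM

namespace SO1

/-- Tuples as contexts. -/
@[reducible] def ctxFun (m : ℕ) : Ctx (Fin m → V) where
  n := m
  get v := v
  of v := v
  get_of _ := rfl
  of_get _ := rfl

attribute [local instance] ctxFun

theorem proj {A M : Set V} {m : ℕ} (i : Fin m) : DMap A M (fun v : Fin m → V => v i) :=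
  fun _ => DF.proj i

/-! ### Arithmetic -/

theorem nn_succ (n : ℕ) : nn (n + 1) = insert (nn n) (nn n) := rfl

theorem num_of_notMem {x : V} (h : x ∉ ZFSet.omega) : num x = 0 := by
  unfold num
  rw [dif_neg]
  intro h'
  exact h (mem_omega.2 h')

section

variable {Γ : Type 1} [Ctx Γ] {A M : Set V} [ZFm M]

theorem DMap.nnum {f : Γ → V} (hf : DMap A M f) : DMap A M (fun γ => nn (num (f γ))) := by
  classical
  refine (DMap.ite (P := fun γ => f γ ∈ (ZFSet.omega : V)) (Dfn.mem hf DMap.omega) hf
    DMap.empty).congr fun γ _ => ?_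
  by_cases h : f γ ∈ (ZFSet.omega : V)
  · rw [if_pos h, nn_num h]
  · rw [if_neg h, num_of_notMem h]
    rfl

theorem iter_succ (m l : ℕ) : (fun z : V => insert z z)^[m] (nn l) = nn (l + m) := by
  induction m with
  | zero => rfl
  | succ m ih =>
    rw [Function.iterate_succ_apply', ih]
    rfl

theorem DMap.add {f g : Γ → V} (hf : DMap A M f) (hg : DMap A M g) :
    DMap A M (fun γ => nn (num (f γ) + num (g γ))) := by
  have h : DMap A M (fun p : Γ × V => (insert p.2 p.2 : V)) :=
    DMap.insert (DMap.snd DMap.id) (DMap.snd DMap.id)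
  refine (DMap.iter (G := fun _ z => insert z z) h (DMap.nnum hf) hg).congr fun γ _ => ?_
  exact iter_succ _ _

theorem iter_add (m l : ℕ) : (fun z : V => nn (num z + m))^[l] (nn 0) = nn (m * l) := by
  induction l with
  | zero => rfl
  | succ l ih =>
    rw [Function.iterate_succ_apply', ih, num_nn]
    rfl

theorem DMap.mul {f g : Γ → V} (hf : DMap A M f) (hg : DMap A M g) :
    DMap A M (fun γ => nn (num (f γ) * num (g γ))) := by
  have h : DMap A M (fun p : Γ × V => nn (num p.2 + num (f p.1))) :=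
    DMap.add (DMap.snd DMap.id) (hf.comp (DMap.fst DMap.id))
  refine (DMap.iter (G := fun γ z => nn (num z + num (f γ))) h (DMap.nn 0) hg).congr
    fun γ _ => ?_
  exact iter_add _ _

theorem DMap.term {n : ℕ} {f : Fin n → Γ → V} (hf : ∀ i, DMap A M (f i)) (s : NT n) :
    DMap A M (fun γ => nn (s.val fun i => num (f i γ))) := by
  induction s with
  | var i => exact DMap.nnum (hf i)
  | zero => exact DMap.nn 0
  | one => exact DMap.nn 1
  | add s t ihs iht =>
    refine (DMap.add ihs iht).congr fun γ _ => ?_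
    rw [num_nn, num_nn]
    rfl
  | mul s t ihs iht =>
    refine (DMap.mul ihs iht).congr fun γ _ => ?_
    rw [num_nn, num_nn]
    rfl

end

/-! ### Satisfaction -/

/-- The set of natural numbers coded by a subset of `ω`. -/
def unZ (x : V) : Set ℕ := {n | nn n ∈ x}

theorem toZ_unZ {x : V} (h : x ⊆ ZFSet.omega) : toZ (unZ x) = x := by
  obtain ⟨y, rfl⟩ := toZ_surj h
  congr 1
  ext n
  exact mem_toZ

theorem unZ_toZ (X : Set ℕ) : unZ (toZ X) = X := by
  ext n
  exact mem_toZ

/-- `v` consists of natural numbers and sets of natural numbers. -/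
def Good (n k : ℕ) (v : Fin (n + k) → V) : Prop :=
  (∀ i, v (Fin.castAdd k i) ∈ (ZFSet.omega : V)) ∧ ∀ j, v (Fin.natAdd n j) ⊆ (ZFSet.omega : V)

/-- Satisfaction of `φ` at `v`. -/
def St (N : Set V) {n k : ℕ} (φ : L2 n k) (v : Fin (n + k) → V) : Prop :=
  φ.Sat (RN N) (fun i => num (v (Fin.castAdd k i))) (fun j => unZ (v (Fin.natAdd n j)))

theorem good_dp (N : Set V) [ZFm N] (n k : ℕ) : DP ∅ N (n + k) (Good n k) := by
  have h1 : Dfn ∅ N (fun v : Fin (n + k) → V => ∀ i, v (Fin.castAdd k i) ∈ (ZFSet.omega : V)) :=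
    Dfn.all_fin fun i => Dfn.mem (proj _) DMap.omega
  have h2 : Dfn ∅ N (fun v : Fin (n + k) → V => ∀ j, v (Fin.natAdd n j) ⊆ (ZFSet.omega : V)) :=
    Dfn.all_fin fun i => Dfn.subset (proj _) DMap.omega
  exact Dfn.and h1 h2

/-- the renaming of variables for the number quantifier -/
def rn (n k : ℕ) : Fin (n + 1 + k) → Fin (n + k + 1) :=
  Fin.addCases (Fin.lastCases (Fin.last (n + k)) fun i => (Fin.castAdd k i).castSucc)
    fun j => (Fin.natAdd n j).castSucc

theorem rn_cast {n k : ℕ} (i : Fin n) :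
    rn n k (Fin.castAdd k i.castSucc) = (Fin.castAdd k i).castSucc := by
  unfold rn
  rw [Fin.addCases_left, Fin.lastCases_castSucc]

theorem rn_last {n k : ℕ} : rn n k (Fin.castAdd k (Fin.last n)) = Fin.last (n + k) := by
  unfold rn
  rw [Fin.addCases_left, Fin.lastCases_last]

theorem rn_nat {n k : ℕ} (j : Fin k) :
    rn n k (Fin.natAdd (n + 1) j) = (Fin.natAdd n j).castSucc := by
  unfold rn
  rw [Fin.addCases_right]

theorem main (N : Set V) [ZFm N] {n k : ℕ} (φ : L2 n k) :
    DP ∅ N (n + k) (fun v => Good n k v ∧ St N φ v) := by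
  induction φ with
  | @eq n k s t =>
    refine (good_dp N n k).and ?_
    have h : Dfn ∅ N (fun v : Fin (n + k) → V =>
        nn (s.val fun i => num (v (Fin.castAdd k i))) =
          nn (t.val fun i => num (v (Fin.castAdd k i)))) :=
      Dfn.eq (DMap.term (fun i => proj _) s) (DMap.term (fun i => proj _) t)
    refine DP.congr h fun v _ => ?_
    exact nn_inj.eq_iff
  | @lt n k s t =>
    refine (good_dp N n k).and ?_
    have h : Dfn ∅ N (fun v : Fin (n + k) → V =>
        nn (s.val fun i => num (v (Fin.castAdd k i))) ∈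
          nn (t.val fun i => num (v (Fin.castAdd k i)))) :=
      Dfn.mem (DMap.term (fun i => proj _) s) (DMap.term (fun i => proj _) t)
    refine DP.congr h fun v _ => ?_
    exact nn_mem_nn
  | @mem n k s j =>
    refine (good_dp N n k).and ?_
    have h : Dfn ∅ N (fun v : Fin (n + k) → V =>
        nn (s.val fun i => num (v (Fin.castAdd k i))) ∈ v (Fin.natAdd n j)) :=
      Dfn.mem (DMap.term (fun i => proj _) s) (proj _)
    exact DP.congr h fun v _ => Iff.rfl
  | @neg n k φ ih =>
    refine ((good_dp N n k).and ih.not).congr fun v _ => ?_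
    constructor
    · rintro ⟨h1, h2⟩
      exact ⟨h1, fun h => h2 ⟨h1, h⟩⟩
    · rintro ⟨h1, h2⟩
      exact ⟨h1, fun h => h2 h.2⟩
  | @and n k φ ψ ih ih' =>
    refine (ih.and ih').congr fun v _ => ?_
    constructor
    · rintro ⟨⟨h1, h2⟩, ⟨_, h3⟩⟩
      exact ⟨h1, h2, h3⟩
    · rintro ⟨h1, h2, h3⟩
      exact ⟨⟨h1, h2⟩, ⟨h1, h3⟩⟩
  | @allN n k φ ih =>
    have h1 : DP ∅ N (n + k + 1) (fun v => v (Fin.last (n + k)) ∈ (ZFSet.omega : V) →
        Good (n + 1) k (v ∘ rn n k) ∧ St N φ (v ∘ rn n k)) := by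
      have h2 : Dfn ∅ N (fun v : Fin (n + k + 1) → V => v (Fin.last (n + k)) ∈
          (ZFSet.omega : V)) := Dfn.mem (proj _) DMap.omega
      have h4 : Dfn ∅ N (fun v : Fin (n + k + 1) → V =>
          Good (n + 1) k (v ∘ rn n k) ∧ St N φ (v ∘ rn n k)) := ih.ren (rn n k)
      exact Dfn.imp h2 h4
    have h3 := DP.all (P := fun v x => x ∈ (ZFSet.omega : V) →
        Good (n + 1) k ((Fin.snoc v x : Fin (n + k + 1) → V) ∘ rn n k) ∧
          St N φ ((Fin.snoc v x : Fin (n + k + 1) → V) ∘ rn n k)) (h1.congr fun v _ => by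
      rw [Fin.snoc_init_self])
    refine ((good_dp N n k).and h3).congr fun v hv => ?_
    refine and_congr_right fun hg => ?_
    have hgood : ∀ m : ℕ, Good (n + 1) k ((Fin.snoc v (nn m) : Fin (n + k + 1) → V) ∘ rn n k) := by
      intro m
      refine ⟨fun i => ?_, fun j => ?_⟩
      · refine Fin.lastCases ?_ (fun i => ?_) i
        · rw [Function.comp_apply, rn_last, Fin.snoc_last]
          exact nn_mem_omega m
        · rw [Function.comp_apply, rn_cast, Fin.snoc_castSucc]
          exact hg.1 i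
      · rw [Function.comp_apply, rn_nat, Fin.snoc_castSucc]
        exact hg.2 j
    have hst : ∀ m : ℕ, St N φ ((Fin.snoc v (nn m) : Fin (n + k + 1) → V) ∘ rn n k) ↔
        φ.Sat (RN N) (Fin.snoc (fun i => num (v (Fin.castAdd k i))) m)
          (fun j => unZ (v (Fin.natAdd n j))) := by
      intro m
      unfold St
      have e1 : (fun i => num (((Fin.snoc v (nn m) : Fin (n + k + 1) → V) ∘ rn n k)
          (Fin.castAdd k i))) = (Fin.snoc (fun i => num (v (Fin.castAdd k i))) m :
            Fin (n + 1) → ℕ) := by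
        funext i
        refine Fin.lastCases ?_ (fun i => ?_) i
        · rw [Function.comp_apply, rn_last, Fin.snoc_last, Fin.snoc_last, num_nn]
        · rw [Function.comp_apply, rn_cast, Fin.snoc_castSucc, Fin.snoc_castSucc]
      have e2 : (fun j => unZ (((Fin.snoc v (nn m) : Fin (n + k + 1) → V) ∘ rn n k)
          (Fin.natAdd (n + 1) j))) = fun j => unZ (v (Fin.natAdd n j)) := by
        funext j
        rw [Function.comp_apply, rn_nat, Fin.snoc_castSucc]
      rw [e1, e2]
    constructor
    · intro h m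
      exact (hst m).1 (h (nn m) (nn_mem m) (nn_mem_omega m)).2
    · intro h x _ hx
      obtain ⟨m, rfl⟩ := mem_omega.1 hx
      exact ⟨hgood m, (hst m).2 (h m)⟩
  | @allS n k φ ih =>
    have h1 : DP ∅ N (n + k + 1) (fun v => v (Fin.last (n + k)) ⊆ (ZFSet.omega : V) →
        Good n (k + 1) v ∧ St N φ v) := by
      have h2 : Dfn ∅ N (fun v : Fin (n + k + 1) → V => v (Fin.last (n + k)) ⊆
          (ZFSet.omega : V)) := Dfn.subset (proj _) DMap.omega
      have h4 : Dfn ∅ N (fun v : Fin (n + k + 1) → V => Good n (k + 1) v ∧ St N φ v) := ih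
      exact Dfn.imp h2 h4
    have h3 := DP.all (P := fun v x => x ⊆ (ZFSet.omega : V) →
        Good n (k + 1) (Fin.snoc v x : Fin (n + k + 1) → V) ∧
          St N φ (Fin.snoc v x : Fin (n + k + 1) → V)) (h1.congr fun v _ => by
      rw [Fin.snoc_init_self])
    refine ((good_dp N n k).and h3).congr fun v hv => ?_
    refine and_congr_right fun hg => ?_
    have c1 : ∀ i : Fin n, Fin.castAdd (k + 1) i = (Fin.castAdd k i).castSucc := fun i => rfl
    have c2 : ∀ j : Fin k, Fin.natAdd n j.castSucc = (Fin.natAdd n j).castSucc := fun i => rfl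
    have c3 : Fin.natAdd n (Fin.last k) = Fin.last (n + k) := rfl
    have hgood : ∀ x : V, x ⊆ ZFSet.omega →
        Good n (k + 1) (Fin.snoc v x : Fin (n + k + 1) → V) := by
      intro x hx
      refine ⟨fun i => ?_, fun j => ?_⟩
      · rw [c1, Fin.snoc_castSucc]
        exact hg.1 i
      · refine Fin.lastCases ?_ (fun j => ?_) j
        · rw [c3, Fin.snoc_last]
          exact hx
        · rw [c2, Fin.snoc_castSucc]
          exact hg.2 j
    have hst : ∀ x : V, St N φ (Fin.snoc v x : Fin (n + k + 1) → V) ↔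
        φ.Sat (RN N) (fun i => num (v (Fin.castAdd k i)))
          (Fin.snoc (fun j => unZ (v (Fin.natAdd n j))) (unZ x)) := by
      intro x
      unfold St
      have e1 : (fun i => num ((Fin.snoc v x : Fin (n + k + 1) → V) (Fin.castAdd (k + 1) i))) =
          fun i => num (v (Fin.castAdd k i)) := by
        funext i
        rw [c1, Fin.snoc_castSucc]
      have e2 : (fun j => unZ ((Fin.snoc v x : Fin (n + k + 1) → V) (Fin.natAdd n j))) =
          (Fin.snoc (fun j => unZ (v (Fin.natAdd n j))) (unZ x) : Fin (k + 1) → Set ℕ) := by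
        funext j
        refine Fin.lastCases ?_ (fun j => ?_) j
        · rw [c3, Fin.snoc_last, Fin.snoc_last]
        · rw [c2, Fin.snoc_castSucc, Fin.snoc_castSucc]
      rw [e1, e2]
    constructor
    · intro h Y hY
      have := (hst (toZ Y)).1 (h (toZ Y) hY (toZ_sub Y)).2
      rwa [unZ_toZ] at this
    · intro h x hxN hx
      refine ⟨hgood x hx, (hst x).2 (h _ ?_)⟩
      show toZ (unZ x) ∈ N
      rwa [toZ_unZ hx]

end SO1

/-- **Module SO1.** -/
theorem so1 : Stmt_so1 := by
  intro N _ n k φ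
  refine (SO1.main N φ).congr fun v _ => ?_
  constructor
  · rintro ⟨⟨h1, h2⟩, h3⟩
    exact ⟨_, _, fun i => (nn_num (h1 i)).symm, fun j => (SO1.toZ_unZ (h2 j)).symm, h3⟩
  · rintro ⟨a, X, h1, h2, h3⟩
    refine ⟨⟨fun i => ?_, fun j => ?_⟩, ?_⟩
    · rw [h1]
      exact nn_mem_omega _
    · rw [h2]
      exact toZ_sub _
    · unfold SO1.St
      have e1 : (fun i => num (v (Fin.castAdd k i))) = a := by
        funext i
        rw [h1, num_nn]
      have e2 : (fun j => SO1.unZ (v (Fin.natAdd n j))) = X := by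
        funext j
        rw [h2, SO1.unZ_toZ]
      rw [e1, e2]
      exact h3

end Pool.Agent.CTM
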