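import Pool.Agent.CTM.SO1

/-!
Module SO2 (MP_ea2134_lc): if everything is countable in `N` then a parameter-free definable
relation between reals of `N` is definable in second-order arithmetic over the reals of `N`
(helper24).
-/

set_option autoImplicit false

namespace Pool.Agent.CTM

/-! ### Substitution in formulas of second-order arithmetic -/

/-- Substitution in terms. -/
def NT.sub {n m : ℕ} (σ : Fin n → NT m) : NT n → NT m
  | .var i => σ i
  | .zero => .zero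
  | .one => .one
  | .add s t => .add (s.sub σ) (t.sub σ)
  | .mul s t => .mul (s.sub σ) (t.sub σ)

theorem NT.val_sub {n m : ℕ} (σ : Fin n → NT m) (a : Fin m → ℕ) (t : NT n) :
    (t.sub σ).val a = t.val (fun i => (σ i).val a) := by
  induction t with
  | var i => rfl
  | zero => rfl
  | one => rfl
  | add s t ih ih' => simp only [NT.sub, NT.val, ih, ih']
  | mul s t ih ih' => simp only [NT.sub, NT.val, ih, ih']

/-- Weakening of terms. -/
def NT.wk {n : ℕ} (t : NT n) : NT (n + 1) := t.sub (fun i => .var i.castSucc)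

theorem NT.val_wk {n : ℕ} (t : NT n) (a : Fin n → ℕ) (m : ℕ) :
    t.wk.val (Fin.snoc a m) = t.val a := by
  unfold NT.wk
  rw [NT.val_sub]
  congr 1
  funext i
  simp [NT.val]

/-- Substitution of terms for number variables, and renaming of set variables. -/
def L2.sub : ∀ {n k n' k' : ℕ}, (Fin n → NT n') → (Fin k → Fin k') → L2 n k → L2 n' k'
  | _, _, _, _, σ, _, .eq s t => .eq (s.sub σ) (t.sub σ)
  | _, _, _, _, σ, _, .lt s t => .lt (s.sub σ) (t.sub σ)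
  | _, _, _, _, σ, ρ, .mem s j => .mem (s.sub σ) (ρ j)
  | _, _, _, _, σ, ρ, .neg φ => .neg (φ.sub σ ρ)
  | _, _, _, _, σ, ρ, .and φ ψ => .and (φ.sub σ ρ) (ψ.sub σ ρ)
  | _, _, n', _, σ, ρ, .allN φ =>
    .allN (φ.sub (Fin.snoc (fun i => (σ i).wk) (.var (Fin.last n'))) ρ)
  | _, _, _, k', σ, ρ, .allS φ =>
    .allS (φ.sub σ (Fin.snoc (fun j => (ρ j).castSucc) (Fin.last k')))

theorem L2.sat_sub (R : Set (Set ℕ)) {n k : ℕ} (φ : L2 n k) :
    ∀ {n' k' : ℕ} (σ : Fin n → NT n') (ρ : Fin k → Fin k') (a : Fin n' → ℕ)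
      (X : Fin k' → Set ℕ),
      (φ.sub σ ρ).Sat R a X ↔ φ.Sat R (fun i => (σ i).val a) (X ∘ ρ) := by
  induction φ with
  | eq s t => intro n' k' σ ρ a X; simp only [L2.sub, L2.Sat, NT.val_sub]
  | lt s t => intro n' k' σ ρ a X; simp only [L2.sub, L2.Sat, NT.val_sub]
  | mem s j =>
    intro n' k' σ ρ a X
    simp only [L2.sub, L2.Sat, NT.val_sub, Function.comp_apply]
  | neg φ ih => intro n' k' σ ρ a X; exact not_congr (ih σ ρ a X)
  | and φ ψ ih ih' => intro n' k' σ ρ a X; exact and_congr (ih σ ρ a X) (ih' σ ρ a X)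
  | allN φ ih =>
    intro n' k' σ ρ a X
    refine forall_congr' fun m => ?_
    rw [ih]
    have e : (fun i => NT.val (Fin.snoc a m : Fin (n' + 1) → ℕ)
        ((Fin.snoc (fun i => (σ i).wk) (.var (Fin.last n')) : Fin _ → NT (n' + 1)) i)) =
        Fin.snoc (fun i => (σ i).val a) m := by
      funext i
      refine Fin.lastCases ?_ (fun i => ?_) i
      · simp [NT.val]
      · simp only [Fin.snoc_castSucc]
        exact NT.val_wk _ _ _
    rw [e]
  | allS φ ih =>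
    intro n' k' σ ρ a X
    refine forall_congr' fun Y => imp_congr Iff.rfl ?_
    rw [ih, snoc_comp_snoc]

namespace SO2

/-! ### Contexts for second-order arithmetic -/

/-- Contexts of second-order arithmetic. -/
class C2 (Γ : Type) where
  /-- the number of number variables -/
  n : ℕ
  /-- the number of set variables -/
  k : ℕ
  /-- the values of the number variables -/
  nm : Γ → Fin n → ℕ
  /-- the values of the set variables -/
  st : Γ → Fin k → Set ℕ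

instance (k : ℕ) : C2 (Fin k → Set ℕ) where
  n := 0
  k := k
  nm _ := Fin.elim0
  st X := X

instance {Γ : Type} [C2 Γ] : C2 (Γ × ℕ) where
  n := C2.n Γ + 1
  k := C2.k Γ
  nm p := Fin.snoc (C2.nm p.1) p.2
  st p := C2.st p.1

instance {Γ : Type} [C2 Γ] : C2 (Γ × Set ℕ) where
  n := C2.n Γ
  k := C2.k Γ + 1
  nm p := C2.nm p.1
  st p := Fin.snoc (C2.st p.1) p.2

section

variable {Γ Δ Θ : Type} [C2 Γ] [C2 Δ] [C2 Θ] {R : Set (Set ℕ)}

/-- The set variables have values in `R`. -/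
def InR (R : Set (Set ℕ)) (γ : Γ) : Prop := ∀ j, C2.st γ j ∈ R

/-- `P` is definable in second-order arithmetic over `R`. -/
def D2 (R : Set (Set ℕ)) (P : Γ → Prop) : Prop :=
  ∃ φ : L2 (C2.n Γ) (C2.k Γ), ∀ γ, InR R γ → (φ.Sat R (C2.nm γ) (C2.st γ) ↔ P γ)

/-- `t` is given by a term. -/
def T2 (t : Γ → ℕ) : Prop := ∃ s : NT (C2.n Γ), ∀ γ, s.val (C2.nm γ) = t γ

/-- `f` is a set variable. -/
def S2 (f : Γ → Set ℕ) : Prop := ∃ j : Fin (C2.k Γ), ∀ γ, C2.st γ j = f γ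

/-- The components of `g` are terms and set variables. -/
def M2 (g : Γ → Δ) : Prop :=
  (∀ i, T2 (fun γ => C2.nm (g γ) i)) ∧ (∀ j, S2 (fun γ => C2.st (g γ) j))

theorem inR_N {γ : Γ} {m : ℕ} (h : InR R γ) : InR R (γ, m) := fun j => h j

theorem inR_S {γ : Γ} {Y : Set ℕ} (h : InR R γ) (hY : Y ∈ R) : InR R (γ, Y) := by
  intro j
  refine Fin.lastCases ?_ (fun j => ?_) j
  · simpa [C2.st] using hY
  · simpa [C2.st] using h j

theorem inR_fstN {p : Γ × ℕ} (h : InR R p) : InR R p.1 := fun j => h j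

theorem inR_fstS {p : Γ × Set ℕ} (h : InR R p) : InR R p.1 ∧ p.2 ∈ R := by
  constructor
  · intro j
    have := h j.castSucc
    simpa [C2.st] using this
  · have := h (Fin.last _)
    simpa [C2.st] using this

theorem M2.id : M2 (fun γ : Γ => γ) :=
  ⟨fun i => ⟨.var i, fun _ => rfl⟩, fun j => ⟨j, fun _ => rfl⟩⟩

theorem M2.fstN {f : Γ → Δ × ℕ} (h : M2 f) : M2 (fun γ => (f γ).1) := by
  refine ⟨fun i => ?_, fun j => h.2 j⟩
  obtain ⟨s, hs⟩ := h.1 i.castSucc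
  refine ⟨s, fun γ => (hs γ).trans ?_⟩
  simp [C2.nm]

theorem M2.fstS {f : Γ → Δ × Set ℕ} (h : M2 f) : M2 (fun γ => (f γ).1) := by
  refine ⟨fun i => h.1 i, fun j => ?_⟩
  obtain ⟨s, hs⟩ := h.2 j.castSucc
  refine ⟨s, fun γ => (hs γ).trans ?_⟩
  simp [C2.st]

theorem T2.snd {f : Γ → Δ × ℕ} (h : M2 f) : T2 (fun γ => (f γ).2) := by
  obtain ⟨s, hs⟩ := h.1 (Fin.last _)
  refine ⟨s, fun γ => (hs γ).trans ?_⟩
  simp [C2.nm]

theorem S2.snd {f : Γ → Δ × Set ℕ} (h : M2 f) : S2 (fun γ => (f γ).2) := by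
  obtain ⟨s, hs⟩ := h.2 (Fin.last _)
  refine ⟨s, fun γ => (hs γ).trans ?_⟩
  simp [C2.st]

theorem S2.var {k : ℕ} {f : Γ → (Fin k → Set ℕ)} (h : M2 f) (j : Fin k) :
    S2 (fun γ => f γ j) := h.2 j

theorem M2.prodN {g : Γ → Δ} {t : Γ → ℕ} (h : M2 g) (h' : T2 t) : M2 (fun γ => (g γ, t γ)) := by
  refine ⟨fun i => ?_, fun j => h.2 j⟩
  refine Fin.lastCases ?_ (fun i => ?_) i
  · obtain ⟨s, hs⟩ := h'
    refine ⟨s, fun γ => (hs γ).trans ?_⟩
    simp [C2.nm]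
  · obtain ⟨s, hs⟩ := h.1 i
    refine ⟨s, fun γ => (hs γ).trans ?_⟩
    simp [C2.nm]

theorem M2.prodS {g : Γ → Δ} {f : Γ → Set ℕ} (h : M2 g) (h' : S2 f) :
    M2 (fun γ => (g γ, f γ)) := by
  refine ⟨fun i => h.1 i, fun j => ?_⟩
  refine Fin.lastCases ?_ (fun j => ?_) j
  · obtain ⟨s, hs⟩ := h'
    refine ⟨s, fun γ => (hs γ).trans ?_⟩
    simp [C2.st]
  · obtain ⟨s, hs⟩ := h.2 j
    refine ⟨s, fun γ => (hs γ).trans ?_⟩
    simp [C2.st]

theorem D2.comp {P : Δ → Prop} (h : D2 R P) {g : Γ → Δ} (hg : M2 g) :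
    D2 R (fun γ => P (g γ)) := by
  obtain ⟨φ, hφ⟩ := h
  obtain ⟨h1, h2⟩ := hg
  choose σ hσ using h1
  choose ρ hρ using h2
  refine ⟨φ.sub σ ρ, fun γ hγ => ?_⟩
  rw [L2.sat_sub]
  have e1 : (fun i => (σ i).val (C2.nm γ)) = C2.nm (g γ) := by
    funext i
    exact hσ i γ
  have e2 : C2.st γ ∘ ρ = C2.st (g γ) := by
    funext j
    exact hρ j γ
  rw [e1, e2]
  refine hφ (g γ) fun j => ?_
  have h3 : C2.st γ (ρ j) = C2.st (g γ) j := hρ j γ
  rw [← h3]
  exact hγ _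

theorem D2.congr {P Q : Γ → Prop} (h : D2 R P) (e : ∀ γ, InR R γ → (P γ ↔ Q γ)) : D2 R Q := by
  obtain ⟨φ, hφ⟩ := h
  exact ⟨φ, fun γ hγ => (hφ γ hγ).trans (e γ hγ)⟩

theorem D2.not {P : Γ → Prop} (h : D2 R P) : D2 R (fun γ => ¬ P γ) := by
  obtain ⟨φ, hφ⟩ := h
  exact ⟨.neg φ, fun γ hγ => not_congr (hφ γ hγ)⟩

theorem D2.and {P Q : Γ → Prop} (h : D2 R P) (h' : D2 R Q) : D2 R (fun γ => P γ ∧ Q γ) := by
  obtain ⟨φ, hφ⟩ := h
  obtain ⟨ψ, hψ⟩ := h'
  exact ⟨.and φ ψ, fun γ hγ => and_congr (hφ γ hγ) (hψ γ hγ)⟩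

theorem D2.or {P Q : Γ → Prop} (h : D2 R P) (h' : D2 R Q) : D2 R (fun γ => P γ ∨ Q γ) :=
  (h.not.and h'.not).not.congr fun γ _ => by tauto

theorem D2.imp {P Q : Γ → Prop} (h : D2 R P) (h' : D2 R Q) : D2 R (fun γ => P γ → Q γ) :=
  (h.and h'.not).not.congr fun γ _ => by tauto

theorem D2.allN {P : Γ → ℕ → Prop} (h : D2 R (fun p : Γ × ℕ => P p.1 p.2)) :
    D2 R (fun γ => ∀ m, P γ m) := by
  obtain ⟨φ, hφ⟩ := h
  exact ⟨.allN φ, fun γ hγ => forall_congr' fun m => hφ (γ, m) (inR_N hγ)⟩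

theorem D2.exN {P : Γ → ℕ → Prop} (h : D2 R (fun p : Γ × ℕ => P p.1 p.2)) :
    D2 R (fun γ => ∃ m, P γ m) :=
  (D2.allN (P := fun γ m => ¬ P γ m) h.not).not.congr fun γ _ => by
    push Not
    rfl

theorem D2.allS {P : Γ → Set ℕ → Prop} (h : D2 R (fun p : Γ × Set ℕ => P p.1 p.2)) :
    D2 R (fun γ => ∀ Y ∈ R, P γ Y) := by
  obtain ⟨φ, hφ⟩ := h
  refine ⟨.allS φ, fun γ hγ => forall_congr' fun Y => ?_⟩
  exact forall_congr' fun hY => hφ (γ, Y) (inR_S hγ hY)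

theorem D2.exS {P : Γ → Set ℕ → Prop} (h : D2 R (fun p : Γ × Set ℕ => P p.1 p.2)) :
    D2 R (fun γ => ∃ Y ∈ R, P γ Y) :=
  (D2.allS (P := fun γ m => ¬ P γ m) h.not).not.congr fun γ _ => by
    push Not
    rfl

theorem T2.zero : T2 (fun _ : Γ => 0) := ⟨.zero, fun _ => rfl⟩

theorem T2.one : T2 (fun _ : Γ => 1) := ⟨.one, fun _ => rfl⟩

theorem T2.add {s t : Γ → ℕ} (h : T2 s) (h' : T2 t) : T2 (fun γ => s γ + t γ) := by
  obtain ⟨s, hs⟩ := h
  obtain ⟨t, ht⟩ := h'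
  exact ⟨.add s t, fun γ => by simp only [NT.val, hs, ht]⟩

theorem T2.mul {s t : Γ → ℕ} (h : T2 s) (h' : T2 t) : T2 (fun γ => s γ * t γ) := by
  obtain ⟨s, hs⟩ := h
  obtain ⟨t, ht⟩ := h'
  exact ⟨.mul s t, fun γ => by simp only [NT.val, hs, ht]⟩

theorem D2.eq {s t : Γ → ℕ} (h : T2 s) (h' : T2 t) : D2 R (fun γ => s γ = t γ) := by
  obtain ⟨s, hs⟩ := h
  obtain ⟨t, ht⟩ := h'
  exact ⟨.eq s t, fun γ _ => by simp only [L2.Sat, hs, ht]⟩

theorem D2.lt {s t : Γ → ℕ} (h : T2 s) (h' : T2 t) : D2 R (fun γ => s γ < t γ) := by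
  obtain ⟨s, hs⟩ := h
  obtain ⟨t, ht⟩ := h'
  exact ⟨.lt s t, fun γ _ => by simp only [L2.Sat, hs, ht]⟩

theorem D2.mem {s : Γ → ℕ} {f : Γ → Set ℕ} (h : T2 s) (h' : S2 f) :
    D2 R (fun γ => s γ ∈ f γ) := by
  obtain ⟨s, hs⟩ := h
  obtain ⟨j, hj⟩ := h'
  exact ⟨.mem s j, fun γ _ => by simp only [L2.Sat, hs, hj]⟩

end

/-! ### Pairs of natural numbers -/

/-- A polynomial injection of pairs. -/
def pr (a b : ℕ) : ℕ := (a + b) * (a + b) + b

theorem pr_inj {a b a' b' : ℕ} (h : pr a b = pr a' b') : a = a' ∧ b = b' := by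
  unfold pr at h
  have h1 : a + b = a' + b' := by
    rcases lt_trichotomy (a + b) (a' + b') with h1 | h1 | h1
    · nlinarith
    · exact h1
    · nlinarith
  rw [h1] at h
  omega

/-- The relation coded by a set of natural numbers. -/
def E (Y : Set ℕ) (a b : ℕ) : Prop := pr a b ∈ Y

/-- The code of a relation. -/
def cod (e : ℕ → ℕ → Prop) : Set ℕ := {l | ∃ a b, l = pr a b ∧ e a b}

theorem E_cod (e : ℕ → ℕ → Prop) : E (cod e) = e := by
  funext a b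
  apply propext
  constructor
  · rintro ⟨a', b', h, h'⟩
    obtain ⟨rfl, rfl⟩ := pr_inj h
    exact h'
  · exact fun h => ⟨a, b, rfl, h⟩

theorem D2.E {Γ : Type} [C2 Γ] {R : Set (Set ℕ)} {f : Γ → Set ℕ} {s t : Γ → ℕ} (hf : S2 f)
    (hs : T2 s) (ht : T2 t) : D2 R (fun γ => E (f γ) (s γ) (t γ)) :=
  D2.mem (((hs.add ht).mul (hs.add ht)).add ht) hf

/-! ### Relations on the natural numbers in `N` -/

attribute [local instance] SO1.ctxFun

section

variable {N : Set V} [ZFm N]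

/-- The relation `e` is definable in `N` (with parameters). -/
def RelN (N : Set V) (e : ℕ → ℕ → Prop) : Prop :=
  Dfn N N (fun p : V × V => e (num p.1) (num p.2))

/-- The values of the variables as sets. -/
noncomputable def tv {Γ : Type} [C2 Γ] (γ : Γ) : Fin (C2.n Γ + C2.k Γ) → V :=
  Fin.addCases (fun i => nn (C2.nm γ i)) (fun j => toZ (C2.st γ j))

theorem tv_left {Γ : Type} [C2 Γ] (γ : Γ) (i : Fin (C2.n Γ)) :
    tv γ (Fin.castAdd (C2.k Γ) i) = nn (C2.nm γ i) := by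
  unfold tv
  rw [Fin.addCases_left]

theorem tv_right {Γ : Type} [C2 Γ] (γ : Γ) (j : Fin (C2.k Γ)) :
    tv γ (Fin.natAdd (C2.n Γ) j) = toZ (C2.st γ j) := by
  unfold tv
  rw [Fin.addCases_right]

theorem dfn_of_D2 (hso : Stmt_so1) {Γ : Type} [C2 Γ] {P : Γ → Prop} (h : D2 (RN N) P) :
    ∃ Q : (Fin (C2.n Γ + C2.k Γ) → V) → Prop, Dfn N N Q ∧
      ∀ γ, InR (RN N) γ → (Q (tv γ) ↔ P γ) := by
  obtain ⟨φ, hφ⟩ := h
  refine ⟨fun v => ∃ (a : Fin (C2.n Γ) → ℕ) (X : Fin (C2.k Γ) → Set ℕ),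
    (∀ i, v (Fin.castAdd (C2.k Γ) i) = nn (a i)) ∧
    (∀ j, v (Fin.natAdd (C2.n Γ) j) = toZ (X j)) ∧ φ.Sat (RN N) a X, ?_, fun γ hγ => ?_⟩
  · have h1 : DP N N (C2.n Γ + C2.k Γ) _ := (hso N _ _ φ).mono (Set.empty_subset _)
    exact h1
  refine Iff.trans ?_ (hφ γ hγ)
  constructor
  · rintro ⟨a, X, ha, hX, hs⟩
    have ea : a = C2.nm γ := by
      funext i
      have := ha i
      rw [tv_left] at this
      exact (nn_inj this).symm
    have eX : X = C2.st γ := by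
      funext j
      have := hX j
      rw [tv_right] at this
      exact (toZ_inj this).symm
    rw [ea, eX] at hs
    exact hs
  · intro h
    exact ⟨C2.nm γ, C2.st γ, fun i => tv_left γ i, fun j => tv_right γ j, h⟩

theorem relN_of_D2 (hso : Stmt_so1) {Γ : Type} [C2 Γ] {e : Γ → ℕ → ℕ → Prop}
    (he : D2 (RN N) (fun p : (Γ × ℕ) × ℕ => e p.1.1 p.1.2 p.2)) {γ : Γ} (hγ : InR (RN N) γ) :
    RelN N (e γ) := by
  obtain ⟨Q, hQ, hQ'⟩ := dfn_of_D2 hso he
  have h3 : DMap N N (fun p : V × V => tv ((γ, num p.1), num p.2)) := by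
    intro i
    revert i
    have hl : ∀ i : Fin (C2.n ((Γ × ℕ) × ℕ)), DMap N N (fun p : V × V =>
        nn (C2.nm ((γ, num p.1), num p.2) i)) := by
      intro i
      refine Fin.lastCases ?_ (fun i => ?_) i
      · refine (SO1.DMap.nnum (A := N) (M := N) (Γ := V × V) (DMap.snd DMap.id)).congr
          fun p _ => ?_
        simp [C2.nm]
      · refine Fin.lastCases ?_ (fun i => ?_) i
        · refine (SO1.DMap.nnum (A := N) (M := N) (Γ := V × V) (DMap.fst DMap.id)).congr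
            fun p _ => ?_
          simp [C2.nm]
        · refine (DMap.nn (A := N) (M := N) (Γ := V × V) (C2.nm γ i)).congr fun p _ => ?_
          simp [C2.nm]
    have hr : ∀ j : Fin (C2.k ((Γ × ℕ) × ℕ)), DMap N N (fun p : V × V =>
        toZ (C2.st ((γ, num p.1), num p.2) j)) := fun j => DMap.const (hγ j) (hγ j)
    intro i
    refine Fin.addCases (fun i => ?_) (fun j => ?_) i
    · exact (hl i 0).congr fun v _ => (tv_left _ _).symm
    · exact (hr j 0).congr fun v _ => (tv_right _ _).symm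
  exact (hQ.comp h3).congr fun p _ => hQ' _ (inR_N (inR_N hγ))

theorem relN_E (hso : Stmt_so1) {z : Set ℕ} (hz : z ∈ RN N) : RelN N (E z) := by
  have h : D2 (RN N) (fun p : ((Fin 1 → Set ℕ) × ℕ) × ℕ => E (p.1.1 0) p.1.2 p.2) :=
    D2.E (S2.var (M2.fstN (M2.fstN M2.id)) 0) (T2.snd (M2.fstN M2.id)) (T2.snd M2.id)
  exact relN_of_D2 hso (e := fun (X : Fin 1 → Set ℕ) => E (X 0)) h (γ := fun _ => z)
    (fun _ => hz)

/-- A relation that is definable in `N` is coded by a real of `N`. -/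
theorem cod_mem {e : ℕ → ℕ → Prop} (he : RelN N e) : cod e ∈ RN N := by
  have h1 : Dfn N N (fun x : V => ∃ y ∈ (ZFSet.omega : V), ∃ w ∈ (ZFSet.omega : V),
      x = nn (pr (num y) (num w)) ∧ e (num y) (num w)) := by
    refine Dfn.ex_mem DMap.omega (Dfn.ex_mem DMap.omega (Dfn.and (Dfn.eq ?_ ?_) ?_))
    · exact DMap.fst (DMap.fst DMap.id)
    · have h2 : DMap N N (fun p : (V × V) × V => nn (num p.1.2 + num p.2)) :=
        SO1.DMap.add (DMap.snd (DMap.fst DMap.id)) (DMap.snd DMap.id)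
      have h3 := SO1.DMap.add (SO1.DMap.mul h2 h2) (DMap.snd (A := N) (M := N) (DMap.id
        (Γ := (V × V) × V)))
      refine h3.congr fun p _ => ?_
      simp only [num_nn]
      rfl
    · exact Dfn.comp he ((DMap.snd (DMap.fst DMap.id)).prodMk (DMap.snd DMap.id))
  have h2 : ZFSet.sep (fun x : V => ∃ y ∈ (ZFSet.omega : V), ∃ w ∈ (ZFSet.omega : V),
      x = nn (pr (num y) (num w)) ∧ e (num y) (num w)) ZFSet.omega ∈ N :=
    ZFm.sep_mem h1 ZFm.omega_mem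
  have h3 : toZ (cod e) = ZFSet.sep (fun x : V => ∃ y ∈ (ZFSet.omega : V),
      ∃ w ∈ (ZFSet.omega : V), x = nn (pr (num y) (num w)) ∧ e (num y) (num w))
      ZFSet.omega := by
    unfold toZ
    ext x
    rw [ZFSet.mem_sep, ZFSet.mem_sep]
    refine and_congr Iff.rfl ?_
    constructor
    · rintro ⟨n, ⟨a, b, rfl, h⟩, rfl⟩
      refine ⟨nn a, nn_mem_omega a, nn b, nn_mem_omega b, ?_, ?_⟩
      · rw [num_nn, num_nn]
      · rwa [num_nn, num_nn]
    · rintro ⟨y, _, w, _, rfl, h⟩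
      exact ⟨_, ⟨num y, num w, rfl, h⟩, rfl⟩
  show toZ (cod e) ∈ N
  rwa [h3]

/-! ### Attempts at the collapse -/

/-- The predecessors of `x`. -/
noncomputable def Dp (e : ℕ → ℕ → Prop) (x : V) : V :=
  ZFSet.sep (fun y => e (num y) (num x)) ZFSet.omega

/-- Attempts at the collapse of `e`. -/
def At (e : ℕ → ℕ → Prop) (g : V) : Prop := Att (Dp e) (fun _ h => ran h) g

variable {e : ℕ → ℕ → Prop}

theorem At.mem {g x y : V} (h : At e g) (hp : ZFSet.pair x y ∈ g) :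
    Dp e x ⊆ dom g ∧ ∀ u, u ∈ y ↔ ∃ x' ∈ Dp e x, ZFSet.pair x' u ∈ g := by
  obtain ⟨h1, h2⟩ := Att.pair h hp
  refine ⟨h1, fun u => ?_⟩
  rw [h2, mem_ran]
  constructor
  · rintro ⟨x', hx'⟩
    obtain ⟨h3, x'', hx'', y'', e'⟩ := mem_res.1 hx'
    obtain ⟨rfl, rfl⟩ := ZFSet.pair_injective e'
    exact ⟨x', hx'', h3⟩
  · rintro ⟨x', hx', h3⟩
    exact ⟨x', mem_res.2 ⟨h3, x', hx', u, rfl⟩⟩

theorem At.intro {g : V} (h : ∀ p ∈ g, ∃ x y, p = ZFSet.pair x y ∧ Dp e x ⊆ dom g ∧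
    ∀ u, u ∈ y ↔ ∃ x' ∈ Dp e x, ZFSet.pair x' u ∈ g) : At e g := by
  intro p hp
  obtain ⟨x, y, rfl, h1, h2⟩ := h p hp
  refine ⟨x, mem_sUU_of_pair_left hp, y, mem_sUU_of_pair_right hp, rfl, h1, ?_⟩
  ext u
  rw [h2, mem_ran]
  constructor
  · rintro ⟨x', hx', h3⟩
    exact ⟨x', mem_res.2 ⟨h3, x', hx', u, rfl⟩⟩
  · rintro ⟨x', hx'⟩
    obtain ⟨h3, x'', hx'', y'', e'⟩ := mem_res.1 hx'
    obtain ⟨rfl, rfl⟩ := ZFSet.pair_injective e'
    exact ⟨x', hx'', h3⟩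

theorem At.isPair {g p : V} (h : At e g) (hp : p ∈ g) : ∃ x y, p = ZFSet.pair x y := by
  obtain ⟨x, _, y, _, h1, _⟩ := h p hp
  exact ⟨x, y, h1⟩

theorem At.uniq {g h : V} (hg : At e g) (hh : At e h) :
    ∀ y x y', ZFSet.pair x y ∈ g → ZFSet.pair x y' ∈ h → y = y' := by
  intro y
  induction y using ZFSet.mem_wf.induction with
  | _ y ih =>
    intro x y' h1 h2
    obtain ⟨h3, h4⟩ := hg.mem h1
    obtain ⟨h5, h6⟩ := hh.mem h2
    ext u
    rw [h6 u]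
    constructor
    · intro hu
      obtain ⟨x', hx', hp⟩ := (h4 u).1 hu
      obtain ⟨u', hu'⟩ := mem_dom.1 (h5 hx')
      have := ih u hu x' u' hp hu'
      subst this
      exact ⟨x', hx', hu'⟩
    · rintro ⟨x', hx', hp⟩
      obtain ⟨u', hu'⟩ := mem_dom.1 (h3 hx')
      have hu'' : u' ∈ y := (h4 u').2 ⟨x', hx', hu'⟩
      have := ih u' hu'' x' u hu' hp
      subst this
      exact hu''

theorem At.sUnion {b : V} (h : ∀ g ∈ b, At e g) : At e (ZFSet.sUnion b : V) := by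
  refine At.intro fun p hp => ?_
  obtain ⟨g, hg, hp⟩ := ZFSet.mem_sUnion.1 hp
  obtain ⟨x, y, rfl⟩ := (h g hg).isPair hp
  obtain ⟨h1, h2⟩ := (h g hg).mem hp
  refine ⟨x, y, rfl, fun z hz => ?_, fun u => ?_⟩
  · obtain ⟨u, hu⟩ := mem_dom.1 (h1 hz)
    exact mem_dom.2 ⟨u, ZFSet.mem_sUnion.2 ⟨g, hg, hu⟩⟩
  · rw [h2]
    constructor
    · rintro ⟨x', hx', hp'⟩
      exact ⟨x', hx', ZFSet.mem_sUnion.2 ⟨g, hg, hp'⟩⟩
    · rintro ⟨x', hx', hp'⟩
      obtain ⟨g', hg', hp'⟩ := ZFSet.mem_sUnion.1 hp'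
      obtain ⟨u', hu'⟩ := mem_dom.1 (h1 hx')
      have := (h g hg).uniq (h g' hg') u' x' u hu' hp'
      subst this
      exact ⟨x', hx', hu'⟩

theorem mem_Dp {m n : ℕ} : nn m ∈ Dp e (nn n) ↔ e m n := by
  unfold Dp
  rw [ZFSet.mem_sep, num_nn, num_nn]
  exact ⟨fun h => h.2, fun h => ⟨nn_mem_omega m, h⟩⟩

theorem of_mem_Dp {y : V} {n : ℕ} (h : y ∈ Dp e (nn n)) : ∃ m, y = nn m ∧ e m n := by
  unfold Dp at h
  rw [ZFSet.mem_sep, num_nn] at h
  exact ⟨num y, (nn_num h.1).symm, h.2⟩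

theorem At.acc {g : V} (hg : At e g) : ∀ y n, ZFSet.pair (nn n) y ∈ g → Acc e n := by
  intro y
  induction y using ZFSet.mem_wf.induction with
  | _ y ih =>
    intro n h1
    obtain ⟨h3, h4⟩ := hg.mem h1
    refine ⟨_, fun m hm => ?_⟩
    have h5 : nn m ∈ Dp e (nn n) := mem_Dp.2 hm
    obtain ⟨u, hu⟩ := mem_dom.1 (h3 h5)
    exact ih u ((h4 u).2 ⟨_, h5, hu⟩) m hu

theorem dmap_Dp (he : RelN N e) : DMap N N (Dp e) := by
  unfold Dp
  refine DMap.sep (P := fun x y => e (num y) (num x)) DMap.omega ?_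
  exact Dfn.comp he ((DMap.snd DMap.id).prodMk (DMap.fst DMap.id))

theorem dfn_At (he : RelN N e) : Dfn N N (fun g : V => At e g) := by
  have hD' : ∀ {Γ : Type 1} [Ctx Γ] {f : Γ → V}, DMap N N f → DMap N N (fun γ => Dp e (f γ)) :=
    fun h => (dmap_Dp he).comp h
  unfold At Att
  apply_rules (transparency := .reducible) (maxDepth := 999) only [DMap.dom, DMap.res, hD'] using is_poly

/-- If `e` is well-founded in the sense of `N` then there are attempts everywhere. -/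
theorem has_att (he : RelN N e) (hwf : ∀ Y ∈ RN N, Y.Nonempty → ∃ n ∈ Y, ∀ m ∈ Y, ¬ e m n)
    (n : ℕ) : ∃ g ∈ N, At e g ∧ nn n ∈ dom g := by
  have hA := dfn_At he
  have hA' : ∀ {Γ : Type 1} [Ctx Γ] {f : Γ → V}, DMap N N f → Dfn N N (fun γ => At e (f γ)) :=
    fun h => hA.comp h
  set Y : Set ℕ := {n | ¬ ∃ g ∈ N, At e g ∧ nn n ∈ dom g} with hY
  have hYN : Y ∈ RN N := by
    have h1 : Dfn N N (fun x : V => ¬ ∃ g ∈ N, At e g ∧ x ∈ dom g) := by
      apply_rules (transparency := .reducible) (maxDepth := 999) only [DMap.dom, hA'] using is_poly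
    have h2 := ZFm.sep_mem h1 (ZFm.omega_mem (M := N))
    have h3 : toZ Y = ZFSet.sep (fun x : V => ¬ ∃ g ∈ N, At e g ∧ x ∈ dom g) ZFSet.omega := by
      unfold toZ
      ext x
      rw [ZFSet.mem_sep, ZFSet.mem_sep]
      refine and_congr_right fun hx => ?_
      constructor
      · rintro ⟨n, h, rfl⟩
        exact h
      · intro h
        refine ⟨num x, ?_, (nn_num hx).symm⟩
        show ¬ ∃ g ∈ N, At e g ∧ nn (num x) ∈ dom g
        rw [nn_num hx]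
        exact h
    show toZ Y ∈ N
    rw [h3]
    exact h2
  by_contra hn
  obtain ⟨n, hn, hmin⟩ := hwf Y hYN ⟨n, hn⟩
  have hmin' : ∀ x ∈ Dp e (nn n), ∃ g ∈ N, At e g ∧ x ∈ dom g := by
    intro x hx
    obtain ⟨m, rfl, hm⟩ := of_mem_Dp hx
    by_contra h
    exact hmin m h hm
  have hDN : Dp e (nn n) ∈ N := (dmap_Dp he).mem (inM_V.2 (nn_mem n))
  obtain ⟨b, hb, h1⟩ := ZFm.coll (M := N) (P := fun y g => At e g ∧ y ∈ dom g) (by
    apply_rules (transparency := .reducible) (maxDepth := 999) only [DMap.dom, hA'] using is_poly)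
    hDN hmin'
  have hb' : ZFSet.sep (At e) b ∈ N := ZFm.sep_mem hA hb
  set G : V := ZFSet.sUnion (ZFSet.sep (At e) b) with hG
  have hGM : G ∈ N := ZFm.sUnion_mem hb'
  have hGA : At e G := At.sUnion fun g hg => (ZFSet.mem_sep.1 hg).2
  have hnG : nn n ∉ dom G := fun h => hn ⟨G, hGM, hGA, h⟩
  have hDG : Dp e (nn n) ⊆ dom G := by
    intro y hy
    obtain ⟨g, hg, h2, h3⟩ := h1 y hy
    obtain ⟨z, hz⟩ := mem_dom.1 h3
    exact mem_dom.2 ⟨z, ZFSet.mem_sUnion.2 ⟨g, ZFSet.mem_sep.2 ⟨hg, h2⟩, hz⟩⟩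
  have hresM : ran (res G (Dp e (nn n))) ∈ N := by
    have : DMap N N (fun p : V × V => ran (res p.1 p.2)) :=
      DMap.ran (DMap.res (DMap.fst DMap.id) (DMap.snd DMap.id))
    exact this.mem (γ := (G, Dp e (nn n))) (inM_prod.2 ⟨inM_V.2 hGM, hDN⟩)
  have hins : (insert (ZFSet.pair (nn n) (ran (res G (Dp e (nn n))))) G : V) ∈ N := by
    have : DMap N N (fun p : V × V => (insert p.1 p.2 : V)) := DMap.insert (DMap.fst DMap.id)
      (DMap.snd DMap.id)
    exact this.mem (γ := (ZFSet.pair (nn n) (ran (res G (Dp e (nn n)))), G)) (inM_prod.2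
      ⟨inM_V.2 (pair_mem_iff.2 ⟨nn_mem n, hresM⟩), hGM⟩)
  refine hn ⟨_, hins, ?_, mem_dom.2 ⟨ran (res G (Dp e (nn n))), by simp⟩⟩
  have hsub : dom G ⊆ dom (insert (ZFSet.pair (nn n) (ran (res G (Dp e (nn n))))) G : V) := by
    intro z hz
    obtain ⟨y, hy⟩ := mem_dom.1 hz
    exact mem_dom.2 ⟨y, by simp [hy]⟩
  have hold : ∀ x' ∈ dom G, ∀ u, ZFSet.pair x' u ∈
      (insert (ZFSet.pair (nn n) (ran (res G (Dp e (nn n))))) G : V) ↔
      ZFSet.pair x' u ∈ G := by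
    intro x' hx' u
    rw [ZFSet.mem_insert_iff]
    constructor
    · rintro (h | h)
      · obtain ⟨rfl, _⟩ := ZFSet.pair_injective h
        exact (hnG hx').elim
      · exact h
    · exact fun h => Or.inr h
  refine At.intro fun p hp => ?_
  rw [ZFSet.mem_insert_iff] at hp
  rcases hp with rfl | hp
  · refine ⟨_, _, rfl, fun z hz => hsub (hDG hz), fun u => ?_⟩
    rw [mem_ran]
    constructor
    · rintro ⟨x', hx'⟩
      obtain ⟨h3, x'', hx'', y'', e'⟩ := mem_res.1 hx'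
      obtain ⟨rfl, rfl⟩ := ZFSet.pair_injective e'
      exact ⟨x', hx'', (hold _ (hDG hx'') _).2 h3⟩
    · rintro ⟨x', hx', h3⟩
      exact ⟨x', mem_res.2 ⟨(hold _ (hDG hx') _).1 h3, x', hx', u, rfl⟩⟩
  · obtain ⟨x, y, rfl⟩ := hGA.isPair hp
    obtain ⟨h3, h4⟩ := hGA.mem hp
    refine ⟨x, y, rfl, fun z hz => hsub (h3 hz), fun u => ?_⟩
    rw [h4]
    constructor
    · rintro ⟨x', hx', h5⟩
      exact ⟨x', hx', (hold _ (h3 hx') _).2 h5⟩
    · rintro ⟨x', hx', h5⟩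
      exact ⟨x', hx', (hold _ (h3 hx') _).1 h5⟩

/-- Well-foundedness in the sense of `N`. -/
def WFR (R : Set (Set ℕ)) (e : ℕ → ℕ → Prop) : Prop :=
  ∀ Y ∈ R, (∃ n, n ∈ Y) → ∃ n, n ∈ Y ∧ ∀ m, m ∈ Y → ¬ e m n

theorem wf_of_wfR (he : RelN N e) (h : WFR (RN N) e) : WellFounded e := by
  refine ⟨fun n => ?_⟩
  obtain ⟨g, _, hg, hn⟩ := has_att he (fun Y hY hne => h Y hY hne) n
  obtain ⟨y, hy⟩ := mem_dom.1 hn
  exact hg.acc y n hy

theorem wfR_of_wf {R : Set (Set ℕ)} (h : WellFounded e) : WFR R e := by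
  rintro Y _ hY
  obtain ⟨n, hn, hmin⟩ := h.has_min Y hY
  exact ⟨n, hn, hmin⟩

/-! ### The collapse -/

/-- The collapse of a well-founded relation. -/
noncomputable def vl (e : ℕ → ℕ → Prop) (n : ℕ) : V :=
  open Classical in
  if h : WellFounded e then
    h.fix (fun n (rec : ∀ m, e m n → V) =>
      ZFSet.range (fun m : {m // e m n} => rec m.1 m.2)) n
  else ∅

theorem mem_vl (h : WellFounded e) {n : ℕ} {x : V} :
    x ∈ vl e n ↔ ∃ m, e m n ∧ vl e m = x := by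
  have h1 : ∀ n, vl e n = ZFSet.range (fun m : {m // e m n} => vl e m.1) := by
    intro n
    unfold vl
    simp only [dif_pos h]
    rw [h.fix_eq]
  rw [h1, ZFSet.mem_range]
  constructor
  · rintro ⟨⟨m, hm⟩, rfl⟩
    exact ⟨m, hm, rfl⟩
  · rintro ⟨m, hm, rfl⟩
    exact ⟨⟨m, hm⟩, rfl⟩

theorem At.vl (h : WellFounded e) {g : V} (hg : At e g) :
    ∀ n y, ZFSet.pair (nn n) y ∈ g → y = vl e n := by
  intro n
  induction n using h.induction with
  | _ n ih =>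
    intro y hy
    obtain ⟨h3, h4⟩ := hg.mem hy
    ext u
    rw [h4, mem_vl h]
    constructor
    · rintro ⟨x', hx', hu⟩
      obtain ⟨m, rfl, hm⟩ := of_mem_Dp hx'
      exact ⟨m, hm, (ih m hm u hu).symm⟩
    · rintro ⟨m, hm, rfl⟩
      obtain ⟨u, hu⟩ := mem_dom.1 (h3 (mem_Dp.2 hm))
      refine ⟨nn m, mem_Dp.2 hm, ?_⟩
      rwa [← ih m hm u hu]

theorem dmap_vl (he : RelN N e) (h : WellFounded e) :
    DMap N N (fun x : V => vl e (num x)) := by
  have hex : ∀ n, ∃ g ∈ N, At e g ∧ ZFSet.pair (nn n) (vl e n) ∈ g := by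
    intro n
    obtain ⟨g, hg, h1, h2⟩ := has_att he (fun Y hY hne => wfR_of_wf h Y hY hne) n
    obtain ⟨y, hy⟩ := mem_dom.1 h2
    refine ⟨g, hg, h1, ?_⟩
    rwa [← h1.vl h n y hy]
  refine DMap.of_graph (fun x _ => ?_) ?_
  · obtain ⟨g, hg, _, h2⟩ := hex (num x)
    exact (pair_mem_iff.1 (TrC.trans hg h2)).2
  · refine Dfn.congr' (P := fun q : V × V => ∃ g ∈ N, At e g ∧
      ZFSet.pair (nn (num q.1)) q.2 ∈ g) (fun q hq => ?_) ?_
    · constructor
      · intro e'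
        rw [e']
        exact hex _
      · rintro ⟨g, _, h1, h2⟩
        exact h1.vl h _ _ h2
    · have hA' : ∀ {Γ : Type 1} [Ctx Γ] {f : Γ → V}, DMap N N f →
        Dfn N N (fun γ => At e (f γ)) := fun h => (dfn_At he).comp h
      have hN' : ∀ {Γ : Type 1} [Ctx Γ] {f : Γ → V}, DMap N N f →
        DMap N N (fun γ => nn (num (f γ))) := fun h => SO1.DMap.nnum h
      apply_rules (transparency := .reducible) (maxDepth := 999) only [hA', hN', DMap.pair] using is_poly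

theorem vl_mem (he : RelN N e) (h : WellFounded e) (n : ℕ) : vl e n ∈ N := by
  have := (dmap_vl he h).mem (γ := nn n) (inM_V.2 (nn_mem n))
  rwa [num_nn] at this

/-- Bisimulations. -/
def Bis (e e' B : ℕ → ℕ → Prop) : Prop :=
  ∀ a b, B a b → (∀ a', e a' a → ∃ b', e' b' b ∧ B a' b') ∧
    ∀ b', e' b' b → ∃ a', e a' a ∧ B a' b'

theorem Bis.eq {e e' B : ℕ → ℕ → Prop} (h : WellFounded e) (h' : WellFounded e')
    (hB : Bis e e' B) : ∀ a b, B a b → vl e a = vl e' b := by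
  intro a
  induction a using h.induction with
  | _ a ih =>
    intro b hab
    obtain ⟨h1, h2⟩ := hB a b hab
    ext u
    rw [mem_vl h, mem_vl h']
    constructor
    · rintro ⟨a', ha', rfl⟩
      obtain ⟨b', hb', hB'⟩ := h1 a' ha'
      exact ⟨b', hb', (ih a' ha' b' hB').symm⟩
    · rintro ⟨b', hb', rfl⟩
      obtain ⟨a', ha', hB'⟩ := h2 b' hb'
      exact ⟨a', ha', ih a' ha' b' hB'⟩

theorem eq_iff {e e' : ℕ → ℕ → Prop} (he : RelN N e) (h : WellFounded e)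
    (he' : RelN N e') (h' : WellFounded e') (a b : ℕ) :
    vl e a = vl e' b ↔ ∃ Y ∈ RN N, Bis e e' (E Y) ∧ E Y a b := by
  constructor
  · intro hab
    have h1 : RelN N (fun a b => vl e a = vl e' b) :=
      Dfn.eq ((dmap_vl he h).comp (DMap.fst DMap.id)) ((dmap_vl he' h').comp (DMap.snd DMap.id))
    refine ⟨_, cod_mem h1, ?_, ?_⟩
    · rw [E_cod]
      intro a b hab
      constructor
      · intro a' ha'
        have h2 : vl e a' ∈ vl e a := (mem_vl h).2 ⟨a', ha', rfl⟩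
        rw [hab, mem_vl h'] at h2
        obtain ⟨b', hb', h3⟩ := h2
        exact ⟨b', hb', h3.symm⟩
      · intro b' hb'
        have h2 : vl e' b' ∈ vl e' b := (mem_vl h').2 ⟨b', hb', rfl⟩
        rw [← hab, mem_vl h] at h2
        obtain ⟨a', ha', h3⟩ := h2
        exact ⟨a', ha', h3⟩
    · rw [E_cod]
      exact hab
  · rintro ⟨Y, _, hB, hab⟩
    exact Bis.eq h h' hB a b hab

theorem mem_iff {e e' : ℕ → ℕ → Prop} (he : RelN N e) (h : WellFounded e)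
    (he' : RelN N e') (h' : WellFounded e') (a b : ℕ) :
    vl e a ∈ vl e' b ↔ ∃ b', e' b' b ∧ ∃ Y ∈ RN N, Bis e e' (E Y) ∧ E Y a b' := by
  rw [mem_vl h']
  constructor
  · rintro ⟨b', hb', h1⟩
    exact ⟨b', hb', (eq_iff he h he' h' a b').1 h1.symm⟩
  · rintro ⟨b', hb', h1⟩
    exact ⟨b', hb', ((eq_iff he h he' h' a b').2 h1).symm⟩

/-! ### Codes for sets -/

theorem tc_dec {x y : V} (h : y ∈ x) : ZFSet.rank y < ZFSet.rank x := ZFSet.rank_lt_of_mem h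

/-- The transitive closure of `{x}`. -/
noncomputable def tc (x : V) : V :=
  insert x (ZFSet.sUnion (rep x (fun y => open Classical in if _h : y ∈ x then tc y else ∅)))
termination_by ZFSet.rank x
decreasing_by exact tc_dec _h

theorem tc_eq (x : V) : tc x = insert x (ZFSet.sUnion (rep x tc)) := by
  rw [tc]
  congr 2
  ext z
  rw [mem_rep, mem_rep]
  constructor
  · rintro ⟨y, hy, rfl⟩
    exact ⟨y, hy, by rw [dif_pos hy]⟩
  · rintro ⟨y, hy, rfl⟩
    exact ⟨y, hy, by rw [dif_pos hy]⟩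

theorem mem_tc {x z : V} : z ∈ tc x ↔ z = x ∨ ∃ y ∈ x, z ∈ tc y := by
  rw [tc_eq, ZFSet.mem_insert_iff, ZFSet.mem_sUnion]
  refine or_congr Iff.rfl ?_
  constructor
  · rintro ⟨w, hw, hz⟩
    obtain ⟨y, hy, rfl⟩ := mem_rep.1 hw
    exact ⟨y, hy, hz⟩
  · rintro ⟨y, hy, hz⟩
    exact ⟨tc y, mem_rep.2 ⟨y, hy, rfl⟩, hz⟩

theorem tc_self (x : V) : x ∈ tc x := mem_tc.2 (Or.inl rfl)

theorem tc_trans (x : V) : ∀ z ∈ tc x, ∀ w ∈ z, w ∈ tc x := by
  induction x using ZFSet.mem_wf.induction with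
  | _ x ih =>
    intro z hz w hw
    rcases mem_tc.1 hz with rfl | ⟨y, hy, hz⟩
    · exact mem_tc.2 (Or.inr ⟨w, hw, tc_self w⟩)
    · exact mem_tc.2 (Or.inr ⟨y, hy, ih y hy z hz w hw⟩)

theorem dmap_tc : DMap N N tc := by
  refine DMap.recMem (H := fun x g => insert x (ZFSet.sUnion (ran g))) ?_ (fun x _ => ?_)
  · exact DMap.insert (DMap.fst DMap.id) (DMap.sUnion (DMap.ran (DMap.snd DMap.id)))
  · rw [ran_gr]
    exact tc_eq x

/-- Every set in `N` has a code. -/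
theorem exists_code (hc : ∀ x ∈ N, ∃ f ∈ N, IsFn f ∧ dom f = ZFSet.omega ∧ x ⊆ ran f)
    {x : V} (hx : x ∈ N) : ∃ z ∈ RN N, WellFounded (E z) ∧ vl (E z) 0 = x := by
  classical
  have ht : tc x ∈ N := dmap_tc.mem (inM_V.2 hx)
  obtain ⟨f, hf, hf1, hf2, hf3⟩ := hc _ ht
  set G : V → V := fun w => if w = ∅ then x else
    if app f (ZFSet.sUnion w) ∈ tc x then app f (ZFSet.sUnion w) else x with hG
  have hGD : DMap N N G := by
    have h1 : DMap N N (fun w : V => app f (ZFSet.sUnion w)) :=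
      DMap.app (DMap.const hf hf) (DMap.sUnion DMap.id)
    refine DMap.ite (P := fun w : V => w = ∅) (Dfn.eq DMap.id DMap.empty) (DMap.const hx hx) ?_
    exact DMap.ite (P := fun w : V => app f (ZFSet.sUnion w) ∈ tc x)
      (Dfn.mem h1 (DMap.const ht ht)) h1 (DMap.const hx hx)
  have hG0 : G (nn 0) = x := by
    rw [hG]
    exact if_pos rfl
  have hGm : ∀ n, G (nn n) ∈ tc x := by
    intro n
    simp only [hG]
    split_ifs with h1 h2
    · exact tc_self x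
    · exact h2
    · exact tc_self x
  have hsucc : ∀ n, (ZFSet.sUnion (nn (n + 1)) : V) = nn n := by
    intro n
    ext z
    rw [ZFSet.mem_sUnion]
    constructor
    · rintro ⟨y, hy, hz⟩
      obtain ⟨m, hm, rfl⟩ := mem_nn.1 hy
      obtain ⟨l, hl, rfl⟩ := mem_nn.1 hz
      exact mem_nn.2 ⟨l, by omega, rfl⟩
    · intro hz
      exact ⟨nn n, mem_nn.2 ⟨n, by omega, rfl⟩, hz⟩
  have hGs : ∀ u ∈ tc x, ∃ n, G (nn n) = u := by
    intro u hu
    obtain ⟨i, hi⟩ := mem_ran.1 (hf3 hu)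
    have hi' : i ∈ dom f := mem_dom.2 ⟨u, hi⟩
    rw [hf2] at hi'
    obtain ⟨n, rfl⟩ := mem_omega.1 hi'
    refine ⟨n + 1, ?_⟩
    have h1 : app f (nn n) = u := hf1.app_eq hi
    simp only [hG]
    rw [hsucc, h1, if_pos hu, if_neg]
    intro h
    have h2 : nn n ∈ nn (n + 1) := nn_mem_nn.2 (Nat.lt_succ_self n)
    rw [h] at h2
    exact ZFSet.notMem_empty _ h2
  set e : ℕ → ℕ → Prop := fun m n => G (nn m) ∈ G (nn n) with he
  have heN : RelN N e := by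
    have h1 : DMap N N (fun p : V × V => G (nn (num p.1))) :=
      hGD.comp (SO1.DMap.nnum (DMap.fst DMap.id))
    have h2 : DMap N N (fun p : V × V => G (nn (num p.2))) :=
      hGD.comp (SO1.DMap.nnum (DMap.snd DMap.id))
    exact Dfn.mem h1 h2
  have hwf : WellFounded e := InvImage.wf (fun n => G (nn n)) ZFSet.mem_wf
  have hvl : ∀ n, vl e n = G (nn n) := by
    intro n
    induction n using hwf.induction with
    | _ n ih =>
      ext u
      rw [mem_vl hwf]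
      constructor
      · rintro ⟨m, hm, rfl⟩
        rw [ih m hm]
        exact hm
      · intro hu
        obtain ⟨m, hm⟩ := hGs u (tc_trans x _ (hGm n) u hu)
        have hm' : e m n := by
          show G (nn m) ∈ G (nn n)
          rw [hm]
          exact hu
        exact ⟨m, hm', by rw [ih m hm', hm]⟩
  refine ⟨cod e, cod_mem heN, ?_, ?_⟩
  · rw [E_cod]
    exact hwf
  · rw [E_cod, hvl, hG0]

/-! ### The standard code of a real -/

/-- The standard code of a real. -/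
def std (X : Set ℕ) (m n : ℕ) : Prop :=
  (∃ i, ∃ j, m = i + 1 ∧ n = j + 1 ∧ i < j) ∨ (n = 0 ∧ ∃ i, m = i + 1 ∧ i ∈ X)

theorem std_succ {X : Set ℕ} {m j : ℕ} : std X m (j + 1) ↔ ∃ i, m = i + 1 ∧ i < j := by
  unfold std
  constructor
  · rintro (⟨i, j', h1, h2, h3⟩ | ⟨h, _⟩)
    · exact ⟨i, h1, by omega⟩
    · omega
  · rintro ⟨i, h1, h2⟩
    exact Or.inl ⟨i, j, h1, rfl, h2⟩

theorem std_zero {X : Set ℕ} {m : ℕ} : std X m 0 ↔ ∃ i, m = i + 1 ∧ i ∈ X := by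
  unfold std
  constructor
  · rintro (⟨i, j', h1, h2, h3⟩ | ⟨_, h⟩)
    · omega
    · exact h
  · intro h
    exact Or.inr ⟨rfl, h⟩

theorem std_wf (X : Set ℕ) : WellFounded (std X) := by
  have h1 : ∀ j, Acc (std X) (j + 1) := by
    intro j
    induction j using Nat.strong_induction_on with
    | _ j ih =>
      refine ⟨_, fun m hm => ?_⟩
      obtain ⟨i, rfl, hi⟩ := std_succ.1 hm
      exact ih i hi
  refine ⟨fun n => ?_⟩
  rcases n with _ | n
  · refine ⟨_, fun m hm => ?_⟩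
    obtain ⟨i, rfl, _⟩ := std_zero.1 hm
    exact h1 i
  · exact h1 n

theorem vl_std_succ (X : Set ℕ) (j : ℕ) : vl (std X) (j + 1) = nn j := by
  induction j using Nat.strong_induction_on with
  | _ j ih =>
    ext u
    rw [mem_vl (std_wf X), mem_nn]
    constructor
    · rintro ⟨m, hm, rfl⟩
      obtain ⟨i, rfl, hi⟩ := std_succ.1 hm
      exact ⟨i, hi, ih i hi⟩
    · rintro ⟨i, hi, rfl⟩
      exact ⟨i + 1, std_succ.2 ⟨i, rfl, hi⟩, ih i hi⟩

theorem vl_std (X : Set ℕ) : vl (std X) 0 = toZ X := by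
  ext u
  rw [mem_vl (std_wf X)]
  constructor
  · rintro ⟨m, hm, rfl⟩
    obtain ⟨i, rfl, hi⟩ := std_zero.1 hm
    rw [vl_std_succ]
    exact mem_toZ.2 hi
  · intro hu
    obtain ⟨i, rfl⟩ := mem_omega.1 (toZ_sub X hu)
    exact ⟨i + 1, std_zero.2 ⟨i, rfl, mem_toZ.1 hu⟩, vl_std_succ X i⟩

/-! ### The translation -/

section

variable {Γ : Type} [C2 Γ] {R : Set (Set ℕ)}

theorem D2.std {f : Γ → Set ℕ} {s t : Γ → ℕ} (hf : S2 f) (hs : T2 s) (ht : T2 t) :
    D2 R (fun γ => std (f γ) (s γ) (t γ)) := by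
  have h : D2 R (fun p : (((Fin 1 → Set ℕ) × ℕ) × ℕ) => SO2.std (p.1.1 0) p.1.2 p.2) := by
    unfold SO2.std
    refine D2.or (D2.exN (D2.exN (D2.and (D2.eq ?_ ?_) (D2.and (D2.eq ?_ ?_) (D2.lt ?_ ?_)))))
      (D2.and (D2.eq ?_ T2.zero) (D2.exN (D2.and (D2.eq ?_ ?_) (D2.mem ?_ ?_))))
    · exact T2.snd (M2.fstN (M2.fstN (M2.fstN M2.id)))
    · exact (T2.snd (M2.fstN M2.id)).add T2.one
    · exact T2.snd (M2.fstN (M2.fstN M2.id))
    · exact (T2.snd M2.id).add T2.one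
    · exact T2.snd (M2.fstN M2.id)
    · exact T2.snd M2.id
    · exact T2.snd M2.id
    · exact T2.snd (M2.fstN (M2.fstN M2.id))
    · exact (T2.snd M2.id).add T2.one
    · exact T2.snd M2.id
    · exact S2.var (M2.fstN (M2.fstN (M2.fstN M2.id))) 0
  have hg : M2 (fun γ => (((fun _ : Fin 1 => f γ), s γ), t γ)) := by
    refine M2.prodN (M2.prodN ?_ hs) ht
    exact ⟨fun i => i.elim0, fun _ => hf⟩
  exact h.comp hg

/-- Atomic formulas: bisimulations. -/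
theorem D2.bis {e e' B : Γ → ℕ → ℕ → Prop}
    (he : D2 R (fun p : (Γ × ℕ) × ℕ => e p.1.1 p.1.2 p.2))
    (he' : D2 R (fun p : (Γ × ℕ) × ℕ => e' p.1.1 p.1.2 p.2))
    (hB : D2 R (fun p : (Γ × ℕ) × ℕ => B p.1.1 p.1.2 p.2)) :
    D2 R (fun γ => Bis (e γ) (e' γ) (B γ)) := by
  have h1 : ∀ {Δ : Type} [C2 Δ] {g : Δ → Γ} {s t : Δ → ℕ}, M2 g → T2 s → T2 t →
    D2 R (fun δ => e (g δ) (s δ) (t δ)) := fun hg hs ht =>
    D2.comp he ((hg.prodN hs).prodN ht)
  have h2 : ∀ {Δ : Type} [C2 Δ] {g : Δ → Γ} {s t : Δ → ℕ}, M2 g → T2 s → T2 t →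
    D2 R (fun δ => e' (g δ) (s δ) (t δ)) := fun hg hs ht =>
    D2.comp he' ((hg.prodN hs).prodN ht)
  have h3 : ∀ {Δ : Type} [C2 Δ] {g : Δ → Γ} {s t : Δ → ℕ}, M2 g → T2 s → T2 t →
    D2 R (fun δ => B (g δ) (s δ) (t δ)) := fun hg hs ht =>
    D2.comp hB ((hg.prodN hs).prodN ht)
  unfold Bis
  refine D2.allN (D2.allN (D2.imp hB (D2.and (D2.allN (D2.imp ?_ (D2.exN (D2.and ?_ ?_))))
    (D2.allN (D2.imp ?_ (D2.exN (D2.and ?_ ?_)))))))
  · exact h1 (M2.fstN (M2.fstN (M2.fstN M2.id))) (T2.snd M2.id) (T2.snd (M2.fstN (M2.fstN M2.id)))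
  · exact h2 (M2.fstN (M2.fstN (M2.fstN (M2.fstN M2.id)))) (T2.snd M2.id)
      (T2.snd (M2.fstN (M2.fstN M2.id)))
  · exact h3 (M2.fstN (M2.fstN (M2.fstN (M2.fstN M2.id)))) (T2.snd (M2.fstN M2.id))
      (T2.snd M2.id)
  · exact h2 (M2.fstN (M2.fstN (M2.fstN M2.id))) (T2.snd M2.id) (T2.snd (M2.fstN M2.id))
  · exact h1 (M2.fstN (M2.fstN (M2.fstN (M2.fstN M2.id)))) (T2.snd M2.id)
      (T2.snd (M2.fstN (M2.fstN (M2.fstN M2.id))))
  · exact h3 (M2.fstN (M2.fstN (M2.fstN (M2.fstN M2.id)))) (T2.snd M2.id)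
      (T2.snd (M2.fstN M2.id))

theorem D2.wfr {e : Γ → ℕ → ℕ → Prop}
    (he : D2 R (fun p : (Γ × ℕ) × ℕ => e p.1.1 p.1.2 p.2)) :
    D2 R (fun γ => WFR R (e γ)) := by
  have h1 : ∀ {Δ : Type} [C2 Δ] {g : Δ → Γ} {s t : Δ → ℕ}, M2 g → T2 s → T2 t →
    D2 R (fun δ => e (g δ) (s δ) (t δ)) := fun hg hs ht =>
    D2.comp he ((hg.prodN hs).prodN ht)
  unfold WFR
  refine D2.allS (D2.imp (D2.exN (D2.mem (T2.snd M2.id) (S2.snd (M2.fstN M2.id))))
    (D2.exN (D2.and (D2.mem (T2.snd M2.id) (S2.snd (M2.fstN M2.id)))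
      (D2.allN (D2.imp (D2.mem (T2.snd M2.id) (S2.snd (M2.fstN (M2.fstN M2.id))))
        (D2.not ?_))))))
  exact h1 (M2.fstS (M2.fstN (M2.fstN M2.id))) (T2.snd M2.id) (T2.snd (M2.fstN M2.id))

end

/-- The translation of formulas. -/
theorem translate (hso : Stmt_so1)
    (hc : ∀ x ∈ N, ∃ f ∈ N, IsFn f ∧ dom f = ZFSet.omega ∧ x ⊆ ran f) {n : ℕ}
    (φ : Fm (∅ ∩ N : Set V) n) : ∀ {Γ : Type} [C2 Γ] (e : Fin n → Γ → ℕ → ℕ → Prop),
    (∀ i, D2 (RN N) (fun p : (Γ × ℕ) × ℕ => e i p.1.1 p.1.2 p.2)) →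
    (∀ i γ, InR (RN N) γ → WellFounded (e i γ)) →
    D2 (RN N) (fun γ => φ.Sat N (fun x y => x ∈ y) (fun a => a.1) (fun i => vl (e i γ) 0)) := by
  induction φ with
  | @mem n s t =>
    intro Γ _ e he hwf
    rcases s with s | i
    · exact s.2.1.elim
    rcases t with t | j
    · exact t.2.1.elim
    have h1 : D2 (RN N) (fun γ : Γ => ∃ b', e j γ b' 0 ∧ ∃ Y ∈ RN N,
        Bis (e i γ) (e j γ) (E Y) ∧ E Y 0 b') := by
      refine D2.exN (D2.and ?_ (D2.exS (D2.and ?_ ?_)))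
      · exact D2.comp (he j) ((M2.fstN M2.id).prodN (T2.snd M2.id) |>.prodN T2.zero)
      · refine D2.bis (e := fun p : (Γ × ℕ) × Set ℕ => e i p.1.1)
          (e' := fun p : (Γ × ℕ) × Set ℕ => e j p.1.1) (B := fun p => E p.2) ?_ ?_ ?_
        · exact D2.comp (he i) (((M2.fstN (M2.fstS (M2.fstN (M2.fstN M2.id)))).prodN
            (T2.snd (M2.fstN M2.id))).prodN (T2.snd M2.id))
        · exact D2.comp (he j) (((M2.fstN (M2.fstS (M2.fstN (M2.fstN M2.id)))).prodN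
            (T2.snd (M2.fstN M2.id))).prodN (T2.snd M2.id))
        · exact D2.E (S2.snd (M2.fstN (M2.fstN M2.id))) (T2.snd (M2.fstN M2.id)) (T2.snd M2.id)
      · exact D2.E (S2.snd M2.id) T2.zero (T2.snd (M2.fstS M2.id))
    refine h1.congr fun γ hγ => ?_
    exact (mem_iff (relN_of_D2 hso (he i) hγ) (hwf i γ hγ) (relN_of_D2 hso (he j) hγ)
      (hwf j γ hγ) 0 0).symm
  | @eq n s t =>
    intro Γ _ e he hwf
    rcases s with s | i
    · exact s.2.1.elim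
    rcases t with t | j
    · exact t.2.1.elim
    have h1 : D2 (RN N) (fun γ : Γ => ∃ Y ∈ RN N,
        Bis (e i γ) (e j γ) (E Y) ∧ E Y 0 0) := by
      refine D2.exS (D2.and ?_ ?_)
      · refine D2.bis (e := fun p : Γ × Set ℕ => e i p.1)
          (e' := fun p : Γ × Set ℕ => e j p.1) (B := fun p => E p.2) ?_ ?_ ?_
        · exact D2.comp (he i) (((M2.fstS (M2.fstN (M2.fstN M2.id))).prodN
            (T2.snd (M2.fstN M2.id))).prodN (T2.snd M2.id))
        · exact D2.comp (he j) (((M2.fstS (M2.fstN (M2.fstN M2.id))).prodN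
            (T2.snd (M2.fstN M2.id))).prodN (T2.snd M2.id))
        · exact D2.E (S2.snd (M2.fstN (M2.fstN M2.id))) (T2.snd (M2.fstN M2.id)) (T2.snd M2.id)
      · exact D2.E (S2.snd M2.id) T2.zero T2.zero
    refine h1.congr fun γ hγ => ?_
    exact (eq_iff (relN_of_D2 hso (he i) hγ) (hwf i γ hγ) (relN_of_D2 hso (he j) hγ)
      (hwf j γ hγ) 0 0).symm
  | neg φ ih =>
    intro Γ _ e he hwf
    exact (ih e he hwf).not
  | and φ ψ ih ih' =>
    intro Γ _ e he hwf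
    exact (ih e he hwf).and (ih' e he hwf)
  | @all n φ ih =>
    intro Γ _ e he hwf
    set e1 : Γ × Set ℕ → ℕ → ℕ → Prop := fun p a b => WFR (RN N) (E p.2) ∧ E p.2 a b with he1
    set e' : Fin (n + 1) → Γ × Set ℕ → ℕ → ℕ → Prop :=
      Fin.snoc (fun i p => e i p.1) e1 with he'
    have hl : e' (Fin.last n) = e1 := by rw [he', Fin.snoc_last]
    have hcs : ∀ i : Fin n, e' i.castSucc = fun p => e i p.1 := by
      intro i
      rw [he', Fin.snoc_castSucc]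
    have hD1 : D2 (RN N) (fun p : ((Γ × Set ℕ) × ℕ) × ℕ => e1 p.1.1 p.1.2 p.2) := by
      refine D2.and ?_ ?_
      · have h1 : D2 (RN N) (fun p : Γ × Set ℕ => WFR (RN N) (E p.2)) :=
          D2.wfr (e := fun p : Γ × Set ℕ => E p.2)
            (D2.E (S2.snd (M2.fstN (M2.fstN M2.id))) (T2.snd (M2.fstN M2.id)) (T2.snd M2.id))
        exact D2.comp h1 (M2.fstN (M2.fstN M2.id))
      · exact D2.E (S2.snd (M2.fstN (M2.fstN M2.id))) (T2.snd (M2.fstN M2.id)) (T2.snd M2.id)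
    have hW1 : ∀ p : Γ × Set ℕ, InR (RN N) p → WellFounded (e1 p) := by
      intro p hp
      by_cases h : WFR (RN N) (E p.2)
      · have h1 : e1 p = E p.2 := by
          funext a b
          exact propext ⟨fun h' => h'.2, fun h' => ⟨h, h'⟩⟩
        rw [h1]
        exact wf_of_wfR (relN_E hso (inR_fstS hp).2) h
      · exact ⟨fun n => ⟨_, fun m hm => (h hm.1).elim⟩⟩
    have hD : ∀ i, D2 (RN N) (fun p : ((Γ × Set ℕ) × ℕ) × ℕ => e' i p.1.1 p.1.2 p.2) := by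
      intro i
      refine Fin.lastCases ?_ (fun i => ?_) i
      · rw [hl]
        exact hD1
      · rw [hcs]
        exact D2.comp (he i) (((M2.fstS (M2.fstN (M2.fstN M2.id))).prodN
            (T2.snd (M2.fstN M2.id))).prodN (T2.snd M2.id))
    have hW : ∀ i (p : Γ × Set ℕ), InR (RN N) p → WellFounded (e' i p) := by
      intro i
      refine Fin.lastCases ?_ (fun i => ?_) i
      · rw [hl]
        exact hW1
      · intro p hp
        rw [hcs]
        exact hwf i p.1 (inR_fstS hp).1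
    have h2 := D2.allS (P := fun γ Y => φ.Sat N (fun x y => x ∈ y) (fun a => a.1)
      (fun i => vl (e' i (γ, Y)) 0)) (ih e' hD hW)
    refine h2.congr fun γ hγ => ?_
    have hsn : ∀ Y, (fun i => vl (e' i (γ, Y)) 0) =
        (Fin.snoc (fun i => vl (e i γ) 0) (vl (e1 (γ, Y)) 0) : Fin (n + 1) → V) := by
      intro Y
      funext i
      refine Fin.lastCases ?_ (fun i => ?_) i
      · rw [hl, Fin.snoc_last]
      · rw [hcs, Fin.snoc_castSucc]
    constructor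
    · intro H x hx
      obtain ⟨z, hz, hzw, hzv⟩ := exists_code hc hx
      have h3 := H z hz
      rw [hsn] at h3
      have h4 : e1 (γ, z) = E z := by
        funext a b
        exact propext ⟨fun h' => h'.2, fun h' => ⟨wfR_of_wf hzw, h'⟩⟩
      rwa [h4, hzv] at h3
    · intro H Y hY
      rw [hsn]
      refine H _ ?_
      exact vl_mem (relN_of_D2 hso hD1 (inR_S hγ hY)) (hW1 _ (inR_S hγ hY)) 0

end

end SO2

open SO2 in
/-- **Module SO2.** -/
theorem so2 : Stmt_so2 := by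
  intro N _ hc k P hP
  obtain ⟨φ, hφ⟩ := hP
  obtain ⟨ψ, hψ⟩ := translate so1 hc φ (Γ := Fin k → Set ℕ) (fun j X => std (X j))
    (fun j => D2.std (S2.var (M2.fstN (M2.fstN M2.id)) j) (T2.snd (M2.fstN M2.id))
      (T2.snd M2.id)) (fun j X _ => std_wf _)
  refine ⟨ψ, fun X hX => ?_⟩
  have h1 := hψ X hX
  have h2 : (fun i => vl (std (X i)) 0) = fun i => toZ (X i) := by
    funext i
    exact vl_std _
  beta_reduce at h1
  rw [h2] at h1
  exact h1.trans (hφ _ fun i => hX i)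

end Pool.Agent.CTM
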