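import Pool.Agent.CTM.CovA
import Pool.Agent.CTM.SOADefs

/-!
Counting statements (MP_ea2134_lc): an injection `B → A` in `N` gives, by the covering property, a
surjection of `A × ω` onto `B` in `M`; the set of all sets of rank less than `ω₁` is larger than
every set of sets of bounded rank.

Formalisation: helper57.
-/

set_option autoImplicit false

namespace Pool.Agent.CTM

namespace Sml

open Cov

section

variable {Γ Δ : Type 1} [Ctx Γ] [Ctx Δ] {A M : Set V}

theorem dfn_isFn [ZFm M] {f : Γ → V} (hf : DMap A M f) : Dfn A M (fun γ => IsFn (f γ)) := by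
  have h1 : Dfn A M (fun f : V => IsFn f) := by
    refine Dfn.congr' (P := fun f : V => (∀ p ∈ f, ∃ x ∈ M, ∃ y ∈ M, p = ZFSet.pair x y) ∧
      ∀ x ∈ M, ∀ y ∈ M, ∀ z ∈ M, ZFSet.pair x y ∈ f → ZFSet.pair x z ∈ f → y = z)
      (fun f hf => ?_)
      (by apply_rules (transparency := .reducible) (maxDepth := 999) only using is_poly)
    have hf := inM_V.1 hf
    unfold IsFn
    refine and_congr (forall₂_congr fun p hp => ?_) ?_
    · constructor
      · rintro ⟨x, y, rfl⟩
        obtain ⟨h1, h2⟩ := pair_mem_iff.1 (TrC.trans hf hp)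
        exact ⟨x, h1, y, h2, rfl⟩
      · rintro ⟨x, _, y, _, rfl⟩
        exact ⟨x, y, rfl⟩
    · constructor
      · intro h x _ y _ z _
        exact h x y z
      · intro h x y z hxy hxz
        have h1 := pair_mem_iff.1 (TrC.trans hf hxy)
        have h2 := pair_mem_iff.1 (TrC.trans hf hxz)
        exact h x h1.1 y h1.2 z h2.2 hxy hxz
  exact h1.comp hf

theorem prod_eq (a b : V) : ZFSet.prod a b =
    ZFSet.sUnion (rep a (fun x => rep b (fun y => ZFSet.pair x y))) := by
  ext z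
  rw [ZFSet.mem_prod, ZFSet.mem_sUnion]
  constructor
  · rintro ⟨x, hx, y, hy, rfl⟩
    exact ⟨_, mem_rep.2 ⟨x, hx, rfl⟩, mem_rep.2 ⟨y, hy, rfl⟩⟩
  · rintro ⟨s, hs, hz⟩
    obtain ⟨x, hx, rfl⟩ := mem_rep.1 hs
    obtain ⟨y, hy, rfl⟩ := mem_rep.1 hz
    exact ⟨x, hx, y, hy, rfl⟩

theorem dmap_prod [ZFm M] {f g : Γ → V} (hf : DMap A M f) (hg : DMap A M g) :
    DMap A M (fun γ => ZFSet.prod (f γ) (g γ)) := by
  have h : DMap A M (fun p : V × V => ZFSet.prod p.1 p.2) := by
    simp only [prod_eq]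
    apply_rules (transparency := .reducible) (maxDepth := 999) only using is_poly
  exact h.comp (hf.prodMk hg)

theorem prod_mem [ZFm M] {a b : V} (ha : a ∈ M) (hb : b ∈ M) : ZFSet.prod a b ∈ M := by
  have h : DMap M M (fun p : V × V => ZFSet.prod p.1 p.2) :=
    dmap_prod (DMap.fst DMap.id) (DMap.snd DMap.id)
  exact h.mem (γ := (a, b)) (inM_prod.2 ⟨inM_V.2 ha, hb⟩)

end

/-- **Module SML.** -/
theorem stmt_small : Stmt_small := by
  intro M N _ _ hMN cov A hA B hB f hf hfm hinj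
  by_cases hB0 : ∃ b, b ∈ B
  swap
  · refine ⟨gr (fun _ => ∅) (ZFSet.prod A ZFSet.omega),
      gr_mem (A := M) DMap.empty (prod_mem hA ZFm.omega_mem), isFn_gr _ _, dom_gr _ _, ?_⟩
    intro b hb
    exact (hB0 ⟨b, hb⟩).elim
  obtain ⟨b0, hb0⟩ := hB0
  obtain ⟨hf1, hf2, hf3⟩ := hfm
  classical
  -- the inverse function in `N`
  set H : V → V := fun a => if ∃ b ∈ B, app f b = a then
    ZFSet.sUnion (ZFSet.sep (fun b => app f b = a) B) else b0 with hH
  have hBN : B ∈ N := hMN hB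
  have hAN : A ∈ N := hMN hA
  have hb0N : b0 ∈ N := TrC.trans hBN hb0
  have hHd : DMap N N H := by
    rw [hH]
    refine dmap_ite ?_ ?_ ?_
    · apply_rules (transparency := .reducible) (maxDepth := 999) only
        [DMap.const hBN hBN, DMap.const hf hf] using is_poly
    · apply_rules (transparency := .reducible) (maxDepth := 999) only
        [DMap.const hBN hBN, DMap.const hf hf] using is_poly
    · exact DMap.const hb0N hb0N
  have hHv : ∀ b ∈ B, H (app f b) = b := by
    intro b hb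
    rw [hH]
    simp only
    rw [if_pos ⟨b, hb, rfl⟩]
    have e : (ZFSet.sep (fun b' => app f b' = app f b) B : V) = {b} := by
      ext z
      rw [ZFSet.mem_sep, ZFSet.mem_singleton]
      constructor
      · rintro ⟨hz, h⟩
        exact hinj z (hf2 ▸ hz) b (hf2 ▸ hb) h
      · rintro rfl
        exact ⟨hb, rfl⟩
    rw [e, ZFSet.sUnion_singleton]
  have hHB : ∀ a, H a ∈ B := by
    intro a
    by_cases h : ∃ b ∈ B, app f b = a
    · obtain ⟨b, hb, rfl⟩ := h
      rw [hHv b hb]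
      exact hb
    · rw [hH]
      simp only
      rw [if_neg h]
      exact hb0
  obtain ⟨F, hF, hF1, hF2, hF3⟩ := cov (gr H A) (gr_mem hHd hAN) A hA B hB
    ⟨isFn_gr _ _, dom_gr _ _, fun a ha => by rw [app_gr _ ha]; exact hHB a⟩
  -- enumerations in `M`
  have hFn : ∀ {Δ : Type 1} [Ctx Δ] {f : Δ → V}, DMap M M f → Dfn M M (fun γ => IsFn (f γ)) :=
    fun h => dfn_isFn h
  obtain ⟨E, hE, hE1⟩ := choose_fn (M := M)
    (Q := fun a e => IsFn e ∧ dom e = ZFSet.omega ∧ app F a ⊆ ran e)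
    (by apply_rules (transparency := .reducible) (maxDepth := 999) only
      [DMap.const ZFm.omega_mem ZFm.omega_mem, DMap.const hF hF, hFn] using is_poly) hA
    (fun a ha => (hF3 a ha).2.1)
  have hE' : ∀ {Δ : Type 1} [Ctx Δ] {f : Δ → V}, DMap M M f →
      DMap M M (fun γ => E (f γ)) := fun h => hE.comp h
  refine ⟨gr (fun p => app (E (fs p)) (sn p)) (ZFSet.prod A ZFSet.omega), gr_mem (A := M)
    (by apply_rules (transparency := .reducible) (maxDepth := 999) only
      [hE', dmap_fs, dmap_sn] using is_poly) (prod_mem hA ZFm.omega_mem), isFn_gr _ _,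
    dom_gr _ _, fun b hb => ?_⟩
  have hfb : app f b ∈ A := hf3 b hb
  have h1 : b ∈ app F (app f b) := by
    have := (hF3 _ hfb).2.2
    rwa [app_gr _ hfb, hHv b hb] at this
  obtain ⟨_, h2, h3, h4⟩ := hE1 _ hfb
  obtain ⟨n, hn⟩ := mem_ran.1 (h4 h1)
  refine mem_ran_gr.2 ⟨ZFSet.pair (app f b) n, ZFSet.pair_mem_prod.2 ⟨hfb, ?_⟩, ?_⟩
  · rw [← h3]
    exact mem_dom.2 ⟨_, hn⟩
  · rw [fs_pair, sn_pair]
    exact h2.app_eq hn

/-! ### Ranks -/

theorem rank_pair' (x y : V) : ZFSet.rank (ZFSet.pair x y) =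
    Order.succ (Order.succ (max (ZFSet.rank x) (ZFSet.rank y))) := by
  unfold ZFSet.pair
  rw [ZFSet.rank_pair, ZFSet.rank_singleton, ZFSet.rank_pair]
  have h1 : Order.succ (ZFSet.rank x) ≤ Order.succ (max (ZFSet.rank x) (ZFSet.rank y)) :=
    Order.succ_le_succ (le_max_left _ _)
  have h2 : max (Order.succ (ZFSet.rank x)) (Order.succ (ZFSet.rank y)) =
      Order.succ (max (ZFSet.rank x) (ZFSet.rank y)) :=
    ((Order.succ_mono (α := Ordinal)).map_max).symm
  rw [h2, max_eq_right]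
  exact Order.succ_le_succ h1

theorem nn_isOrdinal (n : ℕ) : (nn n).IsOrdinal := by
  induction n with
  | zero => exact ZFSet.isOrdinal_empty
  | succ n ih => exact ZFSet.isOrdinal_succ ih

theorem omega_isOrdinal : (ZFSet.omega : V).IsOrdinal := by
  rw [ZFSet.isOrdinal_iff_forall_mem_isOrdinal]
  refine ⟨?_, ?_⟩
  · intro y hy
    obtain ⟨n, rfl⟩ := mem_omega.1 hy
    induction n with
    | zero => exact ZFSet.empty_subset _
    | succ n ih =>
      intro z hz
      have hz : z ∈ (insert (nn n) (nn n) : V) := hz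
      rw [ZFSet.mem_insert_iff] at hz
      rcases hz with rfl | hz
      · exact nn_mem n
      · exact ih (nn_mem n) hz
  · intro y hy
    obtain ⟨n, rfl⟩ := mem_omega.1 hy
    exact nn_isOrdinal n

section

variable {M : Set V}

theorem cbl_omega [ZFm M] : Cbl M ZFSet.omega :=
  ⟨gr (fun x => x) ZFSet.omega, gr_mem (A := M) DMap.id ZFm.omega_mem, isFn_gr _ _, dom_gr _ _,
    fun z hz => mem_ran_gr.2 ⟨z, hz, rfl⟩⟩

theorem cbl_insert [ZFm M] {a : V} (ha : a ∈ M) (h : Cbl M a) : Cbl M (insert a a) := by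
  classical
  obtain ⟨f, hf, h1, h2, h3⟩ := h
  set H : V → V := fun n => if n = ∅ then a else app f (ZFSet.sUnion n) with hH
  have hHd : DMap M M H := by
    rw [hH]
    refine dmap_ite ?_ ?_ ?_
    · apply_rules (transparency := .reducible) (maxDepth := 999) only using is_poly
    · exact DMap.const ha ha
    · apply_rules (transparency := .reducible) (maxDepth := 999) only
        [DMap.const hf hf] using is_poly
  refine cbl_image cbl_omega hHd fun z hz => ?_
  rw [ZFSet.mem_insert_iff] at hz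
  rcases hz with rfl | hz
  · exact mem_rep.2 ⟨nn 0, nn_mem 0, by rw [hH]; exact if_pos rfl⟩
  · obtain ⟨n, hn⟩ := mem_ran.1 (h3 hz)
    have hn' : n ∈ (ZFSet.omega : V) := by
      rw [← h2]
      exact mem_dom.2 ⟨_, hn⟩
    obtain ⟨k, rfl⟩ := mem_omega.1 hn'
    refine mem_rep.2 ⟨nn (k + 1), nn_mem _, ?_⟩
    rw [hH]
    simp only
    rw [if_neg (nn_succ_ne k), sUnion_succ]
    exact h1.app_eq hn

end

/-- **Module CAN.** -/
theorem stmt_cantor : Stmt_cantor := by
  intro M _ w I hwM hwo hw hIM hI b hb A hA hAb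
  rintro ⟨g, hg, hg1, hg2, hg3⟩
  set D : V := ZFSet.sep (fun y => y ∉ app g y) (ZFSet.prod A ZFSet.omega) with hD
  have hDM : D ∈ M := by
    refine ZFm.sep_mem' (A := M) ?_ (prod_mem hA ZFm.omega_mem)
    apply_rules (transparency := .reducible) (maxDepth := 999) only
      [DMap.const hg hg] using is_poly
  -- closure of `w`
  have hsucc : ∀ o < ZFSet.rank w, Order.succ o < ZFSet.rank w := by
    intro o ho
    have h1 : o.toZFSet ∈ w := by
      rw [← hwo.toZFSet_rank_eq]
      exact Ordinal.toZFSet_mem_toZFSet_iff.2 ho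
    obtain ⟨h2, h3, h4⟩ := (hw _).1 h1
    have h5 : insert o.toZFSet o.toZFSet ∈ w := by
      refine (hw _).2 ⟨?_, ZFSet.isOrdinal_succ h3, cbl_insert h2 h4⟩
      have : DMap M M (fun p : V × V => (insert p.1 p.2 : V)) := DMap.insert (DMap.fst DMap.id)
        (DMap.snd DMap.id)
      exact this.mem (γ := (o.toZFSet, o.toZFSet)) (inM_prod.2 ⟨inM_V.2 h2, h2⟩)
    rw [← Ordinal.toZFSet_add_one, ← hwo.toZFSet_rank_eq] at h5
    rw [Order.succ_eq_add_one]
    exact Ordinal.toZFSet_mem_toZFSet_iff.1 h5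
  have hω : ZFSet.rank (ZFSet.omega : V) < ZFSet.rank w :=
    ZFSet.rank_lt_of_mem ((hw _).2 ⟨ZFm.omega_mem, omega_isOrdinal, cbl_omega⟩)
  have hbr : ZFSet.rank b < ZFSet.rank w := ZFSet.rank_lt_of_mem hb
  set m : Ordinal := max (ZFSet.rank b) (ZFSet.rank (ZFSet.omega : V)) with hm
  have hmw : m < ZFSet.rank w := max_lt hbr hω
  have hDr : ZFSet.rank D ≤ Order.succ (Order.succ m) := by
    rw [ZFSet.rank_le_iff]
    intro p hp
    obtain ⟨x, hx, n, hn, rfl⟩ := ZFSet.mem_prod.1 (ZFSet.mem_sep.1 hp).1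
    rw [rank_pair']
    refine Order.succ_lt_succ (Order.succ_lt_succ (max_lt ?_ ?_))
    · have h1 := ZFSet.rank_lt_of_mem (hAb x hx)
      unfold rk at h1
      rw [Ordinal.rank_toZFSet] at h1
      exact lt_of_lt_of_le h1 (le_max_left _ _)
    · exact lt_of_lt_of_le (ZFSet.rank_lt_of_mem hn) (le_max_right _ _)
  have hDI : D ∈ I := by
    refine (hI D).2 ⟨hDM, ?_⟩
    unfold rk
    rw [← hwo.toZFSet_rank_eq]
    exact Ordinal.toZFSet_mem_toZFSet_iff.2 (lt_of_le_of_lt hDr (hsucc _ (hsucc _ hmw)))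
  obtain ⟨p, hp⟩ := mem_ran.1 (hg3 hDI)
  have hpd : p ∈ ZFSet.prod A ZFSet.omega := by
    rw [← hg2]
    exact mem_dom.2 ⟨_, hp⟩
  have e : app g p = D := hg1.app_eq hp
  by_cases h : p ∈ D
  · have h' := h
    rw [hD, ZFSet.mem_sep, e] at h'
    exact h'.2 h
  · apply h
    rw [hD, ZFSet.mem_sep, e]
    exact ⟨hpd, h⟩

end Sml

theorem stmt_small : Stmt_small := Sml.stmt_small

theorem stmt_cantor : Stmt_cantor := Sml.stmt_cantor

end Pool.Agent.CTM
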