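import Pool.Agent.CTM.HierHull
import Pool.Agent.CTM.StmtsL

/-!
Proof of the constructible part (MP_ea2134_lc, module L).
-/

set_option autoImplicit false

namespace Pool.Agent.CTM

theorem stmt_L : Stmt_L := by
  refine ⟨Lx, fun N _ => DMap.Lx, ?_⟩
  obtain ⟨M, hMc, hM, hL⟩ := Hier.exists_model
  have hM' := hM
  refine ⟨M, hMc, hM, fun x hx => ?_⟩
  obtain ⟨t, ht, htr, hxt, htc⟩ := hx
  obtain ⟨β, hβ, htβ, hBM, hBc⟩ := Hier.exists_level hL ht htr htc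
  have hxβ : x ∈ slev β := hβ.isTransitive t htβ hxt
  obtain ⟨w, hw, hwo, hwm, hwc⟩ := exists_omega1 M
  by_contra hcon
  push Not at hcon
  have hHC : ∀ a ∈ w, a ∈ HC M := by
    intro a ha
    obtain ⟨h1, h2, h3⟩ := (hwm a).1 ha
    have h4 : (insert a a : V) ∈ M := by
      have : DMap M M (fun p : V => (insert p p : V)) := DMap.insert DMap.id DMap.id
      exact this.mem (γ := a) (inM_V.2 h1)
    exact ⟨insert a a, h4, (ZFSet.isOrdinal_succ h2).isTransitive, ZFSet.mem_insert _ _,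
      Cbl3.cbl_insert h1 h3⟩
  have hne : ∀ α : Ordinal.{0}, α.toZFSet ∈ w → x ≠ Lx α.toZFSet := fun α hα =>
    hcon _ (hHC _ hα) (ZFSet.isOrdinal_toZFSet α)
  have hrk : ∀ a ∈ w, ∃ α : Ordinal.{0}, a = α.toZFSet := fun a ha =>
    ⟨a.rank, ((hwm a).1 ha).2.1.toZFSet_rank_eq.symm⟩
  refine hwc (Cbl3.cbl_of_inj hw (F := Lx) DMap.Lx ?_ hBc ?_)
  · intro y hy z hz e
    obtain ⟨α, rfl⟩ := hrk y hy
    obtain ⟨δ, rfl⟩ := hrk z hz
    rw [Lx_inj e]
  · intro a ha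
    obtain ⟨α, rfl⟩ := hrk a ha
    rcases le_or_gt β α with h | h
    · refine Lx_mem_slev h hxβ fun γ hγ => hne γ ?_
      exact hwo.mem_trans (Ordinal.toZFSet_mem_toZFSet_iff.2 hγ) ha
    · exact slev_mono (Order.succ_le_of_lt h) (Lx_spec α).1

end Pool.Agent.CTM
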