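import Pool.Agent.CTM.Defs

/-!
Statements of the modules on forcing (MP_ea2134_lc). Each module proves its statement, as a theorem
of the form `theorem … : Stmt_…`.
-/

set_option autoImplicit false

namespace Pool.Agent.CTM

/-- **Module GEN.** Existence of generic filters over countable classes. -/
def Stmt_generic : Prop :=
  ∀ (M : Set V), M.Countable → ∀ P ∈ M, ∀ p ∈ P, ∅ ∈ P → ∃ G, Generic M P G ∧ p ∈ G

/-- The check name `x̌ = {(y̌, ∅) : y ∈ x}`. -/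
noncomputable def chk (x : V) : V :=
  rep x (fun y => open Classical in if _h : y ∈ x then ZFSet.pair (chk y) ∅ else ∅)
termination_by ZFSet.rank x
decreasing_by exact ZFSet.rank_lt_of_mem _h

/-- `p` forces `φ` at the names `τ`: `φ` holds in `M[G]` at the values of the names, for all
generic filters `G` that contain `p`. -/
def Frc (M : Set V) (P p : V) {n : ℕ} (φ : Fm Empty n) (τ : Fin n → V) : Prop :=
  ∀ G, Generic M P G → p ∈ G →
    φ.Sat (Ext M G) (fun x y => x ∈ y) Empty.elim (fun i => val G (τ i))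

/-- **Module FRC.** The forcing theorem: the forcing relation is definable in `M`, and everything
true in `M[G]` is forced by an element of `G`. -/
def Stmt_forcing : Prop :=
  ∀ (M : Set V) [ZFCm M], M.Countable → ∀ P ∈ M, ∅ ∈ P → ∀ (n : ℕ) (φ : Fm Empty n),
    DP M M (n + 1) (fun v => v (Fin.last n) ∈ P ∧ Frc M P (v (Fin.last n)) φ (Fin.init v)) ∧
    ∀ G, Generic M P G → ∀ τ : Fin n → V, (∀ i, τ i ∈ M) →
      φ.Sat (Ext M G) (fun x y => x ∈ y) Empty.elim (fun i => val G (τ i)) →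
      ∃ p ∈ G, Frc M P p φ τ

/-- **Module EXT.** The generic extension is a model of ZFC with the same ordinals. -/
def Stmt_ext : Prop :=
  ∀ (M : Set V) [ZFCm M], M.Countable → ∀ P ∈ M, ∅ ∈ P → ∀ G, Generic M P G →
    ZFCm (Ext M G) ∧ M ⊆ Ext M G ∧ G ∈ Ext M G ∧ (Ext M G).Countable ∧
    ∀ a ∈ Ext M G, a.IsOrdinal → a ∈ M

/-- **Module FD0.** The forcing theorem for absolute predicates `Φ`, in contexts. -/
def Stmt_forceD0 : Prop :=
  ∀ (M : Set V) [ZFCm M], M.Countable → ∀ P ∈ M, ∅ ∈ P → ∀ (Γ : Type 1) [Ctx Γ] (Φ : Γ → Prop),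
    D0 Φ →
    Dfn M M (fun q : Γ × V => q.2 ∈ P ∧ ∀ G, Generic M P G → q.2 ∈ G → Φ (valΓ G q.1)) ∧
    ∀ G, Generic M P G → ∀ γ : Γ, InM M γ → Φ (valΓ G γ) →
      ∃ p ∈ G, ∀ G', Generic M P G' → p ∈ G' → Φ (valΓ G' γ)

/-- **Module CHK.** Values of check names. -/
def Stmt_chk : Prop :=
  (∀ G x, ∅ ∈ G → val G (chk x) = x) ∧
  (∀ (A M : Set V) [ZFm M], DMap A M chk)

/-- Antichains in `P` that belong to `M` are countable in `M`. -/
def CCC (M : Set V) (P : V) : Prop :=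
  ∀ A ∈ M, A ⊆ P → (∀ p ∈ A, ∀ q ∈ A, p ≠ q → ¬ ∃ r ∈ P, p ⊆ r ∧ q ⊆ r) → Cbl M A

/-- **Module COV.** Covering lemma for ccc forcing. -/
def Stmt_cover : Prop :=
  ∀ (M : Set V) [ZFCm M], M.Countable → ∀ P ∈ M, ∅ ∈ P → CCC M P → ∀ G, Generic M P G →
    ∀ f ∈ Ext M G, ∀ Z ∈ M, ∀ Z' ∈ M, IsMap f Z Z' →
    ∃ F ∈ M, IsFn F ∧ dom F = Z ∧ ∀ z ∈ Z, app F z ⊆ Z' ∧ Cbl M (app F z) ∧ app f z ∈ app F z

/-- **Module OM1.** ccc forcing preserves uncountability of ordinals. -/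
def Stmt_omega1 : Prop :=
  ∀ (M : Set V) [ZFCm M], M.Countable → ∀ P ∈ M, ∅ ∈ P → CCC M P → ∀ G, Generic M P G →
    ∀ a ∈ M, a.IsOrdinal → Cbl (Ext M G) a → Cbl M a

/-- **Module NICE.** Nice names for subsets of `ω`. -/
def Stmt_nice : Prop :=
  ∀ (M : Set V) [ZFCm M], M.Countable → ∀ P ∈ M, ∅ ∈ P → CCC M P → ∀ G, Generic M P G →
    ∀ r ∈ Ext M G, r ⊆ ZFSet.omega → ∃ τ ∈ M, τ ⊆ ZFSet.prod ZFSet.omega P ∧ Cbl M τ ∧
      ∀ n ∈ ZFSet.omega, n ∈ r ↔ ∃ p ∈ G, ZFSet.pair n p ∈ τ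

end Pool.Agent.CTM
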