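import Pool.Agent.CTM.Base

/-!
Transitive classes, absolute (`D0`) predicates, and the rules that prove definability.

All rules for goals `Prj f`, `D0 P`, `Dfn A M P`, `DMap A M f` carry the Mathlib label `is_poly`;
such goals are closed by
`apply_rules (transparency := .reducible) (maxDepth := 999) only using is_poly`
or, with further local rules `h1`, `h2` (for instance `hf : DMap A M f → DMap A M (fun γ => F (f γ))`), by
`apply_rules (transparency := .reducible) (maxDepth := 999) only [h1, h2] using is_poly`.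
-/

set_option autoImplicit false

namespace Pool.Agent.CTM

/-- Transitive classes. -/
class TrC (M : Set V) : Prop where
  trans : ∀ {x y : V}, x ∈ M → y ∈ x → y ∈ M

section

variable {Γ Δ Θ : Type 1} [Ctx Γ] [Ctx Δ] [Ctx Θ] {A M : Set V}

/-- `f` is a projection: its components are variables. -/
def Prj (f : Γ → Δ) : Prop :=
  ∃ ρ : Fin (Ctx.n Δ) → Fin (Ctx.n Γ), ∀ γ i, Ctx.get (f γ) i = Ctx.get γ (ρ i)

/-- Absolute predicates: one formula without parameters defines `P` in all transitive classes. -/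
def D0 (P : Γ → Prop) : Prop :=
  ∃ φ : Fm Empty (Ctx.n Γ), ∀ (M : Set V) [TrC M] (γ : Γ), InM M γ →
    (φ.Sat M (fun x y => x ∈ y) Empty.elim (Ctx.get γ) ↔ P γ)

theorem Prj.id : Prj (fun γ : Γ => γ) := ⟨fun i => i, fun _ _ => rfl⟩

theorem Prj.fst {f : Γ → Δ × V} (h : Prj f) : Prj (fun γ => (f γ).1) := by
  obtain ⟨ρ, h⟩ := h
  refine ⟨fun i => ρ i.castSucc, fun γ i => ?_⟩
  rw [← h]
  simp [Ctx.get]

theorem Prj.snd {f : Γ → Δ × V} (h : Prj f) : Prj (fun γ => (f γ).2) := by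
  obtain ⟨ρ, h⟩ := h
  refine ⟨fun _ => ρ (Fin.last _), fun γ i => ?_⟩
  rw [← h]
  simp [Ctx.get]

theorem Prj.prodMk {f : Γ → Δ} {g : Γ → V} (h : Prj f) (h' : Prj g) :
    Prj (fun γ => (f γ, g γ)) := by
  obtain ⟨ρ, h⟩ := h
  obtain ⟨σ, h'⟩ := h'
  refine ⟨Fin.snoc ρ (σ 0), fun γ i => ?_⟩
  refine Fin.lastCases ?_ (fun i => ?_) i
  · rw [Fin.snoc_last, ← h']
    simp [Ctx.get]
  · rw [Fin.snoc_castSucc, ← h]
    simp [Ctx.get]

theorem Prj.comp {f : Δ → Θ} (h : Prj f) {g : Γ → Δ} (hg : Prj g) :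
    Prj (fun γ => f (g γ)) := by
  obtain ⟨ρ, h⟩ := h
  obtain ⟨σ, hg⟩ := hg
  exact ⟨fun i => σ (ρ i), fun γ i => by rw [h, hg]⟩

theorem Prj.inM {f : Γ → Δ} (h : Prj f) {γ : Γ} (hγ : InM M γ) : InM M (f γ) := by
  obtain ⟨ρ, h⟩ := h
  intro i
  rw [h]
  exact hγ _

theorem Prj.dmap {f : Γ → Δ} (h : Prj f) : DMap A M f := by
  obtain ⟨ρ, h⟩ := h
  intro i
  refine (DF.proj (ρ i)).congr fun v _ => ?_
  rw [h, Ctx.get_of]

theorem D0.dfn {P : Γ → Prop} (h : D0 P) [TrC M] : Dfn A M P := by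
  obtain ⟨φ, h⟩ := h
  refine ⟨φ.mapC Empty.elim, fun v hv => ?_⟩
  rw [Fm.sat_mapC]
  have := h M (Ctx.of v) (inM_of.2 hv)
  rw [Ctx.get_of] at this
  refine Iff.trans ?_ this
  have e : ((fun a : (A ∩ M : Set V) => a.1) ∘ Empty.elim : Empty → V) = Empty.elim := by
    funext x; exact x.elim
  rw [e]

theorem D0.congr {P Q : Γ → Prop} (h : D0 P) (e : ∀ γ, P γ ↔ Q γ) : D0 Q := by
  obtain ⟨φ, h⟩ := h
  exact ⟨φ, fun M _ γ hγ => (h M γ hγ).trans (e γ)⟩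

theorem D0.congr' {P Q : Γ → Prop} (e : ∀ γ, Q γ ↔ P γ) (h : D0 P) : D0 Q :=
  h.congr fun γ => (e γ).symm

theorem D0.not {P : Γ → Prop} (h : D0 P) : D0 (fun γ => ¬ P γ) := by
  obtain ⟨φ, h⟩ := h
  exact ⟨φ.neg, fun M _ γ hγ => not_congr (h M γ hγ)⟩

theorem D0.and {P Q : Γ → Prop} (h : D0 P) (h' : D0 Q) : D0 (fun γ => P γ ∧ Q γ) := by
  obtain ⟨φ, h⟩ := h
  obtain ⟨ψ, h'⟩ := h'
  exact ⟨φ.and ψ, fun M _ γ hγ => and_congr (h M γ hγ) (h' M γ hγ)⟩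

theorem D0.or {P Q : Γ → Prop} (h : D0 P) (h' : D0 Q) : D0 (fun γ => P γ ∨ Q γ) :=
  (h.not.and h'.not).not.congr fun γ => by tauto

theorem D0.imp {P Q : Γ → Prop} (h : D0 P) (h' : D0 Q) : D0 (fun γ => P γ → Q γ) :=
  (h.and h'.not).not.congr fun γ => by tauto

theorem D0.iff {P Q : Γ → Prop} (h : D0 P) (h' : D0 Q) : D0 (fun γ => P γ ↔ Q γ) :=
  ((h.imp h').and (h'.imp h)).congr fun γ => by tauto

theorem D0.mem {f g : Γ → V} (h : Prj f) (h' : Prj g) : D0 (fun γ => f γ ∈ g γ) := by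
  obtain ⟨ρ, h⟩ := h
  obtain ⟨σ, h'⟩ := h'
  refine ⟨.mem (.inr (ρ 0)) (.inr (σ 0)), fun M _ γ _ => ?_⟩
  show Ctx.get γ (ρ 0) ∈ Ctx.get γ (σ 0) ↔ _
  rw [← h, ← h']
  rfl

theorem D0.eq {f g : Γ → V} (h : Prj f) (h' : Prj g) : D0 (fun γ => f γ = g γ) := by
  obtain ⟨ρ, h⟩ := h
  obtain ⟨σ, h'⟩ := h'
  refine ⟨.eq (.inr (ρ 0)) (.inr (σ 0)), fun M _ γ _ => ?_⟩
  show Ctx.get γ (ρ 0) = Ctx.get γ (σ 0) ↔ _
  rw [← h, ← h']
  rfl

theorem D0.all_mem {f : Γ → V} {P : Γ → V → Prop} (hf : Prj f)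
    (h : D0 (fun p : Γ × V => P p.1 p.2)) : D0 (fun γ => ∀ x ∈ f γ, P γ x) := by
  obtain ⟨φ, h⟩ := h
  obtain ⟨ψ, h'⟩ := D0.mem (Γ := Γ × V) (Prj.snd Prj.id) (hf.comp (Prj.fst Prj.id))
  refine ⟨.all ((ψ.and φ.neg).neg), fun M _ γ hγ => ?_⟩
  have hfM : f γ ∈ M := inM_V.1 (hf.inM hγ)
  have key : ∀ x ∈ M, (((ψ.and φ.neg).neg).Sat M (fun x y => x ∈ y) Empty.elim
      (Fin.snoc (Ctx.get γ) x) ↔ (x ∈ f γ → P γ x)) := by
    intro x hx
    have hp : InM M ((γ, x) : Γ × V) := inM_prod.2 ⟨hγ, hx⟩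
    have e1 := h M (γ, x) hp
    have e2 := h' M (γ, x) hp
    show ¬ (_ ∧ ¬ _) ↔ _
    rw [not_and, not_not]
    exact imp_congr e2 e1
  constructor
  · intro H x hx
    have hxM : x ∈ M := TrC.trans hfM hx
    exact (key x hxM).1 (H x hxM) hx
  · intro H x hx
    exact (key x hx).2 (H x)

theorem D0.ex_mem {f : Γ → V} {P : Γ → V → Prop} (hf : Prj f)
    (h : D0 (fun p : Γ × V => P p.1 p.2)) : D0 (fun γ => ∃ x ∈ f γ, P γ x) :=
  (D0.all_mem (P := fun γ x => ¬ P γ x) hf h.not).not.congr fun γ => by push Not; rfl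

theorem D0.comp {P : Δ → Prop} (h : D0 P) {g : Γ → Δ} (hg : Prj g) :
    D0 (fun γ => P (g γ)) := by
  obtain ⟨φ, h⟩ := h
  have hg' := hg
  obtain ⟨ρ, hg⟩ := hg
  refine ⟨φ.ren ρ, fun M _ γ hγ => ?_⟩
  rw [Fm.sat_ren]
  refine Iff.trans ?_ (h M (g γ) (hg'.inM hγ))
  have : Ctx.get γ ∘ ρ = Ctx.get (g γ) := by funext i; exact (hg γ i).symm
  rw [this]

theorem D0.subset {f g : Γ → V} (h : Prj f) (h' : Prj g) : D0 (fun γ => f γ ⊆ g γ) :=
  (D0.all_mem (P := fun γ x => x ∈ g γ) h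
    (D0.mem (Prj.snd Prj.id) (h'.comp (Prj.fst Prj.id)))).congr fun _ => Iff.rfl

theorem D0.true : D0 (fun _ : Γ => True) := by
  refine ⟨.all (.eq (.inr (Fin.last _)) (.inr (Fin.last _))), fun M _ γ _ => ?_⟩
  simp [Fm.Sat]

theorem D0.const {p : Prop} : D0 (fun _ : Γ => p) := by
  by_cases h : p
  · exact D0.true.congr fun _ => by simp [h]
  · exact D0.true.not.congr fun _ => by simp [h]

/-! ### Definable predicates in transitive classes -/

theorem Dfn.all_mem [TrC M] {f : Γ → V} {P : Γ → V → Prop} (hf : DMap A M f)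
    (h : Dfn A M (fun p : Γ × V => P p.1 p.2)) : Dfn A M (fun γ => ∀ x ∈ f γ, P γ x) := by
  refine (Dfn.all (P := fun γ x => x ∈ f γ → P γ x) (Dfn.imp (Dfn.mem (DMap.snd DMap.id)
    (hf.comp (DMap.fst DMap.id))) h)).congr fun γ hγ => ?_
  exact ⟨fun H x hx => H x (TrC.trans (hf.mem hγ) hx) hx, fun H x _ => H x⟩

theorem Dfn.ex_mem [TrC M] {f : Γ → V} {P : Γ → V → Prop} (hf : DMap A M f)
    (h : Dfn A M (fun p : Γ × V => P p.1 p.2)) : Dfn A M (fun γ => ∃ x ∈ f γ, P γ x) :=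
  (Dfn.all_mem (P := fun γ x => ¬ P γ x) hf h.not).not.congr fun γ _ => by push Not; rfl

theorem Dfn.subset [TrC M] {f g : Γ → V} (h : DMap A M f) (h' : DMap A M g) :
    Dfn A M (fun γ => f γ ⊆ g γ) :=
  (Dfn.all_mem (P := fun γ x => x ∈ g γ) h
    (Dfn.mem (DMap.snd DMap.id) (h'.comp (DMap.fst DMap.id)))).congr fun _ _ => Iff.rfl

end


/-- Projections, as a type class: it guards the rule for equality. -/
class IsPrj {Γ Δ : Type 1} [Ctx Γ] [Ctx Δ] (f : Γ → Δ) : Prop where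
  out : Prj f

section

variable {Γ Δ : Type 1} [Ctx Γ] [Ctx Δ]

instance IsPrj.id : IsPrj (fun γ : Γ => γ) := ⟨Prj.id⟩
instance IsPrj.fst {f : Γ → Δ × V} [h : IsPrj f] : IsPrj (fun γ => (f γ).1) := ⟨h.out.fst⟩
instance IsPrj.snd {f : Γ → Δ × V} [h : IsPrj f] : IsPrj (fun γ => (f γ).2) := ⟨h.out.snd⟩
instance IsPrj.prodMk {f : Γ → Δ} {g : Γ → V} [h : IsPrj f] [h' : IsPrj g] :
    IsPrj (fun γ => (f γ, g γ)) := ⟨h.out.prodMk h'.out⟩

theorem D0.eqI {f g : Γ → V} [h : IsPrj f] [h' : IsPrj g] : D0 (fun γ => f γ = g γ) :=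
  D0.eq h.out h'.out

end

attribute [is_poly] D0.const D0.not D0.and D0.or D0.imp D0.iff D0.subset D0.eqI D0.mem D0.ex_mem D0.all_mem
attribute [is_poly] Prj.id Prj.snd Prj.fst Prj.prodMk
attribute [is_poly] Dfn.const Dfn.not Dfn.and Dfn.or Dfn.imp Dfn.iff Dfn.subset Dfn.eq Dfn.mem Dfn.ex Dfn.all Dfn.ex_mem Dfn.all_mem
attribute [is_poly] DMap.id DMap.snd DMap.fst DMap.prodMk

/-! ### Ordered pairs -/

section

variable {Γ : Type 1} [Ctx Γ]

theorem D0.isUPair {f g h : Γ → V} (hf : Prj f) (hg : Prj g) (hh : Prj h) :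
    D0 (fun γ => f γ = {g γ, h γ}) := by
  have : D0 (fun p : (V × V) × V => p.1.1 = {p.1.2, p.2}) := by
    refine D0.congr' (P := fun p : (V × V) × V => (∀ z ∈ p.1.1, z = p.1.2 ∨ z = p.2) ∧
      p.1.2 ∈ p.1.1 ∧ p.2 ∈ p.1.1) (fun p => ?_) (by apply_rules (transparency := .reducible) (maxDepth := 999) only using is_poly)
    constructor
    · intro e
      rw [e]
      refine ⟨fun z hz => ?_, ?_, ?_⟩
      · simpa using hz
      · simp
      · simp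
    · rintro ⟨h1, h2, h3⟩
      ext z
      simp only [ZFSet.mem_pair]
      constructor
      · exact h1 z
      · rintro (rfl | rfl)
        · exact h2
        · exact h3
  exact this.comp (((hf.prodMk hg).prodMk hh))

theorem D0.isSing {f g : Γ → V} (hf : Prj f) (hg : Prj g) : D0 (fun γ => f γ = {g γ}) :=
  (D0.isUPair hf hg hg).congr fun γ => by rw [ZFSet.pair_eq_singleton]

attribute [is_poly] D0.isUPair D0.isSing

theorem D0.isPair {f g h : Γ → V} (hf : Prj f) (hg : Prj g) (hh : Prj h) :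
    D0 (fun γ => f γ = ZFSet.pair (g γ) (h γ)) := by
  have : D0 (fun p : (V × V) × V => p.1.1 = ZFSet.pair p.1.2 p.2) := by
    refine D0.congr' (P := fun p : (V × V) × V => ∃ a ∈ p.1.1, ∃ b ∈ p.1.1,
      a = {p.1.2} ∧ b = {p.1.2, p.2} ∧ p.1.1 = {a, b}) (fun p => ?_) (by apply_rules (transparency := .reducible) (maxDepth := 999) only using is_poly)
    constructor
    · intro e
      refine ⟨{p.1.2}, ?_, {p.1.2, p.2}, ?_, rfl, rfl, e⟩
      · rw [e]; simp [ZFSet.pair]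
      · rw [e]; simp [ZFSet.pair]
    · rintro ⟨a, _, b, _, rfl, rfl, e⟩
      exact e
  exact this.comp (((hf.prodMk hg).prodMk hh))

attribute [is_poly] D0.isPair

example : D0 (fun p : (V × V) × V => ∃ q ∈ p.1.1, q = ZFSet.pair p.1.2 p.2 ∧
    ∀ x ∈ q, x ∈ p.2 → ¬ x ⊆ q) := by apply_rules (transparency := .reducible) (maxDepth := 999) only using is_poly

end

end Pool.Agent.CTM
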