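import Pool.Agent.CTM.Root
import Pool.Agent.CTM.PosDefs

/-!
Tokens: projections as definable functions, countable sets of tokens (MP_ea2134_lc, for the
thinning lemma).
-/

set_option autoImplicit false

namespace Pool.Agent.CTM

/-- First projection. -/
noncomputable def pi1 (p : V) : V := ZFSet.sUnion (dom {p})

/-- Second projection. -/
noncomputable def pi2 (p : V) : V := ZFSet.sUnion (ran {p})

@[simp] theorem pi1_pair (x y : V) : pi1 (ZFSet.pair x y) = x := by
  have : dom ({ZFSet.pair x y} : V) = {x} := by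
    ext z
    rw [mem_dom, ZFSet.mem_singleton]
    constructor
    · rintro ⟨w, hw⟩
      exact (ZFSet.pair_injective (ZFSet.mem_singleton.1 hw)).1
    · rintro rfl
      exact ⟨y, ZFSet.mem_singleton.2 rfl⟩
  rw [pi1, this, ZFSet.sUnion_singleton]

@[simp] theorem pi2_pair (x y : V) : pi2 (ZFSet.pair x y) = y := by
  have : ran ({ZFSet.pair x y} : V) = {y} := by
    ext z
    rw [mem_ran, ZFSet.mem_singleton]
    constructor
    · rintro ⟨w, hw⟩
      exact (ZFSet.pair_injective (ZFSet.mem_singleton.1 hw)).2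
    · rintro rfl
      exact ⟨x, ZFSet.mem_singleton.2 rfl⟩
  rw [pi2, this, ZFSet.sUnion_singleton]

/-- The kind of a token. -/
noncomputable def tkind (t : V) : V := pi1 t

/-- The index of a token. -/
noncomputable def tidx (t : V) : V := pi1 (pi2 t)

/-- The third component of a token. -/
noncomputable def tpt (t : V) : V := pi1 (pi2 (pi2 t))

/-- The last component of a token. -/
noncomputable def thgt (t : V) : V := pi2 (pi2 (pi2 t))

section

variable {Γ : Type 1} [Ctx Γ] {A M : Set V} [ZFm M]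

theorem DMap.pi1 {f : Γ → V} (hf : DMap A M f) : DMap A M (fun γ => pi1 (f γ)) :=
  DMap.sUnion (DMap.dom (DMap.sing hf))

theorem DMap.pi2 {f : Γ → V} (hf : DMap A M f) : DMap A M (fun γ => pi2 (f γ)) :=
  DMap.sUnion (DMap.ran (DMap.sing hf))

theorem DMap.tkind {f : Γ → V} (hf : DMap A M f) : DMap A M (fun γ => tkind (f γ)) := hf.pi1

theorem DMap.tidx {f : Γ → V} (hf : DMap A M f) : DMap A M (fun γ => tidx (f γ)) := hf.pi2.pi1

theorem DMap.tpt {f : Γ → V} (hf : DMap A M f) : DMap A M (fun γ => tpt (f γ)) := hf.pi2.pi2.pi1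

theorem DMap.thgt {f : Γ → V} (hf : DMap A M f) : DMap A M (fun γ => thgt (f γ)) := hf.pi2.pi2.pi2

end

@[simp] theorem tkind_tC (i n ε : V) : tkind (tC i n ε) = nn 0 := pi1_pair _ _
@[simp] theorem tkind_tD (i s ε : V) : tkind (tD i s ε) = nn 1 := pi1_pair _ _
@[simp] theorem tkind_tR (i x m : V) : tkind (tR i x m) = nn 2 := pi1_pair _ _
@[simp] theorem tidx_tC (i n ε : V) : tidx (tC i n ε) = i := by simp [tidx, tC]
@[simp] theorem tidx_tD (i s ε : V) : tidx (tD i s ε) = i := by simp [tidx, tD]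
@[simp] theorem tidx_tR (i x m : V) : tidx (tR i x m) = i := by simp [tidx, tR]
@[simp] theorem tpt_tR (i x m : V) : tpt (tR i x m) = x := by simp [tpt, tR]
@[simp] theorem thgt_tR (i x m : V) : thgt (tR i x m) = m := by simp [thgt, tR]

theorem nn0_ne_nn2 : nn 0 ≠ nn 2 := fun h => by simpa using nn_inj h
theorem nn1_ne_nn2 : nn 1 ≠ nn 2 := fun h => by simpa using nn_inj h

/-- The value of the point `y`. -/
noncomputable def kf (Kap : V → V → Prop) (y : V) : V :=
  open Classical in if h : ∃ k, Kap y k then h.choose else ∅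

/-- The value of `y`, with `U` replaced by the set of its elements that are subsets of `l`. -/
noncomputable def red (Kap : V → V → Prop) (y : V) : V :=
  ZFSet.pair (pi1 (pi1 (kf Kap y)))
    (ZFSet.sep (fun u => u ⊆ pi1 (pi1 (kf Kap y))) (pi2 (pi1 (kf Kap y))))

section

variable {M : Set V} [ZFCm M] {w I e : V} {Kap : V → V → Prop}

theorem HC_sub {x : V} (h : x ∈ HC M) : x ∈ M := by
  obtain ⟨t, ht, _, hx, _⟩ := h
  exact TrC.trans ht hx

omit [ZFCm M] in
theorem Setup.kf_eq (hs : Setup M w I e Kap) {y k : V} (h : Kap y k) : kf Kap y = k := by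
  have h1 : ∃ k, Kap y k := ⟨k, h⟩
  rw [kf, dif_pos h1]
  exact hs.kap_fun _ _ _ h1.choose_spec h

theorem Setup.dmap_kf (hs : Setup M w I e Kap) : DMap M M (kf Kap) := by
  refine DMap.of_graph (fun y _ => ?_) ?_
  · by_cases h : ∃ k, Kap y k
    · obtain ⟨k, hk⟩ := h
      rw [hs.kf_eq hk]
      exact HC_sub (hs.kap_real _ _ hk).2.2
    · rw [kf, dif_neg h]
      exact DMap.mem (Γ := PUnit) (γ := PUnit.unit) (A := M) DMap.empty inM_unit
  · have h1 : Dfn M M (fun p : V × V => Kap p.1 p.2 ∨ (¬ (∃ k ∈ M, Kap p.1 k) ∧ p.2 = ∅)) := by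
      have hk : ∀ {Γ : Type 1} [Ctx Γ] {f g : Γ → V}, DMap M M f → DMap M M g →
          Dfn M M (fun γ => Kap (f γ) (g γ)) := fun h h' => hs.kap_dfn.comp (h.prodMk h')
      apply_rules (transparency := .reducible) (maxDepth := 999) only [hk] using is_poly
    refine h1.congr fun p _ => ?_
    constructor
    · rintro (h | ⟨h, h'⟩)
      · exact (hs.kf_eq h).symm
      · rw [kf, dif_neg, h']
        rintro ⟨k, hk⟩
        exact h ⟨k, HC_sub (hs.kap_real _ _ hk).2.2, hk⟩
    · intro h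
      by_cases h1 : ∃ k, Kap p.1 k
      · left
        rw [h, kf, dif_pos h1]
        exact h1.choose_spec
      · right
        refine ⟨fun ⟨k, _, hk⟩ => h1 ⟨k, hk⟩, ?_⟩
        rw [h, kf, dif_neg h1]

theorem Setup.dmap_red (hs : Setup M w I e Kap) : DMap M M (red Kap) := by
  have hk : ∀ {Γ : Type 1} [Ctx Γ] {f : Γ → V}, DMap M M f →
      DMap M M (fun γ => kf Kap (f γ)) := fun h => hs.dmap_kf.comp h
  unfold red
  apply_rules (transparency := .reducible) (maxDepth := 999) only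
    [hk, DMap.pi1, DMap.pi2] using is_poly

omit [ZFCm M] in
theorem Setup.red_eq (hs : Setup M w I e Kap) {y l U a : V} (h : Kap y (kv l U a)) :
    red Kap y = ZFSet.pair l (ZFSet.sep (fun u => u ⊆ l) U) := by
  have h1 : pi1 (kf Kap y) = ZFSet.pair l U := by rw [hs.kf_eq h, kv, pi1_pair]
  rw [red, h1, pi1_pair, pi2_pair]

end

/-! ### Finiteness -/

theorem finite_nn (n : ℕ) : {y | y ∈ nn n}.Finite := by
  have : {y | y ∈ nn n} ⊆ (nn '' {m | m < n}) := by
    intro y hy
    obtain ⟨m, hm, rfl⟩ := mem_nn.1 hy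
    exact ⟨m, hm, rfl⟩
  exact ((Set.finite_lt_nat n).image nn).subset this

theorem finite_of_sub {x y : V} (h : x ⊆ y) (hy : {z | z ∈ y}.Finite) : {z | z ∈ x}.Finite :=
  hy.subset fun _ hz => h hz

theorem finite_subsets {y : V} (hy : {z | z ∈ y}.Finite) : {x | x ⊆ y}.Finite := by
  refine Set.Finite.of_finite_image (f := fun x : V => {z | z ∈ x}) ?_ ?_
  · refine hy.finite_subsets.subset ?_
    rintro _ ⟨x, hx, rfl⟩
    exact fun z hz => hx hz
  · intro x _ x' _ h
    ext z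
    exact Set.ext_iff.1 h z

theorem omega_fin {m : V} (h : m ∈ ZFSet.omega) : {z | z ∈ m}.Finite := by
  obtain ⟨n, rfl⟩ := mem_omega.1 h
  exact finite_nn n

theorem omega_sub {m : V} (h : m ∈ ZFSet.omega) : m ⊆ ZFSet.omega := by
  obtain ⟨n, rfl⟩ := mem_omega.1 h
  intro x hx
  obtain ⟨k, _, rfl⟩ := mem_nn.1 hx
  exact nn_mem_omega k

theorem sub_mem_FinP {u m : V} (h : u ⊆ m) (hm : m ∈ ZFSet.omega) : u ∈ FinP ZFSet.omega :=
  mem_FinP.2 ⟨fun _ hx => omega_sub hm (h hx), finite_of_sub h (omega_fin hm)⟩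

theorem finite_rep {a : V} {F : V → V} (h : {z | z ∈ a}.Finite) : {z | z ∈ rep a F}.Finite := by
  refine (h.image F).subset fun z hz => ?_
  obtain ⟨x, hx, rfl⟩ := mem_rep.1 hz
  exact ⟨x, hx, rfl⟩

/-- A finite set of reals is separated by a natural number. -/
theorem exists_sep {S : Set V} (hS : S.Finite) (h : ∀ y ∈ S, y ⊆ ZFSet.omega) :
    ∃ H : ℕ, ∀ y ∈ S, ∀ y' ∈ S, y ∩ nn H = y' ∩ nn H → y = y' := by
  classical
  have key : ∀ p : V × V, ∃ k : ℕ, p.1 ∈ S → p.2 ∈ S → p.1 ∩ nn k = p.2 ∩ nn k → p.1 = p.2 := by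
    rintro ⟨y, y'⟩
    by_cases hyy : y ∈ S ∧ y' ∈ S ∧ y ≠ y'
    · obtain ⟨h1, h2, h3⟩ := hyy
      obtain ⟨z, hz⟩ : ∃ z, ¬ (z ∈ y ↔ z ∈ y') := by
        by_contra hcon
        push Not at hcon
        exact h3 (ZFSet.ext hcon)
      have hzo : z ∈ ZFSet.omega := by
        by_cases hzy : z ∈ y
        · exact h _ h1 hzy
        · have : z ∈ y' := by tauto
          exact h _ h2 this
      obtain ⟨k, rfl⟩ := mem_omega.1 hzo
      refine ⟨k + 1, fun _ _ heq => ?_⟩
      exfalso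
      apply hz
      have hk : nn k ∈ nn (k + 1) := nn_mem_nn.2 (Nat.lt_succ_self k)
      have := ZFSet.ext_iff.1 heq (nn k)
      simp only [ZFSet.mem_inter, hk, and_true] at this
      exact this
    · refine ⟨0, fun h1 h2 _ => ?_⟩
      by_contra h3
      exact hyy ⟨h1, h2, h3⟩
  choose f hf using key
  obtain ⟨K, hK⟩ := ((hS.prod hS).image f).bddAbove
  refine ⟨K, fun y hy y' hy' heq => ?_⟩
  have hle : f (y, y') ≤ K := hK ⟨(y, y'), ⟨hy, hy'⟩, rfl⟩
  refine hf (y, y') hy hy' ?_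
  have hsub : nn (f (y, y')) ⊆ nn K := nn_sub_nn.2 hle
  have e1 : ∀ x : V, x ∩ nn (f (y, y')) = (x ∩ nn K) ∩ nn (f (y, y')) := by
    intro x
    ext z
    simp only [ZFSet.mem_inter]
    constructor
    · rintro ⟨h1, h2⟩
      exact ⟨⟨h1, hsub h2⟩, h2⟩
    · rintro ⟨⟨h1, _⟩, h2⟩
      exact ⟨h1, h2⟩
  simp only
  rw [e1 y, e1 y', heq]

end Pool.Agent.CTM
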