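import Pool.Agent.CTM.CovA
import Pool.Agent.CTM.SOADefs

/-!
Module TYP (MP_ea2134_lc): a point that is in no element of a given countable family of small sets
(König's diagonal argument inside a model of ZFC).
-/

set_option autoImplicit false

namespace Pool.Agent.CTM

namespace Typ

theorem mem_RZ {N : Set V} {x : V} : x ∈ RZ N ↔ x ⊆ ZFSet.omega ∧ x ∈ N := by
  unfold RZ
  rw [ZFSet.mem_sep, ZFSet.mem_powerset]

/-- The `k`-th column of `r`, with respect to the enumeration `g` of `ω × ω`. -/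
noncomputable def col (g r k : V) : V :=
  ZFSet.sep (fun n => ∃ m ∈ r, app g m = ZFSet.pair k n) ZFSet.omega

end Typ

open Typ in
/-- **Module TYP.** -/
theorem stmt_typical : Stmt_typical := by
  intro N _ I hI c hc hcm hci hs D hD hDc
  obtain ⟨s, hs, hsf, hsd, hsr⟩ := hs
  obtain ⟨e, he, hef, hed, heD⟩ := hDc
  by_contra hcon
  push Not at hcon
  obtain ⟨g, hg, hgf, hgd, hgr⟩ := Cov.cbl_prod (M := N)
  have hR : RZ N ∈ N := ZFCm.power_mem ZFm.omega_mem
  have hRN : ∀ r ∈ RZ N, r ∈ N := fun r hr => (mem_RZ.1 hr).2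
  -- a right inverse of `s`
  obtain ⟨E, hE, hE1⟩ := Cov.choose_from (M := N) (Γ := V) (Q := fun r i => app s i = r)
    (by apply_rules (transparency := .reducible) (maxDepth := 999) only [DMap.const hs hs]
      using is_poly) hI
  have hE2 : ∀ r ∈ RZ N, E r ∈ I ∧ app s (E r) = r := by
    intro r hr
    obtain ⟨i, hi⟩ := mem_ran.1 (hsr hr)
    exact hE1 r (inM_V.2 (hRN r hr)) ⟨i, hsd ▸ mem_dom.2 ⟨r, hi⟩, hsf.app_eq hi⟩
  have hE' : ∀ {Δ : Type 1} [Ctx Δ] {f : Δ → V}, DMap N N f → DMap N N (fun γ => E (f γ)) :=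
    fun h => hE.comp h
  have hcol : ∀ {Δ : Type 1} [Ctx Δ] {f f' : Δ → V}, DMap N N f → DMap N N f' →
      DMap N N (fun γ => col g (f γ) (f' γ)) := by
    intro Δ _ f f' hf hf'
    have h : DMap N N (fun p : V × V => col g p.1 p.2) := by
      unfold col
      apply_rules (transparency := .reducible) (maxDepth := 999) only
        [DMap.const ZFm.omega_mem ZFm.omega_mem, DMap.const hg hg] using is_poly
    exact h.comp (hf.prodMk hf')
  -- claim 1
  have h1 : ∀ k ∈ (ZFSet.omega : V), (∀ f ∈ N, IsMap f (RZ N) (app e k) → ¬ IsInjF f) →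
      ∃ t ∈ RZ N, ∀ r ∈ RZ N, app c (E r) ∈ app e k → col g r k ≠ t := by
    intro k hk hsm
    have hkN : k ∈ N := TrC.trans ZFm.omega_mem hk
    by_contra hne
    push Not at hne
    obtain ⟨F, hF, hF1⟩ := Cov.choose_from (M := N) (Γ := V)
      (Q := fun t r => app c (E r) ∈ app e k ∧ col g r k = t)
      (by apply_rules (transparency := .reducible) (maxDepth := 999) only
        [DMap.const hc hc, DMap.const he he, DMap.const hkN hkN, hE', hcol] using is_poly) hR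
    have hF2 : ∀ t ∈ RZ N, F t ∈ RZ N ∧ app c (E (F t)) ∈ app e k ∧ col g (F t) k = t := by
      intro t ht
      obtain ⟨r, hr, h2, h3⟩ := hne t ht
      exact hF1 t (inM_V.2 (hRN t ht)) ⟨r, hr, h2, h3⟩
    have hF' : ∀ {Δ : Type 1} [Ctx Δ] {f : Δ → V}, DMap N N f → DMap N N (fun γ => F (f γ)) :=
      fun h => hF.comp h
    refine hsm (gr (fun t => app c (E (F t))) (RZ N)) (Cov.gr_mem (A := N) ?_ hR)
      ⟨Cov.isFn_gr _ _, Cov.dom_gr _ _, ?_⟩ ?_
    · apply_rules (transparency := .reducible) (maxDepth := 999) only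
        [DMap.const hc hc, hE', hF'] using is_poly
    · intro t ht
      rw [Cov.app_gr _ ht]
      exact (hF2 t ht).2.1
    · intro x hx y hy hxy
      rw [Cov.dom_gr] at hx hy
      rw [Cov.app_gr _ hx, Cov.app_gr _ hy] at hxy
      obtain ⟨hx1, _, hx3⟩ := hF2 x hx
      obtain ⟨hy1, _, hy3⟩ := hF2 y hy
      have h2 : E (F x) = E (F y) :=
        hci _ (hcm.2.1 ▸ (hE2 _ hx1).1) _ (hcm.2.1 ▸ (hE2 _ hy1).1) hxy
      have h3 : F x = F y := by
        rw [← (hE2 _ hx1).2, ← (hE2 _ hy1).2, h2]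
      rw [← hx3, ← hy3, h3]
  -- the diagonal
  obtain ⟨T, hT, hT1⟩ := Cov.choose_from (M := N) (Γ := V)
    (Q := fun k t => ∀ r ∈ RZ N, app c (E r) ∈ app e k → ¬ col g r k = t)
    (by apply_rules (transparency := .reducible) (maxDepth := 999) only
      [DMap.const hR hR, DMap.const hc hc, DMap.const he he, hE', hcol] using is_poly) hR
  have hT' : ∀ {Δ : Type 1} [Ctx Δ] {f : Δ → V}, DMap N N f → DMap N N (fun γ => T (f γ)) :=
    fun h => hT.comp h
  set r : V := ZFSet.sep (fun m => ∃ k ∈ (ZFSet.omega : V), ∃ n ∈ (ZFSet.omega : V),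
    app g m = ZFSet.pair k n ∧ n ∈ T k) ZFSet.omega with hr
  have hrN : r ∈ N := by
    rw [hr]
    refine ZFm.sep_mem ?_ ZFm.omega_mem
    apply_rules (transparency := .reducible) (maxDepth := 999) only
      [DMap.const ZFm.omega_mem ZFm.omega_mem, DMap.const hg hg, hT'] using is_poly
  have hrR : r ∈ RZ N := mem_RZ.2 ⟨fun m hm => (ZFSet.mem_sep.1 hm).1, hrN⟩
  obtain ⟨hi, _⟩ := hE2 r hrR
  obtain ⟨d, hd, hcd, hsm⟩ := hcon _ hi
  obtain ⟨k, hk⟩ := mem_ran.1 (heD hd)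
  have hkω : k ∈ (ZFSet.omega : V) := hed ▸ mem_dom.2 ⟨d, hk⟩
  have hek : app e k = d := hef.app_eq hk
  have hkN : k ∈ N := TrC.trans ZFm.omega_mem hkω
  obtain ⟨hTk, hTk'⟩ := hT1 k (inM_V.2 hkN) (h1 k hkω (by rw [hek]; exact hsm))
  refine hTk' r hrR (by rw [hek]; exact hcd) ?_
  ext n
  unfold col
  rw [ZFSet.mem_sep]
  constructor
  · rintro ⟨_, m, hm, hmn⟩
    obtain ⟨_, k', _, n', _, h2, h3⟩ := ZFSet.mem_sep.1 hm
    rw [hmn] at h2
    obtain ⟨rfl, rfl⟩ := ZFSet.pair_injective h2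
    exact h3
  · intro hn
    have hnω : n ∈ (ZFSet.omega : V) := (mem_RZ.1 hTk).1 hn
    obtain ⟨m, hm⟩ := mem_ran.1 (hgr (ZFSet.pair_mem_prod.2 ⟨hkω, hnω⟩))
    have hmn : app g m = ZFSet.pair k n := hgf.app_eq hm
    have hmω : m ∈ (ZFSet.omega : V) := hgd ▸ mem_dom.2 ⟨_, hm⟩
    exact ⟨hnω, m, ZFSet.mem_sep.2 ⟨hmω, k, hkω, n, hnω, hmn, hn⟩, hmn⟩

end Pool.Agent.CTM
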