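import Pool.Agent.CTM.Tac

/-!
Transitive classes that satisfy ZF without power sets, and basic definable functions.
-/

set_option autoImplicit false

namespace Pool.Agent.CTM

/-- Transitive classes that are models of ZF without power sets (with collection). -/
class ZFm (M : Set V) : Prop extends TrC M where
  empty_mem : (∅ : V) ∈ M
  upair_mem : ∀ {x y : V}, x ∈ M → y ∈ M → ({x, y} : V) ∈ M
  sUnion_mem : ∀ {x : V}, x ∈ M → (ZFSet.sUnion x : V) ∈ M
  omega_mem : (ZFSet.omega : V) ∈ M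
  sep_mem : ∀ {P : V → Prop}, Dfn M M P → ∀ {a : V}, a ∈ M → ZFSet.sep P a ∈ M
  coll : ∀ {P : V → V → Prop}, Dfn M M (fun p : V × V => P p.1 p.2) → ∀ {a : V}, a ∈ M →
    (∀ x ∈ a, ∃ y ∈ M, P x y) → ∃ b ∈ M, ∀ x ∈ a, ∃ y ∈ b, P x y

/-- The set of all `F x` with `x ∈ a`. -/
noncomputable def rep (a : V) (F : V → V) : V := ZFSet.range (fun y : Shrink.{0} a =>
  F ((equivShrink a).symm y).1)

@[simp] theorem mem_rep {a : V} {F : V → V} {z : V} : z ∈ rep a F ↔ ∃ x ∈ a, F x = z := by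
  unfold rep
  rw [ZFSet.mem_range]
  constructor
  · rintro ⟨y, rfl⟩
    exact ⟨_, ((equivShrink a).symm y).2, rfl⟩
  · rintro ⟨x, hx, rfl⟩
    exact ⟨equivShrink a ⟨x, hx⟩, by simp⟩

section

variable {Γ Δ : Type 1} [Ctx Γ] [Ctx Δ] {A M : Set V}

theorem DMap.constΓ {γ : Δ} (h : InM A γ) (h' : InM M γ) : DMap A M (fun _ : Γ => γ) := by
  intro i
  exact (DMap.const (Γ := Γ) (h i) (h' i)) 0

theorem Dfn.inst {P : Γ × V → Prop} (h : Dfn A M P) {γ : Γ} (hγ : InM M γ) :
    Dfn (A ∪ M) M (fun z : V => P (γ, z)) := by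
  have h1 : DMap (A ∪ M) M (fun z : V => (γ, z)) :=
    DMap.prodMk (DMap.constΓ (fun i => Or.inr (hγ i)) hγ) DMap.id
  exact (h.mono Set.subset_union_left).comp h1

theorem Dfn.inter (P : Γ → Prop) : Dfn (A ∩ M) M P ↔ Dfn A M P := by
  refine ⟨Dfn.mono Set.inter_subset_left, ?_⟩
  rintro ⟨φ, h⟩
  refine ⟨φ.mapC (fun a => ⟨a.1, a.2, a.2.2⟩), fun v hv => ?_⟩
  rw [Fm.sat_mapC]
  exact h v hv

theorem Dfn.toM {P : Γ → Prop} (h : Dfn A M P) : Dfn M M P :=
  ((Dfn.inter P).2 h).mono Set.inter_subset_right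

variable [ZFm M]

theorem ZFm.sep_mem' {P : V → Prop} (h : Dfn A M P) {a : V} (ha : a ∈ M) : ZFSet.sep P a ∈ M :=
  ZFm.sep_mem h.toM ha

/-- A definable function on a set has its image in `M`. -/
theorem ZFm.rep_mem {F : V → V} (h : DMap A M F) {a : V} (ha : a ∈ M) : rep a F ∈ M := by
  obtain ⟨b, hb, h1⟩ := ZFm.coll (P := fun x y => y = F x) h.graph.toM ha
    (fun x hx => ⟨F x, h.mem (inM_V.2 (TrC.trans ha hx)), rfl⟩)
  have h2 : Dfn M M (fun z : V => ∃ x ∈ a, F x = z) := by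
    have hF : DMap M M F := fun i => ⟨(h i).1, Dfn.toM (Γ := V × V) (P := fun p => p.2 = F p.1) h.graph⟩
    refine Dfn.ex_mem (DMap.const ha ha) ?_
    refine Dfn.eq (hF.comp (DMap.snd DMap.id)) (DMap.fst DMap.id)
  have h3 := ZFm.sep_mem h2 hb
  have h4 : ZFSet.sep (fun z => ∃ x ∈ a, F x = z) b = rep a F := by
    ext z
    rw [ZFSet.mem_sep, mem_rep]
    constructor
    · exact fun h => h.2
    · rintro ⟨x, hx, rfl⟩
      obtain ⟨y, hy, rfl⟩ := h1 x hx
      exact ⟨hy, x, hx, rfl⟩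
  rwa [← h4]

/-- Comprehension terms are definable. -/
theorem DMap.sep {a : Γ → V} {P : Γ → V → Prop} (ha : DMap A M a)
    (h : Dfn A M (fun p : Γ × V => P p.1 p.2)) : DMap A M (fun γ => ZFSet.sep (P γ) (a γ)) := by
  refine DMap.of_graph (fun γ hγ => ZFm.sep_mem' (h.inst hγ) (ha.mem hγ)) ?_
  refine Dfn.congr' (P := fun p : Γ × V => (∀ z ∈ p.2, z ∈ a p.1 ∧ P p.1 z) ∧
    ∀ z ∈ a p.1, P p.1 z → z ∈ p.2) (fun p _ => ?_) ?_
  · constructor
    · intro e
      rw [e]
      refine ⟨fun z hz => ZFSet.mem_sep.1 hz, fun z hz h => ZFSet.mem_sep.2 ⟨hz, h⟩⟩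
    · rintro ⟨h1, h2⟩
      ext z
      rw [ZFSet.mem_sep]
      exact ⟨h1 z, fun h => h2 z h.1 h.2⟩
  · have h' : Dfn A M (fun q : (Γ × V) × V => P q.1.1 q.2) := h.comp
      (DMap.prodMk (DMap.fst (DMap.fst DMap.id)) (DMap.snd DMap.id))
    have ha' : DMap A M (fun q : Γ × V => a q.1) := ha.comp (DMap.fst DMap.id)
    have ha'' : DMap A M (fun q : (Γ × V) × V => a q.1.1) :=
      ha.comp (DMap.fst (DMap.fst DMap.id))
    refine Dfn.and (Dfn.all_mem (DMap.snd DMap.id) (Dfn.and ?_ h')) (Dfn.all_mem ha'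
      (Dfn.imp h' ?_))
    · exact Dfn.mem (DMap.snd DMap.id) ha''
    · exact Dfn.mem (DMap.snd DMap.id) (DMap.snd (DMap.fst DMap.id))

/-- Replacement terms are definable. -/
theorem DMap.rep {a : Γ → V} {F : Γ → V → V} (ha : DMap A M a)
    (h : DMap A M (fun p : Γ × V => F p.1 p.2)) : DMap A M (fun γ => rep (a γ) (F γ)) := by
  refine DMap.of_graph (fun γ hγ => ?_) ?_
  · have h1 : DMap (A ∪ M) M (fun z : V => (γ, z)) :=
      DMap.prodMk (DMap.constΓ (fun i => Or.inr (hγ i)) hγ) DMap.id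
    have h2 : DMap (A ∪ M) M (F γ) := (h.mono Set.subset_union_left).comp h1
    exact ZFm.rep_mem h2 (ha.mem hγ)
  refine Dfn.congr' (P := fun p : Γ × V => (∀ z ∈ p.2, ∃ x ∈ a p.1, F p.1 x = z) ∧
    ∀ x ∈ a p.1, F p.1 x ∈ p.2) (fun p _ => ?_) ?_
  · constructor
    · intro e
      rw [e]
      exact ⟨fun z hz => mem_rep.1 hz, fun x hx => mem_rep.2 ⟨x, hx, rfl⟩⟩
    · rintro ⟨h1, h2⟩
      ext z
      rw [mem_rep]
      refine ⟨h1 z, ?_⟩
      rintro ⟨x, hx, rfl⟩
      exact h2 x hx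
  · have h' : DMap A M (fun q : (Γ × V) × V => F q.1.1 q.2) := h.comp
      (DMap.prodMk (DMap.fst (DMap.fst DMap.id)) (DMap.snd DMap.id))
    have h'' : DMap A M (fun q : ((Γ × V) × V) × V => F q.1.1.1 q.2) := h.comp
      (DMap.prodMk (DMap.fst (DMap.fst (DMap.fst DMap.id))) (DMap.snd DMap.id))
    have ha' : DMap A M (fun q : Γ × V => a q.1) := ha.comp (DMap.fst DMap.id)
    have ha'' : DMap A M (fun q : (Γ × V) × V => a q.1.1) :=
      ha.comp (DMap.fst (DMap.fst DMap.id))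
    refine Dfn.and (Dfn.all_mem (DMap.snd DMap.id) (Dfn.ex_mem ha'' (Dfn.eq h'' ?_)))
      (Dfn.all_mem ha' (Dfn.mem h' ?_))
    · exact DMap.snd (DMap.fst DMap.id)
    · exact DMap.snd (DMap.fst DMap.id)

attribute [is_poly] DMap.sep
attribute [is_poly] DMap.rep

theorem DMap.upair {f g : Γ → V} (hf : DMap A M f) (hg : DMap A M g) :
    DMap A M (fun γ => ({f γ, g γ} : V)) := by
  have h : DMap A M (fun p : V × V => ({p.1, p.2} : V)) := by
    refine DMap.of_graph (fun p hp => ZFm.upair_mem (inM_V.1 (inM_prod.1 hp).1)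
      (inM_prod.1 hp).2) ?_
    have : D0 (fun p : (V × V) × V => p.2 = {p.1.1, p.1.2}) := by apply_rules (transparency := .reducible) (maxDepth := 999) only using is_poly
    exact this.dfn
  exact h.comp (hf.prodMk hg)

theorem DMap.sing {f : Γ → V} (hf : DMap A M f) : DMap A M (fun γ => ({f γ} : V)) :=
  (DMap.upair hf hf).congr fun _ _ => ZFSet.pair_eq_singleton _

attribute [is_poly] DMap.upair
attribute [is_poly] DMap.sing

theorem DMap.pair {f g : Γ → V} (hf : DMap A M f) (hg : DMap A M g) :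
    DMap A M (fun γ => ZFSet.pair (f γ) (g γ)) :=
  DMap.upair (DMap.sing hf) (DMap.upair hf hg)

theorem D0.isSUnion {f g : Γ → V} (hf : Prj f) (hg : Prj g) :
    D0 (fun γ => f γ = (ZFSet.sUnion (g γ) : V)) := by
  have : D0 (fun p : V × V => p.1 = (ZFSet.sUnion p.2 : V)) := by
    refine D0.congr' (P := fun p : V × V => (∀ z ∈ p.1, ∃ y ∈ p.2, z ∈ y) ∧
      ∀ y ∈ p.2, ∀ z ∈ y, z ∈ p.1) (fun p => ?_) (by apply_rules (transparency := .reducible) (maxDepth := 999) only using is_poly)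
    constructor
    · intro e
      rw [e]
      refine ⟨fun z hz => by simpa using hz, fun y hy z hz => ?_⟩
      rw [ZFSet.mem_sUnion]
      exact ⟨y, hy, hz⟩
    · rintro ⟨h1, h2⟩
      ext z
      rw [ZFSet.mem_sUnion]
      constructor
      · exact h1 z
      · rintro ⟨y, hy, hz⟩
        exact h2 y hy z hz
  exact this.comp (hf.prodMk hg)

attribute [is_poly] D0.isSUnion

theorem DMap.sUnion {f : Γ → V} (hf : DMap A M f) :
    DMap A M (fun γ => (ZFSet.sUnion (f γ) : V)) := by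
  have h : DMap A M (fun p : V => (ZFSet.sUnion p : V)) := by
    refine DMap.of_graph (fun p hp => ZFm.sUnion_mem (inM_V.1 hp)) ?_
    have : D0 (fun p : V × V => p.2 = (ZFSet.sUnion p.1 : V)) := by apply_rules (transparency := .reducible) (maxDepth := 999) only using is_poly
    exact this.dfn
  exact h.comp hf

attribute [is_poly] DMap.pair
attribute [is_poly] DMap.sUnion

theorem DMap.union {f g : Γ → V} (hf : DMap A M f) (hg : DMap A M g) :
    DMap A M (fun γ => f γ ∪ g γ) :=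
  (DMap.sUnion (DMap.upair hf hg)).congr fun _ _ => rfl

attribute [is_poly] DMap.union

theorem DMap.insert {f g : Γ → V} (hf : DMap A M f) (hg : DMap A M g) :
    DMap A M (fun γ => (Insert.insert (f γ) (g γ) : V)) :=
  (DMap.union (DMap.sing hf) hg).congr fun _ _ => (ZFSet.insert_eq _ _).symm

theorem DMap.diff {f g : Γ → V} (hf : DMap A M f) (hg : DMap A M g) :
    DMap A M (fun γ => f γ \ g γ) :=
  (DMap.sep (P := fun γ x => x ∉ g γ) hf (Dfn.not (Dfn.mem (DMap.snd DMap.id)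
    (hg.comp (DMap.fst DMap.id))))).congr fun _ _ => rfl

theorem DMap.inter {f g : Γ → V} (hf : DMap A M f) (hg : DMap A M g) :
    DMap A M (fun γ => f γ ∩ g γ) :=
  (DMap.sep (P := fun γ x => x ∈ g γ) hf (Dfn.mem (DMap.snd DMap.id)
    (hg.comp (DMap.fst DMap.id)))).congr fun _ _ => rfl

theorem DMap.empty : DMap A M (fun _ : Γ => (∅ : V)) := by
  refine DMap.of_graph (fun _ _ => ZFm.empty_mem) ?_
  refine Dfn.congr' (P := fun p : Γ × V => ∀ z ∈ p.2, False) (fun p _ => ?_) (by apply_rules (transparency := .reducible) (maxDepth := 999) only using is_poly)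
  constructor
  · intro e z hz
    rw [e] at hz
    exact ZFSet.notMem_empty _ hz
  · intro h
    exact (ZFSet.eq_empty _).2 fun z hz => h z hz

attribute [is_poly] DMap.insert
attribute [is_poly] DMap.diff
attribute [is_poly] DMap.inter
attribute [is_poly] DMap.empty

/-! ### Relations and functions -/

/-- The domain of `f`. -/
noncomputable def dom (f : V) : V :=
  ZFSet.sep (fun x => ∃ y ∈ (ZFSet.sUnion (ZFSet.sUnion f)), ZFSet.pair x y ∈ f) (ZFSet.sUnion (ZFSet.sUnion f))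

/-- The range of `f`. -/
noncomputable def ran (f : V) : V :=
  ZFSet.sep (fun y => ∃ x ∈ (ZFSet.sUnion (ZFSet.sUnion f)), ZFSet.pair x y ∈ f) (ZFSet.sUnion (ZFSet.sUnion f))

theorem mem_sUU_of_pair_left {x y f : V} (h : ZFSet.pair x y ∈ f) :
    x ∈ (ZFSet.sUnion (ZFSet.sUnion f)) := by
  rw [ZFSet.mem_sUnion]
  refine ⟨{x}, ?_, by simp⟩
  rw [ZFSet.mem_sUnion]
  exact ⟨_, h, by simp [ZFSet.pair]⟩

theorem mem_sUU_of_pair_right {x y f : V} (h : ZFSet.pair x y ∈ f) :
    y ∈ (ZFSet.sUnion (ZFSet.sUnion f)) := by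
  rw [ZFSet.mem_sUnion]
  refine ⟨{x, y}, ?_, by simp⟩
  rw [ZFSet.mem_sUnion]
  exact ⟨_, h, by simp [ZFSet.pair]⟩

@[simp] theorem mem_dom {f x : V} : x ∈ dom f ↔ ∃ y, ZFSet.pair x y ∈ f := by
  unfold dom
  rw [ZFSet.mem_sep]
  constructor
  · rintro ⟨_, y, _, h⟩
    exact ⟨y, h⟩
  · rintro ⟨y, h⟩
    exact ⟨mem_sUU_of_pair_left h, y, mem_sUU_of_pair_right h, h⟩

@[simp] theorem mem_ran {f y : V} : y ∈ ran f ↔ ∃ x, ZFSet.pair x y ∈ f := by
  unfold ran
  rw [ZFSet.mem_sep]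
  constructor
  · rintro ⟨_, x, _, h⟩
    exact ⟨x, h⟩
  · rintro ⟨x, h⟩
    exact ⟨mem_sUU_of_pair_right h, x, mem_sUU_of_pair_left h, h⟩

/-- The value of the function `f` at `x` (the union of all `y` with `(x, y) ∈ f`). -/
noncomputable def app (f x : V) : V :=
  ZFSet.sUnion (ZFSet.sep (fun y => ZFSet.pair x y ∈ f) (ZFSet.sUnion (ZFSet.sUnion f)))

/-- The restriction of `f` to `a`. -/
noncomputable def res (f a : V) : V :=
  ZFSet.sep (fun p => ∃ x ∈ a, ∃ y ∈ (ZFSet.sUnion (ZFSet.sUnion f)), p = ZFSet.pair x y) f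

/-- The graph of `F` on the set `a`. -/
noncomputable def gr (F : V → V) (a : V) : V := rep a (fun x => ZFSet.pair x (F x))

/-- `f` is a function (a set of ordered pairs, with unique values). -/
def IsFn (f : V) : Prop :=
  (∀ p ∈ f, ∃ x y, p = ZFSet.pair x y) ∧
    ∀ x y z, ZFSet.pair x y ∈ f → ZFSet.pair x z ∈ f → y = z

theorem IsFn.app_eq {f x y : V} (h : IsFn f) (hxy : ZFSet.pair x y ∈ f) : app f x = y := by
  unfold app
  have : (ZFSet.sep (fun y => ZFSet.pair x y ∈ f) (ZFSet.sUnion (ZFSet.sUnion f)) : V) = {y} := by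
    ext z
    rw [ZFSet.mem_sep, ZFSet.mem_singleton]
    constructor
    · exact fun hz => h.2 x z y hz.2 hxy
    · rintro rfl
      exact ⟨mem_sUU_of_pair_right hxy, hxy⟩
  rw [this]
  simp

theorem IsFn.pair_app {f x : V} (h : IsFn f) (hx : x ∈ dom f) : ZFSet.pair x (app f x) ∈ f := by
  obtain ⟨y, hy⟩ := mem_dom.1 hx
  rwa [h.app_eq hy]

theorem DMap.dom {f : Γ → V} (hf : DMap A M f) : DMap A M (fun γ => dom (f γ)) := by
  have h : DMap A M (fun p : V => CTM.dom p) := by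
    unfold CTM.dom
    apply_rules (transparency := .reducible) (maxDepth := 999) only using is_poly
  exact h.comp hf

theorem DMap.ran {f : Γ → V} (hf : DMap A M f) : DMap A M (fun γ => ran (f γ)) := by
  have h : DMap A M (fun p : V => CTM.ran p) := by
    unfold CTM.ran
    apply_rules (transparency := .reducible) (maxDepth := 999) only using is_poly
  exact h.comp hf

theorem DMap.app {f g : Γ → V} (hf : DMap A M f) (hg : DMap A M g) :
    DMap A M (fun γ => app (f γ) (g γ)) := by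
  have h : DMap A M (fun p : V × V => CTM.app p.1 p.2) := by
    unfold CTM.app
    apply_rules (transparency := .reducible) (maxDepth := 999) only using is_poly
  exact h.comp (hf.prodMk hg)

theorem DMap.res {f g : Γ → V} (hf : DMap A M f) (hg : DMap A M g) :
    DMap A M (fun γ => res (f γ) (g γ)) := by
  have h : DMap A M (fun p : V × V => CTM.res p.1 p.2) := by
    unfold CTM.res
    apply_rules (transparency := .reducible) (maxDepth := 999) only using is_poly
  exact h.comp (hf.prodMk hg)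

attribute [is_poly] DMap.dom
attribute [is_poly] DMap.ran
attribute [is_poly] DMap.app
attribute [is_poly] DMap.res

end

end Pool.Agent.CTM
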